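import Pool.Agent.P.MP_e4ac67_pr.Node

/-! TASK GEO: geometric consequences of the node model. -/

namespace Pool.Agent.P.MP_e4ac67_pr

namespace Node
variable {D : List ℕ → ℕ}

theorem geo_nb_nil (j : ℕ) : nb D [] j = [j] := by simp [nb]

theorem geo_nb_zero {w : List ℕ} (h0 : w ≠ []) : nb D w 0 = w.tail := by simp [nb, h0]

theorem geo_nb_succ (hD : ∀ w, 6 ≤ D w) {w : List ℕ} (h0 : w ≠ []) :
    nb D w (D w - 1 - tau D w) = succ D w := by
  have h1 := hD w
  have h2 := tau_le (D := D) w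
  unfold nb
  rw [if_neg h0, if_neg (by omega), if_neg (by omega), if_neg (by omega), if_neg (by omega),
    if_pos (by omega)]

theorem geo_nb_top (hD : ∀ w, 6 ≤ D w) {w : List ℕ} (h0 : w ≠ []) (ht : tau D w = 1) {j : ℕ}
    (hj : j + 1 = D w) : nb D w j = succ D w.tail := by
  have h1 := hD w
  unfold nb
  rw [if_neg h0, if_neg (by omega), if_neg (by omega), if_neg (by omega), if_neg (by omega),
    if_neg (by omega)]

theorem geo_succ_ne {w : List ℕ} (h0 : w ≠ []) : succ D w ≠ [] := by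
  intro h
  have := length_succ (D := D) w
  rw [h] at this
  exact h0 (List.length_eq_zero_iff.1 this.symm)

theorem geo_pred_ne {w : List ℕ} (h0 : w ≠ []) : pred D w ≠ [] := by
  intro h
  have := length_pred (D := D) w
  rw [h] at this
  exact h0 (List.length_eq_zero_iff.1 this.symm)

/-- reachability by successors -/
abbrev GeoS (D : List ℕ → ℕ) : List ℕ → List ℕ → Prop :=
  Relation.ReflTransGen fun a b => succ D a = b

theorem geoS_up {u : List ℕ} (h0 : u ≠ []) {e e' : ℕ} (h : e ≤ e')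
    (h' : e' + 2 + tau D u ≤ D u) : GeoS D (e :: u) (e' :: u) := by
  induction e', h using Nat.le_induction with
  | base => exact Relation.ReflTransGen.refl
  | succ n hn ih =>
    refine (ih (by omega)).tail ?_
    simp only [succ]
    rw [if_neg h0, if_neg (by omega)]

theorem geoS_next (hD : ∀ w, 6 ≤ D w) {u : List ℕ} (h0 : u ≠ []) {e : ℕ}
    (h' : e + 2 + tau D u ≤ D u) : GeoS D (e :: u) (3 :: succ D u) := by
  refine (geoS_up (e' := D u - 2 - tau D u) h0 (by omega) (by omega)).tail ?_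
  exact succ_last hD h0

theorem geoS_three (hD : ∀ w, 6 ≤ D w) {u u' : List ℕ} (h0 : u ≠ []) (h : GeoS D u u') :
    GeoS D (3 :: u) (3 :: u') ∧ u' ≠ [] := by
  induction h with
  | refl => exact ⟨Relation.ReflTransGen.refl, h0⟩
  | tail _ h2 ih =>
    subst h2
    rename_i b _
    have h1 := hD b
    have h2 := tau_le (D := D) b
    exact ⟨ih.1.trans (geoS_next hD ih.2 (by omega)), geo_succ_ne ih.2⟩

theorem geoS_one (e i : ℕ) (he : e < D []) : GeoS D [e] [(e + i) % D []] := by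
  induction i with
  | zero => simp only [add_zero, Nat.mod_eq_of_lt he]; exact Relation.ReflTransGen.refl
  | succ i ih =>
    refine ih.tail ?_
    simp [succ, ← add_assoc]

theorem geoS_all (hD : ∀ w, 6 ≤ D w) (n : ℕ) : ∀ w w' : List ℕ, Valid D w → Valid D w' →
    w.length = n + 1 → w'.length = n + 1 → GeoS D w w' := by
  induction n with
  | zero =>
    intro w w' h h' l l'
    obtain ⟨e, rfl⟩ := List.length_eq_one_iff.1 l
    obtain ⟨e', rfl⟩ := List.length_eq_one_iff.1 l'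
    have h1 := h.2.1 rfl
    have h2 := h'.2.1 rfl
    have := geoS_one (D := D) e (e' + D [] - e) h1
    rwa [show e + (e' + D [] - e) = e' + D [] by omega, Nat.add_mod_right,
      Nat.mod_eq_of_lt h2] at this
  | succ n ih =>
    intro w w' h h' l l'
    obtain _ | ⟨e, u⟩ := w
    · simp at l
    obtain _ | ⟨e', u'⟩ := w'
    · simp at l'
    simp only [List.length_cons, Nat.add_right_cancel_iff] at l l'
    have h0 : u ≠ [] := by rintro rfl; simp at l
    have h0' : u' ≠ [] := by rintro rfl; simp at l'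
    have s1 := geoS_next hD h0 (h.2.2 h0).2
    have s2 := ih (succ D u) u' (valid_succ hD h.1) h'.1 (by rw [length_succ, l]) l'
    have s3 := (geoS_three hD (geo_succ_ne h0) s2).1
    exact (s1.trans s3).trans (geoS_up h0' (h'.2.2 h0').1 (h'.2.2 h0').2)

/-- angular width of a node -/
noncomputable def geoLen (D : List ℕ → ℕ) : List ℕ → ℝ
  | [] => 1
  | _ :: w => if w = [] then 1 else geoLen D w / ((D w : ℝ) - 4 - tau D w)

/-- angular position of a node -/
noncomputable def geoA (D : List ℕ → ℕ) : List ℕ → ℝ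
  | [] => 0
  | e :: w => if w = [] then e else geoA D w + ((e : ℝ) - 3) * geoLen D (e :: w)

theorem geo_den (hD : ∀ w, 8 ≤ D w) (w : List ℕ) : (2 : ℝ) ≤ (D w : ℝ) - 4 - tau D w := by
  have h1 : (8 : ℝ) ≤ D w := by exact_mod_cast hD w
  have h2 : (tau D w : ℝ) ≤ 1 := by exact_mod_cast tau_le (D := D) w
  linarith

theorem geoLen_pos (hD : ∀ w, 8 ≤ D w) (w : List ℕ) : 0 < geoLen D w := by
  induction w with
  | nil => simp [geoLen]
  | cons e w ih =>
    simp only [geoLen]
    split_ifs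
    · exact one_pos
    · exact div_pos ih (by linarith [geo_den hD w])

theorem geoLen_le (hD : ∀ w, 8 ≤ D w) {w : List ℕ} (h0 : w ≠ []) :
    geoLen D w ≤ 2 * (1 / 2) ^ w.length := by
  induction w with
  | nil => exact absurd rfl h0
  | cons e w ih =>
    simp only [geoLen]
    split_ifs with h
    · subst h; norm_num
    · have h1 := ih h
      have h2 := geo_den hD w
      have h3 := geoLen_pos hD w
      rw [div_le_iff₀ (by linarith), List.length_cons, pow_succ]
      have h4 : (0 : ℝ) ≤ (1 / 2) ^ w.length := by positivity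
      nlinarith

theorem geo_child (hD : ∀ w, 8 ≤ D w) {e : ℕ} {u : List ℕ} (h : Valid D (e :: u)) (h0 : u ≠ []) :
    0 ≤ geoA D (e :: u) - geoA D u ∧ geoA D (e :: u) - geoA D u ≤ geoLen D u := by
  obtain ⟨h1, h2⟩ := h.2.2 h0
  have h1' : (3 : ℝ) ≤ e := by exact_mod_cast h1
  have h2' : (e : ℝ) + 2 + tau D u ≤ D u := by exact_mod_cast h2
  have h3 := geo_den hD u
  have h4 := geoLen_pos hD u
  simp only [geoA, geoLen, if_neg h0, add_sub_cancel_left]
  refine ⟨mul_nonneg (by linarith) (div_nonneg h4.le (by linarith)), ?_⟩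
  rw [← mul_div_assoc, div_le_iff₀ (by linarith)]
  nlinarith

theorem geo_succ (hD : ∀ w, 8 ≤ D w) {w : List ℕ} (h0 : w ≠ []) :
    ∃ m : ℤ, geoA D (succ D w) = geoA D w + geoLen D w + m * (D [] : ℝ) := by
  induction w with
  | nil => exact absurd rfl h0
  | cons e w ih =>
    by_cases h : w = []
    · subst h
      refine ⟨-(((e + 1) / D [] : ℕ) : ℤ), ?_⟩
      have := Nat.mod_add_div (e + 1) (D [])
      have h2 : (((e + 1) % D [] : ℕ) : ℝ) + (D [] : ℝ) * (((e + 1) / D [] : ℕ) : ℝ) = e + 1 := by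
        exact_mod_cast this
      simp only [succ, geoA, geoLen, if_true, Int.cast_neg, Int.cast_natCast]
      linarith
    · by_cases h2 : e + 2 + tau D w = D w
      · obtain ⟨m, hm⟩ := ih h
        refine ⟨m, ?_⟩
        have h2' : (e : ℝ) + 2 + tau D w = D w := by exact_mod_cast h2
        have h3 := geo_den hD w
        simp only [succ, if_neg h, if_pos h2, geoA, geoLen, if_neg (geo_succ_ne h), hm]
        have h4 : ((e : ℝ) - 3) * (geoLen D w / ((D w : ℝ) - 4 - tau D w)) +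
            geoLen D w / ((D w : ℝ) - 4 - tau D w) = geoLen D w := by
          rw [show (e : ℝ) - 3 = ((D w : ℝ) - 4 - tau D w) - 1 by linarith]
          have : (D w : ℝ) - 4 - tau D w ≠ 0 := by linarith
          field_simp
          ring
        push_cast
        linarith
      · refine ⟨0, ?_⟩
        simp only [succ, if_neg h, if_neg h2, geoA, geoLen]
        push_cast
        ring

theorem geo_close (hD : ∀ w, 8 ≤ D w) {w : List ℕ} (h : Valid D w) (h0 : w ≠ []) {j : ℕ}
    (hj : j < D w) (h1 : nb D w j ≠ []) :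
    ∃ m : ℤ, |geoA D w - geoA D (nb D w j) - m * (D [] : ℝ)| ≤ 4 * (1 / 2) ^ w.length := by
  have hD6 : ∀ w, 6 ≤ D w := fun w => by have := hD w; omega
  have hv := valid_nb hD6 h hj
  have hp : (0 : ℝ) ≤ (1 / 2) ^ w.length := by positivity
  have htail : w.tail ≠ [] → 0 ≤ geoA D w - geoA D w.tail ∧
      geoA D w - geoA D w.tail ≤ geoLen D w.tail ∧ geoLen D w.tail ≤ 4 * (1 / 2) ^ w.length := by
    intro ht
    obtain _ | ⟨e, u⟩ := w
    · exact absurd rfl h0
    simp only [List.tail_cons] at ht ⊢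
    have h2 := geo_child hD h ht
    have h3 := geoLen_le hD ht
    refine ⟨h2.1, h2.2, ?_⟩
    rw [List.length_cons, pow_succ]
    linarith
  have hpred : ∃ m : ℤ, geoA D w = geoA D (pred D w) + geoLen D (pred D w) + m * (D [] : ℝ) := by
    have := geo_succ hD (geo_pred_ne (D := D) h0)
    rwa [succ_pred hD6 h] at this
  have hpl : geoLen D (pred D w) ≤ 2 * (1 / 2) ^ w.length := by
    have := geoLen_le hD (geo_pred_ne (D := D) h0)
    rwa [length_pred] at this
  have hpp := geoLen_pos hD (pred D w)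
  have hwl := geoLen_le hD h0
  have hwp := geoLen_pos hD w
  unfold nb at h1 hv ⊢
  rw [if_neg h0] at h1 hv ⊢
  split_ifs at h1 hv ⊢ with c0 c1 c2 c3 c4
  · obtain ⟨a1, a2, a3⟩ := htail h1
    exact ⟨0, abs_le.2 ⟨by push_cast; linarith, by push_cast; linarith⟩⟩
  · obtain ⟨m, hm⟩ := hpred
    exact ⟨m, abs_le.2 ⟨by linarith, by linarith⟩⟩
  · obtain ⟨m, hm⟩ := hpred
    obtain ⟨a1, a2⟩ := geo_child hD hv (geo_pred_ne h0)
    unfold last
    exact ⟨m, abs_le.2 ⟨by linarith, by linarith⟩⟩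
  · obtain ⟨a1, a2⟩ := geo_child hD hv h0
    exact ⟨0, abs_le.2 ⟨by push_cast; linarith, by push_cast; linarith⟩⟩
  · obtain ⟨m, hm⟩ := geo_succ hD h0
    exact ⟨-m, abs_le.2 ⟨by push_cast; linarith, by push_cast; linarith⟩⟩
  · have ht : w.tail ≠ [] := by
      intro ht
      rw [ht] at h1
      exact h1 rfl
    obtain ⟨a1, a2, a3⟩ := htail ht
    obtain ⟨m, hm⟩ := geo_succ hD ht
    exact ⟨-m, abs_le.2 ⟨by push_cast; linarith, by push_cast; linarith⟩⟩

end Node

namespace PlaneTri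
variable {V : Type} {T : PlaneTri V}

/-- the node model based at `o` -/
structure GeoMod (T : PlaneTri V) (o r : V) (ν : V → List ℕ) : Prop where
  h6 : ∀ v, 6 ≤ T.deg v
  adj : T.G.Adj o r
  valid : ∀ v, Node.Valid (T.nD o r) (ν v)
  pj_nu : ∀ v, (T.pj o r (ν v)).1 = v
  nu_pj : ∀ w, Node.Valid (T.nD o r) w → ν (T.pj o r w).1 = w
  len : ∀ v, (ν v).length = T.d o v

theorem exists_geoMod (h6 : ∀ v, 6 ≤ T.deg v) {o r : V} (h : T.G.Adj o r) :
    ∃ ν, GeoMod T o r ν := by
  obtain ⟨ν, h1, h2, h3, h4⟩ := exists_nu h6 h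
  exact ⟨ν, h6, h, h1, h2, h3, h4⟩

theorem exists_geoMod' (h6 : ∀ v, 6 ≤ T.deg v) (o : V) : ∃ r ν, GeoMod T o r ν := by
  obtain ⟨r, hr⟩ := exists_adj (T := T) (fun v => by have := h6 v; omega) o
  exact ⟨r, exists_geoMod h6 hr⟩

namespace GeoMod
variable {o r : V} {ν : V → List ℕ}

theorem hD (M : GeoMod T o r ν) (w : List ℕ) : 6 ≤ T.nD o r w := M.h6 _

theorem nD_nu (M : GeoMod T o r ν) (v : V) : T.nD o r (ν v) = T.deg v := by
  unfold nD; rw [M.pj_nu]

theorem nu_base (M : GeoMod T o r ν) : ν o = [] :=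
  List.length_eq_zero_iff.1 (by rw [M.len, d_self])

theorem nu_ne (M : GeoMod T o r ν) {v : V} (h : v ≠ o) : ν v ≠ [] := by
  intro h0
  have := M.pj_nu v
  rw [h0] at this
  exact h this.symm

theorem nbr (M : GeoMod T o r ν) {v x : V} (h : T.G.Adj v x) :
    ∃ j < T.nD o r (ν v), ν x = Node.nb (T.nD o r) (ν v) j ∧
      T.rot v (T.pj o r (ν v)).2 j = x := by
  have h1 := adj_pj M.adj (ν v)
  rw [M.pj_nu] at h1
  obtain ⟨j, hj, hx⟩ := rot_surj h1 h
  rw [← M.nD_nu] at hj
  refine ⟨j, hj, ?_, hx⟩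
  have h2 := pj_nb M.h6 M.adj (M.valid v) hj
  rw [M.pj_nu, hx] at h2
  rw [← h2]
  exact M.nu_pj _ (Node.valid_nb M.hD (M.valid v) hj)

theorem nbr_base (M : GeoMod T o r ν) {x : V} (h : T.G.Adj o x) :
    ∃ j < T.deg o, ν x = [j] ∧ T.rot o r j = x := by
  obtain ⟨j, h1, h2, h3⟩ := M.nbr h
  rw [M.nD_nu] at h1
  rw [M.nu_base] at h2 h3
  exact ⟨j, h1, by rw [h2, Node.geo_nb_nil], h3⟩

theorem adj_succ (M : GeoMod T o r ν) {w : List ℕ} (hw : Node.Valid (T.nD o r) w) (h0 : w ≠ []) :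
    T.G.Adj (T.pj o r w).1 (T.pj o r (Node.succ (T.nD o r) w)).1 := by
  have h1 := M.hD w
  rw [← Node.geo_nb_succ M.hD h0, pj_nb M.h6 M.adj hw (by omega)]
  exact adj_rot (adj_pj M.adj w) _

theorem d_pj (M : GeoMod T o r ν) {w : List ℕ} (hw : Node.Valid (T.nD o r) w) :
    T.d o (T.pj o r w).1 = w.length := by
  rw [← M.len, M.nu_pj w hw]

end GeoMod

/-- at most four neighbours of `v` are not farther from `c` than `v` -/
theorem st4 (h6 : ∀ v, 6 ≤ T.deg v) (c v : V) :
    ((T.nbr v).filter fun w => T.d c w ≤ T.d c v).card ≤ 4 := by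
  classical
  by_cases hv : v = c
  · subst hv
    rw [Finset.filter_eq_empty_iff.2]
    · simp
    · intro w hw
      rw [d_adj (mem_nbr.1 hw), d_self]
      omega
  obtain ⟨r, ν, M⟩ := exists_geoMod' h6 c
  set D := T.nD c r with hD
  have hsub : ((T.nbr v).filter fun w => T.d c w ≤ T.d c v) ⊆
      ({0, 1, D (ν v) - 1 - Node.tau D (ν v), D (ν v) - 1} : Finset ℕ).image
        (T.rot v (T.pj c r (ν v)).2) := by
    intro x hx
    obtain ⟨h1, h2⟩ := Finset.mem_filter.1 hx
    obtain ⟨j, hj, h3, h4⟩ := M.nbr (mem_nbr.1 h1)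
    refine Finset.mem_image.2 ⟨j, ?_, h4⟩
    have h5 := Node.length_nb M.hD (M.nu_ne hv) hj
    rw [← h3, M.len, M.len] at h5
    simp only [Finset.mem_insert, Finset.mem_singleton]
    rw [← hD] at h5 hj
    split_ifs at h5 <;> omega
  exact (Finset.card_le_card hsub).trans (Finset.card_image_le.trans Finset.card_le_four)

theorem geo_parent {o p : V} {m : ℕ} (h : T.d o p = m + 1) :
    ∃ q, T.G.Adj p q ∧ T.d o q = m := by
  obtain ⟨f, h0, h1, h2, h3⟩ := exists_geo (T := T) o p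
  rw [h] at h1 h2 h3
  refine ⟨f m, ?_, ?_⟩
  · rw [← h1]; exact (h2 m (by omega)).symm
  · have := h3 0 m (by omega) (by omega)
    rwa [h0] at this

/-- the complement of a ball is connected -/
theorem sph (h6 : ∀ v, 6 ≤ T.deg v) (o : V) {n : ℕ} (hn : 1 ≤ n) {p q : V} (hp : n ≤ T.d o p)
    (hq : n ≤ T.d o q) :
    Relation.ReflTransGen (fun a b => T.G.Adj a b ∧ n ≤ T.d o a ∧ n ≤ T.d o b) p q := by
  obtain ⟨r, ν, M⟩ := exists_geoMod' h6 o
  have down : ∀ m, n ≤ m → ∀ p, T.d o p = m → ∃ p', T.d o p' = n ∧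
      Relation.ReflTransGen (fun a b => T.G.Adj a b ∧ n ≤ T.d o a ∧ n ≤ T.d o b) p p' := by
    intro m hm
    induction m, hm using Nat.le_induction with
    | base => exact fun p hp => ⟨p, hp, Relation.ReflTransGen.refl⟩
    | succ m hm ih =>
      intro p hp
      obtain ⟨q, h1, h2⟩ := geo_parent hp
      obtain ⟨p', h3, h4⟩ := ih q h2
      exact ⟨p', h3, Relation.ReflTransGen.head ⟨h1, by omega, by omega⟩ h4⟩
  have around : ∀ w w', Node.Valid (T.nD o r) w → w.length = n → Node.GeoS (T.nD o r) w w' →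
      Node.Valid (T.nD o r) w' ∧ w'.length = n ∧
      Relation.ReflTransGen (fun a b => T.G.Adj a b ∧ n ≤ T.d o a ∧ n ≤ T.d o b)
        (T.pj o r w).1 (T.pj o r w').1 := by
    intro w w' hw hl h
    induction h with
    | refl => exact ⟨hw, hl, Relation.ReflTransGen.refl⟩
    | tail _ h2 ih =>
      subst h2
      obtain ⟨a1, a2, a3⟩ := ih
      have b1 := Node.valid_succ M.hD a1
      refine ⟨b1, by rw [Node.length_succ, a2], a3.tail ⟨M.adj_succ a1 ?_, ?_, ?_⟩⟩
      · rintro rfl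
        simp at a2
        omega
      · rw [M.d_pj a1, a2]
      · rw [M.d_pj b1, Node.length_succ, a2]
  obtain ⟨p', p1, p2⟩ := down _ hp p rfl
  obtain ⟨q', q1, q2⟩ := down _ hq q rfl
  have h3 := (around (ν p') (ν q') (M.valid _) (by rw [M.len, p1])
    (Node.geoS_all M.hD (n - 1) _ _ (M.valid _) (M.valid _) (by rw [M.len]; omega)
      (by rw [M.len]; omega))).2.2
  rw [M.pj_nu, M.pj_nu] at h3
  have hs : ∀ a b, Relation.ReflTransGen
      (fun a b => T.G.Adj a b ∧ n ≤ T.d o a ∧ n ≤ T.d o b) a b → Relation.ReflTransGen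
      (fun a b => T.G.Adj a b ∧ n ≤ T.d o a ∧ n ≤ T.d o b) b a := by
    intro a b h
    induction h with
    | refl => exact Relation.ReflTransGen.refl
    | tail _ h2 ih => exact Relation.ReflTransGen.head ⟨h2.1.symm, h2.2.2, h2.2.1⟩ ih
  exact (p2.trans h3).trans (hs _ _ q2)

/-- triangles are faces -/
theorem tri_face (h6 : ∀ v, 6 ≤ T.deg v) {a u v : V} (hu : T.G.Adj a u) (hv : T.G.Adj a v)
    (huv : T.G.Adj u v) : v = T.nx a u ∨ u = T.nx a v := by
  obtain ⟨ν, M⟩ := exists_geoMod h6 hu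
  have ha := h6 a
  obtain ⟨i, i1, i2, i3⟩ := M.nbr_base hu
  have hi : i = 0 := rot_inj hu i1 (by omega) i3
  subst hi
  obtain ⟨j, j1, j2, j3⟩ := M.nbr_base hv
  obtain ⟨s, s1, s2, -⟩ := M.nbr huv
  rw [i2] at s1 s2
  have hl := Node.length_nb M.hD (w := [0]) (by simp) s1
  have ht : Node.tau (T.nD a u) [0] = 0 := by simp [Node.tau]
  have hD0 : T.nD a u [] = T.deg a := rfl
  rw [← s2, j2, ht] at hl
  simp only [List.length_singleton] at hl
  have hs : s = 1 ∨ s = T.nD a u [0] - 1 - Node.tau (T.nD a u) [0] := by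
    rw [ht]
    split_ifs at hl <;> omega
  rcases hs with hs | hs
  · right
    subst hs
    have : j = T.deg a - 1 := by
      rw [j2] at s2
      simp only [Node.nb, Node.pred, hD0] at s2
      simp at s2
      exact s2
    rw [← j3, ← rot_succ, this, show T.deg a - 1 + 1 = T.deg a by omega, rot_deg hu]
  · left
    rw [hs, Node.geo_nb_succ M.hD (by simp), j2] at s2
    have : j = 1 := by
      simp only [Node.succ, hD0] at s2
      simp at s2
      rw [s2, Nat.mod_eq_of_lt (by omega)]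
    rw [← j3, this, rot_one]

/-- four-cycles have a chord -/
theorem quad_chord (h6 : ∀ v, 6 ≤ T.deg v) {a u v c : V} (hu : T.G.Adj a u) (hv : T.G.Adj a v)
    (huc : T.G.Adj u c) (hvc : T.G.Adj v c) (huv : u ≠ v) (hca : c ≠ a) :
    T.G.Adj a c ∨ T.G.Adj u v := by
  by_cases hac : T.G.Adj a c
  · exact Or.inl hac
  right
  obtain ⟨ν, M⟩ := exists_geoMod h6 hu
  have d2 : T.d a c = 2 := by
    have h1 := d_adj_le (T := T) a huc
    rw [d_adj hu] at h1
    have h2 : T.d a c ≠ 0 := fun h => hca (d_eq_zero.1 h).symm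
    have h3 : T.d a c ≠ 1 := fun h => hac (adj_of_d h)
    omega
  have h0 := M.nu_ne hca
  have key : ∀ x, T.G.Adj a x → T.G.Adj x c →
      ν x = (ν c).tail ∨ ν x = Node.succ (T.nD a u) (ν c).tail := by
    intro x h1 h2
    obtain ⟨j, j1, j2, -⟩ := M.nbr h2.symm
    have hl := Node.length_nb M.hD h0 j1
    rw [← j2, M.len, M.len, d_adj h1, d2] at hl
    have : j = 0 ∨ (Node.tau (T.nD a u) (ν c) = 1 ∧ j + 1 = T.nD a u (ν c)) := by
      by_contra hc
      rw [if_neg hc] at hl
      split_ifs at hl <;> omega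
    rcases this with rfl | ⟨t1, t2⟩
    · exact Or.inl (by rw [j2, Node.geo_nb_zero h0])
    · exact Or.inr (by rw [j2, Node.geo_nb_top M.hD h0 t1 t2])
  have hne : ν u ≠ ν v := fun h => huv (by rw [← M.pj_nu u, h, M.pj_nu])
  have ht : (ν c).tail ≠ [] := by
    intro h
    have h1 := List.length_tail (l := ν c)
    rw [h, M.len, d2] at h1
    simp at h1
  have hadj := M.adj_succ (Node.valid_tail (M.valid c)) ht
  rcases key u hu huc with h1 | h1 <;> rcases key v hv hvc with h2 | h2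
  · exact absurd (h1.trans h2.symm) hne
  · rwa [← h2, ← h1, M.pj_nu, M.pj_nu] at hadj
  · rw [← h1, ← h2, M.pj_nu, M.pj_nu] at hadj
    exact hadj.symm
  · exact absurd (h1.trans h2.symm) hne

theorem geo_int {D s : ℕ} {t m : ℤ} (h : t + s = m * D) :
    ((min s (D - s) : ℕ) : ℤ) ≤ |t| := by
  rcases le_or_gt m 0 with hm | hm
  · have : m * D ≤ 0 := mul_nonpos_of_nonpos_of_nonneg hm (Int.natCast_nonneg D)
    have h2 := neg_le_abs t
    omega
  · have : (D : ℤ) ≤ m * D := le_mul_of_one_le_left (Int.natCast_nonneg D) hm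
    have h2 := le_abs_self t
    have h3 := abs_nonneg t
    omega

theorem exists_rho (h8 : ∀ v, 8 ≤ T.deg v) : Nonempty (Rho T) := by
  have h6 : ∀ v, 6 ≤ T.deg v := fun v => by have := h8 v; omega
  choose r ν M using exists_geoMod' h6
  let A : (z : V) → V → AddCircle (T.deg z : ℝ) := fun z p =>
    (Node.geoA (T.nD z (r z)) (ν z p) : ℝ)
  refine ⟨⟨fun z p q => dist (A z p) (A z q), fun z p q => dist_comm _ _,
    fun z p q s => dist_triangle _ _ _, fun z p => dist_self _, ?_, ?_⟩⟩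
  · intro z p q h hp hq
    obtain ⟨j, j1, j2, -⟩ := (M z).nbr h
    obtain ⟨m, hm⟩ := Node.geo_close (D := T.nD z (r z)) (fun w => h8 _) ((M z).valid p)
      ((M z).nu_ne hp) j1 (j2 ▸ (M z).nu_ne hq)
    rw [← j2, (M z).len] at hm
    refine le_trans ?_ hm
    have hD0 : T.nD z (r z) [] = T.deg z := rfl
    rw [hD0, dist_eq_norm]
    have : A z p - A z q = ((Node.geoA (T.nD z (r z)) (ν z p) - Node.geoA (T.nD z (r z)) (ν z q)
        - m * (T.deg z : ℝ) : ℝ) : AddCircle (T.deg z : ℝ)) := by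
      rw [AddCircle.coe_sub, AddCircle.coe_sub, ← zsmul_eq_mul, AddCircle.coe_zsmul,
        AddCircle.coe_period, smul_zero, sub_zero]
    rw [this]
    exact QuotientAddGroup.norm_mk_le_norm
  · intro z a c ha hc
    obtain ⟨i, i1, i2, i3⟩ := (M z).nbr_base ha
    obtain ⟨j, j1, j2, j3⟩ := (M z).nbr_base hc
    obtain ⟨s, s1, s2⟩ := rot_surj ha hc
    have hmod : (i + s) % T.deg z = j % T.deg z := by
      rw [← rot_eq_iff (M z).adj, rot_add, i3, s2, j3]
    have e1 : T.ang z a c = min s (T.deg z - s) := by rw [← s2, ang_rot ha s1]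
    have e2 : A z a - A z c = (((i : ℝ) - j : ℝ) : AddCircle (T.deg z : ℝ)) := by
      simp only [A, i2, j2, Node.geoA, if_true, AddCircle.coe_sub]
    show _ ≤ dist (A z a) (A z c)
    rw [dist_eq_norm, e2, AddCircle.norm_eq, e1]
    obtain ⟨m, hm⟩ : (T.deg z : ℤ) ∣ ((i + s : ℕ) : ℤ) - j := (Nat.ModEq.dvd hmod.symm)
    generalize round ((T.deg z : ℝ)⁻¹ * ((i : ℝ) - j)) = n
    have := geo_int (D := T.deg z) (s := s) (t := i - j - n * T.deg z) (m := m - n)
      (by push_cast at hm; linarith)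
    exact_mod_cast this

end PlaneTri
end Pool.Agent.P.MP_e4ac67_pr
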