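import Pool.Agent.P.MP_e4ac67_pr.Defs

/-! Rotations, angles, distances, turn words. -/

open scoped ENNReal

namespace Pool.Agent.P.MP_e4ac67_pr

namespace PlaneTri
variable {V : Type} (T : PlaneTri V)

def rot (x a : V) (j : ℕ) : V := (T.nx x)^[j] a

/-- graph distance -/
noncomputable abbrev d (a b : V) : ℕ := T.G.dist a b

noncomputable def pos (x a c : V) : ℕ := sInf {j | T.rot x a j = c}

noncomputable def ang (x a c : V) : ℕ := min (T.pos x a c) (T.deg x - T.pos x a c)

noncomputable def nbr (v : V) : Finset V := (T.locFin v).toFinset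

variable {T}

theorem mem_nbr {v w : V} : w ∈ T.nbr v ↔ T.G.Adj v w := by simp [nbr]

theorem card_nbr (v : V) : (T.nbr v).card = T.deg v := by
  rw [nbr, deg, Set.ncard_eq_toFinset_card _ (T.locFin v)]

@[simp] theorem rot_zero (x a : V) : T.rot x a 0 = a := rfl

theorem rot_succ (x a : V) (j : ℕ) : T.rot x a (j + 1) = T.nx x (T.rot x a j) :=
  Function.iterate_succ_apply' _ _ _

theorem rot_one (x a : V) : T.rot x a 1 = T.nx x a := rfl

theorem rot_add (x a : V) (i j : ℕ) : T.rot x a (i + j) = T.rot x (T.rot x a i) j := by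
  unfold rot; rw [add_comm, Function.iterate_add_apply]

theorem adj_nx1 {v w : V} (h : T.G.Adj v w) : T.G.Adj v (T.nx v w) := (T.adj_nx v w h).1
theorem adj_nx2 {v w : V} (h : T.G.Adj v w) : T.G.Adj w (T.nx v w) := (T.adj_nx v w h).2

theorem adj_rot {x a : V} (h : T.G.Adj x a) (j : ℕ) : T.G.Adj x (T.rot x a j) := by
  induction j with
  | zero => exact h
  | succ j ih => rw [rot_succ]; exact adj_nx1 ih

/-- if `nx v w = u` then `nx w u = v` -/
theorem face1 {v w u : V} (h : T.G.Adj v w) (hu : T.nx v w = u) : T.nx w u = v := by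
  rw [← hu]; exact T.face v w h

/-- if `nx v w = u` then `nx u v = w` -/
theorem face2 {v w u : V} (h : T.G.Adj v w) (hu : T.nx v w = u) : T.nx u v = w :=
  face1 (hu ▸ adj_nx2 h) (face1 h hu)

theorem nx_inj {v a b : V} (ha : T.G.Adj v a) (hb : T.G.Adj v b) (h : T.nx v a = T.nx v b) :
    a = b := by
  rw [← face2 ha rfl, h, face2 hb rfl]

theorem rot_cancel {x a b : V} (ha : T.G.Adj x a) (hb : T.G.Adj x b) (j : ℕ)
    (h : T.rot x a j = T.rot x b j) : a = b := by
  induction j with
  | zero => exact h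
  | succ j ih =>
    rw [rot_succ, rot_succ] at h
    exact ih (nx_inj (adj_rot ha j) (adj_rot hb j) h)

theorem mem_periodic {x a : V} (h : T.G.Adj x a) : a ∈ Function.periodicPts (T.nx x) := by
  have hf : (T.G.neighborSet x).Finite := T.locFin x
  obtain ⟨i, j, hij, he⟩ : ∃ i j : ℕ, i < j ∧ T.rot x a i = T.rot x a j := by
    have := hf.to_subtype
    obtain ⟨i, j, hne, he⟩ := Finite.exists_ne_map_eq_of_infinite
      (fun j : ℕ => (⟨T.rot x a j, adj_rot h j⟩ : T.G.neighborSet x))
    have he' : T.rot x a i = T.rot x a j := congrArg Subtype.val he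
    rcases lt_or_gt_of_ne hne with h1 | h1
    · exact ⟨i, j, h1, he'⟩
    · exact ⟨j, i, h1, he'.symm⟩
  obtain ⟨m, rfl⟩ := Nat.exists_eq_add_of_lt hij
  refine ⟨m + 1, Nat.succ_pos _, ?_⟩
  have : T.rot x a (i + m + 1) = T.rot x (T.rot x a (m + 1)) i := by
    rw [← rot_add]; congr 1; omega
  rw [this] at he
  exact (rot_cancel h (adj_rot h _) i he).symm

theorem minPer {x a : V} (h : T.G.Adj x a) : Function.minimalPeriod (T.nx x) a = T.deg x := by
  have hp := mem_periodic h
  have h1 : (fun j => (T.nx x)^[j] a) '' Set.Iio (Function.minimalPeriod (T.nx x) a)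
      = T.G.neighborSet x := by
    ext c
    constructor
    · rintro ⟨j, -, rfl⟩; exact adj_rot h j
    · intro hc
      obtain ⟨n, rfl⟩ := T.cyc x a c h hc
      refine ⟨n % Function.minimalPeriod (T.nx x) a,
        Nat.mod_lt _ (Function.minimalPeriod_pos_of_mem_periodicPts hp), ?_⟩
      exact Function.iterate_mod_minimalPeriod_eq
  rw [deg, ← h1, Set.InjOn.ncard_image Function.iterate_injOn_Iio_minimalPeriod]
  simp

theorem deg_pos {x a : V} (h : T.G.Adj x a) : 0 < T.deg x := by
  rw [← minPer h]; exact Function.minimalPeriod_pos_of_mem_periodicPts (mem_periodic h)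

theorem rot_mod {x a : V} (h : T.G.Adj x a) (j : ℕ) : T.rot x a (j % T.deg x) = T.rot x a j := by
  rw [← minPer h]; exact Function.iterate_mod_minimalPeriod_eq

theorem rot_deg {x a : V} (h : T.G.Adj x a) : T.rot x a (T.deg x) = a := by
  rw [← rot_mod h]; simp

theorem rot_inj {x a : V} (h : T.G.Adj x a) {i j : ℕ} (hi : i < T.deg x) (hj : j < T.deg x)
    (e : T.rot x a i = T.rot x a j) : i = j := by
  rw [← minPer h] at hi hj
  exact Function.iterate_injOn_Iio_minimalPeriod hi hj e

theorem rot_eq_iff {x a : V} (h : T.G.Adj x a) {i j : ℕ} :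
    T.rot x a i = T.rot x a j ↔ i % T.deg x = j % T.deg x := by
  constructor
  · intro e
    refine rot_inj h (Nat.mod_lt _ (deg_pos h)) (Nat.mod_lt _ (deg_pos h)) ?_
    rw [rot_mod h, rot_mod h, e]
  · intro e
    rw [← rot_mod h i, e, rot_mod h]

theorem rot_surj {x a c : V} (h : T.G.Adj x a) (hc : T.G.Adj x c) :
    ∃ j < T.deg x, T.rot x a j = c := by
  obtain ⟨n, hn⟩ := T.cyc x a c h hc
  exact ⟨n % T.deg x, Nat.mod_lt _ (deg_pos h), by rw [rot_mod h]; exact hn⟩

theorem pos_rot {x a : V} (h : T.G.Adj x a) {j : ℕ} (hj : j < T.deg x) :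
    T.pos x a (T.rot x a j) = j := by
  have hne : {i | T.rot x a i = T.rot x a j}.Nonempty := ⟨j, rfl⟩
  have h1 : T.pos x a (T.rot x a j) ≤ j := Nat.sInf_le rfl
  exact rot_inj h (lt_of_le_of_lt h1 hj) hj (Nat.sInf_mem hne)

theorem pos_lt {x a c : V} (h : T.G.Adj x a) (hc : T.G.Adj x c) : T.pos x a c < T.deg x := by
  obtain ⟨j, hj, rfl⟩ := rot_surj h hc
  rwa [pos_rot h hj]

theorem rot_pos {x a c : V} (h : T.G.Adj x a) (hc : T.G.Adj x c) :
    T.rot x a (T.pos x a c) = c := by
  obtain ⟨j, hj, rfl⟩ := rot_surj h hc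
  rw [pos_rot h hj]

theorem ang_rot {x a : V} (h : T.G.Adj x a) {j : ℕ} (hj : j < T.deg x) :
    T.ang x a (T.rot x a j) = min j (T.deg x - j) := by
  rw [ang, pos_rot h hj]

theorem ang_symm {x a c : V} (h : T.G.Adj x a) (hc : T.G.Adj x c) :
    T.ang x a c = T.ang x c a := by
  obtain ⟨j, hj, rfl⟩ := rot_surj h hc
  rcases Nat.eq_zero_or_pos j with rfl | hj0
  · rfl
  have : T.rot x (T.rot x a j) (T.deg x - j) = a := by
    rw [← rot_add, Nat.add_sub_cancel' hj.le, rot_deg h]
  have h2 := ang_rot (T := T) (adj_rot h j) (j := T.deg x - j) (by omega)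
  rw [this] at h2
  rw [ang_rot h hj, h2]
  omega

theorem d_tri (a b c : V) : T.d a c ≤ T.d a b + T.d b c := T.conn.dist_triangle
theorem d_comm (a b : V) : T.d a b = T.d b a := SimpleGraph.dist_comm
theorem d_self (a : V) : T.d a a = 0 := SimpleGraph.dist_self
theorem d_eq_zero {a b : V} : T.d a b = 0 ↔ a = b := T.conn.dist_eq_zero_iff
theorem d_adj {a b : V} (h : T.G.Adj a b) : T.d a b = 1 := SimpleGraph.dist_eq_one_iff_adj.2 h
theorem adj_of_d {a b : V} (h : T.d a b = 1) : T.G.Adj a b := SimpleGraph.dist_eq_one_iff_adj.1 h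
theorem d_adj_le (c : V) {a b : V} (h : T.G.Adj a b) : T.d c b ≤ T.d c a + 1 := by
  have := d_tri (T := T) c a b; rwa [d_adj h] at this

theorem d_path_le (f : ℕ → V) (n : ℕ) (h : ∀ i < n, T.G.Adj (f i) (f (i + 1))) {i j : ℕ}
    (hij : i ≤ j) (hj : j ≤ n) : T.d (f i) (f j) ≤ j - i := by
  induction j, hij using Nat.le_induction with
  | base => simp
  | succ j hij ih =>
    have := ih (by omega)
    have h2 := d_adj_le (T := T) (f i) (h j (by omega))
    omega

/-- geodesics -/
theorem exists_geo (a b : V) : ∃ f : ℕ → V, f 0 = a ∧ f (T.d a b) = b ∧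
    (∀ i < T.d a b, T.G.Adj (f i) (f (i + 1))) ∧
    ∀ i j, i ≤ j → j ≤ T.d a b → T.d (f i) (f j) = j - i := by
  obtain ⟨p, hp⟩ := (T.conn a b).exists_walk_length_eq_dist
  have hadj : ∀ i < T.d a b, T.G.Adj (p.getVert i) (p.getVert (i + 1)) := fun i hi =>
    p.adj_getVert_succ (by rw [hp]; exact hi)
  have hb : p.getVert (T.d a b) = b := by
    have := p.getVert_length; rwa [hp] at this
  refine ⟨p.getVert, p.getVert_zero, hb, hadj, fun i j hij hj => ?_⟩
  have h1 := d_path_le _ _ hadj hij hj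
  have h2 := d_path_le _ _ hadj (Nat.zero_le i) (hij.trans hj)
  have h3 := d_path_le _ _ hadj hj le_rfl
  rw [p.getVert_zero] at h2
  rw [hb] at h3
  have h4 := d_tri (T := T) a (p.getVert i) b
  have h5 := d_tri (T := T) (p.getVert i) (p.getVert j) b
  omega

theorem ball_finite (v : V) (n : ℕ) : {w | T.d v w ≤ n}.Finite := by
  induction n with
  | zero => exact (Set.finite_singleton v).subset fun w hw => (d_eq_zero.1 (Nat.le_zero.1 hw)).symm
  | succ n ih =>
    refine (ih.union (ih.biUnion fun x _ => T.locFin x)).subset fun w hw => ?_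
    by_cases h : T.d v w ≤ n
    · exact Or.inl h
    obtain ⟨f, h0, h1, h2, h3⟩ := exists_geo (T := T) v w
    have hw' : T.d v w = n + 1 := by simp only [Set.mem_ofPred_eq] at hw; omega
    rw [hw'] at h1 h2 h3
    refine Or.inr (Set.mem_biUnion (x := f n) ?_ ?_)
    · have := h3 0 n (by omega) (by omega)
      rw [h0] at this
      simp only [Set.mem_ofPred_eq]; omega
    · rw [← h1]; exact h2 n (by omega)

theorem countable (T : PlaneTri V) : Countable V := by
  obtain ⟨v⟩ := T.conn.nonempty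
  rw [← Set.countable_univ_iff]
  refine (Set.countable_iUnion fun n => (ball_finite (T := T) v n).countable).mono fun w _ => ?_
  exact Set.mem_iUnion.2 ⟨T.d v w, le_refl (T.d v w)⟩

theorem exists_adj (hT : ∀ v, 0 < T.deg v) (v : V) : ∃ w, T.G.Adj v w := by
  have := hT v
  rw [← card_nbr, Finset.card_pos] at this
  obtain ⟨w, hw⟩ := this
  exact ⟨w, mem_nbr.1 hw⟩

end PlaneTri

/-- The lift of a letter to a vertex of degree `D ≥ k`. -/
def lift (k D e : ℕ) : ℕ := if e ≤ k / 2 then e else e + (D - k)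

theorem lift_lt {k D e : ℕ} (h : k ≤ D) (he : e < k) : lift k D e < D := by
  unfold lift; split_ifs <;> omega

theorem lift_inj {k D e e' : ℕ} (h : lift k D e = lift k D e') : e = e' := by
  unfold lift at h; split_ifs at h <;> omega

theorem lift_reg (k e : ℕ) : lift k k e = e := by
  unfold lift; split_ifs <;> omega

theorem lift_ne_bonus {k D e : ℕ} (h : k < D) : lift k D e ≠ k / 2 + 1 := by
  unfold lift; split_ifs <;> omega

abbrev Wd (k : ℕ) := List (Fin k)

namespace PlaneTri
variable {V : Type} (T : PlaneTri V) {k : ℕ}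

noncomputable def step (g : V × V) (e : Fin k) : V × V :=
  (g.2, T.rot g.2 g.1 (lift k (T.deg g.2) e))

noncomputable def run (g : V × V) (w : Wd k) : V × V := w.foldl T.step g

noncomputable def hd (g : V × V) (w : Wd k) : V := (T.run g w).2

/-- the bonus dart out of the head of `g` -/
noncomputable def bonus (k : ℕ) (g : V × V) : V × V := (g.2, T.rot g.2 g.1 (k / 2 + 1))

/-- `g` is a dart -/
abbrev Dart (g : V × V) : Prop := T.G.Adj g.1 g.2

variable {T}

@[simp] theorem step_fst (g : V × V) (e : Fin k) : (T.step g e).1 = g.2 := rfl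
@[simp] theorem run_nil (g : V × V) : T.run g ([] : Wd k) = g := rfl
@[simp] theorem hd_nil (g : V × V) : T.hd g ([] : Wd k) = g.2 := rfl
theorem run_cons (g : V × V) (e : Fin k) (w : Wd k) : T.run g (e :: w) = T.run (T.step g e) w := rfl
theorem hd_cons (g : V × V) (e : Fin k) (w : Wd k) : T.hd g (e :: w) = T.hd (T.step g e) w := rfl
theorem run_append (g : V × V) (u w : Wd k) : T.run g (u ++ w) = T.run (T.run g u) w :=
  List.foldl_append
theorem hd_append (g : V × V) (u w : Wd k) : T.hd g (u ++ w) = T.hd (T.run g u) w := by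
  rw [hd, run_append]; rfl
theorem run_snoc (g : V × V) (u : Wd k) (e : Fin k) :
    T.run g (u ++ [e]) = T.step (T.run g u) e := run_append _ _ _
theorem hd_snoc (g : V × V) (u : Wd k) (e : Fin k) :
    T.hd g (u ++ [e]) = (T.step (T.run g u) e).2 := by rw [hd, run_snoc]
theorem run_snoc_fst (g : V × V) (u : Wd k) (e : Fin k) :
    (T.run g (u ++ [e])).1 = T.hd g u := by rw [run_snoc]; rfl
@[simp] theorem run_snd (g : V × V) (u : Wd k) : (T.run g u).2 = T.hd g u := rfl

theorem step_dart {g : V × V} (h : T.Dart g) (e : Fin k) : T.Dart (T.step g e) :=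
  adj_rot h.symm _

theorem run_dart {g : V × V} (h : T.Dart g) (w : Wd k) : T.Dart (T.run g w) := by
  induction w generalizing g with
  | nil => exact h
  | cons e w ih => exact ih (step_dart h e)

theorem bonus_dart {g : V × V} (h : T.Dart g) (k : ℕ) : T.Dart (T.bonus k g) := adj_rot h.symm _

theorem adj_hd_snoc {g : V × V} (h : T.Dart g) (u : Wd k) (e : Fin k) :
    T.G.Adj (T.hd g u) (T.hd g (u ++ [e])) := by
  have := run_dart h (u ++ [e])
  rwa [Dart, run_snoc_fst] at this

theorem take_succ_eq (w : Wd k) {i : ℕ} (hi : i < w.length) :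
    w.take (i + 1) = w.take i ++ [w[i]] := by
  rw [List.take_add_one, List.getElem?_eq_getElem hi]; rfl

theorem run_take_fst (g : V × V) (w : Wd k) {i : ℕ} (hi : i < w.length) :
    (T.run g (w.take (i + 1))).1 = T.hd g (w.take i) := by
  rw [take_succ_eq w hi, run_snoc_fst]

theorem adj_hd_take {g : V × V} (h : T.Dart g) (w : Wd k) {i : ℕ} (hi : i < w.length) :
    T.G.Adj (T.hd g (w.take i)) (T.hd g (w.take (i + 1))) := by
  rw [take_succ_eq w hi]; exact adj_hd_snoc h _ _

theorem d_hd_take_le {g : V × V} (h : T.Dart g) (w : Wd k) {i j : ℕ} (hij : i ≤ j)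
    (hj : j ≤ w.length) : T.d (T.hd g (w.take i)) (T.hd g (w.take j)) ≤ j - i :=
  d_path_le (fun i => T.hd g (w.take i)) w.length (fun _ hi => adj_hd_take h w hi) hij hj

theorem d_hd_le {g : V × V} (h : T.Dart g) (w : Wd k) : T.d g.2 (T.hd g w) ≤ w.length := by
  simpa using d_hd_take_le h w (Nat.zero_le w.length) le_rfl

theorem step_inj {g : V × V} (h : T.Dart g) (hk : k ≤ T.deg g.2) {e e' : Fin k}
    (he : (T.step g e).2 = (T.step g e').2) : e = e' :=
  Fin.ext (lift_inj (rot_inj h.symm (lift_lt hk e.2) (lift_lt hk e'.2) he))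

theorem exists_step_reg {g : V × V} (h : T.Dart g) (hk : T.deg g.2 = k) {c : V}
    (hc : T.G.Adj g.2 c) : ∃ e : Fin k, (T.step g e).2 = c := by
  obtain ⟨j, hj, rfl⟩ := rot_surj h.symm hc
  refine ⟨⟨j, hk ▸ hj⟩, ?_⟩
  simp only [step, hk, lift_reg]

theorem exists_step_small {g : V × V} (h : T.Dart g) (hk : k ≤ T.deg g.2) {c : V}
    (hc : T.G.Adj g.2 c) (ha : T.ang g.2 g.1 c < k / 2) : ∃ e : Fin k, (T.step g e).2 = c := by
  obtain ⟨j, hj, rfl⟩ := rot_surj h.symm hc
  rw [ang_rot h.symm hj] at ha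
  by_cases h1 : j < k / 2
  · refine ⟨⟨j, by omega⟩, ?_⟩
    simp only [step, lift, if_pos h1.le]
  · refine ⟨⟨j - (T.deg g.2 - k), by omega⟩, ?_⟩
    simp only [step, lift]
    rw [if_neg (by omega)]
    congr 1; omega

theorem step_ne_bonus {g : V × V} (h : T.Dart g) (hk : k < T.deg g.2) (h2 : 2 ≤ k) (e : Fin k) :
    (T.step g e).2 ≠ (T.bonus k g).2 := fun he =>
  lift_ne_bonus hk (rot_inj h.symm (lift_lt hk.le e.2) (by omega) he)

theorem ang_bonus {g : V × V} (h : T.Dart g) (hk : k < T.deg g.2) (h2 : 2 ≤ k) :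
    k / 2 ≤ T.ang g.2 g.1 (T.bonus k g).2 := by
  have := ang_rot (T := T) h.symm (j := k / 2 + 1) (by omega)
  simp only [bonus]
  omega

theorem word_unique (hT : ∀ v, k ≤ T.deg v) {g : V × V} (h : T.Dart g) {w w' : Wd k}
    (hl : w.length = w'.length) (he : ∀ i ≤ w.length, T.hd g (w.take i) = T.hd g (w'.take i)) :
    w = w' := by
  induction w generalizing g w' with
  | nil => exact (List.length_eq_zero_iff.1 hl.symm).symm
  | cons e w ih =>
    obtain _ | ⟨e', w'⟩ := w'
    · simp at hl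
    have h1 := he 1 (by simp)
    have h2 : e = e' := step_inj h (hT _) h1
    subst h2
    congr 1
    refine ih (step_dart h e) (by simpa using hl) fun i hi => ?_
    have := he (i + 1) (by simpa using hi)
    simpa [hd_cons] using this

theorem word_along {g : V × V} (h : T.Dart g) (f : ℕ → V) (n : ℕ) (h0 : f 0 = g.2)
    (hadj : ∀ i < n, T.G.Adj (f i) (f (i + 1))) (hreg : ∀ i < n, T.deg (f i) = k) :
    ∃ w : Wd k, w.length = n ∧ ∀ i ≤ n, T.hd g (w.take i) = f i := by
  induction n generalizing g f with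
  | zero => exact ⟨[], rfl, fun i hi => by simp [Nat.le_zero.1 hi, h0]⟩
  | succ n ih =>
    obtain ⟨e, he⟩ := exists_step_reg (k := k) h (h0 ▸ hreg 0 (by omega))
      (c := f 1) (h0 ▸ hadj 0 (by omega))
    obtain ⟨w, hw, hw'⟩ := ih (step_dart h e) (fun i => f (i + 1)) he.symm
      (fun i hi => hadj (i + 1) (by omega)) (fun i hi => hreg (i + 1) (by omega))
    refine ⟨e :: w, by simp [hw], fun i hi => ?_⟩
    obtain _ | i := i
    · simp [h0]
    · simpa [hd_cons] using hw' i (by omega)

end PlaneTri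

/-- indicator of a proposition -/
noncomputable def ind (A : Prop) : ℝ≥0∞ := by classical exact if A then 1 else 0

theorem ind_of {A : Prop} (h : A) : ind A = 1 := by simp [ind, h]
theorem ind_of_not {A : Prop} (h : ¬A) : ind A = 0 := by simp [ind, h]
theorem ind_le_one (A : Prop) : ind A ≤ 1 := by unfold ind; split_ifs <;> simp
theorem ind_congr {A B : Prop} (h : A ↔ B) : ind A = ind B := by rw [propext h]
theorem ind_mono {A B : Prop} (h : A → B) : ind A ≤ ind B := by
  by_cases hA : A
  · rw [ind_of hA, ind_of (h hA)]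
  · rw [ind_of_not hA]; exact zero_le
theorem ind_and (A B : Prop) : ind (A ∧ B) = ind A * ind B := by
  by_cases hA : A <;> by_cases hB : B <;> simp [ind, hA, hB]
theorem ind_or_le (A B : Prop) : ind (A ∨ B) ≤ ind A + ind B := by
  by_cases hA : A <;> by_cases hB : B <;> simp [ind, hA, hB]
theorem ind_le {A : Prop} {x : ℝ≥0∞} (h : A → 1 ≤ x) : ind A ≤ x := by
  by_cases hA : A
  · rw [ind_of hA]; exact h hA
  · rw [ind_of_not hA]; exact zero_le
theorem ind_mul_le {A : Prop} {x y : ℝ≥0∞} (h : A → x ≤ y) : ind A * x ≤ y := by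
  by_cases hA : A
  · rw [ind_of hA, one_mul]; exact h hA
  · rw [ind_of_not hA, zero_mul]; exact zero_le
theorem of_ind_mul_ne {A : Prop} {x : ℝ≥0∞} (h : ind A * x ≠ 0) : A := by
  by_contra hA; exact h (by rw [ind_of_not hA, zero_mul])
theorem ind_exists_le {ι : Type*} (A : ι → Prop) : ind (∃ i, A i) ≤ ∑' i, ind (A i) :=
  ind_le fun ⟨i, hi⟩ => (ind_of hi).symm.le.trans (ENNReal.le_tsum (f := fun i => ind (A i)) i)

/-- at most one index satisfies `A` -/
theorem tsum_ind_le_of_unique {ι : Type*} (A : ι → Prop) {B : Prop} (hB : ∀ i, A i → B)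
    (h : ∀ i j, A i → A j → i = j) : ∑' i, ind (A i) ≤ ind B := by
  by_cases hex : ∃ i, A i
  · obtain ⟨i, hi⟩ := hex
    rw [tsum_eq_single i fun j hj => ind_of_not fun hj' => hj (h j i hj' hi)]
    exact ind_mono fun _ => hB i hi
  · rw [ENNReal.tsum_eq_zero.2 fun i => ind_of_not fun hi => hex ⟨i, hi⟩]; exact zero_le

/-- compare two sums through an injection defined on the support -/
theorem tsum_le_of_enc {α β : Type*} (f : α → ℝ≥0∞) (g : β → ℝ≥0∞) (enc : α → β)
    (hinj : ∀ a a', f a ≠ 0 → f a' ≠ 0 → enc a = enc a' → a = a')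
    (hle : ∀ a, f a ≠ 0 → f a ≤ g (enc a)) : ∑' a, f a ≤ ∑' b, g b := by
  rw [← tsum_subtype_support f]
  calc ∑' a : Function.support f, f a ≤ ∑' a : Function.support f, g (enc a) :=
        ENNReal.tsum_le_tsum fun a => hle a a.2
    _ ≤ ∑' b, g b := ENNReal.tsum_comp_le_tsum_of_injective
        (f := fun a : Function.support f => enc a)
        (fun a a' h => Subtype.ext (hinj _ _ a.2 a'.2 h)) g

/-- compare two sums through a decoding map -/
theorem tsum_le_of_dec {α β : Type*} (f : α → ℝ≥0∞) (g : β → ℝ≥0∞) (dec : β → α)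
    (h : ∀ a, f a ≠ 0 → ∃ b, dec b = a ∧ f a ≤ g b) : ∑' a, f a ≤ ∑' b, g b := by
  rw [← tsum_subtype_support f]
  choose s hs hs' using fun a : Function.support f => h a a.2
  calc ∑' a : Function.support f, f a ≤ ∑' a : Function.support f, g (s a) :=
        ENNReal.tsum_le_tsum hs'
    _ ≤ ∑' b, g b := ENNReal.tsum_comp_le_tsum_of_injective (f := s)
        (fun a a' h => Subtype.ext (by rw [← hs a, ← hs a', h])) g

theorem tsum_ind_mem {α : Type*} (s : Set α) : ∑' a, ind (a ∈ s) = (s.encard : ℝ≥0∞) := by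
  rw [← ENNReal.tsum_set_one, tsum_subtype s (fun _ => (1 : ℝ≥0∞))]
  refine tsum_congr fun a => ?_
  by_cases h : a ∈ s <;> simp [ind, h]

/-- splitting a sum over words by the first letter -/
theorem tsum_list {α : Type*} (f : List α → ℝ≥0∞) :
    ∑' w, f w = f [] + ∑' e, ∑' w, f (e :: w) := by
  rw [← ENNReal.tsum_prod' (f := fun x : α × List α => f (x.1 :: x.2))]
  let E : Option (α × List α) ≃ List α :=
    { toFun := fun o => o.elim [] fun x => x.1 :: x.2
      invFun := fun l => match l with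
        | [] => none
        | e :: w => some (e, w)
      left_inv := by rintro (_ | ⟨e, w⟩) <;> rfl
      right_inv := by rintro (_ | ⟨e, w⟩) <;> rfl }
  rw [← E.tsum_eq]
  classical
  rw [ENNReal.tsum_eq_add_tsum_ite none]
  congr 1
  refine tsum_eq_tsum_of_ne_zero_bij (fun x => some x.1) ?_ ?_ ?_
  · intro x y h; exact Subtype.ext (Option.some.inj h)
  · rintro (_ | x) hx
    · simp at hx
    · exact ⟨⟨x, by simpa [E] using hx⟩, rfl⟩
  · intro x; simp [E]

end Pool.Agent.P.MP_e4ac67_pr
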