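import Pool.Agent.P.MP_e4ac67_pr.Mult

/-! TASK BONUS: the expected number of exit keys produced by a good state. -/

open scoped ENNReal

namespace Pool.Agent.P.MP_e4ac67_pr

theorem take_len_add {k : ℕ} (σ γ : Wd k) (h : ℕ) :
    (σ ++ γ).take (σ.length + h) = σ ++ γ.take h := by
  rw [List.take_append, List.take_of_length_le (by omega)]; simp

theorem IsKey.cases {V K : Type} {m : Bool} {key : V → V → K} (h : IsKey m key) {a b c d : V}
    (e : key a b = key c d) : (b = d ∧ (m = true ∨ a = c)) ∨ (a = d ∧ b = c) := by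
  have := (h a b c d).1 e
  unfold KE at this
  split_ifs at this with hm
  · exact Or.inl ⟨this, Or.inl hm⟩
  · rcases this with h1 | h1
    · exact Or.inl ⟨h1.2, Or.inr h1.1⟩
    · exact Or.inr h1

theorem reach_congr {V K : Type} {G : SimpleGraph V} {key : V → V → K} {S F : Set V} {y : V}
    {ω ω' : Finset K}
    (h : ∀ u v, (u = y ∨ u ∈ F) → v ∈ F → key u v ∈ ω → key u v ∈ ω') {u : V}
    (hu : Reach G key (S ∩ F) y ω u) : Reach G key (S ∩ F) y ω' u ∧ (u = y ∨ u ∈ F) := by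
  induction hu with
  | base => exact ⟨Reach.base, Or.inl rfl⟩
  | step _ hadj hv hk ih => exact ⟨Reach.step ih.1 hadj hv (h _ _ ih.2 hv.2 hk), Or.inr hv.2⟩

theorem NE_congr {V K : Type} {G : SimpleGraph V} {key : V → V → K} {S : Finset V} {F : Set V}
    {y : V} {ω ω' : Finset K}
    (h : ∀ u v, (u = y ∨ u ∈ F) → v ∈ F → (key u v ∈ ω ↔ key u v ∈ ω')) :
    NE G key S F y ω = NE G key S F y ω' := by
  unfold NE
  refine tsum_congr fun κ => ind_congr ⟨?_, ?_⟩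
  · rintro ⟨u, v, hu, hr⟩
    exact ⟨u, v, (reach_congr (fun u v a b => (h u v a b).1) hu).1, hr⟩
  · rintro ⟨u, v, hu, hr⟩
    exact ⟨u, v, (reach_congr (fun u v a b => (h u v a b).2) hu).1, hr⟩

theorem EX_force_ge {ι : Type} [DecidableEq ι] {Ω : Finset ι} {p : ℝ≥0∞} (hp : p ≤ 1)
    {O C : Finset ι} (hO : O ⊆ Ω) (hC : C ⊆ Ω) (hOC : Disjoint O C) {f F : Finset ι → ℝ≥0∞}
    (hf : ∀ x, x ∈ O ∨ x ∈ C → ∀ s, f (insert x s) = f s)
    (hF : ∀ s, O ⊆ s → Disjoint C s → f s ≤ F s) {a c : ℕ} (ha : O.card ≤ a) (hc : C.card ≤ c) :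
    p ^ a * (1 - p) ^ c * EX Ω p f ≤ EX Ω p F := by
  calc p ^ a * (1 - p) ^ c * EX Ω p f ≤ p ^ O.card * (1 - p) ^ C.card * EX Ω p f := by
        gcongr ?_ * ?_ * _
        · exact pow_le_pow_of_le_one zero_le hp ha
        · exact pow_le_pow_of_le_one zero_le tsub_le_self hc
    _ = _ := (EX_force hp hO hC hOC hf).symm
    _ ≤ _ := EX_mono fun s _ => ind_mul_le fun h => hF s h.1 h.2

namespace Setup
variable {V V' K K' : Type} {k : ℕ} {X : Setup V V' K K' k} {ξ : Finset (Wd k)} {σ γ : Wd k}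

theorem kwB_snoc (X : Setup V V' K K' k) (τ : Wd k) (e : Fin k) :
    X.kw (τ ++ [e]) = X.key (X.hd τ) (X.hd (τ ++ [e])) := by
  unfold kw; rw [PlaneTri.run_snoc_fst]; rfl

theorem adj_snoc (X : Setup V V' K K' k) (τ : Wd k) (e : Fin k) :
    X.T.G.Adj (X.hd τ) (X.hd (τ ++ [e])) := PlaneTri.adj_hd_snoc X.hg _ _

theorem past0 (hH : X.H ξ σ γ) {τ : Wd k} (ha : X.acc ξ τ) (hr : rk τ < rk σ) :
    ∃ j η, j < σ.length ∧ τ = σ.take j ++ η ∧ ∀ i ≤ η.length, ∀ h ≤ γ.length,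
      (σ.length - j) + h + i + 2 <
        4 * X.T.d (X.hd (σ.take j ++ η.take i)) (X.hd (σ ++ γ.take h)) := by
  classical
  have hnp : ¬σ <+: τ := fun h => absurd (rk_le_of_prefix h) (by omega)
  have hex : ∃ j, ¬σ.take (j + 1) <+: τ := ⟨σ.length, by
    rwa [List.take_of_length_le (by omega)]⟩
  obtain ⟨j, hj, hpre⟩ : ∃ j, ¬σ.take (j + 1) <+: τ ∧ σ.take j <+: τ := by
    refine ⟨Nat.find hex, Nat.find_spec hex, ?_⟩
    rcases Nat.eq_zero_or_pos (Nat.find hex) with h0 | h0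
    · rw [h0]; simp
    · have := Nat.find_min hex (m := Nat.find hex - 1) (by omega)
      rw [not_not, show Nat.find hex - 1 + 1 = Nat.find hex by omega] at this
      exact this
  have hlt : j < σ.length := by
    by_contra hle
    rw [List.take_of_length_le (by omega)] at hpre
    exact hnp hpre
  obtain ⟨η, rfl⟩ := hpre
  refine ⟨j, η, hlt, rfl, fun i hi h hh => ?_⟩
  have hp : σ.take j ++ η.take i <+: σ.take j ++ η :=
    (List.prefix_append_right_inj _).2 (List.take_prefix _ _)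
  by_contra hle
  refine hH.2 j (η.take i) h ⟨hlt, hh, ?_⟩ (fun h' => hj (h'.trans hp))
    (lt_of_le_of_lt (rk_le_of_prefix hp) hr) (acc_prefix ha hp)
  rw [List.length_take, min_eq_left hi]
  exact not_lt.1 hle

theorem past_ne (hH : X.H ξ σ γ) {τ : Wd k} (ha : X.acc ξ τ) (hr : rk τ < rk σ) {h : ℕ}
    (hh : h ≤ γ.length) : X.hd τ ≠ X.hd (σ ++ γ.take h) := by
  obtain ⟨j, η, hj, rfl, H⟩ := past0 hH ha hr
  have := H η.length le_rfl h hh
  rw [List.take_length] at this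
  intro e
  rw [e, PlaneTri.d_self] at this
  omega

theorem past_adj (hH : X.H ξ σ γ) {τ : Wd k} (ha : X.acc ξ τ) (hr : rk τ < rk σ) {h : ℕ}
    (hh : h ≤ γ.length) (hadj : X.T.G.Adj (X.hd τ) (X.hd (σ ++ γ.take h))) :
    h = 0 ∧ X.hd τ = (X.T.run X.g σ).1 := by
  obtain ⟨j, η, hj, rfl, H⟩ := past0 hH ha hr
  have := H η.length le_rfl h hh
  rw [List.take_length, PlaneTri.d_adj hadj] at this
  have h1 : η = [] := List.length_eq_zero_iff.1 (by omega)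
  refine ⟨by omega, ?_⟩
  have h2 := PlaneTri.run_take_fst (T := X.T) X.g σ hj
  rw [List.take_of_length_le (by omega)] at h2
  rw [h1, List.append_nil, h2]; rfl

theorem past_near (R : Rho X.T) (hH : X.H ξ σ γ) (hG : X.T.Good X.g σ γ) {τ : Wd k}
    (ha : X.acc ξ τ) (hr : rk τ < rk σ) :
    R.ρ (X.hd (σ ++ γ)) (X.T.run X.g (σ ++ γ)).1 (X.hd τ) ≤ 128 := by
  obtain ⟨j, η, hj, rfl, H⟩ := past0 hH ha hr
  have h1 := (hG.near_past R X.hg (i := j) (by omega)).2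
  rw [List.take_append_of_le_length hj.le] at h1
  have H' : ∀ i ≤ η.length, i + 2 <
      4 * X.T.d (X.hd (σ ++ γ)) (X.hd (σ.take j ++ η.take i)) := fun i hi => by
    have := H i hi γ.length le_rfl
    rw [List.take_length, PlaneTri.d_comm] at this
    omega
  have h2 := R.recede (X.hd (σ ++ γ)) (fun i => X.hd (σ.take j ++ η.take i)) η.length
    (fun i hi => by
      rw [PlaneTri.take_succ_eq η hi, ← List.append_assoc]
      exact X.adj_snoc _ _)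
    (fun i hi e => by
      have := H' i hi
      rw [e, PlaneTri.d_self] at this
      omega)
    (fun i hi => by have := H' i hi; omega)
  simp only [List.take_zero, List.append_nil, List.take_length] at h2
  have h3 := R.tri (X.hd (σ ++ γ)) (X.T.run X.g (σ ++ γ)).1 (X.hd (σ.take j))
    (X.hd (σ.take j ++ η))
  change R.ρ (X.hd (σ ++ γ)) _ (X.hd (σ.take j)) ≤ 64 at h1
  linarith

/-- a coupled word of rank at most that of `σ` extends a word accepted before `σ` -/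
theorem cp_split {u : Wd k} (hu : X.cp ξ u) (hr : rk u < rk σ + 1) :
    ∃ τ e, u = τ ++ [e] ∧ X.acc ξ τ ∧ rk τ < rk σ := by
  obtain ⟨h0, h1, -⟩ := (ex_iff u).1 hu.1
  obtain ⟨τ, e, rfl⟩ : ∃ τ e, u = τ ++ [e] :=
    ⟨u.dropLast, u.getLast h0, (List.dropLast_append_getLast h0).symm⟩
  rw [List.dropLast_concat] at h1
  have := rk_lt_append τ (w := [e]) (by simp)
  exact ⟨τ, e, rfl, h1, by omega⟩

theorem take_succ_app (σ γ : Wd k) {i : ℕ} (hi : i < γ.length) :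
    σ ++ γ.take (i + 1) = (σ ++ γ.take i) ++ [γ[i]] := by
  rw [PlaneTri.take_succ_eq γ hi, List.append_assoc]

theorem kwB_take (X : Setup V V' K K' k) (σ γ : Wd k) {i : ℕ} (hi : i < γ.length) :
    X.kw (σ ++ γ.take (i + 1)) = X.key (X.hd (σ ++ γ.take i)) (X.hd (σ ++ γ.take (i + 1))) := by
  rw [take_succ_app σ γ hi, kwB_snoc]

theorem adj_take (X : Setup V V' K K' k) (σ γ : Wd k) {i : ℕ} (hi : i < γ.length) :
    X.T.G.Adj (X.hd (σ ++ γ.take i)) (X.hd (σ ++ γ.take (i + 1))) := by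
  rw [take_succ_app σ γ hi]; exact X.adj_snoc _ _

theorem prev_take (X : Setup V V' K K' k) (σ γ : Wd k) {i : ℕ} (hi : i < γ.length) :
    (X.T.run X.g (σ ++ γ.take (i + 1))).1 = X.hd (σ ++ γ.take i) := by
  rw [take_succ_app σ γ hi, PlaneTri.run_snoc_fst]; rfl

theorem far' (hG : X.T.Good X.g σ γ) {i j : ℕ} (hij : i ≤ j) (hj : j ≤ γ.length) :
    j - i ≤ 4 * X.T.d (X.hd (σ ++ γ.take i)) (X.hd (σ ++ γ.take j)) ∧
    (i + 2 ≤ j → 2 ≤ X.T.d (X.hd (σ ++ γ.take i)) (X.hd (σ ++ γ.take j))) := by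
  have := hG.far X.hg (i := σ.length + i) (j := σ.length + j) (by omega) (by omega) (by omega)
  rw [take_len_add, take_len_add] at this
  exact ⟨by have := this.1; change _ ≤ 4 * X.T.d (X.hd _) (X.hd _) at this; omega,
    fun h => this.2 (by omega)⟩

theorem inj' (hG : X.T.Good X.g σ γ) {i j : ℕ} (hi : i ≤ γ.length) (hj : j ≤ γ.length)
    (e : X.hd (σ ++ γ.take i) = X.hd (σ ++ γ.take j)) : i = j := by
  rcases le_total i j with h | h
  · have := (far' hG h hj).1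
    rw [e, PlaneTri.d_self] at this; omega
  · have := (far' hG h hi).1
    rw [e, PlaneTri.d_self] at this; omega

theorem adj' (hG : X.T.Good X.g σ γ) {i j : ℕ} (hi : i ≤ γ.length) (hj : j ≤ γ.length)
    (e : X.T.G.Adj (X.hd (σ ++ γ.take i)) (X.hd (σ ++ γ.take j))) : i = j + 1 ∨ j = i + 1 := by
  have hne : i ≠ j := fun h => e.ne (by rw [h])
  rcases le_total i j with h | h
  · have := (far' hG h hj).2
    rw [PlaneTri.d_adj e] at this; omega
  · have := (far' hG h hi).2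
    rw [PlaneTri.d_adj e.symm] at this; omega

theorem near' (R : Rho X.T) (hG : X.T.Good X.g σ γ) {i : ℕ} (hi : i < γ.length) :
    X.hd (σ ++ γ.take i) ≠ X.hd (σ ++ γ) ∧
    R.ρ (X.hd (σ ++ γ)) (X.T.run X.g (σ ++ γ)).1 (X.hd (σ ++ γ.take i)) ≤ 64 := by
  have := hG.near_past R X.hg (i := σ.length + i) (by omega)
  rwa [take_len_add] at this

/-- closure darts -/
def Cl (X : Setup V V' K K' k) (σ γ : Wd k) (h : ℕ) (e : Fin k) : Prop :=
  X.hd (σ ++ γ.take h ++ [e]) ≠ (X.T.run X.g (σ ++ γ.take h)).1 ∧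
    (h < γ.length → X.hd (σ ++ γ.take h ++ [e]) ≠ X.hd (σ ++ γ.take (h + 1)))

theorem open_not_ovr (hH : X.H ξ σ γ) {i : ℕ} (hi : i < γ.length) {u : Wd k} (hu : X.cp ξ u)
    (hr : rk u < rk σ + 1) : X.kw u ≠ X.kw (σ ++ γ.take (i + 1)) := by
  obtain ⟨τ, e, rfl, ha, hτ⟩ := cp_split hu hr
  rw [kwB_snoc, kwB_take X σ γ hi]
  intro he
  rcases X.hkey.cases he with ⟨h1, -⟩ | ⟨h1, -⟩
  · have := (past_adj hH ha hτ (h := i + 1) (by omega) (h1 ▸ X.adj_snoc τ e)).1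
    omega
  · exact past_ne hH ha hτ (h := i + 1) (by omega) h1

theorem close_not_ovr (hH : X.H ξ σ γ) (hG : X.T.Good X.g σ γ) {h : ℕ} (hh : h ≤ γ.length)
    {e : Fin k} (hc : X.Cl σ γ h e) {u : Wd k} (hu : X.cp ξ u) (hξ : u ∈ ξ)
    (hr : rk u < rk σ + 1) : X.kw u ≠ X.kw (σ ++ γ.take h ++ [e]) := by
  have hau : X.acc ξ u := (acc_iff u).2 (Or.inr ⟨hu, hξ⟩)
  obtain ⟨τ, e', rfl, ha, hτ⟩ := cp_split hu hr
  rw [kwB_snoc, kwB_snoc]
  intro he
  have hadj := X.adj_snoc (σ ++ γ.take h) e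
  rcases X.hkey.cases he with ⟨h1, -⟩ | ⟨h1, -⟩
  · rcases (Nat.lt_succ_iff.1 hr).lt_or_eq with h2 | h2
    · obtain ⟨rfl, h3⟩ := past_adj hH hau h2 hh (h1 ▸ hadj.symm)
      apply hc.1
      rw [← h1, h3]; simp
    · have h3 : X.hd (σ ++ γ.take h ++ [e]) = X.hd (σ ++ γ.take 0) := by
        rw [← h1, rk_inj h2]; simp
      rw [h3] at hadj
      rcases adj' hG hh (Nat.zero_le _) hadj with h4 | h4
      · subst h4
        apply hc.1
        rw [h3, prev_take X σ γ (by omega)]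
      · omega
  · obtain ⟨rfl, h3⟩ := past_adj hH ha hτ hh (h1 ▸ hadj.symm)
    apply hc.1
    rw [← h1, h3]; simp

theorem open_ne_close (hG : X.T.Good X.g σ γ) {i : ℕ} (hi : i < γ.length) {h : ℕ}
    (hh : h ≤ γ.length) {e : Fin k} (hc : X.Cl σ γ h e) :
    X.kw (σ ++ γ.take (i + 1)) ≠ X.kw (σ ++ γ.take h ++ [e]) := by
  rw [kwB_snoc, kwB_take X σ γ hi]
  intro he
  have hadj := X.adj_snoc (σ ++ γ.take h) e
  rcases X.hkey.cases he with ⟨h1, -⟩ | ⟨h1, h2⟩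
  · rcases adj' hG hh (by omega) (h1 ▸ hadj) with h4 | h4
    · subst h4
      exact hc.1 (by rw [← h1, prev_take X σ γ (by omega)])
    · obtain rfl : i = h := by omega
      exact hc.2 hi h1.symm
  · obtain rfl := inj' hG (by omega) hh h2
    exact hc.1 (by rw [← h1, prev_take X σ γ hi])

theorem path_key_mem {Ω : Finset K} (hΩ : KeysOK X.T.G X.key X.S Ω) {N : ℕ}
    (hs : X.T.State X.Tg N X.g σ γ) (hH : X.H ξ σ γ) {h : ℕ} (hh : h ≤ γ.length) (e : Fin k) :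
    X.kw (σ ++ γ.take h ++ [e]) ∈ Ω := by
  rw [kwB_snoc]
  obtain _ | h := h
  · exact hΩ _ _ _ (acc_hd_mem hH.1) (Or.inl (by simp)) (X.adj_snoc _ _)
  · refine hΩ (X.hd (σ ++ γ.take h)) _ _ ?_ (Or.inr (adj_take X σ γ (by omega)))
      (X.adj_snoc _ _)
    have := hs.1.2 h (by omega)
    rw [← PlaneTri.hd_append] at this
    by_contra hS
    exact this (Or.inl hS)

open Classical in
noncomputable def Ok (X : Setup V V' K K' k) (σ γ : Wd k) : Finset K :=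
  (Finset.range γ.length).image fun i => X.kw (σ ++ γ.take (i + 1))

open Classical in
noncomputable def Ck (X : Setup V V' K K' k) (σ γ : Wd k) : Finset K :=
  ((Finset.range (γ.length + 1) ×ˢ (Finset.univ : Finset (Fin k))).filter
    fun x => X.Cl σ γ x.1 x.2).image fun x => X.kw (σ ++ γ.take x.1 ++ [x.2])

theorem mem_Ok {x : K} : x ∈ X.Ok σ γ ↔ ∃ i < γ.length, X.kw (σ ++ γ.take (i + 1)) = x := by
  simp [Ok]

theorem mem_Ck {x : K} : x ∈ X.Ck σ γ ↔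
    ∃ h ≤ γ.length, ∃ e, X.Cl σ γ h e ∧ X.kw (σ ++ γ.take h ++ [e]) = x := by
  simp only [Ck, Finset.mem_image, Finset.mem_filter, Finset.mem_product, Finset.mem_range,
    Finset.mem_univ, and_true, Prod.exists, Nat.lt_succ_iff]
  constructor
  · rintro ⟨h, e, ⟨h1, h2⟩, h3⟩; exact ⟨h, h1, e, h2, h3⟩
  · rintro ⟨h, h1, e, h2, h3⟩; exact ⟨h, e, ⟨h1, h2⟩, h3⟩

theorem card_Ok : (X.Ok σ γ).card ≤ γ.length := by
  classical
  unfold Ok
  exact Finset.card_image_le.trans (by simp)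

theorem card_Ck : (X.Ck σ γ).card ≤ k * (γ.length + 1) := by
  classical
  unfold Ck
  refine Finset.card_image_le.trans ((Finset.card_filter_le _ _).trans ?_)
  simp [mul_comm]

theorem mem_om_iff {i : ℕ} {η : Finset K} {x : K}
    (h : ∀ u, X.cp ξ u → rk u < i → X.kw u ≠ x) : x ∈ X.om i ξ η ↔ x ∈ η := by
  unfold om
  rw [mem_ovr]
  constructor
  · rintro (h1 | ⟨u, -, h1, h2, -, h3⟩)
    · exact h1.1
    · exact absurd h3 (h u h2 h1)
  · exact fun h1 => Or.inl ⟨h1, fun ⟨u, _, h2, h3, h4⟩ => h u h3 h2 h4⟩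

theorem GC_of (hH : X.H ξ σ γ) (hG : X.T.Good X.g σ γ) {η : Finset K} (hO : X.Ok σ γ ⊆ η)
    (hC : Disjoint (X.Ck σ γ) η) : X.GC σ γ (X.om (rk σ + 1) ξ η) := by
  refine ⟨fun i hi => ?_, fun h hh e h1 h2 hm => ?_⟩
  · exact (mem_om_iff fun u hu hr => open_not_ovr hH hi hu hr).2 (hO (mem_Ok.2 ⟨i, hi, rfl⟩))
  · unfold om at hm
    rcases mem_ovr.1 hm with h3 | ⟨u, -, h3, h4, h5, h6⟩
    · exact Finset.disjoint_left.1 hC (mem_Ck.2 ⟨h, hh, e, ⟨h1, h2⟩, rfl⟩) h3.1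
    · exact close_not_ovr hH hG hh ⟨h1, h2⟩ h4 h5 h3 h6

theorem Ok_sub {Ω : Finset K} (hΩ : KeysOK X.T.G X.key X.S Ω) {N : ℕ}
    (hs : X.T.State X.Tg N X.g σ γ) (hH : X.H ξ σ γ) : X.Ok σ γ ⊆ Ω := fun x hx => by
  obtain ⟨i, hi, rfl⟩ := mem_Ok.1 hx
  rw [take_succ_app σ γ hi]
  exact path_key_mem hΩ hs hH hi.le _

theorem Ck_sub {Ω : Finset K} (hΩ : KeysOK X.T.G X.key X.S Ω) {N : ℕ}
    (hs : X.T.State X.Tg N X.g σ γ) (hH : X.H ξ σ γ) : X.Ck σ γ ⊆ Ω := fun x hx => by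
  obtain ⟨h, hh, e, -, rfl⟩ := mem_Ck.1 hx
  exact path_key_mem hΩ hs hH hh _

theorem Ok_disj (hG : X.T.Good X.g σ γ) : Disjoint (X.Ok σ γ) (X.Ck σ γ) := by
  refine Finset.disjoint_left.2 fun x hx hx' => ?_
  obtain ⟨i, hi, rfl⟩ := mem_Ok.1 hx
  obtain ⟨h, hh, e, hc, he⟩ := mem_Ck.1 hx'
  exact open_ne_close hG hi hh hc he.symm

/-- a dart whose tail is seen near the past cannot share its key with a far dart -/
theorem near_ne_far (R : Rho X.T) {z a s c u v : V} (hs : s ≠ z) (hρ : R.ρ z a s ≤ 128)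
    (hadj : X.T.G.Adj s c) (_hu : u = z ∨ 4000 ≤ R.ρ z a u) (hv : v ≠ z)
    (hv' : 4000 ≤ R.ρ z a v) : X.key s c ≠ X.key u v := by
  intro he
  rcases X.hkey.cases he with ⟨rfl, -⟩ | ⟨rfl, -⟩
  · have h1 := R.adj_le hadj hs hv
    have h2 := R.tri z a s c
    linarith
  · linarith

theorem bonus_point (R : Rho X.T) (hk : 10000 ≤ k) {p : ℝ≥0∞} (hp : p ≤ 1) {Ω : Finset K}
    (hΩ : KeysOK X.T.G X.key X.S Ω) {N : ℕ}
    (hs : X.T.State X.Tg N X.g σ γ) (hr : ¬X.T.Root X.g σ γ)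
    (IH : X.T.Good X.g σ γ → X.hd (σ ++ γ) ∈ X.S → (X.T.bonus k (X.T.run X.g (σ ++ γ))).2 ∈ X.S →
      1 ≤ 8 * (p * X.Val R Ω p (X.T.bonus k (X.T.run X.g (σ ++ γ))))) (hH : X.H ξ σ γ) :
    p ^ γ.length * (1 - p) ^ (k * (γ.length + 1)) ≤
      8 * EX Ω p fun η =>
        ind (X.H ξ σ γ ∧ X.GC σ γ (X.om (rk σ + 1) ξ η)) *
          ∑' κ, ind (X.ExX R (X.T.run X.g (σ ++ γ)) (X.om (rk σ + 1) ξ η) κ) := by
  classical
  have hG := good_of_H hs hr hH
  set D := X.T.run X.g (σ ++ γ) with hD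
  by_cases h3 : D.2 ∈ X.S ∧ (X.T.bonus k D).2 ∈ X.S
  swap
  · obtain ⟨κ, hκ⟩ : ∃ κ, ∀ ω, X.ExX R D ω κ := by
      by_cases h1 : D.2 ∈ X.S
      · exact ⟨_, fun ω => Or.inr (Or.inl ⟨h1, fun h => h3 ⟨h1, h⟩, rfl⟩)⟩
      · exact ⟨_, fun ω => Or.inl ⟨h1, rfl⟩⟩
    have := EX_force_ge hp (Ok_sub hΩ hs hH) (Ck_sub hΩ hs hH) (Ok_disj hG) (f := fun _ => 1)
      (F := fun η => ind (X.H ξ σ γ ∧ X.GC σ γ (X.om (rk σ + 1) ξ η)) *
          ∑' κ, ind (X.ExX R D (X.om (rk σ + 1) ξ η) κ)) (fun _ _ _ => rfl)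
      (fun η h1 h2 => by
        rw [ind_of ⟨hH, GC_of hH hG h1 h2⟩, one_mul]
        exact (ind_of (hκ _)).symm.le.trans (ENNReal.le_tsum (f := fun κ =>
          ind (X.ExX R D (X.om (rk σ + 1) ξ η) κ)) κ)) card_Ok card_Ck
    rw [EX_const hp, mul_one] at this
    exact this.trans (le_mul_of_one_le_left zero_le (by norm_num))
  obtain ⟨hz, hy⟩ := h3
  have hDd : X.T.Dart D := PlaneTri.run_dart X.hg _
  have hzd : k < X.T.deg D.2 := by
    have := hs.1.1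
    rw [← PlaneTri.hd_append] at this
    rcases this with h | h
    · exact absurd hz h
    · exact lt_of_le_of_ne (X.hT _) (Ne.symm h)
  set B := X.T.bonus k D with hB
  have hBd : X.T.G.Adj D.2 B.2 := PlaneTri.bonus_dart hDd k
  have hfr : ∀ u, (u = B.2 ∨ u ∈ R.Fr B) → u ≠ D.2 ∧ 4000 ≤ R.ρ D.2 D.1 u := fun u hu => by
    have := hG.front R X.hg hk hzd hu
    exact ⟨this.1, this.2.1⟩
  have hy' := hfr B.2 (Or.inl rfl)
  -- keys of overwritten words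
  have hov : ∀ u v, (u = D.2 ∨ 4000 ≤ R.ρ D.2 D.1 u) → v ≠ D.2 → 4000 ≤ R.ρ D.2 D.1 v →
      ∀ w, X.cp ξ w → rk w < rk σ + 1 → X.kw w ≠ X.key u v := fun u v hu hv hv' w hw hr' => by
    obtain ⟨τ, e, rfl, ha, hτ⟩ := cp_split hw hr'
    rw [kwB_snoc]
    refine near_ne_far R ?_ (past_near R hH hG ha hτ) (X.adj_snoc τ e) hu hv hv'
    have := past_ne hH ha hτ (le_refl γ.length)
    rwa [List.take_length] at this
  have hpath : ∀ u v, (u = D.2 ∨ 4000 ≤ R.ρ D.2 D.1 u) → v ≠ D.2 → 4000 ≤ R.ρ D.2 D.1 v →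
      ∀ h < γ.length, ∀ e, X.kw (σ ++ γ.take h ++ [e]) ≠ X.key u v :=
    fun u v hu hv hv' h hh e => by
      rw [kwB_snoc]
      have := near' R hG hh
      exact near_ne_far R this.1 (this.2.trans (by norm_num)) (X.adj_snoc _ e) hu hv hv'
  have hstep : ∀ e : Fin k, X.kw (σ ++ γ.take γ.length ++ [e]) = X.key D.2 (X.T.step D e).2 ∧
      X.T.G.Adj D.2 (X.T.step D e).2 := fun e => by
    refine ⟨?_, PlaneTri.step_dart hDd e⟩
    rw [List.take_length]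
    unfold kw
    rw [PlaneTri.run_snoc]; rfl
  have hout : ∀ u v c, (u = B.2 ∨ u ∈ R.Fr B) → v ∈ R.Fr B → X.T.G.Adj D.2 c →
      X.key D.2 c ≠ X.key u v := fun u v c hu hv hc he => by
    rcases X.hkey.cases he with ⟨rfl, -⟩ | ⟨h1, -⟩
    · have := hv.1
      change 2 ≤ X.T.d D.2 c at this
      rw [PlaneTri.d_adj hc] at this; omega
    · exact (hfr v (Or.inr hv)).1 h1.symm
  have hrel : ∀ x, x ∈ insert (X.key D.2 B.2) (X.Ok σ γ) ∨ x ∈ X.Ck σ γ →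
      ∀ u v, (u = B.2 ∨ u ∈ R.Fr B) → v ∈ R.Fr B → x ≠ X.key u v := fun x hx u v hu hv => by
    have h1 := hfr u hu
    have h2 := hfr v (Or.inr hv)
    rcases hx with hx | hx
    · rcases Finset.mem_insert.1 hx with rfl | hx
      · exact hout u v _ hu hv hBd
      · obtain ⟨i, hi, rfl⟩ := mem_Ok.1 hx
        rw [take_succ_app σ γ hi]
        exact hpath u v (Or.inr h1.2) h2.1 h2.2 i hi _
    · obtain ⟨h, hh, e, -, rfl⟩ := mem_Ck.1 hx
      rcases hh.lt_or_eq with hh | rfl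
      · exact hpath u v (Or.inr h1.2) h2.1 h2.2 h hh _
      · rw [(hstep e).1]; exact hout u v _ hu hv (hstep e).2
  have hdisj : Disjoint (insert (X.key D.2 B.2) (X.Ok σ γ)) (X.Ck σ γ) := by
    refine Finset.disjoint_insert_left.2 ⟨fun hx => ?_, Ok_disj hG⟩
    obtain ⟨h, hh, e, -, he⟩ := mem_Ck.1 hx
    rcases hh.lt_or_eq with hh | rfl
    · exact hpath _ _ (Or.inl rfl) hy'.1 hy'.2 h hh e he
    · rw [(hstep e).1] at he
      rcases X.hkey.cases he with ⟨h1, -⟩ | ⟨h1, -⟩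
      · exact PlaneTri.step_ne_bonus hDd hzd (by omega) e h1
      · exact hBd.ne h1
  have := EX_force_ge hp (O := insert (X.key D.2 B.2) (X.Ok σ γ))
    (Finset.insert_subset (hΩ _ _ _ hz (Or.inl rfl) hBd) (Ok_sub hΩ hs hH))
    (Ck_sub hΩ hs hH) hdisj (f := NE X.T.G X.key X.S (R.Fr B) B.2)
    (F := fun η => ind (X.H ξ σ γ ∧ X.GC σ γ (X.om (rk σ + 1) ξ η)) *
          ∑' κ, ind (X.ExX R D (X.om (rk σ + 1) ξ η) κ))
    (fun x hx s => NE_congr fun u v hu hv => by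
      rw [Finset.mem_insert]
      exact ⟨fun h => h.resolve_left (hrel x hx u v hu hv).symm, Or.inr⟩)
    (fun η h1 h2 => by
      rw [ind_of ⟨hH, GC_of hH hG ((Finset.subset_insert _ _).trans h1) h2⟩, one_mul]
      have e1 : NE X.T.G X.key X.S (R.Fr B) B.2 η =
          NE X.T.G X.key X.S (R.Fr B) B.2 (X.om (rk σ + 1) ξ η) :=
        NE_congr fun u v hu hv => (mem_om_iff (hov u v (Or.inr (hfr u hu).2)
          (hfr v (Or.inr hv)).1 (hfr v (Or.inr hv)).2)).symm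
      have e2 : X.key D.2 B.2 ∈ X.om (rk σ + 1) ξ η :=
        (mem_om_iff (hov _ _ (Or.inl rfl) hy'.1 hy'.2)).2 (h1 (Finset.mem_insert_self _ _))
      rw [e1]
      exact ENNReal.tsum_le_tsum fun κ => ind_mono fun h => Or.inr (Or.inr ⟨hz, hy, e2, h⟩))
    (a := γ.length + 1) ((Finset.card_insert_le _ _).trans (Nat.succ_le_succ card_Ok)) card_Ck
  have h8 := IH hG hz hy
  calc p ^ γ.length * (1 - p) ^ (k * (γ.length + 1))
      ≤ p ^ γ.length * (1 - p) ^ (k * (γ.length + 1)) * (8 * (p * X.Val R Ω p B)) :=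
        le_mul_of_one_le_right zero_le h8
    _ = 8 * (p ^ (γ.length + 1) * (1 - p) ^ (k * (γ.length + 1)) * X.Val R Ω p B) := by ring
    _ ≤ _ := by gcongr; exact this

end Setup

namespace Setup
variable {V V' K K' : Type} {k : ℕ} (X : Setup V V' K K' k)

theorem bonus_lower (R : Rho X.T) (hk : 10000 ≤ k) {p : ℝ≥0∞} (hp : p ≤ 1) {Ω : Finset K}
    (hΩ : KeysOK X.T.G X.key X.S Ω) {σ γ : Wd k} {N : ℕ}
    (hs : X.T.State X.Tg N X.g σ γ) (hr : ¬X.T.Root X.g σ γ)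
    (IH : X.T.Good X.g σ γ → X.hd (σ ++ γ) ∈ X.S → (X.T.bonus k (X.T.run X.g (σ ++ γ))).2 ∈ X.S →
      1 ≤ 8 * (p * X.Val R Ω p (X.T.bonus k (X.T.run X.g (σ ++ γ))))) :
    X.Pg p σ γ * (p ^ γ.length * (1 - p) ^ (k * (γ.length + 1))) ≤
      8 * EX X.Ωw p fun ξ => EX Ω p fun η =>
        ind (X.H ξ σ γ ∧ X.GC σ γ (X.om X.top ξ η)) *
          ∑' κ, ind (X.ExX R (X.T.run X.g (σ ++ γ)) (X.om X.top ξ η) κ) := by
  by_cases hσ : σ ∈ X.Ωw
  · have hloc : ∀ ξ ξ' : Finset (Wd k), (∀ v, rk v < rk σ + 1 → (v ∈ ξ ↔ v ∈ ξ')) →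
        X.H ξ σ γ → X.H ξ' σ γ := fun ξ ξ' h hH =>
      ⟨(acc_loc fun v hv => h v (by omega)).1 hH.1, fun j η i h1 h2 h3 h4 =>
        hH.2 j η i h1 h2 h3 ((acc_loc fun v hv => h v (by omega)).2 h4)⟩
    rw [EX_om hp hΩ (i₀ := rk σ + 1) (rk_lt_top hσ)
      (fun ξ ω => ind (X.H ξ σ γ ∧ X.GC σ γ ω) * ∑' κ, ind (X.ExX R (X.T.run X.g (σ ++ γ)) ω κ))
      (fun ξ ξ' ω h => by
        rw [ind_congr (and_congr_left' ⟨hloc ξ ξ' h, hloc ξ' ξ fun v hv => (h v hv).symm⟩)]),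
      ← EX_mul_left, Pg, ← EX_mul_right]
    exact EX_mono fun ξ _ => ind_mul_le fun hH => bonus_point R hk hp hΩ hs hr IH hH
  · have : X.Pg p σ γ = 0 := by
      rw [Pg, EX_congr (g := fun _ => 0) fun ξ _ => ind_of_not fun hH =>
        hσ (mem_words.2 (acc_length hH.1).le), EX_const hp]
    rw [this, zero_mul]; exact zero_le

end Setup
end Pool.Agent.P.MP_e4ac67_pr
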