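import Pool.Agent.P.MP_e4ac67_pr.CertPerc

/-! Better bounds for both thresholds when all degrees are at least eight. -/

open ProbabilityTheory

namespace Pool.Agent.P.MP_e4ac67_pr
namespace Cert

def huge : ℕ := 2 ^ 512 - 1

def tb8B (c : ℕ) : ℕ :=
  (bif c.blt 264 then
   (bif c.blt 162 then
    (bif c.blt 137 then
     (bif c.blt 130 then
      (bif c.blt 129 then
       (bif c.beq 128 then 250510958 else huge) else
       (bif c.beq 129 then 4526881687362978063766161109 else huge)) else
      (bif c.blt 132 then
       (bif c.beq 130 then 4394353065289020096539917898 else huge) else
       (bif c.blt 136 then
        (bif c.beq 132 then 4142393691946621647517865157 else huge) else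
        (bif c.beq 136 then 3156895353173348926260617463 else huge)))) else
     (bif c.blt 146 then
      (bif c.blt 144 then
       (bif c.beq 137 then 58234440647471696246337297591220015967832016597 else huge) else
       (bif c.blt 145 then
        (bif c.beq 144 then 474320171224686978642491489 else huge) else
        (bif c.beq 145 then 8749662807579894318426842558104373406053336789 else huge))) else
      (bif c.blt 160 then
       (bif c.beq 146 then 8749662807570381392865540295337365476352926934 else huge) else
       (bif c.blt 161 then
        (bif c.beq 160 then 67894717341675414362024370 else huge) else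
        (bif c.beq 161 then 1252436474758736072086702771465320970431399637 else huge))))) else
    (bif c.blt 200 then
     (bif c.blt 193 then
      (bif c.blt 164 then
       (bif c.beq 162 then 1252436474750992549035528580317591189411462730 else huge) else
       (bif c.blt 192 then
        (bif c.beq 164 then 1225364290320438245089126491102372829902623941 else huge) else
        (bif c.beq 192 then 7890281200021140761843868 else huge))) else
      (bif c.blt 194 then
       (bif c.beq 193 then 145549997962992187052486120781363732321568469 else huge) else
       (bif c.blt 196 then
        (bif c.beq 194 then 145549998043763714021193563608774316773736010 else huge) else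
        (bif c.beq 196 then 145549998160800506146005760097788963586790597 else huge)))) else
     (bif c.blt 257 then
      (bif c.blt 201 then
       (bif c.beq 200 then 118477813563264846961717363126349086328463607 else huge) else
       (bif c.blt 256 then
        (bif c.beq 201 then 2185529905214220950294273116549848003391409073552319380946585301 else huge) else
        (bif c.beq 256 then 389915697 else huge))) else
      (bif c.blt 258 then
       (bif c.beq 257 then 7041674508487318485208565461 else huge) else
       (bif c.blt 260 then
        (bif c.beq 258 then 6866978787739831012510690215 else huge) else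
        (bif c.beq 260 then 6562990538774377477028484585 else huge)))))) else
   (bif c.blt 324 then
    (bif c.blt 289 then
     (bif c.blt 273 then
      (bif c.blt 265 then
       (bif c.beq 264 then 5255223061677685986005532654 else huge) else
       (bif c.blt 272 then
        (bif c.beq 265 then 96941754869024619414479847457919571844420423695 else huge) else
        (bif c.beq 272 then 2572647879842861077212761120 else huge))) else
      (bif c.blt 274 then
       (bif c.beq 273 then 47456977031232740207808441674546230126927237135 else huge) else
       (bif c.blt 288 then
        (bif c.beq 274 then 47517307053179574314593183147350625044257977162 else huge) else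
        (bif c.beq 288 then 387564211546660247387204981 else huge)))) else
     (bif c.blt 320 then
      (bif c.blt 290 then
       (bif c.beq 289 then 7149297822530269893855225660193533358953105109 else huge) else
       (bif c.blt 292 then
        (bif c.beq 290 then 7149297822522526370826989257426937120664958744 else huge) else
        (bif c.beq 292 then 6948452280429888915473747302498891479270791407 else huge))) else
      (bif c.blt 321 then
       (bif c.beq 320 then 55266316175081805873610067 else huge) else
       (bif c.blt 322 then
        (bif c.beq 321 then 1019483590378448636591984562766083364082845397 else huge) else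
        (bif c.beq 322 then 1019483590370705113497998780600526832189598631 else huge))))) else
    (bif c.blt 388 then
     (bif c.blt 384 then
      (bif c.blt 328 then
       (bif c.beq 324 then 997446564173320154581004187445177935640696297 else huge) else
       (bif c.blt 329 then
        (bif c.beq 328 then 829859199713721329592757178910776641287536621 else huge) else
        (bif c.beq 329 then 15308200274332440169648210700586779081612713202869154285923684367 else huge))) else
      (bif c.blt 385 then
       (bif c.beq 384 then 6422695146634452223356254 else huge) else
       (bif c.blt 386 then
        (bif c.beq 385 then 118477813627255140077655973122588666505889493 else huge) else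
        (bif c.beq 386 then 118477813738768303246848503455218843580918695 else huge)))) else
     (bif c.blt 400 then
      (bif c.blt 392 then
       (bif c.beq 388 then 118477813895729196367386755324538715296011753 else huge) else
       (bif c.blt 393 then
        (bif c.beq 392 then 96440787463244805445074169535159740256141294 else huge) else
        (bif c.beq 393 then 1779018524601493536784817956225263079834981744488268793915985935 else huge))) else
      (bif c.blt 401 then
       (bif c.beq 400 then 96440787063006468175452620947409221783194656 else huge) else
       (bif c.blt 402 then
        (bif c.beq 401 then 1779018517218399360685061892866281685189427396724414996216631311 else huge) else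
        (bif c.beq 402 then 1779018517218399360745391914813115791974168869528809913547371338 else huge)))))))

def P8B : Data := ⟨false, 186, 1000, 500000, 3, 5, 1000, 1000, 156, 156, tb8B, true⟩

theorem P8B_ok : P8B.OK :=
  ⟨by decide, by decide, by decide, by decide, by decide, by decide, by decide, by decide,
    by decide +kernel, by decide +kernel, by decide +kernel, by decide +kernel⟩

def tb8S (c : ℕ) : ℕ :=
  (bif c.blt 66 then
   (bif c.blt 41 then
    (bif c.blt 34 then
     (bif c.blt 33 then
      (bif c.beq 32 then 243000000 else huge) else
      (bif c.beq 33 then 4217868176359845549832142848 else huge)) else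
     (bif c.blt 36 then
      (bif c.beq 34 then 3393297019356559253176320000 else huge) else
      (bif c.blt 40 then
       (bif c.beq 36 then 1043677052928000000 else huge) else
       (bif c.beq 40 then 253613524045455000 else huge)))) else
    (bif c.blt 50 then
     (bif c.blt 48 then
      (bif c.beq 41 then 4402092202865421908291491175908507648 else huge) else
      (bif c.blt 49 then
       (bif c.beq 48 then 61628082232029268 else huge) else
       (bif c.beq 49 then 1069708309850161389032843353060802560 else huge))) else
     (bif c.blt 64 then
      (bif c.beq 50 then 860585970258692191468665833865084928 else huge) else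
      (bif c.blt 65 then
       (bif c.beq 64 then 426950998 else huge) else
       (bif c.beq 65 then 7611165158569303127432888320 else huge))))) else
   (bif c.blt 81 then
    (bif c.blt 72 then
     (bif c.blt 68 then
      (bif c.beq 66 then 6786594020012760904486617088 else huge) else
      (bif c.beq 68 then 3393297020146622773652881408 else huge)) else
     (bif c.blt 73 then
      (bif c.beq 72 then 1043677044522016408 else huge) else
      (bif c.blt 80 then
       (bif c.beq 73 then 19252443177246510194245273529614336000 else huge) else
       (bif c.beq 80 then 253613519934438703 else huge)))) else
    (bif c.blt 97 then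
     (bif c.blt 82 then
      (bif c.beq 81 then 4611214545025616949508584049758699520 else huge) else
      (bif c.blt 96 then
       (bif c.beq 82 then 4402092205434147751944406530562981888 else huge) else
       (bif c.beq 96 then 61628078121012970 else huge))) else
     (bif c.blt 98 then
      (bif c.beq 97 then 1120525018983788269826398080787808256 else huge) else
      (bif c.blt 100 then
       (bif c.beq 98 then 1069708312418887232685758707715276800 else huge) else
       (bif c.beq 100 then 860585970258692192258729350046679040 else huge))))))

def P8S : Data := ⟨true, 243, 1000, 0, 2, 4, 1000, 1000, 1001, 1001, tb8S, true⟩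

theorem P8S_ok : P8S.OK :=
  ⟨by decide, by decide, by decide, by decide, by decide, by decide, by decide, by decide,
    by decide +kernel, by decide +kernel, by decide +kernel, by decide +kernel⟩

end Cert

namespace PlaneTri
variable {V : Type} (T : PlaneTri V) (h8 : ∀ v, 8 ≤ T.deg v)
include h8

/-- `m = true`: site percolation above `0.243`; `m = false`: bond percolation above `0.186` -/
theorem cert8_perc {K : Type} {m : Bool} {key : V → V → K} (hkey : IsKey m key) {U : Set K}
    (hU : ∀ a b, T.G.Adj a b → key a b ∈ U) {q : unitInterval}
    (hq : (if m then 243 / 1000 else 186 / 1000 : ℝ) < q) : ∃ y, 0 < setBernoulli U q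
      {ω : Set K | {w | Relation.ReflTransGen
        (fun a b => T.G.Adj a b ∧ key a b ∈ ω) y w}.Infinite} := by
  have h7 := fun v => (Nat.le_succ 7).trans (h8 v)
  cases m
  · exact Cert.Data.perc Cert.P8B_ok T h7 (fun _ => h8) hkey hU (by simpa [Cert.P8B] using hq)
  · exact Cert.Data.perc Cert.P8S_ok T h7 (fun _ => h8) hkey hU (by simpa [Cert.P8S] using hq)

theorem bond_pos8 {q : unitInterval} (hq : (186 / 1000 : ℝ) < q) :
    0 < setBernoulli T.G.edgeSet q {ω : Set (Sym2 V) | ∃ v, {w | Relation.ReflTransGen
      (fun a b => T.G.Adj a b ∧ s(a, b) ∈ ω) v w}.Infinite} := by
  obtain ⟨y, h⟩ := T.cert8_perc h8 (m := false) (key := fun a b => s(a, b))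
    (fun _ _ _ _ => by simp [KE]) (U := T.G.edgeSet) (fun _ _ h => h) (by simpa using hq)
  exact lt_of_lt_of_le h (MeasureTheory.measure_mono fun ω hω => ⟨y, hω⟩)

theorem site_pos8 {q : unitInterval} (hq : (243 / 1000 : ℝ) < q) :
    0 < setBernoulli (Set.univ : Set V) q {ω : Set V | ∃ v, {w | Relation.ReflTransGen
      (fun a b => T.G.Adj a b ∧ a ∈ ω ∧ b ∈ ω) v w}.Infinite} := by
  obtain ⟨y, h⟩ := T.cert8_perc h8 (m := true) (key := fun _ b => b)
    (fun _ _ _ _ => by simp [KE]) (U := Set.univ) (fun _ _ _ => trivial) (by simpa using hq)
  exact lt_of_lt_of_le h (MeasureTheory.measure_mono (T.site_sub y))

theorem pcBond_le8 : (pcBond T.G : ℝ) ≤ 186 / 1000 :=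
  le_of_forall_gt_imp_ge_of_dense fun q hq => (le_total q 1).elim
    (fun h1 => show pcBond T.G ≤ ⟨q, by linarith, h1⟩ from sInf_le (T.bond_pos8 h8 hq))
    (pcBond T.G).2.2.trans

theorem pcSite_le8 : (pcSite T.G : ℝ) ≤ 243 / 1000 :=
  le_of_forall_gt_imp_ge_of_dense fun q hq => (le_total q 1).elim
    (fun h1 => show pcSite T.G ≤ ⟨q, by linarith, h1⟩ from sInf_le (T.site_pos8 h8 hq))
    (pcSite T.G).2.2.trans

end PlaneTri
end Pool.Agent.P.MP_e4ac67_pr
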