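import Pool.Agent.P.MP_e4ac67_pr.Node

/-! Patterns of two-parent nodes along a level, for degrees at least seven. -/

namespace Pool.Agent.P.MP_e4ac67_pr
namespace Cert

/-- number of `true` among the first entries -/
def idx : List Bool → ℕ → ℕ
  | [], _ => 0
  | _, 0 => 0
  | b :: l, i + 1 => (if b then 1 else 0) + idx l i

def win (β : ℕ → Bool) : ℕ → ℕ → List Bool
  | _, 0 => []
  | i, n + 1 => β i :: win β (i + 1) n

def cnt (β : ℕ → Bool) : ℕ → ℕ
  | 0 => 0
  | i + 1 => cnt β i + if β i then 1 else 0

def okT : List Bool → Bool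
  | true :: _ => false
  | false :: true :: false :: true :: _ => false
  | _ => true

def good : List Bool → Bool
  | [] => true
  | false :: l => good l
  | true :: l => okT l && good l

def pats : ℕ → List (List Bool)
  | 0 => [[]]
  | n + 1 => (pats n).flatMap fun l => (false :: l) :: if okT l then [true :: l] else []

theorem mem_pats {l : List Bool} (h : good l = true) : l ∈ pats l.length := by
  induction l with
  | nil => simp [pats]
  | cons b l ih =>
    cases b with
    | false => exact List.mem_flatMap.2 ⟨l, ih h, List.mem_cons_self ..⟩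
    | true =>
      simp only [good, Bool.and_eq_true] at h
      exact List.mem_flatMap.2 ⟨l, ih h.2, by simp [h.1]⟩

theorem length_win (β : ℕ → Bool) (i n : ℕ) : (win β i n).length = n := by
  induction n generalizing i with
  | zero => rfl
  | succ n ih => simp [win, ih]

theorem getD_win (β : ℕ → Bool) {i n j : ℕ} (h : j < n) : (win β i n).getD j false = β (i + j) := by
  induction n generalizing i j with
  | zero => omega
  | succ n ih =>
    cases j with
    | zero => rfl
    | succ j =>
      rw [win, List.getD_cons_succ, ih (by omega)]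
      congr 1; omega

theorem win_add (β : ℕ → Bool) (i n m : ℕ) : win β i (n + m) = win β i n ++ win β (i + n) m := by
  induction n generalizing i with
  | zero => simp [win]
  | succ n ih =>
    rw [show n + 1 + m = n + m + 1 by omega, win, win, ih, List.cons_append]
    congr 3; omega

theorem win_shift (β : ℕ → Bool) (i j n : ℕ) : win (fun t => β (i + t)) j n = win β (i + j) n := by
  induction n generalizing j with
  | zero => rfl
  | succ n ih => rw [win, win, ih]; rfl

theorem take_drop_win (β : ℕ → Bool) {N i n : ℕ} (h : i + n ≤ N) :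
    ((win β 0 N).drop i).take n = win β i n := by
  obtain ⟨c, rfl⟩ := Nat.exists_eq_add_of_le h
  rw [win_add, win_add, List.append_assoc, List.drop_left' (length_win ..),
    List.take_left' (length_win ..), zero_add]

theorem idx_win (β : ℕ → Bool) {i n j : ℕ} (h : j ≤ n) :
    cnt β i + idx (win β i n) j = cnt β (i + j) := by
  induction n generalizing i j with
  | zero => obtain rfl : j = 0 := by omega
            rfl
  | succ n ih =>
    cases j with
    | zero => rfl
    | succ j =>
      rw [win, idx, show i + (j + 1) = i + 1 + j by omega, ← ih (by omega : j ≤ n), cnt]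
      omega

theorem idx_win0 (β : ℕ → Bool) {n j : ℕ} (h : j ≤ n) : idx (win β 0 n) j = cnt β j := by
  have := idx_win β (i := 0) h
  simpa [cnt] using this

theorem good_win {β : ℕ → Bool} (h1 : ∀ i, β i = true → β (i + 1) = false)
    (h2 : ∀ i, β i = true → β (i + 2) = true → β (i + 4) = false) (i n : ℕ) :
    good (win β i n) = true := by
  induction n generalizing i with
  | zero => rfl
  | succ n ih =>
    rw [win]
    cases hb : β i with
    | false => exact ih _
    | true =>
      simp only [good, Bool.and_eq_true]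
      refine ⟨?_, ih _⟩
      have e1 := h1 i hb
      have e2 := h2 i hb
      rcases n with _ | _ | _ | _ | n <;> simp only [win, e1, add_assoc, Nat.reduceAdd] <;>
        cases h : β (i + 2) <;> try rfl
      · cases β (i + 3) <;> rfl
      · rw [e2 h]; cases β (i + 3) <;> rfl

theorem two_cnt_le {β : ℕ → Bool} (h1 : ∀ i, β i = true → β (i + 1) = false) (i : ℕ) :
    2 * cnt β i ≤ i + 1 ∧ (β i = true → 2 * cnt β i ≤ i) := by
  induction i with
  | zero => simp [cnt]
  | succ i ih =>
    rw [cnt]
    cases hb : β i with
    | false => simp; omega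
    | true =>
      have := ih.2 hb
      simp [h1 i hb]; omega

end Cert

namespace Node
open Cert
variable {D : List ℕ → ℕ}

/-- the pattern read from a base node -/
def bt (D : List ℕ → ℕ) (b : List ℕ) (i : ℕ) : Bool := decide (tau D ((succ D)^[i] b) = 1)

theorem six (hD : ∀ w, 7 ≤ D w) (w : List ℕ) : 6 ≤ D w := (Nat.le_succ 6).trans (hD w)

theorem valid_iter (hD : ∀ w, 7 ≤ D w) {w : List ℕ} (h : Valid D w) (i : ℕ) :
    Valid D ((succ D)^[i] w) := by
  induction i with
  | zero => exact h
  | succ i ih => rw [Function.iterate_succ_apply']; exact valid_succ (six hD) ih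

theorem length_iter (w : List ℕ) (i : ℕ) : ((succ D)^[i] w).length = w.length := by
  induction i with
  | zero => rfl
  | succ i ih => rw [Function.iterate_succ_apply', length_succ, ih]

theorem succ_of_one {u : List ℕ} (h : tau D u = 1) : succ D u = 3 :: succ D u.tail := by
  obtain _ | ⟨e, w⟩ := u
  · simp [tau] at h
  · unfold tau at h
    split_ifs at h with hc
    · simp [succ, hc.1, hc.2]

theorem succ_of_zero {e : ℕ} {w : List ℕ} (hw : w ≠ []) (h : tau D (e :: w) ≠ 1) :
    succ D (e :: w) = (e + 1) :: w := by
  unfold tau at h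
  split_ifs at h with hc
  · exact absurd rfl h
  · rw [succ, if_neg hw, if_neg fun e' => hc ⟨hw, e'⟩]

theorem tau_three (hD : ∀ w, 7 ≤ D w) (w : List ℕ) : tau D (3 :: w) ≠ 1 := by
  have h1 := hD w
  have h2 := tau_le (D := D) w
  unfold tau
  rw [if_neg (by omega)]
  omega

theorem tail_succ {u : List ℕ} (hu : 2 ≤ u.length) :
    (succ D u).tail = (succ D)^[if tau D u = 1 then 1 else 0] u.tail := by
  split_ifs with h
  · rw [succ_of_one h]; rfl
  · obtain _ | ⟨e, w⟩ := u
    · simp at hu
    · rw [succ_of_zero (by rintro rfl; simp at hu) h]; rfl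

theorem tail_iter {b : List ℕ} (hb : 2 ≤ b.length) (i : ℕ) :
    ((succ D)^[i] b).tail = (succ D)^[cnt (bt D b) i] b.tail := by
  induction i with
  | zero => rfl
  | succ i ih =>
    rw [Function.iterate_succ_apply', tail_succ (by rwa [length_iter]), ih, cnt, add_comm,
      Function.iterate_add_apply]
    simp [bt]

theorem tau_succ (hD : ∀ w, 7 ≤ D w) {u : List ℕ} (h : tau D u = 1) : tau D (succ D u) ≠ 1 := by
  rw [succ_of_one h]; exact tau_three hD _

theorem tau_two (hD : ∀ w, 7 ≤ D w) {u : List ℕ} (h : tau D u = 1)
    (h2 : tau D (succ D (succ D u)) = 1) : tau D (succ D u).tail = 1 := by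
  have h0 : succ D u.tail ≠ [] := succ_ne_nil (eq_last_of_tau h).2
  rw [succ_of_one h, succ_of_zero h0 (tau_three hD _)] at h2
  rw [succ_of_one h, List.tail_cons]
  have h1 := hD (succ D u.tail)
  have h3 := tau_le (D := D) (succ D u.tail)
  unfold tau at h2
  split_ifs at h2 with hc
  omega

theorem bt_one (hD : ∀ w, 7 ≤ D w) (b : List ℕ) (i : ℕ) (h : bt D b i = true) :
    bt D b (i + 1) = false := by
  simp only [bt, decide_eq_true_eq, decide_eq_false_iff_not] at h ⊢
  rw [Function.iterate_succ_apply']
  exact tau_succ hD h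

theorem bt_two (hD : ∀ w, 7 ≤ D w) (b : List ℕ) (i : ℕ) (h : bt D b i = true)
    (h2 : bt D b (i + 2) = true) : bt D b (i + 4) = false := by
  simp only [bt, decide_eq_true_eq, decide_eq_false_iff_not] at h h2 ⊢
  simp only [Function.iterate_succ_apply'] at h2 ⊢
  set u := (succ D)^[i] b
  intro h4
  have e1 := tau_two hD h h2
  have e2 := tau_two hD h2 h4
  have h0 : succ D u.tail ≠ [] := succ_ne_nil (eq_last_of_tau h).2
  rw [succ_of_one h2, succ_of_one h, succ_of_zero h0 (tau_three hD _)] at e2
  rw [succ_of_one h] at e1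
  exact tau_succ hD e1 e2

theorem bt_eight (hD : ∀ w, 8 ≤ D w) (b : List ℕ) (i : ℕ) (h : bt D b i = true) :
    bt D b (i + 2) = false := by
  simp only [bt, decide_eq_true_eq, decide_eq_false_iff_not] at h ⊢
  simp only [Function.iterate_succ_apply']
  generalize (succ D)^[i] b = u at h
  have h0 : succ D u.tail ≠ [] := succ_ne_nil (eq_last_of_tau h).2
  rw [succ_of_one h, succ_of_zero h0 (tau_three (fun w => (Nat.le_succ 7).trans (hD w)) _)]
  have h1 := hD (succ D u.tail)
  have h3 := tau_le (D := D) (succ D u.tail)
  rw [tau, if_neg (by omega)]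
  omega

theorem good_bt (hD : ∀ w, 7 ≤ D w) (b : List ℕ) (i n : ℕ) : good (win (bt D b) i n) = true :=
  good_win (bt_one hD b) (bt_two hD b) i n

theorem bt_shift (b : List ℕ) (i : ℕ) : bt D ((succ D)^[i] b) = fun t => bt D b (i + t) := by
  funext t
  rw [bt, bt, add_comm, Function.iterate_add_apply]

theorem iter_single {e : ℕ} (h : e < D []) (i : ℕ) : (succ D)^[i] [e] = [(e + i) % D []] := by
  induction i with
  | zero => simp [Nat.mod_eq_of_lt h]
  | succ i ih => rw [Function.iterate_succ_apply', ih]; simp [succ, add_assoc]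

theorem iter_flat {e : ℕ} {w : List ℕ} (hw : w ≠ []) (i : ℕ) (h : cnt (bt D (e :: w)) i = 0) :
    (succ D)^[i] (e :: w) = (e + i) :: w := by
  induction i with
  | zero => rfl
  | succ i ih =>
    rw [cnt] at h
    have h1 := ih (by omega)
    have h2 : bt D (e :: w) i = false := by
      cases hb : bt D (e :: w) i
      · rfl
      · simp [hb] at h
    simp only [bt, decide_eq_false_iff_not, h1] at h2
    rw [Function.iterate_succ_apply', h1, succ_of_zero hw h2, add_assoc]

theorem period (hD : ∀ w, 7 ≤ D w) : ∀ (w : List ℕ), Valid D w → w ≠ [] → ∀ i, 0 < i →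
    (succ D)^[i] w = w → 6 * w.length + 1 ≤ i
  | [], _, h, _, _, _ => absurd rfl h
  | e :: w, hv, _, i, hi, he => by
    by_cases hw : w = []
    · subst hw
      have h1 := hv.2.1 rfl
      rw [iter_single h1] at he
      have h2 : (e + i) % D [] = e % D [] := by rw [Nat.mod_eq_of_lt h1]; simpa using he
      have h3 : D [] ∣ i := by
        have := (Nat.modEq_iff_dvd' (Nat.le_add_right e i)).1 (Eq.symm h2)
        simpa using this
      have := Nat.le_of_dvd hi h3
      have := hD []
      simp; omega
    · have hl : 0 < w.length := List.length_pos_iff.2 hw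
      have h1 := tail_iter (D := D) (b := e :: w) (by simp; omega) i
      rw [he, List.tail_cons] at h1
      rcases Nat.eq_zero_or_pos (cnt (bt D (e :: w)) i) with h0 | h0
      · rw [iter_flat hw i h0] at he
        simp at he; omega
      · have h2 := period hD w hv.1 hw _ h0 h1.symm
        have h3 := (two_cnt_le (bt_one hD (e :: w)) i).1
        simp; omega

theorem iter_inj (hD : ∀ w, 7 ≤ D w) {w : List ℕ} (hv : Valid D w) {i j : ℕ}
    (hi : i ≤ 6 * w.length) (hj : j ≤ 6 * w.length) (hw : w ≠ [])
    (h : (succ D)^[i] w = (succ D)^[j] w) : i = j := by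
  wlog hij : i ≤ j generalizing i j
  · exact (this hj hi h.symm (by omega)).symm
  obtain ⟨c, rfl⟩ := Nat.exists_eq_add_of_le hij
  rcases Nat.eq_zero_or_pos c with rfl | hc
  · rfl
  rw [add_comm, Function.iterate_add_apply] at h
  have := period hD _ (valid_iter hD hv i)
    (by rw [← List.length_pos_iff, length_iter]; exact List.length_pos_iff.2 hw) c hc h.symm
  rw [length_iter] at this
  omega

theorem iter_cancel (hD : ∀ w, 7 ≤ D w) {a b : List ℕ} (ha : Valid D a) (hb : Valid D b) (i : ℕ)
    (h : (succ D)^[i] a = (succ D)^[i] b) : a = b := by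
  induction i with
  | zero => exact h
  | succ i ih =>
    rw [Function.iterate_succ_apply', Function.iterate_succ_apply'] at h
    refine ih ?_
    rw [← pred_succ (six hD) (valid_iter hD ha i), h, pred_succ (six hD) (valid_iter hD hb i)]

theorem exists_base (hD : ∀ w, 7 ≤ D w) {u : List ℕ} (hu : Valid D u) (i : ℕ) :
    ∃ b, Valid D b ∧ (succ D)^[i] b = u := by
  induction i generalizing u with
  | zero => exact ⟨u, hu, rfl⟩
  | succ i ih =>
    obtain ⟨b, hb, he⟩ := ih (valid_pred (six hD) hu)
    exact ⟨b, hb, by rw [Function.iterate_succ_apply', he, succ_pred (six hD) hu]⟩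

theorem valid_three (hD : ∀ w, 7 ≤ D w) {w : List ℕ} (hv : Valid D w) (hw : w ≠ []) :
    Valid D (3 :: w) :=
  valid_cons hv hw le_rfl (by have := hD w; have := tau_le (D := D) w; omega)

/-- the node before a first child has two parents -/
theorem tau_before (hD : ∀ w, 7 ≤ D w) {u w : List ℕ} (hu : Valid D u) (hw : w ≠ [])
    (h : succ D u = 3 :: w) : tau D u = 1 := by
  rw [← pred_succ (six hD) hu, h, pred, if_neg hw, if_pos rfl]
  exact tau_last (six hD) (pred_ne_nil hw)

end Node
end Pool.Agent.P.MP_e4ac67_pr
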