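import Pool.Agent.P.MP_e4ac67_pr.CertTree
import Pool.Agent.P.MP_e4ac67_pr.CertGeo

/-! The finite data of a certificate and the two finite checks. -/

namespace Pool.Agent.P.MP_e4ac67_pr
namespace Cert

/-- child `x` is joined to the node `y` on its right or below -/
def sArc (bits : List Bool) (x y : ℕ) : Bool :=
  decide (x < bits.length) && ((decide (y < bits.length) && y == x + 1) || y == 16 + idx bits x ||
    (bits.getD x false && y == 17 + idx bits x))

def sAdj (bits : List Bool) (x y : ℕ) : Bool := sArc bits x y || sArc bits y x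

def ord (r l : ℕ) : List ℕ :=
  (List.range l).map (r + ·) ++ (List.range r).flatMap fun j => [r - 1 - j, r + l + j]

def eg (x y : ℕ) : Gate := (2 ^ x ||| 2 ^ y, 2 ^ x ||| 2 ^ y, x, y)

def gates (m : Bool) (bits : List Bool) (r l : ℕ) : List Gate :=
  (ord r l).flatMap fun i =>
    if m then [(2 ^ i, 2 ^ (16 + idx bits i) ||| (if bits.getD i false then 2 ^ (17 + idx bits i) else 0)
      ||| (if 0 < i then 2 ^ (i - 1) else 0) ||| (if i + 1 < bits.length then 2 ^ (i + 1) else 0), i, i)]
    else [eg i (16 + idx bits i)] ++ (if bits.getD i false then [eg i (17 + idx bits i)] else []) ++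
      (if i ≤ r ∧ 0 < i then [eg i (i - 1)] else []) ++
      if r + l ≤ i + 1 ∧ i + 1 < bits.length then [eg i (i + 1)] else []

def ctr (bits : List Bool) (r l : ℕ) : ℕ :=
  2 * idx bits r + (if bits.getD r false then 1 else 0) +
    (2 * idx bits (r + l - 1) + if bits.getD (r + l - 1) false then 1 else 0)

def srt (c n : ℕ) (o : ℕ) : List ℕ :=
  ((List.range n).map fun m => 16 * ((4 * m + o - c) + (c - (4 * m + o))) + m).insertionSort (· ≤ ·)
    |>.map (· % 16)

def slots (bits : List Bool) (r l : ℕ) : List (ℕ × ℕ) :=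
  (srt (ctr bits r l) 4 2).map (fun m => (3 * 2 ^ (16 + m), 2 * m + 1)) ++
    (srt (ctr bits r l) 5 0).map fun m => (2 ^ (16 + m), 2 * m)

def gOK (m : Bool) (bits : List Bool) (g : Gate) : Bool :=
  decide (g.2.2.1 < bits.length) && decide (g.2.2.2 < 26) &&
  if m then g.1 == 2 ^ g.2.2.1 && g.2.2.2 == g.2.2.1 && decide (g.2.1 < 2 ^ 26) &&
      (List.range 26).all fun y => !g.2.1.testBit y || sAdj bits g.2.2.1 y
  else g == eg g.2.2.1 g.2.2.2 && sAdj bits g.2.2.1 g.2.2.2

def sOK (s : ℕ × ℕ) : Bool := s.1 == (if s.2 % 2 = 0 then 1 else 3) * 2 ^ (16 + s.2 / 2)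

def frc {α : Type} (n : ℕ) (f : ℕ → α) : α := match n with | 0 => f 0 | k + 1 => f (k + 1)

theorem frc_eq {α : Type} (n : ℕ) (f : ℕ → α) : frc n f = f n := by cases n <;> rfl

def leafN (vis w : ℕ) : List (ℕ × ℕ) → ℕ
  | [] => 0
  | s :: t => bif (vis &&& s.1).beq s.1 then w <<< (32 * s.2) else leafN vis w t

def scan (vis d : ℕ) (k : Gate → List Gate → ℕ) : List Gate → List Gate → ℕ
  | _, [] => d
  | acc, g :: t => bif (vis &&& g.1).beq 0 || (vis ||| g.2.1).beq vis then scan vis d k (g :: acc) t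
      else k g (acc.reverseAux t)

/-- `explore` with the mass vector packed into one number -/
def ex2 (a b eps : ℕ) (st : Bool) (sl : List (ℕ × ℕ)) : ℕ → ℕ → List Gate → ℕ → ℕ
  | 0, vis, _, w => leafN vis w sl
  | f + 1, vis, todo, w =>
    bif w.blt eps || (st && !(vis >>> 16 &&& vis >>> 17).beq 0) then leafN vis w sl
    else scan vis (leafN vis w sl) (fun g t => frc (vis ||| g.2.1) fun v1 => frc (w * a / b) fun w1 =>
      frc (w * (b - a) / b) fun w0 => frc (ex2 a b eps st sl f v1 t w1) fun r1 =>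
        r1 + ex2 a b eps st sl f vis t w0) [] todo

def nrmG {α : Type} : List Gate → (List Gate → α) → α
  | [], f => f []
  | g :: t, f => frc g.1 fun x => frc g.2.1 fun y => nrmG t fun t' => f ((x, y, g.2.2) :: t')

def nrmS {α : Type} : List (ℕ × ℕ) → (List (ℕ × ℕ) → α) → α
  | [], f => f []
  | g :: t, f => frc g.1 fun x => frc g.2 fun y => nrmS t fun t' => f ((x, y) :: t')

theorem nrmG_eq {α : Type} (l : List Gate) (f : List Gate → α) : nrmG l f = f l := by
  induction l generalizing f with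
  | nil => rfl
  | cons g t ih => simp [nrmG, frc_eq, ih]

theorem nrmS_eq {α : Type} (l : List (ℕ × ℕ)) (f : List (ℕ × ℕ) → α) : nrmS l f = f l := by
  induction l generalizing f with
  | nil => rfl
  | cons g t ih => simp [nrmS, frc_eq, ih]

def pack : List ℕ → ℕ
  | [] => 0
  | x :: l => x + 2 ^ 32 * pack l

def dig (n s : ℕ) : ℕ := n >>> (32 * s) % 4294967296

theorem pack_addL (l m : List ℕ) : pack (addL l m) = pack l + pack m := by
  induction l generalizing m with
  | nil => simp [addL, pack]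
  | cons x l ih =>
    cases m with
    | nil => simp [addL, pack]
    | cons y m => simp only [addL, pack, ih]; ring

theorem sum_addL (l m : List ℕ) : (addL l m).sum = l.sum + m.sum := by
  induction l generalizing m with
  | nil => simp [addL]
  | cons x l ih =>
    cases m with
    | nil => simp [addL]
    | cons y m => simp only [addL, List.sum_cons, ih]; ring

theorem pack_single (s w : ℕ) : pack (List.replicate s 0 ++ [w]) = w <<< (32 * s) := by
  induction s with
  | zero => simp [pack]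
  | succ s ih =>
    rw [List.replicate_succ, List.cons_append, pack, ih, Nat.shiftLeft_eq, Nat.shiftLeft_eq]
    ring

theorem dig_pack {l : List ℕ} (h : l.sum < 2 ^ 32) (s : ℕ) : dig (pack l) s = l.getD s 0 := by
  induction l generalizing s with
  | nil => simp [dig, pack]
  | cons x l ih =>
    rw [List.sum_cons] at h
    cases s with
    | zero => simp only [dig, pack, List.getD_cons_zero, mul_zero, Nat.shiftRight_zero]; omega
    | succ s =>
      rw [List.getD_cons_succ, ← ih (by omega), dig, dig, pack, mul_add, add_comm (32 * s),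
        Nat.shiftRight_add]
      congr 2
      rw [Nat.shiftRight_eq_div_pow]; omega

theorem beq_ne {a b : ℕ} (h : a ≠ b) : a.beq b = false :=
  Bool.eq_false_iff.2 fun e => h (Nat.eq_of_beq_eq_true e)

theorem leafN_eq (vis w : ℕ) (sl : List (ℕ × ℕ)) : leafN vis w sl = pack (leaf vis w sl) := by
  induction sl with
  | nil => rfl
  | cons s t ih =>
    unfold leafN leaf
    by_cases h : vis &&& s.1 = s.1
    · rw [if_pos (by simpa using h), pack_single, Nat.beq_eq.symm.mp h]; rfl
    · rw [if_neg (by simpa using h), beq_ne h]; exact ih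

theorem sum_leaf (vis w : ℕ) (sl : List (ℕ × ℕ)) : (leaf vis w sl).sum ≤ w := by
  induction sl with
  | nil => simp [leaf]
  | cons s t ih =>
    unfold leaf
    split_ifs
    · simp
    · exact ih

theorem scan_eq (vis d : ℕ) (k : Gate → List Gate → ℕ) (acc todo : List Gate) :
    scan vis d k acc todo = (pick vis todo).elim d fun x => k x.1 (acc.reverse ++ x.2) := by
  induction todo generalizing acc with
  | nil => rfl
  | cons g t ih =>
    unfold scan pick
    by_cases h : (vis &&& g.1 != 0 && (vis ||| g.2.1) != vis) = true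
    · rw [if_pos h]
      simp only [Bool.and_eq_true, bne_iff_ne] at h
      rw [beq_ne h.1, beq_ne h.2]
      simp [List.reverseAux_eq]
    · rw [if_neg h, ih]
      have : ((vis &&& g.1).beq 0 || (vis ||| g.2.1).beq vis) = true := by
        simp only [Bool.and_eq_true, bne_iff_ne, not_and_or, not_not] at h
        simpa using h
      rw [this]
      cases pick vis t <;> simp

theorem ex2_eq (a b eps : ℕ) (st : Bool) (sl : List (ℕ × ℕ)) (f : ℕ) : ∀ vis todo w,
    ex2 a b eps st sl f vis todo w = pack (explore a b eps st sl f vis todo w) := by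
  induction f with
  | zero => exact fun vis _ w => leafN_eq vis w sl
  | succ f ih =>
    intro vis todo w
    unfold ex2 explore
    have : (!(vis >>> 16 &&& vis >>> 17).beq 0) = ((vis >>> 16 &&& vis >>> 17) != 0) := by
      by_cases h : vis >>> 16 &&& vis >>> 17 = 0
      · rw [h]; rfl
      · rw [beq_ne h]; simpa using h
    rw [this, Bool.cond_eq_ite, scan_eq]
    split_ifs
    · exact leafN_eq ..
    · cases pick vis todo with
      | none => exact leafN_eq ..
      | some x => simp [frc_eq, ih, pack_addL]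

theorem sum_explore {a b : ℕ} (hab : a ≤ b) (eps : ℕ) (st : Bool) (sl : List (ℕ × ℕ)) (f : ℕ) :
    ∀ vis todo w, (explore a b eps st sl f vis todo w).sum ≤ w := by
  induction f with
  | zero => exact fun vis _ w => sum_leaf ..
  | succ f ih =>
    intro vis todo w
    unfold explore
    split_ifs
    · exact sum_leaf ..
    split
    · exact sum_leaf ..
    rw [sum_addL]
    refine (add_le_add (ih ..) (ih ..)).trans (Nat.div_add_div_le_add_div.trans ?_)
    rw [← mul_add, Nat.add_sub_cancel' hab]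
    exact Nat.div_le_of_le_mul (by rw [mul_comm])

/-- binary code of a pattern -/
def cdL : List Bool → ℕ
  | [] => 0
  | b :: l => 2 * cdL l + if b then 1 else 0

def okN (c : ℕ) : Bool := c % 2 == 0 && c % 16 != 10

def no101 : List Bool → Bool
  | [] => true
  | a :: l => !(a && l.getD 1 false) && no101 l

/-- the data of a certificate; `e = true` asks for degrees at least eight -/
structure Data where
  m : Bool
  a : ℕ
  b : ℕ
  eps : ℕ
  r : ℕ
  s0 : ℕ
  c0 : ℕ
  c1 : ℕ
  d0 : ℕ
  d1 : ℕ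
  tb : ℕ → ℕ
  e : Bool

namespace Data
variable (P : Data)

def mass (bits : List Bool) (l : ℕ) : List ℕ :=
  explore P.a P.b P.eps (!P.m) (slots bits P.r l) 40 ((2 ^ l - 1) * 2 ^ P.r)
    (gates P.m bits P.r l) (10 ^ 9)

def massN (bits : List Bool) (l : ℕ) : ℕ :=
  nrmS (slots bits P.r l) fun sl => nrmG (gates P.m bits P.r l) fun gs =>
    ex2 P.a P.b P.eps (!P.m) sl 40 ((2 ^ l - 1) * 2 ^ P.r) gs (10 ^ 9)

def chk1 (l : ℕ) (bits : List Bool) : Bool :=
  (gates P.m bits P.r l).all (gOK P.m bits) && decide ((gates P.m bits P.r l).map (·.1)).Nodup &&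
    (slots bits P.r l).all sOK && (P.tb (cdL bits + 2 ^ (2 * P.r + l))).beq (P.massN bits l)

def chk1' (l : ℕ) (bits : List Bool) : Bool := (P.e && !no101 bits) || P.chk1 l bits

/-- the weight of an object of `l` nodes whose first two marks are `x`, `y` -/
def cw (l : ℕ) (x y : Bool) : ℕ :=
  if l = 1 then (if x then P.c1 else P.c0) else if x || y then P.d1 else P.d0

def ent (c s : ℕ) : ℕ :=
  P.cw 1 (c.testBit P.r) false * dig (P.tb (c % 2 ^ (2 * P.r + 1) + 2 ^ (2 * P.r + 1))) s +
    P.cw 2 (c.testBit P.r) (c.testBit (P.r + 1)) * dig (P.tb (c + 2 ^ (2 * P.r + 2))) s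

def lf (k nd : ℕ) : ℕ → ℕ → ℕ → ℕ → Bool
  | 0, _, _, acc => nd.ble acc
  | j + 1, c, m, acc =>
    (frc (2 * c) fun c0 => frc (acc + P.ent c0 (2 * m - k)) fun a0 =>
      frc (c0 % 2 ^ (2 * P.r + 1)) fun c1 => lf k nd j c1 m a0) &&
    (!okN c || frc (2 * c + 1) fun c0 => frc (acc + P.ent c0 (2 * (m + 1) - k)) fun a0 =>
      frc (c0 % 2 ^ (2 * P.r + 1)) fun c1 => lf k nd j c1 (m + 1) a0)

def mid (k c acc : ℕ) : Bool :=
  !okN c || frc (2 * (2 * c + 1)  % 2 ^ (2 * P.r + 2)) fun c2 =>
    frc (acc + P.ent (2 * c + 1) (2 - k) + P.ent c2 (2 - k)) fun a2 =>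
    frc (c2 % 2 ^ (2 * P.r + 1)) fun c3 =>
    (frc (a2 + P.ent (2 * c3) (2 - k)) fun a3 => P.lf k (P.cw (k + 1) (c.testBit 1) false * 10 ^ 9)
      (2 * P.r - 1) (2 * c3 % 2 ^ (2 * P.r + 1)) 1 a3) &&
    (!okN c3 || frc (a2 + P.ent (2 * c3 + 1) (4 - k)) fun a3 =>
      P.lf k (P.cw (k + 1) (c.testBit 1) true * 10 ^ 9)
        (2 * P.r - 1) ((2 * c3 + 1) % 2 ^ (2 * P.r + 1)) 2 a3)

def rt (k : ℕ) : ℕ → ℕ → ℕ → Bool
  | 0, c, acc => P.mid k c acc
  | t + 1, c, acc =>
    (frc (2 * c) fun c0 => frc (P.ent c0 0 + acc) fun a0 =>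
      frc (c0 % 2 ^ (2 * P.r + 1)) fun c1 => rt k t c1 a0) &&
    (!okN c || frc (2 * c + 1) fun c0 => frc (P.ent c0 0) fun a0 =>
      frc (c0 % 2 ^ (2 * P.r + 1)) fun c1 => rt k t c1 a0)

def chk2 (k t : ℕ) : Bool := (pats (2 * P.r + 1)).all fun l => P.rt k t (cdL l) 0

structure OK : Prop where
  ab : P.a ≤ P.b
  b0 : 0 < P.b
  r2 : 2 ≤ P.r
  r3 : P.r ≤ 3
  s5 : P.s0 ≤ 5
  c0 : 0 < P.c1
  c1 : P.c1 ≤ P.c0
  d1 : P.d1 ≤ P.d0
  t1 : (pats (2 * P.r + 1)).all (P.chk1' 1) = true
  t2 : (pats (2 * P.r + 2)).all (P.chk1' 2) = true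
  k0 : P.chk2 0 P.s0 = true
  k1 : P.chk2 1 0 = true

theorem dig_massN (hab : P.a ≤ P.b) (bits : List Bool) (l s : ℕ) :
    dig (P.massN bits l) s = (P.mass bits l).getD s 0 := by
  rw [massN, nrmS_eq, nrmG_eq, ex2_eq]
  exact dig_pack ((sum_explore hab ..).trans_lt (by norm_num)) s

end Data
end Cert
end Pool.Agent.P.MP_e4ac67_pr
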