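import Pool.Agent.P.MP_e4ac67_pr.DCT

/-! The Duminil-Copin and Tassion argument with a general constant. -/

open scoped ENNReal
open Finset

namespace Pool.Agent.P.MP_e4ac67_pr

/-- the first-moment condition at `o` with constant `C` -/
def PhiC {V K : Type} (G : SimpleGraph V) (key : V → V → K) (C : ℕ) (p : ℝ≥0∞) (o : V) : Prop :=
  ∀ S : Finset V, o ∈ S → ∀ Ω : Finset K, KeysOK G key S Ω →
    1 ≤ C * (p * EX Ω p (NE G key S Set.univ o))

namespace DCT
variable {V K : Type} {G : SimpleGraph V} {key : V → V → K} {C : ℕ}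

theorem NEr_lowerC {o : V} {p₀ : unitInterval} (h : PhiC G key C (toE p₀) o) {S : Finset V}
    (hS : o ∈ S) {Ω : Finset K} (hΩ : KeysOK G key S Ω) {p : ℝ} (h0 : (p₀ : ℝ) ≤ p) (h1 : p ≤ 1) :
    1 / (C + 1) ≤ Ex Ω p (NEr G key Ω S o) := by
  have h2 := h S hS Ω hΩ
  have h3 : NE G key S Set.univ o = fun ω => ENNReal.ofReal (NEr G key Ω S o ω) :=
    funext (NE_eq hΩ hS)
  have h4 : 0 ≤ Ex Ω p₀ (NEr G key Ω S o) := Ex_nonneg p₀.2.1 p₀.2.2 (NEr_nonneg Ω S o)
  have hC : (0 : ℝ) ≤ C := Nat.cast_nonneg C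
  rw [h3, EX_ofReal p₀ (NEr_nonneg Ω S o), toE_eq, ← ENNReal.ofReal_mul p₀.2.1,
    ← ENNReal.ofReal_natCast C, ← ENNReal.ofReal_mul hC, ← ENNReal.ofReal_one,
    ENNReal.ofReal_le_ofReal_iff (mul_nonneg hC (mul_nonneg p₀.2.1 h4))] at h2
  have h5 : Ex Ω p₀ (NEr G key Ω S o) ≤ Ex Ω p (NEr G key Ω S o) :=
    Ex_mono_p p₀.2.1 h0 h1 fun s t hst => sum_le_sum fun κ _ => indr_mono (exit_mono hst)
  have h6 := mul_le_mul_of_nonneg_right p₀.2.2 h4
  rw [div_le_iff₀ (by positivity)]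
  nlinarith

open Classical in
theorem diff_ineqC {m : Bool} (hkey : IsKey m key) {o : V} {p₀ : unitInterval}
    (h : PhiC G key C (toE p₀) o) {L : Finset V} (ho : o ∈ L) {Ω : Finset K}
    (hΩ : KeysOK G key L Ω) {p : ℝ} (h0 : (p₀ : ℝ) ≤ p) (h1 : p ≤ 1) :
    (1 - Ex Ω p fun s => indr (Esc G key L s o)) * (1 / (C + 1)) ≤
      ∑ κ ∈ Ω, Ex (Ω.erase κ) p fun s =>
        indr (Esc G key L (insert κ s : Finset K) o) - indr (Esc G key L s o) := by
  have hp : 0 ≤ p := p₀.2.1.trans h0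
  calc (1 - Ex Ω p fun s => indr (Esc G key L s o)) * (1 / (C + 1))
      = ∑ S ∈ L.powerset.filter (o ∈ ·),
          (Ex Ω p fun s => indr (trap G key L s = S)) * (1 / (C + 1)) := by
        rw [← sum_mul, ← Ex_sum]
        simp only [sum_trap ho]
        rw [Ex_sub, Ex_const]
    _ ≤ ∑ S ∈ L.powerset.filter (o ∈ ·),
          Ex Ω p fun s => indr (trap G key L s = S) * NEr G key Ω S o s := by
        refine sum_le_sum fun S hS => ?_
        have hS' := mem_filter.1 hS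
        rw [Ex_mul (indep hkey L Ω hS'.2)]
        exact mul_le_mul_of_nonneg_left
          (NEr_lowerC h hS'.2 (fun a b c ha => hΩ a b c (mem_powerset.1 hS'.1 ha)) h0 h1)
          (Ex_nonneg hp h1 fun _ => indr_nonneg _)
    _ ≤ ∑ κ ∈ Ω, Ex Ω p fun s =>
          indr (Esc G key L (insert κ s : Finset K) o) - indr (Esc G key L s o) := by
        rw [← Ex_sum, ← Ex_sum]
        exact Ex_mono hp h1 (pointwise L Ω o)
    _ ≤ _ := by
        refine sum_le_sum fun κ hκ => ?_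
        rw [Ex_piv hκ fun s : Finset K => indr (Esc G key L s o)]
        refine mul_le_of_le_one_left (Ex_nonneg hp h1 fun s => sub_nonneg.2 ?_) (by linarith)
        exact indr_mono (Esc.mono (coe_subset.2 (subset_insert _ _)))

theorem esc_lowerC {m : Bool} (hkey : IsKey m key) {o : V} {p₀ p₁ : unitInterval} (h01 : p₀ < p₁)
    (h : PhiC G key C (toE p₀) o) {L : Finset V} (ho : o ∈ L) {Ω : Finset K}
    (hΩ : KeysOK G key L Ω) :
    ((p₁ : ℝ) - p₀) / (C + 2) ≤ Ex Ω p₁ fun s => indr (Esc G key L s o) := by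
  classical
  have hlt : (p₀ : ℝ) < p₁ := h01
  obtain ⟨c, hc, hc'⟩ := exists_hasDerivAt_eq_slope
    (fun q => Ex Ω q fun s : Finset K => indr (Esc G key L s o)) _ hlt
    (fun q _ => (Ex_deriv Ω _ q).continuousAt.continuousWithinAt) fun q _ => Ex_deriv Ω _ q
  have h1 := diff_ineqC hkey h ho hΩ hc.1.le (hc.2.le.trans p₁.2.2)
  have h2 : (Ex Ω c fun s => indr (Esc G key L s o)) ≤ Ex Ω p₁ fun s => indr (Esc G key L s o) :=
    Ex_mono_p (p₀.2.1.trans hc.1.le) hc.2.le p₁.2.2 fun s t hst =>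
      indr_mono (Esc.mono (coe_subset.2 hst))
  have h3 : 0 ≤ Ex Ω p₀ fun s => indr (Esc G key L s o) :=
    Ex_nonneg p₀.2.1 p₀.2.2 fun _ => indr_nonneg _
  have h4 : 0 ≤ Ex Ω p₁ fun s => indr (Esc G key L s o) :=
    Ex_nonneg p₁.2.1 p₁.2.2 fun _ => indr_nonneg _
  have h5 := h1.trans_eq hc'
  have hC : (0 : ℝ) < C + 1 := by positivity
  rw [le_div_iff₀ (sub_pos.2 hlt), mul_one_div, div_mul_eq_mul_div, div_le_iff₀ hC] at h5
  have h6 : (p₁ : ℝ) - p₀ ≤ 1 := by linarith [p₀.2.1, p₁.2.2]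
  have h7 := mul_le_mul_of_nonneg_right h2 (sub_pos.2 hlt).le
  have h8 := mul_le_mul_of_nonneg_left h6 h4
  have h9 := mul_nonneg h3 hC.le
  rw [div_le_iff₀ (by positivity)]
  nlinarith

end DCT

theorem dctC {V K : Type} {G : SimpleGraph V} {key : V → V → K} {C : ℕ}
    (hfin : ∀ v, (G.neighborSet v).Finite) {m : Bool} (hkey : IsKey m key) {U : Set K}
    (hU : ∀ a b, G.Adj a b → key a b ∈ U) (o : V) {p₀ p₁ : unitInterval} (h01 : p₀ < p₁)
    (h : PhiC G key C (toE p₀) o) :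
    0 < ProbabilityTheory.setBernoulli U p₁
      {ω : Set K | {w | Relation.ReflTransGen (fun a b => G.Adj a b ∧ key a b ∈ ω) o w}.Infinite} := by
  have hlt : (p₀ : ℝ) < p₁ := h01
  let A : ℕ → Set (Set K) := fun n => {w | DCT.Esc G key (DCT.ball hfin o n) w o}
  have hA : ∀ n, A n = {w | DCT.Esc G key (DCT.ball hfin o n)
      (DCT.tr (DCT.keys key hfin (DCT.ball hfin o (n + 1))) w) o} := fun n =>
    Set.ext fun w => (DCT.esc_tr (DCT.keysOK hfin o n) w o).symm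
  have hanti : Antitone A := fun i j hij w ⟨x, hx, hp⟩ =>
    ⟨x, fun hx' => hx (DCT.ball_mono hfin o hij hx'), hp⟩
  have hmeas : ∀ n, MeasurableSet (A n) := fun n => by
    rw [hA]
    exact DCT.measurableSet_tr _ fun s : Finset K => DCT.Esc G key (DCT.ball hfin o n) s o
  have hlow : ∀ n, ENNReal.ofReal (((p₁ : ℝ) - p₀) / (C + 2)) ≤
      ProbabilityTheory.setBernoulli U p₁ (A n) := fun n => by
    rw [hA, DCT.bridge (DCT.keys_sub hfin hU _) p₁
      fun s : Finset K => DCT.Esc G key (DCT.ball hfin o n) s o]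
    simp only [DCT.ind_eq]
    rw [DCT.EX_ofReal p₁ fun _ => DCT.indr_nonneg _]
    exact ENNReal.ofReal_le_ofReal
      (DCT.esc_lowerC hkey h01 h (DCT.mem_ball hfin o n) (DCT.keysOK hfin o n))
  calc 0 < ENNReal.ofReal (((p₁ : ℝ) - p₀) / (C + 2)) :=
        ENNReal.ofReal_pos.2 (div_pos (by linarith) (by positivity))
    _ ≤ ⨅ n, ProbabilityTheory.setBernoulli U p₁ (A n) := le_iInf hlow
    _ = ProbabilityTheory.setBernoulli U p₁ (⋂ n, A n) :=
        (hanti.measure_iInter (fun n => (hmeas n).nullMeasurableSet)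
          ⟨0, MeasureTheory.measure_ne_top _ _⟩).symm
    _ ≤ _ := MeasureTheory.measure_mono fun w hw =>
        DCT.infinite_of_esc hfin fun n => Set.mem_iInter.1 hw n

end Pool.Agent.P.MP_e4ac67_pr
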