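import Pool.Agent.P.MP_e4ac67_pr.CertSum
import Pool.Agent.P.MP_e4ac67_pr.DCTC

/-! A valid certificate gives the first-moment condition, for all degrees at least seven. -/

open scoped ENNReal

namespace Pool.Agent.P.MP_e4ac67_pr

theorem reach_le {V K : Type} {G : SimpleGraph V} {key : V → V → K} {F F' : Set V} {y : V}
    {ω ω' : Finset K} {v : V} (hr : Reach G key F y ω v) (hy : y ∈ F) (hF : F ⊆ F')
    (h : ∀ u ∈ F, ∀ v ∈ F, G.Adj u v → key u v ∈ ω → key u v ∈ ω') : Reach G key F' y ω' v := by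
  suffices v ∈ F ∧ Reach G key F' y ω' v from this.2
  induction hr with
  | base => exact ⟨hy, .base⟩
  | step _ ha hv hk ih => exact ⟨hv, .step ih.2 ha (hF hv) (h _ ih.1 _ hv ha hk)⟩

theorem EX_union {K : Type} [DecidableEq K] {p : ℝ≥0∞} (hp : p ≤ 1) (Ω : Finset K)
    {f : Finset K → ℝ≥0∞} (hf : ∀ κ ∉ Ω, ∀ s, f (insert κ s) = f s) (A : Finset K) :
    EX (A ∪ Ω) p f = EX Ω p f := by
  induction A using Finset.induction_on with
  | empty => simp
  | insert a A _ ih =>
    rw [Finset.insert_union]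
    by_cases ha : a ∈ A ∪ Ω
    · rwa [Finset.insert_eq_of_mem ha]
    · rw [EX_insert ha, ← ih]
      simp only [hf a fun h => ha (Finset.mem_union_right _ h), EX_split hp]

namespace Cert
open Node

/-- a layered chart of a graph -/
structure Chart {V : Type} (G : SimpleGraph V) where
  D : List ℕ → ℕ
  X : List ℕ → V
  lev : V → ℕ
  hD : ∀ w, 7 ≤ D w
  adj : ∀ {w a}, Valid D w → NA D w a → G.Adj (X w) (X a)
  inj : ∀ {a b}, Valid D a → Valid D b → X a = X b → a = b
  lev_X : ∀ {w}, Valid D w → lev (X w) = w.length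
  fin : ∀ n, {v | lev v ≤ n}.Finite

theorem tsum_le_val (l : List ℕ) (χ : ℕ → ℝ≥0∞) :
    ∑' i, (l.getD i 0 : ℝ≥0∞) * χ i ≤ val l χ :=
  ENNReal.tsum_le_of_sum_range_le (le_val l χ)

namespace Chart
variable {V K : Type} {G : SimpleGraph V} (M : Chart G)

/-- node number `x` of the window based at `b` -/
def nd (b : List ℕ) (x : ℕ) : List ℕ :=
  if x < 16 then (succ M.D)^[x] b else (succ M.D)^[x - 16] b.tail

theorem nd_valid {b : List ℕ} (hb : Valid M.D b) (x : ℕ) : Valid M.D (M.nd b x) := by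
  unfold nd
  split_ifs
  · exact valid_iter M.hD hb _
  · exact valid_iter M.hD (valid_tail hb) _

theorem nd_length (b : List ℕ) (x : ℕ) :
    (M.nd b x).length = if x < 16 then b.length else b.length - 1 := by
  unfold nd
  split_ifs <;> simp [length_iter]

theorem nd_inj {b : List ℕ} (hb : Valid M.D b) (h3 : 3 ≤ b.length) {x y : ℕ} (hx : x < 26)
    (hy : y < 26) (h : M.X (M.nd b x) = M.X (M.nd b y)) : x = y := by
  have h1 := M.inj (M.nd_valid hb x) (M.nd_valid hb y) h
  have h2 := congrArg List.length h1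
  rw [nd_length, nd_length] at h2
  unfold nd at h1
  split_ifs at h1 h2
  · exact iter_inj M.hD hb (by omega) (by omega) (by rintro rfl; simp at h3) h1
  · omega
  · omega
  · have := iter_inj M.hD (valid_tail hb) (by simp; omega) (by simp; omega)
      (by rw [← List.length_pos_iff]; simp; omega) h1
    omega

theorem arc_adj {b : List ℕ} (hb : Valid M.D b) (h3 : 3 ≤ b.length) {L x y : ℕ} (hL : L ≤ 16)
    (h : sArc (win (bt M.D b) 0 L) x y = true) : G.Adj (M.X (M.nd b x)) (M.X (M.nd b y)) := by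
  simp only [sArc, length_win, Bool.and_eq_true, Bool.or_eq_true, decide_eq_true_eq,
    beq_iff_eq] at h
  obtain ⟨hx, h⟩ := h
  rw [idx_win0 _ hx.le, getD_win _ hx, zero_add] at h
  have hne : (succ M.D)^[x] b ≠ [] := by
    rw [← List.length_pos_iff, length_iter]; omega
  refine M.adj (M.nd_valid hb x) ?_
  rw [nd, if_pos (by omega)]
  rcases h with (⟨hy, rfl⟩ | rfl) | ⟨ht, rfl⟩
  · rw [nd, if_pos (by omega), Function.iterate_succ_apply']
    exact na_succ (six M.hD) hne
  · rw [nd, if_neg (by omega), Nat.add_sub_cancel_left, ← tail_iter (by omega)]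
    obtain ⟨e, u, he⟩ := List.exists_cons_of_ne_nil hne
    rw [he]
    exact na_tail (six M.hD) e u
  · rw [nd, if_neg (by omega), show 17 + cnt (bt M.D b) x - 16 = cnt (bt M.D b) x + 1 by omega,
      Function.iterate_succ_apply', ← tail_iter (by omega)]
    exact na_up (six M.hD) (by simpa [bt] using ht)

theorem sAdj_adj {b : List ℕ} (hb : Valid M.D b) (h3 : 3 ≤ b.length) {L x y : ℕ} (hL : L ≤ 16)
    (h : sAdj (win (bt M.D b) 0 L) x y = true) : G.Adj (M.X (M.nd b x)) (M.X (M.nd b y)) := by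
  rw [sAdj, Bool.or_eq_true] at h
  exact h.elim (M.arc_adj hb h3 hL) fun h => (M.arc_adj hb h3 hL h).symm

variable (P : Data) (key : V → V → K) (S : Finset V) (y : V)

def Wet (n : ℕ) (ω : Finset K) (v : V) : Prop :=
  Reach G key ((S : Set V) ∩ {v | M.lev v ≤ n}) y ω v

def Obj (n : ℕ) (ω : Finset K) (w : List ℕ) (l : ℕ) : Prop :=
  ∃ j < l, M.Wet key S y n ω (M.X ((succ M.D)^[j] w))

def Out (b : List ℕ) (ω : Finset K) : Prop :=
  ∃ u v, Reach G key ((S : Set V) ∩ Set.univ) y ω u ∧ G.Adj u v ∧ v ∉ S ∧ key u v ∈ ω ∧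
    ∃ i < 16, M.X ((succ M.D)^[i] b) = v ∨ (P.m = false ∧ M.X ((succ M.D)^[i] b) = u)

noncomputable def chi (n : ℕ) (b : List ℕ) (ω : Finset K) (s : ℕ) : ℝ≥0∞ :=
  ind (M.Obj key S y n ω ((succ M.D)^[s / 2] b.tail) (s % 2 + 1))

def wt (w : List ℕ) (l : ℕ) : ℕ := P.cw l (bt M.D w 0) (bt M.D w 1)

noncomputable def pot (n : ℕ) (ω : Finset K) : ℝ≥0∞ :=
  ∑' w, ind (Valid M.D w ∧ w.length = n) *
    (M.wt P w 1 * ind (M.Obj key S y n ω w 1) + M.wt P w 2 * ind (M.Obj key S y n ω w 2))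

variable {P key S y}

theorem window [DecidableEq K] (hP : P.OK) (h8 : P.e = true → ∀ w, 8 ≤ M.D w)
    (hkey : IsKey P.m key) {n : ℕ} (hn : 2 ≤ n)
    (hy : y ∈ S) (hyn : M.lev y ≤ n) {Ω : Finset K}
    (hΩ : ∀ u v, M.lev u ≤ n + 1 → M.lev v ≤ n + 1 → key u v ∈ Ω)
    {b : List ℕ} (hb : Valid M.D b) (hl : b.length = n + 1) {l : ℕ} (hl2 : l = 1 ∨ l = 2) :
    (EX Ω ((P.a : ℝ≥0∞) / P.b) fun ω =>
      val (P.mass (win (bt M.D b) 0 (2 * P.r + l)) l) (M.chi key S y n b ω)) ≤
      (10 ^ 9 : ℕ) * EX Ω ((P.a : ℝ≥0∞) / P.b) fun ω =>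
        ind (M.Obj key S y (n + 1) ω ((succ M.D)^[P.r] b) l ∨ M.Out P key S y b ω) := by
  have hc := Data.chk1_win (bt_one M.hD b) (bt_two M.hD b) hP
    (fun h => bt_eight (h8 h) b) hl2 0
  simp only [Data.chk1, Bool.and_eq_true, List.all_eq_true, decide_eq_true_eq] at hc
  obtain ⟨⟨⟨hg, hnd⟩, hs⟩, -⟩ := hc
  have hr := hP.r3
  have h3 : 3 ≤ b.length := by omega
  have hL : 2 * P.r + l ≤ 16 := by omega
  have hlev : ∀ x, M.lev (M.X (M.nd b x)) = if x < 16 then n + 1 else n := fun x => by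
    rw [M.lev_X (M.nd_valid hb x), nd_length, hl]; rfl
  have hlev' : ∀ x, M.lev (M.X (M.nd b x)) ≤ n + 1 := fun x => by
    rw [hlev]; split_ifs <;> omega
  have hg' : ∀ g ∈ gates P.m (win (bt M.D b) 0 (2 * P.r + l)) P.r l, g.2.2.1 < 16 ∧ g.2.2.2 < 26 ∧
      if P.m = true then g.1 = 2 ^ g.2.2.1 ∧ g.2.2.2 = g.2.2.1 ∧ ∀ y, g.2.1.testBit y = true →
        G.Adj (M.X (M.nd b g.2.2.1)) (M.X (M.nd b y))
      else g = eg g.2.2.1 g.2.2.2 ∧ G.Adj (M.X (M.nd b g.2.2.1)) (M.X (M.nd b g.2.2.2)) := by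
    intro g hg0
    have h1 := hg g hg0
    simp only [gOK, length_win, Bool.and_eq_true, decide_eq_true_eq] at h1
    refine ⟨by omega, h1.1.2, ?_⟩
    have h2 := h1.2
    split_ifs at h2 ⊢
    · simp only [Bool.and_eq_true, beq_iff_eq, decide_eq_true_eq, List.all_eq_true,
        List.mem_range, Bool.or_eq_true, Bool.not_eq_true'] at h2
      refine ⟨h2.1.1.1, h2.1.1.2, fun y hy => M.sAdj_adj hb h3 hL ((h2.2 y ?_).resolve_left ?_)⟩
      · by_contra hy'
        rw [Nat.testBit_lt_two_pow (h2.1.2.trans_le (Nat.pow_le_pow_right two_pos (by omega)))] at hy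
        exact absurd hy (by simp)
      · simp [hy]
    · simp only [Bool.and_eq_true, beq_iff_eq] at h2
      exact ⟨h2.1, M.sAdj_adj hb h3 hL h2.2⟩
  have hup : ∀ ω v, M.Wet key S y n ω v → M.Wet key S y (n + 1) ω v := fun ω v h =>
    reach_le h ⟨hy, hyn⟩ (fun _ h => ⟨h.1, Nat.le_succ_of_le h.2⟩) fun _ _ _ _ _ h => h
  refine explore_sound hP.ab hP.b0
    (fun g : Gate => key (M.X (M.nd b g.2.2.1)) (M.X (M.nd b g.2.2.2))) 40 _ _ _ Ω
    (fun ω x => M.Wet key S y (n + 1) ω (M.X (M.nd b x)) ∨ M.Out P key S y b ω) _ _ ?_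
    (fun g _ => hΩ _ _ (hlev' _) (hlev' _)) ?_ ?_ ?_ ?_
  · refine List.Nodup.map_on ?_ (List.Nodup.of_map _ hnd)
    intro g hg1 g' hg2 he
    refine List.inj_on_of_nodup_map hnd hg1 hg2 ?_
    obtain ⟨a1, a2, a3⟩ := hg' g hg1
    obtain ⟨b1, b2, b3⟩ := hg' g' hg2
    have := (hkey ..).1 he
    unfold KE at this
    split_ifs at this a3 b3
    · rw [a3.1, b3.1, ← a3.2.1, ← b3.2.1, M.nd_inj hb h3 a2 b2 this]
    · rw [a3.1, b3.1]
      rcases this with ⟨e1, e2⟩ | ⟨e1, e2⟩
      · rw [M.nd_inj hb h3 (by omega) (by omega) e1, M.nd_inj hb h3 a2 b2 e2]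
      · rw [M.nd_inj hb h3 (by omega) b2 e1, M.nd_inj hb h3 a2 (by omega) e2]
        exact Nat.or_comm _ _
  · intro g hg1 ω hω x z hx hz hR
    obtain ⟨a1, a2, a3⟩ := hg' g hg1
    refine hR.elim (fun hR => ?_) Or.inr
    have key1 : G.Adj (M.X (M.nd b z)) (M.X (M.nd b x)) →
        key (M.X (M.nd b z)) (M.X (M.nd b x)) ∈ ω → (x < 16 ∨ (P.m = false ∧ z < 16)) →
        M.Wet key S y (n + 1) ω (M.X (M.nd b x)) ∨ M.Out P key S y b ω := fun ha hk hxz => by
      by_cases hS : M.X (M.nd b x) ∈ S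
      · exact Or.inl (.step hR ha ⟨hS, hlev' x⟩ hk)
      · refine Or.inr ⟨_, _, reach_le hR ⟨hy, Nat.le_succ_of_le hyn⟩ (fun _ h => ⟨h.1, trivial⟩)
          fun _ _ _ _ _ h => h, ha, hS, hk, ?_⟩
        rcases hxz with h | h
        · exact ⟨x, h, Or.inl (by rw [nd, if_pos h])⟩
        · exact ⟨z, h.2, Or.inr ⟨h.1, by rw [nd, if_pos h.2]⟩⟩
    split_ifs at a3 with hm
    · rw [a3.1, Nat.testBit_two_pow, decide_eq_true_eq] at hx
      subst hx
      refine key1 (a3.2.2 z hz).symm ?_ (Or.inl a1)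
      rwa [(hkey _ _ (M.X (M.nd b g.2.2.1)) (M.X (M.nd b g.2.2.2))).2 (by simp [KE, hm, a3.2.1])]
    · rw [a3.1] at hx hz
      simp only [eg, Nat.testBit_or, Nat.testBit_two_pow, Bool.or_eq_true,
        decide_eq_true_eq] at hx hz
      rcases hx with rfl | rfl <;> rcases hz with rfl | rfl
      · exact Or.inl hR
      · refine key1 a3.2.symm ?_ (Or.inl a1)
        rwa [(hkey _ _ (M.X (M.nd b g.2.2.1)) (M.X (M.nd b g.2.2.2))).2 (by simp [KE, hm])]
      · exact key1 a3.2 hω (Or.inr ⟨by simpa using hm, a1⟩)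
      · exact Or.inl hR
  · intro ω x hx hR
    rw [Nat.testBit_mul_two_pow, Nat.testBit_two_pow_sub_one, Bool.and_eq_true, decide_eq_true_eq,
      decide_eq_true_eq] at hx
    refine hR.imp_left fun hR => ⟨x - P.r, hx.2, ?_⟩
    rwa [← Function.iterate_add_apply, Nat.sub_add_cancel hx.1, ← if_pos (c := x < 16)
      (by omega) (t := (succ M.D)^[x] b) (e := (succ M.D)^[x - 16] b.tail)]
  · intro ω s hs1
    refine ind_mono ?_
    rintro ⟨j, hj, hW⟩
    refine ⟨16 + s.2 / 2 + j, ?_, Or.inl (hup _ _ ?_)⟩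
    · have := hs s hs1
      rw [sOK, beq_iff_eq] at this
      rw [this, Nat.testBit_mul_two_pow, Nat.add_sub_cancel_left]
      split_ifs
      · obtain rfl : j = 0 := by omega
        simp
      · obtain rfl | rfl : j = 0 ∨ j = 1 := by omega
        all_goals simp; try rfl
    · rwa [nd, if_neg (by omega), show 16 + s.2 / 2 + j - 16 = j + s.2 / 2 by omega,
        Function.iterate_add_apply]
  · intro g hg1 ω
    obtain ⟨a1, a2, a3⟩ := hg' g hg1
    funext s
    refine ind_congr (exists_congr fun j => and_congr_right fun _ =>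
      ⟨fun h => reach_le h ⟨hy, hyn⟩ subset_rfl fun u hu v hv _ hk => ?_,
        DCT.reach_mono (Finset.subset_insert _ _)⟩)
    refine (Finset.mem_insert.1 hk).resolve_left fun he => ?_
    have h1 := hlev g.2.2.1
    rw [if_pos a1] at h1
    have h2 : M.lev u ≤ n := hu.2
    have h4 : M.lev v ≤ n := hv.2
    have := (hkey ..).1 he
    unfold KE at this
    split_ifs at this a3
    · rw [this, a3.2.1] at h4; omega
    · rcases this with ⟨e, -⟩ | ⟨-, e⟩
      · rw [e] at h2; omega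
      · rw [e] at h4; omega

theorem wt_le (hP : P.OK) {w : List ℕ} {k : ℕ} (hk : k < 2) {x z : Bool}
    (hx : x = true → bt M.D w k = true) (hz : z = true → k = 1 → bt M.D w 0 = true) :
    M.wt P w (k + 1) ≤ P.cw (k + 1) x z := by
  have h1 := hP.c1
  have h2 := hP.d1
  obtain rfl | rfl : k = 0 ∨ k = 1 := by omega
  all_goals
    revert hx hz
    unfold wt Data.cw
    cases x <;> cases z <;> cases bt M.D w 0 <;> cases bt M.D w 1 <;> simp <;> omega

theorem base_facts (hP : P.OK) {w B : List ℕ} {k : ℕ} (hk : k < 2) (hw : Valid M.D w)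
    (h2 : 2 ≤ w.length) (hB : Valid M.D B)
    (he : (succ M.D)^[2 * P.r + 2] B = 3 :: (succ M.D)^[k] w) :
    B.length = w.length + 1 ∧ (succ M.D)^[cnt (bt M.D B) (2 * P.r + 2) - k] B.tail = w ∧
      M.wt P w (k + 1) * 10 ^ 9 ≤
        ∑ i ∈ Finset.range (2 * P.r + 2 + P.s0), P.F (bt M.D B) k i := by
  have hl : B.length = w.length + 1 := by
    have := congrArg List.length he
    rwa [length_iter, List.length_cons, length_iter] at this
  have hr := hP.r2
  have hne : (succ M.D)^[k] w ≠ [] := by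
    rw [← List.length_pos_iff, length_iter]; omega
  have t1 : tau M.D ((succ M.D)^[2 * P.r + 1] B) = 1 :=
    tau_before M.hD (valid_iter M.hD hB _) hne
      (by rw [← he, ← Function.iterate_succ_apply' (succ M.D)])
  have hA : bt M.D B (2 * P.r + 1) = true := decide_eq_true t1
  have c1 : cnt (bt M.D B) (2 * P.r + 2) = cnt (bt M.D B) (2 * P.r + 1) + 1 := by
    rw [cnt, hA]; rfl
  have ht := tail_iter (D := M.D) (b := B) (by omega) (2 * P.r + 2)
  rw [he, List.tail_cons] at ht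
  have hw' : (succ M.D)^[cnt (bt M.D B) (2 * P.r + 2) - k] B.tail = w := by
    refine iter_cancel M.hD (valid_iter M.hD (valid_tail hB) _) hw k ?_
    rw [← Function.iterate_add_apply, ht]
    congr 1; omega
  refine ⟨hl, hw', le_trans (Nat.mul_le_mul_right _ (M.wt_le hP hk ?_ ?_))
    (Data.need_le (bt_one M.hD B) (bt_two M.hD B) hP hk hA)⟩
  · intro h
    have := tau_two M.hD t1 (by simpa [bt, Function.iterate_succ_apply'] using h)
    rw [← Function.iterate_succ_apply' (succ M.D), he] at this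
    simpa [bt] using this
  · rintro h rfl
    obtain ⟨j, hj⟩ : ∃ j, 2 * P.r = j + 1 := ⟨2 * P.r - 1, by omega⟩
    rw [hj, Nat.add_sub_cancel] at h
    have h0 := bt_one M.hD B j h
    have := tau_two M.hD (u := (succ M.D)^[j] B) (by simpa [bt] using h)
      (by simpa [hj, Function.iterate_succ_apply'] using t1)
    rw [← Function.iterate_succ_apply' (succ M.D), tail_iter (by omega)] at this
    rw [c1, hj, Nat.add_sub_cancel, cnt, h0] at hw'
    rw [← hw']
    simpa [bt] using this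

theorem swap (hP : P.OK) (h8 : P.e = true → ∀ w, 8 ≤ M.D w) {n : ℕ} (hn : 2 ≤ n) (ω : Finset K) :
    (10 ^ 9 : ℕ) * M.pot P key S y n ω ≤ ∑' b, ind (Valid M.D b ∧ b.length = n + 1) *
      (M.wt P ((succ M.D)^[P.r] b) 1 *
        val (P.mass (win (bt M.D b) 0 (2 * P.r + 1)) 1) (M.chi key S y n b ω) +
      M.wt P ((succ M.D)^[P.r] b) 2 *
        val (P.mass (win (bt M.D b) 0 (2 * P.r + 2)) 2) (M.chi key S y n b ω)) := by
  choose! B hB using fun u (hu : Valid M.D u) => exists_base M.hD hu (2 * P.r + 2)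
  have hf : ∀ w (k : ℕ), k < 2 → Valid M.D w → w.length = n → _ := fun w k hk hw hl =>
    have h0 : Valid M.D (3 :: (succ M.D)^[k] w) := valid_three M.hD (valid_iter M.hD hw k)
      (by rw [← List.length_pos_iff, length_iter]; omega)
    And.intro (hB _ h0).1 (M.base_facts hP hk hw (by omega) (hB _ h0).1 (hB _ h0).2)
  have hr := hP.r3
  have hs := hP.s5
  calc _ ≤ ∑' x : List ℕ × Fin 2 × Fin (2 * P.r + 2 + P.s0),
        ind (Valid M.D x.1 ∧ x.1.length = n) *
          (P.F (bt M.D (B (3 :: (succ M.D)^[x.2.1] x.1))) x.2.1 x.2.2 *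
            ind (M.Obj key S y n ω x.1 (x.2.1 + 1))) := by
        rw [pot, ← ENNReal.tsum_mul_left, ENNReal.tsum_prod']
        refine ENNReal.tsum_le_tsum fun w => ?_
        dsimp only
        rw [mul_left_comm, ENNReal.tsum_mul_left]
        refine ind_mul_le fun hw => ?_
        rw [ind_of hw, one_mul, tsum_fintype, Fintype.sum_prod_type, Fin.sum_univ_two, mul_add]
        have := fun k hk => (hf w k hk hw.1 hw.2).2.2.2
        simp only [← Finset.sum_mul, ← mul_assoc, ← Nat.cast_mul, ← Nat.cast_sum,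
          ← Fin.sum_univ_eq_sum_range, mul_comm (10 ^ 9)] at this ⊢
        exact add_le_add (mul_le_mul_left (Nat.cast_le.2 (this 0 two_pos)) _)
          (mul_le_mul_left (Nat.cast_le.2 (this 1 one_lt_two)) _)
    _ ≤ ∑' z : List ℕ × ℕ, ind (Valid M.D z.1 ∧ z.1.length = n + 1) *
          (P.ent (cd (bt M.D z.1) 0 (2 * P.r + 1 + 1)) z.2 * M.chi key S y n z.1 ω z.2) := by
        have key1 : ∀ (w : List ℕ) (k i : ℕ), k < 2 → Valid M.D w ∧ w.length = n →
            P.F (bt M.D (B (3 :: (succ M.D)^[k] w))) k i ≠ 0 → ∀ b s,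
            b = (succ M.D)^[i] (B (3 :: (succ M.D)^[k] w)) →
            s = 2 * (cnt (bt M.D (B (3 :: (succ M.D)^[k] w))) (2 * P.r + 2) -
              cnt (bt M.D (B (3 :: (succ M.D)^[k] w))) i) - k →
            s % 2 = k ∧ (succ M.D)^[s / 2] b.tail = w ∧
              P.F (bt M.D (B (3 :: (succ M.D)^[k] w))) k i =
                P.ent (cd (bt M.D b) 0 (2 * P.r + 1 + 1)) s := by
          intro w k i hk hw hF b s hb hs
          obtain ⟨a1, a2, a3, -⟩ := hf w k hk hw.1 hw.2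
          unfold Data.F at hF ⊢
          split_ifs at hF ⊢ with hc
          · refine ⟨by omega, ?_, ?_⟩
            · rw [hb, tail_iter (by omega), ← Function.iterate_add_apply]
              refine Eq.trans ?_ a3
              congr 1; omega
            · rw [hb, hs, bt_shift, cd, cd, win_shift, add_zero]
          · exact absurd rfl hF
        refine tsum_le_of_enc _ _ (fun x => ((succ M.D)^[x.2.2] (B (3 :: (succ M.D)^[x.2.1] x.1)),
          2 * (cnt (bt M.D (B (3 :: (succ M.D)^[x.2.1] x.1))) (2 * P.r + 2) -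
            cnt (bt M.D (B (3 :: (succ M.D)^[x.2.1] x.1))) x.2.2) - x.2.1)) ?_ ?_
        · rintro ⟨w, k, i⟩ ⟨w', k', i'⟩ h h' he
          have a0 := of_ind_mul_ne h
          have b0 := of_ind_mul_ne h'
          obtain ⟨e1, e2⟩ := Prod.mk.inj he
          obtain ⟨a1, a2, -⟩ := key1 w k i k.2 a0
            (by rintro h0; simp [h0] at h) _ _ rfl rfl
          obtain ⟨b1, b2, -⟩ := key1 w' k' i' k'.2 b0
            (by rintro h0; simp [h0] at h') _ _ e1 e2
          obtain rfl : k = k' := Fin.ext (a1.symm.trans b1)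
          obtain rfl : w = w' := a2.symm.trans b2
          obtain ⟨c1, c2, -⟩ := hf w k k.2 a0.1 a0.2
          have := i.2
          have := i'.2
          have hn' : w.length = n := a0.2
          rw [show i = i' from Fin.ext (iter_inj M.hD c1 (by omega) (by omega)
            (by rw [← List.length_pos_iff]; omega) e1)]
        · rintro ⟨w, k, i⟩ h
          have a0 := of_ind_mul_ne h
          obtain ⟨a1, a2, a3⟩ := key1 w k i k.2 a0
            (by rintro h0; simp [h0] at h) _ _ rfl rfl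
          obtain ⟨c1, c2, -⟩ := hf w k k.2 a0.1 a0.2
          have hn' : w.length = n := a0.2
          simp only [chi]
          rw [a1, a2, a3, ind_of a0, ind_of (A := _ ∧ _) ⟨valid_iter M.hD c1 _, by
            rw [length_iter]; omega⟩]
    _ ≤ _ := by
        rw [ENNReal.tsum_prod']
        refine ENNReal.tsum_le_tsum fun b => ?_
        simp only [ENNReal.tsum_mul_left]
        refine mul_le_mul_right ?_ _
        simp only [Data.ent_eq (bt_one M.hD b) (bt_two M.hD b) hP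
          (fun h => bt_eight (h8 h) b), Nat.cast_add, Nat.cast_mul,
          add_mul, mul_assoc, ENNReal.tsum_add, ENNReal.tsum_mul_left, wt, bt_shift, zero_add,
          add_zero]
        exact add_le_add (mul_le_mul_right (tsum_le_val ..) _) (mul_le_mul_right (tsum_le_val ..) _)

theorem wt_one (hP : P.OK) (w : List ℕ) : P.c1 ≤ M.wt P w 1 ∧ M.wt P w 1 ≤ P.c0 := by
  have := hP.c1
  unfold wt Data.cw
  split_ifs <;> omega

theorem wt_two (hP : P.OK) (w : List ℕ) : M.wt P w 2 ≤ P.d0 := by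
  have := hP.d1
  unfold wt Data.cw
  split_ifs <;> omega

theorem level [DecidableEq K] (hP : P.OK) (h8 : P.e = true → ∀ w, 8 ≤ M.D w)
    (hkey : IsKey P.m key) {n : ℕ} (hn : 2 ≤ n)
    (hy : y ∈ S) (hyn : M.lev y ≤ n) {Ω : Finset K}
    (hΩ : ∀ u v, M.lev u ≤ n + 1 → M.lev v ≤ n + 1 → key u v ∈ Ω) :
    EX Ω ((P.a : ℝ≥0∞) / P.b) (M.pot P key S y n) ≤
      EX Ω ((P.a : ℝ≥0∞) / P.b) (M.pot P key S y (n + 1)) +
      (P.c0 + P.d0 : ℕ) * EX Ω ((P.a : ℝ≥0∞) / P.b) fun ω =>
        ∑' b, ind (b.length = n + 1) * ind (Valid M.D b ∧ M.Out P key S y b ω) := by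
  rw [← ENNReal.mul_le_mul_iff_right (a := ((10 ^ 9 : ℕ) : ℝ≥0∞)) (by simp) (by simp),
    ← EX_mul_left]
  refine (EX_mono fun ω _ => M.swap hP h8 hn ω).trans ?_
  rw [EX_tsum]
  calc _ ≤ ∑' b, (10 ^ 9 : ℕ) * EX Ω ((P.a : ℝ≥0∞) / P.b) fun ω =>
        ind (Valid M.D b ∧ b.length = n + 1) * (M.wt P ((succ M.D)^[P.r] b) 1 *
          ind (M.Obj key S y (n + 1) ω ((succ M.D)^[P.r] b) 1 ∨ M.Out P key S y b ω) +
          M.wt P ((succ M.D)^[P.r] b) 2 *
          ind (M.Obj key S y (n + 1) ω ((succ M.D)^[P.r] b) 2 ∨ M.Out P key S y b ω)) := by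
        refine ENNReal.tsum_le_tsum fun b => ?_
        rw [EX_mul_left, EX_mul_left, mul_left_comm]
        refine ind_mul_le fun hb => ?_
        rw [ind_of hb, one_mul, EX_add, EX_add, mul_add]
        simp only [EX_mul_left]
        rw [mul_left_comm, mul_left_comm ((10 ^ 9 : ℕ) : ℝ≥0∞)]
        exact add_le_add
          (mul_le_mul_right (M.window hP h8 hkey hn hy hyn hΩ hb.1 hb.2 (Or.inl rfl)) _)
          (mul_le_mul_right (M.window hP h8 hkey hn hy hyn hΩ hb.1 hb.2 (Or.inr rfl)) _)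
    _ ≤ _ := by
        rw [ENNReal.tsum_mul_left, ← EX_tsum, ← EX_mul_left (P.c0 + P.d0 : ℕ), ← EX_add]
        refine mul_le_mul_right (EX_mono fun ω _ => ?_) _
        rw [← ENNReal.tsum_mul_left]
        refine le_trans (ENNReal.tsum_le_tsum (g := fun b => ind (Valid M.D b ∧ b.length = n + 1) *
          (M.wt P ((succ M.D)^[P.r] b) 1 * ind (M.Obj key S y (n + 1) ω ((succ M.D)^[P.r] b) 1) +
          M.wt P ((succ M.D)^[P.r] b) 2 * ind (M.Obj key S y (n + 1) ω ((succ M.D)^[P.r] b) 2)) +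
          (P.c0 + P.d0 : ℕ) * (ind (b.length = n + 1) * ind (Valid M.D b ∧ M.Out P key S y b ω)))
          fun b => ind_mul_le fun hb => ?_) ?_
        · by_cases ho : M.Out P key S y b ω
          · refine le_add_left ?_
            rw [ind_of (Or.inr ho), ind_of (Or.inr ho), ind_of hb.2, ind_of (A := _ ∧ _) ⟨hb.1, ho⟩]
            simp only [mul_one, ← Nat.cast_add, Nat.cast_le]
            exact add_le_add (M.wt_one hP _).2 (M.wt_two hP _)
          · simp only [ho, or_false, ind_of hb, one_mul]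
            exact le_self_add
        · rw [ENNReal.tsum_add]
          refine add_le_add_left (tsum_le_of_enc _ _ (succ M.D)^[P.r] (fun b b' h h' he => ?_)
            fun b h => ?_) _
          · exact iter_cancel M.hD (of_ind_mul_ne h).1 (of_ind_mul_ne h').1 _ he
          · have := of_ind_mul_ne h
            rw [ind_of this, ind_of (A := _ ∧ _) ⟨valid_iter M.hD this.1 _, by
              rw [length_iter, this.2]⟩]

theorem out_le [DecidableEq K] (hkey : IsKey P.m key) (hy : y ∈ S) (ω : Finset K) :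
    ∑' b, ind (Valid M.D b ∧ M.Out P key S y b ω) ≤
      32 * ∑' κ, ind (κ ∈ ω) * ind (Exit G key S Set.univ y (ω.erase κ) κ) := by
  have : Nonempty V := ⟨y⟩
  let E : K → V × V := fun κ => Classical.epsilon fun z => key z.1 z.2 = κ
  let dec : (Fin 16 × Bool) × K → List ℕ := fun z => Classical.epsilon fun b =>
    Valid M.D b ∧ M.X ((succ M.D)^[z.1.1] b) = if z.1.2 then (E z.2).1 else (E z.2).2
  refine (tsum_le_of_dec _ (fun z => ind (z.2 ∈ ω) *
    ind (Exit G key S Set.univ y (ω.erase z.2) z.2)) dec fun b h => ?_).trans (le_of_eq ?_)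
  · obtain ⟨hb, u, v, h1, h2, h3, h4, i, hi, h5⟩ : Valid M.D b ∧ M.Out P key S y b ω := by
      by_contra hc
      exact h (ind_of_not hc)
    have h6 : key (E (key u v)).1 (E (key u v)).2 = key u v :=
      Classical.epsilon_spec (p := fun z : V × V => key z.1 z.2 = key u v) ⟨(u, v), rfl⟩
    obtain ⟨t, ht⟩ : ∃ t : Bool, M.X ((succ M.D)^[i] b) =
        if t then (E (key u v)).1 else (E (key u v)).2 := by
      have := (hkey ..).1 h6
      unfold KE at this
      split_ifs at this with hm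
      · exact ⟨false, (h5.resolve_right fun h => by simp [hm] at h).trans this.symm⟩
      · rcases this with ⟨e1, e2⟩ | ⟨e1, e2⟩ <;> rcases h5 with h5 | ⟨-, h5⟩
        exacts [⟨false, h5.trans e2.symm⟩, ⟨true, h5.trans e1.symm⟩, ⟨true, h5.trans e1.symm⟩,
          ⟨false, h5.trans e2.symm⟩]
    refine ⟨((⟨i, hi⟩, t), key u v), ?_, ?_⟩
    · have := Classical.epsilon_spec (p := fun b => Valid M.D b ∧ M.X ((succ M.D)^[i] b) =
        if t then (E (key u v)).1 else (E (key u v)).2) ⟨b, hb, ht⟩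
      exact iter_cancel M.hD this.1 hb i
        (M.inj (valid_iter M.hD this.1 i) (valid_iter M.hD hb i) (this.2.trans ht.symm))
    · rw [ind_of (A := _ ∈ _) h4, one_mul]
      exact ind_mono fun _ => ⟨u, v, reach_le h1 ⟨hy, trivial⟩ subset_rfl fun a ha c hc _ hk =>
        Finset.mem_erase.2 ⟨(DCT.key_ne hkey h3 ha.1 hc.1).symm, hk⟩, h2, h3, trivial, rfl⟩
  · rw [ENNReal.tsum_prod', tsum_fintype]
    simp

theorem phiC (hP : P.OK) (h8 : P.e = true → ∀ w, 8 ≤ M.D w)
    (hkey : IsKey P.m key) {w : List ℕ} (hw : Valid M.D w)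
    (h2 : 2 ≤ w.length) : PhiC G key (32 * (P.c0 + P.d0)) ((P.a : ℝ≥0∞) / P.b) (M.X w) := by
  classical
  intro S hy Ω hΩ
  have hp := div_le_one' hP.ab
  obtain ⟨N, hN⟩ : ∃ N, ∀ v ∈ S, M.lev v ≤ N := ⟨S.sup M.lev, fun v hv => Finset.le_sup hv⟩
  set Ω' := ((M.fin (N + 1)).toFinset ×ˢ (M.fin (N + 1)).toFinset).image
    (fun z => key z.1 z.2) ∪ Ω with hΩ'
  have hl := M.lev_X hw
  have tel : ∀ j, w.length + j ≤ N + 1 →
      EX Ω' ((P.a : ℝ≥0∞) / P.b) (M.pot P key S (M.X w) w.length) ≤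
      EX Ω' ((P.a : ℝ≥0∞) / P.b) (M.pot P key S (M.X w) (w.length + j)) +
      (P.c0 + P.d0 : ℕ) * EX Ω' ((P.a : ℝ≥0∞) / P.b) fun ω =>
        ∑' b, ind (w.length < b.length ∧ b.length ≤ w.length + j) *
          ind (Valid M.D b ∧ M.Out P key S (M.X w) b ω) := by
    intro j hj
    induction j with
    | zero => exact le_self_add
    | succ j ih =>
      refine (ih (by omega)).trans ((add_le_add_left (M.level hP h8 hkey (by omega) hy (by omega)
        fun u v hu hv => Finset.mem_union_left _ (Finset.mem_image.2 ⟨(u, v), by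
          simp; omega, rfl⟩)) _).trans ?_)
      rw [add_assoc, ← mul_add, ← EX_add]
      refine add_le_add_right (mul_le_mul_right (EX_mono fun ω _ => ?_) _) _
      rw [← ENNReal.tsum_add]
      refine ENNReal.tsum_le_tsum fun b => ?_
      rw [← add_mul]
      refine mul_le_mul_left ?_ _
      by_cases h : b.length = w.length + j + 1
      · rw [ind_of h, ind_of_not (by omega), ind_of (by omega), add_zero]
      · rw [ind_of_not h, zero_add]
        exact ind_mono (by omega)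
  have h0 := hN _ hy
  have h1 := tel (N + 1 - w.length) (by omega)
  have h3 : EX Ω' ((P.a : ℝ≥0∞) / P.b) (M.pot P key S (M.X w) (w.length + (N + 1 - w.length))) =
      0 := by
    rw [← EX_zero (Ω := Ω') (p := (P.a : ℝ≥0∞) / P.b)]
    refine EX_congr fun ω _ => ENNReal.tsum_eq_zero.2 fun u => le_zero_iff.1 (ind_mul_le fun hu => ?_)
    have : ∀ l, ¬M.Obj key S (M.X w) (w.length + (N + 1 - w.length)) ω u l := by
      rintro l ⟨j, -, h⟩
      have := hN _ (DCT.reach_mem hy (reach_le h ⟨hy, by simp; omega⟩ (fun _ h => ⟨h.1, trivial⟩)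
        fun _ _ _ _ _ h => h))
      rw [M.lev_X (valid_iter M.hD hu.1 _), length_iter] at this
      omega
    simp [ind_of_not (this _)]
  have h4 : 1 ≤ EX Ω' ((P.a : ℝ≥0∞) / P.b) (M.pot P key S (M.X w) w.length) := by
    rw [← EX_const (Ω := Ω') hp 1]
    refine EX_mono fun ω _ => le_trans ?_ (ENNReal.le_tsum w)
    rw [ind_of (A := _ ∧ _) ⟨hw, rfl⟩, one_mul,
      ind_of (A := M.Obj key S (M.X w) w.length ω w 1) ⟨0, one_pos, .base⟩, mul_one]
    exact le_add_right (Nat.one_le_cast.2 (hP.c0.trans_le (M.wt_one hP w).1))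
  rw [h3, zero_add] at h1
  refine h4.trans (h1.trans ?_)
  rw [mul_comm 32, Nat.cast_mul, mul_assoc]
  refine mul_le_mul_right ((EX_mono fun ω _ => (ENNReal.tsum_le_tsum fun b =>
    ind_mul_le fun _ => le_rfl).trans (M.out_le hkey hy ω)).trans ?_) _
  rw [EX_mul_left, EX_tsum, ← EX_union hp Ω (f := NE G key S Set.univ (M.X w)) ?_, ← hΩ']
  · refine mul_le_mul_right ?_ _
    unfold NE
    rw [EX_tsum, ← ENNReal.tsum_mul_left]
    exact ENNReal.tsum_le_tsum fun κ => (EX_mem_erase_le hp κ _).trans (mul_le_mul_right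
      (EX_mono_set hp (Finset.erase_subset _ _) fun s t h => ind_mono (DCT.exit_mono h)) _)
  · intro κ hκ s
    refine tsum_congr fun κ' => ind_congr ⟨?_, DCT.exit_mono (Finset.subset_insert _ _)⟩
    rintro ⟨u, v, h1, h2⟩
    exact ⟨u, v, reach_le h1 ⟨hy, trivial⟩ subset_rfl fun a ha c _ hac hk =>
      (Finset.mem_insert.1 hk).resolve_left fun e => hκ (e ▸ hΩ a a c ha.1 (Or.inl rfl) hac), h2⟩

end Chart

/-- the chart of a plane triangulation with all degrees at least seven -/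
noncomputable def chart {V : Type} (T : PlaneTri V) (h7 : ∀ v, 7 ≤ T.deg v) {o r : V}
    (h : T.G.Adj o r) : Chart T.G where
  D := T.nD o r
  X w := (T.pj o r w).1
  lev := T.d o
  hD _ := h7 _
  adj := PlaneTri.na_adj (fun v => (Nat.le_succ 6).trans (h7 v)) h
  inj := PlaneTri.pj_inj (fun v => (Nat.le_succ 6).trans (h7 v)) h
  lev_X {w} hw := by
    obtain ⟨ν, -, -, h3, h4⟩ := PlaneTri.exists_nu (fun v => (Nat.le_succ 6).trans (h7 v)) h
    rw [← h4, h3 w hw]
  fin := PlaneTri.ball_finite o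

/-- above the certified parameter there is an infinite cluster -/
theorem Data.perc {P : Data} (hP : P.OK) {V K : Type} (T : PlaneTri V) (h7 : ∀ v, 7 ≤ T.deg v)
    (h8 : P.e = true → ∀ v, 8 ≤ T.deg v) {key : V → V → K} (hkey : IsKey P.m key) {U : Set K} (hU : ∀ a b, T.G.Adj a b → key a b ∈ U)
    {q : unitInterval} (hq : (P.a : ℝ) / P.b < q) : ∃ y, 0 < ProbabilityTheory.setBernoulli U q
      {ω : Set K | {w | Relation.ReflTransGen
        (fun a b => T.G.Adj a b ∧ key a b ∈ ω) y w}.Infinite} := by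
  obtain ⟨o⟩ := T.conn.nonempty
  obtain ⟨r, h⟩ := PlaneTri.exists_adj (fun v => (Nat.succ_pos 6).trans_le (h7 v)) o
  have hv : Valid (chart T h7 h).D [3, 0] := valid_three (chart T h7 h).hD
    (valid_single ((Nat.succ_pos 6).trans_le (h7 _))) (by simp)
  refine ⟨(chart T h7 h).X [3, 0], dctC T.locFin hkey hU _
    (p₀ := ⟨(P.a : ℝ) / P.b, by positivity, hq.le.trans q.2.2⟩) hq (C := 32 * (P.c0 + P.d0)) ?_⟩
  rw [DCT.toE_eq, ENNReal.ofReal_div_of_pos (Nat.cast_pos.2 hP.b0), ENNReal.ofReal_natCast,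
    ENNReal.ofReal_natCast]
  exact (chart T h7 h).phiC hP (fun h _ => h8 h _) hkey hv le_rfl

end Cert
end Pool.Agent.P.MP_e4ac67_pr
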