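import Pool.Agent.P.MP_e4ac67_pr.CertMain
import Pool.Agent.P.MP_e4ac67_pr.CertData

/-! Upper bounds for both thresholds, uniform over triangulations with degrees at least seven. -/

open ProbabilityTheory

namespace Pool.Agent.P.MP_e4ac67_pr
namespace PlaneTri
variable {V : Type} (T : PlaneTri V) (h7 : ∀ v, 7 ≤ T.deg v)
include h7

/-- `m = true`: site percolation above `0.2755`; `m = false`: bond percolation above `0.2055` -/
theorem cert_perc {K : Type} {m : Bool} {key : V → V → K} (hkey : IsKey m key) {U : Set K}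
    (hU : ∀ a b, T.G.Adj a b → key a b ∈ U) {q : unitInterval}
    (hq : (if m then 551 / 2000 else 411 / 2000 : ℝ) < q) : ∃ y, 0 < setBernoulli U q
      {ω : Set K | {w | Relation.ReflTransGen
        (fun a b => T.G.Adj a b ∧ key a b ∈ ω) y w}.Infinite} := by
  cases m
  · exact Cert.Data.perc Cert.PB_ok T h7 nofun hkey hU (by simpa [Cert.PB] using hq)
  · exact Cert.Data.perc Cert.PS_ok T h7 nofun hkey hU (by simpa [Cert.PS] using hq)

theorem bond_pos {q : unitInterval} (hq : (411 / 2000 : ℝ) < q) :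
    0 < setBernoulli T.G.edgeSet q {ω : Set (Sym2 V) | ∃ v, {w | Relation.ReflTransGen
      (fun a b => T.G.Adj a b ∧ s(a, b) ∈ ω) v w}.Infinite} := by
  obtain ⟨y, h⟩ := T.cert_perc h7 (m := false) (key := fun a b => s(a, b))
    (fun _ _ _ _ => by simp [KE]) (U := T.G.edgeSet) (fun _ _ h => h) (by simpa using hq)
  exact lt_of_lt_of_le h (MeasureTheory.measure_mono fun ω hω => ⟨y, hω⟩)

omit h7 in
theorem site_sub (o : V) : {ω : Set V | {w | Relation.ReflTransGen
      (fun a b => T.G.Adj a b ∧ b ∈ ω) o w}.Infinite} ⊆ {ω : Set V | ∃ v, {w | Relation.ReflTransGen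
      (fun a b => T.G.Adj a b ∧ a ∈ ω ∧ b ∈ ω) v w}.Infinite} := by
  intro ω hω
  by_contra hc
  simp only [Set.mem_ofPred_eq, not_exists, Set.not_infinite] at hc
  refine hω (((Set.finite_singleton o).union ((T.locFin o).biUnion fun v _ => hc v)).subset ?_)
  intro w hw
  have : w = o ∨ (w ∈ ω ∧ ∃ v, T.G.Adj o v ∧ Relation.ReflTransGen
      (fun a b => T.G.Adj a b ∧ a ∈ ω ∧ b ∈ ω) v w) := by
    induction hw with
    | refl => exact Or.inl rfl
    | tail _ h2 ih =>
      rcases ih with rfl | ⟨h3, v, h4, h5⟩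
      · exact Or.inr ⟨h2.2, _, h2.1, .refl⟩
      · exact Or.inr ⟨h2.2, v, h4, h5.tail ⟨h2.1, h3, h2.2⟩⟩
  rcases this with rfl | ⟨-, v, h4, h5⟩
  · exact Or.inl rfl
  · exact Or.inr (Set.mem_biUnion (x := v) h4 h5)

theorem site_pos {q : unitInterval} (hq : (551 / 2000 : ℝ) < q) :
    0 < setBernoulli (Set.univ : Set V) q {ω : Set V | ∃ v, {w | Relation.ReflTransGen
      (fun a b => T.G.Adj a b ∧ a ∈ ω ∧ b ∈ ω) v w}.Infinite} := by
  obtain ⟨y, h⟩ := T.cert_perc h7 (m := true) (key := fun _ b => b)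
    (fun _ _ _ _ => by simp [KE]) (U := Set.univ) (fun _ _ _ => trivial) (by simpa using hq)
  exact lt_of_lt_of_le h (MeasureTheory.measure_mono (T.site_sub y))

theorem pcBond_le : (pcBond T.G : ℝ) ≤ 411 / 2000 :=
  le_of_forall_gt_imp_ge_of_dense fun q hq => (le_total q 1).elim
    (fun h1 => show pcBond T.G ≤ ⟨q, by linarith, h1⟩ from sInf_le (T.bond_pos h7 hq))
    (pcBond T.G).2.2.trans

theorem pcSite_le : (pcSite T.G : ℝ) ≤ 551 / 2000 :=
  le_of_forall_gt_imp_ge_of_dense fun q hq => (le_total q 1).elim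
    (fun h1 => show pcSite T.G ≤ ⟨q, by linarith, h1⟩ from sInf_le (T.site_pos h7 hq))
    (pcSite T.G).2.2.trans

end PlaneTri
end Pool.Agent.P.MP_e4ac67_pr
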