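import Pool.Agent.P.MP_e4ac67_pr.Saw

/-! TASK MU: parameters, tree bound for walks, and the connective constants. -/

open scoped ENNReal

namespace Pool.Agent.P.MP_e4ac67_pr

theorem exists_par {k : ℕ} (hk : 10 ^ 128 ≤ k) {p : ℝ≥0∞} (hp : k * p ≤ 5) :
    ∃ Q : Par k, Q.p = p := by
  have hk0 : (k : ℝ≥0∞) ≠ 0 := by
    have : 0 < k := lt_of_lt_of_le (by positivity) hk
    exact_mod_cast this.ne'
  have hkt : (k : ℝ≥0∞) ≠ ⊤ := ENNReal.natCast_ne_top k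
  set r : ℝ≥0∞ := (k : ℝ≥0∞) ^ ((1 : ℝ) / 8) with hr
  have hr8 : r ^ 8 = k := by
    rw [hr, ← ENNReal.rpow_natCast, ← ENNReal.rpow_mul]
    norm_num
  have hr0 : r ≠ 0 := by
    intro h
    rw [h] at hr8
    exact hk0 (by rw [← hr8]; simp)
  have hrt : r ≠ ⊤ := by
    intro h
    rw [h] at hr8
    exact hkt (by rw [← hr8]; simp)
  have hur : r⁻¹ * r = 1 := ENNReal.inv_mul_cancel hr0 hrt
  have hku : (k : ℝ≥0∞) * r⁻¹ ^ 8 = 1 := by
    rw [← hr8, ← mul_pow, mul_comm, hur, one_pow]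
  have h16 : (10 : ℝ≥0∞) ^ 16 ≤ r := by
    by_contra h
    push Not at h
    have h1 : r ^ 8 < ((10 : ℝ≥0∞) ^ 16) ^ 8 := ENNReal.pow_lt_pow_left (by norm_num) h
    rw [hr8, ← pow_mul] at h1
    have h2 : ((10 : ℝ≥0∞)) ^ (16 * 8) ≤ k := by exact_mod_cast hk
    exact absurd h1 (not_lt.2 h2)
  refine ⟨⟨r⁻¹, r, p, hur, hku, ?_, ?_, le_trans (by norm_num) hk⟩, rfl⟩
  · calc p = (k * r⁻¹ ^ 8) * p := by rw [hku, one_mul]
      _ = (k * p) * r⁻¹ ^ 8 := by ring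
      _ ≤ 5 * r⁻¹ ^ 8 := by gcongr
  · calc (10 : ℝ≥0∞) ^ 16 * r⁻¹ ≤ r * r⁻¹ := by gcongr
      _ = 1 := by rw [mul_comm, hur]

namespace PlaneTri
variable {V V' : Type} {T : PlaneTri V} {T' : PlaneTri V'} {k : ℕ}

theorem Mu.up_card (hT : ∀ v, k ≤ T.deg v) (hk : 6 ≤ k) (v x : V) :
    k - 4 ≤ ((T.nbr x).filter fun w => ¬T.d v w ≤ T.d v x).card := by
  have h1 := st4 (T := T) (fun w => hk.trans (hT w)) v x
  have h2 := Finset.card_filter_add_card_filter_not (s := T.nbr x) (fun w => T.d v w ≤ T.d v x)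
  rw [card_nbr] at h2
  have := hT x
  omega

theorem Mu.tree (hT : ∀ v, k ≤ T.deg v) (hk : 6 ≤ k) (v : V) (n : ℕ) : ∀ x : V,
    ∃ S : Finset (List V), (k - 4) ^ n ≤ S.card ∧ ∀ l ∈ S, l.length = n + 1 ∧ l.head? = some x ∧
      l.IsChain T.G.Adj ∧ l.Nodup ∧ ∀ y ∈ l, T.d v x ≤ T.d v y := by
  classical
  induction n with
  | zero =>
    intro x
    refine ⟨{[x]}, by simp, ?_⟩
    intro l hl
    rw [Finset.mem_singleton] at hl
    subst hl
    simp
  | succ n ih =>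
    intro x
    choose S hS1 hS2 using ih
    set U := (T.nbr x).filter fun w => ¬T.d v w ≤ T.d v x with hU
    refine ⟨U.biUnion fun w => (S w).image (List.cons x), ?_, ?_⟩
    · rw [Finset.card_biUnion]
      · calc (k - 4) ^ (n + 1) = (k - 4) * (k - 4) ^ n := by ring
          _ ≤ U.card * (k - 4) ^ n := Nat.mul_le_mul_right _ (Mu.up_card hT hk v x)
          _ = ∑ _w ∈ U, (k - 4) ^ n := by simp
          _ ≤ _ := Finset.sum_le_sum fun w _ => by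
            rw [Finset.card_image_of_injective _ List.cons_injective]
            exact hS1 w
      · intro w _ w' _ hww
        rw [Function.onFun, Finset.disjoint_left]
        intro l hl hl'
        obtain ⟨a, ha, rfl⟩ := Finset.mem_image.1 hl
        obtain ⟨b, hb, hab⟩ := Finset.mem_image.1 hl'
        have hab' : b = a := List.cons_injective hab
        subst hab'
        have e1 := (hS2 w b ha).2.1
        have e2 := (hS2 w' b hb).2.1
        rw [e1] at e2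
        exact hww (Option.some.inj e2)
    · intro l hl
      obtain ⟨w, hw, hl⟩ := Finset.mem_biUnion.1 hl
      obtain ⟨a, ha, rfl⟩ := Finset.mem_image.1 hl
      obtain ⟨h1, h2, h3, h4, h5⟩ := hS2 w a ha
      obtain ⟨hw1, hw2⟩ := Finset.mem_filter.1 hw
      rw [mem_nbr] at hw1
      refine ⟨by simp [h1], rfl, ?_, ?_, ?_⟩
      · rw [List.isChain_cons]
        refine ⟨?_, h3⟩
        intro y hy
        rw [h2] at hy
        have : w = y := by simpa using hy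
        subst this
        exact hw1
      · rw [List.nodup_cons]
        refine ⟨fun hx => ?_, h4⟩
        exact hw2 (h5 x hx)
      · intro y hy
        rcases List.mem_cons.1 hy with rfl | hy
        · exact le_rfl
        · have := h5 y hy
          omega

theorem saw_tree (hT : ∀ v, k ≤ T.deg v) (hk : 6 ≤ k) (v : V) (n : ℕ) :
    (((k - 4) ^ n : ℕ) : ℕ∞) ≤ sawCount T.G v n := by
  obtain ⟨S, h1, h2⟩ := Mu.tree hT hk v n v
  calc (((k - 4) ^ n : ℕ) : ℕ∞) ≤ (S.card : ℕ∞) := by exact_mod_cast h1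
    _ = (S : Set (List V)).encard := (Set.encard_coe_eq_coe_finsetCard S).symm
    _ ≤ sawCount T.G v n := Set.encard_le_encard fun l hl =>
      ⟨(h2 l hl).1, (h2 l hl).2.1, (h2 l hl).2.2.1, (h2 l hl).2.2.2.1⟩

theorem Mu.ev_pow {z y C : ℝ≥0∞} (hz0 : z ≠ 0) (hzy : z < y) (hC : C ≠ ⊤) :
    ∀ᶠ n : ℕ in Filter.atTop, C < (y * z⁻¹) ^ n := by
  have hzt : z ≠ ⊤ := ne_top_of_lt hzy
  have h1 : 1 < y * z⁻¹ := by
    rw [← div_eq_mul_inv, ENNReal.lt_div_iff_mul_lt (Or.inl hz0) (Or.inl hzt), one_mul]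
    exact hzy
  exact (ENNReal.tendsto_pow_atTop_nhds_top_iff.2 h1).eventually
    (lt_mem_nhds (lt_top_iff_ne_top.2 hC))

theorem Mu.le_limsup {c : ℕ → ℝ≥0∞} {y : ℝ≥0∞} (h : ∀ n, y ^ n ≤ 8 * c n) :
    y ≤ Filter.limsup (fun n : ℕ => c n ^ ((1 : ℝ) / n)) Filter.atTop := by
  refine le_of_forall_lt_imp_le_of_dense fun z hz => ?_
  rcases eq_or_ne z 0 with rfl | hz0
  · exact zero_le
  have hzt : z ≠ ⊤ := ne_top_of_lt hz
  refine Filter.le_limsup_of_frequently_le (Filter.Eventually.frequently ?_)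
  filter_upwards [Mu.ev_pow hz0 hz (C := 8) (by norm_num), Filter.eventually_ge_atTop 1] with n hn h1
  have e : (y * z⁻¹) ^ n * z ^ n = y ^ n := by
    rw [← mul_pow, mul_assoc, ENNReal.inv_mul_cancel hz0 hzt, mul_one]
  have h2 : 8 * z ^ n ≤ 8 * c n := by
    calc 8 * z ^ n ≤ (y * z⁻¹) ^ n * z ^ n := by gcongr
      _ = y ^ n := e
      _ ≤ _ := h n
  have h3 : z ^ n ≤ c n := (ENNReal.mul_le_mul_iff_right (by norm_num) (by norm_num)).1 h2
  have hn0 : (0 : ℝ) < n := by exact_mod_cast h1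
  calc z = (z ^ n) ^ ((1 : ℝ) / n) := by
        rw [← ENNReal.rpow_natCast, ← ENNReal.rpow_mul, mul_one_div_cancel hn0.ne',
          ENNReal.rpow_one]
    _ ≤ _ := ENNReal.rpow_le_rpow h3 (by positivity)

theorem Mu.unb {c : ℕ → ℝ≥0∞} {y : ℝ≥0∞} (hy0 : y ≠ 0)
    (h : y < Filter.limsup (fun n : ℕ => c n ^ ((1 : ℝ) / n)) Filter.atTop) (C : ℝ≥0∞)
    (hC : C ≠ ⊤) : ∃ M, C < c M * y⁻¹ ^ M := by
  obtain ⟨y1, h1, h2⟩ := exists_between h
  have h3 := Filter.frequently_lt_of_lt_limsup (by isBoundedDefault) h2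
  obtain ⟨n, hn, hn1, hn2⟩ := (h3.and_eventually
    ((Mu.ev_pow hy0 h1 hC).and (Filter.eventually_ge_atTop 1))).exists
  refine ⟨n, hn1.trans_le ?_⟩
  have hn0 : (0 : ℝ) < n := by exact_mod_cast hn2
  rw [mul_pow]
  gcongr
  calc y1 ^ n ≤ (c n ^ ((1 : ℝ) / n)) ^ n := by gcongr
    _ = c n := by
      rw [← ENNReal.rpow_natCast, ← ENNReal.rpow_mul, one_div_mul_cancel hn0.ne',
        ENNReal.rpow_one]

theorem mu_le (hk : 10 ^ 128 ≤ k) (hT : ∀ v, k ≤ T.deg v) (hT' : ∀ v, T'.deg v = k) (v : V)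
    (v' : V') : connConst T'.G v' ≤ connConst T.G v := by
  refine le_of_forall_lt_imp_le_of_dense fun y hy => ?_
  rcases eq_or_ne y 0 with rfl | hy0
  · exact zero_le
  have hyt : y ≠ ⊤ := ne_top_of_lt hy
  have hk6 : 6 ≤ k := le_trans (by norm_num) hk
  refine Mu.le_limsup fun n => ?_
  have hyy : y⁻¹ ^ n * y ^ n = 1 := by
    rw [← mul_pow, ENNReal.inv_mul_cancel hy0 hyt, one_pow]
  by_cases hc : (k : ℝ≥0∞) * y⁻¹ ≤ 5
  · obtain ⟨Q, hQ⟩ := exists_par hk hc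
    have h := saw_main hT hT' Q v' (by rw [hQ]; exact Mu.unb hy0 hy) v n
    rw [hQ] at h
    calc y ^ n = 1 * y ^ n := (one_mul _).symm
      _ ≤ 8 * ((sawCount T.G v n : ℝ≥0∞) * y⁻¹ ^ n) * y ^ n := by gcongr
      _ = 8 * (sawCount T.G v n : ℝ≥0∞) * (y⁻¹ ^ n * y ^ n) := by ring
      _ = _ := by rw [hyy, mul_one]
  · push Not at hc
    have h1 : 5 * y ≤ k := by
      calc 5 * y ≤ (k * y⁻¹) * y := by gcongr
        _ = k := by rw [mul_assoc, ENNReal.inv_mul_cancel hy0 hyt, mul_one]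
    have h2 : (k : ℝ≥0∞) ≤ 5 * ((k - 4 : ℕ) : ℝ≥0∞) := by
      have : k ≤ 5 * (k - 4) := by omega
      exact_mod_cast this
    have h3 : y ≤ ((k - 4 : ℕ) : ℝ≥0∞) :=
      (ENNReal.mul_le_mul_iff_right (by norm_num) (by norm_num)).1 (h1.trans h2)
    have h4 : ((((k - 4) ^ n : ℕ) : ℕ∞) : ℝ≥0∞) ≤ (sawCount T.G v n : ℝ≥0∞) :=
      ENat.toENNReal_le.2 (saw_tree hT hk6 v n)
    calc y ^ n ≤ ((k - 4 : ℕ) : ℝ≥0∞) ^ n := by gcongr
      _ = ((((k - 4) ^ n : ℕ) : ℕ∞) : ℝ≥0∞) := by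
        rw [ENat.toENNReal_coe, Nat.cast_pow]
      _ ≤ (sawCount T.G v n : ℝ≥0∞) := h4
      _ = 1 * (sawCount T.G v n : ℝ≥0∞) := (one_mul _).symm
      _ ≤ 8 * (sawCount T.G v n : ℝ≥0∞) := by gcongr; norm_num

end PlaneTri
end Pool.Agent.P.MP_e4ac67_pr
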