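import Pool.Agent.P.MP_e4ac67_pr.CertMain
import Pool.Agent.P.MP_e4ac67_pr.Mu

/-! The connective constant is at least five when all degrees are at least seven. -/

open scoped ENNReal

namespace Pool.Agent.P.MP_e4ac67_pr
namespace Cert
open Node

/-- number of self-avoiding walks inside `A` -/
noncomputable def wc {V : Type} (G : SimpleGraph V) (v : V) (n : ℕ) (A : Set V) : ℝ≥0∞ :=
  ∑' l : List V, ind (l.length = n + 1 ∧ l.head? = some v ∧ l.IsChain G.Adj ∧ l.Nodup ∧
    ∀ y ∈ l, y ∈ A)

section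
variable {V : Type} {G : SimpleGraph V}

theorem wc_mono {v : V} {n : ℕ} {A B : Set V} (h : A ⊆ B) : wc G v n A ≤ wc G v n B :=
  ENNReal.tsum_le_tsum fun _ => ind_mono fun ⟨h1, h2, h3, h4, h5⟩ =>
    ⟨h1, h2, h3, h4, fun y hy => h (h5 y hy)⟩

theorem wc_zero {v : V} {A : Set V} (h : v ∈ A) : 1 ≤ wc G v 0 A :=
  le_trans (ind_of (by simpa using h)).ge (ENNReal.le_tsum [v])

theorem wc_le (v : V) (n : ℕ) (A : Set V) : wc G v n A ≤ sawCount G v n := by
  rw [sawCount, ← tsum_ind_mem]
  exact ENNReal.tsum_le_tsum fun _ => ind_mono fun ⟨h1, h2, h3, h4, _⟩ => ⟨h1, h2, h3, h4⟩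

theorem wc_succ {v : V} {n : ℕ} {A : Set V} (h : v ∈ A) {L : List V} (hL : L.Nodup)
    (ha : ∀ u ∈ L, G.Adj v u) : (L.map fun u => wc G u n (A \ {v})).sum ≤ wc G v (n + 1) A := by
  classical
  rw [← List.sum_toFinset _ hL, ← Finset.tsum_subtype]
  unfold wc
  rw [← ENNReal.tsum_prod]
  refine tsum_le_of_enc _ _ (fun x => v :: x.2) (fun x x' h h' he => ?_) fun x _ => ind_mono ?_
  · have h1 := (of_ind_mul_ne ((mul_one (ind _)).symm ▸ h)).2.1
    have h2 := (of_ind_mul_ne ((mul_one (ind _)).symm ▸ h')).2.1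
    have h3 : x.2 = x'.2 := List.cons_injective he
    rw [h3, h2] at h1
    exact Prod.ext (Subtype.ext (Option.some.inj h1).symm) h3
  · rintro ⟨h1, h2, h3, h4, h5⟩
    refine ⟨by simp [h1], rfl, List.isChain_cons.2 ⟨fun y hy => ?_, h3⟩,
      List.nodup_cons.2 ⟨fun hv => (h5 v hv).2 rfl, h4⟩, ?_⟩
    · rw [h2] at hy
      exact Option.some.inj hy ▸ ha _ (List.mem_toFinset.1 x.1.2)
    · simpa using ⟨h, fun y hy => (h5 y hy).1⟩

namespace Chart
variable (M : Chart G)

/-- one step: go to a child, or sideways -/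
theorem saw_step {n : ℕ} (ih : ∀ w, Valid M.D w → w ≠ [] → (if tau M.D w = 1 then 425 else 500) *
      (5 : ℝ≥0∞) ^ n ≤ 500 * wc G (M.X w) n {v | w.length ≤ M.lev v})
    {w : List ℕ} (hw : Valid M.D w) (h0 : w ≠ []) {A : Set V} (hA : M.X w ∈ A)
    (hA' : ∀ v, w.length + 1 ≤ M.lev v → v ∈ A) {L : List (List ℕ)} (hL : L.Nodup)
    (hl : ∀ u ∈ L, NA M.D w u ∧ u.length = w.length) :
    (if tau M.D w = 1 then 1350 else 1850) * (5 : ℝ≥0∞) ^ n +
      500 * (L.map fun u => wc G (M.X u) n (A \ {M.X w})).sum ≤ 500 * wc G (M.X w) (n + 1) A := by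
  have h6 := six M.hD
  have h7 := M.hD w
  have ht := tau_le (D := M.D) w
  have hp : pred M.D w ≠ w := fun e => by
    have := period M.hD w hw h0 1 one_pos (by rw [← e]; exact (succ_pred h6 hw).trans e.symm)
    have := List.length_pos_iff.2 h0
    omega
  have key : ∀ u, NA M.D w u → u.length = w.length + 1 → (if tau M.D u = 1 then 425 else 500) *
      (5 : ℝ≥0∞) ^ n ≤ 500 * wc G (M.X u) n (A \ {M.X w}) := fun u hu hl =>
    (ih u (hu.valid h6 hw) (by rintro rfl; simp at hl)).trans (mul_le_mul_right (wc_mono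
      fun v (hv : u.length ≤ M.lev v) => And.intro (hA' v (hl ▸ hv)) fun e => by
        rw [show v = M.X w from e, M.lev_X hw] at hv; omega) _)
  have n1 := na_two h6 h0
  have n2 := na_child (valid_three M.hD hw h0)
  have n3 : NA M.D w (last M.D w) := na_child (valid_last h6 hw h0)
  have k1 := key _ n1 (by simp [last, length_pred])
  have k2 := key _ n2 rfl
  have k3 := key _ n3 rfl
  rw [if_pos (tau_last h6 (pred_ne_nil h0))] at k1
  rw [if_neg (tau_three M.hD w)] at k2
  rw [if_pos (tau_last h6 h0)] at k3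
  have fin : ∀ U : List (List ℕ), U.Nodup → (∀ u ∈ U, NA M.D w u ∧ u.length = w.length + 1) →
      500 * (U.map fun u => wc G (M.X u) n (A \ {M.X w})).sum +
        500 * (L.map fun u => wc G (M.X u) n (A \ {M.X w})).sum ≤
        500 * wc G (M.X w) (n + 1) A := fun U hU hu => by
    have hn : ∀ u ∈ U ++ L, NA M.D w u := fun u h =>
      (List.mem_append.1 h).elim (fun h => (hu u h).1) fun h => (hl u h).1
    have := wc_succ (G := G) (n := n) hA (L := (U ++ L).map M.X) (List.Nodup.map_on
      (fun a ha b hb => M.inj ((hn a ha).valid h6 hw) ((hn b hb).valid h6 hw))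
      (List.nodup_append.2 ⟨hU, hL, fun a ha b hb e => by
        have := (hu a ha).2; have := (hl b hb).2; subst e; omega⟩))
      (by simpa only [List.forall_mem_map] using fun u h => M.adj hw (hn u h))
    rw [List.map_map, List.map_append, List.sum_append] at this
    rw [← mul_add]
    exact mul_le_mul_right this _
  split_ifs with h1
  · refine le_trans (add_le_add_left ?_ _) (fin [last M.D (pred M.D w), 3 :: w, last M.D w]
      (by simp [last, hp]; omega) (by simp [n1, n2, n3]; simp [last, length_pred]))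
    simp only [List.map_cons, List.map_nil, List.sum_cons, List.sum_nil, add_zero, mul_add]
    exact le_trans (le_of_eq (by ring)) (add_le_add k1 (add_le_add k2 k3))
  · have n4 : NA M.D w (4 :: w) := na_child (valid_cons hw h0 (by omega) (by omega))
    have k4 := key _ n4 rfl
    rw [if_neg (by rw [tau, if_neg (by omega)]; omega)] at k4
    refine le_trans (add_le_add_left ?_ _) (fin [last M.D (pred M.D w), 3 :: w, last M.D w, 4 :: w]
      (by simp [last, hp]; omega) (by simp [n1, n2, n3, n4]; simp [last, length_pred]))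
    simp only [List.map_cons, List.map_nil, List.sum_cons, List.sum_nil, add_zero, mul_add]
    exact le_trans (le_of_eq (by ring)) (add_le_add k1 (add_le_add k2 (add_le_add k3 k4)))

/-- a sideways direction -/
def Side (f : List ℕ → List ℕ) : Prop := ∀ w, Valid M.D w → w ≠ [] →
  NA M.D w (f w) ∧ (f w).length = w.length ∧ (tau M.D w = 1 → tau M.D (f w) ≠ 1) ∧ f w ≠ w ∧
    f (f w) ≠ w

theorem side_succ : M.Side (succ M.D) := fun w hw h0 => by
  have := List.length_pos_iff.2 h0
  exact ⟨na_succ (six M.hD) h0, length_succ w, tau_succ M.hD,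
    fun e => by have := period M.hD w hw h0 1 one_pos e; omega,
    fun e => by have := period M.hD w hw h0 2 two_pos e; omega⟩

theorem side_pred : M.Side (pred M.D) := fun w hw h0 => by
  have h6 := six M.hD
  have h1 := valid_pred h6 hw
  refine ⟨na_pred h6 h0, length_pred w, fun h h' => tau_succ M.hD h' (by rwa [succ_pred h6 hw]),
    fun e => (M.side_succ w hw h0).2.2.2.1 ?_, fun e => (M.side_succ w hw h0).2.2.2.2 ?_⟩
  · rw [← e]; exact (succ_pred h6 hw).trans e.symm
  · conv_lhs => rw [← e, succ_pred h6 h1, succ_pred h6 hw]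

theorem saw_all (n : ℕ) : ∀ w, Valid M.D w → w ≠ [] →
    (if tau M.D w = 1 then 425 else 500) * (5 : ℝ≥0∞) ^ n ≤
      500 * wc G (M.X w) n {v | w.length ≤ M.lev v} ∧ ∀ f, M.Side f →
    (if tau M.D w = 1 then 270 else 370) * (5 : ℝ≥0∞) ^ n ≤
      500 * wc G (M.X w) n {v | w.length + 1 ≤ M.lev v ∨ v = M.X w} ∧
    (if tau M.D w = 1 then 344 else 424) * (5 : ℝ≥0∞) ^ n ≤
      500 * wc G (M.X w) n {v | w.length + 1 ≤ M.lev v ∨ v = M.X w ∨ v = M.X (f w)} := by
  have h6 := six M.hD
  induction n with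
  | zero =>
    intro w hw _
    have : ∀ (a b : ℝ≥0∞) (A : Set V), a ≤ 500 → b ≤ 500 → M.X w ∈ A →
        (if tau M.D w = 1 then a else b) * 5 ^ 0 ≤ 500 * wc G (M.X w) 0 A := fun a b A ha hb h =>
      mul_le_mul' (by split_ifs; exacts [ha, hb]) ((pow_zero _).trans_le (wc_zero h))
    exact ⟨this _ _ _ (by norm_num) le_rfl (M.lev_X hw).ge, fun f _ =>
      ⟨this _ _ _ (by norm_num) (by norm_num) (Or.inr rfl),
        this _ _ _ (by norm_num) (by norm_num) (Or.inr (Or.inl rfl))⟩⟩
  | succ n ih =>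
    intro w hw h0
    have st := fun A hA hA' L => M.saw_step (fun w hw h0 => (ih w hw h0).1) hw h0 (A := A) hA hA'
      (L := L)
    have hs : ∀ f, M.Side f → Valid M.D (f w) ∧ f w ≠ [] := fun f hf =>
      ⟨(hf w hw h0).1.valid h6 hw, by
        rw [← List.length_pos_iff, (hf w hw h0).2.1]; exact List.length_pos_iff.2 h0⟩
    have hne : ∀ v, w.length + 1 ≤ M.lev v → v ≠ M.X w := fun v hv e => by
      rw [e, M.lev_X hw] at hv; omega
    refine ⟨?_, fun f hf => ⟨?_, ?_⟩⟩
    · have two : ∀ f, M.Side f → (if tau M.D w = 1 then 424 else 344) * (5 : ℝ≥0∞) ^ n ≤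
          500 * wc G (M.X (f w)) n ({v | w.length ≤ M.lev v} \ {M.X w}) := fun f hf => by
        obtain ⟨a1, a2, a3, a4, a5⟩ := hf w hw h0
        obtain ⟨b1, b2⟩ := hs f hf
        obtain ⟨c1, c2, -⟩ := hf _ b1 b2
        refine le_trans (mul_le_mul_left ?_ _) (((ih _ b1 b2).2 f hf).2.trans
          (mul_le_mul_right (wc_mono ?_) _))
        · split_ifs with h1 h2
          · exact absurd h2 (a3 h1)
          all_goals norm_num
        · rintro v (hv | rfl | rfl)
          · exact ⟨by simp; omega, hne v (a2 ▸ hv)⟩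
          · exact ⟨by simp [M.lev_X b1, a2], fun e => a4 (M.inj b1 hw e)⟩
          · exact ⟨by simp [M.lev_X (c1.valid h6 b1), c2, a2],
              fun e => a5 (M.inj (c1.valid h6 b1) hw e)⟩
      refine le_trans ?_ (st _ (M.lev_X hw).ge (fun v hv => Nat.le_of_succ_le hv)
        [succ M.D w, pred M.D w] ?_ ?_)
      · simp only [List.map_cons, List.map_nil, List.sum_cons, List.sum_nil, add_zero, mul_add]
        refine le_trans ?_ (add_le_add_right (add_le_add (two _ M.side_succ) (two _ M.side_pred)) _)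
        rw [← add_mul, ← add_mul, pow_succ', ← mul_assoc]
        refine mul_le_mul_left ?_ _
        split_ifs <;> norm_num
      · simpa using fun e => (M.side_succ w hw h0).2.2.2.2 (by rw [e, succ_pred h6 hw])
      · simp [(M.side_succ w hw h0).1, (M.side_pred w hw h0).1, length_succ, length_pred]
    · refine le_trans ?_ (st _ (Or.inr rfl) (fun v hv => Or.inl hv) [] List.nodup_nil (by simp))
      rw [pow_succ', ← mul_assoc]
      refine le_add_right (mul_le_mul_left ?_ _)
      split_ifs <;> norm_num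
    · obtain ⟨a1, a2, a3, a4, -⟩ := hf w hw h0
      obtain ⟨b1, b2⟩ := hs f hf
      refine le_trans ?_ (st _ (Or.inr (Or.inl rfl)) (fun v hv => Or.inl hv) [f w]
        (List.nodup_singleton _) (by simp [a1, a2]))
      simp only [List.map_cons, List.map_nil, List.sum_cons, List.sum_nil, add_zero]
      refine le_trans ?_ (add_le_add_right (((ih _ b1 b2).2 f hf).1.trans
        (mul_le_mul_right (wc_mono ?_) _)) _)
      · rw [← add_mul, pow_succ', ← mul_assoc]
        refine mul_le_mul_left ?_ _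
        split_ifs with h1 h2
        · exact absurd h2 (a3 h1)
        all_goals norm_num
      · rintro v (hv | rfl)
        · exact ⟨Or.inl (a2 ▸ hv), hne v (a2 ▸ hv)⟩
        · exact ⟨Or.inr (Or.inr rfl), fun e => a4 (M.inj b1 hw e)⟩

end Chart
end
end Cert

namespace PlaneTri
open Cert Node
variable {V : Type} (T : PlaneTri V) (h7 : ∀ v, 7 ≤ T.deg v)
include h7

theorem saw_five (v : V) (n : ℕ) : (5 : ℝ≥0∞) ^ n ≤ 8 * (sawCount T.G v n : ℝ≥0∞) := by
  refine le_trans ?_ (mul_le_mul_right (wc_le v n Set.univ) _)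
  cases n with
  | zero => exact (pow_zero _).trans_le (one_le_mul (by norm_num) (wc_zero trivial))
  | succ n =>
    obtain ⟨r, h⟩ := exists_adj (fun v => (Nat.succ_pos 6).trans_le (h7 v)) v
    set M := chart T h7 h
    have hv : Valid M.D [0] := valid_single ((Nat.succ_pos 6).trans_le (h7 _))
    have h1 := (M.saw_all n [0] hv (by simp)).1
    have h2 := wc_succ (G := T.G) (n := n) (Set.mem_univ v) (List.nodup_singleton (M.X [0]))
      (List.forall_mem_singleton.2 (M.adj (w := []) trivial (na_child hv)))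
    have h3 : wc T.G (M.X [0]) n {v | [0].length ≤ M.lev v} ≤
        wc T.G (M.X [0]) n (Set.univ \ {v}) := wc_mono fun u hu => ⟨trivial, fun e => by
      have h4 : 1 ≤ T.d v u := hu
      rw [show u = v from e, d_self] at h4
      omega⟩
    rw [if_neg (by simp [tau])] at h1
    simp only [List.map_cons, List.map_nil, List.sum_cons, List.sum_nil, add_zero] at h2
    rw [pow_succ']
    exact mul_le_mul' (by norm_num) (((ENNReal.mul_le_mul_iff_right (by norm_num)
      (by norm_num)).1 h1).trans (h3.trans h2))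

theorem five_le_mu (v : V) : 5 ≤ connConst T.G v := Mu.le_limsup (T.saw_five h7 v)

end PlaneTri
end Pool.Agent.P.MP_e4ac67_pr
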