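import Pool.Agent.P.MP_e4ac67_pr.CertDef

/-! What the second finite check says about an arbitrary admissible pattern. -/

namespace Pool.Agent.P.MP_e4ac67_pr
namespace Cert

def cd (β : ℕ → Bool) (i n : ℕ) : ℕ := cdL (win β i n)

theorem cd_succ (β : ℕ → Bool) (i n : ℕ) :
    cd β i (n + 1) = 2 * cd β (i + 1) n + if β i then 1 else 0 := rfl

theorem cd_mod (β : ℕ → Bool) {n m : ℕ} (h : m ≤ n) (i : ℕ) : cd β i n % 2 ^ m = cd β i m := by
  induction m generalizing n i with
  | zero => simp [cd, win, cdL, Nat.mod_one]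
  | succ m ih =>
    obtain ⟨n, rfl⟩ : ∃ c, n = c + 1 := ⟨n - 1, by omega⟩
    rw [cd_succ, cd_succ, ← ih (by omega : m ≤ n), pow_succ, mul_comm (2 ^ m), Nat.mod_mul,
      show (2 * cd β (i + 1) n + if β i then 1 else 0) / 2 = cd β (i + 1) n by split_ifs <;> omega]
    split_ifs <;> omega

theorem cd_testBit (β : ℕ → Bool) {n j : ℕ} (h : j < n) (i : ℕ) :
    (cd β i n).testBit j = β (i + j) := by
  induction j generalizing n i with
  | zero =>
    obtain ⟨n, rfl⟩ : ∃ c, n = c + 1 := ⟨n - 1, by omega⟩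
    rw [cd_succ, Nat.testBit_zero, add_zero]
    cases β i <;> simp
  | succ j ih =>
    obtain ⟨n, rfl⟩ : ∃ c, n = c + 1 := ⟨n - 1, by omega⟩
    rw [cd_succ, Nat.testBit_succ, show i + (j + 1) = i + 1 + j by omega, ← ih (by omega : j < n)]
    congr 1
    split_ifs <;> omega

theorem okN_cd {β : ℕ → Bool} (h1 : ∀ i, β i = true → β (i + 1) = false)
    (h2 : ∀ i, β i = true → β (i + 2) = true → β (i + 4) = false) {j n : ℕ} (hn : 4 ≤ n)
    (hj : β j = true) : okN (cd β (j + 1) n) = true := by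
  have e1 := cd_mod β (by omega : 1 ≤ n) (j + 1)
  have e2 := cd_mod β hn (j + 1)
  have e3 := h1 j hj
  have e4 := h2 j hj
  simp only [cd, win, cdL, add_assoc, Nat.reduceAdd, Nat.reducePow, e3] at e1 e2
  simp only [okN, cd, e1, e2]
  revert e4
  cases β (j + 2) <;> cases β (j + 3) <;> cases β (j + 4) <;> simp

theorem cnt_mono (β : ℕ → Bool) : Monotone (cnt β) :=
  monotone_nat_of_le_succ fun _ => Nat.le_add_right _ _

theorem no101_win {β : ℕ → Bool} (h : ∀ i, β i = true → β (i + 2) = false) (i n : ℕ) :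
    no101 (win β i n) = true := by
  induction n generalizing i with
  | zero => rfl
  | succ n ih =>
    rw [win, no101, ih, Bool.and_true]
    cases hb : β i
    · rfl
    · rcases lt_or_ge 1 n with h1 | h1
      · rw [getD_win _ h1, h i hb]; rfl
      · rw [List.getD_eq_default _ _ (by rwa [length_win])]; rfl

namespace Data
variable (P : Data)

/-- contribution of the window starting at `i` to the target object -/
def F (β : ℕ → Bool) (k i : ℕ) : ℕ :=
  if cnt β i + k ≤ cnt β (2 * P.r + 2) then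
    P.ent (cd β i (2 * P.r + 1 + 1)) (2 * (cnt β (2 * P.r + 2) - cnt β i) - k) else 0

variable {P} {β : ℕ → Bool} (hr : 2 ≤ P.r) (h1 : ∀ i, β i = true → β (i + 1) = false)
  (h2 : ∀ i, β i = true → β (i + 2) = true → β (i + 4) = false)
include hr h1 h2

theorem lf_sound {k nd : ℕ} : ∀ (j m acc : ℕ), m + cnt β j = cnt β (2 * P.r + 2) → k ≤ m →
    P.lf k nd j (cd β j (2 * P.r + 1)) m acc = true → nd ≤ acc + ∑ i ∈ Finset.range j, P.F β k i
  | 0, _, _, _, _, h => by simpa [lf] using h
  | j + 1, m, acc, hm, hk, h => by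
    have e := cd_succ β j (2 * P.r + 1)
    have e' := cd_mod β (Nat.le_succ (2 * P.r + 1)) j
    rw [cnt] at hm
    simp only [lf, frc_eq, Bool.and_eq_true, Bool.or_eq_true, Bool.not_eq_true'] at h
    rw [Finset.sum_range_succ, F, if_pos (by omega)]
    cases hb : β j with
    | false =>
      simp only [hb, Bool.false_eq_true, if_false, add_zero] at e hm
      have h3 := h.1
      rw [← e, e'] at h3
      have := lf_sound j m _ hm hk h3
      rw [show cnt β (2 * P.r + 2) - cnt β j = m by omega]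
      omega
    | true =>
      simp only [hb, if_true] at e hm
      have h3 := h.2.resolve_left (by rw [okN_cd h1 h2 (by omega) hb]; simp)
      rw [← e, e'] at h3
      have := lf_sound j (m + 1) _ (by omega) (by omega) h3
      rw [show cnt β (2 * P.r + 2) - cnt β j = m + 1 by omega]
      omega

theorem mid_sound {k acc : ℕ} (hk : k ≤ 1) (hA : β (2 * P.r + 1) = true)
    (h : P.mid k (cd β (2 * P.r + 2) (2 * P.r + 1)) acc = true) :
    P.cw (k + 1) (β (2 * P.r + 3)) (β (2 * P.r - 1)) * 10 ^ 9 ≤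
      acc + ∑ i ∈ Finset.range (2 * P.r + 2), P.F β k i := by
  obtain ⟨j, hj⟩ : ∃ j, 2 * P.r = j + 1 := ⟨2 * P.r - 1, by omega⟩
  have hB : β (2 * P.r) = false := by
    cases hb : β (2 * P.r)
    · rfl
    · rw [h1 _ hb] at hA; exact absurd hA (by simp)
  have e1 := cd_succ β (2 * P.r + 1) (2 * P.r + 1)
  have e1' := cd_mod β (Nat.le_succ (2 * P.r + 1)) (2 * P.r + 1)
  have e2 := cd_succ β (2 * P.r) (2 * P.r + 1)
  have e2' := cd_mod β (Nat.le_succ (2 * P.r + 1)) (2 * P.r)
  have e3 := cd_succ β j (2 * P.r + 1)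
  have e3' := cd_mod β (Nat.le_succ (2 * P.r + 1)) j
  have c1 : cnt β (2 * P.r + 2) = cnt β (2 * P.r + 1) + 1 := by rw [cnt, hA]; rfl
  have c2 : cnt β (2 * P.r + 1) = cnt β (2 * P.r) := by rw [cnt, hB]; rfl
  have c3 : cnt β (2 * P.r) = cnt β j + if β j then 1 else 0 := by rw [hj]; rfl
  simp only [hA, if_true, hB, Bool.false_eq_true, if_false, add_zero] at e1 e2
  rw [← hj] at e3
  simp only [mid, frc_eq, Bool.and_eq_true, Bool.or_eq_true, Bool.not_eq_true'] at h
  have h3 := h.resolve_left (by rw [okN_cd h1 h2 (by omega) hA]; simp)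
  rw [← e1, pow_succ 2 (2 * P.r + 1), mul_comm (2 ^ _) 2, Nat.mul_mod_mul_left, e1', ← e2, e2',
    cd_testBit β (by omega : 1 < 2 * P.r + 1), show 2 * P.r - 1 = j by omega] at h3
  rw [Finset.sum_range_succ, Finset.sum_range_succ, show 2 * P.r - 1 = j by omega]
  have e4 : ∑ i ∈ Finset.range (2 * P.r), P.F β k i =
      ∑ i ∈ Finset.range j, P.F β k i + P.F β k j := by rw [hj, Finset.sum_range_succ]
  rw [e4]
  have f1 : P.F β k (2 * P.r + 1) = P.ent (cd β (2 * P.r + 1) (2 * P.r + 1 + 1)) (2 - k) := by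
    rw [F, if_pos (by omega), show cnt β (2 * P.r + 2) - cnt β (2 * P.r + 1) = 1 by omega]
  have f2 : P.F β k (2 * P.r) = P.ent (cd β (2 * P.r) (2 * P.r + 1 + 1)) (2 - k) := by
    rw [F, if_pos (by omega), show cnt β (2 * P.r + 2) - cnt β (2 * P.r) = 1 by omega]
  cases hb : β j with
  | false =>
    simp only [hb, Bool.false_eq_true, if_false, add_zero] at e3 c3
    have h4 := h3.1
    rw [← e3, e3'] at h4
    have := lf_sound hr h1 h2 j 1 _ (by omega) hk h4
    rw [show 2 * P.r + 2 + 1 = 2 * P.r + 3 from rfl] at this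
    have f3 : P.F β k j = P.ent (cd β j (2 * P.r + 1 + 1)) (2 - k) := by
      rw [F, if_pos (by omega), show cnt β (2 * P.r + 2) - cnt β j = 1 by omega]
    rw [f1, f2, f3]
    omega
  | true =>
    simp only [hb, if_true] at e3 c3
    have h4 := h3.2.resolve_left (by rw [hj, okN_cd h1 h2 (by omega) hb]; simp)
    rw [← e3, e3'] at h4
    have := lf_sound hr h1 h2 j 2 _ (by omega) (by omega) h4
    rw [show 2 * P.r + 2 + 1 = 2 * P.r + 3 from rfl] at this
    have f3 : P.F β k j = P.ent (cd β j (2 * P.r + 1 + 1)) (4 - k) := by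
      rw [F, if_pos (by omega), show cnt β (2 * P.r + 2) - cnt β j = 2 by omega]
    rw [f1, f2, f3]
    omega

theorem rt_sound (hA : β (2 * P.r + 1) = true) : ∀ (t acc : ℕ),
    P.rt 0 t (cd β (2 * P.r + 2 + t) (2 * P.r + 1)) acc = true →
    P.cw 1 (β (2 * P.r + 3)) (β (2 * P.r - 1)) * 10 ^ 9 ≤
      (if cnt β (2 * P.r + 2 + t) ≤ cnt β (2 * P.r + 2) then acc else 0) +
        ∑ i ∈ Finset.range (2 * P.r + 2 + t), P.F β 0 i
  | 0, acc, h => by simpa using mid_sound hr h1 h2 (Nat.zero_le 1) hA h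
  | t + 1, acc, h => by
    have e := cd_succ β (2 * P.r + 2 + t) (2 * P.r + 1)
    have e' := cd_mod β (Nat.le_succ (2 * P.r + 1)) (2 * P.r + 2 + t)
    have hc := cnt_mono β (Nat.le_add_right (2 * P.r + 2) t)
    simp only [rt, frc_eq, Bool.and_eq_true, Bool.or_eq_true, Bool.not_eq_true'] at h
    rw [← add_assoc] at h ⊢
    rw [Finset.sum_range_succ, F, cnt]
    cases hb : β (2 * P.r + 2 + t) with
    | false =>
      simp only [hb, Bool.false_eq_true, if_false, add_zero] at e ⊢
      have h3 := h.1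
      rw [← e, e'] at h3
      have := rt_sound hA t _ h3
      split_ifs at this ⊢ with hc'
      · rw [show cnt β (2 * P.r + 2) - cnt β (2 * P.r + 2 + t) = 0 by omega]
        simp only [mul_zero, Nat.sub_zero] at this ⊢
        omega
      · omega
    | true =>
      simp only [hb, if_true, add_zero] at e ⊢
      have h3 := h.2.resolve_left (by rw [okN_cd h1 h2 (by omega) hb]; simp)
      rw [← e, e'] at h3
      have := rt_sound hA t _ h3
      rw [if_neg (by omega)]
      split_ifs at this ⊢ with hc'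
      · rw [show cnt β (2 * P.r + 2) - cnt β (2 * P.r + 2 + t) = 0 by omega]
        simp only [mul_zero, Nat.sub_zero] at this ⊢
        omega
      · omega

omit hr in
theorem win_mem (i n : ℕ) : win β i n ∈ pats n := by
  have := mem_pats (good_win h1 h2 i n)
  rwa [length_win] at this

omit hr in
theorem need_le (h : P.OK) {k : ℕ} (hk : k < 2) (hA : β (2 * P.r + 1) = true) :
    P.cw (k + 1) (β (2 * P.r + 3)) (β (2 * P.r - 1)) * 10 ^ 9 ≤
      ∑ i ∈ Finset.range (2 * P.r + 2 + P.s0), P.F β k i := by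
  obtain rfl | rfl : k = 0 ∨ k = 1 := by omega
  · have := rt_sound h.r2 h1 h2 hA P.s0 0 (List.all_eq_true.1 h.k0 _ (win_mem h1 h2 ..))
    simpa using this
  · have := mid_sound h.r2 h1 h2 le_rfl hA (List.all_eq_true.1 h.k1 _ (win_mem h1 h2 ..))
    rw [zero_add] at this
    exact this.trans (Finset.sum_le_sum_of_subset (Finset.range_mono (Nat.le_add_right _ _)))

omit hr in
theorem chk1_win (h : P.OK) (h3 : P.e = true → ∀ i, β i = true → β (i + 2) = false) {l : ℕ}
    (hl : l = 1 ∨ l = 2) (i : ℕ) : P.chk1 l (win β i (2 * P.r + l)) = true := by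
  suffices h : P.chk1' l (win β i (2 * P.r + l)) = true by
    rw [chk1', Bool.or_eq_true, Bool.and_eq_true] at h
    exact h.resolve_left fun h => by simpa [no101_win (h3 h.1)] using h.2
  rcases hl with rfl | rfl
  · exact List.all_eq_true.1 h.t1 _ (win_mem h1 h2 ..)
  · exact List.all_eq_true.1 h.t2 _ (win_mem h1 h2 ..)

omit hr in
theorem ent_eq (h : P.OK) (h3 : P.e = true → ∀ i, β i = true → β (i + 2) = false) (i s : ℕ) :
    P.ent (cd β i (2 * P.r + 1 + 1)) s =
    P.cw 1 (β (i + P.r)) false * (P.mass (win β i (2 * P.r + 1)) 1).getD s 0 +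
      P.cw 2 (β (i + P.r)) (β (i + (P.r + 1))) * (P.mass (win β i (2 * P.r + 2)) 2).getD s 0 := by
  have e1 := chk1_win h1 h2 h h3 (Or.inl rfl) i
  have e2 := chk1_win h1 h2 h h3 (Or.inr rfl) i
  simp only [chk1, Bool.and_eq_true] at e1 e2
  rw [ent, cd_mod β (Nat.le_succ _), cd_testBit β (by omega), cd_testBit β (by omega), cd, cd,
    Nat.eq_of_beq_eq_true e1.2, Nat.eq_of_beq_eq_true e2.2, dig_massN _ h.ab, dig_massN _ h.ab]

end Data
end Cert
end Pool.Agent.P.MP_e4ac67_pr
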