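import Pool.Agent.P.MP_e4ac67_pr.EXLib

/-! Decision trees exploring a small window, and their soundness. -/

open scoped ENNReal

namespace Pool.Agent.P.MP_e4ac67_pr
namespace Cert

def addL : List ℕ → List ℕ → List ℕ
  | [], l => l
  | x :: l, [] => x :: l
  | x :: l, y :: m => (x + y) :: addL l m

/-- a gate: trigger mask, added mask, two symbolic endpoints -/
abbrev Gate := ℕ × ℕ × ℕ × ℕ

def pick (vis : ℕ) : List Gate → Option (Gate × List Gate)
  | [] => none
  | g :: t => if (vis &&& g.1 != 0 && (vis ||| g.2.1) != vis) = true then some (g, t)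
      else (pick vis t).map fun x => (x.1, g :: x.2)

def leaf (vis w : ℕ) : List (ℕ × ℕ) → List ℕ
  | [] => []
  | s :: t => if (vis &&& s.1 == s.1) = true then List.replicate s.2 0 ++ [w] else leaf vis w t

def explore (a b eps : ℕ) (st : Bool) (sl : List (ℕ × ℕ)) :
    ℕ → ℕ → List Gate → ℕ → List ℕ
  | 0, vis, _, w => leaf vis w sl
  | f + 1, vis, todo, w =>
    if (w.blt eps || (st && (vis >>> 16 &&& vis >>> 17) != 0)) = true then leaf vis w sl
    else match pick vis todo with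
      | none => leaf vis w sl
      | some x => addL (explore a b eps st sl f (vis ||| x.1.2.1) x.2 (w * a / b))
          (explore a b eps st sl f vis x.2 (w * (b - a) / b))

/-- value of a mass vector -/
noncomputable def val : List ℕ → (ℕ → ℝ≥0∞) → ℝ≥0∞
  | [], _ => 0
  | x :: l, χ => x * χ 0 + val l fun i => χ (i + 1)

theorem val_addL (l m : List ℕ) (χ : ℕ → ℝ≥0∞) : val (addL l m) χ = val l χ + val m χ := by
  induction l generalizing m χ with
  | nil => simp [addL, val]
  | cons x l ih =>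
    cases m with
    | nil => simp [addL, val]
    | cons y m => simp only [addL, val, ih]; push_cast; ring

theorem val_single (s w : ℕ) (χ : ℕ → ℝ≥0∞) : val (List.replicate s 0 ++ [w]) χ = w * χ s := by
  induction s generalizing χ with
  | zero => simp [val]
  | succ s ih => simp [List.replicate_succ, val, ih]

theorem val_eq_sum (l : List ℕ) (χ : ℕ → ℝ≥0∞) {n : ℕ} (hn : l.length ≤ n) :
    val l χ = ∑ i ∈ Finset.range n, (l.getD i 0 : ℝ≥0∞) * χ i := by
  induction l generalizing χ n with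
  | nil => simp [val]
  | cons x l ih =>
    obtain ⟨n, rfl⟩ : ∃ m, n = m + 1 := ⟨n - 1, by simp at hn; omega⟩
    rw [Finset.sum_range_succ', val, ih _ (by simpa using hn), add_comm]
    simp

theorem le_val (l : List ℕ) (χ : ℕ → ℝ≥0∞) (n : ℕ) :
    ∑ i ∈ Finset.range n, (l.getD i 0 : ℝ≥0∞) * χ i ≤ val l χ := by
  rw [val_eq_sum l χ (le_max_left l.length n)]
  exact Finset.sum_le_sum_of_subset (Finset.range_mono (le_max_right _ _))

theorem pick_some {vis : ℕ} {todo : List Gate} {x : Gate × List Gate}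
    (h : pick vis todo = some x) : todo.Perm (x.1 :: x.2) ∧ vis &&& x.1.1 ≠ 0 := by
  induction todo generalizing x with
  | nil => simp [pick] at h
  | cons g t ih =>
    unfold pick at h
    split_ifs at h with hc
    · obtain rfl := Option.some.inj h
      simp only [Bool.and_eq_true, bne_iff_ne] at hc
      exact ⟨List.Perm.refl _, hc.1⟩
    · obtain ⟨y, hy, rfl⟩ := Option.map_eq_some_iff.1 h
      obtain ⟨h1, h2⟩ := ih hy
      exact ⟨(h1.cons g).trans (List.Perm.swap _ _ _), h2⟩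

theorem leaf_le {vis w : ℕ} {sl : List (ℕ × ℕ)} {χ : ℕ → ℝ≥0∞} {c : ℝ≥0∞}
    (h : ∀ s ∈ sl, vis &&& s.1 = s.1 → χ s.2 ≤ c) : val (leaf vis w sl) χ ≤ w * c := by
  induction sl with
  | nil => simp [leaf, val]
  | cons s t ih =>
    unfold leaf
    split_ifs with hc
    · rw [val_single]
      exact mul_le_mul_right (h s (List.mem_cons_self ..) (by simpa using hc)) _
    · exact ih fun s' hs' => h s' (List.mem_cons_of_mem _ hs')

theorem div_le {w a b : ℕ} (hb : 0 < b) : ((w * a / b : ℕ) : ℝ≥0∞) ≤ w * ((a : ℝ≥0∞) / b) := by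
  have h1 : ((w * a / b : ℕ) : ℝ≥0∞) * b ≤ w * a := by exact_mod_cast Nat.div_mul_le_self _ _
  have hb0 : (b : ℝ≥0∞) ≠ 0 := by exact_mod_cast hb.ne'
  rw [← mul_div_assoc, ENNReal.le_div_iff_mul_le (Or.inl hb0) (Or.inl (by simp))]
  exact h1

theorem one_sub_div {a b : ℕ} (hab : a ≤ b) (hb : 0 < b) :
    1 - (a : ℝ≥0∞) / b = ((b - a : ℕ) : ℝ≥0∞) / b := by
  have hb0 : (b : ℝ≥0∞) ≠ 0 := by exact_mod_cast hb.ne'
  have h1 : (a : ℝ≥0∞) / b + ((b - a : ℕ) : ℝ≥0∞) / b = 1 := by
    rw [← ENNReal.add_div, ← Nat.cast_add, Nat.add_sub_cancel' hab,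
      ENNReal.div_self hb0 (by simp)]
  rw [← h1, ENNReal.add_sub_cancel_left (ENNReal.div_ne_top (by simp) hb0)]

theorem div_le_one' {a b : ℕ} (hab : a ≤ b) : (a : ℝ≥0∞) / b ≤ 1 :=
  ENNReal.div_le_of_le_mul (by rw [one_mul]; exact_mod_cast hab)

theorem explore_sound {K : Type} [DecidableEq K] {a b eps : ℕ} (hab : a ≤ b) (hb : 0 < b)
    {st : Bool} {sl : List (ℕ × ℕ)} (κ : Gate → K) (f : ℕ) :
    ∀ (vis : ℕ) (todo : List Gate) (w : ℕ) (Ω : Finset K) (R : Finset K → ℕ → Prop)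
      (Good : Finset K → Prop) (χ : Finset K → ℕ → ℝ≥0∞),
      (todo.map κ).Nodup → (∀ g ∈ todo, κ g ∈ Ω) →
      (∀ g ∈ todo, ∀ ω, κ g ∈ ω → ∀ x y, g.1.testBit x = true → g.2.1.testBit y = true →
        R ω y → R ω x) →
      (∀ ω x, vis.testBit x = true → R ω x → Good ω) →
      (∀ ω, ∀ s ∈ sl, χ ω s.2 ≤ ind (∃ x, s.1.testBit x = true ∧ R ω x)) →
      (∀ g ∈ todo, ∀ ω, χ (insert (κ g) ω) = χ ω) →
      (EX Ω ((a : ℝ≥0∞) / b) fun ω => val (explore a b eps st sl f vis todo w) (χ ω)) ≤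
        w * EX Ω ((a : ℝ≥0∞) / b) fun ω => ind (Good ω) := by
  have hp := div_le_one' hab
  have hleaf : ∀ (vis w : ℕ) (Ω : Finset K) (R : Finset K → ℕ → Prop)
      (Good : Finset K → Prop) (χ : Finset K → ℕ → ℝ≥0∞),
      (∀ ω x, vis.testBit x = true → R ω x → Good ω) →
      (∀ ω, ∀ s ∈ sl, χ ω s.2 ≤ ind (∃ x, s.1.testBit x = true ∧ R ω x)) →
      (EX Ω ((a : ℝ≥0∞) / b) fun ω => val (leaf vis w sl) (χ ω)) ≤
        w * EX Ω ((a : ℝ≥0∞) / b) fun ω => ind (Good ω) := by
    intro vis w Ω R Good χ hvis hχ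
    rw [← EX_mul_left]
    refine EX_mono fun ω _ => leaf_le fun s hs he => (hχ ω s hs).trans (ind_mono ?_)
    rintro ⟨x, hx, hR⟩
    refine hvis ω x ?_ hR
    rw [← he, Nat.testBit_and, Bool.and_eq_true] at hx
    exact hx.1
  induction f with
  | zero => exact fun vis _ w Ω R Good χ _ _ _ hvis hχ _ => hleaf vis w Ω R Good χ hvis hχ
  | succ f ih =>
    intro vis todo w Ω R Good χ hnd hΩ harc hvis hχ hind
    unfold explore
    split_ifs
    · exact hleaf vis w Ω R Good χ hvis hχ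
    split
    · exact hleaf vis w Ω R Good χ hvis hχ
    rename_i x hx
    obtain ⟨hperm, hne⟩ := pick_some hx
    have hg : x.1 ∈ todo := hperm.symm.subset (List.mem_cons_self ..)
    have hsub : ∀ g ∈ x.2, g ∈ todo := fun g h => hperm.symm.subset (List.mem_cons_of_mem _ h)
    have hnd' := (hperm.map κ).nodup_iff.1 hnd
    rw [List.map_cons, List.nodup_cons] at hnd'
    have hΩ' : ∀ g ∈ x.2, κ g ∈ Ω.erase (κ x.1) := fun g h =>
      Finset.mem_erase.2 ⟨fun e => hnd'.1 (e ▸ List.mem_map_of_mem h), hΩ g (hsub g h)⟩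
    have h1 := ih (vis ||| x.1.2.1) x.2 (w * a / b) (Ω.erase (κ x.1))
      (fun ω => R (insert (κ x.1) ω)) (fun ω => Good (insert (κ x.1) ω)) χ hnd'.2 hΩ'
      (fun g h ω hω => harc g (hsub g h) _ (Finset.mem_insert_of_mem hω))
      (fun ω y hy hR => by
        rw [Nat.testBit_or, Bool.or_eq_true] at hy
        rcases hy with hy | hy
        · exact hvis _ y hy hR
        · obtain ⟨i, hi⟩ := Nat.exists_testBit_of_ne_zero hne
          rw [Nat.testBit_and, Bool.and_eq_true] at hi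
          exact hvis _ i hi.1 (harc _ hg _ (Finset.mem_insert_self _ _) i y hi.2 hy hR))
      (fun ω s hs => by rw [← hind _ hg ω]; exact hχ _ s hs)
      (fun g h => hind g (hsub g h))
    have h2 := ih vis x.2 (w * (b - a) / b) (Ω.erase (κ x.1)) R Good χ hnd'.2 hΩ'
      (fun g h => harc g (hsub g h)) hvis hχ (fun g h => hind g (hsub g h))
    rw [EX_erase_of_insens hp (hΩ _ hg) (fun s => by rw [hind _ hg s]),
      EX_erase (hΩ _ hg) _ fun ω => ind (Good ω), EX_add, EX_mul_left, EX_mul_left, mul_add]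
    simp only [val_addL]
    rw [EX_add, ← mul_assoc, ← mul_assoc, one_sub_div hab hb]
    exact add_le_add (h1.trans (mul_le_mul_left (div_le hb) _))
      (h2.trans (mul_le_mul_left (div_le hb) _))

end Cert
end Pool.Agent.P.MP_e4ac67_pr
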