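import Pool.Agent.P.MP_e4ac67_pr.CertDef

/-! Decision trees whose leaves record a function of the visited set. -/

open scoped ENNReal

namespace Pool.Agent.P.MP_e4ac67_pr
namespace Cert

def xp (a b eps : ℕ) (ix : ℕ → ℕ) : ℕ → ℕ → List Gate → ℕ → List ℕ
  | 0, vis, _, w => List.replicate (ix vis) 0 ++ [w]
  | f + 1, vis, todo, w =>
    if w.blt eps = true then List.replicate (ix vis) 0 ++ [w]
    else match pick vis todo with
      | none => List.replicate (ix vis) 0 ++ [w]
      | some x => addL (xp a b eps ix f (vis ||| x.1.2.1) x.2 (w * a / b))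
          (xp a b eps ix f vis x.2 (w * (b - a) / b))

def scan2 (vis : ℕ) (d : Unit → ℕ) (k : Gate → List Gate → ℕ) : List Gate → List Gate → ℕ
  | _, [] => d ()
  | acc, g :: t => bif (vis &&& g.1).beq 0 || (vis ||| g.2.1).beq vis then scan2 vis d k (g :: acc) t
      else k g (acc.reverseAux t)

theorem scan2_eq (vis : ℕ) (d : Unit → ℕ) (k : Gate → List Gate → ℕ) (acc todo : List Gate) :
    scan2 vis d k acc todo = scan vis (d ()) k acc todo := by
  induction todo generalizing acc with
  | nil => rfl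
  | cons g t ih => rw [scan2, scan, ih]

/-- `xp` with the mass vector packed into one number -/
def xN (a b eps : ℕ) (ix : ℕ → ℕ) : ℕ → ℕ → List Gate → ℕ → ℕ
  | 0, vis, _, w => w <<< (32 * ix vis)
  | f + 1, vis, todo, w =>
    bif w.blt eps then w <<< (32 * ix vis)
    else scan2 vis (fun _ => w <<< (32 * ix vis)) (fun g t => frc (vis ||| g.2.1) fun v1 =>
      frc (w * a / b) fun w1 => frc (w * (b - a) / b) fun w0 =>
        frc (xN a b eps ix f v1 t w1) fun r1 => r1 + xN a b eps ix f vis t w0) [] todo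

theorem xN_eq (a b eps : ℕ) (ix : ℕ → ℕ) (f : ℕ) : ∀ vis todo w,
    xN a b eps ix f vis todo w = pack (xp a b eps ix f vis todo w) := by
  induction f with
  | zero => exact fun vis _ w => (pack_single ..).symm
  | succ f ih =>
    intro vis todo w
    unfold xN xp
    rw [Bool.cond_eq_ite, scan2_eq, scan_eq]
    split_ifs
    · exact (pack_single ..).symm
    · cases pick vis todo with
      | none => exact (pack_single ..).symm
      | some x => simp [frc_eq, ih, pack_addL]

theorem sum_xp {a b : ℕ} (hab : a ≤ b) (eps : ℕ) (ix : ℕ → ℕ) (f : ℕ) :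
    ∀ vis todo w, (xp a b eps ix f vis todo w).sum ≤ w := by
  induction f with
  | zero => intro vis _ w; simp [xp]
  | succ f ih =>
    intro vis todo w
    unfold xp
    split_ifs
    · simp
    split
    · simp
    rw [sum_addL]
    refine (add_le_add (ih ..) (ih ..)).trans (Nat.div_add_div_le_add_div.trans ?_)
    rw [← mul_add, Nat.add_sub_cancel' hab]
    exact Nat.div_le_of_le_mul (by rw [mul_comm])

def Sub (u v : ℕ) : Prop := ∀ x, u.testBit x = true → v.testBit x = true

theorem Sub.or {u v t : ℕ} (h : Sub (u ||| t) v) : Sub u v := fun x hx =>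
  h x (by rw [Nat.testBit_or, hx]; rfl)

theorem xp_congr (a b eps : ℕ) (ix : ℕ → ℕ) {χ χ' : ℕ → ℝ≥0∞} (f : ℕ) : ∀ vis todo w,
    (∀ v, Sub vis v → χ (ix v) = χ' (ix v)) →
    val (xp a b eps ix f vis todo w) χ = val (xp a b eps ix f vis todo w) χ' := by
  induction f with
  | zero => intro vis _ w h; rw [xp, val_single, val_single, h vis fun _ h => h]
  | succ f ih =>
    intro vis todo w h
    unfold xp
    split_ifs
    · rw [val_single, val_single, h vis fun _ h => h]
    split
    · rw [val_single, val_single, h vis fun _ h => h]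
    rw [val_addL, val_addL, ih _ _ _ fun v hv => h v hv.or, ih _ _ _ h]

theorem xp_sound {K : Type} [DecidableEq K] {a b eps : ℕ} (hab : a ≤ b) (hb : 0 < b)
    {ix : ℕ → ℕ} (κ : Gate → K) (χ : Finset K → ℕ → ℝ≥0∞) (f : ℕ) :
    ∀ (vis : ℕ) (todo : List Gate) (w : ℕ) (Ω : Finset K) (R : Finset K → ℕ → Prop)
      (Good : Finset K → Prop),
      (todo.map κ).Nodup → (∀ g ∈ todo, κ g ∈ Ω) →
      (∀ g ∈ todo, ∀ ω, κ g ∈ ω → ∀ x y, g.1.testBit x = true → g.2.1.testBit y = true →
        R ω y → R ω x) →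
      (∀ ω x, vis.testBit x = true → R ω x → Good ω) →
      (∀ ω v, Sub vis v → χ ω (ix v) ≤ ind (∃ x, v.testBit x = true ∧ R ω x)) →
      (∀ g ∈ todo, ∀ v x, g.1.testBit x = true → v.testBit x = true → ∀ ω,
        χ (insert (κ g) ω) (ix v) = χ ω (ix v)) →
      (EX Ω ((a : ℝ≥0∞) / b) fun ω => val (xp a b eps ix f vis todo w) (χ ω)) ≤
        w * EX Ω ((a : ℝ≥0∞) / b) fun ω => ind (Good ω) := by
  have hp := div_le_one' hab
  have hleaf : ∀ (vis w : ℕ) (Ω : Finset K) (R : Finset K → ℕ → Prop) (Good : Finset K → Prop),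
      (∀ ω x, vis.testBit x = true → R ω x → Good ω) →
      (∀ ω v, Sub vis v → χ ω (ix v) ≤ ind (∃ x, v.testBit x = true ∧ R ω x)) →
      (EX Ω ((a : ℝ≥0∞) / b) fun ω => val (List.replicate (ix vis) 0 ++ [w]) (χ ω)) ≤
        w * EX Ω ((a : ℝ≥0∞) / b) fun ω => ind (Good ω) := by
    intro vis w Ω R Good hvis hχ
    rw [← EX_mul_left]
    refine EX_mono fun ω _ => ?_
    rw [val_single]
    exact mul_le_mul_right ((hχ ω vis fun _ h => h).trans
      (ind_mono fun ⟨x, hx, hR⟩ => hvis ω x hx hR)) _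
  induction f with
  | zero => exact fun vis _ w Ω R Good _ _ _ hvis hχ _ => hleaf vis w Ω R Good hvis hχ
  | succ f ih =>
    intro vis todo w Ω R Good hnd hΩ harc hvis hχ hind
    unfold xp
    split_ifs
    · exact hleaf vis w Ω R Good hvis hχ
    split
    · exact hleaf vis w Ω R Good hvis hχ
    rename_i x hx
    obtain ⟨hperm, hne⟩ := pick_some hx
    obtain ⟨i, hi⟩ := Nat.exists_testBit_of_ne_zero hne
    rw [Nat.testBit_and, Bool.and_eq_true] at hi
    have hg : x.1 ∈ todo := hperm.symm.subset (List.mem_cons_self ..)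
    have hsub : ∀ g ∈ x.2, g ∈ todo := fun g h => hperm.symm.subset (List.mem_cons_of_mem _ h)
    have hnd' := (hperm.map κ).nodup_iff.1 hnd
    rw [List.map_cons, List.nodup_cons] at hnd'
    have hΩ' : ∀ g ∈ x.2, κ g ∈ Ω.erase (κ x.1) := fun g h =>
      Finset.mem_erase.2 ⟨fun e => hnd'.1 (e ▸ List.mem_map_of_mem h), hΩ g (hsub g h)⟩
    have hins : ∀ ω v, Sub vis v → χ (insert (κ x.1) ω) (ix v) = χ ω (ix v) := fun ω v hv =>
      hind _ hg v i hi.2 (hv i hi.1) ω
    have h1 := ih (vis ||| x.1.2.1) x.2 (w * a / b) (Ω.erase (κ x.1))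
      (fun ω => R (insert (κ x.1) ω)) (fun ω => Good (insert (κ x.1) ω)) hnd'.2 hΩ'
      (fun g h ω hω => harc g (hsub g h) _ (Finset.mem_insert_of_mem hω))
      (fun ω y hy hR => by
        rw [Nat.testBit_or, Bool.or_eq_true] at hy
        rcases hy with hy | hy
        · exact hvis _ y hy hR
        · exact hvis _ i hi.1 (harc _ hg _ (Finset.mem_insert_self _ _) i y hi.2 hy hR))
      (fun ω v hv => by rw [← hins ω v hv.or]; exact hχ _ v hv.or)
      (fun g h => hind g (hsub g h))
    have h2 := ih vis x.2 (w * (b - a) / b) (Ω.erase (κ x.1)) R Good hnd'.2 hΩ'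
      (fun g h => harc g (hsub g h)) hvis hχ (fun g h => hind g (hsub g h))
    rw [EX_erase_of_insens hp (hΩ _ hg) (fun s => by
        rw [val_addL, val_addL, xp_congr _ _ _ _ _ _ _ _ fun v hv => hins s v hv.or,
          xp_congr _ _ _ _ _ _ _ _ (hins s)]),
      EX_erase (hΩ _ hg) _ fun ω => ind (Good ω), EX_add, EX_mul_left, EX_mul_left, mul_add]
    simp only [val_addL]
    rw [EX_add, ← mul_assoc, ← mul_assoc, one_sub_div hab hb]
    exact add_le_add (h1.trans (mul_le_mul_left (div_le hb) _))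
      (h2.trans (mul_le_mul_left (div_le hb) _))

/-- digits in base `2 ^ w` -/
def dg (w x s : ℕ) : ℕ := x >>> (w * s) % 2 ^ w

def pk (w : ℕ) (f : ℕ → ℕ) (N : ℕ) : ℕ := ∑ i ∈ Finset.range N, f i * 2 ^ (w * i)

theorem dg_lt (w x s : ℕ) : dg w x s < 2 ^ w := Nat.mod_lt _ (by positivity)

theorem pk_succ (w : ℕ) (f : ℕ → ℕ) (N : ℕ) :
    pk w f (N + 1) = f 0 + 2 ^ w * pk w (fun i => f (i + 1)) N := by
  rw [pk, Finset.sum_range_succ', pk, Finset.mul_sum, add_comm]
  simp only [mul_zero, pow_zero, mul_one, mul_add, pow_add]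
  congr 1
  exact Finset.sum_congr rfl fun i _ => by ring

theorem dg_succ (w x s : ℕ) : dg w x (s + 1) = dg w (x / 2 ^ w) s := by
  rw [dg, dg, mul_add, mul_one, add_comm, Nat.shiftRight_add, Nat.shiftRight_eq_div_pow x]

theorem dg_pk {w N : ℕ} {f : ℕ → ℕ} (h : ∀ i < N, f i < 2 ^ w) (y : ℕ) {s : ℕ} (hs : s < N) :
    dg w (pk w f N + y * 2 ^ (w * N)) s = f s := by
  induction N generalizing f s with
  | zero => omega
  | succ N ih =>
    have e : pk w f (N + 1) + y * 2 ^ (w * (N + 1)) =
        f 0 + 2 ^ w * (pk w (fun i => f (i + 1)) N + y * 2 ^ (w * N)) := by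
      rw [pk_succ]; ring
    rw [e]
    cases s with
    | zero => simp [dg, Nat.mod_eq_of_lt (h 0 hs)]
    | succ s =>
      rw [dg_succ, Nat.add_mul_div_left _ _ (by positivity), Nat.div_eq_of_lt (h 0 (by omega)),
        zero_add, ih (fun i hi => h _ (by omega)) (by omega)]

theorem pk_dg {w N x : ℕ} (h : x >>> (w * N) = 0) : pk w (dg w x) N = x := by
  induction N generalizing x with
  | zero => simpa [pk] using h.symm
  | succ N ih =>
    rw [pk_succ]
    simp only [dg_succ]
    rw [ih (by rwa [mul_add, mul_one, add_comm, Nat.shiftRight_add, Nat.shiftRight_eq_div_pow x]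
      at h)]
    simp [dg, Nat.mod_add_div]

/-- strict sum over a list -/
def sumL {α : Type} (f : α → ℕ) : List α → ℕ
  | [] => 0
  | a :: t => frc (f a) fun x => frc (sumL f t) fun y => x + y

theorem sumL_eq {α : Type} (f : α → ℕ) (l : List α) : sumL f l = (l.map f).sum := by
  induction l with
  | nil => rfl
  | cons a t ih => simp [sumL, frc_eq, ih]

end Cert
end Pool.Agent.P.MP_e4ac67_pr
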