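import Pool.Agent.P.MP_e4ac67_pr.CertMain
import Pool.Agent.P.MP_e4ac67_pr.T7Tree

/-! Windows on three consecutive levels of the seven-regular triangulation. -/

namespace Pool.Agent.P.MP_e4ac67_pr
namespace Cert
open Node

/-- the pattern of the next level -/
def sig : List Bool → List Bool
  | [] => []
  | true :: l => false :: true :: sig l
  | false :: l => false :: false :: true :: sig l

theorem length_sig (l : List Bool) : (sig l).length + idx l l.length = 3 * l.length := by
  induction l with
  | nil => rfl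
  | cons b l ih => cases b <;> simp [sig, idx] <;> omega

theorem two_le_sig (l : List Bool) : 2 * l.length ≤ (sig l).length := by
  induction l with
  | nil => rfl
  | cons b l ih => cases b <;> simp [sig] <;> omega

def lang : ℕ → ℕ → List (List Bool)
  | 0, n => pats n
  | d + 1, n => ((lang d (n / 2 + 2)).flatMap fun u =>
      [(sig u).take n, ((sig u).drop 1).take n, ((sig u).drop 2).take n]).eraseDups

section
variable {D : List ℕ → ℕ} (h7 : ∀ w, D w = 7)
include h7

theorem sig_win (n : ℕ) : ∀ w, w ≠ [] →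
    win (bt D (3 :: w)) 0 (sig (win (bt D w) 0 n)).length = sig (win (bt D w) 0 n) ∧
    (succ D)^[(sig (win (bt D w) 0 n)).length] (3 :: w) = 3 :: (succ D)^[n] w := by
  induction n with
  | zero => exact fun w _ => ⟨rfl, rfl⟩
  | succ n ih =>
    intro w hw
    obtain ⟨h1, h2⟩ := ih (succ D w) (succ_ne_nil hw)
    have e0 : win (bt D w) (0 + 1) n = win (bt D (succ D w)) 0 n := by
      rw [show succ D w = (succ D)^[1] w from rfl, bt_shift, win_shift]
    have t3 : tau D (3 :: w) ≠ 1 := tau_three (fun w => (h7 w).ge) w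
    have s3 := succ_of_zero hw t3
    have ht := tau_le (D := D) w
    rw [win, e0, Function.iterate_succ_apply (succ D) n, ← h2]
    by_cases h : tau D w = 1
    · have t4 : tau D (4 :: w) = 1 := tau_cons_of hw (by rw [h7]; omega)
      have s4 : (succ D)^[2] (3 :: w) = 3 :: succ D w := by
        simp only [Function.iterate_succ_apply', Function.iterate_zero_apply, s3]
        exact succ_of_one t4
      rw [show bt D w 0 = true from decide_eq_true h, sig]
      refine ⟨?_, by rw [← s4, ← Function.iterate_add_apply]; rfl⟩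
      generalize sig _ = l at h1
      rw [← s4, bt_shift, win_shift] at h1
      rw [List.length_cons, List.length_cons, win, win, h1]
      simp [bt, t3, s3, t4]
    · have t4 : tau D (4 :: w) ≠ 1 := by rw [tau, if_neg (by rw [h7]; omega)]; omega
      have t5 : tau D (5 :: w) = 1 := tau_cons_of hw (by rw [h7]; omega)
      have s4 := succ_of_zero hw t4
      have s5 : (succ D)^[3] (3 :: w) = 3 :: succ D w := by
        simp only [Function.iterate_succ_apply', Function.iterate_zero_apply, s3, s4]
        exact succ_of_one t5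
      rw [show bt D w 0 = false from decide_eq_false h, sig]
      refine ⟨?_, by rw [← s5, ← Function.iterate_add_apply]; rfl⟩
      generalize sig _ = l at h1
      rw [← s5, bt_shift, win_shift] at h1
      rw [List.length_cons, List.length_cons, List.length_cons, win, win, win, h1]
      simp [bt, t3, s3, t4, s4, t5, Function.iterate_succ_apply']

theorem three_iter {w : List ℕ} (hw : w ≠ []) (n : ℕ) :
    (succ D)^[3 * n - cnt (bt D w) n] (3 :: w) = 3 :: (succ D)^[n] w := by
  have := length_sig (win (bt D w) 0 n)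
  rw [length_win, idx_win0 _ le_rfl] at this
  rw [← (sig_win h7 n w hw).2]
  congr 1; omega

theorem iter_three {e : ℕ} {w : List ℕ} (hw : w ≠ []) (hv : Valid D (e :: w)) :
    ∃ i < 3, (succ D)^[i] (3 :: w) = e :: w := by
  have h1 := hv.2.2 hw
  rw [h7] at h1
  have s3 := succ_of_zero hw (tau_three (fun w => (h7 w).ge) w)
  obtain rfl | rfl | rfl : e = 3 ∨ e = 4 ∨ e = 5 := by omega
  · exact ⟨0, by omega, rfl⟩
  · exact ⟨1, by omega, s3⟩
  · refine ⟨2, by omega, ?_⟩
    simp only [Function.iterate_succ_apply', Function.iterate_zero_apply, s3]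
    exact succ_of_zero hw (by rw [tau, if_neg (by rw [h7]; omega)]; omega)

theorem mem_lang (d : ℕ) : ∀ n w, Valid D w → d < w.length → win (bt D w) 0 n ∈ lang d n := by
  induction d with
  | zero =>
    intro n w _ _
    have := mem_pats (good_bt (fun w => (h7 w).ge) w 0 n)
    rwa [length_win] at this
  | succ d ih =>
    rintro n (_ | ⟨e, w⟩) hv hl
    · simp at hl
    have hl' : d < w.length := by simpa using hl
    have hw : w ≠ [] := by rintro rfl; simp at hl'
    obtain ⟨i, hi, he⟩ := iter_three h7 hw hv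
    have h1 := (sig_win h7 (n / 2 + 2) w hw).1
    have h2 := two_le_sig (win (bt D w) 0 (n / 2 + 2))
    rw [length_win] at h2
    rw [lang, List.mem_eraseDups, List.mem_flatMap]
    refine ⟨_, ih _ w hv.1 hl', ?_⟩
    rw [← he, bt_shift, win_shift, add_zero,
      ← take_drop_win _ (N := (sig (win (bt D w) 0 (n / 2 + 2))).length) (i := i) (by omega), h1]
    obtain rfl | rfl | rfl : i = 0 ∨ i = 1 ∨ i = 2 := by omega
    all_goals simp

end

/-- child `j` is joined to `y`; children start at `o`, parents at `q` -/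
def arcG (bits : List Bool) (o q lim lim' x y : ℕ) : Bool :=
  decide (o ≤ x) && decide (x < lim) && decide (x - o < bits.length) &&
    ((y == x + 1 && decide (y < lim)) || (decide (y < lim') &&
      (y == q + idx bits (x - o) || (bits.getD (x - o) false && y == q + 1 + idx bits (x - o)))))

def arc3 (bits sb : List Bool) (x y : ℕ) : Bool :=
  arcG bits 0 40 8 48 x y || arcG sb 8 0 40 8 x y

def adj3 (bits sb : List Bool) (x y : ℕ) : Bool := arc3 bits sb x y || arc3 bits sb y x

namespace Chart
variable {V : Type} {G : SimpleGraph V} (M : Chart G)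

/-- vertex number `x` from the base `c` -/
def pt (c : List ℕ) (x : ℕ) : V := M.X ((succ M.D)^[x] c)

/-- vertices of the three levels -/
def nv (c : List ℕ) (x : ℕ) : V :=
  if x < 8 then M.pt c x else if x < 40 then M.pt (3 :: c) (x - 8) else M.pt c.tail (x - 40)

theorem pt_lev {c : List ℕ} (hc : Valid M.D c) (x : ℕ) : M.lev (M.pt c x) = c.length := by
  rw [pt, M.lev_X (valid_iter M.hD hc x), length_iter]

theorem pt_add (c : List ℕ) (x y : ℕ) : M.pt ((succ M.D)^[x] c) y = M.pt c (x + y) := by
  rw [pt, pt, add_comm, Function.iterate_add_apply]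

theorem pt_inj {c : List ℕ} (hc : Valid M.D c) {x y : ℕ} (hx : x ≤ 6 * c.length)
    (hy : y ≤ 6 * c.length) (h0 : c ≠ []) (h : M.pt c x = M.pt c y) : x = y :=
  iter_inj M.hD hc hx hy h0 (M.inj (valid_iter M.hD hc x) (valid_iter M.hD hc y) h)

theorem nv_lev {c : List ℕ} (hc : Valid M.D c) (h0 : c ≠ []) (x : ℕ) : M.lev (M.nv c x) =
    if x < 8 then c.length else if x < 40 then c.length + 1 else c.length - 1 := by
  unfold nv
  split_ifs
  · exact M.pt_lev hc _
  · exact M.pt_lev (valid_three M.hD hc h0) _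
  · rw [M.pt_lev (valid_tail hc), List.length_tail]

theorem nv_inj {c : List ℕ} (hc : Valid M.D c) (h8 : 8 ≤ c.length) {x y : ℕ} (hx : x < 48)
    (hy : y < 48) (h : M.nv c x = M.nv c y) : x = y := by
  have h0 : c ≠ [] := by rintro rfl; simp at h8
  have h1 := congrArg M.lev h
  rw [M.nv_lev hc h0, M.nv_lev hc h0] at h1
  unfold nv at h
  split_ifs at h h1 <;> try omega
  · exact M.pt_inj hc (by omega) (by omega) h0 h
  · have := M.pt_inj (valid_three M.hD hc h0) (by simp; omega) (by simp; omega) (by simp) h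
    omega
  · have := M.pt_inj (valid_tail hc) (by simp; omega) (by simp; omega)
      (by rw [← List.length_pos_iff]; simp; omega) h
    omega

theorem arcG_adj {c : List ℕ} (hc : Valid M.D c) (h2 : 2 ≤ c.length) {L o q lim lim' x y : ℕ}
    (h : arcG (win (bt M.D c) 0 L) o q lim lim' x y = true) : o ≤ x ∧ x < lim ∧
      ((y = x + 1 ∧ y < lim ∧ G.Adj (M.pt c (x - o)) (M.pt c (y - o))) ∨
        (q ≤ y ∧ y < lim' ∧ G.Adj (M.pt c (x - o)) (M.pt c.tail (y - q)))) := by
  simp only [arcG, length_win, Bool.and_eq_true, Bool.or_eq_true, decide_eq_true_eq,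
    beq_iff_eq] at h
  obtain ⟨⟨⟨h0, h1⟩, hx⟩, h⟩ := h
  rw [idx_win0 _ hx.le, getD_win _ hx, zero_add] at h
  have hne : (succ M.D)^[x - o] c ≠ [] := by
    rw [← List.length_pos_iff, length_iter]; omega
  have hv := valid_iter M.hD hc (x - o)
  refine ⟨h0, h1, ?_⟩
  rcases h with ⟨rfl, hy⟩ | ⟨hy, rfl | ⟨ht, rfl⟩⟩
  · refine Or.inl ⟨rfl, hy, M.adj hv ?_⟩
    rw [show x + 1 - o = x - o + 1 by omega, Function.iterate_succ_apply']
    exact na_succ (six M.hD) hne
  · refine Or.inr ⟨by omega, hy, M.adj hv ?_⟩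
    rw [Nat.add_sub_cancel_left, ← tail_iter h2]
    obtain ⟨e, u, he⟩ := List.exists_cons_of_ne_nil hne
    rw [he]
    exact na_tail (six M.hD) e u
  · refine Or.inr ⟨by omega, hy, M.adj hv ?_⟩
    rw [show q + 1 + cnt (bt M.D c) (x - o) - q = cnt (bt M.D c) (x - o) + 1 by omega,
      Function.iterate_succ_apply', ← tail_iter h2]
    exact na_up (six M.hD) (by simpa [bt] using ht)

theorem adj3_adj (h7 : ∀ w, M.D w = 7) {c : List ℕ} (hc : Valid M.D c) (h2 : 2 ≤ c.length)
    {L x y : ℕ} (h : adj3 (win (bt M.D c) 0 L) (sig (win (bt M.D c) 0 L)) x y = true) :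
    x < 48 ∧ y < 48 ∧ G.Adj (M.nv c x) (M.nv c y) := by
  have h0 : c ≠ [] := by rintro rfl; simp at h2
  have key : ∀ x y, arc3 (win (bt M.D c) 0 L) (sig (win (bt M.D c) 0 L)) x y = true →
      x < 48 ∧ y < 48 ∧ G.Adj (M.nv c x) (M.nv c y) := fun x y h => by
    rw [arc3, Bool.or_eq_true] at h
    rcases h with h | h
    · obtain ⟨-, h1, ⟨h3, h4, h5⟩ | ⟨h3, h4, h5⟩⟩ := M.arcG_adj hc h2 h
      · exact ⟨by omega, by omega, by rwa [nv, nv, if_pos h1, if_pos h4]⟩
      · exact ⟨by omega, by omega, by rwa [nv, nv, if_pos h1, if_neg (by omega), if_neg (by omega)]⟩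
    · rw [← (sig_win h7 L c h0).1] at h
      obtain ⟨h6, h1, ⟨h3, h4, h5⟩ | ⟨h3, h4, h5⟩⟩ :=
        M.arcG_adj (valid_three M.hD hc h0) (by simp; omega) h
      · exact ⟨by omega, by omega, by
          rwa [nv, nv, if_neg (by omega), if_pos h1, if_neg (by omega), if_pos h4]⟩
      · exact ⟨by omega, by omega, by rwa [nv, nv, if_neg (by omega), if_pos h1, if_pos h4]⟩
  rw [adj3, Bool.or_eq_true] at h
  exact h.elim (key x y) fun h => ⟨(key y x h).2.1, (key y x h).1, (key y x h).2.2.symm⟩

/-- a base twelve steps before the first child -/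
noncomputable def off (u : List ℕ) : List ℕ := (pred M.D)^[12] (3 :: u)

theorem off_spec {u : List ℕ} (hu : Valid M.D u) (h0 : u ≠ []) :
    Valid M.D (M.off u) ∧ (succ M.D)^[12] (M.off u) = 3 :: u := by
  unfold off
  generalize 12 = i
  have h6 := six M.hD
  induction i with
  | zero => exact ⟨valid_three M.hD hu h0, rfl⟩
  | succ i ih =>
    rw [Function.iterate_succ_apply' (pred M.D), Function.iterate_succ_apply, succ_pred h6 ih.1]
    exact ⟨valid_pred h6 ih.1, ih.2⟩

/-- coordinates from `off u` and from a base `c` on the same level -/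
theorem off_pt {u c : List ℕ} (hu : Valid M.D u) (hc : Valid M.D c) (h0 : u ≠ []) {p x j : ℕ}
    (hp : (succ M.D)^[p] c = 3 :: u) (hj : x + 12 = p + j) : M.pt (M.off u) j = M.pt c x := by
  obtain ⟨h1, h2⟩ := M.off_spec hu h0
  generalize M.off u = o at h1 h2
  refine congrArg M.X (iter_cancel M.hD (valid_iter M.hD h1 j) (valid_iter M.hD hc x) 12 ?_)
  rw [← Function.iterate_add_apply, add_comm, Function.iterate_add_apply, h2, ← hp,
    ← Function.iterate_add_apply, ← Function.iterate_add_apply, show j + p = 12 + x by omega]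

theorem off_inj {u c : List ℕ} (hu : Valid M.D u) (hc : Valid M.D c) (h0 : u ≠ []) {p x j : ℕ}
    (hp : (succ M.D)^[p] c = 3 :: u) (h1 : x + 12 ≤ 6 * c.length) (h2 : p + j ≤ 6 * c.length)
    (h : M.pt (M.off u) j = M.pt c x) : x + 12 = p + j := by
  obtain ⟨a1, a2⟩ := M.off_spec hu h0
  have h3 := congrArg (succ M.D)^[12] (M.inj (valid_iter M.hD a1 j) (valid_iter M.hD hc x) h)
  rw [← Function.iterate_add_apply, add_comm, Function.iterate_add_apply, a2, ← hp,
    ← Function.iterate_add_apply, ← Function.iterate_add_apply] at h3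
  have := iter_inj M.hD hc (by omega) (by omega) (by rintro rfl; simp at h1) h3
  omega

end Chart
end Cert
end Pool.Agent.P.MP_e4ac67_pr
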