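import Pool.Agent.P.MP_e4ac67_pr.CertSaw
import Pool.Agent.P.MP_e4ac67_pr.T7Geo

/-! A lower bound for the connective constant of the regular triangulations. -/

open scoped ENNReal

namespace Pool.Agent.P.MP_e4ac67_pr
namespace Cert
open Node

def sumD (g : ℕ → ℕ) : List ℕ → ℕ
  | [] => 0
  | u :: l => (bif l.elem u then 0 else g u) + sumD g l

theorem sumD_eq (g : ℕ → ℕ) (l : List ℕ) : sumD g l = (l.dedup.map g).sum := by
  induction l with
  | nil => rfl
  | cons u l ih =>
    by_cases h : u ∈ l
    · simp [sumD, h, ih]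
    · simp [sumD, h, ih]

/-- weighted number of bridges; mode `0`: only the lowest level was visited, mode `1`: the walk has
to come back to the lowest level, mode `2`: no condition -/
def brv (nb : ℕ → List ℕ) (pc : ℕ → ℕ) (a b : ℕ) : ℕ → ℕ → List ℕ → ℕ → ℕ
  | 0, _, _, _ => 0
  | f + 1, v, F, md => bif (md.beq 1 && f.blt 2) || (md.beq 2 && v.blt 256 && f.blt 1) then 0 else
      sumD (fun u => bif (v :: F).elem u then 0 else b * (bif u.blt 256 then
        brv nb pc a b f u (v :: F) (bif md.beq 0 then 0 else 2) else bif u.blt 512 then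
          (bif md.beq 0 then pc u * a ^ f + brv nb pc a b f u (v :: F) 1
            else brv nb pc a b f u (v :: F) md) else bif md.beq 2 then pc u * a ^ f else 0)) (nb v)

section
variable {V : Type} {G : SimpleGraph V}

/-- walks inside `A` which meet `B` if `p` holds -/
noncomputable def wm (G : SimpleGraph V) (B : Set V) (v : V) (n : ℕ) (A : Set V) (p : Prop) : ℝ≥0∞ :=
  ∑' l : List V, ind ((l.length = n + 1 ∧ l.head? = some v ∧ l.IsChain G.Adj ∧ l.Nodup ∧
    ∀ y ∈ l, y ∈ A) ∧ (p → ∃ y ∈ l, y ∈ B))

variable {B A A' : Set V} {v : V} {n : ℕ} {p q : Prop}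

theorem wm_imp (h : q → p) : wm G B v n A p ≤ wm G B v n A q :=
  ENNReal.tsum_le_tsum fun _ => ind_mono fun h' => ⟨h'.1, fun hq => h'.2 (h hq)⟩

theorem wm_le : wm G B v n A p ≤ wc G v n A :=
  ENNReal.tsum_le_tsum fun _ => ind_mono fun h' => h'.1

theorem wc_le_wm (h : A' ⊆ A) (hp : ¬p) : wc G v n A' ≤ wm G B v n A p :=
  (wc_mono h).trans (ENNReal.tsum_le_tsum fun _ => ind_mono fun h' => ⟨h', fun h => absurd h hp⟩)

theorem wm_split (h : A' ⊆ A) (h' : ∀ y ∈ A', y ∉ B) (hp : ¬p) (hq : q) :
    wc G v n A' + wm G B v n A q ≤ wm G B v n A p := by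
  rw [wc, wm, ← ENNReal.tsum_add]
  refine ENNReal.tsum_le_tsum fun l => ?_
  by_cases e : ∃ y ∈ l, y ∈ B
  · obtain ⟨y, h1, h2⟩ := e
    rw [ind_of_not fun g => h' y (g.2.2.2.2 y h1) h2, zero_add]
    exact ind_mono fun g => ⟨g.1, fun h => absurd h hp⟩
  · rw [ind_of_not (A := _ ∧ (q → _)) fun g => e (g.2 hq), add_zero]
    exact ind_mono fun ⟨h1, h2, h3, h4, h5⟩ =>
      ⟨⟨h1, h2, h3, h4, fun y hy => h (h5 y hy)⟩, fun h => absurd h hp⟩

theorem wm_succ (h : v ∈ A) {L : List V} (hL : L.Nodup) (ha : ∀ u ∈ L, G.Adj v u) :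
    (L.map fun u => wm G B u n (A \ {v}) (p ∧ u ∉ B)).sum ≤ wm G B v (n + 1) A p := by
  classical
  rw [← List.sum_toFinset _ hL, ← Finset.tsum_subtype]
  unfold wm
  rw [← ENNReal.tsum_prod]
  refine tsum_le_of_enc _ _ (fun x => v :: x.2) (fun x x' h h' he => ?_) fun x _ => ind_mono ?_
  · have h1 := (of_ind_mul_ne ((mul_one (ind _)).symm ▸ h)).1.2.1
    have h2 := (of_ind_mul_ne ((mul_one (ind _)).symm ▸ h')).1.2.1
    have h3 : x.2 = x'.2 := List.cons_injective he
    rw [h3, h2] at h1
    exact Prod.ext (Subtype.ext (Option.some.inj h1).symm) h3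
  · rintro ⟨⟨h1, h2, h3, h4, h5⟩, h6⟩
    refine ⟨⟨by simp [h1], rfl, List.isChain_cons.2 ⟨fun y hy => ?_, h3⟩,
      List.nodup_cons.2 ⟨fun hv => (h5 v hv).2 rfl, h4⟩, ?_⟩, fun hp => ?_⟩
    · rw [h2] at hy
      exact Option.some.inj hy ▸ ha _ (List.mem_toFinset.1 x.1.2)
    · simpa using ⟨h, fun y hy => (h5 y hy).1⟩
    · by_cases e : x.1.1 ∈ B
      · exact ⟨_, List.mem_cons_of_mem _ (List.mem_of_mem_head? h2), e⟩
      · obtain ⟨y, g1, g2⟩ := h6 ⟨hp, e⟩
        exact ⟨y, List.mem_cons_of_mem _ g1, g2⟩

theorem brv_le {lev : V → ℕ} {φ : ℕ → V} {N M a b : ℕ} {nb : ℕ → List ℕ} {pc : ℕ → ℕ}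
    {z K : ℝ≥0∞} (hz : b * z = a) (hi : Function.Injective φ) (hl : ∀ u, lev (φ u) = N + u / 256)
    (ha : ∀ v, ∀ u ∈ nb v, G.Adj (φ v) (φ u))
    (hp : ∀ m < M, ∀ u, pc u * z ^ m ≤ K * wc G (φ u) m {y | lev (φ u) ≤ lev y}) (f : ℕ) :
    ∀ m v F md, f ≤ m → m ≤ M → v ∉ F → (∀ y ∈ v :: F, y < 512) → (md = 0 → ∀ y ∈ v :: F, y < 256) →
      brv nb pc a b f v F md * z ^ m ≤ a ^ f * (K * wm G {y | lev y = N} (φ v) m
        {y | N ≤ lev y ∧ ∀ x ∈ F, φ x ≠ y} (md = 1)) := by
  induction f with
  | zero => intros; simp [brv]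
  | succ f ih =>
    rintro (_ | m) v F md h1 h2 h3 h4 h5
    · omega
    rw [brv]
    cases (md.beq 1 && f.blt 2) || (md.beq 2 && v.blt 256 && f.blt 1)
    swap
    · simp
    have key := wm_succ (G := G) (B := {y | lev y = N}) (n := m) (p := md = 1) (v := φ v)
      (A := {y | N ≤ lev y ∧ ∀ x ∈ F, φ x ≠ y}) (L := (nb v).dedup.map φ)
      ⟨by rw [hl]; omega, fun x hx e => h3 (hi e ▸ hx)⟩ ((List.nodup_dedup _).map hi)
      (by simpa using ha v)
    have eA : {y | N ≤ lev y ∧ ∀ x ∈ F, φ x ≠ y} \ {φ v} =
        {y | N ≤ lev y ∧ ∀ x ∈ v :: F, φ x ≠ y} := by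
      ext y
      simp only [Set.mem_sdiff, Set.mem_ofPred_eq, List.forall_mem_cons, Set.mem_singleton_iff,
        ne_eq, eq_comm (a := y)]
      tauto
    rw [eA, List.map_map] at key
    refine le_trans ?_ (mul_le_mul' le_rfl (mul_le_mul' le_rfl key))
    rw [cond_false, sumD_eq, Nat.cast_list_sum, List.map_map, ← List.sum_map_mul_right,
      ← List.sum_map_mul_left, ← List.sum_map_mul_left]
    refine List.sum_le_sum fun u _ => ?_
    simp only [Function.comp]
    cases e : (v :: F).elem u
    swap
    · simp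
    have hu : u ∉ v :: F := fun h => by rw [List.elem_eq_true_of_mem h] at e; cases e
    rw [cond_false, Nat.cast_mul, pow_succ', mul_mul_mul_comm, hz, pow_succ', mul_assoc]
    refine mul_le_mul' le_rfl ?_
    have ren : ∀ k : ℕ, (∀ y ∈ v :: F, y < 256 * k) → 256 * k ≤ u →
        {y | lev (φ u) ≤ lev y} ⊆ {y | N ≤ lev y ∧ ∀ x ∈ v :: F, φ x ≠ y} := fun k g1 g2 y hy => by
      have hy : lev (φ u) ≤ lev y := hy
      refine ⟨by rw [hl] at hy; omega, fun x hx e => ?_⟩
      have := g1 x hx
      rw [← e, hl, hl] at hy; omega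
    have hpu := hp m (by omega) u
    have ih := fun md => ih m u (v :: F) md (by omega) (by omega) hu
    have hB : φ u ∈ {y | lev y = N} ↔ u < 256 := by
      rw [Set.mem_ofPred_eq, hl]; omega
    rcases lt_or_ge u 256 with c1 | c1
    · rw [show u.blt 256 = true by rwa [Nat.blt_eq], cond_true]
      refine (ih _ (List.forall_mem_cons.2 ⟨by omega, h4⟩) fun g => List.forall_mem_cons.2
        ⟨c1, h5 ?_⟩).trans (mul_le_mul' le_rfl (mul_le_mul' le_rfl
          (wm_imp fun g => (g.2 (hB.2 c1)).elim)))
      cases e0 : md.beq 0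
      · rw [e0] at g; cases g
      · exact Nat.eq_of_beq_eq_true e0
    rw [show u.blt 256 = false by rw [← Bool.not_eq_true, Nat.blt_eq]; omega, cond_false]
    rcases lt_or_ge u 512 with c2 | c2
    · rw [show u.blt 512 = true by rwa [Nat.blt_eq], cond_true]
      cases e0 : md.beq 0
      · exact (ih _ (List.forall_mem_cons.2 ⟨c2, h4⟩) fun g => absurd g (Nat.ne_of_beq_eq_false e0)).trans
          (mul_le_mul' le_rfl (mul_le_mul' le_rfl (wm_imp fun g => g.1)))
      · obtain rfl := Nat.eq_of_beq_eq_true e0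
        refine le_trans ?_ (mul_le_mul' le_rfl (mul_le_mul' le_rfl (wm_split (ren 1 (h5 rfl) c1)
          (fun y (hy : lev (φ u) ≤ lev y) (e : lev y = N) => by rw [hl] at hy; omega) (by simp) (rfl : 1 = 1))))
        rw [cond_true, Nat.cast_add, add_mul, mul_add, mul_add]
        refine add_le_add ?_ (ih 1 (List.forall_mem_cons.2 ⟨c2, h4⟩) (by simp))
        push_cast
        rw [mul_right_comm, mul_comm]
        exact mul_le_mul' le_rfl hpu
    rw [show u.blt 512 = false by rw [← Bool.not_eq_true, Nat.blt_eq]; omega, cond_false]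
    cases e2 : md.beq 2
    · simp
    obtain rfl := Nat.eq_of_beq_eq_true e2
    rw [cond_true]
    push_cast
    rw [mul_right_comm, mul_comm]
    exact mul_le_mul' le_rfl (hpu.trans (mul_le_mul' le_rfl (wc_le_wm (ren 2 h4 c2) (by simp))))

end

def arcW (ws : List (List Bool)) (v u : ℕ) : Bool :=
  ((u / 256).beq (v / 256) && arcG (ws.getD (v / 256) []) 0 1000 256 0 (v % 256) (u % 256)) ||
    ((v / 256).beq (u / 256 + 1) &&
      arcG (ws.getD (v / 256) []) 0 1000 256 2000 (v % 256) (1000 + u % 256))

def nbW (ws : List (List Bool)) (v : ℕ) : List ℕ :=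
  frc (idx (ws.getD (v / 256) []) (v % 256)) fun i =>
    frc (256 * (v / 256 + 1) + 3 * (v % 256) - i) fun g => frc (256 * (v / 256 - 1) + i) fun p =>
      [v + 1, v - 1, g - 1, g, g + 1, g + 2, p, p + 1].filter fun u => arcW ws v u || arcW ws u v

def potW : List Bool → ℕ
  | [false, false, true, false, false] => 861
  | [false, false, true, false, true] => 852
  | [false, true, false, false, true] => 1000
  | [false, true, false, true, false] => 967
  | [true, false, false, true, false] => 1000
  | [true, false, true, false, false] => 852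
  | _ => 0

theorem potW_le (l : List Bool) : potW l ≤ 1000 := by unfold potW; split <;> omega

def pcW (ws : List (List Bool)) (u : ℕ) : ℕ :=
  bif Nat.ble 2 (u % 256) && Nat.ble (u % 256 + 3) (ws.getD (u / 256) []).length then
    potW (((ws.getD (u / 256) []).drop (u % 256 - 2)).take 5) else 0

def nrmB {α : Type} : List Bool → (List Bool → α) → α
  | [], f => f []
  | true :: l, f => nrmB l fun t => f (true :: t)
  | false :: l, f => nrmB l fun t => f (false :: t)

theorem nrmB_eq {α : Type} (l : List Bool) (f : List Bool → α) : nrmB l f = f l := by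
  induction l generalizing f with
  | nil => rfl
  | cons b l ih => cases b <;> simp [nrmB, ih]

def chkMu (u : List Bool) : Bool := nrmB (sig u) fun s => nrmB (sig s) fun t =>
  Nat.ble (potW ((u.drop 5).take 5) * 109 ^ 7) (brv (nbW [u, s, t]) (pcW [u, s, t]) 109 20 7 7 [] 0)

theorem chkMu_ok : ∀ u ∈ lang 4 15, chkMu u = true := by
  rw [show lang 4 15 = [[false, false, true, false, false, true, false, true, false, false, true, false, false, true, false],
    [false, true, false, false, true, false, true, false, false, true, false, false, true, false, true],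
    [true, false, false, true, false, true, false, false, true, false, false, true, false, true, false],
    [false, false, true, false, true, false, false, true, false, false, true, false, true, false, false],
    [false, true, false, true, false, false, true, false, false, true, false, true, false, false, true],
    [true, false, true, false, false, true, false, false, true, false, true, false, false, true, false],
    [false, true, false, false, true, false, false, true, false, true, false, false, true, false, true],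
    [true, false, false, true, false, false, true, false, true, false, false, true, false, true, false],
    [false, false, true, false, false, true, false, true, false, false, true, false, true, false, false],
    [false, true, false, false, true, false, true, false, false, true, false, true, false, false, true],
    [true, false, false, true, false, true, false, false, true, false, true, false, false, true, false],
    [false, false, true, false, true, false, false, true, false, true, false, false, true, false, false],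
    [false, true, false, true, false, false, true, false, true, false, false, true, false, false, true],
    [true, false, true, false, false, true, false, true, false, false, true, false, false, true, false],
    [false, true, false, false, true, false, false, true, false, true, false, false, true, false, false],
    [true, false, false, true, false, false, true, false, true, false, false, true, false, false, true]] by decide +kernel]
  simp only [List.forall_mem_cons, List.not_mem_nil, false_imp_iff, implies_true, and_true]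
  exact ⟨by decide +kernel, by decide +kernel, by decide +kernel, by decide +kernel, by decide +kernel, by decide +kernel, by decide +kernel, by decide +kernel, by decide +kernel, by decide +kernel, by decide +kernel, by decide +kernel, by decide +kernel, by decide +kernel, by decide +kernel, by decide +kernel⟩

theorem pot_pos : ∀ u ∈ lang 4 5, 1 ≤ potW u := by decide +kernel

namespace Chart
variable {V : Type} {G : SimpleGraph V} (M : Chart G)

theorem wc_up {w : List ℕ} (hw : Valid M.D w) (h0 : w ≠ []) (n : ℕ) :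
    wc G (M.X (3 :: w)) n {y | w.length + 1 ≤ M.lev y} ≤
      wc G (M.X w) (n + 1) {y | w.length ≤ M.lev y} := by
  have := wc_succ (G := G) (n := n) (A := {y | w.length ≤ M.lev y}) (M.lev_X hw).ge
    (List.nodup_singleton (M.X (3 :: w)))
    (List.forall_mem_singleton.2 (M.adj hw (na_child (valid_three M.hD hw h0))))
  simp only [List.map_cons, List.map_nil, List.sum_cons, List.sum_nil, add_zero] at this
  refine (wc_mono fun y (hy : _ ≤ _) => And.intro (Nat.le_of_succ_le hy) fun e => ?_).trans this
  rw [show y = M.X w from e, M.lev_X hw] at hy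
  omega

theorem one_le_wc (n : ℕ) : ∀ w, Valid M.D w → w ≠ [] →
    1 ≤ wc G (M.X w) n {y | w.length ≤ M.lev y} := by
  induction n with
  | zero => exact fun w hw _ => wc_zero (M.lev_X hw).ge
  | succ n ih => exact fun w hw h0 => (ih _ (valid_three M.hD hw h0) (by simp)).trans (M.wc_up hw h0 n)

theorem valid_rep {c : List ℕ} (hc : Valid M.D c) (h0 : c ≠ []) (l : ℕ) :
    Valid M.D (List.replicate l 3 ++ c) := by
  induction l with
  | zero => exact hc
  | succ l ih => exact valid_three M.hD ih (by simp [h0])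

theorem wc_rep {c : List ℕ} (hc : Valid M.D c) (h0 : c ≠ []) (n l : ℕ) :
    wc G (M.X (List.replicate l 3 ++ c)) n {y | l + c.length ≤ M.lev y} ≤
      wc G (M.X c) (n + l) {y | c.length ≤ M.lev y} := by
  induction l generalizing n with
  | zero => simp
  | succ l ih =>
    have := M.wc_up (M.valid_rep hc h0 l) (by simp [h0]) n
    rw [List.length_append, List.length_replicate] at this
    rw [show n + (l + 1) = n + 1 + l by ring, show l + 1 + c.length = l + c.length + 1 by ring]
    exact this.trans (ih _)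

theorem mu7 (h7 : ∀ w, M.D w = 7) (m : ℕ) : ∀ c, Valid M.D c → 50 ≤ c.length →
    potW (win (bt M.D c) 0 5) * (109 / 20 : ℝ≥0∞) ^ m ≤
      1000 * 109 ^ 7 * wc G (M.pt c 2) m {y | c.length ≤ M.lev y} := by
  induction m using Nat.strong_induction_on with
  | _ m ih =>
  intro c hc h50
  rcases lt_or_ge m 7 with h | h
  · have := M.one_le_wc m _ (valid_iter M.hD hc 2) (by
      rw [← List.length_pos_iff, length_iter]; omega)
    rw [length_iter] at this
    refine le_trans (mul_le_mul' (by exact_mod_cast potW_le _) ?_) (le_mul_of_one_le_right' this)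
    exact (pow_le_pow_left' (ENNReal.div_le_of_le_mul (by norm_num)) m).trans
      (pow_le_pow_right' (by norm_num) h.le)
  obtain ⟨c0, hv, rfl⟩ := exists_base M.hD hc 5
  rw [length_iter] at h50 ⊢
  have h0 : c0 ≠ [] := by rintro rfl; simp at h50
  have ck := chkMu_ok _ (mem_lang h7 4 15 c0 hv (by omega))
  set u := win (bt M.D c0) 0 15 with hu
  simp only [chkMu, nrmB_eq, Nat.ble_eq] at ck
  have hw : ∀ l, ∃ n, [u, sig u, sig (sig u)].getD l [] =
      win (bt M.D (List.replicate l 3 ++ c0)) 0 n := by
    have s1 := (sig_win h7 15 c0 h0).1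
    have s2 := (sig_win h7 (sig u).length (3 :: c0) (by simp)).1
    rw [s1] at s2
    rintro (_ | _ | _ | l)
    exacts [⟨_, hu⟩, ⟨_, s1.symm⟩, ⟨_, s2.symm⟩, ⟨0, rfl⟩]
  generalize [u, sig u, sig (sig u)] = ws at ck hw
  have hr := M.valid_rep hv h0
  let φ : ℕ → V := fun x => M.pt (List.replicate (x / 256) 3 ++ c0) (x % 256)
  have hl : ∀ x, M.lev (φ x) = c0.length + x / 256 := fun x => by
    rw [M.pt_lev (hr _)]; simp [add_comm]
  have arc : ∀ x y, arcW ws x y = true → G.Adj (φ x) (φ y) := fun x y h => by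
    obtain ⟨n, e⟩ := hw (x / 256)
    simp only [arcW, e, Bool.or_eq_true, Bool.and_eq_true, Nat.beq_eq] at h
    rcases h with ⟨h1, h2⟩ | ⟨h1, h2⟩
    · obtain ⟨-, -, ⟨-, -, h3⟩ | ⟨-, h3, -⟩⟩ := M.arcG_adj (hr _) (by simp; omega) h2
      · simpa only [φ, h1, Nat.sub_zero] using h3
      · omega
    · obtain ⟨-, -, ⟨-, h3, -⟩ | ⟨-, -, h3⟩⟩ := M.arcG_adj (hr _) (by simp; omega) h2
      · omega
      · simpa [φ, h1, List.replicate_succ] using h3
  have key := brv_le (G := G) (lev := M.lev) (φ := φ) (N := c0.length) (M := m) (a := 109) (b := 20)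
    (nb := nbW ws) (pc := pcW ws) (z := 109 / 20) (K := 1000 * 109 ^ 7)
    (by exact_mod_cast ENNReal.mul_div_cancel (by norm_num) (by norm_num)) (fun x y e => ?_) hl
    (fun x y h => ?_) (fun m' hm x => ?_) 7 m 7 [] 0 h le_rfl (by simp) (by simp) (by simp)
  · rw [bt_shift, win_shift, ← take_drop_win _ (N := 15) (by omega), pt_add,
      ← ENNReal.mul_le_mul_iff_right (a := (109 : ℕ) ^ 7) (by simp) (by simp), ← mul_assoc,
      mul_comm _ (potW _ : ℝ≥0∞)]
    refine (mul_le_mul' (by exact_mod_cast ck) le_rfl).trans (key.trans (mul_le_mul' le_rfl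
      (mul_le_mul' le_rfl (wm_le.trans (wc_mono fun y hy => hy.1)))))
  · have e1 := congrArg M.lev e
    rw [hl, hl] at e1
    have e2 : x / 256 = y / 256 := by omega
    simp only [φ, e2] at e
    have := M.pt_inj (hr _) (by simp; omega) (by simp; omega) (by simp [h0]) e
    omega
  · simp only [nbW, frc_eq, List.mem_filter, Bool.or_eq_true] at h
    exact h.2.elim (arc x y) fun h => (arc y x h).symm
  · obtain ⟨n, e⟩ := hw (x / 256)
    rw [pcW, e, length_win]
    cases g : Nat.ble 2 (x % 256) && Nat.ble (x % 256 + 3) n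
    · simp
    simp only [Bool.and_eq_true, Nat.ble_eq] at g
    have := ih m' hm _ (valid_iter M.hD (hr (x / 256)) (x % 256 - 2)) (by
      rw [length_iter]; simp; omega)
    rw [bt_shift, win_shift, pt_add, length_iter, show x % 256 - 2 + 2 = x % 256 by omega,
      ← M.pt_lev (hr _) (x % 256)] at this
    rwa [cond_true, take_drop_win _ (by omega)]

theorem four (h8 : ∀ w, 8 ≤ M.D w) {w : List ℕ} (hw : Valid M.D w) (h0 : w ≠ []) {n : ℕ} {x : ℝ≥0∞}
    (ih : ∀ u, Valid M.D u → u ≠ [] → x ≤ wc G (M.X u) n {y | u.length ≤ M.lev y}) {A : Set V}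
    (hA : M.X w ∈ A) (hA' : ∀ v, w.length + 1 ≤ M.lev v → v ∈ A) {L : List (List ℕ)} (hL : L.Nodup)
    (hl : ∀ u ∈ L, NA M.D w u ∧ u.length = w.length) :
    4 * x + (L.map fun u => wc G (M.X u) n (A \ {M.X w})).sum ≤ wc G (M.X w) (n + 1) A := by
  have h6 := six M.hD
  have h7 := h8 w
  have ht := tau_le (D := M.D) w
  have hp : pred M.D w ≠ w := (M.side_pred w hw h0).2.2.2.1
  set U := [last M.D (pred M.D w), 3 :: w, last M.D w, 4 :: w] with hU
  have hu : ∀ u ∈ U, NA M.D w u ∧ u.length = w.length + 1 := by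
    simp [hU, na_two h6 h0, na_child (valid_three M.hD hw h0),
      na_child (valid_cons hw h0 (e := 4) (by omega) (by omega))]
    exact ⟨by simp [last, length_pred], na_child (valid_last h6 hw h0), rfl⟩
  have hn : ∀ u ∈ U ++ L, NA M.D w u := fun u h =>
    (List.mem_append.1 h).elim (fun h => (hu u h).1) fun h => (hl u h).1
  have := wc_succ (G := G) (n := n) hA (L := (U ++ L).map M.X) (List.Nodup.map_on
    (fun a ha b hb => M.inj ((hn a ha).valid h6 hw) ((hn b hb).valid h6 hw))
    (List.nodup_append.2 ⟨by simp [hU, last, hp]; omega, hL, fun a ha b hb e => by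
      have := (hu a ha).2; have := (hl b hb).2; subst e; omega⟩))
    (by simpa only [List.forall_mem_map] using fun u h => M.adj hw (hn u h))
  rw [List.map_map, List.map_append, List.sum_append] at this
  refine le_trans (add_le_add_left ?_ _) this
  have := List.card_nsmul_le_sum (U.map ((fun u => wc G u n (A \ {M.X w})) ∘ M.X)) x (by
    simp only [List.forall_mem_map]
    intro u h
    obtain ⟨h1, h2⟩ := hu u h
    exact (ih u (h1.valid h6 hw) (by rintro rfl; simp at h2)).trans (wc_mono
      fun v (hv : u.length ≤ M.lev v) => And.intro (hA' v (h2 ▸ hv)) fun e => by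
        rw [show v = M.X w from e, M.lev_X hw] at hv; omega))
  simpa [hU] using this

theorem mu8 (h8 : ∀ w, 8 ≤ M.D w) (n : ℕ) : ∀ w, Valid M.D w → w ≠ [] →
    (109 / 20 : ℝ≥0∞) ^ n / 6 ≤ wc G (M.X w) n {y | w.length ≤ M.lev y} := by
  induction n using Nat.strong_induction_on with
  | _ n ih =>
  intro w hw h0
  have h6 := six M.hD
  rcases n with _ | _ | n
  · exact le_trans (ENNReal.div_le_of_le_mul (by norm_num)) (M.one_le_wc _ w hw h0)
  · refine le_trans (ENNReal.div_le_of_le_mul ?_) (M.one_le_wc _ w hw h0)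
    rw [zero_add, pow_one]
    exact ENNReal.div_le_of_le_mul (by norm_num)
  have two : ∀ f, M.Side f → 4 * ((109 / 20 : ℝ≥0∞) ^ n / 6) ≤
      wc G (M.X (f w)) (n + 1) ({y | w.length ≤ M.lev y} \ {M.X w}) := fun f hf => by
    obtain ⟨a1, a2, -, a4, -⟩ := hf w hw h0
    have b1 := a1.valid h6 hw
    refine le_trans le_self_add (M.four h8 b1 (by
      rw [← List.length_pos_iff, a2]; exact List.length_pos_iff.2 h0) (ih n (by omega))
      (And.intro (by simp [M.lev_X b1, a2]) fun e => a4 (M.inj b1 hw e))
      (fun v hv => And.intro (by simp; omega) fun e => ?_) List.nodup_nil (by simp))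
    rw [show v = M.X w from e, M.lev_X hw] at hv; omega
  refine le_trans ?_ (M.four h8 hw h0 (ih (n + 1) (by omega)) (M.lev_X hw).ge
    (fun v hv => Nat.le_of_succ_le hv) (L := [succ M.D w, pred M.D w]) ?_ ?_)
  · simp only [List.map_cons, List.map_nil, List.sum_cons, List.sum_nil, add_zero]
    refine le_trans ?_ (add_le_add_right (add_le_add (two _ M.side_succ) (two _ M.side_pred)) _)
    have : (109 / 20 : ℝ≥0∞) * (109 / 20) ≤ 4 * (109 / 20) + 8 := by
      rw [← ENNReal.toReal_le_toReal (by finiteness) (by finiteness),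
        ENNReal.toReal_add (by finiteness) (by finiteness)]
      simp; norm_num
    generalize (109 / 20 : ℝ≥0∞) = z at this
    calc _ = z * z * (z ^ n / 6) := by simp only [div_eq_mul_inv]; ring
      _ ≤ (4 * z + 8) * (z ^ n / 6) := mul_le_mul' this le_rfl
      _ = _ := by simp only [div_eq_mul_inv]; ring
  · simpa using fun e => (M.side_succ w hw h0).2.2.2.2 (by rw [e, succ_pred h6 hw])
  · simp [(M.side_succ w hw h0).1, (M.side_pred w hw h0).1, length_succ, length_pred]

end Chart
end Cert

namespace PlaneTri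
open Cert Node

theorem Mu.le_limsup' {c : ℕ → ℝ≥0∞} {y K : ℝ≥0∞} (h0 : K ≠ 0) (hK : K ≠ ⊤)
    (h : ∀ n, y ^ n ≤ K * c n) :
    y ≤ Filter.limsup (fun n : ℕ => c n ^ ((1 : ℝ) / n)) Filter.atTop := by
  refine le_of_forall_lt_imp_le_of_dense fun z hz => ?_
  rcases eq_or_ne z 0 with rfl | hz0
  · exact zero_le
  have hzt : z ≠ ⊤ := ne_top_of_lt hz
  refine Filter.le_limsup_of_frequently_le (Filter.Eventually.frequently ?_)
  filter_upwards [Mu.ev_pow hz0 hz hK, Filter.eventually_ge_atTop 1] with n hn h1
  have e : (y * z⁻¹) ^ n * z ^ n = y ^ n := by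
    rw [← mul_pow, mul_assoc, ENNReal.inv_mul_cancel hz0 hzt, mul_one]
  have h2 : K * z ^ n ≤ K * c n := by
    calc K * z ^ n ≤ (y * z⁻¹) ^ n * z ^ n := by gcongr
      _ = y ^ n := e
      _ ≤ _ := h n
  have h3 : z ^ n ≤ c n := (ENNReal.mul_le_mul_iff_right h0 hK).1 h2
  have hn0 : (0 : ℝ) < n := by exact_mod_cast h1
  calc z = (z ^ n) ^ ((1 : ℝ) / n) := by
        rw [← ENNReal.rpow_natCast, ← ENNReal.rpow_mul, mul_one_div_cancel hn0.ne',
          ENNReal.rpow_one]
    _ ≤ _ := ENNReal.rpow_le_rpow h3 (by positivity)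

theorem mu_reg {V : Type} (T : PlaneTri V) {k : ℕ} (hk : 7 ≤ k) (hT : ∀ v, T.deg v = k) (v : V) :
    109 / 20 ≤ connConst T.G v := by
  have h7 : ∀ v, 7 ≤ T.deg v := fun v => hT v ▸ hk
  obtain ⟨r, h⟩ := exists_adj (fun v => (Nat.succ_pos 6).trans_le (h7 v)) v
  set M := chart T h7 h
  have hv : Valid M.D [0] := valid_single ((Nat.succ_pos 6).trans_le (h7 _))
  have hw := M.valid_rep hv (by simp) 49
  have key : ∀ n, (109 / 20 : ℝ≥0∞) ^ n ≤ 1000 * 109 ^ 7 *
      wc T.G (M.X (List.replicate 49 3 ++ [0])) n {y | 49 + 1 ≤ M.lev y} := fun n => by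
    rcases hk.eq_or_lt with rfl | hk
    · obtain ⟨c, h1, h2⟩ := exists_base M.hD hw 2
      have hl : c.length = 49 + 1 := by rw [← length_iter (D := M.D) c 2, h2]; simp
      have := M.mu7 (fun _ => hT _) n c h1 hl.ge
      rw [Chart.pt, h2, hl] at this
      exact (le_mul_of_one_le_left' (by
        exact_mod_cast pot_pos _ (mem_lang (fun _ => hT _) 4 5 c h1 (by omega)))).trans this
    · have := M.mu8 (fun _ => hk.trans_eq (hT _).symm) n _ hw (by simp)
      rw [ENNReal.div_le_iff' (by norm_num) (by norm_num)] at this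
      exact this.trans (mul_le_mul' (by norm_num) (by simp))
  have one : (1 : ℝ≥0∞) ≤ 109 / 20 := ENNReal.le_div_iff_mul_le (by simp) (by simp) |>.2 (by norm_num)
  refine Mu.le_limsup' (K := (109 / 20) ^ 50 * (1000 * 109 ^ 7)) (by simp) (by finiteness) fun n => ?_
  rw [mul_assoc]
  rcases lt_or_ge n 50 with c | c
  · refine (pow_le_pow_right' one c.le).trans (le_mul_of_one_le_right' ?_)
    exact (one_le_pow_of_one_le' (by norm_num) n).trans ((T.saw_five h7 v n).trans
      (mul_le_mul' (by norm_num) le_rfl))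
  · obtain ⟨n, rfl⟩ := Nat.exists_eq_add_of_le c
    rw [pow_add]
    refine mul_le_mul' le_rfl ((key n).trans (mul_le_mul' le_rfl
      (le_trans (M.wc_rep hv (by simp) n 49) (le_trans ?_ (wc_le v _ Set.univ)))))
    have h2 := wc_succ (G := T.G) (n := n + 49) (Set.mem_univ v) (List.nodup_singleton (M.X [0]))
      (List.forall_mem_singleton.2 (M.adj (w := []) trivial (na_child hv)))
    simp only [List.map_cons, List.map_nil, List.sum_cons, List.sum_nil, add_zero] at h2
    rw [show 50 + n = n + 49 + 1 by ring]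
    refine (wc_mono fun u hu => And.intro trivial fun e => ?_).trans h2
    have h4 : 1 ≤ T.d v u := hu
    rw [show u = v from e, d_self] at h4
    omega

end PlaneTri
end Pool.Agent.P.MP_e4ac67_pr
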