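import Pool.Agent.P.MP_e4ac67_pr.EXLib

/-! TASK DCT: the Duminil-Copin and Tassion argument and the link with the product measure. -/

open scoped ENNReal

namespace Pool.Agent.P.MP_e4ac67_pr

namespace DCT

open Finset

/-- real-valued expectation over a `p`-random subset -/
noncomputable def Ex {ι : Type} (Ω : Finset ι) (p : ℝ) (f : Finset ι → ℝ) : ℝ :=
  ∑ s ∈ Ω.powerset, p ^ s.card * (1 - p) ^ (Ω.card - s.card) * f s

/-- real-valued indicator -/
noncomputable def indr (A : Prop) : ℝ := by classical exact if A then 1 else 0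

theorem indr_of {A : Prop} (h : A) : indr A = 1 := by simp [indr, h]
theorem indr_of_not {A : Prop} (h : ¬A) : indr A = 0 := by simp [indr, h]
theorem indr_nonneg (A : Prop) : 0 ≤ indr A := by unfold indr; split_ifs <;> simp
theorem indr_congr {A B : Prop} (h : A ↔ B) : indr A = indr B := by rw [propext h]
theorem indr_mono {A B : Prop} (h : A → B) : indr A ≤ indr B := by
  by_cases hA : A
  · rw [indr_of hA, indr_of (h hA)]
  · rw [indr_of_not hA]; exact indr_nonneg _
theorem ind_eq (A : Prop) : ind A = ENNReal.ofReal (indr A) := by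
  by_cases hA : A
  · rw [ind_of hA, indr_of hA, ENNReal.ofReal_one]
  · rw [ind_of_not hA, indr_of_not hA, ENNReal.ofReal_zero]

section lib
variable {ι : Type} {Ω : Finset ι} {p : ℝ} {f g : Finset ι → ℝ}

theorem Ex_empty (p : ℝ) (f : Finset ι → ℝ) : Ex ∅ p f = f ∅ := by simp [Ex]

theorem Ex_insert [DecidableEq ι] {a : ι} (ha : a ∉ Ω) (p : ℝ) (f : Finset ι → ℝ) :
    Ex (insert a Ω) p f = p * Ex Ω p (fun s => f (insert a s)) + (1 - p) * Ex Ω p f := by
  unfold Ex
  rw [Finset.sum_powerset_insert ha, Finset.mul_sum, Finset.mul_sum, add_comm,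
    card_insert_of_notMem ha]
  congr 1
  · refine sum_congr rfl fun s hs => ?_
    have hs' := mem_powerset.1 hs
    have : a ∉ s := fun h => ha (hs' h)
    rw [card_insert_of_notMem this, Nat.add_sub_add_right]; ring
  · refine sum_congr rfl fun s hs => ?_
    have := card_le_card (mem_powerset.1 hs)
    rw [show Ω.card + 1 - s.card = (Ω.card - s.card) + 1 by omega]; ring

theorem Ex_mono (h0 : 0 ≤ p) (h1 : p ≤ 1) (h : ∀ s, f s ≤ g s) : Ex Ω p f ≤ Ex Ω p g :=
  sum_le_sum fun s _ => mul_le_mul_of_nonneg_left (h s)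
    (mul_nonneg (pow_nonneg h0 _) (pow_nonneg (sub_nonneg.2 h1) _))

theorem Ex_sub (f g : Finset ι → ℝ) :
    (Ex Ω p fun s => f s - g s) = Ex Ω p f - Ex Ω p g := by
  unfold Ex
  rw [← sum_sub_distrib]
  exact sum_congr rfl fun s _ => by ring

theorem Ex_sum {α : Type} (A : Finset α) (F : α → Finset ι → ℝ) :
    (Ex Ω p fun s => ∑ a ∈ A, F a s) = ∑ a ∈ A, Ex Ω p (F a) := by
  unfold Ex
  rw [sum_comm]
  exact sum_congr rfl fun s _ => by rw [mul_sum]

theorem Ex_const (c : ℝ) : (Ex Ω p fun _ => c) = c := by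
  classical
  induction Ω using Finset.induction_on with
  | empty => exact Ex_empty _ _
  | insert a Ω ha ih => rw [Ex_insert ha, ih]; ring

theorem Ex_nonneg (h0 : 0 ≤ p) (h1 : p ≤ 1) (h : ∀ s, 0 ≤ f s) : 0 ≤ Ex Ω p f := by
  have := Ex_mono (Ω := Ω) (f := fun _ => 0) h0 h1 h
  rwa [Ex_const] at this

theorem Ex_deriv [DecidableEq ι] (Ω : Finset ι) (f : Finset ι → ℝ) (p : ℝ) :
    HasDerivAt (fun q => Ex Ω q f)
      (∑ κ ∈ Ω, Ex (Ω.erase κ) p fun s => f (insert κ s) - f s) p := by
  induction Ω using Finset.induction_on generalizing f with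
  | empty => simp only [Ex_empty, sum_empty]; exact hasDerivAt_const _ _
  | insert a Ω ha ih =>
    have e : (fun q => Ex (insert a Ω) q f) =
        fun q => q * Ex Ω q (fun s => f (insert a s)) + (1 - q) * Ex Ω q f :=
      funext fun q => Ex_insert ha q f
    rw [e]
    have h1 := (hasDerivAt_id' p).mul (ih fun s => f (insert a s))
    have h2 := ((hasDerivAt_id' p).const_sub 1).mul (ih f)
    refine (h1.add h2).congr_deriv ?_
    rw [sum_insert ha, erase_insert ha, Ex_sub]
    have : ∑ κ ∈ Ω, Ex ((insert a Ω).erase κ) p (fun s => f (insert κ s) - f s) =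
        p * ∑ κ ∈ Ω, Ex (Ω.erase κ) p
          (fun s => f (insert a (insert κ s)) - f (insert a s)) +
        (1 - p) * ∑ κ ∈ Ω, Ex (Ω.erase κ) p (fun s => f (insert κ s) - f s) := by
      rw [mul_sum, mul_sum, ← sum_add_distrib]
      refine sum_congr rfl fun κ hκ => ?_
      have hne : a ≠ κ := fun h => ha (h ▸ hκ)
      rw [erase_insert_of_ne hne, Ex_insert fun h => ha (mem_of_mem_erase h)]
      simp only [insert_comm a κ]
    rw [this]
    ring

theorem Ex_piv [DecidableEq ι] {κ : ι} (hκ : κ ∈ Ω) (f : Finset ι → ℝ) :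
    (Ex Ω p fun s => f (insert κ s) - f s) =
      (1 - p) * Ex (Ω.erase κ) p fun s => f (insert κ s) - f s := by
  conv_lhs => rw [← insert_erase hκ]
  rw [Ex_insert (notMem_erase κ Ω)]
  simp only [insert_idem, sub_self, Ex_const, mul_zero, zero_add]

theorem Ex_mono_p {q : ℝ} (h0 : 0 ≤ p) (hpq : p ≤ q) (h1 : q ≤ 1)
    (hf : ∀ s t, s ⊆ t → f s ≤ f t) : Ex Ω p f ≤ Ex Ω q f := by
  classical
  induction Ω using Finset.induction_on generalizing f with
  | empty => rw [Ex_empty, Ex_empty]
  | insert a Ω ha ih =>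
    rw [Ex_insert ha, Ex_insert ha]
    have i1 := ih (f := fun s => f (insert a s)) fun s t h => hf _ _ (insert_subset_insert a h)
    have i2 := ih hf
    have i3 : Ex Ω q f ≤ Ex Ω q fun s => f (insert a s) :=
      Ex_mono (h0.trans hpq) h1 fun s => hf _ _ (subset_insert a s)
    have j1 := mul_le_mul_of_nonneg_left i1 h0
    have j2 := mul_le_mul_of_nonneg_left i2 (sub_nonneg.2 (hpq.trans h1))
    have j3 := mul_le_mul_of_nonneg_left i3 (sub_nonneg.2 hpq)
    linarith

theorem Ex_mul [DecidableEq ι]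
    (h : ∀ a, (∀ s, f (insert a s) = f s) ∨ ∀ s, g (insert a s) = g s) :
    (Ex Ω p fun s => f s * g s) = Ex Ω p f * Ex Ω p g := by
  induction Ω using Finset.induction_on generalizing f g with
  | empty => simp only [Ex_empty]
  | insert a Ω ha ih =>
    have h' : ∀ b, (∀ s, f (insert a (insert b s)) = f (insert a s)) ∨
        ∀ s, g (insert a (insert b s)) = g (insert a s) := fun b =>
      (h b).imp (fun h s => by rw [insert_comm, h]) fun h s => by rw [insert_comm, h]
    rw [Ex_insert ha, Ex_insert ha, Ex_insert ha,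
      ih (f := fun s => f (insert a s)) (g := fun s => g (insert a s)) h', ih h]
    rcases h a with h | h
    · simp only [h]; ring
    · simp only [h]; ring

theorem toE_eq (p : unitInterval) : toE p = ENNReal.ofReal p := by
  rw [toE, ENNReal.ofReal_eq_coe_nnreal p.2.1]; rfl

theorem one_sub_toE (p : unitInterval) : 1 - toE p = ENNReal.ofReal (1 - p) := by
  rw [toE_eq, ENNReal.ofReal_sub _ p.2.1, ENNReal.ofReal_one]

theorem EX_ofReal (p : unitInterval) (hf : ∀ s, 0 ≤ f s) :
    (EX Ω (toE p) fun s => ENNReal.ofReal (f s)) = ENNReal.ofReal (Ex Ω p f) := by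
  have h0 : (0 : ℝ) ≤ p := p.2.1
  have h1 : (0 : ℝ) ≤ 1 - p := sub_nonneg.2 p.2.2
  unfold EX Ex
  rw [ENNReal.ofReal_sum_of_nonneg fun s _ =>
    mul_nonneg (mul_nonneg (pow_nonneg h0 _) (pow_nonneg h1 _)) (hf s)]
  refine sum_congr rfl fun s _ => ?_
  rw [one_sub_toE, toE_eq, ENNReal.ofReal_mul (mul_nonneg (pow_nonneg h0 _) (pow_nonneg h1 _)),
    ENNReal.ofReal_mul (pow_nonneg h0 _), ENNReal.ofReal_pow h0, ENNReal.ofReal_pow h1]

end lib

section bridge
open MeasureTheory ProbabilityTheory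
variable {K : Type}

/-- the cylinder of configurations with trace `s` on `Ω` -/
def Cyl (Ω s : Finset K) : Set (Set K) := {w | ∀ x ∈ Ω, x ∈ w ↔ x ∈ s}

theorem measurableSet_Cyl (Ω s : Finset K) : MeasurableSet (Cyl Ω s) := by
  have : Cyl Ω s = ⋂ x ∈ Ω, {w : Set K | x ∈ w ↔ x ∈ s} := by
    ext w; simp [Cyl]
  rw [this]
  refine Finset.measurableSet_biInter _ fun x _ => ?_
  by_cases hx : x ∈ s
  · simp only [hx, iff_true]; exact measurableSet_mem x
  · simp only [hx, iff_false]; exact measurableSet_notMem x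

theorem measure_Cyl {U : Set K} {Ω s : Finset K} (hΩ : ∀ x ∈ Ω, x ∈ U) (hs : s ⊆ Ω)
    (p : unitInterval) :
    setBernoulli U p (Cyl Ω s) = toE p ^ s.card * (1 - toE p) ^ (Ω.card - s.card) := by
  classical
  rw [setBernoulli_apply']
  have : ((fun P : K → Prop => {i | P i}) ⁻¹' Cyl Ω s) =
      Set.pi (Ω : Set K) fun i => {i ∈ s} := by
    ext P; simp [Cyl, Set.mem_pi]
  rw [this, Measure.infinitePi_pi _ fun _ _ => MeasurableSet.of_discrete]
  have h1 : ∀ i ∈ Ω, ((unitInterval.toNNReal p • Measure.dirac (i ∈ U) +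
      unitInterval.toNNReal (unitInterval.symm p) • Measure.dirac False : Measure Prop))
        {i ∈ s} = if i ∈ s then toE p else 1 - toE p := by
    intro i hi
    have h2 : 1 - toE p = (unitInterval.toNNReal (unitInterval.symm p) : NNReal) := by
      rw [one_sub_toE, ENNReal.ofReal_eq_coe_nnreal (sub_nonneg.2 p.2.2)]; rfl
    rw [h2]
    by_cases h : i ∈ s
    · simp [h, hΩ i hi, toE]
    · simp [h, hΩ i hi]
  rw [prod_congr rfl h1, prod_ite, prod_const, prod_const, filter_mem_eq_inter,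
    inter_eq_right.2 hs, filter_notMem_eq_sdiff, card_sdiff_of_subset hs]

open Classical in
/-- the trace of a configuration on `Ω` -/
noncomputable def tr (Ω : Finset K) (w : Set K) : Finset K := Ω.filter (· ∈ w)

theorem mem_tr {Ω : Finset K} {w : Set K} {x : K} : x ∈ tr Ω w ↔ x ∈ Ω ∧ x ∈ w := by
  simp [tr]

open Classical in
theorem tr_eq (Ω : Finset K) (E : Finset K → Prop) :
    {w : Set K | E (tr Ω w)} = ⋃ s ∈ Ω.powerset.filter E, Cyl Ω s := by
  ext w
  simp only [Set.mem_ofPred_eq, Set.mem_iUnion, mem_filter, mem_powerset, exists_prop]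
  constructor
  · intro h
    exact ⟨tr Ω w, ⟨fun x hx => (mem_tr.1 hx).1, h⟩, fun x hx => by simp [mem_tr, hx]⟩
  · rintro ⟨s, ⟨hs, hE⟩, hw⟩
    have : tr Ω w = s := by
      ext x
      rw [mem_tr]
      exact ⟨fun h => (hw x h.1).1 h.2, fun h => ⟨hs h, (hw x (hs h)).2 h⟩⟩
    rwa [this]

theorem measurableSet_tr (Ω : Finset K) (E : Finset K → Prop) :
    MeasurableSet {w : Set K | E (tr Ω w)} := by
  rw [tr_eq]
  exact Finset.measurableSet_biUnion _ fun s _ => measurableSet_Cyl Ω s

theorem bridge {U : Set K} {Ω : Finset K} (hΩ : ∀ x ∈ Ω, x ∈ U) (p : unitInterval)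
    (E : Finset K → Prop) :
    setBernoulli U p {w : Set K | E (tr Ω w)} = EX Ω (toE p) fun s => ind (E s) := by
  classical
  rw [tr_eq, measure_biUnion_finset _ fun s _ => measurableSet_Cyl Ω s, EX, sum_filter]
  · refine sum_congr rfl fun s hs => ?_
    by_cases h : E s
    · rw [if_pos h, ind_of h, mul_one, measure_Cyl hΩ (mem_powerset.1 hs)]
    · rw [if_neg h, ind_of_not h, mul_zero]
  · intro s hs t ht hst
    have hs' := mem_powerset.1 (mem_filter.1 hs).1
    have ht' := mem_powerset.1 (mem_filter.1 ht).1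
    refine Set.disjoint_left.2 fun w h1 h2 => hst ?_
    ext x
    exact ⟨fun h => (h2 x (hs' h)).1 ((h1 x (hs' h)).2 h),
      fun h => (h1 x (ht' h)).1 ((h2 x (ht' h)).2 h)⟩

end bridge

section comb
variable {V K : Type} (G : SimpleGraph V) (key : V → V → K)

/-- `v` is joined by an open directed path to a vertex outside `L` -/
def Esc (L : Finset V) (ω : Set K) (v : V) : Prop :=
  ∃ x, x ∉ L ∧ Relation.ReflTransGen (fun a b => G.Adj a b ∧ key a b ∈ ω) v x

open Classical in
/-- the vertices of `L` that do not escape -/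
noncomputable def trap (L : Finset V) (ω : Finset K) : Finset V :=
  L.filter fun v => ¬Esc G key L ω v

/-- the real-valued number of exit keys -/
noncomputable def NEr (Ω : Finset K) (S : Finset V) (o : V) (ω : Finset K) : ℝ :=
  ∑ κ ∈ Ω, indr (Exit G key S Set.univ o ω κ)

variable {G key}

theorem mem_trap {L : Finset V} {ω : Finset K} {v : V} :
    v ∈ trap G key L ω ↔ v ∈ L ∧ ¬Esc G key L ω v := by simp [trap]

theorem Esc.mono {L : Finset V} {ω ω' : Set K} (h : ω ⊆ ω') {v : V} (hv : Esc G key L ω v) :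
    Esc G key L ω' v := by
  obtain ⟨x, hx, hp⟩ := hv
  refine ⟨x, hx, ?_⟩
  clear hx
  induction hp with
  | refl => exact .refl
  | tail _ hab ih => exact ih.tail ⟨hab.1, h hab.2⟩

theorem Esc.of_notMem {L : Finset V} {ω : Set K} {v : V} (h : v ∉ L) : Esc G key L ω v :=
  ⟨v, h, .refl⟩

theorem Esc.head {L : Finset V} {ω : Set K} {u v : V} (h : G.Adj u v) (hk : key u v ∈ ω)
    (hv : Esc G key L ω v) : Esc G key L ω u :=
  let ⟨x, hx, hp⟩ := hv
  ⟨x, hx, hp.head ⟨h, hk⟩⟩

theorem esc_of_notMem_trap {L : Finset V} {ω : Finset K} {v : V} (h : v ∉ trap G key L ω) :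
    Esc G key L ω v := by
  by_contra h'
  by_cases hv : v ∈ L
  · exact h (mem_trap.2 ⟨hv, h'⟩)
  · exact h' (.of_notMem hv)

theorem reach_mono {F : Set V} {y : V} {ω ω' : Finset K} (h : ω ⊆ ω') {u : V}
    (hu : Reach G key F y ω u) : Reach G key F y ω' u := by
  induction hu with
  | base => exact .base
  | step _ hadj hF hk ih => exact .step ih hadj hF (h hk)

theorem reach_mem {S : Finset V} {y : V} (hy : y ∈ S) {ω : Finset K} {u : V}
    (hu : Reach G key ((S : Set V) ∩ Set.univ) y ω u) : u ∈ S := by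
  cases hu with
  | base => exact hy
  | step _ _ hF _ => exact hF.1

theorem esc_of_reach {L : Finset V} {F : Set V} {y : V} {ω : Finset K} {u : V}
    (hu : Reach G key F y ω u) (he : Esc G key L ω u) : Esc G key L ω y := by
  induction hu with
  | base => exact he
  | step _ hadj _ hk ih => exact ih (he.head hadj hk)

theorem exit_mono {S : Finset V} {F : Set V} {y : V} {ω ω' : Finset K} (h : ω ⊆ ω') {κ : K}
    (hκ : Exit G key S F y ω κ) : Exit G key S F y ω' κ :=
  let ⟨u, v, h1, h2⟩ := hκ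
  ⟨u, v, reach_mono h h1, h2⟩

theorem exit_mem {S : Finset V} {Ω : Finset K} (hΩ : KeysOK G key S Ω) {y : V} (hy : y ∈ S)
    {ω : Finset K} {κ : K} (hκ : Exit G key S Set.univ y ω κ) : κ ∈ Ω := by
  obtain ⟨u, v, h1, h2, -, -, rfl⟩ := hκ
  exact hΩ u u v (reach_mem hy h1) (Or.inl rfl) h2

theorem NE_eq {S : Finset V} {Ω : Finset K} (hΩ : KeysOK G key S Ω) {y : V} (hy : y ∈ S)
    (ω : Finset K) : NE G key S Set.univ y ω = ENNReal.ofReal (NEr G key Ω S y ω) := by
  rw [NE, NEr, tsum_eq_sum (s := Ω) fun κ hκ => ind_of_not fun h => hκ (exit_mem hΩ hy h),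
    ENNReal.ofReal_sum_of_nonneg fun _ _ => indr_nonneg _]
  exact sum_congr rfl fun κ _ => ind_eq _

theorem NEr_nonneg (Ω : Finset K) (S : Finset V) (o : V) (ω : Finset K) :
    0 ≤ NEr G key Ω S o ω := sum_nonneg fun _ _ => indr_nonneg _

theorem NEr_lower {o : V} {p₀ : unitInterval} (h : Phi G key (toE p₀) o) {S : Finset V}
    (hS : o ∈ S) {Ω : Finset K} (hΩ : KeysOK G key S Ω) {p : ℝ} (h0 : (p₀ : ℝ) ≤ p)
    (h1 : p ≤ 1) : 1 / 8 ≤ Ex Ω p (NEr G key Ω S o) := by
  have h2 := h S hS Ω hΩ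
  have h3 : NE G key S Set.univ o = fun ω => ENNReal.ofReal (NEr G key Ω S o ω) :=
    funext (NE_eq hΩ hS)
  have h4 : 0 ≤ Ex Ω p₀ (NEr G key Ω S o) := Ex_nonneg p₀.2.1 p₀.2.2 (NEr_nonneg Ω S o)
  rw [h3, EX_ofReal p₀ (NEr_nonneg Ω S o), toE_eq, ← ENNReal.ofReal_mul p₀.2.1,
    ← ENNReal.ofReal_ofNat 8, ← ENNReal.ofReal_mul (by norm_num), ← ENNReal.ofReal_one,
    ENNReal.ofReal_le_ofReal_iff (mul_nonneg (by norm_num) (mul_nonneg p₀.2.1 h4))] at h2
  have h5 : Ex Ω p₀ (NEr G key Ω S o) ≤ Ex Ω p (NEr G key Ω S o) :=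
    Ex_mono_p p₀.2.1 h0 h1 fun s t hst => sum_le_sum fun κ _ => indr_mono (exit_mono hst)
  have h6 := mul_le_mul_of_nonneg_right p₀.2.2 h4
  linarith

theorem key_ne {m : Bool} (hkey : IsKey m key) {S : Finset V} {a b u u' : V} (hb : b ∉ S)
    (hu : u ∈ S) (hu' : u' ∈ S) : key a b ≠ key u u' := by
  intro h
  have h' := (hkey a b u u').1 h
  unfold KE at h'
  split_ifs at h'
  · exact hb (h' ▸ hu')
  · rcases h' with h' | h'
    · exact hb (h'.2 ▸ hu')
    · exact hb (h'.2 ▸ hu)

/-- the trap only depends on the keys of darts with head outside the trap -/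
theorem trap_congr {L S : Finset V} {ω ω' : Finset K}
    (hω : ∀ a b, b ∉ S → (key a b ∈ ω ↔ key a b ∈ ω')) (h : trap G key L ω = S) :
    trap G key L ω' = S := by
  have hSL : ∀ v ∈ S, v ∈ L := fun v hv => (mem_trap.1 (h ▸ hv)).1
  have hesc : ∀ v, v ∉ S → Esc G key L ω v := fun v hv => esc_of_notMem_trap (h ▸ hv)
  have hnesc : ∀ v ∈ S, ¬Esc G key L ω v := fun v hv => (mem_trap.1 (h ▸ hv)).2
  ext v
  rw [mem_trap]
  constructor
  · rintro ⟨-, hv⟩
    by_contra hvS
    obtain ⟨x, hx, hp⟩ := hesc v hvS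
    refine hv ?_
    clear hv hvS
    induction hp using Relation.ReflTransGen.head_induction_on with
    | refl => exact .of_notMem hx
    | head hab hp ih =>
      exact ih.head hab.1 ((hω _ _ fun hb => hnesc _ hb ⟨x, hx, hp⟩).1 hab.2)
  · intro hv
    refine ⟨hSL v hv, ?_⟩
    rintro ⟨x, hx, hp⟩
    induction hp using Relation.ReflTransGen.head_induction_on with
    | refl => exact hx (hSL _ hv)
    | @head a b hab hp ih =>
      by_cases hb : b ∈ S
      · exact ih hb
      · exact hnesc a hv ((hesc b hb).head hab.1 ((hω _ _ hb).2 hab.2))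

theorem indep [DecidableEq K] {m : Bool} (hkey : IsKey m key) (L : Finset V) (Ω : Finset K)
    {S : Finset V} {o : V} (ho : o ∈ S) (κ : K) :
    (∀ s, indr (trap G key L (insert κ s) = S) = indr (trap G key L s = S)) ∨
      ∀ s, NEr G key Ω S o (insert κ s) = NEr G key Ω S o s := by
  by_cases hκ : ∃ u ∈ S, ∃ u' ∈ S, key u u' = κ
  · obtain ⟨u, hu, u', hu', rfl⟩ := hκ
    refine Or.inl fun s => indr_congr ?_
    have : ∀ a b, b ∉ S → (key a b ∈ insert (key u u') s ↔ key a b ∈ s) := fun a b hb => by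
      simp [key_ne hkey hb hu hu']
    exact ⟨trap_congr this, trap_congr fun a b hb => (this a b hb).symm⟩
  · refine Or.inr fun s => sum_congr rfl fun x _ => indr_congr ⟨?_, exit_mono (subset_insert _ _)⟩
    rintro ⟨u, v, h1, h2⟩
    refine ⟨u, v, ?_, h2⟩
    clear h2
    induction h1 with
    | base => exact .base
    | @step a b ha hadj hF hk ih =>
      refine .step ih hadj hF ((mem_insert.1 hk).resolve_left fun e => hκ ?_)
      exact ⟨a, reach_mem ho ha, b, hF.1, e⟩

open Classical in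
theorem pointwise (L : Finset V) (Ω : Finset K) (o : V) (s : Finset K) :
    ∑ S ∈ L.powerset.filter (o ∈ ·), indr (trap G key L s = S) * NEr G key Ω S o s ≤
      ∑ κ ∈ Ω, (indr (Esc G key L (insert κ s : Finset K) o) - indr (Esc G key L s o)) := by
  by_cases ho : o ∈ trap G key L s
  · rw [sum_eq_single (trap G key L s) (fun S _ hS => by rw [indr_of_not hS.symm, zero_mul])
      (fun h => (h (mem_filter.2 ⟨mem_powerset.2 (filter_subset _ _), ho⟩)).elim),
      indr_of rfl, one_mul, indr_of_not (mem_trap.1 ho).2]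
    refine sum_le_sum fun κ _ => ?_
    rw [sub_zero]
    refine indr_mono ?_
    rintro ⟨u, v, h1, h2, h3, -, rfl⟩
    have hsub : s ⊆ insert (key u v) s := subset_insert _ _
    refine esc_of_reach (reach_mono hsub h1) (Esc.head h2 ?_ ?_)
    · exact mem_coe.2 (mem_insert_self _ _)
    · exact (esc_of_notMem_trap h3).mono (coe_subset.2 hsub)
  · rw [sum_eq_zero fun S hS => by
      have hne : ¬trap G key L s = S := fun h => ho (h ▸ (mem_filter.1 hS).2)
      rw [indr_of_not hne, zero_mul]]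
    exact sum_nonneg fun κ _ => sub_nonneg.2
      (indr_mono (Esc.mono (coe_subset.2 (subset_insert _ _))))

open Classical in
theorem sum_trap {L : Finset V} {o : V} (ho : o ∈ L) (s : Finset K) :
    ∑ S ∈ L.powerset.filter (o ∈ ·), indr (trap G key L s = S) = 1 - indr (Esc G key L s o) := by
  by_cases h : Esc G key L s o
  · rw [indr_of h, sub_self]
    exact sum_eq_zero fun S hS =>
      indr_of_not fun e => (mem_trap.1 (e ▸ (mem_filter.1 hS).2)).2 h
  · have hm : trap G key L s ∈ L.powerset.filter (o ∈ ·) :=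
      mem_filter.2 ⟨mem_powerset.2 (filter_subset _ _), mem_trap.2 ⟨ho, h⟩⟩
    rw [sum_eq_single (trap G key L s) (fun S _ hS => indr_of_not hS.symm)
      (fun h' => (h' hm).elim), indr_of rfl, indr_of_not h, sub_zero]

open Classical in
/-- the differential inequality -/
theorem diff_ineq {m : Bool} (hkey : IsKey m key) {o : V} {p₀ : unitInterval}
    (h : Phi G key (toE p₀) o) {L : Finset V} (ho : o ∈ L) {Ω : Finset K}
    (hΩ : KeysOK G key L Ω) {p : ℝ} (h0 : (p₀ : ℝ) ≤ p) (h1 : p ≤ 1) :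
    (1 - Ex Ω p fun s => indr (Esc G key L s o)) / 8 ≤
      ∑ κ ∈ Ω, Ex (Ω.erase κ) p fun s =>
        indr (Esc G key L (insert κ s : Finset K) o) - indr (Esc G key L s o) := by
  have hp : 0 ≤ p := p₀.2.1.trans h0
  calc (1 - Ex Ω p fun s => indr (Esc G key L s o)) / 8
      = ∑ S ∈ L.powerset.filter (o ∈ ·),
          (Ex Ω p fun s => indr (trap G key L s = S)) * (1 / 8) := by
        rw [← sum_mul, ← Ex_sum]
        simp only [sum_trap ho]
        rw [Ex_sub, Ex_const]; ring
    _ ≤ ∑ S ∈ L.powerset.filter (o ∈ ·),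
          Ex Ω p fun s => indr (trap G key L s = S) * NEr G key Ω S o s := by
        refine sum_le_sum fun S hS => ?_
        have hS' := mem_filter.1 hS
        rw [Ex_mul (indep hkey L Ω hS'.2)]
        exact mul_le_mul_of_nonneg_left
          (NEr_lower h hS'.2 (fun a b c ha => hΩ a b c (mem_powerset.1 hS'.1 ha)) h0 h1)
          (Ex_nonneg hp h1 fun _ => indr_nonneg _)
    _ ≤ ∑ κ ∈ Ω, Ex Ω p fun s =>
          indr (Esc G key L (insert κ s : Finset K) o) - indr (Esc G key L s o) := by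
        rw [← Ex_sum, ← Ex_sum]
        exact Ex_mono hp h1 (pointwise L Ω o)
    _ ≤ _ := by
        refine sum_le_sum fun κ hκ => ?_
        rw [Ex_piv hκ fun s : Finset K => indr (Esc G key L s o)]
        refine mul_le_of_le_one_left (Ex_nonneg hp h1 fun s => sub_nonneg.2 ?_) (by linarith)
        exact indr_mono (Esc.mono (coe_subset.2 (subset_insert _ _)))

theorem esc_lower {m : Bool} (hkey : IsKey m key) {o : V} {p₀ p₁ : unitInterval} (h01 : p₀ < p₁)
    (h : Phi G key (toE p₀) o) {L : Finset V} (ho : o ∈ L) {Ω : Finset K}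
    (hΩ : KeysOK G key L Ω) :
    ((p₁ : ℝ) - p₀) / 9 ≤ Ex Ω p₁ fun s => indr (Esc G key L s o) := by
  classical
  have hlt : (p₀ : ℝ) < p₁ := h01
  obtain ⟨c, hc, hc'⟩ := exists_hasDerivAt_eq_slope
    (fun q => Ex Ω q fun s : Finset K => indr (Esc G key L s o)) _ hlt
    (fun q _ => (Ex_deriv Ω _ q).continuousAt.continuousWithinAt) fun q _ => Ex_deriv Ω _ q
  have h1 := diff_ineq hkey h ho hΩ hc.1.le (hc.2.le.trans p₁.2.2)
  have h2 : (Ex Ω c fun s => indr (Esc G key L s o)) ≤ Ex Ω p₁ fun s => indr (Esc G key L s o) :=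
    Ex_mono_p (p₀.2.1.trans hc.1.le) hc.2.le p₁.2.2 fun s t hst =>
      indr_mono (Esc.mono (coe_subset.2 hst))
  have h3 : 0 ≤ Ex Ω p₀ fun s => indr (Esc G key L s o) :=
    Ex_nonneg p₀.2.1 p₀.2.2 fun _ => indr_nonneg _
  have h4 : 0 ≤ Ex Ω p₁ fun s => indr (Esc G key L s o) :=
    Ex_nonneg p₁.2.1 p₁.2.2 fun _ => indr_nonneg _
  have h5 := h1.trans_eq hc'
  rw [le_div_iff₀ (sub_pos.2 hlt)] at h5
  have h6 : (p₁ : ℝ) - p₀ ≤ 1 := by linarith [p₀.2.1, p₁.2.2]
  have h7 := mul_le_mul_of_nonneg_right h2 (sub_pos.2 hlt).le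
  have h8 := mul_le_mul_of_nonneg_left h6 h4
  linarith

open Classical in
/-- the points reachable from `o` in at most `n` steps -/
noncomputable def ball (hfin : ∀ v, (G.neighborSet v).Finite) (o : V) : ℕ → Finset V
  | 0 => {o}
  | n + 1 => ball hfin o n ∪ (ball hfin o n).biUnion fun v => (hfin v).toFinset

variable (hfin : ∀ v, (G.neighborSet v).Finite)

theorem ball_succ (o : V) (n : ℕ) : ball hfin o n ⊆ ball hfin o (n + 1) := by
  classical
  intro x hx
  simp only [ball, mem_union]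
  exact Or.inl hx

theorem ball_mono (o : V) : Monotone (ball hfin o) := monotone_nat_of_le_succ (ball_succ hfin o)

theorem ball_adj {o : V} {n : ℕ} {a b : V} (ha : a ∈ ball hfin o n) (h : G.Adj a b) :
    b ∈ ball hfin o (n + 1) := by
  simp only [ball, mem_union, mem_biUnion, Set.Finite.mem_toFinset]
  exact Or.inr ⟨a, ha, h⟩

theorem mem_ball (o : V) (n : ℕ) : o ∈ ball hfin o n :=
  ball_mono hfin o (Nat.zero_le n) (by simp [ball])

variable (key) in
open Classical in
/-- the keys of the darts with tail in `L` -/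
noncomputable def keys (L : Finset V) : Finset K :=
  L.biUnion fun b => (hfin b).toFinset.image (key b)

theorem mem_keys {L : Finset V} {κ : K} :
    κ ∈ keys key hfin L ↔ ∃ b ∈ L, ∃ c, G.Adj b c ∧ key b c = κ := by
  simp [keys]

theorem keysOK (o : V) (n : ℕ) :
    KeysOK G key (ball hfin o n) (keys key hfin (ball hfin o (n + 1))) := by
  intro a b c ha hb hc
  refine (mem_keys hfin).2 ⟨b, ?_, c, hc, rfl⟩
  rcases hb with rfl | hb
  · exact ball_succ hfin o n ha
  · exact ball_adj hfin ha hb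

theorem esc_tr {L : Finset V} {Ω : Finset K} (hΩ : KeysOK G key L Ω) (w : Set K) (v : V) :
    Esc G key L (tr Ω w) v ↔ Esc G key L w v := by
  refine ⟨Esc.mono fun x hx => (mem_tr.1 hx).2, ?_⟩
  rintro ⟨x, hx, hp⟩
  induction hp using Relation.ReflTransGen.head_induction_on with
  | refl => exact .of_notMem hx
  | @head a b hab _ ih =>
    by_cases ha : a ∈ L
    · exact ih.head hab.1 (mem_tr.2 ⟨hΩ a a b ha (Or.inl rfl) hab.1, hab.2⟩)
    · exact .of_notMem ha

theorem infinite_of_esc {o : V} {w : Set K} (h : ∀ n, Esc G key (ball hfin o n) w o) :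
    {x | Relation.ReflTransGen (fun a b => G.Adj a b ∧ key a b ∈ w) o x}.Infinite := by
  intro hf
  have h1 : ∀ x, Relation.ReflTransGen (fun a b => G.Adj a b ∧ key a b ∈ w) o x →
      ∃ n, x ∈ ball hfin o n := by
    intro x hx
    induction hx with
    | refl => exact ⟨0, mem_ball hfin o 0⟩
    | tail _ hab ih => exact ih.elim fun n hn => ⟨n + 1, ball_adj hfin hn hab.1⟩
  choose! r hr using h1
  obtain ⟨N, hN⟩ := (hf.image r).bddAbove
  obtain ⟨x, hx, hp⟩ := h N
  exact hx (ball_mono hfin o (hN ⟨x, hp, rfl⟩) (hr x hp))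

/-- an infinite cluster contains arbitrarily long self-avoiding open paths -/
theorem os_of_infinite {v : V} {w : Set K}
    (h : {x | Relation.ReflTransGen (fun a b => G.Adj a b ∧ key a b ∈ w) v x}.Infinite) (M : ℕ) :
    OS G key (tr (keys key hfin (ball hfin v M)) w) v M := by
  classical
  let P : ℕ → V → Prop := fun n x => ∃ f : ℕ → V, f 0 = v ∧ f n = x ∧
    ∀ i < n, G.Adj (f i) (f (i + 1)) ∧ key (f i) (f (i + 1)) ∈ w
  have hb : ∀ (f : ℕ → V) (n : ℕ), f 0 = v → (∀ i < n, G.Adj (f i) (f (i + 1))) →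
      ∀ i ≤ n, f i ∈ ball hfin v i := by
    intro f n h0 hf i hi
    induction i with
    | zero => rw [h0]; exact mem_ball hfin v 0
    | succ i ih => exact ball_adj hfin (ih (by omega)) (hf i (by omega))
  obtain ⟨x, hx, hxb⟩ := h.exists_notMem_finset (ball hfin v M)
  have hP : ∃ n, P n x := by
    clear hxb
    induction hx with
    | refl => exact ⟨0, fun _ => v, rfl, rfl, fun i hi => absurd hi (Nat.not_lt_zero i)⟩
    | @tail a b _ hab ih =>
      obtain ⟨n, f, h0, hn, hf⟩ := ih
      refine ⟨n + 1, fun i => if i ≤ n then f i else b, by simp [h0], by simp, fun i hi => ?_⟩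
      by_cases hi' : i < n
      · simp only [if_pos hi'.le, if_pos (Nat.succ_le_of_lt hi')]
        exact hf i hi'
      · obtain rfl : i = n := by omega
        simp only [le_refl, if_true, Nat.not_succ_le_self, if_false, hn]
        exact hab
  obtain ⟨f, h0, hn, hf⟩ := Nat.find_spec hP
  have hmin : ∀ n < Nat.find hP, ¬P n x := fun n hn => Nat.find_min hP hn
  generalize Nat.find hP = N at hn hf hmin
  have hball := hb f N h0 fun i hi => (hf i hi).1
  have hMN : M < N := by
    by_contra hc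
    exact hxb (ball_mono hfin v (not_lt.1 hc) (hn ▸ hball N le_rfl))
  have hinj : ∀ i j, i < j → j ≤ N → f i ≠ f j := by
    intro i j hij hj e
    refine hmin (N - (j - i)) (by omega)
      ⟨fun t => if t ≤ i then f t else f (t + (j - i)), by simp [h0], ?_, fun t ht => ?_⟩
    · by_cases hc : N - (j - i) ≤ i
      · obtain rfl : j = N := by omega
        simp only [if_pos hc]
        rw [show j - (j - i) = i by omega, e, hn]
      · simp only [if_neg hc]
        rw [show N - (j - i) + (j - i) = N by omega, hn]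
    · by_cases h1 : t < i
      · simp only [if_pos h1.le, if_pos (Nat.succ_le_of_lt h1)]
        exact hf t (by omega)
      · have h2 : (if t ≤ i then f t else f (t + (j - i))) = f (t + (j - i)) := by
          split_ifs with h3
          · obtain rfl : t = i := by omega
            rw [e, show t + (j - t) = j by omega]
          · rfl
        simp only [h2, if_neg (show ¬t + 1 ≤ i by omega)]
        rw [show t + 1 + (j - i) = t + (j - i) + 1 by omega]
        exact hf _ (by omega)
  refine ⟨f, h0, fun i hi => ⟨(hf i (by omega)).1, mem_tr.2 ⟨?_, (hf i (by omega)).2⟩⟩,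
    fun i hi j hj e => ?_⟩
  · exact (mem_keys hfin).2 ⟨f i, ball_mono hfin v hi.le (hball i (by omega)), _,
      (hf i (by omega)).1, rfl⟩
  · rcases lt_trichotomy i j with h1 | h1 | h1
    · exact absurd e (hinj i j h1 (by omega))
    · exact h1
    · exact absurd e.symm (hinj j i h1 (by omega))

theorem keys_sub {U : Set K} (hU : ∀ a b, G.Adj a b → key a b ∈ U) (L : Finset V) :
    ∀ x ∈ keys key hfin L, x ∈ U := by
  intro x hx
  obtain ⟨b, -, c, h, rfl⟩ := (mem_keys hfin).1 hx
  exact hU b c h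

end comb

end DCT

variable {V K : Type} {G : SimpleGraph V} {key : V → V → K}

theorem dct (hfin : ∀ v, (G.neighborSet v).Finite) {m : Bool} (hkey : IsKey m key) {U : Set K}
    (hU : ∀ a b, G.Adj a b → key a b ∈ U) (o : V) {p₀ p₁ : unitInterval} (h01 : p₀ < p₁)
    (h : Phi G key (toE p₀) o) :
    0 < ProbabilityTheory.setBernoulli U p₁
      {ω : Set K | {w | Relation.ReflTransGen (fun a b => G.Adj a b ∧ key a b ∈ ω) o w}.Infinite} := by
  have hlt : (p₀ : ℝ) < p₁ := h01
  let A : ℕ → Set (Set K) := fun n => {w | DCT.Esc G key (DCT.ball hfin o n) w o}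
  have hA : ∀ n, A n = {w | DCT.Esc G key (DCT.ball hfin o n)
      (DCT.tr (DCT.keys key hfin (DCT.ball hfin o (n + 1))) w) o} := fun n =>
    Set.ext fun w => (DCT.esc_tr (DCT.keysOK hfin o n) w o).symm
  have hanti : Antitone A := fun i j hij w ⟨x, hx, hp⟩ =>
    ⟨x, fun hx' => hx (DCT.ball_mono hfin o hij hx'), hp⟩
  have hmeas : ∀ n, MeasurableSet (A n) := fun n => by
    rw [hA]
    exact DCT.measurableSet_tr _ fun s : Finset K => DCT.Esc G key (DCT.ball hfin o n) s o
  have hlow : ∀ n, ENNReal.ofReal (((p₁ : ℝ) - p₀) / 9) ≤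
      ProbabilityTheory.setBernoulli U p₁ (A n) := fun n => by
    rw [hA, DCT.bridge (DCT.keys_sub hfin hU _) p₁
      fun s : Finset K => DCT.Esc G key (DCT.ball hfin o n) s o]
    simp only [DCT.ind_eq]
    rw [DCT.EX_ofReal p₁ fun _ => DCT.indr_nonneg _]
    exact ENNReal.ofReal_le_ofReal
      (DCT.esc_lower hkey h01 h (DCT.mem_ball hfin o n) (DCT.keysOK hfin o n))
  calc 0 < ENNReal.ofReal (((p₁ : ℝ) - p₀) / 9) := ENNReal.ofReal_pos.2 (by linarith)
    _ ≤ ⨅ n, ProbabilityTheory.setBernoulli U p₁ (A n) := le_iInf hlow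
    _ = ProbabilityTheory.setBernoulli U p₁ (⋂ n, A n) :=
        (hanti.measure_iInter (fun n => (hmeas n).nullMeasurableSet)
          ⟨0, MeasureTheory.measure_ne_top _ _⟩).symm
    _ ≤ _ := MeasureTheory.measure_mono fun w hw =>
        DCT.infinite_of_esc hfin fun n => Set.mem_iInter.1 hw n

theorem perc_of_pos [Countable V] (hfin : ∀ v, (G.neighborSet v).Finite) {U : Set K}
    (hU : ∀ a b, G.Adj a b → key a b ∈ U) {p : unitInterval}
    (h : 0 < ProbabilityTheory.setBernoulli U p {ω : Set K | ∃ v,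
      {w | Relation.ReflTransGen (fun a b => G.Adj a b ∧ key a b ∈ ω) v w}.Infinite}) :
    Perc G key (toE p) := by
  rw [Set.ofPred_exists, pos_iff_ne_zero, Ne, MeasureTheory.measure_iUnion_null_iff,
    not_forall] at h
  obtain ⟨v, hv⟩ := h
  refine ⟨_, hv, v, fun M => ⟨DCT.keys key hfin (DCT.ball hfin v M), ?_⟩⟩
  rw [← DCT.bridge (DCT.keys_sub hfin hU _) p fun s => OS G key s v M]
  exact MeasureTheory.measure_mono fun w hw => DCT.os_of_infinite hfin hw M

end Pool.Agent.P.MP_e4ac67_pr
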