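import Mathlib

/-!
Plane triangulations (as simply connected oriented triangulated surfaces), connective constant,
site and bond percolation thresholds.
-/

open scoped ENNReal

namespace Pool.Agent.P.MP_e4ac67_pr

/-- Elementary homotopies of edge paths written as vertex lists: cancel a backtrack, or
replace two sides of a triangular face by the third side. -/
inductive Move {V : Type} (G : SimpleGraph V) (nx : V → V → V) : List V → List V → Prop
  | back (l r : List V) (a b : V) : G.Adj a b → Move G nx (l ++ a :: b :: a :: r) (l ++ a :: r)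
  | tri (l r : List V) (a b : V) : G.Adj a b →
      Move G nx (l ++ a :: b :: nx a b :: r) (l ++ a :: nx a b :: r)

/-- A plane triangulation: `nx v w` is the neighbour of `v` following `w` counterclockwise. -/
structure PlaneTri (V : Type) where
  G : SimpleGraph V
  nx : V → V → V
  conn : G.Connected
  locFin : ∀ v, (G.neighborSet v).Finite
  adj_nx : ∀ v w, G.Adj v w → G.Adj v (nx v w) ∧ G.Adj w (nx v w)
  face : ∀ v w, G.Adj v w → nx w (nx v w) = v
  cyc : ∀ v a b, G.Adj v a → G.Adj v b → ∃ n : ℕ, (nx v)^[n] a = b
  simplyConn : ∀ (v : V) (c : G.Walk v v), Relation.EqvGen (Move G nx) c.support [v]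

/-- The degree of a vertex. -/
noncomputable def PlaneTri.deg {V : Type} (T : PlaneTri V) (v : V) : ℕ :=
  (T.G.neighborSet v).ncard

/-- The number of self-avoiding walks with `n` steps starting at `v`. -/
noncomputable def sawCount {V : Type} (G : SimpleGraph V) (v : V) (n : ℕ) : ℕ∞ :=
  {l : List V | l.length = n + 1 ∧ l.head? = some v ∧ l.IsChain G.Adj ∧ l.Nodup}.encard

/-- The connective constant `limsup c_n(v)^(1/n)`. -/
noncomputable def connConst {V : Type} (G : SimpleGraph V) (v : V) : ℝ≥0∞ :=
  Filter.limsup (fun n : ℕ => (sawCount G v n : ℝ≥0∞) ^ ((1 : ℝ) / n)) Filter.atTop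

/-- The site percolation threshold. -/
noncomputable def pcSite {V : Type} (G : SimpleGraph V) : unitInterval :=
  sInf {p : unitInterval | 0 < ProbabilityTheory.setBernoulli (Set.univ : Set V) p
    {ω : Set V | ∃ v, {w | Relation.ReflTransGen
      (fun a b => G.Adj a b ∧ a ∈ ω ∧ b ∈ ω) v w}.Infinite}}

/-- The bond percolation threshold. -/
noncomputable def pcBond {V : Type} (G : SimpleGraph V) : unitInterval :=
  sInf {p : unitInterval | 0 < ProbabilityTheory.setBernoulli G.edgeSet p
    {ω : Set (Sym2 V) | ∃ v, {w | Relation.ReflTransGen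
      (fun a b => G.Adj a b ∧ s(a, b) ∈ ω) v w}.Infinite}}

end Pool.Agent.P.MP_e4ac67_pr
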