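import Pool.Agent.P.MP_e4ac67_pr.EXLib
import Pool.Agent.P.MP_e4ac67_pr.Geo

/-! TASK TREE: the first-moment condition for large `p`. -/

open scoped ENNReal

namespace Pool.Agent.P.MP_e4ac67_pr
namespace PlaneTri
variable {V K : Type} {T : PlaneTri V} {k : ℕ}

/-- vertices joined to `o` by a geodesic inside `S` -/
inductive Gd (T : PlaneTri V) (S : Finset V) (o : V) : V → Prop
  | base : Gd T S o o
  | step {u v : V} : Gd T S o u → T.G.Adj u v → v ∈ S → T.d o v = T.d o u + 1 → Gd T S o v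

theorem Gd.mem {S : Finset V} {o v : V} (ho : o ∈ S) (h : Gd T S o v) : v ∈ S := by
  cases h with
  | base => exact ho
  | step _ _ hv _ => exact hv

theorem Gd.keys {S : Finset V} {o : V} (ho : o ∈ S) {key : V → V → K} {Ω : Finset K}
    (hΩ : KeysOK T.G key S Ω) {v : V} (h : Gd T S o v) :
    ∃ B : Finset K, B ⊆ Ω ∧ B.card ≤ T.d o v ∧
      ∀ ω : Finset K, B ⊆ ω → Reach T.G key ((S : Set V) ∩ Set.univ) o ω v := by
  classical
  induction h with
  | base => exact ⟨∅, Finset.empty_subset _, by simp, fun _ _ => Reach.base⟩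
  | @step u v hu huv hv hd ih =>
    obtain ⟨B, hB, hc, hR⟩ := ih
    refine ⟨insert (key u v) B, ?_, ?_, fun ω hω => ?_⟩
    · exact Finset.insert_subset (hΩ u u v (hu.mem ho) (Or.inl rfl) huv) hB
    · exact (Finset.card_insert_le _ _).trans (by omega)
    · exact Reach.step (hR ω ((Finset.subset_insert _ _).trans hω)) huv ⟨hv, trivial⟩
        (hω (Finset.mem_insert_self _ _))

theorem EX_sub_ge {ι : Type} {Ω B : Finset ι} {p : ℝ≥0∞} (hp : p ≤ 1) (hB : B ⊆ Ω) {n : ℕ}
    (hn : B.card ≤ n) {A : Finset ι → Prop} (hA : ∀ ω, B ⊆ ω → A ω) :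
    p ^ n ≤ EX Ω p fun ω => ind (A ω) := by
  classical
  have h := EX_force (Ω := Ω) (f := fun _ => 1) hp hB (Finset.empty_subset Ω)
    (Finset.disjoint_empty_right B) (fun _ _ _ => rfl)
  rw [EX_const hp] at h
  calc p ^ n ≤ p ^ B.card := pow_le_pow_right_of_le_one' hp hn
    _ = EX Ω p fun s => ind (B ⊆ s ∧ Disjoint ∅ s) * 1 := by rw [h]; simp
    _ ≤ _ := EX_mono fun s _ => by
        rw [mul_one]; exact ind_mono fun h => hA s h.1

/-- exit vertices -/
def Xt (T : PlaneTri V) (S : Finset V) (o v : V) : Prop :=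
  v ∉ S ∧ ∃ u, Gd T S o u ∧ T.G.Adj u v ∧ T.d o v = T.d o u + 1

open Classical in
theorem layer (hT : ∀ v, k ≤ T.deg v) (hk : 20 ≤ k) (S : Finset V) (o : V) (n : ℕ) :
    (S.filter fun v => Gd T S o v ∧ T.d o v = n).card * (k - 4) ≤
      ((S.filter fun v => Gd T S o v ∧ T.d o v = n + 1).card +
        (((S.biUnion T.nbr).filter (Xt T S o)).filter fun v => T.d o v = n + 1).card) * 4 := by
  have h6 : ∀ v, 6 ≤ T.deg v := fun v => (by omega : 6 ≤ k).trans (hT v)
  refine le_trans ?_ (Nat.mul_le_mul_right 4 (Finset.card_union_le _ _))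
  refine Finset.card_mul_le_card_mul (fun a b => T.G.Adj a b) ?_ ?_
  · intro u hu
    obtain ⟨huS, hu, hd⟩ := Finset.mem_filter.1 hu
    have h1 := st4 h6 o u
    have h2 := Finset.card_filter_add_card_filter_not (s := T.nbr u)
      (fun w => T.d o w ≤ T.d o u)
    rw [card_nbr] at h2
    have h3 := hT u
    refine le_trans (by omega : k - 4 ≤ ((T.nbr u).filter fun w => ¬T.d o w ≤ T.d o u).card) ?_
    refine Finset.card_le_card fun w hw => ?_
    obtain ⟨hw, hlt⟩ := Finset.mem_filter.1 hw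
    have hw' := mem_nbr.1 hw
    have hle := d_adj_le o hw'
    have hdw : T.d o w = T.d o u + 1 := by omega
    refine Finset.mem_filter.2 ⟨Finset.mem_union.2 ?_, hw'⟩
    by_cases hS : w ∈ S
    · exact Or.inl (Finset.mem_filter.2 ⟨hS, Gd.step hu hw' hS hdw, by omega⟩)
    · refine Or.inr (Finset.mem_filter.2 ⟨Finset.mem_filter.2 ⟨?_, hS, u, hu, hw', hdw⟩, by omega⟩)
      exact Finset.mem_biUnion.2 ⟨u, huS, hw⟩
  · intro w hw
    have hdw : T.d o w = n + 1 := by
      rcases Finset.mem_union.1 hw with h | h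
      · exact (Finset.mem_filter.1 h).2.2
      · exact (Finset.mem_filter.1 h).2
    refine le_trans (Finset.card_le_card fun u hu => ?_) (st4 h6 o w)
    obtain ⟨hu, huw⟩ := Finset.mem_filter.1 hu
    have hdu := (Finset.mem_filter.1 hu).2.2
    exact Finset.mem_filter.2 ⟨mem_nbr.2 huw.symm, by omega⟩

open Classical in
theorem layer_sum (hT : ∀ v, k ≤ T.deg v) (hk : 20 ≤ k) {p : ℝ≥0∞} (h5 : 5 ≤ k * p)
    {S : Finset V} {o : V} (ho : o ∈ S) (N : ℕ) :
    1 ≤ p ^ N * ((S.filter fun v => Gd T S o v ∧ T.d o v = N).card : ℝ≥0∞) +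
      ∑ v ∈ ((S.biUnion T.nbr).filter (Xt T S o)).filter (fun v => T.d o v ≤ N), p ^ T.d o v := by
  have h4 : (4 : ℝ≥0∞) ≤ p * ((k - 4 : ℕ) : ℝ≥0∞) := by
    have hk' : ((4 * k : ℕ) : ℝ≥0∞) ≤ ((5 * (k - 4) : ℕ) : ℝ≥0∞) := by
      exact_mod_cast (by omega : 4 * k ≤ 5 * (k - 4))
    push_cast [-ENNReal.natCast_sub] at hk'
    refine (ENNReal.mul_le_mul_iff_right (a := 5) (by norm_num) (by norm_num)).1 ?_
    calc (5 : ℝ≥0∞) * 4 = 4 * 5 := mul_comm _ _
      _ ≤ 4 * (k * p) := by gcongr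
      _ = (4 * k) * p := by ring
      _ ≤ (5 * ((k - 4 : ℕ) : ℝ≥0∞)) * p := by gcongr
      _ = _ := by ring
  induction N with
  | zero =>
    have : 1 ≤ (S.filter fun v => Gd T S o v ∧ T.d o v = 0).card :=
      Finset.card_pos.2 ⟨o, Finset.mem_filter.2 ⟨ho, Gd.base, d_self o⟩⟩
    refine le_trans ?_ le_self_add
    rw [pow_zero, one_mul]
    exact_mod_cast this
  | succ N ih =>
    set Y := (S.biUnion T.nbr).filter (Xt T S o) with hY
    have hsplit : ∑ v ∈ Y.filter (fun v => T.d o v ≤ N + 1), p ^ T.d o v =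
        ∑ v ∈ Y.filter (fun v => T.d o v ≤ N), p ^ T.d o v +
          p ^ (N + 1) * ((Y.filter fun v => T.d o v = N + 1).card : ℝ≥0∞) := by
      have hu : Y.filter (fun v => T.d o v ≤ N + 1) =
          Y.filter (fun v => T.d o v ≤ N) ∪ Y.filter (fun v => T.d o v = N + 1) := by
        rw [← Finset.filter_or]
        exact Finset.filter_congr fun v _ => by omega
      rw [hu, Finset.sum_union (Finset.disjoint_filter.2 fun v _ h1 h2 => by omega)]
      congr 1
      rw [Finset.sum_congr rfl (g := fun _ => p ^ (N + 1))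
        fun v hv => by rw [(Finset.mem_filter.1 hv).2]]
      rw [Finset.sum_const, nsmul_eq_mul, mul_comm]
    have hl := layer hT hk S o N
    rw [← hY] at hl
    set a := (S.filter fun v => Gd T S o v ∧ T.d o v = N).card
    set b := (S.filter fun v => Gd T S o v ∧ T.d o v = N + 1).card
    set c := (Y.filter fun v => T.d o v = N + 1).card
    have hl' : (a : ℝ≥0∞) * ((k - 4 : ℕ) : ℝ≥0∞) ≤ ((b : ℝ≥0∞) + c) * 4 := by exact_mod_cast hl
    have hstep : p ^ N * (a : ℝ≥0∞) ≤ p ^ (N + 1) * b + p ^ (N + 1) * c := by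
      refine (ENNReal.mul_le_mul_iff_right (a := 4) (by norm_num) (by norm_num)).1 ?_
      calc 4 * (p ^ N * (a : ℝ≥0∞)) ≤ (p * ((k - 4 : ℕ) : ℝ≥0∞)) * (p ^ N * a) := by gcongr
        _ = p ^ (N + 1) * (a * ((k - 4 : ℕ) : ℝ≥0∞)) := by ring
        _ ≤ p ^ (N + 1) * (((b : ℝ≥0∞) + c) * 4) := by gcongr
        _ = _ := by ring
    rw [hsplit]
    refine ih.trans ?_
    calc _ ≤ (p ^ (N + 1) * b + p ^ (N + 1) * c) +
          ∑ v ∈ Y.filter (fun v => T.d o v ≤ N), p ^ T.d o v := by gcongr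
      _ = _ := by ring

theorem tree_phi (hT : ∀ v, k ≤ T.deg v) (hk : 20 ≤ k) {m : Bool} {key : V → V → K}
    (hkey : IsKey m key) {p : ℝ≥0∞} (hp : p ≤ 1) (h5 : 5 ≤ k * p) (o : V) :
    Phi T.G key p o := by
  classical
  intro S ho Ω hΩ
  set Y := (S.biUnion T.nbr).filter (Xt T S o) with hY
  have h1 : 1 ≤ ∑ v ∈ Y, p ^ T.d o v := by
    have h := layer_sum hT hk h5 ho (S.sup (T.d o) + 1)
    have he : (S.filter fun v => Gd T S o v ∧ T.d o v = S.sup (T.d o) + 1) = ∅ := by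
      refine Finset.filter_eq_empty_iff.2 fun v hv h => ?_
      have := Finset.le_sup (f := T.d o) hv
      omega
    rw [he, Finset.card_empty, Nat.cast_zero, mul_zero, zero_add] at h
    exact h.trans (Finset.sum_le_sum_of_subset (Finset.filter_subset _ _))
  have hex : ∀ v, ∃ u, v ∈ Y → v ∉ S ∧ Gd T S o u ∧ T.G.Adj u v ∧ T.d o v = T.d o u + 1 := by
    intro v
    by_cases hv : v ∈ Y
    · obtain ⟨hS, u, hu⟩ := (Finset.mem_filter.1 hv).2
      exact ⟨u, fun _ => ⟨hS, hu⟩⟩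
    · exact ⟨o, fun h => absurd h hv⟩
  choose u hu using hex
  have hinj : Set.InjOn (fun v => key (u v) v) (Y : Set V) := by
    intro v hv w hw h
    have h' := (hkey _ _ _ _).1 h
    unfold KE at h'
    split_ifs at h'
    · exact h'
    · rcases h' with h' | h'
      · exact h'.2
      · exact absurd (h'.1 ▸ (hu v hv).2.1.mem ho) (hu w hw).1
  have h2 : ∑ v ∈ Y, p ^ T.d o v ≤ p * EX Ω p (NE T.G key S Set.univ o) := by
    have he : EX Ω p (NE T.G key S Set.univ o) =
        ∑' κ, EX Ω p fun ω => ind (Exit T.G key S Set.univ o ω κ) :=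
      EX_tsum fun κ ω => ind (Exit T.G key S Set.univ o ω κ)
    rw [he]
    calc ∑ v ∈ Y, p ^ T.d o v
        ≤ ∑ v ∈ Y, p * EX Ω p fun ω => ind (Exit T.G key S Set.univ o ω (key (u v) v)) := by
          refine Finset.sum_le_sum fun v hv => ?_
          obtain ⟨hS, hg, ha, hd⟩ := hu v hv
          obtain ⟨B, hB, hc, hR⟩ := hg.keys ho hΩ
          rw [hd, pow_succ']
          gcongr
          exact EX_sub_ge hp hB hc fun ω hω => ⟨u v, v, hR ω hω, ha, hS, trivial, rfl⟩
      _ = p * ∑ κ ∈ Y.image (fun v => key (u v) v),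
            EX Ω p fun ω => ind (Exit T.G key S Set.univ o ω κ) := by
          rw [Finset.sum_image hinj, Finset.mul_sum]
      _ ≤ _ := by
          gcongr
          exact ENNReal.sum_le_tsum _
  calc (1 : ℝ≥0∞) ≤ 1 * (p * EX Ω p (NE T.G key S Set.univ o)) := by
        rw [one_mul]; exact h1.trans h2
    _ ≤ _ := by gcongr; norm_num

end PlaneTri
end Pool.Agent.P.MP_e4ac67_pr
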