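import Pool.Agent.P.MP_e4ac67_pr.Value
import Pool.Agent.P.MP_e4ac67_pr.DCT
import Pool.Agent.P.MP_e4ac67_pr.Tree
import Pool.Agent.P.MP_e4ac67_pr.Mu

open scoped ENNReal
open ProbabilityTheory

namespace Pool.Agent.P.MP_e4ac67_pr

theorem toE_le_one (p : unitInterval) : toE p ≤ 1 := by
  unfold toE
  exact_mod_cast (show (unitInterval.toNNReal p : ℝ) ≤ 1 from p.2.2)

theorem sInf_le_of_gt {A B : Set unitInterval} (h : ∀ p ∈ B, ∀ q, p < q → q ∈ A) :
    sInf A ≤ sInf B :=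
  le_sInf fun p hp => le_of_forall_gt_imp_ge_of_dense fun q hq => sInf_le (h p hp q hq)

namespace PlaneTri
variable {V V' K K' : Type} {T : PlaneTri V} {T' : PlaneTri V'} {k : ℕ}

theorem perc_main (hk : 10 ^ 128 ≤ k) (hT : ∀ v, k ≤ T.deg v) (hT' : ∀ v, T'.deg v = k)
    {m : Bool} {key : V → V → K} {key' : V' → V' → K'} (hkey : IsKey m key)
    (hkey' : IsKey m key') {U : Set K} {U' : Set K'} (hU : ∀ a b, T.G.Adj a b → key a b ∈ U)
    (hU' : ∀ a b, T'.G.Adj a b → key' a b ∈ U') {p q : unitInterval} (hpq : p < q)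
    (h : 0 < setBernoulli U' p {ω : Set K' | ∃ v,
      {w | Relation.ReflTransGen (fun a b => T'.G.Adj a b ∧ key' a b ∈ ω) v w}.Infinite}) (o : V) :
    0 < setBernoulli U q {ω : Set K |
      {w | Relation.ReflTransGen (fun a b => T.G.Adj a b ∧ key a b ∈ ω) o w}.Infinite} := by
  refine dct T.locFin hkey hU o hpq ?_
  rcases le_total ((k : ℝ≥0∞) * toE p) 5 with h5 | h5
  · obtain ⟨Q, hQ⟩ := exists_par hk h5
    have := T'.countable
    have h1 := perc_of_pos T'.locFin hU' h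
    rw [← hQ] at h1 ⊢
    exact value hT hT' Q hkey hkey' h1 o
  · exact tree_phi hT (le_trans (by norm_num) hk) hkey (toE_le_one p) h5 o

theorem site_le (hk : 10 ^ 128 ≤ k) (hT : ∀ v, k ≤ T.deg v) (hT' : ∀ v, T'.deg v = k) :
    pcSite T.G ≤ pcSite T'.G := by
  refine sInf_le_of_gt fun p hp q hq => ?_
  obtain ⟨o⟩ := T.conn.nonempty
  have h := perc_main hk hT hT' (m := true) (key := fun _ b => b) (key' := fun _ b => b)
    (fun _ _ _ _ => by simp [KE]) (fun _ _ _ _ => by simp [KE]) (U := Set.univ) (U' := Set.univ)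
    (fun _ _ _ => trivial) (fun _ _ _ => trivial) hq
    (lt_of_lt_of_le hp (MeasureTheory.measure_mono ?_)) o
  · refine lt_of_lt_of_le h (MeasureTheory.measure_mono fun ω hω => ?_)
    by_contra hc
    simp only [Set.mem_ofPred_eq, not_exists, Set.not_infinite] at hc
    refine hω (((Set.finite_singleton o).union ((T.locFin o).biUnion fun v _ => hc v)).subset ?_)
    intro w hw
    have : w = o ∨ (w ∈ ω ∧ ∃ v, T.G.Adj o v ∧ Relation.ReflTransGen
        (fun a b => T.G.Adj a b ∧ a ∈ ω ∧ b ∈ ω) v w) := by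
      induction hw with
      | refl => exact Or.inl rfl
      | tail _ h2 ih =>
        rcases ih with rfl | ⟨h3, v, h4, h5⟩
        · exact Or.inr ⟨h2.2, _, h2.1, .refl⟩
        · exact Or.inr ⟨h2.2, v, h4, h5.tail ⟨h2.1, h3, h2.2⟩⟩
    rcases this with rfl | ⟨-, v, h4, h5⟩
    · exact Or.inl rfl
    · exact Or.inr (Set.mem_biUnion (x := v) h4 h5)
  · rintro ω ⟨v, hv⟩
    refine ⟨v, hv.mono fun w hw => ?_⟩
    induction hw with
    | refl => exact .refl
    | tail _ h2 ih => exact .tail ih ⟨h2.1, h2.2.2⟩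

theorem bond_le (hk : 10 ^ 128 ≤ k) (hT : ∀ v, k ≤ T.deg v) (hT' : ∀ v, T'.deg v = k) :
    pcBond T.G ≤ pcBond T'.G := by
  refine sInf_le_of_gt fun p hp q hq => ?_
  obtain ⟨o⟩ := T.conn.nonempty
  have h := perc_main hk hT hT' (m := false) (key := fun a b => s(a, b))
    (key' := fun a b => s(a, b))
    (fun _ _ _ _ => by simp [KE]) (fun _ _ _ _ => by simp [KE]) (U := T.G.edgeSet)
    (U' := T'.G.edgeSet) (fun _ _ h => h) (fun _ _ h => h) hq hp o
  exact lt_of_lt_of_le h (MeasureTheory.measure_mono fun ω hω => ⟨o, hω⟩)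

end PlaneTri
end Pool.Agent.P.MP_e4ac67_pr
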