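import Pool.Agent.P.MP_e4ac67_pr.Iface

/-! TASK EX: finite product expectations with values in `ℝ≥0∞`. -/

open scoped ENNReal

namespace Pool.Agent.P.MP_e4ac67_pr

variable {ι : Type} {Ω : Finset ι} {p : ℝ≥0∞} {f g : Finset ι → ℝ≥0∞}

theorem EX_empty (p : ℝ≥0∞) (f : Finset ι → ℝ≥0∞) : EX ∅ p f = f ∅ := by
  simp [EX]

theorem EX_insert [DecidableEq ι] {a : ι} (ha : a ∉ Ω) (p : ℝ≥0∞) (f : Finset ι → ℝ≥0∞) :
    EX (insert a Ω) p f = EX Ω p fun s => p * f (insert a s) + (1 - p) * f s := by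
  unfold EX
  rw [Finset.sum_powerset_insert ha, ← Finset.sum_add_distrib]
  refine Finset.sum_congr rfl fun s hs => ?_
  have hs' : s ⊆ Ω := Finset.mem_powerset.1 hs
  have h1 : a ∉ s := fun h => ha (hs' h)
  have h2 : s.card ≤ Ω.card := Finset.card_le_card hs'
  rw [Finset.card_insert_of_notMem ha, Finset.card_insert_of_notMem h1,
    show Ω.card + 1 - s.card = Ω.card - s.card + 1 by omega,
    show Ω.card + 1 - (s.card + 1) = Ω.card - s.card by omega]
  ring

theorem EX_mono (h : ∀ s ⊆ Ω, f s ≤ g s) : EX Ω p f ≤ EX Ω p g :=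
  Finset.sum_le_sum fun s hs => mul_le_mul_right (h s (Finset.mem_powerset.1 hs)) _

theorem EX_congr (h : ∀ s ⊆ Ω, f s = g s) : EX Ω p f = EX Ω p g :=
  le_antisymm (EX_mono fun s hs => (h s hs).le) (EX_mono fun s hs => (h s hs).ge)

theorem EX_split (hp : p ≤ 1) (c : ℝ≥0∞) : p * c + (1 - p) * c = c := by
  rw [← add_mul, add_tsub_cancel_of_le hp, one_mul]

theorem EX_const (hp : p ≤ 1) (c : ℝ≥0∞) : (EX Ω p fun _ => c) = c := by
  classical
  induction Ω using Finset.induction_on with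
  | empty => exact EX_empty _ _
  | insert a s ha ih =>
    rw [EX_insert ha]
    simp only [EX_split hp]
    exact ih

theorem EX_add (f g : Finset ι → ℝ≥0∞) :
    (EX Ω p fun s => f s + g s) = EX Ω p f + EX Ω p g := by
  simp only [EX, mul_add, Finset.sum_add_distrib]

theorem EX_mul_left (c : ℝ≥0∞) (f : Finset ι → ℝ≥0∞) :
    (EX Ω p fun s => c * f s) = c * EX Ω p f := by
  simp only [EX, Finset.mul_sum]
  exact Finset.sum_congr rfl fun s _ => by ring

theorem EX_mul_right (c : ℝ≥0∞) (f : Finset ι → ℝ≥0∞) :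
    (EX Ω p fun s => f s * c) = EX Ω p f * c := by
  simp only [mul_comm _ c, EX_mul_left]

theorem EX_tsum {α : Type} (F : α → Finset ι → ℝ≥0∞) :
    (EX Ω p fun s => ∑' a, F a s) = ∑' a, EX Ω p (F a) := by
  simp only [EX]
  rw [Summable.tsum_finsetSum fun _ _ => ENNReal.summable]
  exact Finset.sum_congr rfl fun s _ => ENNReal.tsum_mul_left.symm

theorem EX_zero : (EX Ω p fun _ => 0) = 0 := by simp [EX]

/-- enlarging the ground set increases the expectation of an increasing function -/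
theorem EX_mono_set (hp : p ≤ 1) {Ω' : Finset ι} (h : Ω ⊆ Ω')
    (hf : ∀ s t, s ⊆ t → f s ≤ f t) : EX Ω p f ≤ EX Ω' p f := by
  classical
  have key : ∀ T : Finset ι, EX Ω p f ≤ EX (T ∪ Ω) p f := by
    intro T
    induction T using Finset.induction_on with
    | empty => rw [Finset.empty_union]
    | insert a s _ ih =>
      rw [Finset.insert_union]
      by_cases ha : a ∈ s ∪ Ω
      · rwa [Finset.insert_eq_of_mem ha]
      · rw [EX_insert ha]
        refine ih.trans (EX_mono fun t _ => ?_)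
        refine (EX_split hp (f t)).ge.trans ?_
        exact add_le_add_left (mul_le_mul_right (hf _ _ (Finset.subset_insert a t)) _) _
  simpa [Finset.union_eq_left.2 h] using key Ω'

theorem EX_erase [DecidableEq ι] {a : ι} (ha : a ∈ Ω) (p : ℝ≥0∞) (f : Finset ι → ℝ≥0∞) :
    EX Ω p f = EX (Ω.erase a) p fun s => p * f (insert a s) + (1 - p) * f s := by
  rw [← EX_insert (Finset.notMem_erase a Ω), Finset.insert_erase ha]

theorem EX_erase_of_insens [DecidableEq ι] (hp : p ≤ 1) {a : ι} (ha : a ∈ Ω)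
    (hf : ∀ s, f (insert a s) = f s) : EX Ω p f = EX (Ω.erase a) p f := by
  rw [EX_erase ha]
  simp only [hf, EX_split hp]

theorem EX_mem [DecidableEq ι] (hp : p ≤ 1) {a : ι} (ha : a ∈ Ω)
    (hf : ∀ s, f (insert a s) = f s) :
    (EX Ω p fun s => ind (a ∈ s) * f s) = p * EX Ω p f := by
  rw [EX_erase ha, EX_erase_of_insens hp ha hf, ← EX_mul_left]
  refine EX_congr fun s hs => ?_
  have h1 : a ∉ s := fun h => Finset.notMem_erase a Ω (hs h)
  simp [ind, h1, hf]

theorem EX_notMem [DecidableEq ι] (hp : p ≤ 1) {a : ι} (ha : a ∈ Ω)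
    (hf : ∀ s, f (insert a s) = f s) :
    (EX Ω p fun s => ind (a ∉ s) * f s) = (1 - p) * EX Ω p f := by
  rw [EX_erase ha, EX_erase_of_insens hp ha hf, ← EX_mul_left]
  refine EX_congr fun s hs => ?_
  have h1 : a ∉ s := fun h => Finset.notMem_erase a Ω (hs h)
  simp [ind, h1]

theorem EX_force_closed [DecidableEq ι] (hp : p ≤ 1) {C : Finset ι} (hC : C ⊆ Ω)
    (hf : ∀ x ∈ C, ∀ s, f (insert x s) = f s) :
    (EX Ω p fun s => ind (Disjoint C s) * f s) = (1 - p) ^ C.card * EX Ω p f := by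
  induction C using Finset.induction_on with
  | empty => simp [ind]
  | insert a C ha ih =>
    have h1 : ∀ s : Finset ι, ind (Disjoint (insert a C) s) * f s =
        ind (a ∉ s) * (ind (Disjoint C s) * f s) := fun s => by
      by_cases h : a ∈ s <;> simp [ind, h]
    simp only [h1]
    rw [EX_notMem hp (hC (Finset.mem_insert_self a C)),
      ih ((Finset.subset_insert a C).trans hC) fun x hx => hf x (Finset.mem_insert_of_mem hx),
      Finset.card_insert_of_notMem ha]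
    · ring
    · intro s
      rw [hf a (Finset.mem_insert_self a C)]
      simp [ind, ha]

/-- forcing `O` open and `C` closed, for `f` not depending on `O ∪ C` -/
theorem EX_force [DecidableEq ι] (hp : p ≤ 1) {O C : Finset ι} (hO : O ⊆ Ω) (hC : C ⊆ Ω)
    (hOC : Disjoint O C) (hf : ∀ x, x ∈ O ∨ x ∈ C → ∀ s, f (insert x s) = f s) :
    (EX Ω p fun s => ind (O ⊆ s ∧ Disjoint C s) * f s) =
      p ^ O.card * (1 - p) ^ C.card * EX Ω p f := by
  induction O using Finset.induction_on with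
  | empty => simpa using EX_force_closed hp hC fun x hx => hf x (Or.inr hx)
  | insert a O ha ih =>
    have h1 : ∀ s : Finset ι, ind (insert a O ⊆ s ∧ Disjoint C s) * f s =
        ind (a ∈ s) * (ind (O ⊆ s ∧ Disjoint C s) * f s) := fun s => by
      by_cases h : a ∈ s <;> simp [ind, h, Finset.insert_subset_iff]
    have haC : a ∉ C := (Finset.disjoint_insert_left.1 hOC).1
    simp only [h1]
    rw [EX_mem hp (hO (Finset.mem_insert_self a O)),
      ih ((Finset.subset_insert a O).trans hO) (Finset.disjoint_insert_left.1 hOC).2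
        fun x hx => hf x (hx.imp_left Finset.mem_insert_of_mem),
      Finset.card_insert_of_notMem ha]
    · ring
    · intro s
      rw [hf a (Or.inl (Finset.mem_insert_self a O))]
      simp [ind, haC, Finset.subset_insert_iff_of_notMem ha]

theorem EX_force_le [DecidableEq ι] (hp : p ≤ 1) (O : Finset ι)
    (hf : ∀ x ∈ O, ∀ s, f (insert x s) = f s) :
    (EX Ω p fun s => ind (O ⊆ s) * f s) ≤ p ^ O.card * EX Ω p f := by
  by_cases hO : O ⊆ Ω
  · have := EX_force (f := f) hp hO (Finset.empty_subset Ω) (Finset.disjoint_empty_right O)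
      (fun x hx => hf x (by simpa using hx))
    simpa using this.le
  · refine le_trans (le_of_eq ?_) zero_le
    rw [← EX_zero (Ω := Ω) (p := p)]
    refine EX_congr fun s hs => ?_
    have : ¬O ⊆ s := fun h => hO (h.trans hs)
    simp [ind, this]

theorem EX_mem_erase_le [DecidableEq ι] (hp : p ≤ 1) (a : ι) (f : Finset ι → ℝ≥0∞) :
    (EX Ω p fun s => ind (a ∈ s) * f (s.erase a)) ≤ p * EX (Ω.erase a) p f := by
  by_cases ha : a ∈ Ω
  · have h1 : ∀ s : Finset ι, f ((insert a s).erase a) = f (s.erase a) := fun s => by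
      rw [Finset.erase_insert_eq_erase]
    rw [EX_mem hp ha h1, EX_erase_of_insens hp ha h1]
    refine le_of_eq (congrArg _ (EX_congr fun s hs => ?_))
    rw [Finset.erase_eq_of_notMem fun h => Finset.notMem_erase a Ω (hs h)]
  · refine le_trans (le_of_eq ?_) zero_le
    rw [← EX_zero (Ω := Ω) (p := p)]
    refine EX_congr fun s hs => ?_
    have : a ∉ s := fun h => ha (hs h)
    simp [ind, this]

theorem EX_ovr_step {W K : Type} {Ωw : Finset W} {Ω : Finset K} {rk : W → ℕ}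
    {cp : Finset W → W → Prop} {κ : W → K} (hp : p ≤ 1)
    (hrk : ∀ u ∈ Ωw, ∀ v ∈ Ωw, rk u = rk v → u = v)
    (hloc : ∀ ξ ξ' u, (∀ v, rk v < rk u → (v ∈ ξ ↔ v ∈ ξ')) → (cp ξ u ↔ cp ξ' u))
    (hκ : ∀ ξ, ∀ u ∈ Ωw, cp ξ u → κ u ∈ Ω)
    (hdist : ∀ ξ u u', cp ξ u → cp ξ u' → κ u = κ u' → u = u')
    (i : ℕ) (F : Finset W → Finset K → ℝ≥0∞)
    (hF : ∀ ξ ξ' ω, (∀ v, rk v < i → (v ∈ ξ ↔ v ∈ ξ')) → F ξ ω = F ξ' ω) :
    (EX Ωw p fun ξ => EX Ω p fun η => F ξ (ovr Ωw rk cp κ (i + 1) ξ η)) =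
      EX Ωw p fun ξ => EX Ω p fun η => F ξ (ovr Ωw rk cp κ i ξ η) := by
  classical
  by_cases hu : ∃ u ∈ Ωw, rk u = i
  swap
  · have h1 : ∀ u ∈ Ωw, rk u < i + 1 ↔ rk u < i := fun u hu' => by
      have : rk u ≠ i := fun h => hu ⟨u, hu', h⟩
      omega
    have h2 : ∀ ξ η, ovr Ωw rk cp κ (i + 1) ξ η = ovr Ωw rk cp κ i ξ η := fun ξ η => by
      ext x
      simp only [mem_ovr]
      grind
    simp only [h2]
  obtain ⟨u, hu, hui⟩ := hu
  rw [EX_erase hu, EX_erase hu]
  refine EX_congr fun ξ hξ => ?_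
  have huξ : u ∉ ξ := fun h => Finset.notMem_erase u Ωw (hξ h)
  have hm : ∀ v, rk v < i → (v ∈ insert u ξ ↔ v ∈ ξ) := fun v hv => by
    have : v ≠ u := fun h => by rw [h] at hv; omega
    simp [this]
  have hF' : F (insert u ξ) = F ξ := funext fun ω => hF _ _ ω hm
  have hcp : ∀ w, rk w < i + 1 → (cp (insert u ξ) w ↔ cp ξ w) := fun w hw =>
    hloc _ _ w fun v hv => hm v (by omega)
  have hlt : ∀ w ∈ Ωw, rk w < i + 1 → w = u ∨ rk w < i := fun w hw h => by
    by_cases h' : rk w = i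
    · exact Or.inl (hrk w hw u hu (h'.trans hui.symm))
    · exact Or.inr (by omega)
  have h0 : ∀ η, ovr Ωw rk cp κ i (insert u ξ) η = ovr Ωw rk cp κ i ξ η := fun η => by
    ext x
    simp only [mem_ovr]
    grind
  simp only [hF', h0, EX_split hp]
  by_cases hc : cp ξ u
  swap
  · have h1 : ∀ η, ovr Ωw rk cp κ (i + 1) (insert u ξ) η = ovr Ωw rk cp κ i ξ η := fun η => by
      ext x
      simp only [mem_ovr]
      grind
    have h2 : ∀ η, ovr Ωw rk cp κ (i + 1) ξ η = ovr Ωw rk cp κ i ξ η := fun η => by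
      ext x
      simp only [mem_ovr]
      grind
    simp only [h1, h2, EX_split hp]
  have hk := hκ ξ u hu hc
  have hne : ∀ w, cp ξ w → rk w < i → κ w ≠ κ u := fun w hw hw' h => by
    rw [hdist ξ w u hw hc h] at hw'
    omega
  have h1 : ∀ η, ovr Ωw rk cp κ (i + 1) (insert u ξ) η = insert (κ u) (ovr Ωw rk cp κ i ξ η) :=
    fun η => by
      ext x
      simp only [mem_ovr, Finset.mem_insert]
      grind
  have h2 : ∀ η, ovr Ωw rk cp κ (i + 1) ξ η = (ovr Ωw rk cp κ i ξ η).erase (κ u) := fun η => by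
    ext x
    simp only [mem_ovr, Finset.mem_erase]
    grind
  have h3 : ∀ η, ovr Ωw rk cp κ i ξ (insert (κ u) η) = insert (κ u) (ovr Ωw rk cp κ i ξ η) :=
    fun η => by
      ext x
      simp only [mem_ovr, Finset.mem_insert]
      grind
  have h4 : ∀ η, κ u ∉ η → κ u ∉ ovr Ωw rk cp κ i ξ η := fun η hη => by
    simp only [mem_ovr]
    grind
  simp only [h1, h2]
  rw [EX_erase_of_insens hp hk (f := fun η => F ξ (insert (κ u) (ovr Ωw rk cp κ i ξ η)))
      (fun η => by simp only [h3, Finset.insert_idem]),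
    EX_erase_of_insens hp hk (f := fun η => F ξ ((ovr Ωw rk cp κ i ξ η).erase (κ u)))
      (fun η => by simp only [h3, Finset.erase_insert_eq_erase]),
    EX_erase hk, ← EX_mul_left, ← EX_mul_left, ← EX_add]
  refine EX_congr fun η hη => ?_
  rw [h3, Finset.erase_eq_of_notMem (h4 η fun h => Finset.notMem_erase _ _ (hη h))]

/-- overwriting independent bits by adaptively examined bits keeps the law -/
theorem EX_ovr {W K : Type} {Ωw : Finset W} {Ω : Finset K} {rk : W → ℕ}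
    {cp : Finset W → W → Prop} {κ : W → K} (hp : p ≤ 1)
    (hrk : ∀ u ∈ Ωw, ∀ v ∈ Ωw, rk u = rk v → u = v)
    (hloc : ∀ ξ ξ' u, (∀ v, rk v < rk u → (v ∈ ξ ↔ v ∈ ξ')) → (cp ξ u ↔ cp ξ' u))
    (hκ : ∀ ξ, ∀ u ∈ Ωw, cp ξ u → κ u ∈ Ω)
    (hdist : ∀ ξ u u', cp ξ u → cp ξ u' → κ u = κ u' → u = u')
    {i₀ i : ℕ} (hi : i₀ ≤ i) (F : Finset W → Finset K → ℝ≥0∞)
    (hF : ∀ ξ ξ' ω, (∀ v, rk v < i₀ → (v ∈ ξ ↔ v ∈ ξ')) → F ξ ω = F ξ' ω) :
    (EX Ωw p fun ξ => EX Ω p fun η => F ξ (ovr Ωw rk cp κ i ξ η)) =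
      EX Ωw p fun ξ => EX Ω p fun η => F ξ (ovr Ωw rk cp κ i₀ ξ η) := by
  induction i, hi using Nat.le_induction with
  | base => rfl
  | succ i hi ih =>
    rw [EX_ovr_step hp hrk hloc hκ hdist i F
      fun ξ ξ' ω h => hF ξ ξ' ω fun v hv => h v (by omega), ih]

theorem ovr_zero {W K : Type} (Ωw : Finset W) (rk : W → ℕ) (cp : Finset W → W → Prop)
    (κ : W → K) (ξ : Finset W) (η : Finset K) : ovr Ωw rk cp κ 0 ξ η = η := by
  ext x
  simp [mem_ovr]

end Pool.Agent.P.MP_e4ac67_pr
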