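import Pool.Agent.P.MP_e4ac67_pr.EXLib

/-! Basic facts on the exploration. -/

open scoped ENNReal

namespace Pool.Agent.P.MP_e4ac67_pr

theorem rk_snoc {k : ℕ} (σ : Wd k) (e : Fin k) : rk (σ ++ [e]) = k * rk σ + e + 1 := by
  simp [rk, List.foldl_append]

theorem rk_nil {k : ℕ} : rk ([] : Wd k) = 0 := rfl

theorem rk_inj {k : ℕ} {u v : Wd k} (h : rk u = rk v) : u = v := by
  induction u using List.reverseRecOn generalizing v with
  | nil =>
    induction v using List.reverseRecOn with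
    | nil => rfl
    | append_singleton v e _ => rw [rk_snoc, rk_nil] at h; omega
  | append_singleton u e ih =>
    induction v using List.reverseRecOn with
    | nil => rw [rk_snoc, rk_nil] at h; omega
    | append_singleton v e' _ =>
      rw [rk_snoc, rk_snoc] at h
      have h1 : k * rk u + e = k * rk v + e' := by omega
      have hk : 0 < k := e.pos
      have h2 := congrArg (· / k) h1
      have h3 := congrArg (· % k) h1
      simp only [Nat.mul_add_div hk, Nat.div_eq_of_lt e.2, Nat.div_eq_of_lt e'.2,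
        Nat.mul_add_mod, Nat.mod_eq_of_lt e.2, Nat.mod_eq_of_lt e'.2, add_zero] at h2 h3
      rw [ih h2, Fin.ext h3]

theorem rk_lt_snoc {k : ℕ} (σ : Wd k) (e : Fin k) : rk σ < rk (σ ++ [e]) := by
  rw [rk_snoc]
  have := Nat.le_mul_of_pos_left (rk σ) e.pos
  omega

theorem rk_le_append {k : ℕ} (σ w : Wd k) : rk σ ≤ rk (σ ++ w) := by
  induction w using List.reverseRecOn with
  | nil => simp
  | append_singleton w e ih =>
    rw [← List.append_assoc]; exact ih.trans (rk_lt_snoc _ _).le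

theorem rk_lt_append {k : ℕ} (σ : Wd k) {w : Wd k} (hw : w ≠ []) : rk σ < rk (σ ++ w) := by
  induction w using List.reverseRecOn with
  | nil => exact absurd rfl hw
  | append_singleton w e _ =>
    rw [← List.append_assoc]; exact (rk_le_append _ _).trans_lt (rk_lt_snoc _ _)

theorem rk_le_of_prefix {k : ℕ} {σ τ : Wd k} (h : σ <+: τ) : rk σ ≤ rk τ := by
  obtain ⟨w, rfl⟩ := h; exact rk_le_append _ _

theorem rk_dropLast {k : ℕ} {u : Wd k} (h : u ≠ []) : rk u.dropLast < rk u := by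
  conv_rhs => rw [← List.dropLast_append_getLast h]
  exact rk_lt_snoc _ _

namespace Setup
variable {V V' K K' : Type} {k : ℕ} {X : Setup V V' K K' k} {ξ : Finset (Wd k)}

theorem st_eq (u : Wd k) : X.st ξ u =
    (u ≠ [] ∧ (∀ _ : rk u.dropLast < rk u, (X.st ξ u.dropLast).2) ∧
      ∀ τ (_ : rk τ < rk u), ((X.st ξ τ).1 → X.kw' τ ≠ X.kw' u) ∧
        ((X.st ξ τ).2 → X.hd' τ ≠ X.hd' u),
    u = [] ∨ (((u ≠ [] ∧ (∀ _ : rk u.dropLast < rk u, (X.st ξ u.dropLast).2) ∧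
      ∀ τ (_ : rk τ < rk u), ((X.st ξ τ).1 → X.kw' τ ≠ X.kw' u) ∧
        ((X.st ξ τ).2 → X.hd' τ ≠ X.hd' u)) ∧ ¬X.Bad u ∧ ¬(∃ τ, ∃ _ : rk τ < rk u,
      ((X.st ξ τ).1 ∧ X.kw τ = X.kw u) ∨ ((X.st ξ τ).2 ∧ X.hd τ = X.hd u)) ∧ X.hd u ∈ X.S) ∧
      u ∈ ξ)) := by
  conv_lhs => rw [st, WellFounded.fix_eq]
  rfl

theorem ex_iff (u : Wd k) : X.ex ξ u ↔ u ≠ [] ∧ X.acc ξ u.dropLast ∧
    ∀ τ, rk τ < rk u → (X.ex ξ τ → X.kw' τ ≠ X.kw' u) ∧ (X.acc ξ τ → X.hd' τ ≠ X.hd' u) := by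
  rw [ex, st_eq]
  exact ⟨fun ⟨h0, h1, h2⟩ => ⟨h0, h1 (rk_dropLast h0), h2⟩, fun ⟨h0, h1, h2⟩ => ⟨h0, fun _ => h1, h2⟩⟩

theorem acc_iff (u : Wd k) : X.acc ξ u ↔ u = [] ∨ (X.cp ξ u ∧ u ∈ ξ) := by
  have h1 := congrArg Prod.fst (st_eq (X := X) (ξ := ξ) u)
  have h2 := congrArg Prod.snd (st_eq (X := X) (ξ := ξ) u)
  dsimp only at h1 h2
  rw [← h1] at h2
  unfold acc cp col ex acc
  rw [h2]
  simp only [exists_prop]

theorem acc_nil : X.acc ξ [] := (acc_iff _).2 (Or.inl rfl)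

theorem loc_aux {ξ' : Finset (Wd k)} (n : ℕ) : ∀ u : Wd k, rk u = n →
    ((∀ v, rk v < rk u → (v ∈ ξ ↔ v ∈ ξ')) → (X.ex ξ u ↔ X.ex ξ' u) ∧ (X.cp ξ u ↔ X.cp ξ' u)) ∧
    ((∀ v, rk v ≤ rk u → (v ∈ ξ ↔ v ∈ ξ')) → (X.acc ξ u ↔ X.acc ξ' u)) := by
  induction n using Nat.strong_induction_on with
  | _ n ih =>
  intro u hu
  have A : (∀ v, rk v < rk u → (v ∈ ξ ↔ v ∈ ξ')) →
      (X.ex ξ u ↔ X.ex ξ' u) ∧ (X.cp ξ u ↔ X.cp ξ' u) := by
    intro h
    have e1 : ∀ τ, rk τ < rk u → (X.ex ξ τ ↔ X.ex ξ' τ) := fun τ hτ =>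
      ((ih _ (hu ▸ hτ) τ rfl).1 fun v hv => h v (hv.trans hτ)).1
    have e2 : ∀ τ, rk τ < rk u → (X.acc ξ τ ↔ X.acc ξ' τ) := fun τ hτ =>
      (ih _ (hu ▸ hτ) τ rfl).2 fun v hv => h v (hv.trans_lt hτ)
    have e3 : X.ex ξ u ↔ X.ex ξ' u := by
      rw [ex_iff, ex_iff]
      refine and_congr_right fun h0 => and_congr (e2 _ (rk_dropLast h0)) ?_
      exact forall_congr' fun τ => imp_congr_right fun hτ => by rw [e1 τ hτ, e2 τ hτ]
    have e4 : X.col ξ u ↔ X.col ξ' u :=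
      exists_congr fun τ => and_congr_right fun hτ => by rw [e1 τ hτ, e2 τ hτ]
    exact ⟨e3, by rw [cp, cp, e3, e4]⟩
  refine ⟨A, fun h => ?_⟩
  rw [acc_iff, acc_iff, (A fun v hv => h v hv.le).2, h u le_rfl]

theorem ex_loc {ξ' : Finset (Wd k)} {u : Wd k} (h : ∀ v, rk v < rk u → (v ∈ ξ ↔ v ∈ ξ')) :
    X.ex ξ u ↔ X.ex ξ' u := ((loc_aux _ u rfl).1 h).1
theorem cp_loc {ξ' : Finset (Wd k)} {u : Wd k} (h : ∀ v, rk v < rk u → (v ∈ ξ ↔ v ∈ ξ')) :
    X.cp ξ u ↔ X.cp ξ' u := ((loc_aux _ u rfl).1 h).2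
theorem acc_loc {ξ' : Finset (Wd k)} {u : Wd k} (h : ∀ v, rk v ≤ rk u → (v ∈ ξ ↔ v ∈ ξ')) :
    X.acc ξ u ↔ X.acc ξ' u := (loc_aux _ u rfl).2 h

theorem acc_cp {σ : Wd k} (h : X.acc ξ σ) (h0 : σ ≠ []) : X.cp ξ σ :=
  (((acc_iff _).1 h).resolve_left h0).1

theorem ex_ne {σ : Wd k} (h : X.ex ξ σ) : σ ≠ [] := ((ex_iff _).1 h).1
theorem ex_parent {σ : Wd k} (h : X.ex ξ σ) : X.acc ξ σ.dropLast := ((ex_iff _).1 h).2.1

theorem acc_prefix {σ τ : Wd k} (h : X.acc ξ τ) (hp : σ <+: τ) : X.acc ξ σ := by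
  obtain ⟨w, rfl⟩ := hp
  induction w using List.reverseRecOn with
  | nil => simpa using h
  | append_singleton w e ih =>
    refine ih ?_
    have := ex_parent (acc_cp h (by simp)).1
    rwa [← List.append_assoc, List.dropLast_concat] at this

theorem acc_mem {σ : Wd k} (h : X.acc ξ σ) (h0 : σ ≠ []) : σ ∈ ξ :=
  (((acc_iff _).1 h).resolve_left h0).2

theorem acc_hd_mem {σ : Wd k} (h : X.acc ξ σ) : X.hd σ ∈ X.S := by
  by_cases h0 : σ = []
  · subst h0; exact X.hS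
  · exact (acc_cp h h0).2.2.2

theorem acc_not_slow {σ : Wd k} (h : X.acc ξ σ) : ¬X.T.Slow X.g σ := by
  by_cases h0 : σ = []
  · subst h0
    simp [PlaneTri.Slow, PlaneTri.d_adj X.hg]
  · exact fun hs => (acc_cp h h0).2.1 (Or.inl hs)

theorem acc_not_wrap {σ α w : Wd k} (h : X.acc ξ σ) (hp : α ++ w <+: σ) :
    ¬X.T.WrapAt X.Tg X.g α w := by
  intro hw
  have h0 : α ++ w ≠ [] := by
    intro h0
    have := hw.1
    rw [(List.append_eq_nil_iff.1 h0).2] at this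
    simp at this
  exact (acc_cp (acc_prefix h hp) h0).2.1 (Or.inr ⟨α, w, rfl, hw⟩)

theorem ne_nil_of_rk {σ τ : Wd k} (h : rk τ < rk σ) : σ ≠ [] := by
  rintro rfl; simp [rk_nil] at h

theorem acc_hd_inj {σ τ : Wd k} (h : X.acc ξ σ) (h' : X.acc ξ τ) (e : X.hd σ = X.hd τ) :
    σ = τ := by
  rcases lt_trichotomy (rk σ) (rk τ) with h1 | h1 | h1
  · exact absurd ⟨σ, h1, Or.inr ⟨h, e⟩⟩ (acc_cp h' (ne_nil_of_rk h1)).2.2.1
  · exact rk_inj h1
  · exact absurd ⟨τ, h1, Or.inr ⟨h', e.symm⟩⟩ (acc_cp h (ne_nil_of_rk h1)).2.2.1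

theorem acc_hd'_inj {σ τ : Wd k} (h : X.acc ξ σ) (h' : X.acc ξ τ) (e : X.hd' σ = X.hd' τ) :
    σ = τ := by
  rcases lt_trichotomy (rk σ) (rk τ) with h1 | h1 | h1
  · exact absurd e ((((ex_iff _).1 (acc_cp h' (ne_nil_of_rk h1)).1).2.2 σ h1).2 h)
  · exact rk_inj h1
  · exact absurd e.symm ((((ex_iff _).1 (acc_cp h (ne_nil_of_rk h1)).1).2.2 τ h1).2 h')

theorem ex_kw'_inj {σ τ : Wd k} (h : X.ex ξ σ) (h' : X.ex ξ τ) (e : X.kw' σ = X.kw' τ) :
    σ = τ := by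
  rcases lt_trichotomy (rk σ) (rk τ) with h1 | h1 | h1
  · exact absurd e ((((ex_iff _).1 h').2.2 σ h1).1 h)
  · exact rk_inj h1
  · exact absurd e.symm ((((ex_iff _).1 h).2.2 τ h1).1 h')

theorem ex_kw_inj {σ τ : Wd k} (h : X.ex ξ σ) (hc : ¬X.col ξ σ) (h' : X.ex ξ τ)
    (hc' : ¬X.col ξ τ) (e : X.kw σ = X.kw τ) : σ = τ := by
  rcases lt_trichotomy (rk σ) (rk τ) with h1 | h1 | h1
  · exact absurd ⟨σ, h1, Or.inl ⟨h, e⟩⟩ hc'
  · exact rk_inj h1
  · exact absurd ⟨τ, h1, Or.inl ⟨h', e.symm⟩⟩ hc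

theorem acc_length {σ : Wd k} (h : X.acc ξ σ) : σ.length < X.S.card := by
  have := Finset.card_le_card_of_injOn (s := Finset.range (σ.length + 1)) (t := X.S)
    (fun i => X.hd (σ.take i))
    (fun i _ => acc_hd_mem (acc_prefix h (List.take_prefix i σ))) (fun i hi j hj e => by
      have := acc_hd_inj (acc_prefix h (List.take_prefix i σ))
        (acc_prefix h (List.take_prefix j σ)) e
      have := congrArg List.length this
      simp only [Finset.coe_range, Set.mem_Iio] at hi hj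
      simp only [List.length_take] at this
      omega)
  simpa using this

theorem ex_mem {σ : Wd k} (h : X.ex ξ σ) : σ ∈ X.Ωw := by
  have := acc_length (ex_parent h)
  rw [List.length_dropLast] at this
  exact mem_words.2 (by omega)

theorem rk_lt_top {σ : Wd k} (h : σ ∈ X.Ωw) : rk σ < X.top :=
  Nat.lt_succ_of_le (Finset.le_sup (f := rk) h)

theorem kw_snoc (σ : Wd k) (e : Fin k) : X.kw (σ ++ [e]) = X.key (X.hd σ) (X.hd (σ ++ [e])) := by
  rw [kw, PlaneTri.run_snoc_fst]; rfl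

theorem kw'_snoc (σ : Wd k) (e : Fin k) :
    X.kw' (σ ++ [e]) = X.key' (X.hd' σ) (X.hd' (σ ++ [e])) := by
  rw [kw', PlaneTri.run_snoc_fst]; rfl

theorem kw_eq {u : Wd k} (h : u ≠ []) : X.kw u = X.key (X.hd u.dropLast) (X.hd u) := by
  conv_lhs => rw [← List.dropLast_append_getLast h]
  rw [kw_snoc, List.dropLast_append_getLast h]

theorem kw'_eq {u : Wd k} (h : u ≠ []) : X.kw' u = X.key' (X.hd' u.dropLast) (X.hd' u) := by
  conv_lhs => rw [← List.dropLast_append_getLast h]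
  rw [kw'_snoc, List.dropLast_append_getLast h]

theorem adj_dropLast {u : Wd k} (h : u ≠ []) : X.T.G.Adj (X.hd u.dropLast) (X.hd u) := by
  have := PlaneTri.adj_hd_snoc X.hg u.dropLast (u.getLast h)
  rwa [List.dropLast_append_getLast h] at this

theorem cp_kw_mem {Ω : Finset K} (hΩ : KeysOK X.T.G X.key X.S Ω) {σ : Wd k} (h : X.ex ξ σ) :
    X.kw σ ∈ Ω := by
  rw [kw_eq (ex_ne h)]
  exact hΩ _ _ _ (acc_hd_mem (ex_parent h)) (Or.inl rfl) (adj_dropLast (ex_ne h))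

/-- accepted words are open in the final configuration -/
theorem acc_kw_mem {σ : Wd k} (h : X.acc ξ σ) (h0 : σ ≠ []) (η : Finset K) :
    X.kw σ ∈ X.om X.top ξ η :=
  mem_ovr.2 (Or.inr ⟨σ, ex_mem (acc_cp h h0).1, rk_lt_top (ex_mem (acc_cp h h0).1),
    acc_cp h h0, acc_mem h h0, rfl⟩)

theorem hTg (v : V) (h : v ∉ X.Tg) : X.T.deg v = k := by
  by_contra h'; exact h (Or.inr h')

/-- two branches from an accepted word -/
theorem EX_two {p : ℝ≥0∞} (hp : p ≤ 1) (α w w' : Wd k)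
    (h : ∀ u, u <+: w → u <+: w' → u = []) :
    (EX X.Ωw p fun ξ => ind (X.acc ξ (α ++ w) ∧ X.acc ξ (α ++ w'))) ≤
      X.PA p α * p ^ (w.length + w'.length) := by
  classical
  let B (w : Wd k) : Finset (Wd k) := (Finset.range w.length).image fun i => α ++ w.take (i + 1)
  have hB : ∀ w : Wd k, (B w).card = w.length := fun w => by
    rw [Finset.card_image_of_injOn, Finset.card_range]
    intro i hi j hj e
    have := congrArg List.length e
    simp only [Finset.coe_range, Set.mem_Iio] at hi hj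
    simp only [List.length_append, List.length_take] at this
    omega
  have hB' : ∀ w : Wd k, ∀ x ∈ B w, ∃ u, u ≠ [] ∧ u <+: w ∧ x = α ++ u := fun w x hx => by
    obtain ⟨i, hi, rfl⟩ := Finset.mem_image.1 hx
    refine ⟨_, ?_, List.take_prefix _ _, rfl⟩
    intro h0
    have := congrArg List.length h0
    simp only [List.length_take, List.length_nil, Finset.mem_range] at this hi
    omega
  have hdis : Disjoint (B w) (B w') := Finset.disjoint_left.2 fun x hx hx' => by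
    obtain ⟨u, hu0, hu, rfl⟩ := hB' _ _ hx
    obtain ⟨u', -, hu', e⟩ := hB' _ _ hx'
    rw [List.append_cancel_left_eq] at e
    exact hu0 (h u hu (e ▸ hu'))
  have hsub : ∀ w : Wd k, ∀ ξ, X.acc ξ (α ++ w) → B w ⊆ ξ := fun w ξ ha x hx => by
    obtain ⟨u, hu0, hu, rfl⟩ := hB' _ _ hx
    exact acc_mem (acc_prefix ha ((List.prefix_append_right_inj α).2 hu)) (by simp [hu0])
  calc _ ≤ EX X.Ωw p fun ξ => ind (B w ∪ B w' ⊆ ξ) * ind (X.acc ξ α) := by
        refine EX_mono fun ξ _ => ?_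
        rw [← ind_and]
        exact ind_mono fun ⟨h1, h2⟩ => ⟨Finset.union_subset (hsub _ _ h1) (hsub _ _ h2),
          acc_prefix h1 (List.prefix_append _ _)⟩
    _ ≤ p ^ (B w ∪ B w').card * X.PA p α := by
        refine EX_force_le hp _ fun x hx s => ind_congr (acc_loc fun v hv => ?_)
        have : rk α < rk x := by
          rcases Finset.mem_union.1 hx with hx | hx <;>
          · obtain ⟨u, hu0, -, rfl⟩ := hB' _ _ hx
            exact rk_lt_append _ hu0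
        rw [Finset.mem_insert]
        exact ⟨fun h => h.resolve_left (by rintro rfl; omega), Or.inr⟩
    _ = _ := by rw [Finset.card_union_of_disjoint hdis, hB, hB, mul_comm]

theorem PA_le {p : ℝ≥0∞} (hp : p ≤ 1) (σ : Wd k) : X.PA p σ ≤ p ^ σ.length := by
  have h := EX_two (X := X) hp [] σ [] fun u _ hu => List.prefix_nil.1 hu
  have h1 : X.PA p [] = 1 := by
    rw [PA, ← EX_const (Ω := X.Ωw) hp 1]
    exact EX_congr fun s _ => ind_of acc_nil
  rw [h1, one_mul, List.length_nil, add_zero] at h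
  refine le_trans (EX_mono fun s _ => ind_mono fun hs => ⟨hs, acc_nil⟩) h

/-- the law of the final configuration on `T` -/
theorem EX_om {p : ℝ≥0∞} (hp : p ≤ 1) {Ω : Finset K} (hΩ : KeysOK X.T.G X.key X.S Ω) {i₀ : ℕ}
    (hi : i₀ ≤ X.top) (F : Finset (Wd k) → Finset K → ℝ≥0∞)
    (hF : ∀ ξ ξ' ω, (∀ v, rk v < i₀ → (v ∈ ξ ↔ v ∈ ξ')) → F ξ ω = F ξ' ω) :
    (EX X.Ωw p fun ξ => EX Ω p fun η => F ξ (X.om X.top ξ η)) =
      EX X.Ωw p fun ξ => EX Ω p fun η => F ξ (X.om i₀ ξ η) := by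
  unfold om
  exact EX_ovr (Ωw := X.Ωw) (Ω := Ω) (rk := rk) (cp := X.cp) (κ := X.kw) hp
    (fun _ _ _ _ h => rk_inj h) (fun _ _ _ h => cp_loc h)
    (fun _ _ _ h => cp_kw_mem hΩ h.1)
    (fun _ _ _ h h' e => ex_kw_inj h.1 h.2.2.1 h'.1 h'.2.2.1 e) hi F hF

end Setup
end Pool.Agent.P.MP_e4ac67_pr
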