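import Pool.Agent.P.MP_e4ac67_pr.Node

/-! Rigidity of lifts in a regular ball. -/

namespace Pool.Agent.P.MP_e4ac67_pr
namespace Node

variable {D D' : List ℕ → ℕ} {k R : ℕ}

theorem agree1 (hD' : ∀ w, D' w = k) (H : ∀ w, Valid D w → w.length < R → D w = k) {w : List ℕ}
    (hw : Valid D w) (hl : w.length ≤ R) :
    Valid D' w ∧ tau D' w = tau D w ∧ succ D' w = succ D w := by
  induction w with
  | nil => exact ⟨trivial, rfl, rfl⟩
  | cons e u ih =>
    have h1 : u.length < R := hl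
    obtain ⟨a1, a2, a3⟩ := ih hw.1 h1.le
    have a4 : D' u = D u := (hD' u).trans (H u hw.1 h1).symm
    have a5 : D' [] = D [] := (hD' []).trans (H [] trivial (Nat.zero_lt_of_lt h1)).symm
    refine ⟨⟨a1, a5 ▸ hw.2.1, a2 ▸ a4 ▸ hw.2.2⟩, ?_, ?_⟩
    · simp only [tau, a2, a4]
    · simp only [succ, a2, a3, a4, a5]

theorem agree_last (hD' : ∀ w, D' w = k) (H : ∀ w, Valid D w → w.length < R → D w = k)
    {w : List ℕ} (hw : Valid D w) (hl : w.length < R) : last D' w = last D w := by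
  rw [last, last, (agree1 hD' H hw hl.le).2.1, hD', H w hw hl]

theorem agree_pred (h6 : ∀ w, 6 ≤ D w) (hD' : ∀ w, D' w = k)
    (H : ∀ w, Valid D w → w.length < R → D w = k) {w : List ℕ}
    (hw : Valid D w) (hl : w.length ≤ R) : pred D' w = pred D w := by
  induction w with
  | nil => rfl
  | cons e u ih =>
    have h1 : u.length < R := hl
    have a5 : D' [] = D [] := (hD' []).trans (H [] trivial (Nat.zero_lt_of_lt h1)).symm
    simp only [pred, a5, ih hw.1 h1.le,
      agree_last hD' H (valid_pred h6 hw.1) ((length_pred u).trans_lt h1)]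

theorem positions (h6 : ∀ w, 6 ≤ D w) (hR : 1 ≤ R) {w : List ℕ} (hl : w.length ≤ R) {j : ℕ}
    (hj : j < D w) (h : (nb D w j).length ≤ R) : w.length < R ∨ (w ≠ [] ∧
      (j = 0 ∨ j = 1 ∨ j + 1 + tau D w = D w ∨ (tau D w = 1 ∧ j + 1 = D w))) := by
  rcases hl.lt_or_eq with a | a
  · exact Or.inl a
  have h0 : w ≠ [] := by
    rintro rfl
    simp at a
    omega
  rw [length_nb h6 h0 hj] at h
  refine Or.inr ⟨h0, ?_⟩
  split_ifs at h <;> omega

theorem agree_nb (hk : 10 ≤ k) (hD : ∀ w, k ≤ D w) (hD' : ∀ w, D' w = k) (hR : 1 ≤ R)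
    (H : ∀ w, Valid D w → w.length < R → D w = k) {w : List ℕ} (hw : Valid D w)
    (hl : w.length ≤ R) {j : ℕ} (hj : j < k) (h : (nb D w (lift k (D w) j)).length ≤ R) :
    nb D' w j = nb D w (lift k (D w) j) := by
  have h6 : ∀ w, 6 ≤ D w := fun w => le_trans (by omega) (hD w)
  obtain ⟨-, a2, a3⟩ := agree1 hD' H hw hl
  have a4 := agree_pred h6 hD' H hw hl
  have a5 := (agree1 hD' H (valid_tail hw) (by simp; omega)).2.2
  rcases positions h6 hR hl (lift_lt (hD w) hj) h with a | ⟨a0, a⟩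
  · simp only [H w hw a, lift_reg, nb, a2, a3, a4, a5, hD',
      agree_last hD' H (valid_pred h6 hw) ((length_pred w).trans_lt a)]
  have b1 := tau_le (D := D) w
  have b2 := hD w
  simp only [nb, a0, if_false, a2, a3, a4, a5, hD']
  generalize hi : lift k (D w) j = i at a
  unfold lift at hi
  split_ifs at hi <;> split_ifs <;> first | rfl | omega

theorem exists_lift (hk : 10 ≤ k) (hD : ∀ w, k ≤ D w) (hR : 1 ≤ R)
    (H : ∀ w, Valid D w → w.length < R → D w = k) {w : List ℕ} (hw : Valid D w)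
    (hl : w.length ≤ R) {i : ℕ} (hi : i < D w) (h : (nb D w i).length ≤ R) :
    ∃ j < k, lift k (D w) j = i := by
  have h6 : ∀ w, 6 ≤ D w := fun w => le_trans (by omega) (hD w)
  have b1 := tau_le (D := D) w
  have b2 := hD w
  rcases positions h6 hR hl hi h with a | ⟨-, a⟩
  · exact ⟨i, H w hw a ▸ hi, by rw [H w hw a, lift_reg]⟩
  by_cases c : i ≤ 1
  · exact ⟨i, by omega, if_pos (by omega)⟩
  · refine ⟨i - (D w - k), by omega, ?_⟩
    unfold lift
    split_ifs <;> omega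

theorem lift_add (hk : 10 ≤ k) (hD : ∀ w, k ≤ D w) (hR : 1 ≤ R)
    (H : ∀ w, Valid D w → w.length < R → D w = k) {w : List ℕ} (hw : Valid D w)
    (hl : w.length ≤ R) {j e : ℕ} (hj : j < k) (he : e < k)
    (h : (nb D w (lift k (D w) j)).length ≤ R)
    (h' : (nb D w ((lift k (D w) j + lift k (D w) e) % D w)).length ≤ R) :
    (lift k (D w) j + lift k (D w) e) % D w = lift k (D w) ((j + e) % k) := by
  have h6 : ∀ w, 6 ≤ D w := fun w => le_trans (by omega) (hD w)
  have b1 := tau_le (D := D) w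
  have b2 := hD w
  rcases positions h6 hR hl (lift_lt b2 hj) h with a | ⟨-, a⟩
  · simp only [H w hw a, lift_reg]
  rcases positions h6 hR hl (Nat.mod_lt _ (by omega)) h' with a' | ⟨-, a'⟩
  · simp only [H w hw a', lift_reg]
  have c1 := lift_lt b2 hj
  have c2 := lift_lt b2 he
  have key : ∀ x n : ℕ, x < 2 * n → (x < n ∧ x % n = x) ∨ (n ≤ x ∧ x % n = x - n) := by
    intro x n hx
    rcases lt_or_ge x n with d | d
    · exact Or.inl ⟨d, Nat.mod_eq_of_lt d⟩
    · exact Or.inr ⟨d, by rw [Nat.mod_eq_sub_mod d, Nat.mod_eq_of_lt (by omega)]⟩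
  have d1 := key (lift k (D w) j + lift k (D w) e) (D w) (by omega)
  have d2 := key (j + e) k (by omega)
  generalize (lift k (D w) j + lift k (D w) e) % D w = x at a' d1 ⊢
  generalize (j + e) % k = y at d2 ⊢
  unfold lift at *
  split_ifs at * <;> omega

end Node

namespace PlaneTri
variable {V V' : Type} {T : PlaneTri V} {T' : PlaneTri V'} {k : ℕ}

theorem rig (hT : ∀ v, k ≤ T.deg v) (hT' : ∀ v, T'.deg v = k) (hk : 10 ≤ k) {g : V × V}
    (hg : T.Dart g) {g' : V' × V'} (hg' : T'.Dart g') {R : ℕ} (hR : 1 ≤ R)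
    (hreg : ∀ v, T.d g.2 v < R → T.deg v = k) {β₁ β₂ : Wd k}
    (h₁ : ∀ i, T.d g.2 (T.hd g (β₁.take i)) ≤ R) (h₂ : ∀ i, T.d g.2 (T.hd g (β₂.take i)) ≤ R)
    (h : T.hd g β₁ = T.hd g β₂) : T'.hd g' β₁ = T'.hd g' β₂ := by
  have h6 : ∀ v, 6 ≤ T.deg v := fun v => le_trans (by omega) (hT v)
  have h6' : ∀ v, 6 ≤ T'.deg v := fun v => (hT' v).symm ▸ le_trans (by omega) hk
  obtain ⟨ν, -, -, n3, n4⟩ := exists_nu h6 hg.symm
  have pn := fun w => pj_nb h6 hg.symm (w := w)
  have pn' := fun w => pj_nb h6' hg'.symm (w := w)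
  have eD : ∀ w, T.deg (T.pj g.2 g.1 w).1 = T.nD g.2 g.1 w := fun _ => rfl
  have hD : ∀ w, k ≤ T.nD g.2 g.1 w := fun w => hT _
  have hD' : ∀ w, T'.nD g'.2 g'.1 w = k := fun w => hT' _
  have len : ∀ w, Node.Valid (T.nD g.2 g.1) w → w.length = T.d g.2 (T.pj g.2 g.1 w).1 :=
    fun w hw => by rw [← n4, n3 w hw]
  have H : ∀ w, Node.Valid (T.nD g.2 g.1) w → w.length < R → T.nD g.2 g.1 w = k :=
    fun w hw a => hreg _ (len w hw ▸ a)
  generalize T.nD g.2 g.1 = D at *
  generalize T'.nD g'.2 g'.1 = D' at *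
  have d6 : ∀ w, 6 ≤ D w := fun w => le_trans (by omega) (hD w)
  have key : ∀ β : Wd k, (∀ i, T.d g.2 (T.hd g (β.take i)) ≤ R) →
      ∃ w, Node.Valid D w ∧ w.length ≤ R ∧ ∃ j < k, (Node.nb D w (lift k (D w) j)).length ≤ R ∧
        T.run g β = (T.rot (T.pj g.2 g.1 w).1 (T.pj g.2 g.1 w).2 (lift k (D w) j),
          (T.pj g.2 g.1 w).1) ∧
        T'.run g' β = (T'.rot (T'.pj g'.2 g'.1 w).1 (T'.pj g'.2 g'.1 w).2 j,
          (T'.pj g'.2 g'.1 w).1) := by
    intro β
    induction β using List.reverseRecOn with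
    | nil => exact fun _ => ⟨[], trivial, Nat.zero_le _, 0, by omega, hR, rfl, rfl⟩
    | append_singleton β e ih =>
      intro hβ
      obtain ⟨w, w1, w2, j, j1, j2, j3, j4⟩ := ih fun i => by
        have := hβ (min i β.length)
        rwa [List.take_append_of_le_length (min_le_right _ _), ← List.take_eq_take_min] at this
      have hb := hβ (β ++ [e]).length
      rw [List.take_length, hd_snoc, j3] at hb
      have c0 : (lift k (D w) j + lift k (D w) e) % D w < D w := Nat.mod_lt _ (by have := d6 w; omega)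
      have e1 : (T.step (T.rot (T.pj g.2 g.1 w).1 (T.pj g.2 g.1 w).2 (lift k (D w) j),
          (T.pj g.2 g.1 w).1) e).2 =
          (T.pj g.2 g.1 (Node.nb D w ((lift k (D w) j + lift k (D w) e) % D w))).1 := by
        rw [pn w w1 c0, step, ← rot_add, eD,
          ← rot_mod (adj_pj hg.symm w) (lift k (D w) j + lift k (D w) e), eD]
      have v1 := Node.valid_nb d6 w1 c0
      rw [e1, ← len _ v1] at hb
      have e2 := Node.lift_add hk hD hR H w1 w2 j1 e.2 j2 hb
      have c1 : (j + e) % k < k := Nat.mod_lt _ (by omega)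
      have e3 := Node.agree_nb hk hD hD' hR H w1 w2 c1 (e2 ▸ hb)
      rw [← e2] at e3
      obtain ⟨i, i1, i2⟩ := Node.nb_symm d6 w1 c0
      generalize Node.nb D w ((lift k (D w) j + lift k (D w) e) % D w) = u at *
      obtain ⟨i, i3, rfl⟩ := Node.exists_lift hk hD hR H v1 hb i1 (i2.symm ▸ w2)
      have e4 := Node.agree_nb hk hD hD' hR H v1 hb i3 (i2.symm ▸ w2)
      refine ⟨u, v1, hb, i, i3, i2.symm ▸ w2, ?_, ?_⟩
      · rw [run_snoc, j3, ← pn u v1 i1, i2, ← e1]
        rfl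
      · rw [run_snoc, j4, ← pn' u (Node.agree1 hD' H v1 hb).1 ((hD' u).symm ▸ i3), e4, i2, ← e3,
          pn' w (Node.agree1 hD' H w1 w2).1 ((hD' w).symm ▸ c1), step, ← rot_add, hT', lift_reg,
          ← rot_mod (adj_pj hg'.symm w) (j + e), hT']
  obtain ⟨w, w1, -, j, -, -, a1, a2⟩ := key β₁ h₁
  obtain ⟨u, u1, -, i, -, -, b1, b2⟩ := key β₂ h₂
  rw [hd, hd, a1, b1] at h
  have : w = u := by rw [← n3 w w1, ← n3 u u1]; exact congrArg ν h
  rw [hd, hd, a2, b2, this]

end PlaneTri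
end Pool.Agent.P.MP_e4ac67_pr
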