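import Pool.Agent.P.MP_e4ac67_pr.Turn
import Pool.Agent.P.MP_e4ac67_pr.Rig

/-! TASK LOOP: structure of failing loops. -/

namespace Pool.Agent.P.MP_e4ac67_pr

theorem lift_shift {k D e₁ e₂ s : ℕ} (hk : 10 ≤ k) (hD : k ≤ D) (h₁ : e₁ < k) (h₂ : e₂ < k)
    (hc : D = k ∨ s ≤ 1 ∨ (s ≤ 2 ∧ (e₁ = 0 ∨ e₂ = 0)))
    (h : (lift k D e₁ + s) % D = lift k D e₂ % D) : (e₁ + s) % k = e₂ % k := by
  by_cases hDk : D = k
  · subst hDk
    rwa [lift_reg, lift_reg] at h
  have hs : s ≤ 2 := by omega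
  have l₁ := lift_lt hD h₁
  have l₂ := lift_lt hD h₂
  rw [Nat.mod_eq_of_lt l₂] at h
  rw [Nat.mod_eq_of_lt h₂]
  by_cases hlt : lift k D e₁ + s < D
  · rw [Nat.mod_eq_of_lt hlt] at h
    have : e₁ + s = e₂ := by
      unfold lift at h hlt
      split_ifs at h hlt <;> omega
    rw [this, Nat.mod_eq_of_lt h₂]
  · have h3 : (lift k D e₁ + s) % D = lift k D e₁ + s - D := by
      rw [Nat.mod_eq_sub_mod (by omega), Nat.mod_eq_of_lt (by omega)]
    rw [h3] at h
    have : e₁ + s = e₂ + k := by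
      unfold lift at h hlt l₁
      split_ifs at h hlt l₁ <;> omega
    rw [this, Nat.add_mod_right, Nat.mod_eq_of_lt h₂]

namespace PlaneTri
variable {V V' : Type} {T : PlaneTri V} {T' : PlaneTri V'} {k : ℕ}

theorem rot_two (x a : V) : T.rot x a 2 = T.nx x (T.nx x a) := rfl

theorem adj_step {g : V × V} (hg : T.Dart g) (e : Fin k) : T.G.Adj g.2 (T.step g e).2 :=
  step_dart hg e

/-- transfer of a small rotation between two steps -/
theorem tr_base (hT : ∀ v, k ≤ T.deg v) (hT' : ∀ v, T'.deg v = k) (hk : 10 ≤ k) {g : V × V}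
    (hg : T.Dart g) {g' : V' × V'} (hg' : T'.Dart g') {e₁ e₂ : Fin k} {s : ℕ}
    (hc : T.deg g.2 = k ∨ s ≤ 1)
    (h : T.rot g.2 (T.step g e₁).2 s = (T.step g e₂).2) :
    T'.rot g'.2 (T'.step g' e₁).2 s = (T'.step g' e₂).2 := by
  simp only [step] at h ⊢
  rw [← rot_add, rot_eq_iff hg.symm] at h
  rw [← rot_add, rot_eq_iff hg'.symm, hT', lift_reg, lift_reg]
  exact lift_shift hk (hT _) e₁.2 e₂.2 (by omega) h

theorem tr_plus (hT : ∀ v, k ≤ T.deg v) (hT' : ∀ v, T'.deg v = k) (hk : 10 ≤ k) {g : V × V}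
    (hg : T.Dart g) {g' : V' × V'} (hg' : T'.Dart g') {e : Fin k} {s : ℕ} (hs : s ≤ 2)
    (h : T.rot g.2 g.1 s = (T.step g e).2) :
    T'.rot g'.2 g'.1 s = (T'.step g' e).2 := by
  simp only [step] at h ⊢
  rw [rot_eq_iff hg.symm] at h
  rw [rot_eq_iff hg'.symm, hT', lift_reg]
  have h0 : lift k (T.deg g.2) 0 = 0 := by simp [lift]
  have := lift_shift (e₁ := 0) (e₂ := e) (s := s) hk (hT g.2) (by omega) e.2 (by omega)
    (by rw [h0, zero_add]; exact h)
  rwa [zero_add] at this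

theorem tr_minus (hT : ∀ v, k ≤ T.deg v) (hT' : ∀ v, T'.deg v = k) (hk : 10 ≤ k) {g : V × V}
    (hg : T.Dart g) {g' : V' × V'} (hg' : T'.Dart g') {e : Fin k} {s : ℕ} (hs : s ≤ 2)
    (h : T.rot g.2 (T.step g e).2 s = g.1) :
    T'.rot g'.2 (T'.step g' e).2 s = g'.1 := by
  simp only [step] at h ⊢
  have h' : T.rot g.2 g.1 (lift k (T.deg g.2) e + s) = T.rot g.2 g.1 0 := by
    rw [rot_add]; exact h
  rw [rot_eq_iff hg.symm] at h'
  have h0 : lift k (T.deg g.2) 0 = 0 := by simp [lift]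
  have := lift_shift (e₁ := e) (e₂ := 0) (s := s) hk (hT g.2) e.2 (by omega) (by omega)
    (by rw [h0]; exact h')
  rw [← rot_add]
  refine Eq.trans ?_ (rot_zero (T := T') g'.2 g'.1)
  rw [rot_eq_iff hg'.symm, hT', lift_reg]
  exact this

/-- a backtrack is a backtrack in the regular triangulation -/
theorem short_two (hT : ∀ v, k ≤ T.deg v) (hT' : ∀ v, T'.deg v = k) (hk : 10 ≤ k) {g : V × V}
    (hg : T.Dart g) {g' : V' × V'} (hg' : T'.Dart g') {e x : Fin k}
    (h : T.hd g [e, x] = g.2) : T'.hd g' [e, x] = g'.2 :=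
  (tr_plus hT hT' hk (step_dart hg e) (step_dart hg' e) (e := x) (s := 0) (by omega) h.symm).symm

/-- a triangle closes in the regular triangulation -/
theorem short_three (hT : ∀ v, k ≤ T.deg v) (hT' : ∀ v, T'.deg v = k) (hk : 10 ≤ k) {g : V × V}
    (hg : T.Dart g) {g' : V' × V'} (hg' : T'.Dart g') {e₁ e₂ x : Fin k}
    (h : T.hd g [e₁, x] = T.hd g [e₂]) : T'.hd g' [e₁, x] = T'.hd g' [e₂] := by
  have h6 : ∀ v, 6 ≤ T.deg v := fun v => by have := hT v; omega
  have d₁ := step_dart hg e₁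
  have d₁' := step_dart hg' e₁
  have au := adj_step hg e₁
  have av := adj_step hg e₂
  have au' := adj_step hg' e₁
  have av' := adj_step hg' e₂
  have uc := adj_step d₁ x
  have uc' := adj_step d₁' x
  change (T.step (T.step g e₁) x).2 = (T.step g e₂).2 at h
  change (T'.step (T'.step g' e₁) x).2 = (T'.step g' e₂).2
  rcases tri_face h6 au av (h ▸ uc) with h1 | h1
  · have b := tr_base hT hT' hk hg hg' (s := 1) (Or.inr le_rfl) h1.symm
    have m := tr_minus hT hT' hk d₁ d₁' (e := x) (s := 1) (by omega)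
      (by rw [h]; exact face1 au h1.symm)
    exact nx_inj uc' (b ▸ adj_nx2 au') (m.trans (face1 au' b).symm)
  · have b := tr_base hT hT' hk hg hg' (s := 1) (Or.inr le_rfl) h1.symm
    have m := tr_plus hT hT' hk d₁ d₁' (e := x) (s := 1) (by omega)
      (by rw [h]; exact face2 av h1.symm)
    exact m.symm.trans (face2 av' b)

/-- the four shapes of a four-cycle -/
theorem quad_shape (h6 : ∀ v, 6 ≤ T.deg v) {a u v c : V} (hu : T.G.Adj a u) (hv : T.G.Adj a v)
    (huc : T.G.Adj u c) (hvc : T.G.Adj v c) (huv : u ≠ v) (hca : c ≠ a) :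
    (T.nx a u = c ∧ T.nx a c = v) ∨ (T.nx a v = c ∧ T.nx a c = u) ∨
      (T.nx a u = v ∧ T.nx c v = u) ∨ (T.nx a v = u ∧ T.nx c u = v) := by
  rcases quad_chord h6 hu hv huc hvc huv hca with h | h
  · rcases tri_face h6 hu h huc with h1 | h1 <;> rcases tri_face h6 hv h hvc with h2 | h2
    · exact absurd (nx_inj hu hv (h1.symm.trans h2)) huv
    · exact Or.inl ⟨h1.symm, h2.symm⟩
    · exact Or.inr (Or.inl ⟨h2.symm, h1.symm⟩)
    · exact absurd (h1.trans h2.symm) huv
  · rcases tri_face h6 hu hv h with h1 | h1 <;>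
      rcases tri_face h6 huc.symm hvc.symm h with h2 | h2
    · exact absurd (nx_inj hvc hv.symm
        ((face2 huc.symm h2.symm).trans (face2 hu h1.symm).symm)) hca
    · exact Or.inr (Or.inr (Or.inl ⟨h1.symm, h2.symm⟩))
    · exact Or.inr (Or.inr (Or.inr ⟨h1.symm, h2.symm⟩))
    · exact absurd (nx_inj huc hu.symm
        ((face2 hvc.symm h2.symm).trans (face2 hv h1.symm).symm)) hca

/-- half of the four-cycle computation: the position of the third vertex -/
theorem quad_half (hT : ∀ v, k ≤ T.deg v) (hT' : ∀ v, T'.deg v = k) (hk : 10 ≤ k) {g : V × V}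
    (hg : T.Dart g) {g' : V' × V'} (hg' : T'.Dart g') (hd : T.deg g.2 = k) {e₁ e₂ x : Fin k}
    {a u v c : V} {a' u' v' c' : V'} (ha : a = g.2) (hu : u = (T.step g e₁).2)
    (hv : v = (T.step g e₂).2) (hc : c = (T.step (T.step g e₁) x).2)
    (ha' : a' = g'.2) (hu' : u' = (T'.step g' e₁).2)
    (hv' : v' = (T'.step g' e₂).2) (hc' : c' = (T'.step (T'.step g' e₁) x).2)
    (hvc : T.G.Adj v c) :
    (T.nx a u = c ∧ T.nx a c = v → T'.nx a' u' = c' ∧ T'.nx a' c' = v' ∧ T'.G.Adj v' c') ∧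
    (T.nx a v = c ∧ T.nx a c = u → T'.nx a' v' = c' ∧ T'.nx a' c' = u' ∧ T'.G.Adj v' c') ∧
    (T.nx a u = v ∧ T.nx c v = u → T'.nx a' u' = v' ∧ T'.nx c' v' = u' ∧ T'.G.Adj v' c') ∧
    (T.nx a v = u ∧ T.nx c u = v → T'.nx a' v' = u' ∧ T'.nx c' u' = v' ∧ T'.G.Adj v' c') := by
  have d₁ := step_dart hg e₁
  have d₁' := step_dart hg' e₁
  have au : T.G.Adj a u := by rw [ha, hu]; exact adj_step hg e₁
  have av : T.G.Adj a v := by rw [ha, hv]; exact adj_step hg e₂
  have au' : T'.G.Adj a' u' := by rw [ha', hu']; exact adj_step hg' e₁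
  have av' : T'.G.Adj a' v' := by rw [ha', hv']; exact adj_step hg' e₂
  have uc : T.G.Adj u c := by rw [hu, hc]; exact adj_step d₁ x
  have uc' : T'.G.Adj u' c' := by rw [hu', hc']; exact adj_step d₁' x
  have B₁ : ∀ s, T.rot a u s = v → T'.rot a' u' s = v' := fun s h => by
    rw [ha', hu', hv']; rw [ha, hu, hv] at h
    exact tr_base hT hT' hk hg hg' (Or.inl hd) h
  have B₂ : ∀ s, T.rot a v s = u → T'.rot a' v' s = u' := fun s h => by
    rw [ha', hu', hv']; rw [ha, hu, hv] at h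
    exact tr_base hT hT' hk hg hg' (Or.inl hd) h
  have P : ∀ s ≤ 2, T.rot u a s = c → T'.rot u' a' s = c' := fun s hs h => by
    rw [ha', hu', hc']; rw [ha, hu, hc] at h
    exact tr_plus hT hT' hk d₁ d₁' hs h
  have M : ∀ s ≤ 2, T.rot u c s = a → T'.rot u' c' s = a' := fun s hs h => by
    rw [ha', hu', hc']; rw [ha, hu, hc] at h
    exact tr_minus hT hT' hk d₁ d₁' hs h
  refine ⟨fun ⟨h1, h2⟩ => ?_, fun ⟨h1, h2⟩ => ?_, fun ⟨h1, h2⟩ => ?_, fun ⟨h1, h2⟩ => ?_⟩
  · have b := B₁ 2 (by rw [rot_two, h1, h2])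
    have m := M 1 (by omega) (face1 au h1)
    have e : T'.nx a' u' = c' := nx_inj (adj_nx2 au') uc' ((face1 au' rfl).trans m.symm)
    have e2 : T'.nx a' c' = v' := by rw [← e]; exact b
    exact ⟨e, e2, (e2 ▸ adj_nx2 (e ▸ adj_nx1 au')).symm⟩
  · have b := B₂ 2 (by rw [rot_two, h1, h2])
    have ac : T.G.Adj a c := h1 ▸ adj_nx1 av
    have m := P 1 (by omega) (face2 ac h2)
    have e : T'.nx a' v' = c' := (face2 (adj_nx1 av') b).symm.trans m
    exact ⟨e, by rw [← e]; exact b, e ▸ adj_nx2 av'⟩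
  · have b : T'.nx a' u' = v' := B₁ 1 h1
    have m := M 2 le_rfl (by rw [rot_two, face2 hvc.symm h2, face1 au h1])
    have vu' : T'.G.Adj v' u' := (b ▸ adj_nx2 au').symm
    have e : T'.nx v' u' = c' := by
      refine rot_cancel (adj_nx2 vu') uc' 2 ?_
      rw [m, rot_two, face1 vu' rfl, face1 au' b]
    exact ⟨b, face2 vu' e, e ▸ adj_nx1 vu'⟩
  · have b : T'.nx a' v' = u' := B₂ 1 h1
    have m := P 2 le_rfl (by rw [rot_two, face2 av h1, face1 uc.symm h2])
    rw [rot_two, face2 av' b] at m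
    have uv' : T'.G.Adj u' v' := (b ▸ adj_nx2 av').symm
    exact ⟨b, face2 uv' m, m ▸ adj_nx2 uv'⟩

theorem short_four_a (hT : ∀ v, k ≤ T.deg v) (hT' : ∀ v, T'.deg v = k) (hk : 10 ≤ k) {g : V × V}
    (hg : T.Dart g) {g' : V' × V'} (hg' : T'.Dart g') (hd : T.deg g.2 = k) {e₁ e₂ x y : Fin k}
    (he : e₁ ≠ e₂) (hca : T.hd g [e₂, y] ≠ g.2)
    (h : T.hd g [e₁, x] = T.hd g [e₂, y]) : T'.hd g' [e₁, x] = T'.hd g' [e₂, y] := by
  have h6 : ∀ v, 6 ≤ T.deg v := fun v => by have := hT v; omega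
  change (T.step (T.step g e₁) x).2 = (T.step (T.step g e₂) y).2 at h
  change (T.step (T.step g e₂) y).2 ≠ g.2 at hca
  change (T'.step (T'.step g' e₁) x).2 = (T'.step (T'.step g' e₂) y).2
  have au := adj_step hg e₁
  have av := adj_step hg e₂
  have au' := adj_step hg' e₁
  have av' := adj_step hg' e₂
  have uc := adj_step (step_dart hg e₁) x
  have vc := adj_step (step_dart hg e₂) y
  have uc' := adj_step (step_dart hg' e₁) x
  have vc' := adj_step (step_dart hg' e₂) y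
  rw [h] at uc
  obtain ⟨A1, A2, A3, A4⟩ := quad_half hT hT' hk hg hg' hd (e₁ := e₁) (e₂ := e₂) (x := x)
    rfl rfl rfl h.symm rfl rfl rfl rfl vc
  obtain ⟨B1, B2, B3, B4⟩ := quad_half hT hT' hk hg hg' hd (e₁ := e₂) (e₂ := e₁) (x := y)
    rfl rfl rfl rfl rfl rfl rfl rfl uc
  rcases quad_shape h6 au av uc vc (fun h => he (step_inj hg (hT _) h)) hca with h1 | h1 | h1 | h1
  · exact (A1 h1).1.symm.trans (B2 h1).1
  · exact (A2 h1).1.symm.trans (B1 h1).1
  · exact (face1 (A3 h1).2.2.symm (A3 h1).2.1).symm.trans (face1 vc'.symm (B4 h1).2.1)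
  · exact (face1 uc'.symm (A4 h1).2.1).symm.trans (face1 (B3 h1).2.2.symm (B3 h1).2.1)

theorem short_four_b (hT : ∀ v, k ≤ T.deg v) (hT' : ∀ v, T'.deg v = k) (hk : 10 ≤ k) {g : V × V}
    (hg : T.Dart g) {g' : V' × V'} (hg' : T'.Dart g') (hd : T.deg g.2 = k) {e₁ e₂ x y : Fin k}
    (he : e₁ ≠ e₂) (hca : T.hd g [e₁, x] ≠ g.2)
    (h : T.hd g [e₁, x, y] = T.hd g [e₂]) : T'.hd g' [e₁, x, y] = T'.hd g' [e₂] := by
  have h6 : ∀ v, 6 ≤ T.deg v := fun v => by have := hT v; omega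
  change (T.step (T.step (T.step g e₁) x) y).2 = (T.step g e₂).2 at h
  change (T.step (T.step g e₁) x).2 ≠ g.2 at hca
  change (T'.step (T'.step (T'.step g' e₁) x) y).2 = (T'.step g' e₂).2
  have au := adj_step hg e₁
  have av := adj_step hg e₂
  have au' := adj_step hg' e₁
  have av' := adj_step hg' e₂
  have d₂ := step_dart (step_dart hg e₁) x
  have d₂' := step_dart (step_dart hg' e₁) x
  have uc := adj_step (step_dart hg e₁) x
  have uc' := adj_step (step_dart hg' e₁) x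
  have cv := adj_step d₂ y
  have cv' := adj_step d₂' y
  rw [h] at cv
  obtain ⟨A1, A2, A3, A4⟩ := quad_half hT hT' hk hg hg' hd (e₁ := e₁) (e₂ := e₂) (x := x)
    rfl rfl rfl rfl rfl rfl rfl rfl cv.symm
  have P : ∀ s ≤ 2, T.rot (T.step (T.step g e₁) x).2 (T.step g e₁).2 s = (T.step g e₂).2 →
      T'.rot (T'.step (T'.step g' e₁) x).2 (T'.step g' e₁).2 s =
        (T'.step (T'.step (T'.step g' e₁) x) y).2 := fun s hs h1 =>
    tr_plus hT hT' hk d₂ d₂' hs (h1.trans h.symm)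
  have M : ∀ s ≤ 2, T.rot (T.step (T.step g e₁) x).2 (T.step g e₂).2 s = (T.step g e₁).2 →
      T'.rot (T'.step (T'.step g' e₁) x).2 (T'.step (T'.step (T'.step g' e₁) x) y).2 s =
        (T'.step g' e₁).2 := fun s hs h1 =>
    tr_minus hT hT' hk d₂ d₂' hs (by rw [h]; exact h1)
  rcases quad_shape h6 au av uc cv.symm (fun h => he (step_inj hg (hT _) h)) hca with
    h1 | h1 | h1 | h1
  · obtain ⟨a1, a2, a3⟩ := A1 h1
    have ac := h1.1 ▸ adj_nx1 au
    have ac' := a1 ▸ adj_nx1 au'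
    have m := M 2 le_rfl (by rw [rot_two, face1 ac h1.2, face2 au h1.1])
    refine rot_cancel cv' a3.symm 2 ?_
    rw [m, rot_two, face1 ac' a2, face2 au' a1]
  · obtain ⟨a1, a2, a3⟩ := A2 h1
    have ac := h1.1 ▸ adj_nx1 av
    have ac' := a1 ▸ adj_nx1 av'
    have m := P 2 le_rfl (by rw [rot_two, face1 ac h1.2, face2 av h1.1])
    rw [← m, rot_two, face1 ac' a2, face2 av' a1]
  · obtain ⟨a1, a2, a3⟩ := A3 h1
    exact nx_inj cv' a3.symm ((M 1 (by omega) h1.2).trans a2.symm)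
  · obtain ⟨a1, a2, a3⟩ := A4 h1
    exact (P 1 (by omega) h1.2).symm.trans a2

theorem AS_eq_sum (g : V × V) (e : Fin k) (w : Wd k) :
    T.AS (T.step g e) w = ∑ i ∈ Finset.range w.length,
      T.ang (T.hd g ((e :: w).take (i + 1))) (T.hd g ((e :: w).take i))
        (T.hd g ((e :: w).take (i + 2))) := by
  induction w generalizing g e with
  | nil => simp [AS]
  | cons x w ih =>
    rw [AS, ih, List.length_cons, Finset.sum_range_succ', add_comm]
    congr 1

theorem two_d_le {g : V × V} (hg : T.Dart g) {β₁ β₂ : Wd k} (h : T.hd g β₁ = T.hd g β₂) (i : ℕ) :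
    T.d g.2 (T.hd g (β₁.take i)) ≤ (β₁.length + β₂.length) / 2 := by
  have h1 := d_hd_le hg (β₁.take i)
  have h2 := d_hd_le hg β₂
  have h3 := d_hd_take_le hg β₁ (i := min i β₁.length) (j := β₁.length) (min_le_right _ _) le_rfl
  rw [List.take_length, ← List.take_take, List.take_length, h, d_comm] at h3
  have h4 := d_tri (T := T) g.2 (T.hd g β₂) (T.hd g (β₁.take i))
  rw [List.length_take] at h1
  omega

theorem exists_excess (hT : ∀ v, k ≤ T.deg v) (hT' : ∀ v, T'.deg v = k) (hk : 10 ≤ k) {g : V × V}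
    (hg : T.Dart g) {g' : V' × V'} (hg' : T'.Dart g') {β₁ β₂ : Wd k}
    (hm : 2 ≤ β₁.length + β₂.length) (h : T.hd g β₁ = T.hd g β₂)
    (h' : T'.hd g' β₁ ≠ T'.hd g' β₂) :
    ∃ v, T.deg v ≠ k ∧ T.d g.2 v < (β₁.length + β₂.length) / 2 := by
  by_contra hcon
  refine h' (rig hT hT' hk hg hg' (R := (β₁.length + β₂.length) / 2) (by omega) (fun v hv => ?_)
    (two_d_le hg h) (fun i => ?_) h)
  · by_contra hne
    exact hcon ⟨v, hne, hv⟩
  · rw [add_comm]; exact two_d_le hg h.symm i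

theorem loop_one (hT : ∀ v, k ≤ T.deg v) (hT' : ∀ v, T'.deg v = k) (hk : 10 ≤ k) {g : V × V}
    (hg : T.Dart g) {g' : V' × V'} (hg' : T'.Dart g') {e : Fin k} {w : Wd k}
    (h : T.Loop T' g g' (e :: w) []) :
    2 ≤ w.length ∧ T.AS (T.step g e) w ≤ 7 * (w.length + 1) ∧
      ∃ v, T.deg v ≠ k ∧ T.d g.2 v < (w.length + 1) / 2 := by
  obtain ⟨-, h1, h2, -, h4⟩ := h
  have h8 : ∀ v, 8 ≤ T.deg v := fun v => by have := hT v; omega
  have hw : 2 ≤ w.length := by
    obtain _ | ⟨x, _ | ⟨y, w⟩⟩ := w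
    · exact absurd h1.symm (adj_step hg e).ne
    · exact absurd (short_two hT hT' hk hg hg' h1) h2
    · simp
  refine ⟨hw, ?_, ?_⟩
  · have hp : ∀ i < w.length + 1, (e :: w).take i <+: e :: w ∧ (e :: w).take i ≠ e :: w :=
      fun i hi => ⟨List.take_prefix _ _, fun h => by
        have := congrArg List.length h
        simp only [List.length_take, List.length_cons] at this
        omega⟩
    have := turn h8 (fun i => T.hd g ((e :: w).take i)) (m := w.length + 1) (by omega)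
      (fun i hi => adj_hd_take hg _ (by simpa using hi))
      (by
        have : (e :: w).take (w.length + 1) = e :: w := List.take_of_length_le (by simp)
        simp only [this, List.take_zero]; exact h1)
      (fun i hi j hj hij => by
        have := congrArg List.length (h4 _ _ (Or.inl (hp i hi)) (Or.inl (hp j hj)) hij)
        simp only [List.length_take, List.length_cons] at this
        omega)
    rw [AS_eq_sum]
    simp only [Nat.add_sub_cancel] at this
    omega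
  · simpa using exists_excess hT hT' hk hg hg' (by simp; omega) h1 h2

theorem loop_two_sum (hT : ∀ v, k ≤ T.deg v) (hk : 10 ≤ k) {g : V × V}
    (hg : T.Dart g) {g' : V' × V'} {e₁ e₂ : Fin k} {w₁ w₂ : Wd k}
    (h : T.Loop T' g g' (e₁ :: w₁) (e₂ :: w₂)) (hm : 1 ≤ w₁.length + w₂.length) :
    T.AS (T.step g e₁) w₁ + T.AS (T.step g e₂) w₂ + T.ang g.2 (T.step g e₁).2 (T.step g e₂).2
        ≤ 7 * (w₁.length + w₂.length + 2) := by
  obtain ⟨-, h1, -, h3, h4⟩ := h
  have h8 : ∀ v, 8 ≤ T.deg v := fun v => by have := hT v; omega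
  set n₁ := w₁.length with hn₁
  set n₂ := w₂.length with hn₂
  let W₁ : ℕ → V := fun i => T.hd g ((e₁ :: w₁).take i)
  let W₂ : ℕ → V := fun i => T.hd g ((e₂ :: w₂).take i)
  let u : ℕ → Wd k := fun i =>
    if i < n₁ + 1 then (e₁ :: w₁).take i else (e₂ :: w₂).take (n₁ + n₂ + 2 - i)
  have hend : W₁ (n₁ + 1) = W₂ (n₂ + 1) := by
    have a : (e₁ :: w₁).take (n₁ + 1) = e₁ :: w₁ := List.take_of_length_le (by simp [hn₁])
    have b : (e₂ :: w₂).take (n₂ + 1) = e₂ :: w₂ := List.take_of_length_le (by simp [hn₂])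
    simp only [W₁, W₂, a, b]; exact h1
  have f₁ : ∀ i ≤ n₁ + 1, T.hd g (u i) = W₁ i := fun i hi => by
    by_cases h : i < n₁ + 1
    · simp only [u, if_pos h, W₁]
    · obtain rfl : i = n₁ + 1 := by omega
      rw [hend]
      simp only [u, if_neg h, W₂]
      congr 2; omega
  have f₂ : ∀ i j, i + j = n₁ + n₂ + 2 → n₁ + 1 ≤ i → T.hd g (u i) = W₂ j := fun i j hj hi => by
    simp only [u, if_neg (not_lt.2 hi), W₂]
    congr 2; omega
  have hp : ∀ i, (u i <+: e₁ :: w₁ ∧ u i ≠ e₁ :: w₁) ∨ u i <+: e₂ :: w₂ := fun i => by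
    by_cases h : i < n₁ + 1
    · simp only [u, if_pos h]
      refine Or.inl ⟨List.take_prefix _ _, fun h => ?_⟩
      have := congrArg List.length h
      simp only [List.length_take, List.length_cons] at this
      omega
    · simp only [u, if_neg h]
      exact Or.inr (List.take_prefix _ _)
  have a₁ : ∀ i ≤ n₁, T.G.Adj (W₁ i) (W₁ (i + 1)) := fun i hi =>
    adj_hd_take hg _ (by simp only [List.length_cons]; omega)
  have a₂ : ∀ i ≤ n₂, T.G.Adj (W₂ i) (W₂ (i + 1)) := fun i hi =>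
    adj_hd_take hg _ (by simp only [List.length_cons]; omega)
  have mixed : ∀ i j, i < n₁ + 1 → ¬ j < n₁ + 1 → j < n₁ + n₂ + 2 → u i ≠ u j :=
    fun i j hi hj hj' he => by
      have p₁ : u j <+: e₁ :: w₁ := by
        rw [← he]; simp only [u, if_pos hi]; exact List.take_prefix _ _
      have p₂ : u j <+: e₂ :: w₂ := by
        simp only [u, if_neg hj]; exact List.take_prefix _ _
      have := congrArg List.length (h3 _ p₁ p₂)
      simp only [u, if_neg hj, List.length_take, List.length_cons, List.length_nil] at this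
      omega
  have key := turn h8 (fun i => T.hd g (u i)) (m := n₁ + n₂ + 2) (by omega)
    (fun i hi => by
      by_cases h : i < n₁ + 1
      · rw [f₁ i (by omega), f₁ (i + 1) (by omega)]; exact a₁ i (by omega)
      · rw [f₂ i (n₁ + n₂ + 1 - i + 1) (by omega) (by omega),
          f₂ (i + 1) (n₁ + n₂ + 1 - i) (by omega) (by omega)]
        exact (a₂ _ (by omega)).symm)
    (by rw [f₂ _ 0 rfl (by omega), f₁ 0 (by omega)]; rfl)
    (fun i hi j hj hij => by
      have he := h4 _ _ (hp i) (hp j) hij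
      by_cases h : i < n₁ + 1 <;> by_cases h' : j < n₁ + 1
      · have := congrArg List.length he
        simp only [u, if_pos h, if_pos h', List.length_take, List.length_cons] at this
        omega
      · exact absurd he (mixed i j h h' hj)
      · exact absurd he.symm (mixed j i h' h hi)
      · have := congrArg List.length he
        simp only [u, if_neg h, if_neg h', List.length_take, List.length_cons] at this
        omega)
  have e0 : T.ang (T.hd g (u 0)) (T.hd g (u (n₁ + n₂ + 2 - 1))) (T.hd g (u 1)) =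
      T.ang g.2 (T.step g e₁).2 (T.step g e₂).2 := by
    rw [f₁ 0 (by omega), f₁ 1 (by omega), f₂ _ 1 (by omega) (by omega)]
    exact ang_symm (adj_step hg e₂) (adj_step hg e₁)
  have e1 : ∑ i ∈ Finset.range n₁,
      T.ang (T.hd g (u (i + 1))) (T.hd g (u i)) (T.hd g (u (i + 2))) = T.AS (T.step g e₁) w₁ := by
    rw [AS_eq_sum]
    refine Finset.sum_congr rfl fun i hi => ?_
    have := Finset.mem_range.1 hi
    rw [f₁ _ (by omega), f₁ _ (by omega), f₁ _ (by omega)]
  have e2 : ∑ i ∈ Finset.range n₂, T.ang (T.hd g (u (n₁ + 1 + i + 1))) (T.hd g (u (n₁ + 1 + i)))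
      (T.hd g (u (n₁ + 1 + i + 2))) = T.AS (T.step g e₂) w₂ := by
    rw [AS_eq_sum, ← Finset.sum_range_reflect]
    refine Finset.sum_congr rfl fun i hi => ?_
    have := Finset.mem_range.1 hi
    rw [f₂ _ (i + 1) (by omega) (by omega), f₂ _ (i + 2) (by omega) (by omega),
      f₂ _ i (by omega) (by omega)]
    exact ang_symm (a₂ (i + 1) (by omega)) (a₂ i (by omega)).symm
  have e3 : n₁ + n₂ + 2 - 1 = n₁ + 1 + n₂ := by omega
  rw [e0, e3, Finset.sum_range_add, Finset.sum_range_succ, e1, e2] at key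
  omega

theorem loop_two (hT : ∀ v, k ≤ T.deg v) (hT' : ∀ v, T'.deg v = k) (hk : 10 ≤ k) {g : V × V}
    (hg : T.Dart g) {g' : V' × V'} (hg' : T'.Dart g') {e₁ e₂ : Fin k} {w₁ w₂ : Wd k}
    (h : T.Loop T' g g' (e₁ :: w₁) (e₂ :: w₂)) :
    2 ≤ w₁.length + w₂.length ∧
      T.AS (T.step g e₁) w₁ + T.AS (T.step g e₂) w₂ + T.ang g.2 (T.step g e₁).2 (T.step g e₂).2
        ≤ 7 * (w₁.length + w₂.length + 2) ∧
      ∃ v, T.deg v ≠ k ∧ T.d g.2 v < (w₁.length + w₂.length + 2) / 2 ∧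
        (w₁.length + w₂.length = 2 → v = g.2) := by
  have h0 := h
  obtain ⟨-, h1, h2, h3, h4⟩ := h
  have he : e₁ ≠ e₂ := fun he => by
    subst he
    exact absurd (h3 [e₁] (by simp) (by simp)) (by simp)
  have hw : 2 ≤ w₁.length + w₂.length := by
    obtain _ | ⟨x, _ | ⟨x', w₁⟩⟩ := w₁ <;> obtain _ | ⟨y, _ | ⟨y', w₂⟩⟩ := w₂ <;>
      try (simp only [List.length_cons, List.length_nil]; omega)
    · exact absurd (step_inj hg (hT _) h1) he
    · exact absurd (short_three hT hT' hk hg hg' h1.symm).symm h2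
    · exact absurd (short_three hT hT' hk hg hg' h1) h2
  refine ⟨hw, loop_two_sum hT hk hg h0 (by omega), ?_⟩
  by_cases h4' : w₁.length + w₂.length = 2
  · refine ⟨g.2, fun hd => h2 ?_, by rw [d_self]; omega, fun _ => rfl⟩
    have hn : ∀ u, ((u <+: e₁ :: w₁ ∧ u ≠ e₁ :: w₁) ∨ u <+: e₂ :: w₂) → u ≠ [] →
        T.hd g u ≠ g.2 := fun u hu hne h => hne (h4 u [] hu (Or.inr (by simp)) h)
    obtain _ | ⟨x, _ | ⟨x', _ | ⟨x'', w₁⟩⟩⟩ := w₁ <;>
      obtain _ | ⟨y, _ | ⟨y', _ | ⟨y'', w₂⟩⟩⟩ := w₂ <;>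
      try (simp only [List.length_cons, List.length_nil] at h4'; omega)
    · exact (short_four_b hT hT' hk hg hg' hd he.symm
        (hn [e₂, y] (Or.inr (by simp)) (by simp)) h1.symm).symm
    · exact short_four_a hT hT' hk hg hg' hd he (hn [e₂, y] (Or.inr (by simp)) (by simp)) h1
    · exact short_four_b hT hT' hk hg hg' hd he
        (hn [e₁, x] (Or.inl ⟨by simp, by simp⟩) (by simp)) h1
  · obtain ⟨v, hv, hv'⟩ := exists_excess hT hT' hk hg hg' (by simp; omega) h1 h2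
    refine ⟨v, hv, ?_, fun h => absurd h h4'⟩
    simp only [List.length_cons] at hv'
    omega

end PlaneTri
end Pool.Agent.P.MP_e4ac67_pr
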