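import Pool.Agent.P.MP_e4ac67_pr.Rad
import Pool.Agent.P.MP_e4ac67_pr.Loop

/-! TASK FAIL: the weight of failing loops. -/

open scoped ENNReal

namespace Pool.Agent.P.MP_e4ac67_pr

theorem fail_trunc {α : Type*} (f : List α → ℝ≥0∞) {C : ℝ≥0∞}
    (h : ∀ n, ∑' w, ind (w.length ≤ n) * f w ≤ C) : ∑' w, f w ≤ C := by
  rw [ENNReal.tsum_eq_iSup_sum]
  refine iSup_le fun s => ?_
  refine le_trans ?_ (h (s.sup List.length))
  refine le_trans (le_of_eq ?_) (ENNReal.sum_le_tsum s)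
  refine Finset.sum_congr rfl fun w hw => ?_
  rw [ind_of (Finset.le_sup (f := List.length) hw), one_mul]

theorem fail_geo {ι : Type*} (f : ι → ℕ) (hf : Function.Injective f) :
    ∑' e, (2⁻¹ : ℝ≥0∞) ^ f e ≤ 2 := by
  have h := ENNReal.tsum_comp_le_tsum_of_injective hf (fun j : ℕ => (2⁻¹ : ℝ≥0∞) ^ j)
  rw [ENNReal.tsum_geometric, ENNReal.one_sub_inv_two, inv_inv] at h
  exact h

theorem fail_half_le_one : (2⁻¹ : ℝ≥0∞) ≤ 1 := by simp

theorem fail_pow {A m : ℕ} (h : A ≤ 7 * m) : (1 : ℝ≥0∞) ≤ 128 ^ m * 2⁻¹ ^ A := by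
  have h1 : (2⁻¹ : ℝ≥0∞) ^ (7 * m) ≤ 2⁻¹ ^ A := pow_le_pow_of_le_one zero_le fail_half_le_one h
  have h2 : (128 : ℝ≥0∞) ^ m * 2⁻¹ ^ (7 * m) = 1 := by
    rw [pow_mul, ← mul_pow]
    have : (128 : ℝ≥0∞) * 2⁻¹ ^ 7 = 1 := by
      have e : (128 : ℝ≥0∞) = 2 ^ 7 := by norm_num
      rw [e, ← mul_pow, ENNReal.mul_inv_cancel (by simp) (by simp), one_pow]
    rw [this, one_pow]
  rw [← h2]
  gcongr

/-- the key monomial estimate -/
theorem fail_key {k : ℕ} (Q : Par k) {b s m A : ℕ} (hb : b ≤ m) (hs : s ≤ m) (hm : m ≤ 8 * s)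
    (hA : A ≤ 7 * m) :
    Q.p ^ (b + 2 + s) ≤ wA Q.p b * (5 * Q.u ^ 8) * ((2621440 * Q.u) ^ m * 2⁻¹ ^ A) := by
  have e1 : Q.p ^ (b + 1) = wA Q.p b * 4096 ^ b := by
    rw [wA, mul_assoc, ← mul_pow, mul_comm (lam * Q.p), ← mul_assoc, lam_mul, one_mul, pow_succ']
  have h1 : Q.p ^ s ≤ 5 ^ m * Q.u ^ m := by
    calc Q.p ^ s ≤ (5 * Q.u ^ 8) ^ s := by gcongr; exact Q.hp
      _ = 5 ^ s * Q.u ^ (8 * s) := by rw [mul_pow, ← pow_mul]
      _ ≤ 5 ^ m * Q.u ^ m := by
        refine mul_le_mul' (pow_le_pow_right₀ (by norm_num) hs) ?_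
        exact pow_le_pow_of_le_one zero_le Q.u_le_one hm
  have h2 : (4096 : ℝ≥0∞) ^ b ≤ 4096 ^ m := pow_le_pow_right₀ (by norm_num) hb
  have e2 : (2621440 * Q.u) ^ m = 4096 ^ m * (5 ^ m * Q.u ^ m) * 128 ^ m := by
    rw [← mul_pow, ← mul_pow, ← mul_pow]
    congr 1
    ring
  calc Q.p ^ (b + 2 + s) = Q.p ^ (b + 1) * Q.p * Q.p ^ s * 1 := by ring
    _ ≤ wA Q.p b * 4096 ^ m * (5 * Q.u ^ 8) * (5 ^ m * Q.u ^ m) * (128 ^ m * 2⁻¹ ^ A) := by
      rw [e1]
      gcongr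
      · exact Q.hp
      · exact fail_pow hA
    _ = _ := by rw [e2]; ring

theorem fail_x8 {k : ℕ} (Q : Par k) : 8 * (2621440 * Q.u) ≤ 1 := by
  refine le_trans ?_ Q.small
  rw [← mul_assoc]
  gcongr
  norm_num

theorem fail_kp0 {k : ℕ} (Q : Par k) : (k : ℝ≥0∞) * (5 * Q.u ^ 8) = 5 := by
  rw [mul_left_comm, Q.ku, mul_one]

namespace PlaneTri
variable {V V' : Type} {T : PlaneTri V} {T' : PlaneTri V'} {k : ℕ}

theorem fail_ang (hT : ∀ v, k ≤ T.deg v) {g : V × V} (hg : T.Dart g) {a : V}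
    (ha : T.G.Adj g.2 a) :
    ∑' e : Fin k, (2⁻¹ : ℝ≥0∞) ^ T.ang g.2 a (T.step g e).2 ≤ 4 := by
  have hadj : ∀ e : Fin k, T.G.Adj g.2 (T.step g e).2 := fun e => step_dart hg e
  have hinj : Function.Injective fun e : Fin k => T.pos g.2 a (T.step g e).2 := by
    intro e e' h
    refine step_inj hg (hT _) ?_
    rw [← rot_pos ha (hadj e), ← rot_pos ha (hadj e')]
    exact congrArg _ h
  have hinj' : Function.Injective fun e : Fin k => T.deg g.2 - T.pos g.2 a (T.step g e).2 := by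
    intro e e' h
    apply hinj
    have h1 := pos_lt ha (hadj e)
    have h2 := pos_lt ha (hadj e')
    simp only at h ⊢
    omega
  calc ∑' e : Fin k, (2⁻¹ : ℝ≥0∞) ^ T.ang g.2 a (T.step g e).2
      ≤ ∑' e : Fin k, ((2⁻¹ : ℝ≥0∞) ^ T.pos g.2 a (T.step g e).2 +
          2⁻¹ ^ (T.deg g.2 - T.pos g.2 a (T.step g e).2)) := by
        refine ENNReal.tsum_le_tsum fun e => ?_
        rw [ang]
        rcases min_choice (T.pos g.2 a (T.step g e).2)
          (T.deg g.2 - T.pos g.2 a (T.step g e).2) with h | h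
        · rw [h]; exact le_self_add
        · rw [h]; exact le_add_self
    _ ≤ 2 + 2 := by
        rw [ENNReal.tsum_add]
        exact add_le_add (fail_geo _ hinj) (fail_geo _ hinj')
    _ = 4 := by norm_num

theorem fail_words (hT : ∀ v, k ≤ T.deg v) {x : ℝ≥0∞} (hx : 8 * x ≤ 1) {g : V × V}
    (hg : T.Dart g) : ∑' w : Wd k, x ^ w.length * 2⁻¹ ^ T.AS g w ≤ 2 := by
  refine fail_trunc _ fun n => ?_
  induction n generalizing g with
  | zero =>
    rw [tsum_list]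
    have : ∀ e : Fin k, ∑' w : Wd k, ind ((e :: w).length ≤ 0) *
        (x ^ (e :: w).length * 2⁻¹ ^ T.AS g (e :: w)) = 0 := by
      intro e
      refine ENNReal.tsum_eq_zero.2 fun w => ?_
      rw [ind_of_not (by simp), zero_mul]
    simp only [this, tsum_zero, add_zero]
    rw [ind_of (by simp)]
    simp [AS]
  | succ n ih =>
    rw [tsum_list]
    have h1 : ∀ e : Fin k, ∑' w : Wd k, ind ((e :: w).length ≤ n + 1) *
        (x ^ (e :: w).length * 2⁻¹ ^ T.AS g (e :: w)) ≤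
        2 * x * 2⁻¹ ^ T.ang g.2 g.1 (T.step g e).2 := by
      intro e
      calc _ = ∑' w : Wd k, x * 2⁻¹ ^ T.ang g.2 g.1 (T.step g e).2 * (ind (w.length ≤ n) *
            (x ^ w.length * 2⁻¹ ^ T.AS (T.step g e) w)) := by
            refine tsum_congr fun w => ?_
            rw [ind_congr (B := w.length ≤ n) (by simp), AS, List.length_cons, pow_succ, pow_add]
            ring
        _ ≤ x * 2⁻¹ ^ T.ang g.2 g.1 (T.step g e).2 * 2 := by
            rw [ENNReal.tsum_mul_left]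
            gcongr
            exact ih (step_dart hg e)
        _ = _ := by ring
    calc _ ≤ 1 + ∑' e : Fin k, 2 * x * 2⁻¹ ^ T.ang g.2 g.1 (T.step g e).2 := by
          refine add_le_add ?_ (ENNReal.tsum_le_tsum h1)
          rw [ind_of (by simp)]
          simp [AS]
      _ ≤ 1 + 2 * x * 4 := by
          rw [ENNReal.tsum_mul_left]
          gcongr
          exact fail_ang hT hg hg.symm
      _ = 1 + 8 * x := by ring
      _ ≤ 1 + 1 := by gcongr
      _ = 2 := by norm_num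

theorem fail_one (hT : ∀ v, k ≤ T.deg v) (hT' : ∀ v, T'.deg v = k) (Q : Par k) {g : V × V}
    (hg : T.Dart g) {δ : V' × V'} (hδ : T'.Dart δ) {b : ℕ}
    (hb : ∀ v, T.deg v ≠ k → b ≤ T.d g.2 v) :
    ∑' β : Wd k, ind (T.Loop T' g δ β []) * Q.p ^ β.length ≤
      wA Q.p b * (10 * (2621440 * Q.u)) := by
  have hk : 10 ≤ k := le_trans (by norm_num) Q.big
  set x := 2621440 * Q.u with hx
  rw [tsum_list, ind_of_not (fun h => h.1 rfl), zero_mul, zero_add]
  have h1 : ∀ e : Fin k, ∑' w : Wd k, ind (T.Loop T' g δ (e :: w) []) * Q.p ^ (e :: w).length ≤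
      wA Q.p b * (5 * Q.u ^ 8) * x * 2 := by
    intro e
    calc _ ≤ ∑' w : Wd k, wA Q.p b * (5 * Q.u ^ 8) * x *
          (x ^ w.length * 2⁻¹ ^ T.AS (T.step g e) w) := by
          refine ENNReal.tsum_le_tsum fun w => ind_mul_le fun h => ?_
          obtain ⟨h2, h3, v, hv, hd⟩ := loop_one hT hT' hk hg hδ h
          have h4 := hb v hv
          have h5 : (e :: w).length = b + 2 + (w.length - 1 - b) := by
            simp only [List.length_cons]; omega
          rw [h5]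
          refine (fail_key Q (m := w.length + 1) (A := T.AS (T.step g e) w) (by omega) (by omega)
            (by omega) h3).trans (le_of_eq ?_)
          rw [← hx]; ring
      _ ≤ _ := by
          rw [ENNReal.tsum_mul_left]
          gcongr
          exact fail_words hT (fail_x8 Q) (step_dart hg e)
  calc _ ≤ ∑' _e : Fin k, wA Q.p b * (5 * Q.u ^ 8) * x * 2 := ENNReal.tsum_le_tsum h1
    _ = wA Q.p b * (k * (5 * Q.u ^ 8) * 2 * x) := by
        rw [tsum_fintype, Finset.sum_const, Finset.card_univ, Fintype.card_fin, nsmul_eq_mul]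
        ring
    _ = _ := by rw [fail_kp0]; norm_num

theorem fail_two (hT : ∀ v, k ≤ T.deg v) (hT' : ∀ v, T'.deg v = k) (Q : Par k) {g : V × V}
    (hg : T.Dart g) {δ : V' × V'} (hδ : T'.Dart δ) {b : ℕ}
    (hb : ∀ v, T.deg v ≠ k → b ≤ T.d g.2 v) :
    ∑' e₂ : Fin k, ∑' w₂ : Wd k, ∑' β : Wd k,
      ind (T.Loop T' g δ β (e₂ :: w₂)) * Q.p ^ (β.length + w₂.length) ≤
      wA Q.p b * (10 * (2621440 * Q.u)) := by
  have hk : 10 ≤ k := le_trans (by norm_num) Q.big
  set x := 2621440 * Q.u with hx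
  set C := wA Q.p b * (5 * Q.u ^ 8) * x ^ 2 with hC
  have h1 : ∀ (e₂ : Fin k) (w₂ : Wd k), ∑' β : Wd k,
      ind (T.Loop T' g δ β (e₂ :: w₂)) * Q.p ^ (β.length + w₂.length) ≤
      C * 8 * (x ^ w₂.length * 2⁻¹ ^ T.AS (T.step g e₂) w₂) := by
    intro e₂ w₂
    rw [tsum_list, ind_of_not (fun h => h.1 rfl), zero_mul, zero_add]
    have h2 : ∀ e₁ : Fin k, ∑' w₁ : Wd k, ind (T.Loop T' g δ (e₁ :: w₁) (e₂ :: w₂)) *
        Q.p ^ ((e₁ :: w₁).length + w₂.length) ≤
        C * 2 * (x ^ w₂.length * 2⁻¹ ^ T.AS (T.step g e₂) w₂) *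
          2⁻¹ ^ T.ang g.2 (T.step g e₂).2 (T.step g e₁).2 := by
      intro e₁
      calc _ ≤ ∑' w₁ : Wd k, C * (x ^ w₂.length * 2⁻¹ ^ T.AS (T.step g e₂) w₂) *
            2⁻¹ ^ T.ang g.2 (T.step g e₂).2 (T.step g e₁).2 *
            (x ^ w₁.length * 2⁻¹ ^ T.AS (T.step g e₁) w₁) := by
            refine ENNReal.tsum_le_tsum fun w₁ => ind_mul_le fun h => ?_
            obtain ⟨h2, h3, v, hv, hd, h4⟩ := loop_two hT hT' hk hg hδ h
            have h5 := hb v hv
            have h6 : w₁.length + w₂.length = 2 → b = 0 := by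
              intro h7
              rw [h4 h7, d_self] at h5
              omega
            have h7 : (e₁ :: w₁).length + w₂.length =
                b + 2 + (w₁.length + w₂.length - 1 - b) := by
              simp only [List.length_cons]; omega
            rw [h7]
            refine (fail_key Q (m := w₁.length + w₂.length + 2) (by omega) (by omega)
              (by omega) h3).trans (le_of_eq ?_)
            have hs : T.ang g.2 (T.step g e₁).2 (T.step g e₂).2 =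
                T.ang g.2 (T.step g e₂).2 (T.step g e₁).2 :=
              ang_symm (step_dart hg e₁) (step_dart hg e₂)
            rw [hs, ← hx, hC]
            ring
        _ ≤ _ := by
            rw [ENNReal.tsum_mul_left]
            calc _ ≤ C * (x ^ w₂.length * 2⁻¹ ^ T.AS (T.step g e₂) w₂) *
                2⁻¹ ^ T.ang g.2 (T.step g e₂).2 (T.step g e₁).2 * 2 := by
                  gcongr
                  exact fail_words hT (fail_x8 Q) (step_dart hg e₁)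
              _ = _ := by ring
    refine (ENNReal.tsum_le_tsum h2).trans ?_
    rw [ENNReal.tsum_mul_left]
    calc _ ≤ C * 2 * (x ^ w₂.length * 2⁻¹ ^ T.AS (T.step g e₂) w₂) * 4 := by
          gcongr
          exact fail_ang hT hg (step_dart hg e₂)
      _ = _ := by ring
  have h2 : ∀ e₂ : Fin k, ∑' w₂ : Wd k, ∑' β : Wd k,
      ind (T.Loop T' g δ β (e₂ :: w₂)) * Q.p ^ (β.length + w₂.length) ≤ C * 8 * 2 := by
    intro e₂
    refine (ENNReal.tsum_le_tsum (h1 e₂)).trans ?_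
    rw [ENNReal.tsum_mul_left]
    gcongr
    exact fail_words hT (fail_x8 Q) (step_dart hg e₂)
  calc _ ≤ ∑' _e : Fin k, C * 8 * 2 := ENNReal.tsum_le_tsum h2
    _ = wA Q.p b * (k * (5 * Q.u ^ 8) * 2 * x) * (8 * x) := by
        rw [tsum_fintype, Finset.sum_const, Finset.card_univ, Fintype.card_fin, nsmul_eq_mul, hC]
        ring
    _ ≤ wA Q.p b * (k * (5 * Q.u ^ 8) * 2 * x) * 1 := by
        gcongr
        exact fail_x8 Q
    _ = _ := by rw [fail_kp0]; norm_num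

theorem fail_core (hT : ∀ v, k ≤ T.deg v) (hT' : ∀ v, T'.deg v = k) (Q : Par k) {g : V × V}
    (hg : T.Dart g) {δ : V' × V'} (hδ : T'.Dart δ) {b : ℕ}
    (hb : ∀ v, T.deg v ≠ k → b ≤ T.d g.2 v) :
    10 ^ 6 * ∑' y : Wd k × Wd k, ind (T.Loop T' g δ y.1 y.2) *
      Q.p ^ (y.1.length + (y.2.length - 1)) ≤ wA Q.p b := by
  rw [ENNReal.tsum_prod', ENNReal.tsum_comm, tsum_list]
  have h1 := fail_one hT hT' Q hg hδ hb
  have h2 := fail_two hT hT' Q hg hδ hb
  simp only [List.length_nil, List.length_cons, Nat.add_sub_cancel, Nat.zero_sub, add_zero]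
  calc _ ≤ 10 ^ 6 * (wA Q.p b * (10 * (2621440 * Q.u)) + wA Q.p b * (10 * (2621440 * Q.u))) := by
        gcongr
    _ = wA Q.p b * (52428800000000 * Q.u) := by ring
    _ ≤ wA Q.p b * (10 ^ 16 * Q.u) := by gcongr; norm_num
    _ ≤ wA Q.p b * 1 := by gcongr; exact Q.small
    _ = _ := mul_one _

theorem fail_ex (hT : ∀ v, k ≤ T.deg v) (hT' : ∀ v, T'.deg v = k) (hk : 10 ≤ k) {g : V × V}
    (hg : T.Dart g) {δ : V' × V'} (hδ : T'.Dart δ) {β₁ β₂ : Wd k}
    (h : T.Loop T' g δ β₁ β₂) :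
    ∃ v, T.deg v ≠ k ∧ (T.d g.2 v < β₁.length ∨ T.d g.2 v < β₂.length) := by
  obtain _ | ⟨e₁, w₁⟩ := β₁
  · exact absurd rfl h.1
  obtain _ | ⟨e₂, w₂⟩ := β₂
  · obtain ⟨-, -, v, hv, hd⟩ := loop_one hT hT' hk hg hδ h
    exact ⟨v, hv, Or.inl (by simp only [List.length_cons]; omega)⟩
  · obtain ⟨-, -, v, hv, hd, -⟩ := loop_two hT hT' hk hg hδ h
    exact ⟨v, hv, by simp only [List.length_cons]; omega⟩

theorem fail_le (hT : ∀ v, k ≤ T.deg v) (hT' : ∀ v, T'.deg v = k) (Q : Par k) {Tg : Set V}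
    (hTg : ∀ v, v ∉ Tg → T.deg v = k) (N : ℕ) {g : V × V}
    (hg : T.Dart g) {δ : V' × V'} (hδ : T'.Dart δ) (P : Wd k → ℝ≥0∞) :
    10 ^ 6 * T.SFail T' N g δ Q.p P ≤ T.SA Tg N g Q.p P := by
  have hk : 10 ≤ k := le_trans (by norm_num) Q.big
  have hmem : ∀ v, T.deg v ≠ k → v ∈ Tg := fun v hv => by_contra fun h => hv (hTg v h)
  rw [SFail, SA, ENNReal.tsum_prod', ENNReal.tsum_prod', ← ENNReal.tsum_mul_left]
  refine ENNReal.tsum_le_tsum fun α => ?_
  have hgα := run_dart hg α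
  have hδα := run_dart hδ α
  by_cases hex : ∃ y : Wd k × Wd k, α.length + y.1.length ≤ N ∧ α.length + y.2.length ≤ N ∧
      T.Loop T' (T.run g α) (T'.run δ α) y.1 y.2
  · obtain ⟨y, h1, h2, h3⟩ := hex
    obtain ⟨v, hv, hd⟩ := fail_ex hT hT' hk hgα hδα h3
    obtain ⟨γ, hc, hq, hγ⟩ := near hTg hgα ⟨v, hmem v hv⟩
    have hst : T.State Tg N g α γ := ⟨hc, hq, by have := hγ v (hmem v hv); omega⟩
    have hcore := fail_core hT hT' Q hgα hδα (b := γ.length) fun z hz => hγ z (hmem z hz)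
    refine le_trans ?_ (ENNReal.le_tsum γ)
    simp only []
    rw [ind_of hst, one_mul]
    calc _ ≤ 10 ^ 6 * ∑' y : Wd k × Wd k, P α * (ind (T.Loop T' (T.run g α) (T'.run δ α) y.1 y.2) *
          Q.p ^ (y.1.length + (y.2.length - 1))) := by
          refine mul_le_mul_right (ENNReal.tsum_le_tsum fun y => ?_) _
          rw [mul_left_comm]
          gcongr
          exact ind_mono fun h => h.2.2
      _ = P α * (10 ^ 6 * ∑' y : Wd k × Wd k, ind (T.Loop T' (T.run g α) (T'.run δ α) y.1 y.2) *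
          Q.p ^ (y.1.length + (y.2.length - 1))) := by
          rw [ENNReal.tsum_mul_left, mul_left_comm]
      _ ≤ _ := by gcongr
  · rw [ENNReal.tsum_eq_zero.2 fun y => ?_, mul_zero]
    · exact zero_le
    · rw [ind_of_not fun h => hex ⟨y, h⟩, zero_mul]

end PlaneTri
end Pool.Agent.P.MP_e4ac67_pr
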