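import Pool.Agent.P.MP_e4ac67_pr.Iface

/-! TASK FRONT: angles along receding paths and the geometry of good states. -/

namespace Pool.Agent.P.MP_e4ac67_pr

variable {V : Type} {T : PlaneTri V} {k : ℕ}

theorem half_pow_le {d i : ℕ} (h : i ≤ 8 * d) : ((1 : ℝ) / 2) ^ d ≤ (15 / 16) ^ i := by
  have h1 : ((1 : ℝ) / 2) ^ d ≤ ((15 / 16 : ℝ) ^ 8) ^ d :=
    pow_le_pow_left₀ (by norm_num) (by norm_num) d
  rw [← pow_mul] at h1
  exact h1.trans (pow_le_pow_of_le_one (by norm_num) (by norm_num) h)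

theorem exists_min_idx (F : ℕ → ℕ) (n : ℕ) : ∃ c ≤ n, ∀ i ≤ n, F c ≤ F i := by
  obtain ⟨c, hc, hm⟩ := Finset.exists_min_image (Finset.range (n + 1)) F ⟨0, by simp⟩
  exact ⟨c, Nat.lt_succ_iff.1 (Finset.mem_range.1 hc),
    fun i hi => hm i (Finset.mem_range.2 (Nat.lt_succ_iff.2 hi))⟩

theorem d_pos_of_ne {a b : V} (h : b ≠ a) : 1 ≤ T.d a b :=
  Nat.pos_of_ne_zero fun h0 => h (PlaneTri.d_eq_zero.1 h0).symm

theorem ne_of_d_pos {a b : V} (h : 1 ≤ T.d a b) : b ≠ a := by
  rintro rfl
  rw [PlaneTri.d_self] at h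
  omega

namespace Rho
variable (R : Rho T)

theorem recede (z : V) (f : ℕ → V) (n : ℕ) (hadj : ∀ i < n, T.G.Adj (f i) (f (i + 1)))
    (hz : ∀ i ≤ n, f i ≠ z) (h : ∀ i ≤ n, i ≤ 8 * T.d z (f i)) : R.ρ z (f 0) (f n) ≤ 64 := by
  have key : ∀ m ≤ n, R.ρ z (f 0) (f m) ≤ 64 * (1 - (15 / 16 : ℝ) ^ m) := by
    intro m
    induction m with
    | zero => intro _; rw [R.self]; simp
    | succ m ih =>
      intro hm
      have h1 := ih (by omega)
      have h2 := R.tri z (f 0) (f m) (f (m + 1))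
      have h3 := R.adj z (f m) (f (m + 1)) (hadj m (by omega)) (hz m (by omega)) (hz _ hm)
      have h4 := half_pow_le (h m (by omega))
      rw [pow_succ]
      linarith
  have h1 := key n le_rfl
  have h2 : (0 : ℝ) ≤ (15 / 16 : ℝ) ^ n := by positivity
  linarith

theorem recede2 (z : V) (f : ℕ → V) (n : ℕ) (hadj : ∀ i < n, T.G.Adj (f i) (f (i + 1)))
    (hz : ∀ i ≤ n, f i ≠ z) {c : ℕ} (hc : c ≤ n)
    (h : ∀ i ≤ n, i - c ≤ 8 * T.d z (f i) ∧ c - i ≤ 8 * T.d z (f i)) :
    R.ρ z (f 0) (f n) ≤ 128 := by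
  have h1 := R.recede z (fun i => f (c - i)) c
    (fun i hi => by
      have := (hadj (c - (i + 1)) (by omega)).symm
      rwa [show c - (i + 1) + 1 = c - i by omega] at this)
    (fun i _ => hz _ (by omega))
    (fun i hi => by
      have := (h (c - i) (by omega)).2
      rwa [show c - (c - i) = i by omega] at this)
  have h2 := R.recede z (fun i => f (c + i)) (n - c)
    (fun i hi => hadj (c + i) (by omega))
    (fun i hi => hz _ (by omega))
    (fun i hi => by
      have := (h (c + i) (by omega)).1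
      rwa [show c + i - c = i by omega] at this)
  simp only [Nat.sub_zero, Nat.sub_self, Nat.add_zero] at h1 h2
  rw [show c + (n - c) = n by omega] at h2
  have h3 := R.tri z (f 0) (f c) (f n)
  rw [R.symm z (f 0) (f c)] at h3
  linarith

theorem quasi (z : V) (f : ℕ → V) (n : ℕ) (hadj : ∀ i < n, T.G.Adj (f i) (f (i + 1)))
    (hz : ∀ i ≤ n, f i ≠ z) (h : ∀ i j, i ≤ j → j ≤ n → j - i ≤ 4 * T.d (f i) (f j)) :
    R.ρ z (f 0) (f n) ≤ 128 := by
  obtain ⟨c, hc, hm⟩ := exists_min_idx (fun i => T.d z (f i)) n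
  refine R.recede2 z f n hadj hz hc fun i hi => ?_
  have h1 := hm i hi
  have h2 := PlaneTri.d_tri (T := T) (f c) z (f i)
  have h3 := PlaneTri.d_comm (T := T) (f c) z
  have h4 := PlaneTri.d_comm (T := T) (f c) (f i)
  rcases le_total c i with hci | hci
  · have := h c i hci hi
    omega
  · have := h i c hci hc
    omega

theorem pass {z p q : V} (hp : p ≠ z) (hq : q ≠ z) (h : 128 < R.ρ z p q) :
    T.d p q = T.d p z + T.d z q := by
  by_contra hne
  obtain ⟨f, h0, h1, h2, h3⟩ := PlaneTri.exists_geo (T := T) p q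
  have := R.quasi z f (T.d p q) h2
    (fun i hi he => by
      have a1 := h3 0 i (Nat.zero_le _) hi
      have a2 := h3 i _ hi le_rfl
      rw [h0, he] at a1
      rw [h1, he] at a2
      omega)
    (fun i j hij hj => by have := h3 i j hij hj; omega)
  rw [h0, h1] at this
  linarith

theorem beyond {o z p : V} (hz : z ≠ o) (h : T.d o p = T.d o z + T.d z p) : R.ρ o z p ≤ 64 := by
  obtain ⟨f, h0, h1, h2, h3⟩ := PlaneTri.exists_geo (T := T) z p
  have hoz : 1 ≤ T.d o z := d_pos_of_ne hz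
  have key : ∀ i ≤ T.d z p, i + 1 ≤ T.d o (f i) := fun i hi => by
    have a1 := h3 i _ hi le_rfl
    rw [h1] at a1
    have a2 := PlaneTri.d_tri (T := T) o (f i) p
    omega
  have := R.recede o f (T.d z p) h2 (fun i hi => ne_of_d_pos (T := T) (by have := key i hi; omega))
    (fun i hi => by have := key i hi; omega)
  rwa [h0, h1] at this

theorem adj_le {z p q : V} (h : T.G.Adj p q) (hp : p ≠ z) (hq : q ≠ z) : R.ρ z p q ≤ 2 := by
  have h1 := R.adj z p q h hp hq
  have h2 : ((1 : ℝ) / 2) ^ T.d z p ≤ (1 / 2) ^ 1 :=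
    pow_le_pow_of_le_one (by norm_num) (by norm_num) (d_pos_of_ne hp)
  linarith

/-- a path that never wraps around a target has bounded angle seen from a target it avoids -/
theorem nowrap {Tg : Set V} {g : V × V} (hg : T.Dart g) {σ : Wd k}
    (h : ∀ α w, α ++ w <+: σ → ¬T.WrapAt Tg g α w) {z : V} (hz : z ∈ Tg)
    (hne : ∀ i ≤ σ.length, T.hd g (σ.take i) ≠ z) : R.ρ z g.2 (T.hd g σ) ≤ 128 := by
  have key : ∀ a b, a ≤ b → b ≤ σ.length → 9 ≤ b - a →
      8 * T.d z (T.hd g (σ.take a)) < b - a → 8 * T.d z (T.hd g (σ.take b)) < b - a → False := by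
    intro a b hab hb h9 h1 h2
    have e1 : σ.take a ++ (σ.take b).drop a = σ.take b := by
      have : σ.take a = (σ.take b).take a := by rw [List.take_take, min_eq_left hab]
      rw [this, List.take_append_drop]
    have e2 : ((σ.take b).drop a).length = b - a := by
      rw [List.length_drop, List.length_take, min_eq_left hb]
    refine h (σ.take a) ((σ.take b).drop a) (by rw [e1]; exact List.take_prefix _ _) ?_
    refine ⟨by rw [e2]; exact h9, z, hz, ?_, ?_⟩
    · rw [e2, PlaneTri.d_comm]; exact h1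
    · rw [e1, e2, PlaneTri.d_comm]; exact h2
  obtain ⟨c, hc, hm⟩ := exists_min_idx (fun i => T.d z (T.hd g (σ.take i))) σ.length
  have := R.recede2 z (fun i => T.hd g (σ.take i)) σ.length
    (fun i hi => PlaneTri.adj_hd_take hg σ hi) hne hc fun i hi => by
      have h1 := hm i hi
      have h2 : 1 ≤ T.d z (T.hd g (σ.take i)) := d_pos_of_ne (hne i hi)
      constructor
      · by_contra hlt
        exact key c i (by omega) hi (by omega) (by omega) (by omega)
      · by_contra hlt
        exact key i c (by omega) hc (by omega) (by omega) (by omega)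
  simpa using this

/-- a non-slow word stays in the front of its gate -/
theorem nonslow {g : V × V} (hg : T.Dart g) {w : Wd k}
    (h : ∀ i ≤ w.length, ¬T.Slow g (w.take i)) :
    R.ρ g.1 g.2 (T.hd g w) ≤ 64 ∧ (w ≠ [] → T.hd g w ∈ R.Fr g) := by
  have key : ∀ i ≤ w.length, i + 3 < 4 * T.d g.1 (T.hd g (w.take i)) := fun i hi => by
    have := h i hi
    rw [PlaneTri.Slow, List.length_take, min_eq_left hi] at this
    omega
  have h1 := R.recede g.1 (fun i => T.hd g (w.take i)) w.length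
    (fun i hi => PlaneTri.adj_hd_take hg w hi)
    (fun i hi => ne_of_d_pos (T := T) (by have := key i hi; omega))
    (fun i hi => by have := key i hi; omega)
  have h2 : R.ρ g.1 g.2 (T.hd g w) ≤ 64 := by simpa using h1
  refine ⟨h2, fun hw => ⟨?_, by linarith⟩⟩
  have h3 := key w.length le_rfl
  rw [List.take_length] at h3
  have h4 : 0 < w.length := List.length_pos_of_ne_nil hw
  omega

end Rho

namespace PlaneTri.Good
variable {g : V × V} {σ γ : Wd k}

theorem d_root (h : T.Good g σ γ) {i : ℕ} (hi : i ≤ σ.length + γ.length) :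
    i + 3 < 4 * T.d g.1 (T.hd g ((σ ++ γ).take i)) := by
  have := h.2.1 i hi
  rw [PlaneTri.Slow, List.length_take, List.length_append, min_eq_left hi] at this
  omega

theorem take_top (σ γ : Wd k) : (σ ++ γ).take (σ.length + γ.length) = σ ++ γ :=
  List.take_of_length_le (by simp)

theorem ne_root (h : T.Good g σ γ) {i : ℕ} : T.hd g ((σ ++ γ).take i) ≠ g.1 := by
  rcases le_total i (σ.length + γ.length) with hi | hi
  · exact ne_of_d_pos (T := T) (by have := h.d_root hi; omega)
  · rw [List.take_of_length_le (by simpa using hi), ← take_top σ γ]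
    exact ne_of_d_pos (T := T) (by have := h.d_root le_rfl; omega)

theorem take_ge (σ γ : Wd k) {j : ℕ} (hj : σ.length ≤ j) :
    (σ ++ γ).take j = σ ++ γ.take (j - σ.length) := by
  rw [List.take_append, List.take_of_length_le hj]

/-- vertices from the end of `σ` on are far from all earlier ones -/
theorem far (hg : T.Dart g) (h : T.Good g σ γ) {i j : ℕ} (hij : i ≤ j) (hj : σ.length ≤ j)
    (hj' : j ≤ σ.length + γ.length) :
    j - i ≤ 4 * T.d (T.hd g ((σ ++ γ).take i)) (T.hd g ((σ ++ γ).take j)) ∧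
    (i + 2 ≤ j → 2 ≤ T.d (T.hd g ((σ ++ γ).take i)) (T.hd g ((σ ++ γ).take j))) := by
  rcases le_or_gt σ.length i with hi | hi
  · have := h.1 (i - σ.length) (j - σ.length) (by omega) (by omega)
    rw [take_ge σ γ hi, take_ge σ γ hj, hd_append, hd_append]
    omega
  · have := h.2.2 i (j - σ.length)
    rw [Wit, List.append_nil, List.length_nil] at this
    rw [take_ge σ γ hj, List.take_append_of_le_length hi.le]
    have h2 : ¬4 * T.d (T.hd g (σ.take i)) (T.hd g (σ ++ γ.take (j - σ.length))) ≤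
        σ.length - i + (j - σ.length) + 0 + 2 := fun h3 => this ⟨hi, by omega, h3⟩
    omega

/-- the tails of the darts along a good state are far from the last vertex -/
theorem tail_far (hg : T.Dart g) (h : T.Good g σ γ) {i : ℕ} (hi : i ≤ σ.length + γ.length) :
    σ.length + γ.length - i + 1 ≤
      4 * T.d (T.hd g (σ ++ γ)) (T.run g ((σ ++ γ).take i)).1 := by
  rw [d_comm]
  obtain _ | i := i
  · have := h.d_root le_rfl
    rw [take_top] at this
    simp only [List.take_zero, run_nil]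
    omega
  · have := (h.far hg (i := i) (j := σ.length + γ.length) (by omega) (by omega) le_rfl).1
    rw [take_top] at this
    rw [run_take_fst g (σ ++ γ) (by rw [List.length_append]; omega)]
    omega

theorem near_tail (R : Rho T) (hg : T.Dart g) (h : T.Good g σ γ) {i : ℕ}
    (hi : i ≤ σ.length + γ.length) :
    R.ρ (T.hd g (σ ++ γ)) (T.run g (σ ++ γ)).1 (T.run g ((σ ++ γ).take i)).1 ≤ 64 := by
  have := R.recede (T.hd g (σ ++ γ))
    (fun m => (T.run g ((σ ++ γ).take (σ.length + γ.length - m))).1) (σ.length + γ.length - i)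
    (fun m hm => by
      have e : σ.length + γ.length - m = σ.length + γ.length - (m + 1) + 1 := by omega
      rw [e, run_take_fst g (σ ++ γ) (by rw [List.length_append]; omega)]
      exact (run_dart hg _).symm)
    (fun m hm => ne_of_d_pos (T := T) (by
      have := h.tail_far hg (i := σ.length + γ.length - m) (by omega)
      omega))
    (fun m hm => by
      have := h.tail_far hg (i := σ.length + γ.length - m) (by omega)
      omega)
  simp only [Nat.sub_zero] at this
  rwa [take_top, show σ.length + γ.length - (σ.length + γ.length - i) = i by omega] at this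

theorem near_root (R : Rho T) (hg : T.Dart g) (h : T.Good g σ γ) :
    R.ρ (T.hd g (σ ++ γ)) (T.run g (σ ++ γ)).1 g.1 ≤ 64 := by
  simpa using h.near_tail R hg (Nat.zero_le _)

theorem near_past (R : Rho T) (hg : T.Dart g) (h : T.Good g σ γ) {i : ℕ}
    (hi : i < σ.length + γ.length) :
    T.hd g ((σ ++ γ).take i) ≠ T.hd g (σ ++ γ) ∧
    R.ρ (T.hd g (σ ++ γ)) (T.run g (σ ++ γ)).1 (T.hd g ((σ ++ γ).take i)) ≤ 64 := by
  have h1 := h.tail_far hg (i := i + 1) hi
  have h2 := h.near_tail R hg (i := i + 1) hi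
  rw [run_take_fst g (σ ++ γ) (by rw [List.length_append]; omega)] at h1 h2
  exact ⟨ne_of_d_pos (T := T) (by omega), h2⟩

/-- the front of the bonus gate -/
theorem front (R : Rho T) (hg : T.Dart g) (hk : 10000 ≤ k) (h : T.Good g σ γ)
    (hz : k < T.deg (T.hd g (σ ++ γ))) {p : V}
    (hp : p = (T.bonus k (T.run g (σ ++ γ))).2 ∨ p ∈ R.Fr (T.bonus k (T.run g (σ ++ γ)))) :
    p ≠ T.hd g (σ ++ γ) ∧ 4000 ≤ R.ρ (T.hd g (σ ++ γ)) (T.run g (σ ++ γ)).1 p ∧
    T.d g.1 p = T.d g.1 (T.hd g (σ ++ γ)) + T.d (T.hd g (σ ++ γ)) p ∧ p ∈ R.Fr g := by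
  have hD : T.Dart (T.run g (σ ++ γ)) := run_dart hg _
  have hB : T.G.Adj (T.hd g (σ ++ γ)) (T.bonus k (T.run g (σ ++ γ))).2 := bonus_dart hD k
  have h1 : k / 2 ≤ T.ang (T.hd g (σ ++ γ)) (T.run g (σ ++ γ)).1
      (T.bonus k (T.run g (σ ++ γ))).2 := ang_bonus hD hz (by omega)
  have h2 := R.ang_le _ _ _ hD.symm hB
  have h3 : (5000 : ℝ) ≤ (T.ang (T.hd g (σ ++ γ)) (T.run g (σ ++ γ)).1
      (T.bonus k (T.run g (σ ++ γ))).2 : ℝ) := by
    exact_mod_cast (by omega : 5000 ≤ T.ang (T.hd g (σ ++ γ)) (T.run g (σ ++ γ)).1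
      (T.bonus k (T.run g (σ ++ γ))).2)
  have h4 : p ≠ T.hd g (σ ++ γ) ∧
      R.ρ (T.hd g (σ ++ γ)) (T.bonus k (T.run g (σ ++ γ))).2 p ≤ 128 := by
    rcases hp with rfl | hp
    · exact ⟨hB.ne.symm, by rw [R.self]; norm_num⟩
    · have a1 : 2 ≤ T.d (T.hd g (σ ++ γ)) p := hp.1
      exact ⟨ne_of_d_pos (T := T) (by omega), hp.2⟩
  have hroot : T.hd g (σ ++ γ) ≠ g.1 := by
    have := h.ne_root (i := σ.length + γ.length)
    rwa [take_top] at this
  have h5 := h.near_root R hg
  have hns := R.nonslow hg (w := σ ++ γ) fun i hi => h.2.1 i (by simpa using hi)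
  simp only [run_snd] at h2
  generalize (T.bonus k (T.run g (σ ++ γ))).2 = y at *
  generalize (T.run g (σ ++ γ)).1 = a at *
  generalize T.hd g (σ ++ γ) = z at *
  have h6 := R.tri z a p y
  rw [R.symm z p y] at h6
  have h7 := R.tri z a g.1 p
  have h8 := R.pass (z := z) (p := g.1) (q := p) hroot.symm h4.1 (by linarith [h4.2])
  have h9 := R.beyond hroot h8
  have h10 := R.tri g.1 g.2 z p
  have h11 : 1 ≤ T.d g.1 z := d_pos_of_ne hroot
  have h12 : 1 ≤ T.d z p := d_pos_of_ne h4.1
  exact ⟨h4.1, by linarith [h4.2], h8, by omega, by linarith [hns.1]⟩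

end PlaneTri.Good
end Pool.Agent.P.MP_e4ac67_pr
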