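import Pool.Agent.P.MP_e4ac67_pr.Basic

/-! Shared definitions for the comparison proof. -/

open scoped ENNReal

namespace Pool.Agent.P.MP_e4ac67_pr

/-- A visual pseudo-distance seen from each vertex. -/
structure Rho {V : Type} (T : PlaneTri V) where
  ρ : V → V → V → ℝ
  symm : ∀ z p q, ρ z p q = ρ z q p
  tri : ∀ z p q r, ρ z p r ≤ ρ z p q + ρ z q r
  self : ∀ z p, ρ z p p = 0
  adj : ∀ z p q, T.G.Adj p q → p ≠ z → q ≠ z → ρ z p q ≤ 4 * (1 / 2) ^ T.d z p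
  ang_le : ∀ z a c, T.G.Adj z a → T.G.Adj z c → (T.ang z a c : ℝ) ≤ ρ z a c

/-- Numerical parameters: `u = k^(-1/8)`, `r = 1/u`, and the step weight `p ≤ 5/k`. -/
structure Par (k : ℕ) where
  u : ℝ≥0∞
  r : ℝ≥0∞
  p : ℝ≥0∞
  ur : u * r = 1
  ku : k * u ^ 8 = 1
  hp : p ≤ 5 * u ^ 8
  small : 10 ^ 16 * u ≤ 1
  big : 10000 ≤ k

noncomputable def lam : ℝ≥0∞ := 4096⁻¹

/-- weight of a state whose target path has length `b` -/
noncomputable def wA (p : ℝ≥0∞) (b : ℕ) : ℝ≥0∞ := p * (lam * p) ^ b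

namespace PlaneTri
variable {V V' : Type} (T : PlaneTri V) (T' : PlaneTri V') {k : ℕ}

/-- total turning of a word -/
noncomputable def AS : V × V → Wd k → ℕ
  | _, [] => 0
  | g, e :: w => T.ang g.2 g.1 (T.step g e).2 + AS (T.step g e) w

def Clean (Tg : Set V) (g : V × V) (γ : Wd k) : Prop :=
  T.hd g γ ∈ Tg ∧ ∀ i < γ.length, T.hd g (γ.take i) ∉ Tg

def QG (g : V × V) (γ : Wd k) : Prop :=
  ∀ i j, i ≤ j → j ≤ γ.length → 2 * (j - i) ≤ 3 * T.d (T.hd g (γ.take i)) (T.hd g (γ.take j))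

def State (Tg : Set V) (N : ℕ) (g : V × V) (σ γ : Wd k) : Prop :=
  T.Clean Tg (T.run g σ) γ ∧ T.QG (T.run g σ) γ ∧ σ.length + γ.length < N

def Slow (g : V × V) (u : Wd k) : Prop := 4 * T.d g.1 (T.hd g u) ≤ u.length + 3

def Root (g : V × V) (σ γ : Wd k) : Prop := ∃ h ≤ γ.length, T.Slow g (σ ++ γ.take h)

def Wit (g : V × V) (σ γ : Wd k) (j : ℕ) (η : Wd k) (h : ℕ) : Prop :=
  j < σ.length ∧ h ≤ γ.length ∧
    4 * T.d (T.hd g (σ.take j ++ η)) (T.hd g (σ ++ γ.take h)) ≤ (σ.length - j) + h + η.length + 2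

def WrapAt (Tg : Set V) (g : V × V) (α w : Wd k) : Prop :=
  9 ≤ w.length ∧ ∃ z ∈ Tg, 8 * T.d (T.hd g α) z < w.length ∧ 8 * T.d (T.hd g (α ++ w)) z < w.length

/-- two words from the same dart closing a simple cycle in `T` but not in `T'` -/
def Loop (g : V × V) (g' : V' × V') (β₁ β₂ : Wd k) : Prop :=
  β₁ ≠ [] ∧ T.hd g β₁ = T.hd g β₂ ∧ T'.hd g' β₁ ≠ T'.hd g' β₂ ∧
  (∀ u, u <+: β₁ → u <+: β₂ → u = []) ∧
  ∀ u u', ((u <+: β₁ ∧ u ≠ β₁) ∨ u <+: β₂) → ((u' <+: β₁ ∧ u' ≠ β₁) ∨ u' <+: β₂) →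
    T.hd g u = T.hd g u' → u = u'

noncomputable def SA (Tg : Set V) (N : ℕ) (g : V × V) (p : ℝ≥0∞) (P : Wd k → ℝ≥0∞) : ℝ≥0∞ :=
  ∑' x : Wd k × Wd k, ind (T.State Tg N g x.1 x.2) * (P x.1 * wA p x.2.length)

noncomputable def SG (Tg : Set V) (N : ℕ) (g : V × V) (p : ℝ≥0∞)
    (Pg : Wd k → Wd k → ℝ≥0∞) : ℝ≥0∞ :=
  ∑' x : Wd k × Wd k,
    ind (T.State Tg N g x.1 x.2 ∧ ¬T.Root g x.1 x.2) * (Pg x.1 x.2 * wA p x.2.length)

noncomputable def SRoot (g : V × V) (p : ℝ≥0∞) (k : ℕ) : ℝ≥0∞ :=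
  ∑' x : Wd k × Wd k, ind (T.Root g x.1 x.2) * (p ^ x.1.length * wA p x.2.length)

noncomputable def SSlow (g : V × V) (p : ℝ≥0∞) (k : ℕ) : ℝ≥0∞ :=
  ∑' u : Wd k, ind (T.Slow g u) * p ^ u.length

noncomputable def SWrap (Tg : Set V) (N : ℕ) (g : V × V) (p : ℝ≥0∞) (P : Wd k → ℝ≥0∞) : ℝ≥0∞ :=
  ∑' x : Wd k × Wd k,
    ind (x.1.length + x.2.length ≤ N ∧ T.WrapAt Tg g x.1 x.2) * (P x.1 * p ^ x.2.length)

noncomputable def SFail (N : ℕ) (g : V × V) (δ : V' × V') (p : ℝ≥0∞) (P : Wd k → ℝ≥0∞) : ℝ≥0∞ :=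
  ∑' x : Wd k × Wd k × Wd k,
    ind (x.1.length + x.2.1.length ≤ N ∧ x.1.length + x.2.2.length ≤ N ∧
      T.Loop T' (T.run g x.1) (T'.run δ x.1) x.2.1 x.2.2) *
    (P x.1 * p ^ (x.2.1.length + (x.2.2.length - 1)))

/-- total weight of the witnesses against the state `(σ, γ)` -/
noncomputable def WitSum (g : V × V) (p : ℝ≥0∞) (P : Wd k → ℝ≥0∞) (σ γ : Wd k) : ℝ≥0∞ :=
  ∑' y : ℕ × Wd k × ℕ, ind (T.Wit g σ γ y.1 y.2.1 y.2.2) *
    (P (σ.take y.1) * p ^ (σ.length - y.1 + y.2.1.length))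

noncomputable def SWit (Tg : Set V) (N : ℕ) (g : V × V) (p : ℝ≥0∞) (P : Wd k → ℝ≥0∞) : ℝ≥0∞ :=
  ∑' x : Wd k × Wd k,
    ind (T.State Tg N g x.1 x.2) * (T.WitSum g p P x.1 x.2 * wA p x.2.length)

/-- the deterministic part of goodness -/
def Good (g : V × V) (σ γ : Wd k) : Prop :=
  T.QG (T.run g σ) γ ∧ (∀ i ≤ σ.length + γ.length, ¬T.Slow g ((σ ++ γ).take i)) ∧
    ∀ j h, ¬T.Wit g σ γ j [] h

end PlaneTri

/-- the front of a gate, without its head -/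
def Rho.Fr {V : Type} {T : PlaneTri V} (R : Rho T) (g : V × V) : Set V :=
  {p | 2 ≤ T.d g.1 p ∧ R.ρ g.1 g.2 p ≤ 128}

/-- expectation over a `p`-random subset of `Ω` -/
noncomputable def EX {ι : Type} (Ω : Finset ι) (p : ℝ≥0∞) (f : Finset ι → ℝ≥0∞) : ℝ≥0∞ :=
  ∑ s ∈ Ω.powerset, p ^ s.card * (1 - p) ^ (Ω.card - s.card) * f s

/-- when two darts carry the same percolation variable (`m = true`: site, `m = false`: bond) -/
def KE {V : Type} (m : Bool) (a b c d : V) : Prop :=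
  if m = true then b = d else (a = c ∧ b = d) ∨ (a = d ∧ b = c)

def IsKey {V K : Type} (m : Bool) (key : V → V → K) : Prop :=
  ∀ a b c d, key a b = key c d ↔ KE m a b c d

section perc
variable {V K : Type} (G : SimpleGraph V) (key : V → V → K)

inductive Reach (F : Set V) (y : V) (ω : Finset K) : V → Prop
  | base : Reach F y ω y
  | step {u v : V} : Reach F y ω u → G.Adj u v → v ∈ F → key u v ∈ ω → Reach F y ω v

def Exit (S : Finset V) (F : Set V) (y : V) (ω : Finset K) (κ : K) : Prop :=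
  ∃ u v, Reach G key ((S : Set V) ∩ F) y ω u ∧ G.Adj u v ∧ v ∉ S ∧ v ∈ F ∧ key u v = κ

/-- number of exit keys -/
noncomputable def NE (S : Finset V) (F : Set V) (y : V) (ω : Finset K) : ℝ≥0∞ :=
  ∑' κ, ind (Exit G key S F y ω κ)

def KeysOK (S : Finset V) (Ω : Finset K) : Prop :=
  ∀ a b c, a ∈ S → (b = a ∨ G.Adj a b) → G.Adj b c → key b c ∈ Ω

/-- an open self-avoiding path with `M` steps from `v` -/
def OS (ω : Finset K) (v : V) (M : ℕ) : Prop :=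
  ∃ f : ℕ → V, f 0 = v ∧ (∀ i < M, G.Adj (f i) (f (i + 1)) ∧ key (f i) (f (i + 1)) ∈ ω) ∧
    ∀ i ≤ M, ∀ j ≤ M, f i = f j → i = j

/-- long open paths have probability bounded below -/
def Perc (p : ℝ≥0∞) : Prop :=
  ∃ θ : ℝ≥0∞, θ ≠ 0 ∧ ∃ v, ∀ M, ∃ Ω : Finset K, θ ≤ EX Ω p fun ω => ind (OS G key ω v M)

/-- the first-moment condition at `o` -/
def Phi (p : ℝ≥0∞) (o : V) : Prop :=
  ∀ S : Finset V, o ∈ S → ∀ Ω : Finset K, KeysOK G key S Ω →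
    1 ≤ 8 * (p * EX Ω p (NE G key S Set.univ o))

end perc

noncomputable def toE (p : unitInterval) : ℝ≥0∞ := (unitInterval.toNNReal p : NNReal)

open Classical in
/-- overwrite `η` by the bits of `ξ` at the coupled words of rank `< i` -/
noncomputable def ovr {W K : Type} (Ωw : Finset W) (rk : W → ℕ) (cp : Finset W → W → Prop)
    (κ : W → K) (i : ℕ) (ξ : Finset W) (η : Finset K) : Finset K :=
  (η.filter fun x => ¬∃ u ∈ Ωw, rk u < i ∧ cp ξ u ∧ κ u = x) ∪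
    ((Ωw.filter fun u => rk u < i ∧ cp ξ u ∧ u ∈ ξ).image κ)

theorem mem_ovr {W K : Type} {Ωw : Finset W} {rk : W → ℕ} {cp : Finset W → W → Prop}
    {κ : W → K} {i : ℕ} {ξ : Finset W} {η : Finset K} {x : K} :
    x ∈ ovr Ωw rk cp κ i ξ η ↔ (x ∈ η ∧ ¬∃ u ∈ Ωw, rk u < i ∧ cp ξ u ∧ κ u = x) ∨
      ∃ u ∈ Ωw, rk u < i ∧ cp ξ u ∧ u ∈ ξ ∧ κ u = x := by
  simp only [ovr, Finset.mem_union, Finset.mem_filter, Finset.mem_image, and_assoc]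

/-- rank of a word (breadth-first numbering) -/
def rk {k : ℕ} (w : Wd k) : ℕ := w.foldl (fun n e => k * n + e + 1) 0

/-- words of length at most `N` -/
noncomputable def words (k N : ℕ) : Finset (Wd k) := (List.finite_length_le (Fin k) N).toFinset

theorem mem_words {k N : ℕ} {w : Wd k} : w ∈ words k N ↔ w.length ≤ N := by simp [words]

/-- The data of one exploration. -/
structure Setup (V V' K K' : Type) (k : ℕ) where
  T : PlaneTri V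
  T' : PlaneTri V'
  hT : ∀ v, k ≤ T.deg v
  hT' : ∀ v, T'.deg v = k
  m : Bool
  key : V → V → K
  key' : V' → V' → K'
  hkey : IsKey m key
  hkey' : IsKey m key'
  g : V × V
  hg : T.Dart g
  δ : V' × V'
  hδ : T'.Dart δ
  S : Finset V
  hS : g.2 ∈ S

namespace Setup
variable {V V' K K' : Type} {k : ℕ} (X : Setup V V' K K' k)

def Tg : Set V := {v | v ∉ X.S ∨ X.T.deg v ≠ k}
noncomputable def Ωw : Finset (Wd k) := words k X.S.card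
noncomputable def hd (u : Wd k) : V := X.T.hd X.g u
noncomputable def hd' (u : Wd k) : V' := X.T'.hd X.δ u
noncomputable def kw (u : Wd k) : K := X.key (X.T.run X.g u).1 (X.T.run X.g u).2
noncomputable def kw' (u : Wd k) : K' := X.key' (X.T'.run X.δ u).1 (X.T'.run X.δ u).2
def Bad (u : Wd k) : Prop := X.T.Slow X.g u ∨ ∃ α w, u = α ++ w ∧ X.T.WrapAt X.Tg X.g α w

/-- (examined, accepted) -/
noncomputable def st (ξ : Finset (Wd k)) : Wd k → Prop × Prop :=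
  (measure rk).wf.fix fun u IH =>
    let e : Prop := u ≠ [] ∧ (∀ h : rk u.dropLast < rk u, (IH u.dropLast h).2) ∧
      ∀ τ (h : rk τ < rk u), ((IH τ h).1 → X.kw' τ ≠ X.kw' u) ∧ ((IH τ h).2 → X.hd' τ ≠ X.hd' u)
    let c : Prop := ∃ τ, ∃ h : rk τ < rk u,
      ((IH τ h).1 ∧ X.kw τ = X.kw u) ∨ ((IH τ h).2 ∧ X.hd τ = X.hd u)
    (e, u = [] ∨ ((e ∧ ¬X.Bad u ∧ ¬c ∧ X.hd u ∈ X.S) ∧ u ∈ ξ))

def ex (ξ : Finset (Wd k)) (u : Wd k) : Prop := (X.st ξ u).1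
def acc (ξ : Finset (Wd k)) (u : Wd k) : Prop := (X.st ξ u).2
def col (ξ : Finset (Wd k)) (u : Wd k) : Prop :=
  ∃ τ, rk τ < rk u ∧ ((X.ex ξ τ ∧ X.kw τ = X.kw u) ∨ (X.acc ξ τ ∧ X.hd τ = X.hd u))
/-- coupled words -/
def cp (ξ : Finset (Wd k)) (u : Wd k) : Prop :=
  X.ex ξ u ∧ ¬X.Bad u ∧ ¬X.col ξ u ∧ X.hd u ∈ X.S
def Stop (ξ : Finset (Wd k)) (u : Wd k) : Prop := X.ex ξ u ∧ ¬X.cp ξ u
def ExitStop (ξ : Finset (Wd k)) (u : Wd k) : Prop :=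
  X.ex ξ u ∧ ¬X.Bad u ∧ ¬X.col ξ u ∧ X.hd u ∉ X.S

noncomputable def PA (p : ℝ≥0∞) (σ : Wd k) : ℝ≥0∞ := EX X.Ωw p fun ξ => ind (X.acc ξ σ)

/-- `σ` is accepted and no word accepted earlier is a witness against `(σ, γ)` -/
def H (ξ : Finset (Wd k)) (σ γ : Wd k) : Prop :=
  X.acc ξ σ ∧ ∀ j η h, X.T.Wit X.g σ γ j η h → ¬(σ.take (j + 1) <+: σ.take j ++ η) →
    rk (σ.take j ++ η) < rk σ → ¬X.acc ξ (σ.take j ++ η)

noncomputable def Pg (p : ℝ≥0∞) (σ γ : Wd k) : ℝ≥0∞ := EX X.Ωw p fun ξ => ind (X.H ξ σ γ)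

/-- the path `γ` is open and all other regular darts out of it are closed -/
def GC (σ γ : Wd k) (ω : Finset K) : Prop :=
  (∀ i < γ.length, X.kw (σ ++ γ.take (i + 1)) ∈ ω) ∧
  ∀ h ≤ γ.length, ∀ e : Fin k,
    X.hd (σ ++ γ.take h ++ [e]) ≠ (X.T.run X.g (σ ++ γ.take h)).1 →
    (h < γ.length → X.hd (σ ++ γ.take h ++ [e]) ≠ X.hd (σ ++ γ.take (h + 1))) →
    X.kw (σ ++ γ.take h ++ [e]) ∉ ω

/-- exit keys produced by the dart `D` arriving at a target -/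
def ExX (R : Rho X.T) (D : V × V) (ω : Finset K) (κ : K) : Prop :=
  (D.2 ∉ X.S ∧ κ = X.key D.1 D.2) ∨
  (D.2 ∈ X.S ∧ (X.T.bonus k D).2 ∉ X.S ∧ κ = X.key D.2 (X.T.bonus k D).2) ∨
  (D.2 ∈ X.S ∧ (X.T.bonus k D).2 ∈ X.S ∧ X.key D.2 (X.T.bonus k D).2 ∈ ω ∧
    Exit X.T.G X.key X.S (R.Fr (X.T.bonus k D)) (X.T.bonus k D).2 ω κ)

/-- the configuration on `T` after the words of rank `< i` -/
noncomputable def om (i : ℕ) (ξ : Finset (Wd k)) (η : Finset K) : Finset K :=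
  ovr X.Ωw rk X.cp X.kw i ξ η

/-- a rank beyond all words -/
noncomputable def top : ℕ := X.Ωw.sup rk + 1

noncomputable def Val (R : Rho X.T) (Ω : Finset K) (p : ℝ≥0∞) (g : V × V) : ℝ≥0∞ :=
  EX Ω p (NE X.T.G X.key X.S (R.Fr g) g.2)

end Setup

/-- the choice of the root dart in `T'` -/
def PrimeOK {V' K' : Type} (G : SimpleGraph V') (key : V' → V' → K') (p : ℝ≥0∞) (y : V')
    (B : ℕ) : Prop :=
  ∃ (L : ℝ≥0∞) (M : ℕ) (Ω : Finset K'), L ≠ 0 ∧ L ≠ ⊤ ∧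
    (∀ v (Ω' : Finset K'), (EX Ω' p fun ω => ind (OS G key ω v M)) ≤ 2 * L) ∧
    L ≤ 2 * EX Ω p fun ω => ind (OS G key ω y ((M + 1) * (B + 1)))

end Pool.Agent.P.MP_e4ac67_pr
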