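import Pool.Agent.P.MP_e4ac67_pr.Rad

/-! TASK TRANSFER: the debt transfer inequality. -/

open scoped ENNReal

namespace Pool.Agent.P.MP_e4ac67_pr
namespace PlaneTri
variable {V : Type} {T : PlaneTri V} {k : ℕ}

/-- distance conditions of a transfer -/
def TCond (T : PlaneTri V) (g : V × V) (γ' : Wd k) (d' : ℕ) (w₁ w₂ w₃ : Wd k) : Prop :=
  w₁ ≠ [] ∧ T.d g.2 (T.hd g (γ'.take d')) = d' ∧
  T.d (T.hd g (γ'.take d')) (T.hd g (w₁ ++ w₂ ++ w₃)) + d' = T.d g.2 (T.hd g (w₁ ++ w₂ ++ w₃)) ∧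
  3 * T.d g.2 (T.hd g (w₁ ++ w₂ ++ w₃)) ≤ 3 * T.d g.2 (T.hd g (w₁ ++ w₂)) + 2 * w₃.length

/-- the tail follows the new target path -/
def TMatch (T : PlaneTri V) (g : V × V) (γ' : Wd k) (d' : ℕ) (v tl : Wd k) : Prop :=
  tl.length + d' = γ'.length ∧
    ∀ i ≤ tl.length, T.hd (T.run g v) (tl.take i) = T.hd g (γ'.take (d' + i))

theorem geo_transfer {Tg : Set V} (hTg : ∀ v, v ∉ Tg → T.deg v = k) {g : V × V} (hg : T.Dart g)
    (w₁ γ : Wd k) (hw : w₁ ≠ []) {h : ℕ} (hh : h ≤ γ.length) (hC : T.Clean Tg (T.run g w₁) γ)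
    (hQ : T.QG (T.run g w₁) γ) :
    ∃ (γ' : Wd k) (d' : ℕ) (w₃ tl : Wd k), γ.take h ++ w₃ ++ tl = γ ∧ T.Clean Tg g γ' ∧
      T.QG g γ' ∧ γ'.length ≤ w₁.length + γ.length ∧ T.TCond g γ' d' w₁ (γ.take h) w₃ ∧
      (γ'.length = d' ∨ T.TMatch g γ' d' (w₁ ++ γ.take h ++ w₃) tl) := by
  classical
  set g₁ := T.run g w₁ with hg₁
  have hd₁ : T.Dart g₁ := run_dart hg w₁
  set W : ℕ → V := fun i => T.hd g₁ (γ.take i) with hW
  obtain ⟨m, hm, hmax⟩ := Finset.exists_max_image (Finset.Icc h γ.length)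
    (fun m => (2 * (m : ℤ) - 3 * (T.d g.2 (W m) : ℤ))) ⟨h, by simp [hh]⟩
  rw [Finset.mem_Icc] at hm
  obtain ⟨f, hf0, hf1, hf2, hf3⟩ := exists_geo (T := T) g.2 (W m)
  set D := T.d g.2 (W m) with hD
  set F : ℕ → V := fun i => if i ≤ D then f i else W (m + (i - D)) with hF
  have hF1 : ∀ i ≤ D, F i = f i := fun i hi => by simp only [hF, if_pos hi]
  have hF2 : ∀ i, D ≤ i → F i = W (m + (i - D)) := fun i hi => by
    rcases hi.eq_or_lt with rfl | hlt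
    · rw [hF1 _ le_rfl, hf1]; simp
    · simp only [hF, if_neg (not_le.2 hlt)]
  set L := D + (γ.length - m) with hL
  have hFL : F L ∈ Tg := by
    rw [hF2 L (by omega), show m + (L - D) = γ.length by omega]
    simpa [hW] using hC.1
  have hadj : ∀ i < L, T.G.Adj (F i) (F (i + 1)) := fun i hi => by
    by_cases h1 : i < D
    · rw [hF1 i h1.le, hF1 (i + 1) h1]; exact hf2 i h1
    · rw [hF2 i (by omega), hF2 (i + 1) (by omega),
        show m + (i + 1 - D) = m + (i - D) + 1 by omega]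
      exact adj_hd_take hd₁ γ (by omega)
  have hex : ∃ i, F i ∈ Tg := ⟨L, hFL⟩
  set b := Nat.find hex with hb
  have hbL : b ≤ L := Nat.find_min' hex hFL
  have hbT : F b ∈ Tg := Nat.find_spec hex
  have hbm : ∀ i < b, F i ∉ Tg := fun i hi => Nat.find_min hex hi
  obtain ⟨γ', hl, hγ'⟩ := word_along (k := k) hg F b (by rw [hF1 0 (Nat.zero_le _), hf0])
    (fun i hi => hadj i (by omega)) (fun i hi => hTg _ (hbm i hi))
  have hsplit : γ.take h ++ (γ.drop h).take (m - h) = γ.take m := by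
    rw [← List.take_add, Nat.add_sub_cancel' hm.1]
  have hE : T.hd g (w₁ ++ γ.take h ++ (γ.drop h).take (m - h)) = W m := by
    rw [List.append_assoc, hsplit, hd_append]
  have hE2 : T.hd g (w₁ ++ γ.take h) = W h := by rw [hd_append]
  have hDle : D ≤ w₁.length + m := by
    have := d_hd_le hg (w₁ ++ γ.take m)
    rw [hd_append, List.length_append, List.length_take] at this
    have h2 : min m γ.length ≤ m := min_le_left _ _
    exact this.trans (by omega)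
  have hfar : ∀ j, m ≤ j → j ≤ γ.length → 3 * D + 2 * (j - m) ≤ 3 * T.d g.2 (W j) := by
    intro j h1 h2
    have := hmax j (Finset.mem_Icc.2 ⟨hm.1.trans h1, h2⟩)
    omega
  have hfd : ∀ i ≤ D, T.d g.2 (f i) = i := fun i hi => by
    have := hf3 0 i (Nat.zero_le _) hi
    rwa [hf0] at this
  refine ⟨γ', min b D, (γ.drop h).take (m - h), γ.drop m, ?_, ⟨?_, ?_⟩, ?_, ?_, ⟨hw, ?_, ?_, ?_⟩, ?_⟩
  · rw [hsplit, List.take_append_drop]
  · have := hγ' b le_rfl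
    rw [← hl, List.take_length] at this
    rw [this, hl]; exact hbT
  · intro i hi
    rw [hγ' i (by omega)]; exact hbm i (by omega)
  · intro i j hij hj
    rw [hγ' i (by omega), hγ' j (by omega)]
    by_cases h1 : j ≤ D
    · rw [hF1 i (by omega), hF1 j h1, hf3 i j hij h1]; omega
    by_cases h2 : D ≤ i
    · rw [hF2 i h2, hF2 j (by omega)]
      have := hQ (m + (i - D)) (m + (j - D)) (by omega) (by omega)
      simp only [hW]
      omega
    · rw [hF1 i (by omega), hF2 j (by omega)]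
      have h3 := hfar (m + (j - D)) (by omega) (by omega)
      have h4 := d_tri (T := T) g.2 (f i) (W (m + (j - D)))
      rw [hfd i (by omega)] at h4
      omega
  · omega
  · rw [hγ' _ (min_le_left _ _), hF1 _ (min_le_right _ _), hfd _ (min_le_right _ _)]
  · rw [hγ' _ (min_le_left _ _), hF1 _ (min_le_right _ _), hE]
    have := hf3 (min b D) D (min_le_right _ _) le_rfl
    rw [hf1] at this
    have h2 : min b D ≤ D := min_le_right _ _
    omega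
  · rw [hE, hE2]
    have := hmax h (Finset.mem_Icc.2 ⟨le_rfl, hh⟩)
    have h2 : ((γ.drop h).take (m - h)).length = m - h := by
      rw [List.length_take, List.length_drop]; omega
    omega
  · by_cases h1 : b ≤ D
    · left; rw [hl, min_eq_left h1]
    · right
      have hbe : b = L := by
        by_contra hne
        have h2 : m + (b - D) < γ.length := by omega
        rw [hF2 b (by omega)] at hbT
        exact hC.2 _ h2 hbT
      rw [min_eq_right (by omega)]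
      refine ⟨by rw [List.length_drop]; omega, fun i hi => ?_⟩
      rw [List.length_drop] at hi
      rw [hγ' _ (by omega), hF2 _ (by omega), List.append_assoc, hsplit, ← hd_append,
        List.append_assoc, ← List.take_add, hd_append, Nat.add_sub_cancel_left]

/-- the weight of the three middle words -/
noncomputable def TZ (Q : Par k) (d' : ℕ) (w₁ w₂ w₃ : Wd k) : ℝ≥0∞ :=
  (5 * Q.u ^ 8) ^ (w₁.length + w₂.length + w₃.length - d') *
    4096 ^ (w₁.length + w₂.length + w₃.length) * Q.r ^ (w₁.length + w₂.length + 2)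

theorem TCond.le {g : V × V} (hg : T.Dart g) {γ' : Wd k} {d' : ℕ} {w₁ w₂ w₃ : Wd k}
    (h : T.TCond g γ' d' w₁ w₂ w₃) : d' ≤ w₁.length + w₂.length + w₃.length := by
  have h1 := d_hd_le hg (w₁ ++ w₂ ++ w₃)
  have h2 := h.2.2.1
  simp only [List.length_append] at h1
  omega

theorem TZ_le (Q : Par k) {g : V × V} (hg : T.Dart g) {γ' : Wd k} {d' : ℕ} {w₁ w₂ w₃ : Wd k}
    (h : T.TCond g γ' d' w₁ w₂ w₃) :
    TZ Q d' w₁ w₂ w₃ * Q.u ^ (4 * T.d (T.hd g (w₁ ++ w₂)) g.2) ≤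
      (2⁻¹ ^ d' * Q.r ^ (4 * d')) * ((8192 * Q.r ^ 3 * (5 * Q.u ^ 8)) ^ w₁.length *
        ((8192 * Q.r ^ 3 * (5 * Q.u ^ 8)) ^ w₂.length *
          ((8192 * Q.r ^ 3 * (5 * Q.u ^ 8)) ^ w₃.length *
            Q.u ^ (4 * T.d (T.hd g (γ'.take d')) (T.hd g (w₁ ++ w₂ ++ w₃)))))) := by
  obtain ⟨t, ht⟩ := Nat.exists_eq_add_of_le (h.le hg)
  obtain ⟨h1, -, h3, h4⟩ := h
  have h5 : 1 ≤ w₁.length := List.length_pos_iff.2 h1
  rw [d_comm (T.hd g (w₁ ++ w₂))]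
  generalize T.d g.2 (T.hd g (w₁ ++ w₂)) = D at *
  generalize T.d (T.hd g (γ'.take d')) (T.hd g (w₁ ++ w₂ ++ w₃)) = X at *
  generalize T.d g.2 (T.hd g (w₁ ++ w₂ ++ w₃)) = Y at *
  rw [← mul_assoc (_ ^ w₁.length), ← pow_add, ← mul_assoc (_ ^ (w₁.length + w₂.length)),
    ← pow_add, TZ, ht, Nat.add_sub_cancel_left]
  have hm := Q.mono (a := 8 * t + 4 * D) (b := w₁.length + w₂.length + 2)
    (c := 8 * (d' + t) + 4 * X) (d := 4 * d' + 3 * (d' + t)) (by omega)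
  have h2 : (2 : ℝ≥0∞)⁻¹ ^ d' * 2 ^ d' = 1 := by
    rw [← mul_pow, ENNReal.inv_mul_cancel (by norm_num) (by norm_num), one_pow]
  have h6 : (1 : ℝ≥0∞) ≤ 2 ^ t * 5 ^ d' := one_le_mul (one_le_pow₀ (by norm_num))
    (one_le_pow₀ (by norm_num))
  calc (5 * Q.u ^ 8) ^ t * 4096 ^ (d' + t) * Q.r ^ (w₁.length + w₂.length + 2) * Q.u ^ (4 * D)
      = 1 * 1 * (5 ^ t * 4096 ^ (d' + t)) *
        (Q.u ^ (8 * t + 4 * D) * Q.r ^ (w₁.length + w₂.length + 2)) := by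
        rw [mul_pow, ← pow_mul, pow_add Q.u]; ring
    _ ≤ (2⁻¹ ^ d' * 2 ^ d') * (2 ^ t * 5 ^ d') * (5 ^ t * 4096 ^ (d' + t)) *
        (Q.u ^ (8 * (d' + t) + 4 * X) * Q.r ^ (4 * d' + 3 * (d' + t))) := by
        rw [h2]; gcongr
    _ = _ := by
        rw [show (8192 : ℝ≥0∞) = 2 * 4096 by norm_num, mul_pow, mul_pow, mul_pow, mul_pow,
          ← pow_mul, ← pow_mul, pow_add Q.u, pow_add Q.r (4 * d'), pow_add 2, pow_add 5]
        ring

/-- the weight of the tail -/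
noncomputable def TT (T : PlaneTri V) (Q : Par k) (g : V × V) (γ' : Wd k) (d' : ℕ)
    (v tl : Wd k) : ℝ≥0∞ :=
  ind (T.TMatch g γ' d' v tl) + (lam * Q.p) ^ tl.length

theorem TT_sum (hT : ∀ v, k ≤ T.deg v) (Q : Par k) {g : V × V} (hg : T.Dart g) (γ' : Wd k)
    (d' : ℕ) (v : Wd k) : ∑' tl, T.TT Q g γ' d' v tl ≤ 3 := by
  simp only [TT]
  rw [ENNReal.tsum_add]
  have h1 : ∑' tl, ind (T.TMatch g γ' d' v tl) ≤ ind True :=
    tsum_ind_le_of_unique _ (fun _ _ => trivial) fun a b ha hb =>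
      word_unique hT (run_dart hg v) (by have := ha.1; have := hb.1; omega) fun i hi => by
        rw [ha.2 i hi, hb.2 i (by have := ha.1; have := hb.1; omega)]
  rw [ind_of trivial] at h1
  calc _ ≤ (1 : ℝ≥0∞) + 2 := add_le_add h1 Q.tail
    _ = 3 := by norm_num

/-- the weight of the witness branch -/
noncomputable def TY (T : PlaneTri V) (Q : Par k) (g : V × V) (c : V) (η : Wd k) : ℝ≥0∞ :=
  (Q.r * (5 * Q.u ^ 8)) ^ η.length * Q.u ^ (4 * T.d c (T.hd g η))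

theorem small_of (Q : Par k) {c : ℝ≥0∞} (hc : c ≤ 10 ^ 16) : c * Q.u ≤ 1 :=
  (mul_le_mul_left hc _).trans Q.small

theorem TY_sum (hT : ∀ v, k ≤ T.deg v) (Q : Par k) {g : V × V} (hg : T.Dart g) (c : V) :
    ∑' η, T.TY Q g c η ≤ 2 * Q.u ^ (4 * T.d c g.2) := by
  refine rad hT Q ?_ c hg
  have := Q.mono (a := 4) (b := 1) (c := 1) (d := 0) (by omega)
  rw [pow_one, pow_one, pow_zero, mul_one] at this
  exact (mul_le_mul_right this _).trans (small_of Q (by norm_num))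

/-- the term of the column sum -/
noncomputable def TB (T : PlaneTri V) (Q : Par k) (g : V × V) (γ' : Wd k)
    (y : ℕ × Wd k × Wd k × Wd k × Wd k × Wd k) : ℝ≥0∞ :=
  ind (T.TCond g γ' y.1 y.2.1 y.2.2.1 y.2.2.2.1) * (TZ Q y.1 y.2.1 y.2.2.1 y.2.2.2.1 *
    (T.TT Q g γ' y.1 (y.2.1 ++ y.2.2.1 ++ y.2.2.2.1) y.2.2.2.2.1 *
      T.TY Q g (T.hd g (y.2.1 ++ y.2.2.1)) y.2.2.2.2.2))

theorem beta_eq (Q : Par k) : Q.u ^ 4 * (8192 * Q.r ^ 3) = 8192 * Q.u := by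
  calc Q.u ^ 4 * (8192 * Q.r ^ 3) = 8192 * Q.u * (Q.u * Q.r) ^ 3 := by ring
    _ = _ := by rw [Q.ur, one_pow, mul_one]

theorem three_sum (hT : ∀ v, k ≤ T.deg v) (Q : Par k) {g : V × V} (hg : T.Dart g) (c : V) :
    ∑' w₁ : Wd k, ∑' w₂ : Wd k, ∑' w₃ : Wd k, ind (w₁ ≠ []) *
      ((8192 * Q.r ^ 3 * (5 * Q.u ^ 8)) ^ w₁.length *
        ((8192 * Q.r ^ 3 * (5 * Q.u ^ 8)) ^ w₂.length *
          ((8192 * Q.r ^ 3 * (5 * Q.u ^ 8)) ^ w₃.length *
            Q.u ^ (4 * T.d c (T.hd g (w₁ ++ w₂ ++ w₃)))))) ≤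
      4 * (50 * (8192 * Q.u) * Q.u ^ (4 * T.d c g.2)) := by
  have hβ : 50 * (Q.u ^ 4 * (8192 * Q.r ^ 3)) ≤ 1 := by
    rw [beta_eq, ← mul_assoc]; exact small_of Q (by norm_num)
  set x := 8192 * Q.r ^ 3 * (5 * Q.u ^ 8) with hx
  have h3 : ∀ v : Wd k, ∑' w₃ : Wd k, x ^ w₃.length * Q.u ^ (4 * T.d c (T.hd g (v ++ w₃))) ≤
      2 * Q.u ^ (4 * T.d c (T.hd g v)) := fun v => by
    simp only [hd_append]
    exact rad hT Q hβ c (run_dart hg v)
  have h2 : ∀ w₁ : Wd k, ∑' w₂ : Wd k, ∑' w₃ : Wd k, x ^ w₂.length * (x ^ w₃.length *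
      Q.u ^ (4 * T.d c (T.hd g (w₁ ++ w₂ ++ w₃)))) ≤ 4 * Q.u ^ (4 * T.d c (T.hd g w₁)) := by
    intro w₁
    calc _ ≤ ∑' w₂ : Wd k, 2 * (x ^ w₂.length * Q.u ^ (4 * T.d c (T.hd g (w₁ ++ w₂)))) := by
          refine ENNReal.tsum_le_tsum fun w₂ => ?_
          rw [ENNReal.tsum_mul_left, mul_left_comm]
          exact mul_le_mul_right (h3 _) _
      _ ≤ 2 * (2 * Q.u ^ (4 * T.d c (T.hd g w₁))) := by
          rw [ENNReal.tsum_mul_left]; exact mul_le_mul_right (h3 _) _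
      _ = _ := by rw [← mul_assoc]; norm_num
  calc _ ≤ ∑' w₁ : Wd k, 4 * (ind (w₁ ≠ []) *
        (x ^ w₁.length * Q.u ^ (4 * T.d c (T.hd g w₁)))) := by
        refine ENNReal.tsum_le_tsum fun w₁ => ?_
        simp only [ENNReal.tsum_mul_left (a := ind (w₁ ≠ [])),
          ENNReal.tsum_mul_left (a := x ^ w₁.length)]
        rw [mul_left_comm 4, mul_left_comm 4]
        exact mul_le_mul_right (mul_le_mul_right (h2 w₁) _) _
    _ ≤ _ := by
        rw [ENNReal.tsum_mul_left, ← beta_eq]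
        exact mul_le_mul_right (rad_ne hT Q hβ c hg) _

theorem col_sum (hT : ∀ v, k ≤ T.deg v) (Q : Par k) {g : V × V} (hg : T.Dart g) (γ' : Wd k) :
    2 * ∑' y, T.TB Q g γ' y ≤ 1 := by
  set x := 8192 * Q.r ^ 3 * (5 * Q.u ^ 8) with hx
  have h1 : ∀ (d' : ℕ) (w₁ w₂ w₃ : Wd k), ∑' z : Wd k × Wd k, T.TB Q g γ' (d', w₁, w₂, w₃, z) ≤
      (6 * (ind (T.d g.2 (T.hd g (γ'.take d')) = d') * (2⁻¹ ^ d' * Q.r ^ (4 * d')))) *
        (ind (w₁ ≠ []) * (x ^ w₁.length * (x ^ w₂.length * (x ^ w₃.length *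
          Q.u ^ (4 * T.d (T.hd g (γ'.take d')) (T.hd g (w₁ ++ w₂ ++ w₃))))))) := by
    intro d' w₁ w₂ w₃
    simp only [TB]
    rw [ENNReal.tsum_mul_left, ENNReal.tsum_mul_left]
    refine ind_mul_le fun hc => ?_
    rw [ind_of hc.1, ind_of hc.2.1, one_mul, one_mul, mul_assoc]
    refine le_trans ?_ (mul_le_mul_right (TZ_le Q hg hc) 6)
    rw [mul_left_comm 6]
    refine mul_le_mul_right ?_ _
    rw [ENNReal.tsum_prod (f := fun a b => T.TT Q g γ' d' (w₁ ++ w₂ ++ w₃) a *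
      T.TY Q g (T.hd g (w₁ ++ w₂)) b)]
    simp only [ENNReal.tsum_mul_left]
    rw [ENNReal.tsum_mul_right]
    calc _ ≤ 3 * (2 * Q.u ^ (4 * T.d (T.hd g (w₁ ++ w₂)) g.2)) :=
          mul_le_mul' (TT_sum hT Q hg γ' d' _) (TY_sum hT Q hg _)
      _ = _ := by rw [← mul_assoc]; norm_num
  have h2 : ∀ d' : ℕ, ∑' z, T.TB Q g γ' (d', z) ≤ (6 * (4 * (50 * (8192 * Q.u)))) * 2⁻¹ ^ d' := by
    intro d'
    rw [ENNReal.tsum_prod']
    simp only [ENNReal.tsum_prod' (α := Wd k) (β := Wd k × Wd k × Wd k),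
      ENNReal.tsum_prod' (α := Wd k) (β := Wd k × Wd k)]
    refine le_trans (ENNReal.tsum_le_tsum fun w₁ => ENNReal.tsum_le_tsum fun w₂ =>
      ENNReal.tsum_le_tsum fun w₃ => h1 d' w₁ w₂ w₃) ?_
    simp only [ENNReal.tsum_mul_left (a := 6 * (ind (T.d g.2 (T.hd g (γ'.take d')) = d') *
      (2⁻¹ ^ d' * Q.r ^ (4 * d'))))]
    refine (mul_le_mul_right (three_sum hT Q hg (T.hd g (γ'.take d'))) _).trans ?_
    rw [mul_assoc, mul_assoc, mul_assoc 6]
    refine mul_le_mul_right (ind_mul_le fun hc => ?_) _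
    rw [d_comm, hc]
    have : Q.u ^ (4 * d') * Q.r ^ (4 * d') = 1 := by rw [← mul_pow, Q.ur, one_pow]
    refine le_of_eq ?_
    calc _ = 4 * (50 * (8192 * Q.u)) * 2⁻¹ ^ d' * (Q.u ^ (4 * d') * Q.r ^ (4 * d')) := by ring
      _ = _ := by rw [this, mul_one]
  rw [ENNReal.tsum_prod']
  calc _ ≤ 2 * ∑' d' : ℕ, (6 * (4 * (50 * (8192 * Q.u)))) * 2⁻¹ ^ d' :=
        mul_le_mul_right (ENNReal.tsum_le_tsum h2) _
    _ = (2 * (6 * (4 * (50 * 8192))) * 2) * Q.u := by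
        rw [ENNReal.tsum_mul_left, ENNReal.tsum_geometric, ENNReal.one_sub_inv_two, inv_inv]
        ring
    _ ≤ 1 := small_of Q (by norm_num)

theorem lam_le_one : lam ≤ 1 := by
  rw [← lam_mul]; exact le_mul_of_one_le_left' (by norm_num)

theorem weight_le (Q : Par k) {a b c t e d' X l : ℕ} {τ : ℝ≥0∞} (hd : d' ≤ a + b + c)
    (hX : 4 * X ≤ a + b + e + 2) (hl : (lam * Q.p) ^ (d' + t) ≤ (lam * Q.p) ^ l * τ) :
    Q.p ^ (a + e) * wA Q.p (b + c + t) ≤ wA Q.p l *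
      (((5 * Q.u ^ 8) ^ (a + b + c - d') * 4096 ^ (a + b + c) * Q.r ^ (a + b + 2)) *
        (τ * ((Q.r * (5 * Q.u ^ 8)) ^ e * Q.u ^ (4 * X)))) := by
  obtain ⟨s, hs⟩ := Nat.exists_eq_add_of_le hd
  rw [hs, Nat.add_sub_cancel_left]
  have h1 : (1 : ℝ≥0∞) ≤ Q.u ^ (4 * X) * Q.r ^ (a + b + 2 + e) := by
    have := Q.mono (a := 0) (b := 0) (c := 4 * X) (d := a + b + 2 + e) (by omega)
    rwa [pow_zero, pow_zero, one_mul] at this
  have h2 : Q.p ^ a * (lam * Q.p) ^ (b + c) ≤ (lam * Q.p) ^ d' * ((5 * Q.u ^ 8) ^ s *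
      4096 ^ (d' + s)) := by
    calc Q.p ^ a * (lam * Q.p) ^ (b + c) ≤ Q.p ^ a * (1 * Q.p) ^ (b + c) := by
          gcongr; exact lam_le_one
      _ = (4096 * lam * Q.p) ^ d' * (Q.p ^ s * 1) := by
          rw [lam_mul, one_mul, mul_one, ← pow_add, ← pow_add, ← add_assoc, hs]
      _ ≤ (4096 * lam * Q.p) ^ d' * ((5 * Q.u ^ 8) ^ s * 4096 ^ s) := by
          gcongr
          · exact Q.hp
          · exact one_le_pow₀ (by norm_num)
      _ = _ := by rw [mul_assoc 4096, mul_pow, pow_add]; ring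
  calc Q.p ^ (a + e) * wA Q.p (b + c + t)
      = Q.p * (Q.p ^ a * (lam * Q.p) ^ (b + c)) * (lam * Q.p) ^ t * Q.p ^ e * 1 := by
        rw [wA, pow_add, pow_add _ (b + c)]; ring
    _ ≤ Q.p * ((lam * Q.p) ^ d' * ((5 * Q.u ^ 8) ^ s * 4096 ^ (d' + s))) * (lam * Q.p) ^ t *
        (5 * Q.u ^ 8) ^ e * (Q.u ^ (4 * X) * Q.r ^ (a + b + 2 + e)) := by
        gcongr; exact Q.hp
    _ = Q.p * (lam * Q.p) ^ (d' + t) * ((5 * Q.u ^ 8) ^ s * 4096 ^ (d' + s) *
        (5 * Q.u ^ 8) ^ e * (Q.u ^ (4 * X) * Q.r ^ (a + b + 2 + e))) := by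
        rw [pow_add _ d' t]; ring
    _ ≤ Q.p * ((lam * Q.p) ^ l * τ) * ((5 * Q.u ^ 8) ^ s * 4096 ^ (d' + s) *
        (5 * Q.u ^ 8) ^ e * (Q.u ^ (4 * X) * Q.r ^ (a + b + 2 + e))) := by
        gcongr
    _ = _ := by
        rw [wA, mul_pow Q.r, pow_add Q.r _ e]; ring

theorem transfer (hT : ∀ v, k ≤ T.deg v) (Q : Par k) {Tg : Set V}
    (hTg : ∀ v, v ∉ Tg → T.deg v = k) (N : ℕ) {g : V × V} (hg : T.Dart g) (P : Wd k → ℝ≥0∞) :
    2 * T.SWit Tg N g Q.p P ≤ T.SA Tg N g Q.p P := by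
  let f : (Wd k × Wd k) × (ℕ × Wd k × ℕ) → ℝ≥0∞ := fun a =>
    ind (T.State Tg N g a.1.1 a.1.2) * (ind (T.Wit g a.1.1 a.1.2 a.2.1 a.2.2.1 a.2.2.2) *
      (P (a.1.1.take a.2.1) * Q.p ^ (a.1.1.length - a.2.1 + a.2.2.1.length)) *
        wA Q.p a.1.2.length)
  let G : (Wd k × Wd k) × (ℕ × Wd k × Wd k × Wd k × Wd k × Wd k) → ℝ≥0∞ := fun b =>
    ind (T.State Tg N g b.1.1 b.1.2) * (P b.1.1 * wA Q.p b.1.2.length) *
      T.TB Q (T.run g b.1.1) b.1.2 b.2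
  have h1 : T.SWit Tg N g Q.p P = ∑' a, f a := by
    rw [ENNReal.tsum_prod', SWit]
    refine tsum_congr fun x => ?_
    simp only [f, WitSum]
    rw [ENNReal.tsum_mul_left, ENNReal.tsum_mul_right]
  have h2 : ∑' a, f a ≤ ∑' b, G b := by
    refine tsum_le_of_dec f G (fun b => ((b.1.1 ++ b.2.2.1, b.2.2.2.1 ++ b.2.2.2.2.1 ++
      b.2.2.2.2.2.1), (b.1.1.length, b.2.2.2.2.2.2, b.2.2.2.1.length))) ?_
    rintro ⟨⟨σ, γ⟩, j, η, h⟩ hne
    have hS : T.State Tg N g σ γ := of_ind_mul_ne hne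
    have hW : T.Wit g σ γ j η h := by
      by_contra hW
      exact hne (by simp only [f, ind_of_not hW, zero_mul, mul_zero])
    obtain ⟨hj, hh, hW'⟩ := id hW
    have hσ : σ.take j ++ σ.drop j = σ := List.take_append_drop _ _
    have hr : T.run (T.run g (σ.take j)) (σ.drop j) = T.run g σ := by rw [← run_append, hσ]
    have hlj : (σ.take j).length = j := by rw [List.length_take]; omega
    have hlh : (γ.take h).length = h := by rw [List.length_take]; omega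
    have hld : (σ.drop j).length = σ.length - j := List.length_drop
    obtain ⟨γ', d', w₃, tl, e1, hC, hQ, hl, hc, hm⟩ := geo_transfer hTg (run_dart hg (σ.take j))
      (σ.drop j) γ (by intro h0; rw [h0] at hld; simp at hld; omega) hh (hr ▸ hS.1) (hr ▸ hS.2.1)
    refine ⟨((σ.take j, γ'), d', σ.drop j, γ.take h, w₃, tl, η), by simp only [hσ, e1, hlj, hlh], ?_⟩
    have hS' : T.State Tg N g (σ.take j) γ' := ⟨hC, hQ, by have := hS.2.2; omega⟩
    have hγ : γ.length = h + w₃.length + tl.length := by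
      have := congrArg List.length e1
      simp only [List.length_append, hlh] at this
      omega
    simp only [f, G, TB, ind_of hS, ind_of hW, ind_of hS', ind_of hc, one_mul]
    rw [mul_assoc, mul_assoc]
    refine mul_le_mul_right ?_ _
    have hd := hc.le (run_dart hg (σ.take j))
    rw [TZ, TY, hγ, hld, hlh]
    rw [hld, hlh] at hd
    refine weight_le Q hd ?_ ?_
    · rw [← hd_append, ← hd_append, ← List.append_assoc, hσ, d_comm]; exact hW'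
    · rcases hm with hm | hm
      · rw [hm, pow_add, TT]; exact mul_le_mul_right le_add_self _
      · rw [TT, ind_of hm, ← hm.1, add_comm d']
        exact le_mul_of_one_le_right' le_self_add
  rw [h1]
  refine (mul_le_mul_right h2 _).trans ?_
  rw [ENNReal.tsum_prod', ← ENNReal.tsum_mul_left, SA]
  refine ENNReal.tsum_le_tsum fun x => ?_
  simp only [G]
  rw [ENNReal.tsum_mul_left, mul_left_comm]
  exact mul_le_of_le_one_right' (col_sum hT Q (run_dart hg _) _)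

end PlaneTri
end Pool.Agent.P.MP_e4ac67_pr
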