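import Pool.Agent.P.MP_e4ac67_pr.Fail
import Pool.Agent.P.MP_e4ac67_pr.Transfer

open scoped ENNReal

namespace Pool.Agent.P.MP_e4ac67_pr
namespace PlaneTri
variable {V V' : Type} {T : PlaneTri V} {T' : PlaneTri V'} {k : ℕ}

theorem SA_le (Q : Par k) {Tg : Set V} (N : ℕ) (g : V × V)
    {P : Wd k → ℝ≥0∞} {Pg : Wd k → Wd k → ℝ≥0∞} (hP : ∀ σ, P σ ≤ Q.p ^ σ.length)
    (hI : ∀ σ γ, T.State Tg N g σ γ → ¬T.Root g σ γ → P σ ≤ Pg σ γ + T.WitSum g Q.p P σ γ) :
    T.SA Tg N g Q.p P ≤ T.SG Tg N g Q.p Pg + T.SRoot g Q.p k + T.SWit Tg N g Q.p P := by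
  unfold SA SG SRoot SWit
  rw [← ENNReal.tsum_add, ← ENNReal.tsum_add]
  refine ENNReal.tsum_le_tsum fun x => ind_mul_le fun hs => ?_
  by_cases hr : T.Root g x.1 x.2
  · rw [ind_of hr, one_mul]
    exact le_add_right (le_add_left (mul_le_mul_left (hP _) _))
  · rw [ind_of (show _ ∧ _ from ⟨hs, hr⟩), ind_of hs, ind_of_not hr, one_mul, one_mul, zero_mul,
      add_zero, ← add_mul]
    exact mul_le_mul_left (hI _ _ hs hr) _

theorem mainsum (hT : ∀ v, k ≤ T.deg v) (hT' : ∀ v, T'.deg v = k) (Q : Par k) {Tg : Set V}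
    (hTg : ∀ v, v ∉ Tg → T.deg v = k) (N : ℕ) {g : V × V} (hg : T.Dart g) {δ : V' × V'}
    (hδ : T'.Dart δ) {P : Wd k → ℝ≥0∞} {Pg : Wd k → Wd k → ℝ≥0∞}
    (hP : ∀ σ, P σ ≤ Q.p ^ σ.length)
    (hI : ∀ σ γ, T.State Tg N g σ γ → ¬T.Root g σ γ → P σ ≤ Pg σ γ + T.WitSum g Q.p P σ γ) :
    10 ^ 5 * (T.SSlow g Q.p k + T.SWrap Tg N g Q.p P + T.SFail T' N g δ Q.p P) ≤
      1 + T.SG Tg N g Q.p Pg := by
  have h1 := SA_le (T := T) Q N g hP hI
  have h2 := transfer hT Q hTg N hg P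
  have h3 := root_le hT Q hg
  have h4 := slow_le hT Q hg
  have h5 := wrap_le hT Q hTg N hg P
  have h6 := fail_le hT hT' Q hTg N hg hδ P
  have h7 := SA_ne_top (T := T) Q Tg N g hP
  have h8 := Q.small
  generalize T.SA Tg N g Q.p P = A at *
  generalize T.SG Tg N g Q.p Pg = G at *
  generalize T.SRoot g Q.p k = Rt at *
  generalize T.SWit Tg N g Q.p P = W at *
  generalize T.SSlow g Q.p k = s at *
  generalize T.SWrap Tg N g Q.p P = w at *
  generalize T.SFail T' N g δ Q.p P = f at *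
  generalize Q.u = u at *
  by_cases hG : G = ⊤
  · simp [hG]
  have hu : u ≠ ⊤ := by
    rintro rfl
    simp at h8
  have fin : ∀ {c x y : ℝ≥0∞}, c ≠ 0 → c * x ≤ y → y ≠ ⊤ → x ≠ ⊤ := by
    rintro c x y hc h hy rfl
    rw [ENNReal.mul_top hc] at h
    exact hy (top_le_iff.1 h)
  have hW := fin (by norm_num) h2 h7
  have hw := fin (by norm_num) h5 h7
  have hf := fin (by norm_num) h6 h7
  have hs : s ≠ ⊤ := ne_top_of_le_ne_top (ENNReal.mul_ne_top (by norm_num) hu) h4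
  have hR : Rt ≠ ⊤ := ne_top_of_le_ne_top (ENNReal.mul_ne_top (by norm_num) hu) h3
  lift A to NNReal using h7
  lift G to NNReal using hG
  lift u to NNReal using hu
  lift W to NNReal using hW
  lift w to NNReal using hw
  lift f to NNReal using hf
  lift s to NNReal using hs
  lift Rt to NNReal using hR
  norm_cast at *
  rw [← NNReal.coe_le_coe] at *
  push_cast at *
  have := G.2
  have := u.2
  nlinarith

end PlaneTri

theorem finish {s G v : ℝ≥0∞} (h1 : 1 ≤ 4 * (s + v)) (h2 : 10 ^ 5 * s ≤ 1 + G)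
    (h3 : G ≤ 2 ^ 15 * v) : 1 ≤ 8 * v := by
  by_cases hv : v = ⊤
  · simp [hv]
  have hG : G ≠ ⊤ := ne_top_of_le_ne_top (ENNReal.mul_ne_top (by norm_num) hv) h3
  have hs : s ≠ ⊤ := by
    rintro rfl
    rw [ENNReal.mul_top (by norm_num)] at h2
    exact ENNReal.add_ne_top.2 ⟨by norm_num, hG⟩ (top_le_iff.1 h2)
  lift v to NNReal using hv
  lift G to NNReal using hG
  lift s to NNReal using hs
  norm_cast at *
  rw [← NNReal.coe_le_coe] at *
  push_cast at *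
  nlinarith

end Pool.Agent.P.MP_e4ac67_pr
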