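import Pool.Agent.P.MP_e4ac67_pr.Explore
import Pool.Agent.P.MP_e4ac67_pr.Front

/-! TASK MULT: good states give distinct exit keys. -/

open scoped ENNReal

namespace Pool.Agent.P.MP_e4ac67_pr
namespace Setup
variable {V V' K K' : Type} {k : ℕ} {X : Setup V V' K K' k} {ξ : Finset (Wd k)} {ω : Finset K}

theorem mtake_le {σ : Wd k} (γ : Wd k) {i : ℕ} (hi : i ≤ σ.length) :
    (σ ++ γ).take i = σ.take i := List.take_append_of_le_length hi

theorem mtake_ge (σ γ : Wd k) (h : ℕ) : (σ ++ γ).take (σ.length + h) = σ ++ γ.take h :=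
  List.take_length_add_append h

theorem mtake_all (σ γ : Wd k) : (σ ++ γ).take (σ.length + γ.length) = σ ++ γ := by
  rw [mtake_ge, List.take_length]

theorem good_of_H {σ γ : Wd k} {N : ℕ} (hs : X.T.State X.Tg N X.g σ γ) (hr : ¬X.T.Root X.g σ γ)
    (hH : X.H ξ σ γ) : X.T.Good X.g σ γ := by
  refine ⟨hs.2.1, fun i hi => ?_, fun j h hw => ?_⟩
  · by_cases h1 : i ≤ σ.length
    · rw [mtake_le γ h1]
      exact acc_not_slow (acc_prefix hH.1 (List.take_prefix _ _))
    · obtain ⟨h, rfl⟩ : ∃ h, i = σ.length + h := ⟨i - σ.length, by omega⟩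
      rw [mtake_ge]
      exact fun hsl => hr ⟨h, by omega, hsl⟩
  · have hj : j < σ.length := hw.1
    refine hH.2 j [] h hw (fun hp => ?_) ?_ ?_
    · have := hp.length_le
      simp only [List.length_take, List.append_nil] at this
      omega
    · rw [List.append_nil]
      have := rk_lt_append (σ.take j) (w := σ.drop j) (by
        intro h0
        have := congrArg List.length h0
        simp only [List.length_drop, List.length_nil] at this
        omega)
      rwa [List.take_append_drop] at this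
    · rw [List.append_nil]
      exact acc_prefix hH.1 (List.take_prefix _ _)

/-- the `i`-th vertex of the path of the word `w` -/
noncomputable def mW (X : Setup V V' K K' k) (w : Wd k) (i : ℕ) : V := X.T.hd X.g (w.take i)

theorem mW_zero (w : Wd k) : X.mW w 0 = X.g.2 := rfl

theorem mW_all (σ γ : Wd k) : X.mW (σ ++ γ) (σ.length + γ.length) = X.T.hd X.g (σ ++ γ) := by
  rw [mW, mtake_all]

theorem mW_adj (w : Wd k) {i : ℕ} (hi : i < w.length) :
    X.T.G.Adj (X.mW w i) (X.mW w (i + 1)) := PlaneTri.adj_hd_take X.hg w hi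

theorem mW_fst (w : Wd k) {i : ℕ} (hi : i < w.length) :
    (X.T.run X.g (w.take (i + 1))).1 = X.mW w i := PlaneTri.run_take_fst _ _ hi

theorem mW_last {σ γ : Wd k} {i : ℕ} (hi : i + 1 = σ.length + γ.length) :
    (X.T.run X.g (σ ++ γ)).1 = X.mW (σ ++ γ) i := by
  rw [← mW_fst _ (by rw [List.length_append]; omega), hi, mtake_all]

theorem kw_take (w : Wd k) {i : ℕ} (hi : i < w.length) :
    X.kw (w.take (i + 1)) = X.key (X.mW w i) (X.mW w (i + 1)) := by
  rw [kw, mW_fst w hi]; rfl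

theorem mW_not_Tg {σ γ : Wd k} {N : ℕ} (hs : X.T.State X.Tg N X.g σ γ) {i : ℕ}
    (h1 : σ.length ≤ i) (h2 : i < σ.length + γ.length) : X.mW (σ ++ γ) i ∉ X.Tg := by
  obtain ⟨h, rfl⟩ := Nat.exists_eq_add_of_le h1
  rw [mW, mtake_ge, PlaneTri.hd_append]
  exact hs.1.2 h (by omega)

theorem end_Tg {σ γ : Wd k} {N : ℕ} (hs : X.T.State X.Tg N X.g σ γ) :
    X.T.hd X.g (σ ++ γ) ∈ X.Tg := by
  rw [PlaneTri.hd_append]; exact hs.1.1

theorem acc_take {σ : Wd k} (γ : Wd k) (h : X.acc ξ σ) {i : ℕ} (hi : i ≤ σ.length) :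
    X.acc ξ ((σ ++ γ).take i) := by
  rw [mtake_le γ hi]; exact acc_prefix h (List.take_prefix _ _)

theorem mW_mem {σ γ : Wd k} {N : ℕ} (hs : X.T.State X.Tg N X.g σ γ) (h : X.acc ξ σ) {i : ℕ}
    (hi : i < σ.length + γ.length) : X.mW (σ ++ γ) i ∈ X.S := by
  by_cases h1 : i ≤ σ.length
  · exact acc_hd_mem (acc_take γ h h1)
  · have := mW_not_Tg hs (i := i) (by omega) hi
    by_contra h2
    exact this (Or.inl h2)

theorem mW_inj {σ : Wd k} (γ : Wd k) (h : X.acc ξ σ) {i j : ℕ} (hi : i ≤ σ.length)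
    (hj : j ≤ σ.length) (e : X.mW (σ ++ γ) i = X.mW (σ ++ γ) j) : i = j := by
  have := congrArg List.length (acc_hd_inj (acc_take γ h hi) (acc_take γ h hj) e)
  simp only [List.length_take, List.length_append] at this
  omega

theorem key_mem (hω : ∀ u, X.acc ξ u → u ≠ [] → X.kw u ∈ ω) {σ γ : Wd k} (h : X.acc ξ σ)
    (hG : X.GC σ γ ω) {i : ℕ} (hi : i < σ.length + γ.length) :
    X.key (X.mW (σ ++ γ) i) (X.mW (σ ++ γ) (i + 1)) ∈ ω := by
  rw [← kw_take _ (by rw [List.length_append]; exact hi)]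
  by_cases h1 : i + 1 ≤ σ.length
  · refine hω _ (acc_take γ h h1) fun h0 => ?_
    have := congrArg List.length h0
    simp only [List.length_take, List.length_append, List.length_nil] at this
    omega
  · obtain ⟨j, rfl⟩ : ∃ j, i = σ.length + j := ⟨i - σ.length, by omega⟩
    rw [add_assoc, mtake_ge]
    exact hG.1 j (by omega)

theorem mW_Fr (R : Rho X.T) {σ γ : Wd k} (h : X.T.Good X.g σ γ) {i : ℕ} (h0 : 1 ≤ i)
    (hi : i ≤ σ.length + γ.length) : X.mW (σ ++ γ) i ∈ R.Fr X.g := by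
  refine (R.nonslow X.hg (w := (σ ++ γ).take i) fun j hj => ?_).2 fun h1 => ?_
  · simp only [List.length_take, List.length_append] at hj
    rw [List.take_take, min_eq_left (by omega)]
    exact h.2.1 j (by omega)
  · have := congrArg List.length h1
    simp only [List.length_take, List.length_append, List.length_nil] at this
    omega

theorem reach_mW (R : Rho X.T) (hω : ∀ u, X.acc ξ u → u ≠ [] → X.kw u ∈ ω) {σ γ : Wd k} {N : ℕ}
    (hs : X.T.State X.Tg N X.g σ γ) (hg : X.T.Good X.g σ γ) (h : X.acc ξ σ) (hG : X.GC σ γ ω)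
    {i : ℕ} (hi : i ≤ σ.length + γ.length) (hS : X.mW (σ ++ γ) i ∈ X.S) :
    Reach X.T.G X.key ((X.S : Set V) ∩ R.Fr X.g) X.g.2 ω (X.mW (σ ++ γ) i) := by
  induction i with
  | zero => exact Reach.base
  | succ i ih =>
    exact Reach.step (ih (by omega) (mW_mem hs h (by omega)))
      (mW_adj _ (by rw [List.length_append]; omega)) ⟨hS, mW_Fr R hg (by omega) hi⟩
      (key_mem hω h hG (by omega))

theorem deg_gt {σ γ : Wd k} {N : ℕ} (hs : X.T.State X.Tg N X.g σ γ)
    (hz : X.T.hd X.g (σ ++ γ) ∈ X.S) : k < X.T.deg (X.T.hd X.g (σ ++ γ)) := by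
  rcases end_Tg hs with h | h
  · exact absurd hz h
  · exact lt_of_le_of_ne (X.hT _) (Ne.symm h)

theorem len_pos {σ γ : Wd k} (hz : X.T.hd X.g (σ ++ γ) ∉ X.S) :
    ∃ i, i + 1 = σ.length + γ.length := by
  refine ⟨σ.length + γ.length - 1, ?_⟩
  by_contra h
  have h1 : σ = [] := List.length_eq_zero_iff.1 (by omega)
  have h2 : γ = [] := List.length_eq_zero_iff.1 (by omega)
  subst h1 h2
  exact hz X.hS

theorem exit_of (R : Rho X.T) (hk : 10000 ≤ k)
    (hω : ∀ u, X.acc ξ u → u ≠ [] → X.kw u ∈ ω) {σ γ : Wd k} {N : ℕ}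
    (hs : X.T.State X.Tg N X.g σ γ) (hr : ¬X.T.Root X.g σ γ) (hH : X.H ξ σ γ) (hG : X.GC σ γ ω)
    {κ : K} (hκ : X.ExX R (X.T.run X.g (σ ++ γ)) ω κ) :
    Exit X.T.G X.key X.S (R.Fr X.g) X.g.2 ω κ := by
  have hg := good_of_H hs hr hH
  have hD := PlaneTri.run_dart X.hg (σ ++ γ)
  have hz : X.T.hd X.g (σ ++ γ) ∈ X.S →
      Reach X.T.G X.key ((X.S : Set V) ∩ R.Fr X.g) X.g.2 ω (X.T.hd X.g (σ ++ γ)) := fun h => by
    rw [← mW_all] at h ⊢
    exact reach_mW R hω hs hg hH.1 hG le_rfl h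
  rcases hκ with ⟨h1, rfl⟩ | ⟨h1, h2, rfl⟩ | ⟨h1, h2, h3, u, v, h4, h5, h6, h7, rfl⟩
  · obtain ⟨i, hi⟩ := len_pos h1
    refine ⟨_, _, ?_, hD, h1, ?_, rfl⟩
    · rw [mW_last hi]
      exact reach_mW R hω hs hg hH.1 hG (by omega) (mW_mem hs hH.1 (by omega))
    · rw [PlaneTri.run_snd, ← mW_all]
      exact mW_Fr R hg (by omega) le_rfl
  · exact ⟨_, _, hz h1, PlaneTri.bonus_dart hD k, h2,
      (hg.front R X.hg hk (deg_gt hs h1) (Or.inl rfl)).2.2.2, rfl⟩
  · refine ⟨u, v, ?_, h5, h6, (hg.front R X.hg hk (deg_gt hs h1) (Or.inr h7)).2.2.2, rfl⟩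
    clear h5
    induction h4 with
    | base =>
      exact Reach.step (hz h1) (PlaneTri.bonus_dart hD k)
        ⟨h2, (hg.front R X.hg hk (deg_gt hs h1) (Or.inl rfl)).2.2.2⟩ h3
    | step _ a b c ih =>
      exact Reach.step ih a ⟨b.1, (hg.front R X.hg hk (deg_gt hs h1) (Or.inr b.2)).2.2.2⟩ c

/-- the exit dart of a state -/
theorem exit_dart (R : Rho X.T) {σ γ : Wd k} {N : ℕ}
    (hs : X.T.State X.Tg N X.g σ γ) (h : X.acc ξ σ)
    {κ : K} (hκ : X.ExX R (X.T.run X.g (σ ++ γ)) ω κ) :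
    ∃ u v, u ∈ X.S ∧ v ∉ X.S ∧ X.key u v = κ ∧ (v = X.T.hd X.g (σ ++ γ) ∨
      (k < X.T.deg (X.T.hd X.g (σ ++ γ)) ∧ (v = (X.T.bonus k (X.T.run X.g (σ ++ γ))).2 ∨
        v ∈ R.Fr (X.T.bonus k (X.T.run X.g (σ ++ γ)))))) := by
  rcases hκ with ⟨h1, rfl⟩ | ⟨h1, h2, rfl⟩ | ⟨h1, h2, h3, u, v, h4, h5, h6, h7, rfl⟩
  · obtain ⟨i, hi⟩ := len_pos h1
    refine ⟨_, _, ?_, h1, rfl, Or.inl rfl⟩
    rw [mW_last hi]
    exact mW_mem hs h (by omega)
  · exact ⟨_, _, h1, h2, rfl, Or.inr ⟨deg_gt hs h1, Or.inl rfl⟩⟩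
  · refine ⟨u, v, ?_, h6, rfl, Or.inr ⟨deg_gt hs h1, Or.inr h7⟩⟩
    cases h4 with
    | base => exact h2
    | step _ _ b _ => exact b.1

/-- an open path can enter the closed path `γ` only from behind -/
theorem entering {σ γ w : Wd k} (hg : X.T.Good X.g σ γ) (hG : X.GC σ γ ω) {h i : ℕ}
    (hh : h ≤ γ.length) (hi : i < w.length)
    (hw : ∀ j ≤ i, X.key (X.mW w j) (X.mW w (j + 1)) ∈ ω)
    (he : X.mW (σ ++ γ) (σ.length + h) = X.mW w (i + 1)) {e : Fin k}
    (hc : (X.T.step (X.T.run X.g (σ ++ γ.take h)) e).2 = X.mW w i)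
    (hn : h < γ.length → X.mW w i ≠ X.mW (σ ++ γ) (σ.length + h + 1)) :
    (X.T.run X.g (σ ++ γ.take h)).1 = X.mW w i := by
  by_contra hne
  have h1 : X.hd (σ ++ γ.take h ++ [e]) = X.mW w i := by rw [← hc, hd, PlaneTri.hd_snoc]
  have h2 := hG.2 h hh e (by rw [h1]; exact fun h => hne h.symm) (fun h3 => by
    rw [h1]
    have := hn h3
    rwa [mW, mW, add_assoc, mtake_ge] at this)
  have h3 : X.kw (σ ++ γ.take h ++ [e]) = X.key (X.mW w (i + 1)) (X.mW w i) := by
    rw [kw, PlaneTri.run_snoc_fst, ← he, mW, mtake_ge]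
    exact congrArg _ h1
  rw [h3] at h2
  by_cases hm : X.m = true
  · obtain _ | i := i
    · have hadj := mW_adj (X := X) w hi
      rw [← he, mW_zero, ← mW_zero (σ ++ γ)] at hadj
      have hd1 := PlaneTri.d_adj hadj
      by_cases h4 : 2 ≤ σ.length + h
      · have := (hg.far X.hg (i := 0) (j := σ.length + h) (by omega) (by omega) (by omega)).2
          (by omega)
        change 2 ≤ X.T.d (X.mW (σ ++ γ) 0) (X.mW (σ ++ γ) (σ.length + h)) at this
        omega
      by_cases h5 : σ.length + h = 0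
      · rw [h5] at hadj
        exact hadj.ne rfl
      · apply hne
        rw [← mtake_ge, show σ.length + h = 0 + 1 by omega,
          mW_fst _ (by rw [List.length_append]; omega)]
        rfl
    · apply h2
      have := hw i (by omega)
      rwa [(X.hkey _ _ (X.mW w (i + 1 + 1)) (X.mW w (i + 1))).2 (by simp [KE, hm])] at this
  · apply h2
    have := hw i le_rfl
    rwa [(X.hkey _ _ (X.mW w (i + 1)) (X.mW w i)).2 (by simp [KE, hm])] at this

theorem small_step (R : Rho X.T) (hk : 10000 ≤ k) (w : Wd k) {c : V}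
    (hc : X.T.G.Adj (X.T.hd X.g w) c) (h : R.ρ (X.T.hd X.g w) (X.T.run X.g w).1 c ≤ 1000) :
    ∃ e : Fin k, (X.T.step (X.T.run X.g w) e).2 = c := by
  have hD := PlaneTri.run_dart X.hg w
  refine PlaneTri.exists_step_small hD (X.hT _) hc ?_
  have h1 := (R.ang_le _ _ _ hD.symm hc).trans h
  have h2 : X.T.ang (X.T.run X.g w).2 (X.T.run X.g w).1 c ≤ 1000 := by exact_mod_cast h1
  omega

theorem same_end (R : Rho X.T) (hk : 10000 ≤ k)
    (hω : ∀ u, X.acc ξ u → u ≠ [] → X.kw u ∈ ω) {σ γ σ' γ' : Wd k} {N : ℕ}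
    (hs : X.T.State X.Tg N X.g σ γ) (hg : X.T.Good X.g σ γ) (ha : X.acc ξ σ) (hG : X.GC σ γ ω)
    (hg' : X.T.Good X.g σ' γ') (ha' : X.acc ξ σ')
    (hG' : X.GC σ' γ' ω) (hl : γ.length = γ'.length)
    (hz : X.T.hd X.g (σ ++ γ) = X.T.hd X.g (σ' ++ γ')) : σ = σ' ∧ γ = γ' := by
  have main : ∀ n h, h + n = γ.length →
      X.mW (σ ++ γ) (σ.length + h) = X.mW (σ' ++ γ') (σ'.length + h) := by
    intro n
    induction n using Nat.strong_induction_on with
    | _ n ih =>
      intro h hh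
      obtain _ | n := n
      · have : h = γ.length := by omega
        subst this
        rw [mW_all, hl, mW_all, hz]
      have h1 := ih n (by omega) (h + 1) (by omega)
      have hi : σ'.length + h < (σ' ++ γ').length := by rw [List.length_append]; omega
      have hadj := (mW_adj (X := X) _ hi).symm
      rw [add_assoc, ← h1] at hadj
      have hex : ∃ e : Fin k, (X.T.step (X.T.run X.g (σ ++ γ.take (h + 1))) e).2 =
          X.mW (σ' ++ γ') (σ'.length + h) := by
        obtain _ | n := n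
        · have h2 : h + 1 = γ.length := by omega
          rw [h2, mW_all] at hadj
          rw [h2, List.take_length]
          refine small_step R hk _ hadj ?_
          have a1 := hg.near_root R X.hg
          have a2 := hg'.near_root R X.hg
          rw [mW_last (i := σ'.length + h) (by omega), ← hz, R.symm] at a2
          have := R.tri (X.T.hd X.g (σ ++ γ)) (X.T.run X.g (σ ++ γ)).1 X.g.1
            (X.mW (σ' ++ γ') (σ'.length + h))
          linarith
        · have h2 := hTg _ (mW_not_Tg hs (i := σ.length + (h + 1)) (by omega) (by omega))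
          rw [mW, mtake_ge] at h2 hadj
          exact PlaneTri.exists_step_reg (PlaneTri.run_dart X.hg _) h2 hadj
      obtain ⟨e, he⟩ := hex
      have := entering hg hG (h := h + 1) (by omega) hi
        (fun j hj => key_mem hω ha' hG' (by omega)) h1 he (fun h3 h4 => by
          have h5 := ih (n - 1) (by omega) (h + 1 + 1) (by omega)
          rw [add_assoc, h5] at h4
          have := (hg'.far X.hg (i := σ'.length + h) (j := σ'.length + (h + 1 + 1)) (by omega)
            (by omega) (by omega)).2 (by omega)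
          change 2 ≤ X.T.d (X.mW (σ' ++ γ') _) (X.mW (σ' ++ γ') _) at this
          rw [h4, PlaneTri.d_self] at this
          omega)
      rw [← this, ← mtake_ge, ← add_assoc, mW_fst _ (by rw [List.length_append]; omega)]
  have h0 := main γ.length 0 (by omega)
  rw [mW, mW, mtake_ge, mtake_ge, List.take_zero, List.take_zero, List.append_nil,
    List.append_nil] at h0
  have e := acc_hd_inj ha ha' h0
  subst e
  refine ⟨rfl, PlaneTri.word_unique X.hT (PlaneTri.run_dart X.hg σ) hl fun i hi => ?_⟩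
  have := main (γ.length - i) i (by omega)
  rwa [mW, mW, mtake_ge, mtake_ge, PlaneTri.hd_append, PlaneTri.hd_append] at this

/-- the second path does not visit the end of the first one -/
theorem avoid (R : Rho X.T) (hk : 10000 ≤ k)
    (hω : ∀ u, X.acc ξ u → u ≠ [] → X.kw u ∈ ω) {σ γ σ' γ' : Wd k} {N : ℕ}
    (hs : X.T.State X.Tg N X.g σ γ) (hg : X.T.Good X.g σ γ) (ha : X.acc ξ σ) (hG : X.GC σ γ ω)
    (hs' : X.T.State X.Tg N X.g σ' γ') (hg' : X.T.Good X.g σ' γ') (ha' : X.acc ξ σ')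
    (hG' : X.GC σ' γ' ω) (hz : X.T.hd X.g (σ ++ γ) ≠ X.T.hd X.g (σ' ++ γ')) {i : ℕ}
    (hi : i ≤ σ'.length + γ'.length) : X.mW (σ' ++ γ') i ≠ X.T.hd X.g (σ ++ γ) := by
  intro he
  have hT := end_Tg hs
  have hit : i < σ'.length := by
    by_contra h1
    rcases hi.lt_or_eq with h2 | h2
    · exact mW_not_Tg hs' (by omega) h2 (he ▸ hT)
    · rw [h2, mW_all] at he
      exact hz he.symm
  have hlen : i < (σ' ++ γ').length := by rw [List.length_append]; omega
  have harr : X.T.run X.g ((σ' ++ γ').take i) = X.T.run X.g (σ ++ γ) := by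
    by_cases h0 : γ = []
    · subst h0
      rw [List.append_nil] at he ⊢
      rw [acc_hd_inj (acc_take γ' ha' hit.le) ha he]
    have hb : 0 < γ.length := List.length_pos_iff.2 h0
    have hp := hg.near_past R X.hg (i := 0) (by omega)
    obtain _ | i := i
    · exact absurd he hp.1
    have hi' : i < (σ' ++ γ').length := by omega
    have hadj := (mW_adj (X := X) _ hi').symm
    rw [he] at hadj
    have hnw := R.nowrap X.hg (σ := (σ' ++ γ').take i)
      (fun α w hp => acc_not_wrap (acc_take γ' ha' (by omega)) hp) hT (fun j hj h => by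
        simp only [List.length_take, List.length_append] at hj
        rw [List.take_take, min_eq_left (by omega), ← he] at h
        have := mW_inj γ' ha' (by omega) (by omega) h
        omega)
    obtain ⟨e, he'⟩ := small_step R hk _ hadj (by
      have := R.tri (X.T.hd X.g (σ ++ γ)) (X.T.run X.g (σ ++ γ)).1 X.g.2 (X.mW (σ' ++ γ') i)
      have h2 : R.ρ (X.T.hd X.g (σ ++ γ)) (X.T.run X.g (σ ++ γ)).1 X.g.2 ≤ 64 := hp.2
      have h3 : R.ρ (X.T.hd X.g (σ ++ γ)) X.g.2 (X.mW (σ' ++ γ') i) ≤ 128 := hnw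
      linarith)
    have := entering hg hG (h := γ.length) (e := e) le_rfl hi'
      (fun j hj => key_mem hω ha' hG' (by omega)) (by rw [mW_all, he])
      (by rw [List.take_length]; exact he') (fun h => absurd h (lt_irrefl _))
    rw [List.take_length] at this
    exact Prod.ext (by rw [mW_fst _ hi', this]) he
  have hrun : X.T.run X.g (σ ++ γ.take γ.length ++ [(σ' ++ γ')[i]]) =
      X.T.run X.g ((σ' ++ γ').take (i + 1)) := by
    rw [List.take_length, PlaneTri.take_succ_eq _ hlen, PlaneTri.run_snoc, PlaneTri.run_snoc, harr]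
  refine hG.2 γ.length le_rfl (σ' ++ γ')[i] ?_ (fun h => absurd h (lt_irrefl _)) ?_
  · rw [hd, PlaneTri.hd, hrun, List.take_length, ← harr]
    obtain _ | i := i
    · exact hg'.ne_root
    · rw [mW_fst _ (by omega)]
      intro h
      have := mW_inj γ' ha' (i := i + 1 + 1) (j := i) (by omega) (by omega) h
      omega
  · rw [kw, hrun]
    have := key_mem hω ha' hG' (i := i) (by omega)
    rwa [← kw_take _ hlen] at this

theorem ends_eq (R : Rho X.T) (hk : 10000 ≤ k)
    (hω : ∀ u, X.acc ξ u → u ≠ [] → X.kw u ∈ ω) {σ γ σ' γ' : Wd k} {N : ℕ}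
    (hs : X.T.State X.Tg N X.g σ γ) (hg : X.T.Good X.g σ γ) (ha : X.acc ξ σ) (hG : X.GC σ γ ω)
    (hs' : X.T.State X.Tg N X.g σ' γ') (hg' : X.T.Good X.g σ' γ') (ha' : X.acc ξ σ')
    (hG' : X.GC σ' γ' ω)
    {κ : K} (hκ : X.ExX R (X.T.run X.g (σ ++ γ)) ω κ)
    (hκ' : X.ExX R (X.T.run X.g (σ' ++ γ')) ω κ)
    (hle : X.T.d X.g.1 (X.T.hd X.g (σ ++ γ)) ≤ X.T.d X.g.1 (X.T.hd X.g (σ' ++ γ'))) :
    X.T.hd X.g (σ ++ γ) = X.T.hd X.g (σ' ++ γ') := by
  by_contra hz
  obtain ⟨u, v, hu, hv, hkey, h1⟩ := exit_dart R hs ha hκ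
  obtain ⟨u', v', hu', hv', hkey', h2⟩ := exit_dart R hs' ha' hκ'
  have hvv : v = v' := by
    have := (X.hkey _ _ _ _).1 (hkey.trans hkey'.symm)
    unfold KE at this
    split_ifs at this
    · exact this
    · rcases this with h | h
      · exact h.2
      · exact absurd (h.1 ▸ hu) hv'
  subst hvv
  have hd2 : X.T.d X.g.1 v = X.T.d X.g.1 (X.T.hd X.g (σ' ++ γ')) +
      X.T.d (X.T.hd X.g (σ' ++ γ')) v := by
    rcases h2 with h | h
    · rw [← h, PlaneTri.d_self, add_zero]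
    · exact (hg'.front R X.hg hk h.1 h.2).2.2.1
  rcases h1 with h1 | h1
  · rw [← h1] at hle hz
    exact hz ((PlaneTri.d_eq_zero (T := X.T)).1 (by omega)).symm
  obtain ⟨f1, f2, f3, -⟩ := hg.front R X.hg hk h1.1 h1.2
  have a1 : R.ρ (X.T.hd X.g (σ ++ γ)) (X.T.hd X.g (σ' ++ γ')) v ≤ 128 := by
    by_contra h
    have := R.pass (Ne.symm hz) f1 (not_le.1 h)
    exact hz ((PlaneTri.d_eq_zero (T := X.T)).1 (by omega)).symm
  have hav := fun i hi => avoid R hk hω hs hg ha hG hs' hg' ha' hG' hz (i := i) hi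
  have a2 := hg.near_root R X.hg
  have a3 : R.ρ (X.T.hd X.g (σ ++ γ)) X.g.1 X.g.2 ≤ 2 := by
    refine R.adj_le X.hg ?_ (hav 0 (by omega))
    have := hg.ne_root (i := σ.length + γ.length)
    rw [mtake_all] at this
    exact this.symm
  have a4 := R.nowrap X.hg (σ := σ') (fun α w hp => acc_not_wrap ha' hp) (end_Tg hs)
    (fun j hj => by
      have := hav j (by omega)
      rwa [mW, mtake_le _ hj] at this)
  have a5 := R.quasi (X.T.hd X.g (σ ++ γ)) (fun j => X.mW (σ' ++ γ') (σ'.length + j)) γ'.length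
    (fun j hj => mW_adj _ (by rw [List.length_append]; omega))
    (fun j hj => hav _ (by omega)) (fun i j hij hj => by
      have := hg'.1 i j hij hj
      simp only [mW, mtake_ge, PlaneTri.hd_append]
      omega)
  rw [mW_all, mW, mtake_ge, List.take_zero, List.append_nil] at a5
  have t1 := R.tri (X.T.hd X.g (σ ++ γ)) (X.T.run X.g (σ ++ γ)).1 X.g.1 v
  have t2 := R.tri (X.T.hd X.g (σ ++ γ)) X.g.1 X.g.2 v
  have t3 := R.tri (X.T.hd X.g (σ ++ γ)) X.g.2 (X.T.hd X.g σ') v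
  have t4 := R.tri (X.T.hd X.g (σ ++ γ)) (X.T.hd X.g σ') (X.T.hd X.g (σ' ++ γ')) v
  linarith

theorem mult (R : Rho X.T) (hk : 10000 ≤ k)
    (hω : ∀ u, X.acc ξ u → u ≠ [] → X.kw u ∈ ω) {σ γ σ' γ' : Wd k} {N : ℕ}
    (hs : X.T.State X.Tg N X.g σ γ) (hr : ¬X.T.Root X.g σ γ) (hH : X.H ξ σ γ) (hG : X.GC σ γ ω)
    (hs' : X.T.State X.Tg N X.g σ' γ') (hr' : ¬X.T.Root X.g σ' γ') (hH' : X.H ξ σ' γ')
    (hG' : X.GC σ' γ' ω) (hl : γ.length = γ'.length)
    {κ : K} (hκ : X.ExX R (X.T.run X.g (σ ++ γ)) ω κ)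
    (hκ' : X.ExX R (X.T.run X.g (σ' ++ γ')) ω κ) : σ = σ' ∧ γ = γ' := by
  have hg := good_of_H hs hr hH
  have hg' := good_of_H hs' hr' hH'
  refine same_end R hk hω hs hg hH.1 hG hg' hH'.1 hG' hl ?_
  rcases le_total (X.T.d X.g.1 (X.T.hd X.g (σ ++ γ))) (X.T.d X.g.1 (X.T.hd X.g (σ' ++ γ')))
    with h | h
  · exact ends_eq R hk hω hs hg hH.1 hG hs' hg' hH'.1 hG' hκ hκ' h
  · exact (ends_eq R hk hω hs' hg' hH'.1 hG' hs hg hH.1 hG hκ' hκ h).symm

end Setup
end Pool.Agent.P.MP_e4ac67_pr
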