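import Pool.Agent.P.MP_e4ac67_pr.NodeDef

/-! TASK NODE: the node model is isomorphic to `T`. -/

namespace Pool.Agent.P.MP_e4ac67_pr
namespace Node

variable {D : List ℕ → ℕ}

theorem tau_le (w : List ℕ) : tau D w ≤ 1 := by
  cases w with
  | nil => simp [tau]
  | cons e w => unfold tau; split_ifs <;> omega

theorem length_succ (w : List ℕ) : (succ D w).length = w.length := by
  induction w with
  | nil => rfl
  | cons e w ih =>
    unfold succ
    split_ifs with h1 h2
    · simp [h1]
    · simp [ih]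
    · simp

theorem length_pred (w : List ℕ) : (pred D w).length = w.length := by
  induction w with
  | nil => rfl
  | cons e w ih =>
    unfold pred
    split_ifs with h1 h2
    · simp [h1]
    · simp [last, ih]
    · simp

theorem succ_ne_nil {w : List ℕ} (h : w ≠ []) : succ D w ≠ [] := fun he =>
  h (List.length_eq_zero_iff.1 (by rw [← length_succ (D := D), he]; rfl))

theorem pred_ne_nil {w : List ℕ} (h : w ≠ []) : pred D w ≠ [] := fun he =>
  h (List.length_eq_zero_iff.1 (by rw [← length_pred (D := D), he]; rfl))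

theorem tail_last (w : List ℕ) : (last D w).tail = w := rfl

theorem last_ne_nil (w : List ℕ) : last D w ≠ [] := List.cons_ne_nil _ _

theorem valid_tail {w : List ℕ} (h : Valid D w) : Valid D w.tail := by
  cases w with
  | nil => exact h
  | cons e w => exact h.1

theorem valid_single {e : ℕ} (h : e < D []) : Valid D [e] :=
  ⟨trivial, fun _ => h, fun h => absurd rfl h⟩

theorem valid_cons {w : List ℕ} {e : ℕ} (h : Valid D w) (h0 : w ≠ []) (h1 : 3 ≤ e)
    (h2 : e + 2 + tau D w ≤ D w) : Valid D (e :: w) :=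
  ⟨h, fun h => absurd h h0, fun _ => ⟨h1, h2⟩⟩

theorem valid_last (hD : ∀ w, 6 ≤ D w) {w : List ℕ} (h : Valid D w) (h0 : w ≠ []) :
    Valid D (last D w) := by
  have h1 := hD w
  have h2 := tau_le (D := D) w
  exact valid_cons h h0 (by omega) (by omega)

theorem valid_succ (hD : ∀ w, 6 ≤ D w) {w : List ℕ} (h : Valid D w) : Valid D (succ D w) := by
  induction w with
  | nil => exact h
  | cons e w ih =>
    unfold succ
    split_ifs with h1 h2
    · exact valid_single (Nat.mod_lt _ (by have := hD []; omega))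
    · have h3 := hD (succ D w)
      have h4 := tau_le (D := D) (succ D w)
      exact valid_cons (ih h.1) (succ_ne_nil h1) le_rfl (by omega)
    · have h3 := h.2.2 h1
      exact valid_cons h.1 h1 (by omega) (by omega)

theorem valid_pred (hD : ∀ w, 6 ≤ D w) {w : List ℕ} (h : Valid D w) : Valid D (pred D w) := by
  induction w with
  | nil => exact h
  | cons e w ih =>
    unfold pred
    split_ifs with h1 h2
    · exact valid_single (Nat.mod_lt _ (by have := hD []; omega))
    · exact valid_last hD (ih h.1) (pred_ne_nil h1)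
    · have h3 := h.2.2 h1
      exact valid_cons h.1 h1 (by omega) (by omega)

theorem tau_last (hD : ∀ w, 6 ≤ D w) {w : List ℕ} (h0 : w ≠ []) : tau D (last D w) = 1 := by
  have h1 := hD w
  have h2 := tau_le (D := D) w
  rw [last, tau, if_pos ⟨h0, by omega⟩]

theorem succ_last (hD : ∀ w, 6 ≤ D w) {w : List ℕ} (h0 : w ≠ []) :
    succ D (last D w) = 3 :: succ D w := by
  have h1 := hD w
  have h2 := tau_le (D := D) w
  rw [last, succ, if_neg h0, if_pos (by omega)]

theorem eq_last_of_tau {w : List ℕ} (h : tau D w = 1) : w = last D w.tail ∧ w.tail ≠ [] := by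
  cases w with
  | nil => simp [tau] at h
  | cons e w =>
    unfold tau at h
    split_ifs at h with h1
    · refine ⟨?_, h1.1⟩
      have := h1.2
      simp only [last, List.tail_cons, List.cons.injEq, and_true]
      omega

theorem mod_pred_succ {e n : ℕ} (h : e < n) : ((e + 1) % n + n - 1) % n = e := by
  rcases Nat.lt_or_ge (e + 1) n with h1 | h1
  · rw [Nat.mod_eq_of_lt h1, show e + 1 + n - 1 = e + n by omega, Nat.add_mod_right,
      Nat.mod_eq_of_lt h]
  · obtain rfl : n = e + 1 := by omega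
    simp

theorem mod_succ_pred {e n : ℕ} (h : e < n) : ((e + n - 1) % n + 1) % n = e := by
  rw [Nat.mod_add_mod, show e + n - 1 + 1 = e + n by omega, Nat.add_mod_right, Nat.mod_eq_of_lt h]

theorem pred_succ (hD : ∀ w, 6 ≤ D w) {w : List ℕ} (h : Valid D w) : pred D (succ D w) = w := by
  have _ := hD
  induction w with
  | nil => rfl
  | cons e w ih =>
    unfold succ
    split_ifs with h1 h2
    · subst h1
      rw [pred, if_pos rfl, mod_pred_succ (h.2.1 rfl)]
    · rw [pred, if_neg (succ_ne_nil h1), if_pos rfl, ih h.1, last]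
      congr 1
      omega
    · have h3 := h.2.2 h1
      rw [pred, if_neg h1, if_neg (by omega)]
      rfl

theorem succ_pred (hD : ∀ w, 6 ≤ D w) {w : List ℕ} (h : Valid D w) : succ D (pred D w) = w := by
  induction w with
  | nil => rfl
  | cons e w ih =>
    unfold pred
    split_ifs with h1 h2
    · subst h1
      rw [succ, if_pos rfl, mod_succ_pred (h.2.1 rfl)]
    · rw [succ_last hD (pred_ne_nil h1), ih h.1, h2]
    · have h3 := h.2.2 h1
      rw [succ, if_neg h1, if_neg (by omega)]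
      congr 1
      omega

theorem nb_nil (j : ℕ) : nb D [] j = [j] := by simp [nb]

theorem nb_zero {w : List ℕ} (h0 : w ≠ []) : nb D w 0 = w.tail := by simp [nb, h0]

theorem nb_one {w : List ℕ} (h0 : w ≠ []) : nb D w 1 = pred D w := by simp [nb, h0]

theorem nb_two {w : List ℕ} (h0 : w ≠ []) : nb D w 2 = last D (pred D w) := by simp [nb, h0]

theorem nb_child {w : List ℕ} (h0 : w ≠ []) {j : ℕ} (h1 : 3 ≤ j) (h2 : j + 2 + tau D w ≤ D w) :
    nb D w j = j :: w := by
  rw [nb, if_neg h0, if_neg (by omega), if_neg (by omega), if_neg (by omega), if_pos h2]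

theorem nb_succ (hD : ∀ w, 6 ≤ D w) {w : List ℕ} (h0 : w ≠ []) {j : ℕ}
    (h1 : j + 1 + tau D w = D w) : nb D w j = succ D w := by
  have h2 := hD w
  have h3 := tau_le (D := D) w
  rw [nb, if_neg h0, if_neg (by omega), if_neg (by omega), if_neg (by omega), if_neg (by omega),
    if_pos h1]

theorem nb_up (hD : ∀ w, 6 ≤ D w) {w : List ℕ} (ht : tau D w = 1) {j : ℕ}
    (h1 : j + 1 = D w) : nb D w j = succ D w.tail := by
  have h2 := hD w
  have h0 : w ≠ [] := by
    rintro rfl
    simp [tau] at ht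
  rw [nb, if_neg h0, if_neg (by omega), if_neg (by omega), if_neg (by omega), if_neg (by omega),
    if_neg (by omega)]

theorem nb_cases (w : List ℕ) {j : ℕ} (hj : j < D w) :
    j = 0 ∨ j = 1 ∨ j = 2 ∨ (3 ≤ j ∧ j + 2 + tau D w ≤ D w) ∨ j + 1 + tau D w = D w ∨
      (tau D w = 1 ∧ j + 1 = D w) := by
  have := tau_le (D := D) w
  omega

theorem valid_nb (hD : ∀ w, 6 ≤ D w) {w : List ℕ} (h : Valid D w) {j : ℕ} (hj : j < D w) :
    Valid D (nb D w j) := by
  by_cases h0 : w = []
  · subst h0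
    exact valid_single hj
  rcases nb_cases w hj with rfl | rfl | rfl | h1 | h1 | h1
  · rw [nb_zero h0]; exact valid_tail h
  · rw [nb_one h0]; exact valid_pred hD h
  · rw [nb_two h0]; exact valid_last hD (valid_pred hD h) (pred_ne_nil h0)
  · rw [nb_child h0 h1.1 h1.2]; exact valid_cons h h0 h1.1 h1.2
  · rw [nb_succ hD h0 h1]; exact valid_succ hD h
  · rw [nb_up hD h1.1 h1.2]; exact valid_succ hD (valid_tail h)

/-- adjacency in the model -/
def NA (D : List ℕ → ℕ) (w v : List ℕ) : Prop := ∃ i < D w, nb D w i = v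

theorem na_child {e : ℕ} {u : List ℕ} (h : Valid D (e :: u)) : NA D u (e :: u) := by
  by_cases h0 : u = []
  · subst h0
    exact ⟨e, h.2.1 rfl, nb_nil e⟩
  · have h1 := h.2.2 h0
    exact ⟨e, by omega, nb_child h0 h1.1 h1.2⟩

theorem na_tail (hD : ∀ w, 6 ≤ D w) (e : ℕ) (u : List ℕ) : NA D (e :: u) u :=
  ⟨0, by have := hD (e :: u); omega, nb_zero (List.cons_ne_nil _ _)⟩

theorem na_pred (hD : ∀ w, 6 ≤ D w) {w : List ℕ} (h0 : w ≠ []) : NA D w (pred D w) :=
  ⟨1, by have := hD w; omega, nb_one h0⟩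

theorem na_two (hD : ∀ w, 6 ≤ D w) {w : List ℕ} (h0 : w ≠ []) : NA D w (last D (pred D w)) :=
  ⟨2, by have := hD w; omega, nb_two h0⟩

theorem na_succ (hD : ∀ w, 6 ≤ D w) {w : List ℕ} (h0 : w ≠ []) : NA D w (succ D w) := by
  have h1 := hD w
  have h2 := tau_le (D := D) w
  exact ⟨D w - 1 - tau D w, by omega, nb_succ hD h0 (by omega)⟩

theorem na_up (hD : ∀ w, 6 ≤ D w) {w : List ℕ} (ht : tau D w = 1) : NA D w (succ D w.tail) := by
  have h1 := hD w
  exact ⟨D w - 1, by omega, nb_up hD ht (by omega)⟩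

theorem nb_symm (hD : ∀ w, 6 ≤ D w) {w : List ℕ} (h : Valid D w) {j : ℕ} (hj : j < D w) :
    ∃ i < D (nb D w j), nb D (nb D w j) i = w := by
  change NA D (nb D w j) w
  by_cases h0 : w = []
  · subst h0
    exact na_tail hD j []
  rcases nb_cases w hj with rfl | rfl | rfl | h1 | h1 | h1
  · rw [nb_zero h0]
    obtain ⟨e, u, rfl⟩ := List.exists_cons_of_ne_nil h0
    exact na_child h
  · have := na_succ hD (pred_ne_nil (D := D) h0)
    rwa [succ_pred hD h, ← nb_one h0] at this
  · have := na_up hD (tau_last hD (pred_ne_nil (D := D) h0))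
    rwa [tail_last, succ_pred hD h, ← nb_two h0] at this
  · rw [nb_child h0 h1.1 h1.2]
    exact na_tail hD j w
  · have := na_pred hD (succ_ne_nil (D := D) h0)
    rwa [pred_succ hD h, ← nb_succ hD h0 h1] at this
  · have h2 := eq_last_of_tau h1.1
    have := na_two hD (succ_ne_nil (D := D) h2.2)
    rwa [pred_succ hD (valid_tail h), ← h2.1, ← nb_up hD h1.1 h1.2] at this

theorem tau_cons_of {e : ℕ} {u : List ℕ} (h0 : u ≠ []) (h : e + 2 + tau D u = D u) :
    tau D (e :: u) = 1 := by
  rw [tau, if_pos ⟨h0, h⟩]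

theorem succ_of_tau_zero {e : ℕ} {u : List ℕ} (h : tau D (e :: u) = 0) :
    ∃ e', succ D (e :: u) = e' :: u := by
  unfold succ
  split_ifs with h1 h2
  · exact ⟨_, by rw [h1]⟩
  · rw [tau_cons_of h1 h2] at h
    omega
  · exact ⟨_, rfl⟩

theorem nb_face (hD : ∀ w, 6 ≤ D w) {w : List ℕ} (h : Valid D w) {j : ℕ} (hj : j < D w) :
    ∃ i < D (nb D w j), nb D (nb D w j) i = nb D w ((j + 1) % D w) := by
  change NA D (nb D w j) (nb D w ((j + 1) % D w))
  have hd := hD w
  have ht := tau_le (D := D) w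
  by_cases h0 : w = []
  · subst h0
    exact na_succ hD (List.cons_ne_nil j [])
  rcases nb_cases w hj with rfl | rfl | rfl | h1 | h1 | h1
  · rw [Nat.mod_eq_of_lt (by omega), nb_zero h0, nb_one h0]
    obtain ⟨e, u, rfl⟩ := List.exists_cons_of_ne_nil h0
    have h2 := valid_pred hD h
    rw [List.tail_cons]
    unfold pred at h2 ⊢
    split_ifs at h2 ⊢ with h3 h4
    · subst h3
      exact na_child h2
    · exact na_two hD h3
    · exact na_child h2
  · rw [Nat.mod_eq_of_lt (by omega), nb_one h0, nb_two h0]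
    exact na_child (valid_last hD (valid_pred hD h) (pred_ne_nil h0))
  · rw [Nat.mod_eq_of_lt (by omega), nb_two h0, nb_child h0 le_rfl (by omega)]
    have := na_succ hD (last_ne_nil (D := D) (pred D w))
    rwa [succ_last hD (pred_ne_nil h0), succ_pred hD h] at this
  · rw [Nat.mod_eq_of_lt (by omega), nb_child h0 h1.1 h1.2]
    by_cases h2 : j + 2 + tau D w = D w
    · rw [nb_succ hD h0 (by omega)]
      exact na_up hD (tau_cons_of h0 h2)
    · rw [nb_child h0 (by omega) (by omega)]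
      have := na_succ hD (List.cons_ne_nil j w)
      rwa [succ, if_neg h0, if_neg h2] at this
  · rw [nb_succ hD h0 h1]
    by_cases h2 : tau D w = 1
    · have h3 := eq_last_of_tau h2
      rw [Nat.mod_eq_of_lt (by omega), nb_up hD h2 (by omega)]
      have h4 := succ_last hD h3.2
      rw [← h3.1] at h4
      rw [h4]
      exact na_tail hD _ _
    · rw [show j + 1 = D w by omega, Nat.mod_self, nb_zero h0]
      obtain ⟨e, u, rfl⟩ := List.exists_cons_of_ne_nil h0
      obtain ⟨e', he⟩ := succ_of_tau_zero (D := D) (e := e) (u := u) (by omega)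
      rw [he]
      exact na_tail hD _ _
  · rw [nb_up hD h1.1 h1.2, h1.2, Nat.mod_self, nb_zero h0]
    have := na_pred hD (succ_ne_nil (D := D) (eq_last_of_tau h1.1).2)
    rwa [pred_succ hD (valid_tail h)] at this

/-- the level of the `j`-th neighbour of a node other than the root -/
theorem length_nb (hD : ∀ w, 6 ≤ D w) {w : List ℕ} (h0 : w ≠ []) {j : ℕ} (hj : j < D w) :
    (nb D w j).length =
      if j = 0 ∨ (tau D w = 1 ∧ j + 1 = D w) then w.length - 1
      else if j = 1 ∨ j + 1 + tau D w = D w then w.length else w.length + 1 := by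
  have hd := hD w
  have ht := tau_le (D := D) w
  rcases nb_cases w hj with rfl | rfl | rfl | h1 | h1 | h1
  · rw [nb_zero h0, if_pos (Or.inl rfl), List.length_tail]
  · rw [nb_one h0, if_neg (by omega), if_pos (Or.inl rfl), length_pred]
  · rw [nb_two h0, if_neg (by omega), if_neg (by omega), last, List.length_cons, length_pred]
  · rw [nb_child h0 h1.1 h1.2, if_neg (by omega), if_neg (by omega), List.length_cons]
  · by_cases h2 : tau D w = 1 ∧ j + 1 = D w
    · omega
    · rw [nb_succ hD h0 h1, if_neg (by omega), if_pos (Or.inr h1), length_succ]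
  · rw [nb_up hD h1.1 h1.2, if_pos (Or.inr h1), length_succ, List.length_tail]

theorem NA.valid (hD : ∀ w, 6 ≤ D w) {w v : List ℕ} (h : Valid D w) (ha : NA D w v) :
    Valid D v := by
  obtain ⟨i, hi, rfl⟩ := ha
  exact valid_nb hD h hi

theorem NA.symm (hD : ∀ w, 6 ≤ D w) {w v : List ℕ} (h : Valid D w) (ha : NA D w v) :
    NA D v w := by
  obtain ⟨i, hi, rfl⟩ := ha
  exact nb_symm hD h hi

theorem NA.length_le (hD : ∀ w, 6 ≤ D w) {w v : List ℕ} (ha : NA D w v) :
    v.length ≤ w.length + 1 := by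
  obtain ⟨i, hi, rfl⟩ := ha
  by_cases h0 : w = []
  · subst h0
    simp [nb_nil]
  · rw [length_nb hD h0 hi]
    split_ifs <;> omega

theorem exists_pred_pos (hD : ∀ w, 6 ≤ D w) {e : ℕ} {u : List ℕ} (h : Valid D (e :: u)) :
    ∃ i < D u, nb D u i = pred D (e :: u) ∧ (i + 1) % D u = e % D u := by
  have hd := hD u
  unfold pred
  split_ifs with h1 h2
  · subst h1
    have he := h.2.1 rfl
    exact ⟨_, Nat.mod_lt _ (by omega), nb_nil _, by rw [mod_succ_pred he, Nat.mod_eq_of_lt he]⟩
  · exact ⟨2, by omega, nb_two h1, by rw [h2]⟩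
  · have h3 := h.2.2 h1
    exact ⟨e - 1, by omega, nb_child h1 (by omega) (by omega), by congr 1; omega⟩

theorem exists_succ_pos (hD : ∀ w, 6 ≤ D w) {e : ℕ} {u : List ℕ} (h : Valid D (e :: u)) :
    ∃ i < D u, nb D u i = (if tau D (e :: u) = 1 then succ D u else succ D (e :: u)) ∧
      i % D u = (e + 1) % D u := by
  have hd := hD u
  by_cases h1 : u = []
  · subst h1
    refine ⟨(e + 1) % D [], Nat.mod_lt _ (by omega), ?_, Nat.mod_mod _ _⟩
    simp [tau, succ, nb_nil]
  have h3 := h.2.2 h1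
  refine ⟨e + 1, by omega, ?_, rfl⟩
  by_cases h2 : e + 2 + tau D u = D u
  · rw [if_pos (tau_cons_of h1 h2), nb_succ hD h1 (by omega)]
  · have h4 : tau D (e :: u) = 0 := by rw [tau, if_neg (fun h => h2 h.2)]
    rw [if_neg (by omega), succ, if_neg h1, if_neg h2, nb_child h1 (by omega) (by omega)]

end Node

namespace PlaneTri
variable {V : Type} {T : PlaneTri V}

theorem adj_pj {o r : V} (h : T.G.Adj o r) (w : List ℕ) :
    T.G.Adj (T.pj o r w).1 (T.pj o r w).2 := by
  induction w with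
  | nil => exact h
  | cons e w ih => exact (adj_rot ih e).symm

theorem pj_cons_fst (o r : V) (e : ℕ) (w : List ℕ) :
    (T.pj o r (e :: w)).1 = T.rot (T.pj o r w).1 (T.pj o r w).2 e := rfl

theorem pj_cons_snd (o r : V) (e : ℕ) (w : List ℕ) :
    (T.pj o r (e :: w)).2 = (T.pj o r w).1 := rfl

theorem rot_last {x y z : V} (hy : T.G.Adj x y) (hz : T.G.Adj x z) {j : ℕ}
    (h : T.nx x z = T.rot x y (j + 1)) : z = T.rot x y j :=
  nx_inj hz (adj_rot hy j) (by rw [h, rot_succ])

theorem pj_nb_aux (h6 : ∀ v, 6 ≤ T.deg v) {o r : V} (h : T.G.Adj o r) (n : ℕ) :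
    ∀ w : List ℕ, w.length = n → Node.Valid (T.nD o r) w → ∀ j < T.nD o r w,
      (T.pj o r (Node.nb (T.nD o r) w j)).1 = T.rot (T.pj o r w).1 (T.pj o r w).2 j := by
  have hD : ∀ w, 6 ≤ T.nD o r w := fun w => h6 _
  induction n with
  | zero =>
    intro w hw _ j _
    obtain rfl := List.length_eq_zero_iff.1 hw
    rfl
  | succ n ih =>
    have P1 : ∀ w : List ℕ, w.length = n + 1 → Node.Valid (T.nD o r) w →
        (T.pj o r (Node.pred (T.nD o r) w)).1 = T.rot (T.pj o r w).1 (T.pj o r w).2 1 := by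
      rintro (_ | ⟨e, u⟩) hw hv
      · simp at hw
      obtain ⟨i, hi, h1, h2⟩ := Node.exists_pred_pos hD hv
      have h3 := ih u (by simpa using hw) hv.1 i hi
      rw [← h1, h3, rot_one, pj_cons_snd, pj_cons_fst]
      refine (face2 (adj_rot (adj_pj h u) i) ?_).symm
      rw [← rot_succ]
      exact (rot_eq_iff (adj_pj h u)).2 h2
    have P2 : ∀ (e : ℕ) (u : List ℕ), u.length = n → Node.Valid (T.nD o r) (e :: u) →
        (T.pj o r (if Node.tau (T.nD o r) (e :: u) = 1 then Node.succ (T.nD o r) u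
          else Node.succ (T.nD o r) (e :: u))).1 =
          T.rot (T.pj o r (e :: u)).1 (T.pj o r (e :: u)).2 (T.nD o r (e :: u) - 1) := by
      intro e u hw hv
      obtain ⟨i, hi, h1, h2⟩ := Node.exists_succ_pos hD hv
      have h3 := ih u hw hv.1 i hi
      have h4 : T.nx (T.pj o r u).1 (T.pj o r (e :: u)).1 =
          T.rot (T.pj o r u).1 (T.pj o r u).2 i := by
        rw [pj_cons_fst, ← rot_succ]
        exact ((rot_eq_iff (adj_pj h u)).2 h2).symm
      have h5 := adj_pj h (e :: u)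
      have h7 := hD (e :: u)
      rw [← h1, h3]
      refine rot_last h5 (h4 ▸ adj_nx2 h5.symm) ?_
      rw [face1 h5.symm h4, show T.nD o r (e :: u) - 1 + 1 = T.nD o r (e :: u) by omega]
      exact (rot_deg h5).symm
    have P3 : ∀ w : List ℕ, w.length = n + 1 → Node.Valid (T.nD o r) w →
        (T.pj o r (Node.succ (T.nD o r) w)).1 = T.rot (T.pj o r w).1 (T.pj o r w).2
          (T.nD o r w - 1 - Node.tau (T.nD o r) w) := by
      rintro (_ | ⟨e, u⟩) hw hv
      · simp at hw
      have hu : u.length = n := by simpa using hw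
      have h1 := P2 e u hu hv
      have ht := Node.tau_le (D := T.nD o r) (e :: u)
      by_cases h2 : Node.tau (T.nD o r) (e :: u) = 1
      · rw [if_pos h2] at h1
        obtain ⟨h3, h4⟩ := Node.eq_last_of_tau h2
        rw [List.tail_cons] at h3 h4
        have h5 := ih (Node.succ (T.nD o r) u) (by rw [Node.length_succ, hu])
          (Node.valid_succ hD hv.1) 2 (by have := hD (Node.succ (T.nD o r) u); omega)
        rw [Node.nb_two (Node.succ_ne_nil h4), Node.pred_succ hD hv.1, ← h3] at h5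
        have h7 := Node.succ_last hD h4
        rw [← h3] at h7
        have h8 : T.nx (T.pj o r (Node.succ (T.nD o r) u)).1 (T.pj o r (e :: u)).1 =
            (T.pj o r (Node.succ (T.nD o r) (e :: u))).1 := by
          rw [h7, pj_cons_fst o r 3, h5, ← rot_succ]
        have h9 : T.G.Adj (T.pj o r (Node.succ (T.nD o r) u)).1 (T.pj o r (e :: u)).1 := by
          rw [h5]
          exact adj_rot (adj_pj h _) 2
        have h10 := hD (e :: u)
        refine rot_last (adj_pj h _) (h8 ▸ adj_nx2 h9) ?_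
        rw [face1 h9 h8, h1]
        congr 1
        omega
      · rw [if_neg h2] at h1
        rw [h1]
        congr 1
        omega
    intro w hw hv j hj
    have h0 : w ≠ [] := by
      rintro rfl
      simp at hw
    rcases Node.nb_cases w hj with rfl | rfl | rfl | h1 | h1 | h1
    · rw [Node.nb_zero h0]
      obtain ⟨e, u, rfl⟩ := List.exists_cons_of_ne_nil h0
      rfl
    · rw [Node.nb_one h0, P1 w hw hv]
    · have h2 := P3 (Node.pred (T.nD o r) w) (by rw [Node.length_pred, hw]) (Node.valid_pred hD hv)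
      have h3 := hD (Node.pred (T.nD o r) w)
      have h4 := Node.tau_le (D := T.nD o r) (Node.pred (T.nD o r) w)
      rw [Node.succ_pred hD hv] at h2
      rw [Node.nb_two h0, Node.last, pj_cons_fst, rot_succ, ← P1 w hw hv]
      refine (face2 (adj_rot (adj_pj h _) _) ?_).symm
      rw [← rot_succ, h2]
      congr 1
      omega
    · rw [Node.nb_child h0 h1.1 h1.2, pj_cons_fst]
    · rw [Node.nb_succ hD h0 h1, P3 w hw hv]
      congr 1
      omega
    · rw [Node.nb_up hD h1.1 h1.2]
      obtain ⟨e, u, rfl⟩ := List.exists_cons_of_ne_nil h0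
      have h2 := P2 e u (by simpa using hw) hv
      rw [if_pos h1.1] at h2
      rw [List.tail_cons, h2]
      congr 1
      omega

theorem pj_nb (h6 : ∀ v, 6 ≤ T.deg v) {o r : V} (h : T.G.Adj o r) {w : List ℕ}
    (hw : Node.Valid (T.nD o r) w) {j : ℕ} (hj : j < T.nD o r w) :
    (T.pj o r (Node.nb (T.nD o r) w j)).1 = T.rot (T.pj o r w).1 (T.pj o r w).2 j :=
  pj_nb_aux h6 h _ w rfl hw j hj

/-- lifting a list of successive vertices to the model -/
def NLf (T : PlaneTri V) (o r : V) : List ℕ → List V → List ℕ → Prop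
  | w, [], w' => w' = w
  | w, b :: l, w' => ∃ w1, Node.NA (T.nD o r) w w1 ∧ (T.pj o r w1).1 = b ∧ NLf T o r w1 l w'

section
variable (h6 : ∀ v, 6 ≤ T.deg v) {o r : V} (h : T.G.Adj o r)
include h6 h

theorem na_unique {w a b : List ℕ} (hw : Node.Valid (T.nD o r) w)
    (ha : Node.NA (T.nD o r) w a) (hb : Node.NA (T.nD o r) w b)
    (he : (T.pj o r a).1 = (T.pj o r b).1) : a = b := by
  obtain ⟨i, hi, rfl⟩ := ha
  obtain ⟨j, hj, rfl⟩ := hb
  rw [pj_nb h6 h hw hi, pj_nb h6 h hw hj] at he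
  rw [rot_inj (adj_pj h w) hi hj he]

theorem na_exists {w : List ℕ} (hw : Node.Valid (T.nD o r) w) {b : V}
    (hb : T.G.Adj (T.pj o r w).1 b) : ∃ a, Node.NA (T.nD o r) w a ∧ (T.pj o r a).1 = b := by
  obtain ⟨j, hj, rfl⟩ := rot_surj (adj_pj h w) hb
  exact ⟨_, ⟨j, hj, rfl⟩, pj_nb h6 h hw hj⟩

theorem na_adj {w a : List ℕ} (hw : Node.Valid (T.nD o r) w) (ha : Node.NA (T.nD o r) w a) :
    T.G.Adj (T.pj o r w).1 (T.pj o r a).1 := by
  obtain ⟨i, hi, rfl⟩ := ha
  rw [pj_nb h6 h hw hi]
  exact adj_rot (adj_pj h w) i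

theorem na_face {w a : List ℕ} (hw : Node.Valid (T.nD o r) w) (ha : Node.NA (T.nD o r) w a) :
    ∃ c, Node.NA (T.nD o r) w c ∧ Node.NA (T.nD o r) a c ∧
      (T.pj o r c).1 = T.nx (T.pj o r w).1 (T.pj o r a).1 := by
  obtain ⟨i, hi, rfl⟩ := ha
  have h1 : (i + 1) % T.nD o r w < T.nD o r w := Nat.mod_lt _ (by omega)
  refine ⟨_, ⟨_, h1, rfl⟩, Node.nb_face (fun _ => h6 _) hw hi, ?_⟩
  rw [pj_nb h6 h hw h1, pj_nb h6 h hw hi, ← rot_succ]
  exact rot_mod (adj_pj h w) _

theorem nlf_front {s s' w' : _} (hs : ∀ w, Node.Valid (T.nD o r) w →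
      (NLf T o r w s w' ↔ NLf T o r w s' w')) (l : List V) :
    ∀ w, Node.Valid (T.nD o r) w → (NLf T o r w (l ++ s) w' ↔ NLf T o r w (l ++ s') w') := by
  have _ := h
  induction l with
  | nil => exact hs
  | cons a l ih =>
    intro w hw
    exact exists_congr fun w1 => and_congr_right fun h1 => and_congr_right fun _ =>
      ih w1 (h1.valid (fun _ => h6 _) hw)

theorem nlf_move {l l' : List V} (hm : Move T.G T.nx l l') (w' : List ℕ) :
    ∀ w, Node.Valid (T.nD o r) w → (NLf T o r w l w' ↔ NLf T o r w l' w') := by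
  have hD : ∀ w, 6 ≤ T.nD o r w := fun w => h6 _
  cases hm with
  | back l s a b hab =>
    refine nlf_front h6 h (fun w hw => ?_) l
    refine exists_congr fun w1 => and_congr_right fun h1 => and_congr_right fun e1 => ?_
    have v1 := h1.valid hD hw
    constructor
    · rintro ⟨w2, h2, -, w3, h3, e3, h4⟩
      rwa [na_unique h6 h (h2.valid hD v1) h3 (h2.symm hD v1) (e3.trans e1.symm)] at h4
    · intro h4
      obtain ⟨w2, h2, e2⟩ := na_exists h6 h v1 (e1 ▸ hab)
      exact ⟨w2, h2, e2, w1, h2.symm hD v1, e1, h4⟩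
  | tri l s a b hab =>
    refine nlf_front h6 h (fun w hw => ?_) l
    refine exists_congr fun w1 => and_congr_right fun h1 => and_congr_right fun e1 => ?_
    have v1 := h1.valid hD hw
    constructor
    · rintro ⟨w2, h2, e2, w3, h3, e3, h4⟩
      obtain ⟨c, c1, c2, c3⟩ := na_face h6 h v1 h2
      rw [e1, e2] at c3
      rw [na_unique h6 h (h2.valid hD v1) h3 c2 (e3.trans c3.symm)] at h4
      exact ⟨c, c1, c3, h4⟩
    · rintro ⟨w3, h3, e3, h4⟩
      obtain ⟨w2, h2, e2⟩ := na_exists h6 h v1 (e1 ▸ hab)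
      obtain ⟨c, c1, c2, c3⟩ := na_face h6 h v1 h2
      rw [e1, e2] at c3
      rw [na_unique h6 h v1 h3 c1 (e3.trans c3.symm)] at h4
      exact ⟨w2, h2, e2, c, c2, c3, h4⟩

theorem nlf_closed (c : T.G.Walk o o) {w' : List ℕ} (hc : NLf T o r [] c.support.tail w') :
    w' = [] := by
  have hD : ∀ w, 6 ≤ T.nD o r w := fun w => h6 _
  have v0 : Node.Valid (T.nD o r) [0] := Node.valid_single (by have := hD []; omega)
  have key : ∀ l l' : List V, Relation.EqvGen (Move T.G T.nx) l l' →
      (NLf T o r [0] l w' ↔ NLf T o r [0] l' w') := by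
    intro l l' he
    induction he with
    | rel _ _ hm => exact nlf_move h6 h hm w' _ v0
    | refl _ => rfl
    | symm _ _ _ ih => exact ih.symm
    | trans _ _ _ _ _ ih1 ih2 => exact ih1.trans ih2
  have h1 : NLf T o r [0] c.support w' := by
    rw [← c.cons_tail_support]
    exact ⟨[], Node.na_tail hD 0 [], rfl, hc⟩
  obtain ⟨w1, h2, e2, h3⟩ := (key _ _ (T.simplyConn o c)).1 h1
  rw [show w' = w1 from h3]
  exact na_unique h6 h v0 h2 (Node.na_tail hD 0 []) e2

theorem nlf_back {w' : List ℕ} (l : List V) : ∀ a b : List ℕ, Node.Valid (T.nD o r) a →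
    Node.Valid (T.nD o r) b → (T.pj o r a).1 = (T.pj o r b).1 → NLf T o r a l w' →
    NLf T o r b l w' → a = b := by
  have hD : ∀ w, 6 ≤ T.nD o r w := fun w => h6 _
  induction l with
  | nil => exact fun a b _ _ _ h1 h2 => (show w' = a from h1).symm.trans h2
  | cons x l ih =>
    rintro a b va vb he ⟨a1, h1, e1, h2⟩ ⟨b1, h3, e3, h4⟩
    obtain rfl := ih a1 b1 (h1.valid hD va) (h3.valid hD vb) (e1.trans e3.symm) h2 h4
    exact na_unique h6 h (h1.valid hD va) (h1.symm hD va) (h3.symm hD vb) he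

theorem nlf_walk {a b : V} (p : T.G.Walk a b) : ∀ w, Node.Valid (T.nD o r) w →
    (T.pj o r w).1 = a → ∃ w', Node.Valid (T.nD o r) w' ∧ (T.pj o r w').1 = b ∧
      NLf T o r w p.support.tail w' ∧ w'.length ≤ w.length + p.length := by
  have hD : ∀ w, 6 ≤ T.nD o r w := fun w => h6 _
  induction p with
  | nil => exact fun w hw he => ⟨w, hw, he, rfl, le_rfl⟩
  | cons hab p ih =>
    intro w hw he
    obtain ⟨w1, h1, e1⟩ := na_exists h6 h hw (he ▸ hab)
    obtain ⟨w', h2, h3, h4, h5⟩ := ih w1 (h1.valid hD hw) e1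
    have h7 := h1.length_le hD
    refine ⟨w', h2, h3, ?_, by rw [SimpleGraph.Walk.length_cons]; omega⟩
    rw [SimpleGraph.Walk.support_cons, List.tail_cons, ← p.cons_tail_support]
    exact ⟨w1, h1, e1, h4⟩

omit h6 h in
theorem nlf_append {m w' : List ℕ} {t : List V} (ht : NLf T o r m t w') (s : List V) :
    ∀ w, NLf T o r w s m → NLf T o r w (s ++ t) w' := by
  induction s with
  | nil =>
    intro w hw
    rwa [show m = w from hw] at ht
  | cons a s ih =>
    rintro w ⟨w1, h1, e1, h2⟩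
    exact ⟨w1, h1, e1, ih w1 h2⟩

omit h6 in
theorem nlf_out (w : List ℕ) (hw : Node.Valid (T.nD o r) w) :
    ∃ p : T.G.Walk o (T.pj o r w).1, NLf T o r [] p.support.tail w := by
  induction w with
  | nil => exact ⟨.nil, rfl⟩
  | cons e u ih =>
    obtain ⟨p, hp⟩ := ih hw.1
    refine ⟨p.append (.cons (adj_pj h (e :: u)).symm .nil), ?_⟩
    rw [SimpleGraph.Walk.tail_support_append]
    exact nlf_append (t := [(T.pj o r (e :: u)).1]) ⟨_, Node.na_child hw, rfl, rfl⟩ _ _ hp

theorem nlf_in (w : List ℕ) :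
    ∃ p : T.G.Walk (T.pj o r w).1 o, NLf T o r w p.support.tail [] ∧ p.length = w.length := by
  induction w with
  | nil => exact ⟨.nil, rfl, rfl⟩
  | cons e u ih =>
    obtain ⟨p, hp, hl⟩ := ih
    have ha : T.G.Adj (T.pj o r (e :: u)).1 (T.pj o r u).1 := adj_pj h (e :: u)
    refine ⟨.cons ha p, ?_, by simp [hl]⟩
    rw [SimpleGraph.Walk.support_cons, List.tail_cons, ← p.cons_tail_support]
    exact ⟨u, Node.na_tail (fun _ => h6 _) e u, rfl, hp⟩

theorem pj_inj {a b : List ℕ} (ha : Node.Valid (T.nD o r) a) (hb : Node.Valid (T.nD o r) b)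
    (he : (T.pj o r a).1 = (T.pj o r b).1) : a = b := by
  obtain ⟨p, hp⟩ := nlf_out h b hb
  obtain ⟨q, hq, -⟩ := nlf_in h6 h a
  obtain ⟨m, -, -, hm, -⟩ := nlf_walk h6 h q b hb he.symm
  have h1 : m = [] := by
    refine nlf_closed h6 h (p.append (q.copy he rfl)) ?_
    rw [SimpleGraph.Walk.tail_support_append, SimpleGraph.Walk.support_copy]
    exact nlf_append hm _ _ hp
  exact nlf_back h6 h _ a b ha hb he hq (h1 ▸ hm)

end

theorem exists_nu (h6 : ∀ v, 6 ≤ T.deg v) {o r : V} (h : T.G.Adj o r) :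
    ∃ ν : V → List ℕ, (∀ v, Node.Valid (T.nD o r) (ν v)) ∧ (∀ v, (T.pj o r (ν v)).1 = v) ∧
      (∀ w, Node.Valid (T.nD o r) w → ν (T.pj o r w).1 = w) ∧ ∀ v, (ν v).length = T.d o v := by
  have key : ∀ v, ∃ w, Node.Valid (T.nD o r) w ∧ (T.pj o r w).1 = v ∧ w.length = T.d o v := by
    intro v
    obtain ⟨p, hp⟩ := (T.conn o v).exists_walk_length_eq_dist
    obtain ⟨w, h1, h2, -, h3⟩ := nlf_walk h6 h p [] trivial rfl
    obtain ⟨q, -, hq⟩ := nlf_in h6 h w
    have h4 := SimpleGraph.dist_le q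
    rw [hq, h2, SimpleGraph.dist_comm] at h4
    refine ⟨w, h1, h2, le_antisymm ?_ h4⟩
    simpa [hp] using h3
  choose ν h1 h2 h3 using key
  exact ⟨ν, h1, h2, fun w hw => pj_inj h6 h (h1 _) hw (h2 _), h3⟩

end PlaneTri
end Pool.Agent.P.MP_e4ac67_pr
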