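import Pool.Agent.P.MP_e4ac67_pr.Iface

/-! The layered model of the universal cover: nodes are reversed lists of turn positions. -/

namespace Pool.Agent.P.MP_e4ac67_pr
namespace Node

variable (D : List ℕ → ℕ)

/-- `1` for nodes with two parents -/
def tau : List ℕ → ℕ
  | [] => 0
  | e :: w => if w ≠ [] ∧ e + 2 + tau w = D w then 1 else 0

def Valid : List ℕ → Prop
  | [] => True
  | e :: w => Valid w ∧ (w = [] → e < D []) ∧ (w ≠ [] → 3 ≤ e ∧ e + 2 + tau D w ≤ D w)

def last (w : List ℕ) : List ℕ := (D w - 2 - tau D w) :: w

def succ : List ℕ → List ℕ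
  | [] => []
  | e :: w => if w = [] then [(e + 1) % D []]
      else if e + 2 + tau D w = D w then 3 :: succ w else (e + 1) :: w

def pred : List ℕ → List ℕ
  | [] => []
  | e :: w => if w = [] then [(e + D [] - 1) % D []]
      else if e = 3 then last D (pred w) else (e - 1) :: w

/-- the `j`-th neighbour, counted from the parent -/
def nb (w : List ℕ) (j : ℕ) : List ℕ :=
  if w = [] then [j]
  else if j = 0 then w.tail
  else if j = 1 then pred D w
  else if j = 2 then last D (pred D w)
  else if j + 2 + tau D w ≤ D w then j :: w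
  else if j + 1 + tau D w = D w then succ D w
  else succ D w.tail

end Node

namespace PlaneTri
variable {V : Type} (T : PlaneTri V)

/-- (vertex, reference neighbour) of a node -/
def pj (o r : V) : List ℕ → V × V
  | [] => (o, r)
  | e :: w => (T.rot (pj o r w).1 (pj o r w).2 e, (pj o r w).1)

noncomputable def nD (o r : V) (w : List ℕ) : ℕ := T.deg (T.pj o r w).1

end PlaneTri
end Pool.Agent.P.MP_e4ac67_pr
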