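import Pool.Agent.P.MP_e4ac67_pr.Explore

/-! TASK PRIME: the regular side. -/

open scoped ENNReal

namespace Pool.Agent.P.MP_e4ac67_pr

theorem prime0 {V' K' : Type} {G : SimpleGraph V'} {key : V' → V' → K'} {p : ℝ≥0∞} (hp : p ≤ 1)
    (h : Perc G key p) (B : ℕ) : ∃ y, PrimeOK G key p y B := by
  obtain ⟨θ, hθ, v₀, hv⟩ := h
  let a : ℕ → ℝ≥0∞ := fun M =>
    ⨆ x : V' × Finset K', EX x.2 p fun ω => ind (OS G key ω x.1 M)
  have ha : ∀ M v (Ω : Finset K'), (EX Ω p fun ω => ind (OS G key ω v M)) ≤ a M := fun M v Ω =>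
    le_iSup (fun x : V' × Finset K' => EX x.2 p fun ω => ind (OS G key ω x.1 M)) (v, Ω)
  have ha1 : ∀ M, a M ≤ 1 := fun M => iSup_le fun x =>
    (EX_mono fun s _ => ind_le_one _).trans (EX_const hp 1).le
  let L : ℝ≥0∞ := ⨅ M, a M
  have hL0 : L ≠ 0 := by
    have : θ ≤ L := le_iInf fun M => by
      obtain ⟨Ω, hΩ⟩ := hv M
      exact hΩ.trans (ha M v₀ Ω)
    intro h0
    exact hθ (le_antisymm (h0 ▸ this) zero_le)
  have hLt : L ≠ ⊤ := ne_top_of_le_ne_top ENNReal.one_ne_top ((iInf_le a 0).trans (ha1 0))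
  have hlt : L < 2 * L := by
    rw [two_mul]; exact ENNReal.lt_add_right hLt hL0
  obtain ⟨M, hM⟩ := iInf_lt_iff.1 hlt
  have h2 : L / 2 < a ((M + 1) * (B + 1)) :=
    (ENNReal.half_lt_self hL0 hLt).trans_le (iInf_le a _)
  obtain ⟨x, hx⟩ := lt_iSup_iff.1 h2
  refine ⟨x.1, L, M, x.2, hL0, hLt, fun v Ω' => (ha M v Ω').trans hM.le, ?_⟩
  calc L = 2 * (L / 2) := (ENNReal.mul_div_cancel (by simp) (by simp)).symm
    _ ≤ _ := by gcongr

/-- a long injective path leaves a small set for a long time -/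
theorem exists_gap {V : Type} (A : Finset V) (f : ℕ → V) (M B : ℕ) (hA : A.card ≤ B)
    (h0 : f 0 ∈ A)
    (hinj : ∀ i ≤ (M + 1) * (B + 1), ∀ j ≤ (M + 1) * (B + 1), f i = f j → i = j) :
    ∃ i, i + 1 + M ≤ (M + 1) * (B + 1) ∧ f i ∈ A ∧ ∀ j ≤ M, f (i + 1 + j) ∉ A := by
  classical
  have hle : ∀ s, s ≤ B → ∀ j ≤ M, (M + 1) * s + 1 + j ≤ (M + 1) * (B + 1) := fun s hs j hj => by
    have : (M + 1) * s ≤ (M + 1) * B := Nat.mul_le_mul_left _ hs
    rw [Nat.mul_succ]; omega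
  obtain ⟨s, hs, hs'⟩ : ∃ s ≤ B, ∀ j ≤ M, f ((M + 1) * s + 1 + j) ∉ A := by
    by_contra hcon
    push Not at hcon
    choose! c hc hc' using hcon
    have : (Finset.range (B + 1)).card ≤ A.card := by
      refine Finset.card_le_card_of_injOn (fun s => f ((M + 1) * s + 1 + c s)) ?_ ?_
      · intro s hs
        exact hc' s (by simpa [Nat.lt_succ_iff] using hs)
      · intro s hs t ht e
        have hs : s ≤ B := by simpa [Nat.lt_succ_iff] using hs
        have ht : t ≤ B := by simpa [Nat.lt_succ_iff] using ht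
        have e' := hinj _ (hle s hs _ (hc s hs)) _ (hle t ht _ (hc t ht)) e
        have h1 := hc s hs
        have h2 := hc t ht
        rcases lt_trichotomy s t with h | h | h
        · have : (M + 1) * (s + 1) ≤ (M + 1) * t := Nat.mul_le_mul_left _ h
          rw [Nat.mul_succ] at this; omega
        · exact h
        · have : (M + 1) * (t + 1) ≤ (M + 1) * s := Nat.mul_le_mul_left _ h
          rw [Nat.mul_succ] at this; omega
    rw [Finset.card_range] at this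
    omega
  let i := Nat.findGreatest (fun i => f i ∈ A) ((M + 1) * s)
  have hi : i ≤ (M + 1) * s := Nat.findGreatest_le _
  have hiA : f i ∈ A := Nat.findGreatest_spec (P := fun i => f i ∈ A) (Nat.zero_le _) h0
  refine ⟨i, ?_, hiA, fun j hj => ?_⟩
  · have := hle s hs M le_rfl
    omega
  · by_cases hc : i + 1 + j ≤ (M + 1) * s
    · exact Nat.findGreatest_is_greatest (P := fun i => f i ∈ A) (by omega) hc
    · have := hs' (i + j - (M + 1) * s) (by omega)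
      rwa [show (M + 1) * s + 1 + (i + j - (M + 1) * s) = i + 1 + j by omega] at this

theorem OS_mono {V K : Type} {G : SimpleGraph V} {key : V → V → K} {ω ω' : Finset K}
    (h : ω ⊆ ω') {v : V} {M : ℕ} (ho : OS G key ω v M) : OS G key ω' v M := by
  obtain ⟨f, h0, h1, h2⟩ := ho
  exact ⟨f, h0, fun i hi => ⟨(h1 i hi).1, h (h1 i hi).2⟩, h2⟩

theorem KE_cases {V : Type} {m : Bool} {a b c d : V} (h : KE m a b c d) :
    b = d ∨ (a = d ∧ b = c) := by
  unfold KE at h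
  split_ifs at h
  · exact Or.inl h
  · exact h.imp And.right id

namespace Setup
variable {V V' K K' : Type} {k : ℕ} {X : Setup V V' K K' k} {ξ : Finset (Wd k)}

theorem acc_mem_Ωw {σ : Wd k} (h : X.acc ξ σ) : σ ∈ X.Ωw :=
  mem_words.2 (acc_length h).le

theorem run_fst_dropLast' {u : Wd k} (hu : u ≠ []) :
    (X.T'.run X.δ u).1 = X.hd' u.dropLast := by
  conv_lhs => rw [← List.dropLast_append_getLast hu]
  exact PlaneTri.run_snoc_fst _ _ _

/-- the pointwise step -/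
theorem prime_pt [DecidableEq K'] {η : Finset K'} {M : ℕ}
    (h : OS X.T'.G X.key' (ovr X.Ωw rk X.cp X.kw' X.top ξ η) X.δ.2 ((M + 1) * (X.Ωw.card + 1))) :
    ∃ u, X.Stop ξ u ∧ X.kw' u ∈ η ∧ OS X.T'.G X.key' (η.erase (X.kw' u)) (X.hd' u) M := by
  classical
  obtain ⟨f, h0, h1, h2⟩ := h
  let A : Finset V' := (X.Ωw.filter fun σ => X.acc ξ σ).image X.hd'
  have memA : ∀ σ, X.acc ξ σ → X.hd' σ ∈ A := fun σ hσ =>
    Finset.mem_image.2 ⟨σ, Finset.mem_filter.2 ⟨acc_mem_Ωw hσ, hσ⟩, rfl⟩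
  have hA : A.card ≤ X.Ωw.card := Finset.card_image_le.trans (Finset.card_filter_le _ _)
  obtain ⟨i, hi, hiA, hout⟩ := exists_gap A f M X.Ωw.card hA (h0 ▸ memA [] acc_nil) h2
  obtain ⟨σ, hσ, hσi⟩ := Finset.mem_image.1 hiA
  have hσ : X.acc ξ σ := (Finset.mem_filter.1 hσ).2
  have out : ∀ τ, X.acc ξ τ → ∀ j ≤ M, X.hd' τ ≠ f (i + 1 + j) := fun τ hτ j hj e =>
    hout j hj (e ▸ memA τ hτ)
  have hadj : X.T'.G.Adj (X.T'.run X.δ σ).2 (f (i + 1)) := by
    have := (h1 i (by omega)).1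
    rwa [← hσi] at this
  obtain ⟨e, he⟩ := PlaneTri.exists_step_reg (k := k) (PlaneTri.run_dart X.hδ σ) (X.hT' _) hadj
  have hhd : X.hd' (σ ++ [e]) = f (i + 1) := by
    rw [← he]; exact PlaneTri.hd_snoc _ _ _
  have hkw : X.kw' (σ ++ [e]) = X.key' (f i) (f (i + 1)) := by
    rw [← hhd, ← hσi]
    unfold kw'
    rw [PlaneTri.run_snoc_fst]; rfl
  obtain ⟨τ, hτ, hτk⟩ : ∃ τ, X.ex ξ τ ∧ X.kw' τ = X.key' (f i) (f (i + 1)) := by
    by_cases hex : X.ex ξ (σ ++ [e])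
    · exact ⟨_, hex, hkw⟩
    · rw [ex_iff] at hex
      by_contra hcon
      refine hex ⟨by simp, by simpa using hσ, fun τ _ => ⟨fun hτ e' => ?_, fun hτ e' => ?_⟩⟩
      · exact hcon ⟨τ, hτ, e'.trans hkw⟩
      · exact out τ hτ 0 (Nat.zero_le _) (e'.trans hhd)
  have hτhd : X.hd' τ = f (i + 1) := by
    rcases KE_cases ((X.hkey' _ _ _ _).1 hτk) with h | ⟨h, -⟩
    · exact h
    · obtain ⟨hne, hacc, -⟩ := (ex_iff τ).1 hτ
      rw [run_fst_dropLast' hne] at h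
      exact absurd h (out _ hacc 0 (Nat.zero_le _))
  have hopen := (h1 i (by omega)).2
  rw [← hτk, mem_ovr] at hopen
  have hno : ¬∃ u ∈ X.Ωw, rk u < X.top ∧ X.cp ξ u ∧ u ∈ ξ ∧ X.kw' u = X.kw' τ := by
    rintro ⟨u, -, -, hu, huξ, hue⟩
    obtain rfl := ex_kw'_inj hu.1 hτ hue
    exact out u ((acc_iff u).2 (Or.inr ⟨hu, huξ⟩)) 0 (Nat.zero_le _) hτhd
  obtain ⟨hη, hη'⟩ := hopen.resolve_right hno
  refine ⟨τ, ⟨hτ, fun hc => hη' ⟨τ, ex_mem hτ, rk_lt_top (ex_mem hτ), hc, rfl⟩⟩, hη,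
    fun j => f (i + 1 + j), hτhd.symm, fun j hj => ⟨(h1 (i + 1 + j) (by omega)).1, ?_⟩,
    fun a ha b hb e' => ?_⟩
  · have ho := (h1 (i + 1 + j) (by omega)).2
    refine Finset.mem_erase.2 ⟨fun e' => ?_, ?_⟩
    · rcases KE_cases ((X.hkey' _ _ _ _).1 (e'.trans hτk)) with h | ⟨-, h⟩
      · have := h2 _ (by omega) _ (by omega) h
        omega
      · have := h2 _ (by omega) _ (by omega) h
        omega
    · rcases mem_ovr.1 ho with ho | ⟨u, -, -, hu, huξ, hue⟩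
      · exact ho.1
      · have hacc := (acc_iff u).2 (Or.inr ⟨hu, huξ⟩)
        rcases KE_cases ((X.hkey' _ _ _ _).1 hue) with h | ⟨-, h⟩
        · exact absurd h (out u hacc (j + 1) (by omega))
        · exact absurd h (out u hacc j (by omega))
  · have := h2 _ (by omega) _ (by omega) e'
    omega

end Setup

theorem Setup.prime1 {V V' K K' : Type} {k : ℕ} (X : Setup V V' K K' k) {p : ℝ≥0∞} (hp : p ≤ 1)
    (h : PrimeOK X.T'.G X.key' p X.δ.2 X.Ωw.card) :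
    1 ≤ 4 * (p * EX X.Ωw p fun ξ => ∑' u, ind (X.Stop ξ u)) := by
  classical
  obtain ⟨L, M, Ω, hL0, hLt, hup, hlow⟩ := h
  let Ω₂ : Finset K' := Ω ∪ X.Ωw.image X.kw'
  let F : Finset K' → ℝ≥0∞ := fun ω =>
    ind (OS X.T'.G X.key' ω X.δ.2 ((M + 1) * (X.Ωw.card + 1)))
  have h1 : EX Ω p F ≤ EX Ω₂ p F :=
    EX_mono_set hp Finset.subset_union_left fun s t hst => ind_mono (OS_mono hst)
  have h2 : (EX X.Ωw p fun ξ => EX Ω₂ p fun η => F (ovr X.Ωw rk X.cp X.kw' X.top ξ η)) =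
      EX Ω₂ p F := by
    rw [EX_ovr (Ω := Ω₂) (κ := X.kw') (cp := X.cp) hp (fun u _ v _ e => rk_inj e)
      (fun ξ ξ' u e => Setup.cp_loc e)
      (fun ξ u hu _ => Finset.mem_union_right _ (Finset.mem_image_of_mem _ hu))
      (fun ξ u u' hu hu' e => Setup.ex_kw'_inj hu.1 hu'.1 e) (Nat.zero_le X.top)
      (fun _ ω => F ω) (fun _ _ _ _ => rfl)]
    simp only [ovr_zero]
    exact EX_const hp _
  have h3 : ∀ ξ, (EX Ω₂ p fun η => F (ovr X.Ωw rk X.cp X.kw' X.top ξ η)) ≤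
      (∑' u, ind (X.Stop ξ u)) * (p * (2 * L)) := fun ξ => by
    calc _ ≤ EX Ω₂ p fun η => ∑' u, ind (X.Stop ξ u) * (ind (X.kw' u ∈ η) *
          ind (OS X.T'.G X.key' (η.erase (X.kw' u)) (X.hd' u) M)) := by
          refine EX_mono fun η _ => ?_
          refine (ind_mono Setup.prime_pt).trans ((ind_exists_le _).trans ?_)
          refine ENNReal.tsum_le_tsum fun u => ?_
          rw [ind_and, ind_and]
      _ = ∑' u, EX Ω₂ p fun η => ind (X.Stop ξ u) * (ind (X.kw' u ∈ η) *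
          ind (OS X.T'.G X.key' (η.erase (X.kw' u)) (X.hd' u) M)) := EX_tsum _
      _ ≤ ∑' u, ind (X.Stop ξ u) * (p * (2 * L)) := by
          refine ENNReal.tsum_le_tsum fun u => ?_
          rw [EX_mul_left]
          gcongr
          refine (EX_mem_erase_le hp (X.kw' u)
            fun ω => ind (OS X.T'.G X.key' ω (X.hd' u) M)).trans ?_
          gcongr
          exact hup _ _
      _ = _ := ENNReal.tsum_mul_right
  have h4 : L ≤ 2 * ((EX X.Ωw p fun ξ => ∑' u, ind (X.Stop ξ u)) * (p * (2 * L))) := by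
    refine hlow.trans ?_
    gcongr
    refine h1.trans ?_
    rw [← h2, ← EX_mul_right]
    exact EX_mono fun ξ _ => h3 ξ
  have h5 : 1 * L ≤ (4 * (p * EX X.Ωw p fun ξ => ∑' u, ind (X.Stop ξ u))) * L := by
    rw [one_mul]
    refine h4.trans (le_of_eq ?_)
    ring
  exact (ENNReal.mul_le_mul_iff_left hL0 hLt).1 h5

end Pool.Agent.P.MP_e4ac67_pr
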