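import Pool.Agent.P.MP_e4ac67_pr.Geo

/-! TASK SUMS (first part): basic sums over words. -/

open scoped ENNReal

namespace Pool.Agent.P.MP_e4ac67_pr

variable {k : ℕ}

theorem Par.u_le_one (Q : Par k) : Q.u ≤ 1 := by
  refine le_trans ?_ Q.small
  exact le_mul_of_one_le_left' (by norm_num)

theorem Par.mul_u_le (Q : Par k) {c : ℝ≥0∞} (hc : c ≤ 10 ^ 16) : c * Q.u ≤ 1 :=
  le_trans (mul_le_mul_left hc _) Q.small

theorem Par.pow_u_le (Q : Par k) {n : ℕ} (hn : n ≠ 0) : Q.u ^ n ≤ Q.u :=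
  pow_le_of_le_one zero_le Q.u_le_one hn

theorem Par.p0_le_one (Q : Par k) : 5 * Q.u ^ 8 ≤ 1 :=
  le_trans (mul_le_mul_right (Q.pow_u_le (by norm_num)) _) (Q.mul_u_le (by norm_num))

theorem Par.p_le_one (Q : Par k) : Q.p ≤ 1 := Q.hp.trans Q.p0_le_one

theorem Par.u_ne_zero (Q : Par k) : Q.u ≠ 0 := fun h => by
  have := Q.ur
  rw [h, zero_mul] at this
  exact zero_ne_one this

theorem Par.r_ne_top (Q : Par k) : Q.r ≠ ⊤ := fun h => by
  have := Q.ur
  rw [h, ENNReal.mul_top Q.u_ne_zero] at this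
  exact ENNReal.top_ne_one this

theorem Par.kp (Q : Par k) : k * Q.p ≤ 5 := by
  calc (k : ℝ≥0∞) * Q.p ≤ k * (5 * Q.u ^ 8) := mul_le_mul_right Q.hp _
    _ = 5 * (k * Q.u ^ 8) := by ring
    _ = 5 := by rw [Q.ku, mul_one]

theorem Par.ur_pow (Q : Par k) (n : ℕ) : Q.u ^ n * Q.r ^ n = 1 := by
  rw [← mul_pow, Q.ur, one_pow]

/-- comparison of monomials in `u` and `r = 1/u` -/
theorem Par.mono (Q : Par k) {a b c d : ℕ} (h : c + b ≤ a + d) :
    Q.u ^ a * Q.r ^ b ≤ Q.u ^ c * Q.r ^ d := by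
  calc Q.u ^ a * Q.r ^ b = Q.u ^ a * Q.r ^ b * (Q.u ^ d * Q.r ^ d) := by rw [Q.ur_pow, mul_one]
    _ = Q.u ^ (a + d) * Q.r ^ (b + d) := by ring
    _ ≤ Q.u ^ (c + b) * Q.r ^ (b + d) :=
        mul_le_mul_left (pow_le_pow_of_le_one zero_le Q.u_le_one h) _
    _ = Q.u ^ c * Q.r ^ d * (Q.u ^ b * Q.r ^ b) := by ring
    _ = Q.u ^ c * Q.r ^ d := by rw [Q.ur_pow, mul_one]

theorem lam_mul : 4096 * lam = 1 :=
  ENNReal.mul_inv_cancel (by norm_num) (by norm_num)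

theorem lam_le_one : lam ≤ 1 := by
  rw [← lam_mul]
  exact le_mul_of_one_le_left' (by norm_num)

theorem tsum_le_of_trunc {α : Type*} (f : List α → ℝ≥0∞) (B : ℝ≥0∞)
    (h : ∀ n, ∑' w, ind (w.length ≤ n) * f w ≤ B) : ∑' w, f w ≤ B := by
  rw [ENNReal.tsum_eq_iSup_sum]
  refine iSup_le fun s => le_trans ?_ (h (s.sup List.length))
  refine le_trans (le_of_eq (Finset.sum_congr rfl fun w hw => ?_)) (ENNReal.sum_le_tsum s)
  rw [ind_of (Finset.le_sup (f := List.length) hw), one_mul]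

/-- a contracting potential bounds the sum over all words -/
theorem tsum_rec {α X : Type*} (st : X → α → X) (G : X → Prop)
    (hG : ∀ x e, G x → G (st x e)) (φ : X → ℝ≥0∞) (y : ℝ≥0∞)
    (h : ∀ x, G x → 2 * (y * ∑' e, φ (st x e)) ≤ φ x) {x : X} (hx : G x) :
    ∑' w : List α, y ^ w.length * φ (w.foldl st x) ≤ 2 * φ x := by
  refine tsum_le_of_trunc _ _ fun n => ?_
  induction n generalizing x with
  | zero =>
    rw [tsum_list]
    have h0 : ∀ (e : α) (w : List α), ind ((e :: w).length ≤ 0) *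
        (y ^ (e :: w).length * φ ((e :: w).foldl st x)) = 0 := fun e w => by
      rw [ind_of_not (by simp), zero_mul]
    simp only [h0, tsum_zero, add_zero]
    rw [ind_of (by simp), two_mul]
    simp
  | succ n ih =>
    rw [tsum_list, ind_of (by simp), two_mul]
    refine add_le_add (by simp) (le_trans ?_ (h x hx))
    rw [← ENNReal.tsum_mul_left, ← ENNReal.tsum_mul_left]
    refine ENNReal.tsum_le_tsum fun e => ?_
    have h1 : ∀ w : List α, ind ((e :: w).length ≤ n + 1) *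
        (y ^ (e :: w).length * φ ((e :: w).foldl st x)) =
        y * (ind (w.length ≤ n) * (y ^ w.length * φ (w.foldl st (st x e)))) := fun w => by
      rw [ind_congr (B := w.length ≤ n) (by simp), List.length_cons, List.foldl_cons]
      ring
    simp only [h1]
    rw [ENNReal.tsum_mul_left, mul_left_comm]
    exact mul_le_mul_right (ih (hG x e hx)) _

/-- a geometric sum over words -/
theorem tsum_words_le {x : ℝ≥0∞} (hx : 2 * (k * x) ≤ 1) : ∑' w : Wd k, x ^ w.length ≤ 2 := by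
  have := tsum_rec (α := Fin k) (X := Unit) (fun _ _ => ()) (fun _ => True) (fun _ _ _ => trivial)
    (fun _ => 1) x (fun _ _ => by simpa [mul_comm] using hx) (x := ()) trivial
  simpa using this

theorem Par.tail (Q : Par k) : ∑' w : Wd k, (lam * Q.p) ^ w.length ≤ 2 := by
  refine tsum_words_le ?_
  calc 2 * ((k : ℝ≥0∞) * (lam * Q.p)) = 2 * lam * (k * Q.p) := by ring
    _ ≤ 2 * lam * 5 := mul_le_mul_right Q.kp _
    _ = 10 * lam := by ring
    _ ≤ 4096 * lam := mul_le_mul_left (by norm_num) _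
    _ = 1 := lam_mul

theorem Par.beta_r (Q : Par k) : 50 * (Q.u ^ 4 * Q.r) ≤ 1 := by
  have h := Q.mono (a := 4) (b := 1) (c := 1) (d := 0) (by norm_num)
  rw [pow_one, pow_one, pow_zero, mul_one] at h
  exact le_trans (mul_le_mul_right h _) (Q.mul_u_le (by norm_num))

theorem Par.u4r3 (Q : Par k) : Q.u ^ 4 * Q.r ^ 3 = Q.u := by
  calc Q.u ^ 4 * Q.r ^ 3 = Q.u * (Q.u ^ 3 * Q.r ^ 3) := by ring
    _ = Q.u := by rw [Q.ur_pow, mul_one]

namespace PlaneTri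
variable {V : Type} {T : PlaneTri V}

theorem one_step (hT : ∀ v, k ≤ T.deg v) (Q : Par k) (c : V) {g : V × V} (hg : T.Dart g) :
    ∑' e : Fin k, Q.u ^ (4 * T.d c (T.step g e).2) ≤ 5 * Q.r ^ 4 * Q.u ^ (4 * T.d c g.2) := by
  classical
  have h6 : ∀ v, 6 ≤ T.deg v := fun v => le_trans (le_trans (by norm_num) Q.big) (hT v)
  set A : Finset (Fin k) := Finset.univ.filter fun e => T.d c (T.step g e).2 ≤ T.d c g.2 with hA
  have hcard : A.card ≤ 4 := by
    refine le_trans (Finset.card_le_card_of_injOn (fun e => (T.step g e).2) ?_ ?_) (st4 h6 c g.2)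
    · intro e he
      have he' : e ∈ A := he
      rw [hA, Finset.mem_filter] at he'
      simp only [Finset.coe_filter, Set.mem_ofPred_eq]
      exact ⟨mem_nbr.2 (step_dart hg e), he'.2⟩
    · intro e _ e' _ h
      exact step_inj hg (hT _) h
  have hle : ∀ e : Fin k, Q.u ^ (4 * T.d c (T.step g e).2) ≤
      (if e ∈ A then Q.r ^ 4 * Q.u ^ (4 * T.d c g.2) else 0) +
        Q.u ^ 4 * Q.u ^ (4 * T.d c g.2) := by
    intro e
    by_cases he : e ∈ A
    · rw [if_pos he]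
      refine le_trans ?_ le_self_add
      have h1 : T.d c g.2 ≤ T.d c (T.step g e).2 + 1 := d_adj_le c (step_dart hg e).symm
      have h2 := Q.mono (a := 4 * T.d c (T.step g e).2) (b := 0) (c := 4 * T.d c g.2) (d := 4)
        (by omega)
      rwa [pow_zero, mul_one, mul_comm _ (Q.r ^ 4)] at h2
    · rw [if_neg he, zero_add, ← pow_add]
      rw [hA, Finset.mem_filter] at he
      have h1 : ¬T.d c (T.step g e).2 ≤ T.d c g.2 := fun h => he ⟨Finset.mem_univ _, h⟩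
      exact pow_le_pow_of_le_one zero_le Q.u_le_one (by omega)
  rw [tsum_fintype]
  refine le_trans (Finset.sum_le_sum fun e _ => hle e) ?_
  rw [Finset.sum_add_distrib, Finset.sum_ite_mem, Finset.univ_inter, Finset.sum_const,
    Finset.sum_const, Finset.card_univ, Fintype.card_fin, nsmul_eq_mul, nsmul_eq_mul]
  have h4 : (A.card : ℝ≥0∞) ≤ 4 := by exact_mod_cast hcard
  have hk : (k : ℝ≥0∞) * Q.u ^ 4 = Q.r ^ 4 := by
    calc (k : ℝ≥0∞) * Q.u ^ 4 = k * Q.u ^ 4 * (Q.u ^ 4 * Q.r ^ 4) := by rw [Q.ur_pow, mul_one]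
      _ = k * Q.u ^ 8 * Q.r ^ 4 := by ring
      _ = Q.r ^ 4 := by rw [Q.ku, one_mul]
  calc (A.card : ℝ≥0∞) * (Q.r ^ 4 * Q.u ^ (4 * T.d c g.2)) +
        k * (Q.u ^ 4 * Q.u ^ (4 * T.d c g.2))
      ≤ 4 * (Q.r ^ 4 * Q.u ^ (4 * T.d c g.2)) + Q.r ^ 4 * Q.u ^ (4 * T.d c g.2) := by
        rw [← mul_assoc (k : ℝ≥0∞), hk]
        exact add_le_add (mul_le_mul_left h4 _) le_rfl
    _ = 5 * Q.r ^ 4 * Q.u ^ (4 * T.d c g.2) := by ring

theorem one_step' (hT : ∀ v, k ≤ T.deg v) (Q : Par k) (β : ℝ≥0∞) (c : V) {g : V × V}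
    (hg : T.Dart g) :
    2 * (β * (5 * Q.u ^ 8) * ∑' e : Fin k, Q.u ^ (4 * T.d c (T.step g e).2)) ≤
      50 * (Q.u ^ 4 * β) * Q.u ^ (4 * T.d c g.2) := by
  calc 2 * (β * (5 * Q.u ^ 8) * ∑' e : Fin k, Q.u ^ (4 * T.d c (T.step g e).2))
      ≤ 2 * (β * (5 * Q.u ^ 8) * (5 * Q.r ^ 4 * Q.u ^ (4 * T.d c g.2))) :=
        mul_le_mul_right (mul_le_mul_right (one_step hT Q c hg) _) _
    _ = 50 * (Q.u ^ 4 * β) * Q.u ^ (4 * T.d c g.2) * (Q.u ^ 4 * Q.r ^ 4) := by ring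
    _ = 50 * (Q.u ^ 4 * β) * Q.u ^ (4 * T.d c g.2) := by rw [Q.ur_pow, mul_one]

theorem rad (hT : ∀ v, k ≤ T.deg v) (Q : Par k) {β : ℝ≥0∞} (hβ : 50 * (Q.u ^ 4 * β) ≤ 1)
    (c : V) {g : V × V} (hg : T.Dart g) :
    ∑' w : Wd k, (β * (5 * Q.u ^ 8)) ^ w.length * Q.u ^ (4 * T.d c (T.hd g w)) ≤
      2 * Q.u ^ (4 * T.d c g.2) :=
  tsum_rec (α := Fin k) T.step T.Dart (fun _ e h => step_dart h e)
    (fun x => Q.u ^ (4 * T.d c x.2)) (β * (5 * Q.u ^ 8))
    (fun _ hx => (one_step' hT Q β c hx).trans (mul_le_of_le_one_left' hβ)) hg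

theorem rad_ne (hT : ∀ v, k ≤ T.deg v) (Q : Par k) {β : ℝ≥0∞} (hβ : 50 * (Q.u ^ 4 * β) ≤ 1)
    (c : V) {g : V × V} (hg : T.Dart g) :
    ∑' w : Wd k, ind (w ≠ []) * ((β * (5 * Q.u ^ 8)) ^ w.length * Q.u ^ (4 * T.d c (T.hd g w))) ≤
      50 * (Q.u ^ 4 * β) * Q.u ^ (4 * T.d c g.2) := by
  rw [tsum_list, ind_of_not (by simp), zero_mul, zero_add]
  refine le_trans ?_ (one_step' hT Q β c hg)
  rw [← ENNReal.tsum_mul_left, ← ENNReal.tsum_mul_left]
  refine ENNReal.tsum_le_tsum fun e => ?_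
  have h1 : ∀ w : Wd k, ind (e :: w ≠ []) * ((β * (5 * Q.u ^ 8)) ^ (e :: w).length *
      Q.u ^ (4 * T.d c (T.hd g (e :: w)))) = β * (5 * Q.u ^ 8) *
      ((β * (5 * Q.u ^ 8)) ^ w.length * Q.u ^ (4 * T.d c (T.hd (T.step g e) w))) := fun w => by
    rw [ind_of (by simp), List.length_cons, hd_cons]
    ring
  simp only [h1]
  rw [ENNReal.tsum_mul_left, mul_left_comm 2]
  exact mul_le_mul_right (rad hT Q hβ c (step_dart hg e)) _

/-- the state pointing to the nearest target -/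
theorem near {Tg : Set V} (hTg : ∀ v, v ∉ Tg → T.deg v = k) {g : V × V} (hg : T.Dart g)
    (hne : Tg.Nonempty) :
    ∃ γ : Wd k, T.Clean Tg g γ ∧ T.QG g γ ∧ ∀ z ∈ Tg, γ.length ≤ T.d g.2 z := by
  obtain ⟨z, hz, hmin⟩ : ∃ z ∈ Tg, ∀ z' ∈ Tg, T.d g.2 z ≤ T.d g.2 z' :=
    ⟨Function.argminOn (fun z => T.d g.2 z) Tg hne, Function.argminOn_mem _ _ _,
      fun _ hz' => Function.argminOn_le (fun z => T.d g.2 z) Tg hz'⟩
  obtain ⟨f, h0, h1, h2, h3⟩ := exists_geo (T := T) g.2 z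
  have hout : ∀ i < T.d g.2 z, f i ∉ Tg := fun i hi hf => by
    have h4 := h3 0 i (Nat.zero_le _) hi.le
    have h5 := hmin _ hf
    rw [h0] at h4
    omega
  obtain ⟨w, hw, hw'⟩ := word_along (k := k) hg f (T.d g.2 z) h0 h2 fun i hi => hTg _ (hout i hi)
  refine ⟨w, ⟨?_, fun i hi => ?_⟩, fun i j hij hj => ?_, fun z' hz' => hw ▸ hmin z' hz'⟩
  · have := hw' w.length hw.le
    rw [List.take_length, hw, h1] at this
    rwa [this]
  · rw [hw' i (by omega)]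
    exact hout i (by omega)
  · rw [hw' i (by omega), hw' j (by omega), h3 i j hij (by omega)]
    omega

theorem slow_term (Q : Par k) {g : V × V} {w : Wd k} (h : T.Slow g w) :
    Q.p ^ w.length ≤
      Q.r ^ 3 * ((Q.r * (5 * Q.u ^ 8)) ^ w.length * Q.u ^ (4 * T.d g.1 (T.hd g w))) := by
  have h1 := Q.mono (a := 0) (b := 0) (c := 4 * T.d g.1 (T.hd g w)) (d := w.length + 3)
    (by unfold Slow at h; omega)
  rw [pow_zero, pow_zero, mul_one] at h1
  calc Q.p ^ w.length ≤ (5 * Q.u ^ 8) ^ w.length * 1 := by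
        rw [mul_one]; exact pow_le_pow_left' Q.hp _
    _ ≤ (5 * Q.u ^ 8) ^ w.length * (Q.u ^ (4 * T.d g.1 (T.hd g w)) * Q.r ^ (w.length + 3)) :=
        mul_le_mul_right h1 _
    _ = _ := by rw [mul_pow Q.r]; ring

theorem slow_le (hT : ∀ v, k ≤ T.deg v) (Q : Par k) {g : V × V} (hg : T.Dart g) :
    T.SSlow g Q.p k ≤ 2 * Q.u := by
  unfold SSlow
  refine le_trans (ENNReal.tsum_le_tsum fun w => ind_mul_le fun h => slow_term Q h) ?_
  rw [ENNReal.tsum_mul_left]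
  refine le_trans (mul_le_mul_right (rad hT Q Q.beta_r g.1 hg) _) (le_of_eq ?_)
  rw [d_adj hg, mul_one]
  calc Q.r ^ 3 * (2 * Q.u ^ 4) = 2 * (Q.u ^ 4 * Q.r ^ 3) := by ring
    _ = 2 * Q.u := by rw [Q.u4r3]

theorem root_le (hT : ∀ v, k ≤ T.deg v) (Q : Par k) {g : V × V} (hg : T.Dart g) :
    T.SRoot g Q.p k ≤ 8 * Q.u := by
  unfold SRoot
  refine le_trans (tsum_le_of_dec _ (fun y : Wd k × Wd k × Wd k =>
    Q.r ^ 3 * ((Q.r * (5 * Q.u ^ 8)) ^ y.1.length * (((Q.r * (5 * Q.u ^ 8)) ^ y.2.1.length *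
      Q.u ^ (4 * T.d g.1 (T.hd (T.run g y.1) y.2.1))) * (lam * Q.p) ^ y.2.2.length)))
    (fun y => (y.1, y.2.1 ++ y.2.2)) ?_) ?_
  · rintro ⟨σ, γ⟩ hne
    obtain ⟨h, hh, hs⟩ := of_ind_mul_ne hne
    refine ⟨(σ, γ.take h, γ.drop h), by simp, ind_mul_le fun _ => ?_⟩
    have h1 := slow_term Q hs
    simp only at h1 hh ⊢
    rw [List.length_append, hd_append] at h1
    have h2 : γ.length = (γ.take h).length + (γ.drop h).length := by
      rw [← List.length_append, List.take_append_drop]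
    have h3 : (lam * Q.p) ^ (γ.take h).length ≤ Q.p ^ (γ.take h).length :=
      pow_le_pow_left' (mul_le_of_le_one_left' lam_le_one) _
    calc Q.p ^ σ.length * wA Q.p γ.length
        = Q.p * (Q.p ^ σ.length * (lam * Q.p) ^ (γ.take h).length *
          (lam * Q.p) ^ (γ.drop h).length) := by
          unfold wA
          conv_lhs => rw [h2, pow_add]
          ring
      _ ≤ Q.p ^ σ.length * Q.p ^ (γ.take h).length * (lam * Q.p) ^ (γ.drop h).length :=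
          le_trans (mul_le_of_le_one_left' Q.p_le_one) (mul_le_mul_left (mul_le_mul_right h3 _) _)
      _ ≤ _ := by
          rw [← pow_add]
          refine le_trans (mul_le_mul_left h1 _) (le_of_eq ?_)
          rw [pow_add]
          ring
  · rw [ENNReal.tsum_mul_left, ENNReal.tsum_prod']
    have h1 : ∀ σ : Wd k, ∑' y : Wd k × Wd k, (Q.r * (5 * Q.u ^ 8)) ^ σ.length *
        (((Q.r * (5 * Q.u ^ 8)) ^ y.1.length *
          Q.u ^ (4 * T.d g.1 (T.hd (T.run g σ) y.1))) * (lam * Q.p) ^ y.2.length) ≤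
        4 * ((Q.r * (5 * Q.u ^ 8)) ^ σ.length * Q.u ^ (4 * T.d g.1 (T.hd g σ))) := by
      intro σ
      rw [ENNReal.tsum_mul_left, mul_left_comm 4]
      refine mul_le_mul_right ?_ _
      rw [ENNReal.tsum_prod']
      simp only [ENNReal.tsum_mul_left]
      rw [ENNReal.tsum_mul_right]
      refine le_trans (mul_le_mul' (rad hT Q Q.beta_r g.1 (run_dart hg σ)) Q.tail) (le_of_eq ?_)
      rw [run_snd]
      ring
    refine le_trans (mul_le_mul_right (ENNReal.tsum_le_tsum h1) _) ?_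
    rw [ENNReal.tsum_mul_left]
    refine le_trans (mul_le_mul_right (mul_le_mul_right (rad hT Q Q.beta_r g.1 hg) _) _)
      (le_of_eq ?_)
    rw [d_adj hg, mul_one]
    calc Q.r ^ 3 * (4 * (2 * Q.u ^ 4)) = 8 * (Q.u ^ 4 * Q.r ^ 3) := by ring
      _ = 8 * Q.u := by rw [Q.u4r3]

theorem SA_ne_top (Q : Par k) (Tg : Set V) (N : ℕ) (g : V × V) {P : Wd k → ℝ≥0∞}
    (hP : ∀ σ, P σ ≤ Q.p ^ σ.length) : T.SA Tg N g Q.p P ≠ ⊤ := by
  unfold SA
  rw [tsum_eq_sum (s := words k N ×ˢ words k N)]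
  · refine ENNReal.sum_ne_top.2 fun x _ => ne_top_of_le_ne_top ENNReal.one_ne_top ?_
    refine mul_le_one' (ind_le_one _) (mul_le_one' ((hP _).trans ?_) ?_)
    · exact pow_le_one' Q.p_le_one _
    · exact mul_le_one' Q.p_le_one (pow_le_one' (mul_le_one' lam_le_one Q.p_le_one) _)
  · intro x hx
    rw [ind_of_not, zero_mul]
    rintro ⟨-, -, h⟩
    exact hx (Finset.mem_product.2 ⟨mem_words.2 (by omega), mem_words.2 (by omega)⟩)

theorem wrap_term (Q : Par k) {l b D : ℕ} (h : 4 * D + 8 * b + 8 ≤ 3 * l) (hb : b < l) :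
    Q.p ^ l ≤ wA Q.p b * ((4096 * Q.r ^ 3 * (5 * Q.u ^ 8)) ^ l * Q.u ^ (4 * D)) := by
  obtain ⟨s, rfl⟩ : ∃ s, l = b + 1 + s := ⟨l - (b + 1), by omega⟩
  have h1 := Q.mono (a := 8 * s) (b := 0) (c := 8 * (b + 1 + s) + 4 * D) (d := 3 * (b + 1 + s))
    (by omega)
  rw [pow_zero, mul_one] at h1
  have h2 : (4096 : ℝ≥0∞) ^ b ≤ 4096 ^ (b + 1 + s) :=
    pow_le_pow_right' (by norm_num) (by omega)
  have h3 : (5 : ℝ≥0∞) ^ s ≤ 5 ^ (b + 1 + s) := pow_le_pow_right' (by norm_num) (by omega)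
  calc Q.p ^ (b + 1 + s) = Q.p ^ (b + 1 + s) * (4096 * lam) ^ b := by
        rw [lam_mul, one_pow, mul_one]
    _ = wA Q.p b * (4096 ^ b * Q.p ^ s) := by
        unfold wA
        rw [mul_pow, mul_pow]
        ring
    _ ≤ wA Q.p b * (4096 ^ b * (5 * Q.u ^ 8) ^ s) :=
        mul_le_mul_right (mul_le_mul_right (pow_le_pow_left' Q.hp _) _) _
    _ = wA Q.p b * (4096 ^ b * (5 ^ s * Q.u ^ (8 * s))) := by rw [mul_pow, ← pow_mul]
    _ ≤ wA Q.p b * (4096 ^ (b + 1 + s) * (5 ^ (b + 1 + s) *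
          (Q.u ^ (8 * (b + 1 + s) + 4 * D) * Q.r ^ (3 * (b + 1 + s))))) :=
        mul_le_mul_right (mul_le_mul' h2 (mul_le_mul' h3 h1)) _
    _ = _ := by
        generalize b + 1 + s = l
        rw [mul_pow, mul_pow, mul_pow, ← pow_mul, ← pow_mul, pow_add]
        ring

theorem wrap_le (hT : ∀ v, k ≤ T.deg v) (Q : Par k) {Tg : Set V}
    (hTg : ∀ v, v ∉ Tg → T.deg v = k) (N : ℕ) {g : V × V} (hg : T.Dart g) (P : Wd k → ℝ≥0∞) :
    10 ^ 6 * T.SWrap Tg N g Q.p P ≤ T.SA Tg N g Q.p P := by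
  rcases Tg.eq_empty_or_nonempty with rfl | hne
  · have : T.SWrap ∅ N g Q.p P = 0 := by
      unfold SWrap
      refine ENNReal.tsum_eq_zero.2 fun x => ?_
      rw [ind_of_not, zero_mul]
      rintro ⟨-, -, z, hz, -⟩
      exact hz
    rw [this, mul_zero]
    exact zero_le
  choose γ hcl hqg hmin using fun α : Wd k => near (k := k) hTg (run_dart hg α) hne
  have hβu : Q.u ^ 4 * (4096 * Q.r ^ 3) = 4096 * Q.u := by
    rw [mul_left_comm, Q.u4r3]
  have hβ : 50 * (Q.u ^ 4 * (4096 * Q.r ^ 3)) ≤ 1 := by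
    rw [hβu, ← mul_assoc]
    exact Q.mul_u_le (by norm_num)
  unfold SWrap SA
  rw [ENNReal.tsum_prod', ← ENNReal.tsum_mul_left]
  refine tsum_le_of_enc _ _ (fun α => (α, γ α)) (fun a a' _ _ h => congrArg Prod.fst h)
    fun α _ => ?_
  simp only
  have h1 : ∀ w : Wd k, ind (α.length + w.length ≤ N ∧ T.WrapAt Tg g α w) * (P α * Q.p ^ w.length)
      ≤ ind (T.State Tg N g α (γ α)) * (P α * wA Q.p (γ α).length) * (ind (w ≠ []) *
        ((4096 * Q.r ^ 3 * (5 * Q.u ^ 8)) ^ w.length *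
          Q.u ^ (4 * T.d (T.hd g α) (T.hd (T.run g α) w)))) := by
    intro w
    refine ind_mul_le ?_
    rintro ⟨hN, h9, z, hz, hz1, hz2⟩
    have hb := hmin α z hz
    rw [run_snd] at hb
    rw [hd_append] at hz2
    have hD := d_tri (T := T) (T.hd g α) z (T.hd (T.run g α) w)
    rw [d_comm z] at hD
    have hw : w ≠ [] := by
      rintro rfl
      simp at h9
    rw [ind_of (A := T.State Tg N g α (γ α)) ⟨hcl α, hqg α, by omega⟩, ind_of hw, one_mul,
      one_mul, mul_assoc (P α)]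
    exact mul_le_mul_right (wrap_term Q (by omega) (by omega)) _
  refine le_trans (mul_le_mul_right (ENNReal.tsum_le_tsum h1) _) ?_
  rw [ENNReal.tsum_mul_left, mul_left_comm]
  refine mul_le_of_le_one_right' ?_
  refine le_trans (mul_le_mul_right (rad_ne hT Q hβ (T.hd g α) (run_dart hg α)) _) ?_
  rw [run_snd, d_self, mul_zero, pow_zero, mul_one, hβu, ← mul_assoc, ← mul_assoc]
  exact Q.mul_u_le (by norm_num)

end PlaneTri
end Pool.Agent.P.MP_e4ac67_pr
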