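import Pool.Agent.P.MP_e4ac67_pr.MainSum
import Pool.Agent.P.MP_e4ac67_pr.Front

/-! TASK SAW: the lower bound on self-avoiding walks. -/

open scoped ENNReal

namespace Pool.Agent.P.MP_e4ac67_pr
namespace PlaneTri
variable {V V' : Type} {T : PlaneTri V} {T' : PlaneTri V'} {k : ℕ}

/-- the list of the heads of the initial segments of a word -/
noncomputable def sawHl (T : PlaneTri V) (g : V × V) (w : Wd k) : List V :=
  (List.range (w.length + 1)).map fun i => T.hd g (w.take i)

/-- the heads of the initial segments are distinct -/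
def sawValid (T : PlaneTri V) (g : V × V) (w : Wd k) : Prop :=
  ∀ i ≤ w.length, ∀ j ≤ w.length, T.hd g (w.take i) = T.hd g (w.take j) → i = j

theorem sawHl_length (g : V × V) (w : Wd k) : (T.sawHl g w).length = w.length + 1 := by
  simp [sawHl]

theorem sawHl_get (g : V × V) (w : Wd k) {i : ℕ} (hi : i ≤ w.length) :
    (T.sawHl g w)[i]? = some (T.hd g (w.take i)) := by
  simp [sawHl, List.getElem?_range (Nat.lt_succ_of_le hi)]

theorem sawHl_ne_nil (g : V × V) (w : Wd k) : T.sawHl g w ≠ [] := by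
  rw [← List.length_pos_iff, sawHl_length]; omega

theorem sawHl_head (g : V × V) (w : Wd k) : (T.sawHl g w).head? = some g.2 := by
  rw [List.head?_eq_getElem?, sawHl_get g w (Nat.zero_le _)]; simp

theorem sawHl_last (g : V × V) (w : Wd k) : (T.sawHl g w).getLast? = some (T.hd g w) := by
  rw [List.getLast?_eq_getElem?, sawHl_length, Nat.add_sub_cancel, sawHl_get g w le_rfl]; simp

theorem sawHl_chain {g : V × V} (hg : T.Dart g) (w : Wd k) : (T.sawHl g w).IsChain T.G.Adj := by
  rw [sawHl, List.isChain_map, List.isChain_range_succ]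
  exact fun m hm => adj_hd_take hg w hm

theorem mem_sawHl {g : V × V} {w : Wd k} {p : V} (h : p ∈ T.sawHl g w) :
    ∃ i ≤ w.length, p = T.hd g (w.take i) := by
  simp only [sawHl, List.mem_map, List.mem_range] at h
  obtain ⟨i, hi, rfl⟩ := h
  exact ⟨i, by omega, rfl⟩

theorem mem_sawHl_tail {g : V × V} {w : Wd k} {p : V} (h : p ∈ (T.sawHl g w).tail) :
    ∃ i < w.length, p = T.hd g (w.take (i + 1)) := by
  simp only [sawHl, List.range_succ_eq_map, List.map_cons, List.tail_cons, List.map_map,
    List.mem_map, List.mem_range, Function.comp] at h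
  obtain ⟨i, hi, rfl⟩ := h
  exact ⟨i, hi, rfl⟩

theorem sawHl_nodup {g : V × V} {w : Wd k} (h : T.sawValid g w) : (T.sawHl g w).Nodup := by
  refine List.Nodup.map_on (fun i hi j hj => h i ?_ j ?_) List.nodup_range
  · have := List.mem_range.1 hi; omega
  · have := List.mem_range.1 hj; omega

theorem sawValid.take {g : V × V} {w : Wd k} (h : T.sawValid g w) (t : ℕ) :
    T.sawValid g (w.take t) := by
  intro i hi j hj he
  rw [List.length_take] at hi hj
  rw [List.take_take, List.take_take, min_eq_left (by omega), min_eq_left (by omega)] at he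
  exact h i (by omega) j (by omega) he

theorem hd_run_take (g : V × V) (w : Wd k) (t i : ℕ) :
    T.hd (T.run g (w.take t)) ((w.drop t).take i) = T.hd g (w.take (t + i)) := by
  rw [List.take_add, hd_append]

theorem sawValid.drop {g : V × V} {w : Wd k} (h : T.sawValid g w) {t : ℕ} (ht : t ≤ w.length) :
    T.sawValid (T.run g (w.take t)) (w.drop t) := by
  intro i hi j hj he
  rw [List.length_drop] at hi hj
  rw [hd_run_take, hd_run_take] at he
  have := h _ (by omega) _ (by omega) he
  omega

/-! ### the regular side -/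

def sawSet (T : PlaneTri V) (k : ℕ) (g : V × V) (M : ℕ) : Set (Wd k) :=
  {w | w.length = M ∧ T.sawValid g w}

noncomputable def sawSup (T : PlaneTri V) (k M : ℕ) : ℕ∞ :=
  ⨆ δ : {δ : V × V // T.Dart δ}, (T.sawSet k δ.1 M).encard

theorem sawSup_lt_top (M : ℕ) : T.sawSup k M < ⊤ := by
  have h : T.sawSup k M ≤ ((words k M : Finset (Wd k)) : Set (Wd k)).encard :=
    iSup_le fun δ => Set.encard_le_encard fun w hw => mem_words.2 hw.1.le
  exact h.trans_lt (Finset.finite_toSet _).encard_lt_top

theorem le_sawSup {δ : V × V} (hδ : T.Dart δ) (M : ℕ) :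
    (T.sawSet k δ M).encard ≤ T.sawSup k M :=
  le_iSup (fun δ : {δ : V × V // T.Dart δ} => (T.sawSet k δ.1 M).encard) ⟨δ, hδ⟩

theorem sawCount_le (hT : ∀ v, T.deg v = k) {δ : V × V} (hδ : T.Dart δ) (M : ℕ) :
    sawCount T.G δ.2 M ≤ T.sawSup k M := by
  refine le_trans ?_ ((Set.encard_image_le (T.sawHl δ) _).trans (le_sawSup hδ M))
  refine Set.encard_le_encard ?_
  rintro l ⟨hlen, hhead, hchain, hnd⟩
  have hget : ∀ i (hi : i < l.length), l.getD i δ.2 = l[i] := fun i hi => by
    simp [List.getD_eq_getElem?_getD, List.getElem?_eq_getElem hi]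
  obtain ⟨w, hw, hw'⟩ := word_along (k := k) hδ (fun i => l.getD i δ.2) M
    (by simp [List.getD_eq_getElem?_getD, ← List.head?_eq_getElem?, hhead])
    (fun i hi => by
      simp only [hget i (by omega), hget (i + 1) (by omega)]
      exact List.isChain_iff_getElem.1 hchain i (by omega))
    (fun i _ => hT _)
  refine ⟨w, ⟨hw, fun i hi j hj he => ?_⟩, ?_⟩
  · rw [hw] at hi hj
    rw [hw' i hi, hw' j hj] at he
    simp only [hget i (by omega), hget j (by omega)] at he
    exact hnd.getElem_inj_iff.1 he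
  · refine List.ext_getElem? fun i => ?_
    by_cases hi : i ≤ M
    · rw [sawHl_get _ _ (hw ▸ hi), hw' i hi]
      simp only [hget i (by omega)]
      rw [List.getElem?_eq_getElem]
    · rw [List.getElem?_eq_none (by rw [sawHl_length]; omega),
        List.getElem?_eq_none (by omega)]

theorem saw_exists_max (a : ℕ → ℝ≥0∞) (hfin : ∀ j, a j ≠ ⊤)
    (hunb : ∀ C : ℝ≥0∞, C ≠ ⊤ → ∃ M, C < a M) (n : ℕ) :
    ∃ M, n ≤ M ∧ a M ≠ 0 ∧ ∀ j ≤ M, a j ≤ a M := by
  obtain ⟨M0, h0⟩ := hunb (∑ j ∈ Finset.range n, a j) (ENNReal.sum_ne_top.2 fun j _ => hfin j)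
  obtain ⟨M, hM, hmax⟩ := Finset.exists_max_image (Finset.range (M0 + 1)) a ⟨0, by simp⟩
  have h1 := h0.trans_le (hmax M0 (by simp))
  refine ⟨M, ?_, (zero_le.trans_lt h1).ne', fun j hj => hmax j ?_⟩
  · by_contra hc
    exact absurd (Finset.single_le_sum (f := a) (fun _ _ => zero_le)
      (Finset.mem_range.2 (not_le.1 hc))) (not_le.2 h1)
  · have := Finset.mem_range.1 hM
    exact Finset.mem_range.2 (by omega)

/-- stop words of an exploration -/
def sawStop (T : PlaneTri V) (δ : V × V) (A : Wd k → Prop) (n : ℕ) (u : Wd k) : Prop :=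
  T.sawValid δ u ∧ u.length ≤ n ∧ (u.length = n ∨ ¬A u) ∧ ∀ i < u.length, A (u.take i)

theorem saw_decomp {δ : V × V} (hδ : T.Dart δ) (A : Wd k → Prop) {n M : ℕ} (hn : n ≤ M) :
    ((T.sawSet k δ M).encard : ℝ≥0∞) ≤
      ∑' u : Wd k, ind (T.sawStop δ A n u) * (T.sawSup k (M - u.length) : ℝ≥0∞) := by
  classical
  rw [← tsum_ind_mem]
  calc ∑' w, ind (w ∈ T.sawSet k δ M)
      ≤ ∑' x : Wd k × Wd k, ind (T.sawStop δ A n x.1) *
          ind (x.2 ∈ T.sawSet k (T.run δ x.1) (M - x.1.length)) := by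
        refine tsum_le_of_dec _ _ (fun x => x.1 ++ x.2) fun w hw => ?_
        have hw' : w ∈ T.sawSet k δ M := by
          by_contra hc; exact hw (ind_of_not hc)
        obtain ⟨hlen, hval⟩ := hw'
        have hex : ∃ t, t = n ∨ ¬A (w.take t) := ⟨n, Or.inl rfl⟩
        have ht : Nat.find hex ≤ n := Nat.find_min' hex (Or.inl rfl)
        have hl : (w.take (Nat.find hex)).length = Nat.find hex := by
          rw [List.length_take]; omega
        refine ⟨(w.take (Nat.find hex), w.drop (Nat.find hex)), List.take_append_drop _ _, ?_⟩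
        rw [ind_of (A := T.sawStop δ A n _) ⟨hval.take _, by simp only [hl, ht], by
            simpa only [hl] using Nat.find_spec hex, fun i hi => by
            simp only [hl] at hi
            have := Nat.find_min hex hi
            simp only [not_or, not_not] at this
            rw [List.take_take, min_eq_left hi.le]
            exact this.2⟩,
          ind_of (A := _ ∈ T.sawSet k _ _) ⟨by simp only [hl, List.length_drop, hlen],
            hval.drop (by omega)⟩, one_mul]
        exact ind_le_one _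
    _ ≤ _ := by
        rw [ENNReal.tsum_prod']
        refine ENNReal.tsum_le_tsum fun u => ?_
        simp only
        rw [ENNReal.tsum_mul_left, tsum_ind_mem]
        exact mul_le_mul_right (ENat.toENNReal_le.2 (le_sawSup (run_dart hδ u) _)) _

theorem saw_prime (hT : ∀ v, T.deg v = k) (hk : 0 < k) {x : ℝ≥0∞} (hx : x ≠ ⊤) (v : V)
    (hunb : ∀ C : ℝ≥0∞, C ≠ ⊤ → ∃ M, C < (sawCount T.G v M : ℝ≥0∞) * x ^ M) (n : ℕ) :
    ∃ δ, T.Dart δ ∧ ∀ A : Wd k → Prop,
      1 ≤ ∑' u : Wd k, ind (T.sawStop δ A n u) * x ^ u.length := by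
  obtain ⟨w, hw⟩ := exists_adj (T := T) (fun v => by rw [hT v]; exact hk) v
  have hd0 : T.Dart (w, v) := hw.symm
  have hfin : ∀ j, (T.sawSup k j : ℝ≥0∞) * x ^ j ≠ ⊤ := fun j =>
    ENNReal.mul_ne_top (ENat.toENNReal_ne_top.2 (sawSup_lt_top j).ne) (ENNReal.pow_ne_top hx)
  obtain ⟨M, hM, h0, hmax⟩ := saw_exists_max (fun j => (T.sawSup k j : ℝ≥0∞) * x ^ j) hfin
    (fun C hC => by
      obtain ⟨M, hM⟩ := hunb C hC
      exact ⟨M, hM.trans_le (mul_le_mul_left (ENat.toENNReal_le.2 (sawCount_le hT hd0 M)) _)⟩) n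
  have : Nonempty {δ : V × V // T.Dart δ} := ⟨⟨_, hd0⟩⟩
  obtain ⟨δ, hδ⟩ := ENat.exists_eq_iSup_of_lt_top (sawSup_lt_top (T := T) (k := k) M)
  refine ⟨δ.1, δ.2, fun A => ?_⟩
  have h1 := mul_le_mul_left (saw_decomp δ.2 A hM) (x ^ M)
  rw [hδ, ← ENNReal.tsum_mul_right] at h1
  have h2 : (T.sawSup k M : ℝ≥0∞) * x ^ M ≤
      (∑' u : Wd k, ind (T.sawStop δ.1 A n u) * x ^ u.length) *
        ((T.sawSup k M : ℝ≥0∞) * x ^ M) := by
    refine h1.trans ?_
    rw [← ENNReal.tsum_mul_right]
    refine ENNReal.tsum_le_tsum fun u => ?_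
    by_cases hu : T.sawStop δ.1 A n u
    · have hl : u.length ≤ M := hu.2.1.trans hM
      have h3 := hmax (M - u.length) (Nat.sub_le _ _)
      rw [ind_of hu, one_mul, one_mul]
      calc (T.sawSup k (M - u.length) : ℝ≥0∞) * x ^ M
          = x ^ u.length * ((T.sawSup k (M - u.length) : ℝ≥0∞) * x ^ (M - u.length)) := by
            rw [mul_left_comm, ← pow_add, Nat.add_sub_cancel' hl]
        _ ≤ _ := mul_le_mul_right h3 _
    · rw [ind_of_not hu]; simp
  rw [← ENNReal.mul_le_mul_iff_left h0 (hfin M), one_mul]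
  exact h2

/-! ### the general side -/

def sawSW (R : Rho T) (g : V × V) (n : ℕ) (l : List V) : Prop :=
  l.length = n + 1 ∧ l.head? = some g.2 ∧ l.IsChain T.G.Adj ∧ l.Nodup ∧ ∀ p ∈ l.tail, p ∈ R.Fr g

noncomputable def sawCnt (R : Rho T) (g : V × V) (n : ℕ) : ℝ≥0∞ :=
  ∑' l : List V, ind (sawSW R g n l)

def sawAlive (T : PlaneTri V) (g : V × V) (s : Wd k) : Prop :=
  T.sawValid g s ∧ ∀ i ≤ s.length, ¬T.Slow g (s.take i)

theorem sawAlive.take {g : V × V} {s : Wd k} (h : T.sawAlive g s) (t : ℕ) :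
    T.sawAlive g (s.take t) := by
  refine ⟨h.1.take t, fun i hi => ?_⟩
  rw [List.length_take] at hi
  rw [List.take_take, min_eq_left (by omega)]
  exact h.2 i (by omega)

theorem saw_tail_fr (R : Rho T) {g : V × V} (hg : T.Dart g) {w : Wd k}
    (h : ∀ i ≤ w.length, ¬T.Slow g (w.take i)) {p : V} (hp : p ∈ (T.sawHl g w).tail) :
    p ∈ R.Fr g := by
  obtain ⟨i, hi, rfl⟩ := mem_sawHl_tail hp
  refine (R.nonslow hg (w := w.take (i + 1)) fun j hj => ?_).2 ?_
  · rw [List.length_take] at hj
    rw [List.take_take, min_eq_left (by omega)]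
    exact h j (by omega)
  · rw [← List.length_pos_iff, List.length_take]; omega

theorem saw_direct (hT : ∀ v, k ≤ T.deg v) (R : Rho T) {g : V × V} (hg : T.Dart g) (n : ℕ) :
    ∑' u : Wd k, ind (u.length = n ∧ T.sawAlive g u) ≤ sawCnt R g n := by
  refine tsum_le_of_enc _ _ (T.sawHl g) (fun a a' _ _ he => ?_) fun a ha => ?_
  · have hl : a.length = a'.length := by
      have := congrArg List.length he
      rw [sawHl_length, sawHl_length] at this
      omega
    refine word_unique hT hg hl fun i hi => ?_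
    have h1 := sawHl_get (T := T) g a hi
    rw [he, sawHl_get g a' (hl ▸ hi)] at h1
    exact (Option.some.inj h1).symm
  · refine ind_mono fun h => ⟨by rw [sawHl_length, h.1], sawHl_head _ _, sawHl_chain hg _,
      sawHl_nodup h.2.1, fun p hp => saw_tail_fr R hg h.2.2 hp⟩

theorem saw_collision {g : V × V} {δ : V' × V'} {u : Wd k} (hv : T'.sawValid δ u)
    (hA : ∀ i < u.length, T.sawAlive g (u.take i)) (hs : ¬T.Slow g u) (hn : ¬T.sawAlive g u) :
    ∃ i < u.length, T.Loop T' (T.run g (u.take i)) (T'.run δ (u.take i)) (u.drop i) [] := by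
  have hns : ∀ i ≤ u.length, ¬T.Slow g (u.take i) := by
    intro i hi
    rcases hi.lt_or_eq with h | rfl
    · have := (hA i h).2 i (by rw [List.length_take]; omega)
      rwa [List.take_take, min_self] at this
    · rwa [List.take_length]
  have hlt : ∀ i < u.length, ∀ j < u.length, T.hd g (u.take i) = T.hd g (u.take j) → i = j := by
    intro i hi j hj he
    have h1 := (hA (u.length - 1) (by omega)).1 i (by rw [List.length_take]; omega) j
      (by rw [List.length_take]; omega)
    rw [List.take_take, List.take_take, min_eq_left (by omega), min_eq_left (by omega)] at h1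
    exact h1 he
  have hcol : ∃ i < u.length, T.hd g (u.take i) = T.hd g u := by
    by_contra hc
    push Not at hc
    refine hn ⟨fun i hi j hj he => ?_, hns⟩
    rcases hi.lt_or_eq with hi | rfl <;> rcases hj.lt_or_eq with hj | rfl
    · exact hlt i hi j hj he
    · rw [List.take_length] at he; exact absurd he (hc i hi)
    · rw [List.take_length] at he; exact absurd he.symm (hc j hj)
    · rfl
  obtain ⟨i, hi, he⟩ := hcol
  have hpre : ∀ w : Wd k, ((w <+: u.drop i ∧ w ≠ u.drop i) ∨ w <+: []) →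
      ∃ a, i + a < u.length ∧ w = (u.drop i).take a := by
    rintro w (⟨h1, h2⟩ | h1)
    · refine ⟨w.length, ?_, List.prefix_iff_eq_take.1 h1⟩
      have h3 := h1.length_le
      have h4 : w.length ≠ (u.drop i).length := fun h => h2 (h1.eq_of_length h)
      rw [List.length_drop] at h3 h4
      omega
    · exact ⟨0, by omega, by simpa using h1⟩
  refine ⟨i, hi, ?_, ?_, ?_, ?_, ?_⟩
  · rw [← List.length_pos_iff, List.length_drop]; omega
  · rw [← hd_append, List.take_append_drop, hd_nil, run_snd, he]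
  · rw [← hd_append, List.take_append_drop, hd_nil, run_snd]
    intro h
    have := hv u.length le_rfl i hi.le (by rw [List.take_length]; exact h)
    omega
  · intro w _ h; simpa using h
  · intro w w' hw hw' h
    obtain ⟨a, ha, rfl⟩ := hpre w hw
    obtain ⟨a', ha', rfl⟩ := hpre w' hw'
    rw [hd_run_take, hd_run_take] at h
    have := hlt _ ha _ ha' h
    rw [show a = a' by omega]

theorem saw_stop_le (hT : ∀ v, k ≤ T.deg v) (R : Rho T) {g : V × V} (hg : T.Dart g)
    (δ : V' × V') (x : ℝ≥0∞) (n : ℕ) :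
    ∑' u : Wd k, ind (T'.sawStop δ (T.sawAlive g) n u) * x ^ u.length ≤
      sawCnt R g n * x ^ n + T.SSlow g x k +
        T.SFail T' n g δ x (fun s : Wd k => ind (T.sawAlive g s) * x ^ s.length) := by
  calc ∑' u : Wd k, ind (T'.sawStop δ (T.sawAlive g) n u) * x ^ u.length
      ≤ ∑' u : Wd k, (ind (u.length = n ∧ T.sawAlive g u) * x ^ n +
          ind (T.Slow g u) * x ^ u.length +
          ind (T'.sawStop δ (T.sawAlive g) n u ∧ ¬T.Slow g u ∧ ¬T.sawAlive g u) *
            x ^ u.length) := by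
        refine ENNReal.tsum_le_tsum fun u => ind_mul_le fun hu => ?_
        by_cases h1 : T.sawAlive g u
        · have h2 : u.length = n := hu.2.2.1.resolve_right (not_not.2 h1)
          rw [ind_of (A := u.length = n ∧ _) ⟨h2, h1⟩, one_mul, h2, add_assoc]
          exact le_self_add
        · by_cases h2 : T.Slow g u
          · rw [ind_of h2, one_mul]
            exact le_add_right le_add_self
          · rw [ind_of (A := _ ∧ _ ∧ _) ⟨hu, h2, h1⟩, one_mul]
            exact le_add_self
    _ ≤ _ := by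
        rw [ENNReal.tsum_add, ENNReal.tsum_add, ENNReal.tsum_mul_right]
        refine add_le_add (add_le_add (mul_le_mul_left (saw_direct hT R hg n) _) le_rfl) ?_
        refine tsum_le_of_dec _ _ (fun y : Wd k × Wd k × Wd k => y.1 ++ y.2.1) fun u hu => ?_
        obtain ⟨h1, h2, h3⟩ := of_ind_mul_ne hu
        obtain ⟨i, hi, hL⟩ := saw_collision h1.1 h1.2.2.2 h2 h3
        have hl := h1.2.1
        refine ⟨(u.take i, u.drop i, []), List.take_append_drop _ _, ind_mul_le fun _ => ?_⟩
        simp only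
        rw [ind_of (A := _ ∧ _ ∧ _) ⟨by rw [List.length_take, List.length_drop]; omega,
          by rw [List.length_take, List.length_nil]; omega, hL⟩, ind_of (h1.2.2.2 i hi), one_mul,
          one_mul, ← pow_add]
        refine le_of_eq (congrArg _ ?_)
        rw [List.length_take, List.length_drop, List.length_nil]
        omega

theorem saw_hI (g : V × V) (x : ℝ≥0∞) (σ γ : Wd k) :
    ind (T.sawAlive g σ) * x ^ σ.length ≤
      ind (T.sawAlive g σ) * x ^ σ.length * ind (∀ j h, ¬T.Wit g σ γ j [] h) +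
        T.WitSum g x (fun s => ind (T.sawAlive g s) * x ^ s.length) σ γ := by
  by_cases hW : ∀ j h, ¬T.Wit g σ γ j [] h
  · rw [ind_of hW, mul_one]; exact le_self_add
  · push Not at hW
    obtain ⟨j, h, hw⟩ := hW
    refine le_add_left (ind_mul_le fun hA => ?_)
    refine le_trans ?_ (ENNReal.le_tsum ((j, [], h) : ℕ × Wd k × ℕ))
    simp only
    rw [ind_of hw, ind_of (hA.take j), one_mul, one_mul, ← pow_add]
    refine le_of_eq (congrArg _ ?_)
    have := hw.1
    rw [List.length_take, List.length_nil]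
    omega

/-- good states -/
def sawGood (T : PlaneTri V) (g : V × V) (n : ℕ) (σ γ : Wd k) : Prop :=
  T.Good g σ γ ∧ T.sawValid g (σ ++ γ) ∧ k < T.deg (T.hd g (σ ++ γ)) ∧ σ.length + γ.length < n

theorem saw_good (hT : ∀ v, k ≤ T.deg v) {g : V × V} (hg : T.Dart g) {n : ℕ} {σ γ : Wd k}
    (hS : T.State {v | T.deg v ≠ k} n g σ γ) (hR : ¬T.Root g σ γ) (hA : T.sawAlive g σ)
    (hW : ∀ j h, ¬T.Wit g σ γ j [] h) : T.sawGood g n σ γ := by
  have hG : T.Good g σ γ := by
    refine ⟨hS.2.1, fun i hi => ?_, hW⟩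
    by_cases h : i ≤ σ.length
    · rw [List.take_append_of_le_length h]; exact hA.2 i h
    · rw [List.take_append, List.take_of_length_le (by omega)]
      exact fun hs => hR ⟨i - σ.length, by omega, hs⟩
  refine ⟨hG, ?_, ?_, hS.2.2⟩
  · have key : ∀ i j, i ≤ j → j ≤ (σ ++ γ).length →
        T.hd g ((σ ++ γ).take i) = T.hd g ((σ ++ γ).take j) → i = j := by
      intro i j hij hj he
      rw [List.length_append] at hj
      by_cases h : j ≤ σ.length
      · rw [List.take_append_of_le_length h, List.take_append_of_le_length (hij.trans h)] at he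
        exact hA.1 i (hij.trans h) j h he
      · have := (hG.far hg hij (by omega) hj).1
        rw [he, d_self] at this
        omega
    intro i hi j hj he
    rcases le_total i j with h | h
    · exact key i j h hj he
    · exact (key j i h hi he.symm).symm
  · have h1 : T.deg (T.hd g (σ ++ γ)) ≠ k := by rw [hd_append]; exact hS.1.1
    exact lt_of_le_of_ne (hT _) (Ne.symm h1)

theorem saw_glue (R : Rho T) {g : V × V} (hg : T.Dart g) (hk : 10000 ≤ k) {n : ℕ} {σ γ : Wd k}
    (h : T.sawGood g n σ γ) {l : List V}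
    (hl : sawSW R (T.bonus k (T.run g (σ ++ γ))) (n - (σ.length + γ.length) - 1) l) :
    sawSW R g n (T.sawHl g (σ ++ γ) ++ l) := by
  obtain ⟨hG, hv, hz, hn⟩ := h
  obtain ⟨h1, h2, h3, h4, h5⟩ := hl
  have hmem : ∀ p ∈ l, p = (T.bonus k (T.run g (σ ++ γ))).2 ∨
      p ∈ R.Fr (T.bonus k (T.run g (σ ++ γ))) := by
    intro p hp
    obtain _ | ⟨a, l⟩ := l
    · simp at hp
    · rcases List.mem_cons.1 hp with rfl | hp
      · exact Or.inl (by simpa using h2)
      · exact Or.inr (h5 p hp)
  refine ⟨?_, ?_, ?_, ?_, ?_⟩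
  · rw [List.length_append, sawHl_length, h1, List.length_append]; omega
  · rw [List.head?_append, sawHl_head]; rfl
  · refine (sawHl_chain hg _).append h3 fun a ha b hb => ?_
    rw [sawHl_last] at ha
    rw [h2] at hb
    rw [← Option.some.inj ha, ← Option.some.inj hb]
    exact bonus_dart (run_dart hg (σ ++ γ)) k
  · refine List.nodup_append.2 ⟨sawHl_nodup hv, h4, fun a ha b hb hab => ?_⟩
    obtain ⟨i, hi, rfl⟩ := mem_sawHl ha
    obtain ⟨f1, f2, -, -⟩ := hG.front R hg hk hz (hmem b hb)
    rcases hi.lt_or_eq with hi | rfl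
    · have := (hG.near_past R hg (i := i) (by rwa [List.length_append] at hi)).2
      rw [hab] at this
      linarith
    · rw [List.take_length] at hab
      exact f1 hab.symm
  · intro p hp
    rw [List.tail_append_of_ne_nil (sawHl_ne_nil _ _), List.mem_append] at hp
    rcases hp with hp | hp
    · exact saw_tail_fr R hg (fun i hi => hG.2.1 i (by rwa [List.length_append] at hi)) hp
    · exact (hG.front R hg hk hz (hmem p hp)).2.2.2

theorem saw_glue_inj (hT : ∀ v, k ≤ T.deg v) {g : V × V} (hg : T.Dart g) (hk : 2 ≤ k)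
    {w w' : Wd k} {l l' : List V} (hz : k < T.deg (T.hd g w))
    (hl : l.head? = some (T.bonus k (T.run g w)).2) (hle : w.length ≤ w'.length)
    (he : T.sawHl g w ++ l = T.sawHl g w' ++ l') : w = w' := by
  have h1 : w = w'.take w.length := by
    refine word_unique hT hg (by rw [List.length_take]; omega) fun i hi => ?_
    have h2 := congrArg (fun m : List V => m[i]?) he
    rw [List.getElem?_append_left (by rw [sawHl_length]; omega),
      List.getElem?_append_left (by rw [sawHl_length]; omega), sawHl_get g w hi,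
      sawHl_get g w' (hi.trans hle)] at h2
    rw [List.take_take, min_eq_left hi]
    exact Option.some.inj h2
  rcases hle.lt_or_eq with hlt | heq
  · exfalso
    have h2 := congrArg (fun m : List V => m[w.length + 1]?) he
    rw [List.getElem?_append_right (by rw [sawHl_length]),
      List.getElem?_append_left (by rw [sawHl_length]; omega), sawHl_get g w' hlt, sawHl_length,
      Nat.sub_self, ← List.head?_eq_getElem?, hl, take_succ_eq w' hlt, ← h1, hd_snoc] at h2
    exact step_ne_bonus (run_dart hg w) hz hk _ (Option.some.inj h2).symm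
  · rw [h1, heq, List.take_length]

theorem saw_lam_sum : ∑' b : ℕ, lam ^ b ≤ 2 := by
  have h : lam ≤ 2⁻¹ := by
    unfold lam
    exact ENNReal.inv_le_inv.2 (by norm_num)
  calc ∑' b : ℕ, lam ^ b ≤ ∑' b : ℕ, (2⁻¹ : ℝ≥0∞) ^ b :=
        ENNReal.tsum_le_tsum fun b => pow_le_pow_left₀ zero_le h b
    _ = 2 := by rw [ENNReal.tsum_geometric]; simp

theorem saw_glue_sum (hT : ∀ v, k ≤ T.deg v) (R : Rho T) {g : V × V} (hg : T.Dart g)
    (hk : 10000 ≤ k) (n : ℕ) :
    ∑' y : Wd k × Wd k, ind (T.sawGood g n y.1 y.2) * lam ^ y.2.length *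
      sawCnt R (T.bonus k (T.run g (y.1 ++ y.2))) (n - (y.1.length + y.2.length) - 1) ≤
      2 * sawCnt R g n := by
  calc _ = ∑' y : (Wd k × Wd k) × List V, ind (T.sawGood g n y.1.1 y.1.2 ∧
          sawSW R (T.bonus k (T.run g (y.1.1 ++ y.1.2)))
            (n - (y.1.1.length + y.1.2.length) - 1) y.2) * lam ^ y.1.2.length := by
        rw [ENNReal.tsum_prod' (f := fun y : (Wd k × Wd k) × List V => _)]
        refine tsum_congr fun y => ?_
        rw [sawCnt, ← ENNReal.tsum_mul_left]
        refine tsum_congr fun l => ?_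
        rw [ind_and]
        ring
    _ ≤ ∑' z : ℕ × List V, lam ^ z.1 * ind (sawSW R g n z.2) := by
        refine tsum_le_of_enc _ _ (fun y => (y.1.2.length, T.sawHl g (y.1.1 ++ y.1.2) ++ y.2))
          ?_ ?_
        · rintro ⟨⟨σ, γ⟩, l⟩ ⟨⟨σ', γ'⟩, l'⟩ ha ha' he
          obtain ⟨h1, h2⟩ := of_ind_mul_ne ha
          obtain ⟨h1', h2'⟩ := of_ind_mul_ne ha'
          simp only [Prod.mk.injEq] at he h1 h2 h1' h2' ⊢
          have hw : σ ++ γ = σ' ++ γ' := by
            rcases le_total (σ ++ γ).length (σ' ++ γ').length with h | h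
            · exact saw_glue_inj hT hg (by omega) h1.2.2.1 h2.2.1 h he.2
            · exact (saw_glue_inj hT hg (by omega) h1'.2.2.1 h2'.2.1 h he.2.symm).symm
          refine ⟨List.append_inj' hw he.1, ?_⟩
          have := he.2
          rw [hw] at this
          exact List.append_cancel_left this
        · rintro ⟨⟨σ, γ⟩, l⟩ ha
          obtain ⟨h1, h2⟩ := of_ind_mul_ne ha
          simp only at h1 h2 ⊢
          rw [ind_of (saw_glue R hg hk h1 h2), mul_one]
          exact ind_mul_le fun _ => le_rfl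
    _ ≤ _ := by
        rw [ENNReal.tsum_prod']
        simp only [ENNReal.tsum_mul_left]
        rw [ENNReal.tsum_mul_right]
        exact mul_le_mul_left saw_lam_sum _

theorem saw_claim (hT : ∀ v, k ≤ T.deg v) (hT' : ∀ v, T'.deg v = k) (Q : Par k) (v' : V')
    (hunb : ∀ C : ℝ≥0∞, C ≠ ⊤ → ∃ M, C < (sawCount T'.G v' M : ℝ≥0∞) * Q.p ^ M) (R : Rho T)
    (n : ℕ) : ∀ g, T.Dart g → 1 ≤ 8 * (sawCnt R g n * Q.p ^ n) := by
  induction n using Nat.strong_induction_on with
  | _ n ih =>
  intro g hg
  have hk := Q.big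
  obtain ⟨δ, hδ, hstop⟩ := saw_prime hT' (by omega) (ne_top_of_le_ne_top ENNReal.one_ne_top
    Q.p_le_one) v' hunb n
  have h1 := (hstop (T.sawAlive g)).trans (saw_stop_le hT R hg δ Q.p n)
  have h2 := mainsum hT hT' Q (Tg := {v | T.deg v ≠ k}) (fun v hv => not_not.1 hv) n hg hδ
    (P := fun s => ind (T.sawAlive g s) * Q.p ^ s.length)
    (Pg := fun σ γ => ind (T.sawAlive g σ) * Q.p ^ σ.length * ind (∀ j h, ¬T.Wit g σ γ j [] h))
    (fun σ => ind_mul_le fun _ => le_rfl) (fun σ γ _ _ => saw_hI g Q.p σ γ)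
  refine finish ?_ h2 ?_
  · refine h1.trans (le_trans ?_ (le_mul_of_one_le_left zero_le (by norm_num)))
    rw [add_assoc, add_comm]
    exact add_le_add (add_le_add le_self_add le_rfl) le_rfl
  · have h3 := saw_glue_sum hT R hg hk n
    calc _ ≤ ∑' y : Wd k × Wd k, (8 * Q.p ^ n) * (ind (T.sawGood g n y.1 y.2) * lam ^ y.2.length *
          sawCnt R (T.bonus k (T.run g (y.1 ++ y.2))) (n - (y.1.length + y.2.length) - 1)) := by
          refine ENNReal.tsum_le_tsum ?_
          rintro ⟨σ, γ⟩
          refine ind_mul_le fun hS => ?_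
          simp only at hS ⊢
          rw [mul_assoc, mul_assoc]
          refine ind_mul_le fun hA => ?_
          rw [mul_left_comm]
          refine ind_mul_le fun hW => ?_
          have hG := saw_good hT hg hS.1 hS.2 hA hW
          have hn := hG.2.2.2
          have h4 := ih (n - (σ.length + γ.length) - 1) (by omega) _
            (bonus_dart (run_dart hg (σ ++ γ)) k)
          have h5 : Q.p ^ n = Q.p ^ σ.length * Q.p * Q.p ^ γ.length *
              Q.p ^ (n - (σ.length + γ.length) - 1) := by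
            rw [← pow_succ, ← pow_add, ← pow_add]
            congr 1
            omega
          rw [ind_of hG, h5, wA, mul_pow]
          calc _ = Q.p ^ σ.length * (Q.p * (lam ^ γ.length * Q.p ^ γ.length)) * 1 := by
                rw [mul_one]
            _ ≤ _ := mul_le_mul_right h4 _
            _ = _ := by ring
      _ ≤ (8 * Q.p ^ n) * (2 * sawCnt R g n) := by
          rw [ENNReal.tsum_mul_left]
          exact mul_le_mul_right h3 _
      _ = 16 * (sawCnt R g n * Q.p ^ n) := by ring
      _ ≤ _ := mul_le_mul_left (by norm_num) _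

theorem saw_main (hT : ∀ v, k ≤ T.deg v) (hT' : ∀ v, T'.deg v = k) (Q : Par k) (v' : V')
    (hunb : ∀ C : ℝ≥0∞, C ≠ ⊤ → ∃ M, C < (sawCount T'.G v' M : ℝ≥0∞) * Q.p ^ M) (v : V) (n : ℕ) :
    1 ≤ 8 * ((sawCount T.G v n : ℝ≥0∞) * Q.p ^ n) := by
  have hk := Q.big
  obtain ⟨R⟩ := exists_rho (T := T) fun v => le_trans (by omega) (hT v)
  obtain ⟨w, hw⟩ := exists_adj (T := T) (fun v => lt_of_lt_of_le (by omega) (hT v)) v
  refine (saw_claim hT hT' Q v' hunb R n (w, v) hw.symm).trans ?_
  refine mul_le_mul_right (mul_le_mul_left ?_ _) _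
  rw [sawCount, ← tsum_ind_mem]
  exact ENNReal.tsum_le_tsum fun l => ind_mono fun h => ⟨h.1, h.2.1, h.2.2.1, h.2.2.2.1⟩

end PlaneTri
end Pool.Agent.P.MP_e4ac67_pr
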