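import Pool.Agent.P.MP_e4ac67_pr.Explore
import Pool.Agent.P.MP_e4ac67_pr.Front

/-! TASK STOPS: classification of the stop words. -/

open scoped ENNReal

namespace Pool.Agent.P.MP_e4ac67_pr

/-- splitting two lists at their longest common initial segment -/
theorem exists_lcp {α : Type} (u τ : List α) : ∃ a b₁ b₂ : List α, u = a ++ b₁ ∧ τ = a ++ b₂ ∧
    ∀ v, v <+: b₁ → v <+: b₂ → v = [] := by
  induction u generalizing τ with
  | nil => exact ⟨[], [], τ, rfl, rfl, fun v h _ => List.prefix_nil.1 h⟩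
  | cons e u ih =>
    obtain _ | ⟨e', τ⟩ := τ
    · exact ⟨[], e :: u, [], rfl, rfl, fun v _ h => List.prefix_nil.1 h⟩
    by_cases he : e = e'
    · subst he
      obtain ⟨a, b₁, b₂, h1, h2, h3⟩ := ih τ
      exact ⟨e :: a, b₁, b₂, by rw [h1]; rfl, by rw [h2]; rfl, h3⟩
    · refine ⟨[], e :: u, e' :: τ, rfl, rfl, fun v h1 h2 => ?_⟩
      obtain _ | ⟨x, v⟩ := v
      · rfl
      · exact absurd ((List.cons_prefix_cons.1 h1).1.symm.trans (List.cons_prefix_cons.1 h2).1) he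

theorem pre_dropLast {α : Type} {v b : List α} (h : v <+: b) (hne : v ≠ b) : v <+: b.dropLast := by
  obtain ⟨t, rfl⟩ := h
  have ht : t ≠ [] := by rintro rfl; exact hne (by simp)
  rw [List.dropLast_append_of_ne_nil ht]
  exact List.prefix_append _ _

theorem rk_dropLast_lt {k : ℕ} {u : Wd k} (h : u ≠ []) : rk u.dropLast < rk u := by
  have := rk_lt_append u.dropLast (w := [u.getLast h]) (by simp)
  rwa [List.dropLast_append_getLast] at this

theorem ind_or4_le (A B C D : Prop) : ind (A ∨ B ∨ C ∨ D) ≤ ind A + ind B + ind C + ind D := by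
  calc ind (A ∨ B ∨ C ∨ D) ≤ ind A + ind (B ∨ C ∨ D) := ind_or_le _ _
    _ ≤ ind A + (ind B + ind (C ∨ D)) := by gcongr; exact ind_or_le _ _
    _ ≤ ind A + (ind B + (ind C + ind D)) := by gcongr; exact ind_or_le _ _
    _ = _ := by ring

namespace Setup
variable {V V' K K' : Type} {k : ℕ} (X : Setup V V' K K' k)

section
variable {X} {ξ : Finset (Wd k)}

theorem ex_ne_nil {u : Wd k} (h : X.ex ξ u) : u ≠ [] := ((ex_iff u).1 h).1
theorem ex_acc_dropLast {u : Wd k} (h : X.ex ξ u) : X.acc ξ u.dropLast := ((ex_iff u).1 h).2.1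

theorem run_fst_eq {u : Wd k} (h : u ≠ []) : (X.T.run X.g u).1 = X.hd u.dropLast := by
  conv_lhs => rw [← List.dropLast_append_getLast h]
  exact PlaneTri.run_snoc_fst _ _ _

/-- a colliding partner of an examined word -/
theorem exists_partner {u : Wd k} (h : X.ex ξ u) (hc : X.col ξ u) :
    ∃ τ, rk τ < rk u ∧ X.hd τ = X.hd u ∧ X.hd' τ ≠ X.hd' u ∧ τ.length ≤ X.S.card ∧
      X.acc ξ τ.dropLast ∧
      (X.acc ξ τ ∨ ∀ s, rk s < rk u → X.acc ξ s → X.hd s ≠ X.hd u) := by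
  have hu := (ex_iff u).1 h
  by_cases hA : ∃ s, rk s < rk u ∧ X.acc ξ s ∧ X.hd s = X.hd u
  · obtain ⟨s, h1, h2, h3⟩ := hA
    exact ⟨s, h1, h3, (hu.2.2 s h1).2 h2, (acc_length h2).le,
      acc_prefix h2 (List.dropLast_prefix s), Or.inl h2⟩
  have hA' : ∀ s, rk s < rk u → X.acc ξ s → X.hd s ≠ X.hd u := fun s h1 h2 h3 => hA ⟨s, h1, h2, h3⟩
  obtain ⟨τ, h1, h2 | h2⟩ := hc
  swap
  · exact absurd h2.2 (hA' τ h1 h2.1)
  obtain ⟨h2, h3⟩ := h2
  have hk' := (hu.2.2 τ h1).1 h2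
  have h4 := (X.hkey _ _ _ _).1 h3
  have h5 : ¬KE X.m (X.T'.run X.δ τ).1 (X.T'.run X.δ τ).2 (X.T'.run X.δ u).1 (X.T'.run X.δ u).2 :=
    fun h => hk' ((X.hkey' _ _ _ _).2 h)
  unfold KE at h4 h5
  by_cases hm : X.m = true
  · rw [if_pos hm] at h4 h5
    exact ⟨τ, h1, h4, h5, mem_words.1 (ex_mem h2), ex_acc_dropLast h2, Or.inr hA'⟩
  exfalso
  rw [if_neg hm, run_fst_eq (ex_ne_nil h2), run_fst_eq hu.1] at h4
  rcases h4 with ⟨h6, h7⟩ | ⟨h6, -⟩
  · have h8 := acc_hd_inj (ex_acc_dropLast h2) hu.2.1 h6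
    have e1 := List.dropLast_append_getLast (ex_ne_nil h2)
    have e2 := List.dropLast_append_getLast hu.1
    rw [← e1, ← e2, h8, PlaneTri.run_snoc, PlaneTri.run_snoc] at h7
    have h9 := PlaneTri.step_inj (PlaneTri.run_dart X.hg _) (X.hT _) h7
    have : τ = u := by rw [← e1, ← e2, h8, h9]
    rw [this] at h1
    exact lt_irrefl _ h1
  · exact hA' _ ((rk_dropLast_lt (ex_ne_nil h2)).trans h1) (ex_acc_dropLast h2) h6

/-- a collision gives a failing loop -/
theorem exists_loop {u : Wd k} (h : X.ex ξ u) (hc : X.col ξ u) :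
    ∃ a b₁ b₂ : Wd k, a ++ b₁ = u ∧
      (a.length + b₁.length ≤ X.S.card ∧ a.length + b₂.length ≤ X.S.card ∧
        X.T.Loop X.T' (X.T.run X.g a) (X.T'.run X.δ a) b₁ b₂) ∧
      X.acc ξ (a ++ b₁.dropLast) ∧ X.acc ξ (a ++ b₂.dropLast) := by
  obtain ⟨τ, h1, h2, h3, h4, h5, h6⟩ := exists_partner h hc
  obtain ⟨a, b₁, b₂, rfl, rfl, hp⟩ := exists_lcp u τ
  have hb : b₁ ≠ [] := by
    rintro rfl
    rw [List.append_nil] at h1
    exact absurd (rk_le_of_prefix (List.prefix_append a b₂)) (not_le.2 h1)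
  have ha1 : X.acc ξ (a ++ b₁.dropLast) := by
    have := ex_acc_dropLast h
    rwa [List.dropLast_append_of_ne_nil hb] at this
  have ha2 : X.acc ξ (a ++ b₂.dropLast) := by
    by_cases hb2 : b₂ = []
    · subst hb2
      exact acc_prefix ha1 (by simp)
    · rwa [List.dropLast_append_of_ne_nil hb2] at h5
  have hlen := mem_words.1 (ex_mem h)
  rw [List.length_append] at hlen h4
  have key : ∀ v, ((v <+: b₁ ∧ v ≠ b₁) ∨ v <+: b₂) →
      (X.acc ξ (a ++ v) ∧ rk (a ++ v) < rk (a ++ b₁)) ∨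
        (v = b₂ ∧ ∀ s, rk s < rk (a ++ b₁) → X.acc ξ s → X.hd s ≠ X.hd (a ++ b₁)) := by
    rintro v (⟨hv, hv'⟩ | hv)
    · have hv2 := (List.prefix_append_right_inj a).2 (pre_dropLast hv hv')
      refine Or.inl ⟨acc_prefix ha1 hv2, (rk_le_of_prefix hv2).trans_lt ?_⟩
      rw [← List.dropLast_append_of_ne_nil hb]
      exact rk_dropLast_lt (ex_ne_nil h)
    · have hv2 := (List.prefix_append_right_inj a).2 hv
      have hr := (rk_le_of_prefix hv2).trans_lt h1
      rcases h6 with h6 | h6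
      · exact Or.inl ⟨acc_prefix h6 hv2, hr⟩
      by_cases hv' : v = b₂
      · exact Or.inr ⟨hv', h6⟩
      · exact Or.inl ⟨acc_prefix ha2 ((List.prefix_append_right_inj a).2 (pre_dropLast hv hv')), hr⟩
  refine ⟨a, b₁, b₂, rfl, ⟨hlen, h4, hb, ?_, ?_, hp, ?_⟩, ha1, ha2⟩
  · rw [← PlaneTri.hd_append, ← PlaneTri.hd_append]; exact h2.symm
  · rw [← PlaneTri.hd_append, ← PlaneTri.hd_append]; exact h3.symm
  · intro v v' hv hv' he
    rw [← PlaneTri.hd_append, ← PlaneTri.hd_append] at he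
    rcases key v hv with ⟨k1, k2⟩ | ⟨rfl, k2⟩ <;> rcases key v' hv' with ⟨k3, k4⟩ | ⟨k3, k4⟩
    · exact List.append_cancel_left (acc_hd_inj k1 k3 he)
    · subst k3
      exact absurd (he.trans h2) (k4 _ k2 k1)
    · exact absurd (he.symm.trans h2) (k2 _ k4 k3)
    · exact k3.symm

end

theorem slow_part {p : ℝ≥0∞} (hp : p ≤ 1) :
    p * (EX X.Ωw p fun ξ => ∑' u, ind (X.ex ξ u ∧ X.T.Slow X.g u)) ≤ X.T.SSlow X.g p k := by
  rw [EX_tsum, ← ENNReal.tsum_mul_left]
  refine ENNReal.tsum_le_tsum fun u => ?_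
  by_cases hs : X.T.Slow X.g u ∧ u ≠ []
  · rw [ind_of hs.1, one_mul]
    calc p * (EX X.Ωw p fun ξ => ind (X.ex ξ u ∧ X.T.Slow X.g u)) ≤ p * X.PA p u.dropLast := by
          gcongr
          exact EX_mono fun ξ _ => ind_mono fun h => ex_acc_dropLast h.1
      _ ≤ p * p ^ u.dropLast.length := by gcongr; exact PA_le hp _
      _ = p ^ u.length := by
          rw [← pow_succ', List.length_dropLast, Nat.sub_add_cancel (List.length_pos_iff.2 hs.2)]
  · rw [EX_congr (g := fun _ => 0) fun ξ _ => ind_of_not fun h => hs ⟨h.2, ex_ne_nil h.1⟩,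
      EX_const hp, mul_zero]
    exact zero_le

theorem wrap_part {p : ℝ≥0∞} (hp : p ≤ 1) :
    p * (EX X.Ωw p fun ξ => ∑' u, ind (X.ex ξ u ∧ ∃ α w, u = α ++ w ∧ X.T.WrapAt X.Tg X.g α w)) ≤
      X.T.SWrap X.Tg X.S.card X.g p (X.PA p) := by
  calc _ ≤ p * (EX X.Ωw p fun ξ => ∑' x : Wd k × Wd k,
        ind ((x.1.length + x.2.length ≤ X.S.card ∧ X.T.WrapAt X.Tg X.g x.1 x.2) ∧
          (X.acc ξ (x.1 ++ x.2.dropLast) ∧ X.acc ξ (x.1 ++ [])))) := by
        gcongr
        refine EX_mono fun ξ _ => tsum_le_of_dec _ _ (fun x => x.1 ++ x.2) fun u hu => ?_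
        obtain ⟨h, α, w, rfl, hw⟩ := of_ind_mul_ne (x := 1) (by rwa [mul_one])
        refine ⟨(α, w), rfl, ind_mono fun _ => ?_⟩
        have hw0 : w ≠ [] := by
          rintro rfl
          exact absurd hw.1 (by simp)
        have ha := ex_acc_dropLast h
        rw [List.dropLast_append_of_ne_nil hw0] at ha
        have hl := mem_words.1 (ex_mem h)
        rw [List.length_append] at hl
        exact ⟨⟨hl, hw⟩, ha, acc_prefix ha (by simp)⟩
    _ ≤ _ := by
        rw [EX_tsum, ← ENNReal.tsum_mul_left]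
        refine ENNReal.tsum_le_tsum fun x => ?_
        simp only [ind_and (_ ∧ X.T.WrapAt X.Tg X.g x.1 x.2)]
        rw [EX_mul_left, mul_left_comm]
        refine ind_mul_le fun hx => ?_
        rw [ind_of hx, one_mul]
        have h9 : 9 ≤ x.2.length := hx.2.1
        calc _ ≤ p * (X.PA p x.1 * p ^ (x.2.dropLast.length + ([] : Wd k).length)) := by
              gcongr
              exact EX_two hp _ _ _ fun u _ h => List.prefix_nil.1 h
          _ = _ := by
              rw [mul_left_comm, ← pow_succ', List.length_dropLast]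
              congr 2
              simp only [List.length_nil]
              omega

theorem fail_part {p : ℝ≥0∞} (hp : p ≤ 1) :
    p * (EX X.Ωw p fun ξ => ∑' u, ind (X.ex ξ u ∧ X.col ξ u)) ≤
      X.T.SFail X.T' X.S.card X.g X.δ p (X.PA p) := by
  calc _ ≤ p * (EX X.Ωw p fun ξ => ∑' x : Wd k × Wd k × Wd k,
        ind ((x.1.length + x.2.1.length ≤ X.S.card ∧ x.1.length + x.2.2.length ≤ X.S.card ∧
          X.T.Loop X.T' (X.T.run X.g x.1) (X.T'.run X.δ x.1) x.2.1 x.2.2) ∧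
          (X.acc ξ (x.1 ++ x.2.1.dropLast) ∧ X.acc ξ (x.1 ++ x.2.2.dropLast)))) := by
        gcongr
        refine EX_mono fun ξ _ => tsum_le_of_dec _ _ (fun x => x.1 ++ x.2.1) fun u hu => ?_
        obtain ⟨h, hc⟩ := of_ind_mul_ne (x := 1) (by rwa [mul_one])
        obtain ⟨a, b₁, b₂, h1, h2⟩ := exists_loop h hc
        exact ⟨(a, b₁, b₂), h1, ind_mono fun _ => h2⟩
    _ ≤ _ := by
        rw [EX_tsum, ← ENNReal.tsum_mul_left]
        refine ENNReal.tsum_le_tsum fun x => ?_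
        simp only [ind_and (_ ∧ _ ∧ X.T.Loop X.T' _ _ x.2.1 x.2.2)]
        rw [EX_mul_left, mul_left_comm]
        refine ind_mul_le fun hx => ?_
        rw [ind_of hx, one_mul]
        have h9 : 0 < x.2.1.length := List.length_pos_iff.2 hx.2.2.1
        calc _ ≤ p * (X.PA p x.1 * p ^ (x.2.1.dropLast.length + x.2.2.dropLast.length)) := by
              gcongr
              exact EX_two hp _ _ _ fun u h1 h2 => hx.2.2.2.2.2.1 u
                (h1.trans (List.dropLast_prefix _)) (h2.trans (List.dropLast_prefix _))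
          _ = _ := by
              rw [mul_left_comm, ← pow_succ', List.length_dropLast, List.length_dropLast]
              congr 2
              omega

theorem stop_le {p : ℝ≥0∞} (hp : p ≤ 1) :
    p * (EX X.Ωw p fun ξ => ∑' u, ind (X.Stop ξ u)) ≤
      X.T.SSlow X.g p k + X.T.SWrap X.Tg X.S.card X.g p (X.PA p) +
        X.T.SFail X.T' X.S.card X.g X.δ p (X.PA p) +
      p * EX X.Ωw p fun ξ => ∑' u, ind (X.ExitStop ξ u) := by
  calc _ ≤ p * (EX X.Ωw p fun ξ => (∑' u, ind (X.ex ξ u ∧ X.T.Slow X.g u)) +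
        (∑' u, ind (X.ex ξ u ∧ ∃ α w, u = α ++ w ∧ X.T.WrapAt X.Tg X.g α w)) +
        (∑' u, ind (X.ex ξ u ∧ X.col ξ u)) + ∑' u, ind (X.ExitStop ξ u)) := by
        gcongr
        refine EX_mono fun ξ _ => ?_
        rw [← ENNReal.tsum_add, ← ENNReal.tsum_add, ← ENNReal.tsum_add]
        refine ENNReal.tsum_le_tsum fun u => le_trans (ind_mono fun h => ?_) (ind_or4_le _ _ _ _)
        obtain ⟨h, hc⟩ := h
        by_cases h1 : X.Bad u
        · rcases h1 with h1 | h1
          · exact Or.inl ⟨h, h1⟩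
          · exact Or.inr (Or.inl ⟨h, h1⟩)
        by_cases h2 : X.col ξ u
        · exact Or.inr (Or.inr (Or.inl ⟨h, h2⟩))
        · exact Or.inr (Or.inr (Or.inr ⟨h, h1, h2, fun h3 => hc ⟨h, h1, h2, h3⟩⟩))
    _ ≤ _ := by
        rw [EX_add, EX_add, EX_add, mul_add, mul_add, mul_add]
        gcongr
        · exact X.slow_part hp
        · exact X.wrap_part hp
        · exact X.fail_part hp

section
variable {X} {ξ : Finset (Wd k)}

theorem acc_reach (R : Rho X.T) (η : Finset K) {σ : Wd k} (h : X.acc ξ σ) :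
    Reach X.T.G X.key ((X.S : Set V) ∩ R.Fr X.g) X.g.2 (X.om X.top ξ η) (X.hd σ) := by
  induction σ using List.reverseRecOn with
  | nil => exact Reach.base
  | append_singleton σ e ih =>
    refine Reach.step (ih (acc_prefix h (List.prefix_append _ _)))
      (PlaneTri.adj_hd_snoc X.hg σ e) ⟨acc_hd_mem h, ?_⟩ ?_
    · exact (R.nonslow X.hg fun i _ => acc_not_slow (acc_prefix h (List.take_prefix _ _))).2
        (by simp)
    · have := acc_kw_mem h (by simp) η
      rwa [kw, PlaneTri.run_snoc_fst] at this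

theorem exit_of_exitStop (R : Rho X.T) (η : Finset K) {u : Wd k} (h : X.ExitStop ξ u) :
    Exit X.T.G X.key X.S (R.Fr X.g) X.g.2 (X.om X.top ξ η) (X.kw u) := by
  obtain ⟨h1, h2, -, h4⟩ := h
  have h0 := ex_ne_nil h1
  have ha := ex_acc_dropLast h1
  refine ⟨X.hd u.dropLast, X.hd u, acc_reach R η ha, ?_, h4, ?_, ?_⟩
  · rw [← run_fst_eq h0]; exact PlaneTri.run_dart X.hg u
  · refine (R.nonslow X.hg fun i _ => ?_).2 h0
    by_cases he : u.take i = u
    · rw [he]; exact fun hs => h2 (Or.inl hs)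
    · exact acc_not_slow (acc_prefix ha (pre_dropLast (List.take_prefix _ _) he))
  · rw [← run_fst_eq h0]; rfl

end

theorem direct_le (R : Rho X.T) {p : ℝ≥0∞} (hp : p ≤ 1) {Ω : Finset K}
    (hΩ : KeysOK X.T.G X.key X.S Ω) :
    (EX X.Ωw p fun ξ => ∑' u, ind (X.ExitStop ξ u)) ≤ X.Val R Ω p X.g := by
  have h := EX_om (X := X) hp hΩ (Nat.zero_le X.top)
    (fun _ ω => NE X.T.G X.key X.S (R.Fr X.g) X.g.2 ω) (fun _ _ _ _ => rfl)
  simp only [om, ovr_zero] at h
  rw [EX_const hp] at h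
  refine le_trans (EX_mono fun ξ _ => ?_) h.le
  rw [← EX_const (Ω := Ω) hp (∑' u, ind (X.ExitStop ξ u))]
  refine EX_mono fun η _ => tsum_le_of_enc _ _ X.kw (fun a a' ha ha' he => ?_) fun a ha => ?_
  · have h1 : X.ExitStop ξ a := of_ind_mul_ne (x := 1) (by rwa [mul_one])
    have h2 : X.ExitStop ξ a' := of_ind_mul_ne (x := 1) (by rwa [mul_one])
    exact ex_kw_inj h1.1 h1.2.2.1 h2.1 h2.2.2.1 he
  · exact ind_mono fun h1 => exit_of_exitStop R η h1

theorem wit_le {p : ℝ≥0∞} (hp : p ≤ 1) (σ γ : Wd k) :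
    X.PA p σ ≤ X.Pg p σ γ + X.T.WitSum X.g p (X.PA p) σ γ := by
  calc X.PA p σ ≤ EX X.Ωw p fun ξ => ind (X.H ξ σ γ) + ∑' y : ℕ × Wd k × ℕ,
        ind ((X.T.Wit X.g σ γ y.1 y.2.1 y.2.2 ∧ ¬(σ.take (y.1 + 1) <+: σ.take y.1 ++ y.2.1)) ∧
          (X.acc ξ (σ.take y.1 ++ σ.drop y.1) ∧ X.acc ξ (σ.take y.1 ++ y.2.1))) := by
        refine EX_mono fun ξ _ => ?_
        refine le_trans ?_ (add_le_add_right (ind_exists_le _) _)
        refine le_trans (ind_mono fun h => ?_) (ind_or_le _ _)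
        by_cases hH : X.H ξ σ γ
        · exact Or.inl hH
        refine Or.inr ?_
        by_contra hne
        refine hH ⟨h, fun j η t h1 h2 _ h4 => hne ⟨(j, η, t), ⟨h1, h2⟩, ?_, h4⟩⟩
        rwa [List.take_append_drop]
    _ ≤ _ := by
        rw [EX_add, EX_tsum]
        refine add_le_add_right (ENNReal.tsum_le_tsum fun y => ?_) _
        simp only [ind_and (X.T.Wit X.g σ γ y.1 y.2.1 y.2.2 ∧ _)]
        rw [EX_mul_left]
        refine ind_mul_le fun hy => ?_
        rw [ind_of hy.1, one_mul, ← List.length_drop]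
        refine EX_two hp _ _ _ fun u h1 h2 => ?_
        obtain _ | ⟨e, u⟩ := u
        · rfl
        refine absurd ?_ hy.2
        have hj : y.1 < σ.length := hy.1.1
        rw [PlaneTri.take_succ_eq σ hj, List.prefix_append_right_inj]
        rw [List.drop_eq_getElem_cons hj] at h1
        rw [← (List.cons_prefix_cons.1 h1).1]
        exact List.IsPrefix.trans (by simp) h2

end Setup
end Pool.Agent.P.MP_e4ac67_pr
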