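import Pool.Agent.P.MP_e4ac67_pr.T7Win

/-! The inequality of one window. -/

open scoped ENNReal
open Finset

namespace Pool.Agent.P.MP_e4ac67_pr
namespace Cert
open Node

theorem zL_spec {r yl x : ℕ} (h : zL r yl x = true) : x < r ∨ (8 ≤ x ∧ x < 40 ∧ x < 8 + yl) := by
  simpa [zL, and_assoc] using h

theorem zR_spec {yr x : ℕ} (h : zR yr x = true) : (1 ≤ x ∧ x < 8) ∨ (8 + yr ≤ x ∧ x < 40) := by
  simpa [zR] using h

theorem bit_256 {v x : ℕ} (hx : x < 8) (h : v.testBit x = true) : (v % 256).testBit x = true := by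
  rw [show 256 = 2 ^ 8 from rfl, Nat.testBit_mod_two_pow, h, decide_eq_true hx]; rfl

namespace Chart
variable {V K : Type} {G : SimpleGraph V} (M : Chart G) (P : D7) (key : V → V → K) (S : Finset V)
  (y : V)

noncomputable def bw (b : List ℕ) : List Bool := win (bt M.D b) 0 (2 * P.r + 3)

def QL (b : List ℕ) (τ z : ℕ) : Prop := z + 12 < M.gx b P.r + P.j0 τ

def QR (b : List ℕ) (τ z : ℕ) : Prop := M.gx b P.r + P.j1 τ < z + 12

def PeL (b : List ℕ) (τ : ℕ) : Set V → Finset K → Prop :=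
  Pend G P.m key S y (M.nv ((succ M.D)^[0] b)) P.r (zL P.r (M.gx b P.r + P.j0 τ - 12))

def PeR (b : List ℕ) (τ : ℕ) : Set V → Finset K → Prop :=
  Pend G P.m key S y (M.nv ((succ M.D)^[P.r + wd (P.tA τ)] b)) 0 (zR (P.yr (M.bw P b) τ))

def F1 (b : List ℕ) (τ : ℕ) : Set V :=
  M.Rg b P.r (P.r + wd (P.tA τ)) fun z => M.QL P b τ z ∨ M.QR P b τ z

def F2 (b : List ℕ) (τ lo : ℕ) : Set V := M.Rg b lo (P.r + wd (P.tA τ)) (M.QR P b τ)

def E2 (b : List ℕ) (τ fl R : ℕ) (F : Set V) (ω : Finset K) : Prop :=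
  M.Pa key S y b R F ω ∨ (fl.testBit 0 = true ∧ M.PeR P key S y b τ F ω)

def E1 (b : List ℕ) (τ s : ℕ) (ω : Finset K) : Prop :=
  M.E2 P key S y b τ s ((s / 4) <<< cnt (bt M.D b) P.r) (M.F1 P b τ) ω ∨
    (s.testBit 1 = true ∧ M.PeL P key S y b τ (M.F1 P b τ) ω)

variable {P key S y}

theorem yr_eq (b : List ℕ) (τ : ℕ) : P.yr (M.bw P b) τ =
    P.j1 τ + 1 + M.gx b P.r - (12 + M.gx b (P.r + wd (P.tA τ))) := by
  have := wd_le (P.tA τ)
  rw [D7.yr, bw, gg_win _ _ (by omega), gg_win _ _ (by omega)]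

variable (h7 : ∀ w, M.D w = 7) {b : List ℕ} (hb : Valid M.D b) (hl : 30 ≤ b.length) (hP : P.OK)
include h7 hb hl hP

theorem cL_win (τ : ℕ) : P.chkS 32 (P.tL (cdL ((M.bw P b).take (P.r + 1)) * 64 + P.j0 τ)) P.r lowT
    (P.ep (P.j0 τ)) (zL P.r (M.gx b P.r + P.j0 τ - 12)) (win (bt M.D ((succ M.D)^[0] b)) 0 (P.r + 1))
    P.xsL (P.jsL (win (bt M.D b) 0 (P.r + 1)) (P.j0 τ)) = true := by
  have h := hP.cL _ (mem_lang h7 P.d (P.r + 1) b hb (by have := hP.d20; omega))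
  have e := M.win_sub b (N := 2 * P.r + 3) (i := 0) (n := P.r + 1) (by omega)
  rw [List.drop_zero] at e
  rw [bw, e, ← gg_win _ _ (Nat.le_succ P.r)]
  exact List.all_eq_true.1 h _ (List.mem_range.2 (Nat.mod_lt _ (by norm_num)))

theorem cR_win (τ : ℕ) : P.chkS 80 (P.tR (cdL (((M.bw P b).drop (P.r + wd (P.tA τ))).take (P.r + 1))
      * 64 + P.yr (M.bw P b) τ)) 0 highT (P.ep (64 + P.yr (M.bw P b) τ)) (zR (P.yr (M.bw P b) τ))
    (win (bt M.D ((succ M.D)^[P.r + wd (P.tA τ)] b)) 0 (P.r + 1)) P.xsR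
    (P.jsR (win (bt M.D ((succ M.D)^[P.r + wd (P.tA τ)] b)) 0 (P.r + 1)) (P.yr (M.bw P b) τ)) =
      true := by
  have h := hP.cR _ (mem_lang h7 P.d (P.r + 1) _ (valid_iter M.hD hb (P.r + wd (P.tA τ)))
    (by have := hP.d20; rw [length_iter]; omega))
  have := wd_le (P.tA τ)
  have h1 := (M.gx_le b P.r (wd (P.tA τ))).1
  have h2 : P.j1 τ < 64 := Nat.mod_lt _ (by norm_num)
  conv_lhs => arg 3; rw [bw, M.win_sub b (by omega), ← bw]
  exact List.all_eq_true.1 h _ (List.mem_range.2 (by rw [yr_eq]; omega))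

theorem num_win (fl τ : ℕ) : P.PR (M.bw P b) fl τ >>> (80 * 128) = 0 ∧ ∀ s,
    dg 32 (P.PL (M.bw P b) fl τ) s ≤ 2 ^ 26 ∧ dg 80 (P.PR (M.bw P b) fl τ) s ≤ 2 ^ 26 := by
  have h1 := D7.chk_num (M.cL_win h7 hb hl hP τ)
  have h2 := D7.chk_num (M.cR_win h7 hb hl hP τ)
  have h3 : ∀ s, dg 80 (2 ^ 24) s ≤ 2 ^ 26 := fun s => by
    have := dg_unit (w := 80) (x := 2 ^ 24) (by norm_num) 0 s
    rw [mul_zero, pow_zero, mul_one] at this
    rw [this]; split_ifs <;> norm_num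
  have h4 : ∀ s, dg 32 (2 ^ 24 * 2 ^ (32 * P.r)) s ≤ 2 ^ 26 := fun s => by
    rw [dg_unit (by norm_num)]; split_ifs <;> norm_num
  unfold D7.PL D7.PR
  split_ifs
  exacts [⟨h2.1, fun s => ⟨h1.2 s, h2.2 s⟩⟩, ⟨h2.1, fun s => ⟨h4 s, h2.2 s⟩⟩,
    ⟨by decide, fun s => ⟨h1.2 s, h3 s⟩⟩, ⟨by decide, fun s => ⟨h4 s, h3 s⟩⟩]

variable [DecidableEq K] (hkey : IsKey P.m key) (hy : y ∈ S) {Ω : Finset K}
  (hyn : M.lev y < b.length)
  (hΩ : ∀ u v, M.lev u ≤ b.length + 1 → M.lev v ≤ b.length + 1 → key u v ∈ Ω)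
include hkey hy hyn hΩ

theorem stR (τ fl R : ℕ) {lo : ℕ} (hlo : lo ≤ P.r) (Ls : Finset ℕ) :
    St Ω ((P.a : ℝ≥0∞) / P.b) (EX Ω ((P.a : ℝ≥0∞) / P.b) fun ω => ind (OutS G key S y (M.OO b) ω))
      Ls (dg 80 (P.PR (M.bw P b) fl τ)) (fun s => M.Pa key S y b
        (R ||| (s / 8) <<< cnt (bt M.D b) (P.r + wd (P.tA τ)))
        (M.Rg b lo (P.r + wd (P.tA τ) + s % 8) fun _ => False))
      (M.E2 P key S y b τ fl R (M.F2 P b τ lo)) := by
  have hsub : ∀ d, M.Rg b lo (P.r + wd (P.tA τ) + d) (fun _ => False) ⊆ M.F2 P b τ lo := fun d =>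
    M.Rg_mono le_rfl le_self_add fun _ h => h.elim
  unfold D7.PR
  split_ifs with hf
  swap
  · refine st_unit (k := 0) (fun s => ?_) fun ω h => Or.inl (M.Pa_mono (hsub 0) (by simpa using h))
    simpa only [mul_zero, pow_zero, mul_one] using dg_unit (w := 80) (x := 2 ^ 24) (by norm_num) 0 s
  have hw := wd_le (P.tA τ)
  have hr := hP.r6
  have g1 := M.gx_le b P.r (wd (P.tA τ))
  have g2 := (M.gx_le b (P.r + wd (P.tA τ)) 0).2
  have ey := M.yr_eq (P := P) b τ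
  refine (M.chk_st h7 hb hl hP hkey hy hΩ (M.cR_win h7 hb hl hP τ)
    (fun x hx => by have := zR_spec hx; omega) (by omega) (F := M.F2 P b τ lo) (O := M.OO b)
    (F' := fun d => M.Rg b lo (P.r + wd (P.tA τ) + d) fun _ => False) rfl (fun x hx => ?_)
    (fun d => ⟨hsub d, M.low_mem hb hyn⟩) (fun v x hx hv => ?_) (Rest := M.Pa key S y b R)
    (fun d _ => M.Pa_mono (hsub d))
    (fun _ _ _ h hr => hr.imp fun _ h' => ⟨h'.1, DCT.reach_mono h h'.2⟩)
    (fun d s t ω h1 h2 _ _ hr => hr.imp fun _ h' =>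
      ⟨h'.1, h'.2.ins hkey hy (M.low_mem hb hyn) h1 fun h => by rw [h2 h]⟩) Ls).mono
    (fun s _ ω h => ?_) fun ω h => h.imp_right fun h => ⟨hf, h⟩
  · rcases zR_spec hx with h | h
    · rw [M.nv_own _ h.2]
      exact ⟨(M.own_mem hb hl (by omega) (by omega)).2 (by omega), Or.inl ⟨_, by omega, rfl⟩⟩
    · rw [M.nv_up h7 hl _ (by omega) h.2]
      exact ⟨(M.up_mem hb hl (by omega)).2 (by unfold QR; omega), Or.inr ⟨_, by omega, rfl⟩⟩
  · by_cases h8 : x < 8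
    · have := highT_spec _ (Nat.mod_lt v (by norm_num)) x h8 (bit_256 h8 hv)
      have := dg_lt 3 highT (v % 256)
      rw [M.nv_own _ h8, M.own_mem hb hl (by omega) (by omega)]
      omega
    · have h40 : x < 40 := hx.elim (fun h => by have := zR_spec h; omega) (by omega)
      rw [M.nv_up h7 hl _ (by omega) h40, M.up_mem hb hl (by omega)]
      exact id
  · simpa only [M.nv_dn hl] using M.Pa_or h

theorem stL {τ : ℕ} (hτ : τ < P.T) (hA : P.tA τ ∈ [1, 3, 5, 7]) (fl R : ℕ) :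
    St Ω ((P.a : ℝ≥0∞) / P.b) (EX Ω ((P.a : ℝ≥0∞) / P.b) fun ω => ind (OutS G key S y (M.OO b) ω))
      (P.SL (P.tA τ)).toFinset (dg 32 (P.PL (M.bw P b) fl τ))
      (fun s => M.E2 P key S y b τ fl (R ||| s / 8) (M.F2 P b τ (s % 8)))
      fun ω => M.E2 P key S y b τ fl R (M.F1 P b τ) ω ∨
        (fl.testBit 1 = true ∧ M.PeL P key S y b τ (M.F1 P b τ) ω) := by
  have hsub : ∀ d, M.F2 P b τ (min d P.r) ⊆ M.F1 P b τ := fun d =>
    M.Rg_mono (min_le_right ..) le_rfl fun _ => Or.inr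
  have hm : ∀ d ω, M.E2 P key S y b τ fl R (M.F2 P b τ (min d P.r)) ω →
      M.E2 P key S y b τ fl R (M.F1 P b τ) ω := fun d ω h =>
    h.imp (M.Pa_mono (hsub d)) fun h => ⟨h.1, Pend_mono (hsub d) h.2⟩
  have hw := wd_le (P.tA τ)
  have hr := hP.r6
  unfold D7.PL
  split_ifs with hf
  swap
  · refine st_unit (k := P.r) (fun s => dg_unit (by norm_num) _ s) fun ω h => Or.inl (hm P.r _ ?_)
    rwa [Nat.div_eq_of_lt (by omega), Nat.or_zero, Nat.mod_eq_of_lt (by omega), ← min_self P.r] at h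
  have g1 := M.gx_le b P.r (wd (P.tA τ))
  have g2 := (M.gx_le b (P.r + wd (P.tA τ)) 0).2
  have g0 : M.gx b 0 = 0 := by simp [gx]
  have ey := M.yr_eq (P := P) b τ
  have hj := hP.jj τ hτ
  refine (M.chk_st h7 hb hl hP hkey hy hΩ (M.cL_win h7 hb hl hP τ)
    (fun x hx => by have := zL_spec hx; omega) (by omega) (F := M.F1 P b τ) (O := M.OO b)
    (F' := fun d => M.F2 P b τ (min d P.r)) rfl (fun x hx => ?_)
    (fun d => ⟨hsub d, M.low_mem hb hyn⟩) (fun v x hx hv => ?_)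
    (Rest := M.E2 P key S y b τ fl R) hm
    (fun _ _ _ h hr => hr.imp (fun hr => hr.imp fun _ h' => ⟨h'.1, DCT.reach_mono h h'.2⟩)
      fun hr => ⟨hr.1, hr.2.imp fun _ h' => ⟨h'.1, h'.2.1, DCT.reach_mono h h'.2.2.1,
        fun e => h (h'.2.2.2 e)⟩⟩)
    (fun d s t ω h1 h2 h3 h4 hr => hr.imp (fun hr => hr.imp fun _ h' =>
      ⟨h'.1, h'.2.ins hkey hy (M.low_mem hb hyn) h1 fun h => by rw [h2 h]⟩) fun hr =>
        ⟨hr.1, Pend.ins hkey hy (M.low_mem hb hyn) h1 (fun h => by rw [h2 h]) ?_ hr.2⟩) _).mono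
    (fun s hs ω h => ?_) fun ω h => h.imp_right fun h => ⟨hf, h⟩
  · rcases zL_spec hx with h | h
    · rw [M.nv_own _ (by omega)]
      exact ⟨(M.own_mem hb hl (by omega) (by omega)).2 (by omega), Or.inl ⟨_, by omega, rfl⟩⟩
    · rw [M.nv_up h7 hl _ h.1 h.2.1]
      exact ⟨(M.up_mem hb hl (by omega)).2 (Or.inl (by unfold QL; omega)),
        Or.inr ⟨_, by omega, rfl⟩⟩
  · have hx' := hx.imp_left zL_spec
    by_cases h8 : x < 8
    · have := lowT_spec _ (Nat.mod_lt v (by norm_num)) x h8 (bit_256 h8 hv)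
      rw [M.nv_own _ h8, F2, M.own_mem hb hl (by omega) (by omega)]
      omega
    · rw [M.nv_up h7 hl _ (by omega) (by omega), F2, M.up_mem hb hl (by omega), QR]
      omega
  · intro x hx
    have a1 := zR_spec hx
    have a2 : ∀ t, zL P.r (M.gx b P.r + P.j0 τ - 12) t = true ∨ t = P.r ∨ 40 ≤ t →
        M.nv ((succ M.D)^[P.r + wd (P.tA τ)] b) x ≠ M.nv ((succ M.D)^[0] b) t := fun t ht e => by
      have := ht.imp_left zL_spec
      have := M.nv_eq h7 hb hl (by omega) (by omega) (by omega) e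
      omega
    exact ⟨a2 s (h3.imp_right Or.inl), a2 t h4⟩
  · rw [min_eq_left ((hP.sl _ hA).2.2.1 s (List.mem_toFinset.1 hs))]
    rcases h with h | h
    · rw [← Nat.shiftLeft_zero (n := s / 8)] at h
      simp only [M.nv_dn hl]
      exact (M.Pa_or h).imp_left Or.inl
    · exact Or.inl (Or.inr h)

theorem stM {τ : ℕ} (hA : P.tA τ ∈ [1, 3, 5, 7]) :
    St Ω ((P.a : ℝ≥0∞) / P.b) (EX Ω ((P.a : ℝ≥0∞) / P.b) fun ω => ind (OutS G key S y (M.OO b) ω))
      (range 32) (fun s => dg 32 (P.mN (M.bw P b) (P.tA τ)) s / 64) (M.E1 P key S y b τ)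
      (M.Ob P key S y ((succ M.D)^[P.r] b) τ) := by
  have hW := hP.cW _ (mem_lang h7 P.d (2 * P.r + 3) b hb (by have := hP.d20; omega))
  simp only [D7.chkW, Bool.and_eq_true] at hW
  have h1 := List.all_eq_true.1 hW.1.2 _ hA
  have hw := wd_le (P.tA τ)
  have hr := hP.r6
  have g1 := M.gx_le b P.r (wd (P.tA τ))
  have hu := valid_iter M.hD hb P.r
  have lu : ((succ M.D)^[P.r] b).length = b.length := length_iter ..
  rw [M.win_sub b (by omega), Bool.and_eq_true, decide_eq_true_eq] at h1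
  have h2 := mid_sound (G := G) hkey hy hP.ab hP.b0 (ν := M.nv ((succ M.D)^[P.r] b))
    (fun _ hx _ hx' => M.nv_inj hu (by omega) hx hx')
    (fun _ _ => M.adj3_adj h7 hu (by omega)) (by omega) (wd_spec hA) h1.1 h1.2
    (M.nv_Ω hb hl hΩ P.r) (F := M.Reg0 P ((succ M.D)^[P.r] b) τ) (F' := M.F1 P b τ) (O := M.OO b)
    (fun x hx => by
      rw [M.nv_own _ (by omega), F1, M.own_mem hb hl (by omega) (by omega)]
      exact ⟨Or.inl (by rw [M.pt_lev hb, lu]), Or.inl ⟨_, by omega, rfl⟩, by omega⟩)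
    ⟨by
      rintro v (h | ⟨z, a1, a2, rfl⟩)
      · exact Or.inl (h.1.trans lu.ge)
      · refine Or.inr ⟨by rw [M.up_lev hb hl, lu], fun j b1 b2 e => ?_⟩
        have b3 : P.j1 τ < 64 := Nat.mod_lt _ (by norm_num)
        have := M.off_inj hu (M.v3 hb hl) (by rw [← List.length_pos_iff]; omega)
          (M.gx_spec h7 hl P.r) (by simp; omega) (by simp; omega) e.symm
        unfold QL QR at a2
        omega, M.low_mem hb hyn⟩
    (νL := M.nv ((succ M.D)^[0] b)) (νR := M.nv ((succ M.D)^[P.r + wd (P.tA τ)] b))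
    (aL := P.r) (aR := 0) (zL := zL P.r (M.gx b P.r + P.j0 τ - 12)) (zR := zR (P.yr (M.bw P b) τ))
    (by rw [M.nv_own _ (by omega), M.nv_own _ (by omega), zero_add, add_zero])
    (by rw [M.nv_own _ (by omega), M.nv_own _ (by omega), add_zero])
    (fun s t hs ht e => by
      have := zL_spec hs
      have := M.nv_eq h7 hb hl (by omega) (by omega) (by omega) e
      omega)
    (fun s t hs ht e => by
      have := zR_spec hs
      have := M.nv_eq h7 hb hl (by omega) (by omega) (by omega) e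
      omega) 0 64 (2 ^ 30)
  refine (st_of (sum_xp hP.ab ..) (fun s => ?_) h2).mono (fun s _ ω h => ?_) fun ω h => ?_
  · rw [D7.mN, D7.tree_dg hP.ab, bw, M.win_sub b (by omega)]
    exact Nat.div_mul_le_self ..
  · rcases h with (h | h) | h
    · rw [← Nat.zero_or (_ <<< _)] at h
      simp only [M.nv_dn hl]
      exact Or.inl ((M.Pa_or h).resolve_left fun h => by simpa using h.choose_spec.1)
    · exact Or.inr (Or.inr h)
    · exact Or.inr (Or.inl h)
  · obtain ⟨j, h3, h4⟩ := h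
    have := (wd_spec hA).2.2 j h3
    exact ⟨j, h3, by rwa [nv, if_pos (by omega)] at h4⟩

omit h7 hkey hy hyn hΩ [DecidableEq K] in
theorem compat {R lo hi mm τ : ℕ} (hW : P.chkW (M.bw P b) = true) (h : P.cmp R lo hi mm
    (dg 8 (D7.fpos (M.bw P b)) mm) τ (dg 16 P.ty τ) = true) (ω : Finset K)
    (ho : M.Ob P key S y ((succ M.D)^[mm] b.tail) τ ω) :
    M.Pa key S y b R (M.Rg b lo hi fun _ => False) ω := by
  simp only [D7.cmp, Bool.and_eq_true, Nat.blt_eq, Nat.ble_eq, Bool.not_eq_true'] at h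
  obtain ⟨⟨⟨⟨⟨a1, -⟩, a3⟩, a4⟩, a5⟩, a6⟩ := h
  simp only [D7.chkW, Bool.and_eq_true] at hW
  have h1 := List.all_eq_true.1 hW.1.1 mm (List.mem_range.2 (a3.trans_le hP.mx8))
  simp only [frc_eq, a1, Bool.false_or, Bool.and_eq_true, Nat.ble_eq] at h1
  obtain ⟨p, hp⟩ : ∃ p, dg 8 (D7.fpos (M.bw P b)) mm = p + 1 :=
    Nat.exists_eq_succ_of_ne_zero fun e => by simp [e] at a1
  obtain ⟨⟨b1, b2⟩, b3⟩ := h1
  rw [hp] at a5 a6 b1 b2 b3
  rw [bw, length_win] at b3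
  rw [bw, getD_win _ (by omega), zero_add, Nat.add_sub_cancel] at b1
  rw [bw, idx_win0 _ b3] at b2
  have e1 := succ_of_one (of_decide_eq_true b1)
  have e2 := tail_iter (D := M.D) (b := b) (by omega) (p + 1)
  rw [Nat.eq_of_beq_eq_true b2, Function.iterate_succ_apply', e1, List.tail_cons] at e2
  rw [e2, ← Function.iterate_succ_apply' (succ M.D)] at e1
  have hu := valid_iter M.hD (valid_tail hb) mm
  have lu : ((succ M.D)^[mm] b.tail).length = b.length - 1 := by rw [length_iter, List.length_tail]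
  obtain ⟨j, h3, h4⟩ := ho
  refine ⟨mm + j, ?_, ?_⟩
  · rw [D7.tA, ← Nat.eq_of_beq_eq_true a4, Nat.testBit_and, Nat.testBit_shiftRight,
      Bool.and_eq_true] at h3
    exact h3.1
  · rw [← pt_add]
    refine h4.mono ?_
    rintro v (h | ⟨h, h'⟩)
    · exact M.low_mem hb (by omega)
    · exact Or.inl ⟨by omega, fun x c1 c2 e => h' (x + 12 - (p + 1)) (by unfold D7.j0; omega)
        (by unfold D7.j1; omega) (e.trans (M.off_pt hu hb
          (by rw [← List.length_pos_iff]; omega) e1 (by omega)).symm)⟩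

theorem window7 : ∑ k ∈ range (P.mx * P.T), dg 40 (P.tb (cdL (M.bw P b))) (k + 1) *
      (EX Ω ((P.a : ℝ≥0∞) / P.b) fun ω =>
        ind (M.Ob P key S y ((succ M.D)^[k / P.T] b.tail) (k % P.T) ω)) ≤
    2 ^ 16 * ∑ τ ∈ range P.T, P.c (M.bw P b) (P.r - 1) τ *
      ((EX Ω ((P.a : ℝ≥0∞) / P.b) fun ω => ind (M.Ob P key S y ((succ M.D)^[P.r] b) τ ω)) +
        3 * EX Ω ((P.a : ℝ≥0∞) / P.b) fun ω => ind (OutS G key S y (M.OO b) ω)) := by
  have hW : P.chkW (M.bw P b) = true :=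
    hP.cW _ (mem_lang h7 P.d (2 * P.r + 3) b hb (by have := hP.d20; omega))
  have hW' := hW
  simp only [D7.chkW, Bool.and_eq_true, frc_eq, Nat.blt_eq] at hW'
  rw [← ENNReal.mul_le_mul_iff_right (a := 2 ^ 56) (by simp) (by simp),
    Nat.eq_of_beq_eq_true hW'.2.1, ← mul_assoc, ← pow_add, mul_sum (a := 2 ^ (56 + 16))]
  simp only [mul_left_comm ((2 : ℝ≥0∞) ^ (56 + 16))]
  refine D7.agg_sound hP (Ψ := fun R lo hi => EX Ω ((P.a : ℝ≥0∞) / P.b) fun ω =>
    ind (M.Pa key S y b R (M.Rg b lo hi fun _ => False) ω)) (fun R lo hi mm τ h => ?_)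
    (fun fl τ _ => M.num_win h7 hb hl hP fl τ) (fun τ hτ hA => ?_) hW'.2.2
  · have hτ : τ < P.T := by
      simp only [D7.cmp, Bool.and_eq_true, Nat.blt_eq] at h
      exact h.1.1.1.1.2
    rw [Nat.mul_add_mod_of_lt hτ, mul_comm mm, Nat.mul_add_div (by omega), Nat.div_eq_of_lt hτ]
    exact EX_mono fun ω _ => ind_mono (M.compat hb hl hP hW h ω)
  set O := EX Ω ((P.a : ℝ≥0∞) / P.b) fun ω => ind (OutS G key S y (M.OO b) ω)
  calc _ ≤ ∑ fl ∈ range 4, ∑ R ∈ range 8, 2 ^ 24 * (2 ^ 24 * ((P.em (M.bw P b) (P.tA τ) fl R : ℕ) *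
        ((EX Ω ((P.a : ℝ≥0∞) / P.b) fun ω => ind (M.E1 P key S y b τ (4 * R + fl) ω)) +
          (0 + O + O)))) := by
        refine sum_le_sum fun fl hfl => sum_le_sum fun R _ => ?_
        rw [mul_left_comm (2 ^ 24) (Nat.cast _), mul_left_comm (2 ^ 24) (Nat.cast _)]
        refine mul_le_mul_right (le_trans ?_ (mul_le_mul_right (((M.stL h7 hb hl hP hkey hy hyn hΩ
          hτ hA fl (R <<< cnt (bt M.D b) P.r)).mono (fun _ _ _ h => h) fun ω h => ?_) (0 + O)) _)) _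
        · rw [mul_sum]
          refine sum_le_sum fun s hs => ?_
          rw [mul_left_comm]
          refine mul_le_mul_right (le_trans (le_of_eq (sum_congr rfl fun s' _ => ?_))
            (M.stR h7 hb hl hP hkey hy hyn hΩ τ fl _
              ((hP.sl _ hA).2.2.1 s (List.mem_toFinset.1 hs)) _ 0)) _
          have := wd_le (P.tA τ)
          rw [add_zero, D7.RR, bw, idx_win0 _ (by omega), idx_win0 _ (by omega), ← Nat.or_assoc]
        · have := mem_range.1 hfl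
          have e0 : (4 * R + fl).testBit 0 = fl.testBit 0 := by
            simp only [Nat.testBit_zero]; congr 2; omega
          have e1 : (4 * R + fl).testBit 1 = fl.testBit 1 := by
            simp only [Nat.testBit_succ, Nat.testBit_zero]; congr 2; omega
          unfold E1 E2 at *
          rwa [e0, e1, show (4 * R + fl) / 4 = R by omega]
    _ ≤ _ := by
        simp only [← mul_sum, D7.em]
        rw [sum_32 fun s => (dg 32 (P.mN (M.bw P b) (P.tA τ)) s / 64 : ℕ) *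
          ((EX Ω ((P.a : ℝ≥0∞) / P.b) fun ω => ind (M.E1 P key S y b τ s ω)) + (0 + O + O))]
        refine (mul_le_mul_right (mul_le_mul_right
          (M.stM h7 hb hl hP hkey hy hyn hΩ hA _) _) _).trans (le_of_eq ?_)
        ring

end Chart
end Cert
end Pool.Agent.P.MP_e4ac67_pr
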