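import Pool.Agent.P.MP_e4ac67_pr.T7DataB

/-! The finite checks. -/

namespace Pool.Agent.P.MP_e4ac67_pr
namespace Cert

theorem QB_cR : ∀ u ∈ lang 4 7, QB.chkR u = true := by
  rw [show lang 4 7 = [[false, false, true, false, false, true, false],
    [false, true, false, false, true, false, true],
    [true, false, false, true, false, true, false],
    [false, false, true, false, true, false, false],
    [false, true, false, true, false, false, true],
    [true, false, true, false, false, true, false],
    [false, true, false, false, true, false, false],
    [true, false, false, true, false, false, true]] by decide +kernel]
  simp only [List.forall_mem_cons, List.not_mem_nil, false_imp_iff, implies_true, and_true]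
  exact ⟨by decide +kernel,
    by decide +kernel,
    by decide +kernel,
    by decide +kernel,
    by decide +kernel,
    by decide +kernel,
    by decide +kernel,
    by decide +kernel⟩

end Cert
end Pool.Agent.P.MP_e4ac67_pr
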