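import Pool.Agent.P.MP_e4ac67_pr.T7ChkC0
import Pool.Agent.P.MP_e4ac67_pr.T7ChkC1
import Pool.Agent.P.MP_e4ac67_pr.T7ChkC2

/-! The certificate is valid. -/

namespace Pool.Agent.P.MP_e4ac67_pr
namespace Cert

theorem QC_ok : QC.OK :=
  ⟨by decide, by decide, by decide, by decide, by decide, by decide, by decide, by decide, by decide,
    by decide +kernel, by decide +kernel, by decide +kernel, QC_cL, QC_cR, QC_cW, QC_cF⟩

end Cert
end Pool.Agent.P.MP_e4ac67_pr
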