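import Pool.Agent.P.MP_e4ac67_pr.T7DataS

/-! The finite checks. -/

namespace Pool.Agent.P.MP_e4ac67_pr
namespace Cert

theorem QS_cL : ∀ u ∈ lang 4 6, QS.chkL u = true := by
  rw [show lang 4 6 = [[false, false, true, false, false, true],
    [false, true, false, false, true, false],
    [true, false, false, true, false, true],
    [false, false, true, false, true, false],
    [false, true, false, true, false, false],
    [true, false, true, false, false, true],
    [true, false, false, true, false, false]] by decide +kernel]
  simp only [List.forall_mem_cons, List.not_mem_nil, false_imp_iff, implies_true, and_true]
  exact ⟨by decide +kernel,
    by decide +kernel,
    by decide +kernel,
    by decide +kernel,
    by decide +kernel,
    by decide +kernel,
    by decide +kernel⟩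

theorem QS_cR : ∀ u ∈ lang 4 6, QS.chkR u = true := by
  rw [show lang 4 6 = [[false, false, true, false, false, true],
    [false, true, false, false, true, false],
    [true, false, false, true, false, true],
    [false, false, true, false, true, false],
    [false, true, false, true, false, false],
    [true, false, true, false, false, true],
    [true, false, false, true, false, false]] by decide +kernel]
  simp only [List.forall_mem_cons, List.not_mem_nil, false_imp_iff, implies_true, and_true]
  exact ⟨by decide +kernel,
    by decide +kernel,
    by decide +kernel,
    by decide +kernel,
    by decide +kernel,
    by decide +kernel,
    by decide +kernel⟩

theorem QS_cW : ∀ u ∈ lang 4 13, QS.chkW u = true := by
  rw [show lang 4 13 = [[false, false, true, false, false, true, false, true, false, false, true, false, false],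
    [false, true, false, false, true, false, true, false, false, true, false, false, true],
    [true, false, false, true, false, true, false, false, true, false, false, true, false],
    [false, false, true, false, true, false, false, true, false, false, true, false, true],
    [false, true, false, true, false, false, true, false, false, true, false, true, false],
    [true, false, true, false, false, true, false, false, true, false, true, false, false],
    [false, true, false, false, true, false, false, true, false, true, false, false, true],
    [true, false, false, true, false, false, true, false, true, false, false, true, false],
    [false, false, true, false, false, true, false, true, false, false, true, false, true],
    [false, true, false, false, true, false, true, false, false, true, false, true, false],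
    [true, false, false, true, false, true, false, false, true, false, true, false, false],
    [false, false, true, false, true, false, false, true, false, true, false, false, true],
    [false, true, false, true, false, false, true, false, true, false, false, true, false],
    [true, false, true, false, false, true, false, true, false, false, true, false, false]] by decide +kernel]
  simp only [List.forall_mem_cons, List.not_mem_nil, false_imp_iff, implies_true, and_true]
  exact ⟨by decide +kernel,
    by decide +kernel,
    by decide +kernel,
    by decide +kernel,
    by decide +kernel,
    by decide +kernel,
    by decide +kernel,
    by decide +kernel,
    by decide +kernel,
    by decide +kernel,
    by decide +kernel,
    by decide +kernel,
    by decide +kernel,
    by decide +kernel⟩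

theorem QS_cF : ∀ u ∈ lang 4 17, QS.chkF u = true := by
  rw [show lang 4 17 = [[false, false, true, false, false, true, false, true, false, false, true, false, false, true, false, true, false],
    [false, true, false, false, true, false, true, false, false, true, false, false, true, false, true, false, false],
    [true, false, false, true, false, true, false, false, true, false, false, true, false, true, false, false, true],
    [false, false, true, false, true, false, false, true, false, false, true, false, true, false, false, true, false],
    [false, true, false, true, false, false, true, false, false, true, false, true, false, false, true, false, true],
    [true, false, true, false, false, true, false, false, true, false, true, false, false, true, false, true, false],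
    [false, true, false, false, true, false, false, true, false, true, false, false, true, false, true, false, false],
    [true, false, false, true, false, false, true, false, true, false, false, true, false, true, false, false, true],
    [false, false, true, false, false, true, false, true, false, false, true, false, true, false, false, true, false],
    [false, true, false, false, true, false, true, false, false, true, false, true, false, false, true, false, false],
    [true, false, false, true, false, true, false, false, true, false, true, false, false, true, false, false, true],
    [false, false, true, false, true, false, false, true, false, true, false, false, true, false, false, true, false],
    [false, true, false, true, false, false, true, false, true, false, false, true, false, false, true, false, true],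
    [true, false, true, false, false, true, false, true, false, false, true, false, false, true, false, true, false],
    [false, true, false, true, false, false, true, false, false, true, false, true, false, false, true, false, false],
    [true, false, true, false, false, true, false, false, true, false, true, false, false, true, false, false, true],
    [false, true, false, false, true, false, false, true, false, true, false, false, true, false, false, true, false],
    [true, false, false, true, false, false, true, false, true, false, false, true, false, false, true, false, true]] by decide +kernel]
  simp only [List.forall_mem_cons, List.not_mem_nil, false_imp_iff, implies_true, and_true]
  exact ⟨by decide +kernel,
    by decide +kernel,
    by decide +kernel,
    by decide +kernel,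
    by decide +kernel,
    by decide +kernel,
    by decide +kernel,
    by decide +kernel,
    by decide +kernel,
    by decide +kernel,
    by decide +kernel,
    by decide +kernel,
    by decide +kernel,
    by decide +kernel,
    by decide +kernel,
    by decide +kernel,
    by decide +kernel,
    by decide +kernel⟩

theorem QS_ok : QS.OK :=
  ⟨by decide, by decide, by decide, by decide, by decide, by decide, by decide, by decide, by decide,
    by decide +kernel, by decide +kernel, by decide +kernel, QS_cL, QS_cR, QS_cW, QS_cF⟩

end Cert
end Pool.Agent.P.MP_e4ac67_pr
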