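import Pool.Agent.P.MP_e4ac67_pr.T7Stage

/-! The finite data of a certificate for the seven-regular triangulation, and the checks. -/

namespace Pool.Agent.P.MP_e4ac67_pr
namespace Cert

def lowT : ℕ :=
  25022362156799035803914582955757619369568891729402897373840142026534261798713521414930642828909913299323807825150831116622313716821879120336814099329813250252251674145805210015125924716975068986259343685912095266900480122950000704

def highT : ℕ :=
  1552518092300708935148979488462502555256886017116696611139052038026050952686376886330878408828646477950487730697131067577313551987760641208724272968810637556384559195242754483468764431187533836104348593828980831103427008259450020416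

theorem lowT_spec : ∀ V < 256, ∀ x < 8, V.testBit x = true → dg 3 lowT V ≤ x := by decide +kernel

theorem highT_spec : ∀ V < 256, ∀ x < 8, V.testBit x = true → x ≤ dg 3 highT V := by
  decide +kernel

def gg (bits : List Bool) (x : ℕ) : ℕ := 3 * x - idx bits x

def zL (r yl x : ℕ) : Bool :=
  decide (x < r) || (decide (8 ≤ x) && decide (x < 40) && decide (x < 8 + yl))

def zR (yr x : ℕ) : Bool := (decide (1 ≤ x) && decide (x < 8)) || (decide (8 + yr ≤ x) && decide (x < 40))

def msk (f : ℕ → Bool) : ℕ := sumL (fun s => if f s then 2 ^ s else 0) (List.range 48)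

def parG (bits : List Bool) (x : ℕ) : List Gate :=
  e1 x (40 + idx bits x) :: if bits.getD x false then [e1 x (41 + idx bits x)] else []

def lnkG (sb : List Bool) (r an j : ℕ) : List Gate :=
  ((idx sb j :: if sb.getD j false then [idx sb j + 1] else []).filter (· ≤ r)).map fun q =>
    if q = an then e1 an (8 + j) else eg (8 + j) q

/-- gates of a side exploration over the lists `xs` (own level) and `js` (upper level) -/
def sideG (m : Bool) (bits sb : List Bool) (r an : ℕ) (xs js : List ℕ) : List Gate :=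
  if m then (xs ++ js.map (8 + ·)).map fun x => (2 ^ x, msk fun s => adj3 bits sb x s &&
    (decide (40 ≤ s) || xs.elem s || (decide (8 ≤ s) && js.elem (s - 8))), x, x)
  else xs.flatMap (parG bits) ++ e1 an (xs.headD 0) :: List.zipWith eg xs xs.tail ++
    js.flatMap (lnkG sb r an) ++ List.zipWith (fun i j => eg (8 + i) (8 + j)) js js.tail

def sideV (m : Bool) (bits sb : List Bool) (an : ℕ) (xs js : List ℕ) : ℕ :=
  2 ^ an + if m then msk fun s => adj3 bits sb s an &&
    (xs.elem s || (decide (8 ≤ s) && js.elem (s - 8))) else 0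

def midG (m : Bool) (bits : List Bool) (w : ℕ) : List Gate :=
  if m then (List.range (w + 1)).map fun x => (2 ^ x, (msk fun s => adj3 bits (sig bits) x s &&
    (decide (40 ≤ s) || decide (s ≤ w))) + (if x = 0 then 2 ^ 39 else 0) +
      (if x = w then 2 ^ 38 else 0), x, x)
  else (List.range (w + 1)).flatMap (parG bits) ++ (List.range w).map fun x => eg x (x + 1)

def leD (w : ℕ) : ℕ → ℕ → ℕ → Bool
  | 0, X, _ => X.beq 0
  | n + 1, X, N => X.beq 0 || ((X % 2 ^ w * 64).ble (N % 4294967296) &&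
      frc (X / 2 ^ w) fun X' => frc (N / 2 ^ 32) fun N' => leD w n X' N')

theorem leD_spec {w : ℕ} : ∀ {n X N : ℕ}, leD w n X N = true →
    X >>> (w * n) = 0 ∧ ∀ s, dg w X s * 64 ≤ dg 32 N s
  | 0, X, N, h => by
    obtain rfl := Nat.eq_of_beq_eq_true h
    simp [dg]
  | n + 1, X, N, h => by
    simp only [leD, frc_eq, Bool.or_eq_true, Bool.and_eq_true, Nat.ble_eq] at h
    rcases h with h | ⟨h1, h2⟩
    · obtain rfl := Nat.eq_of_beq_eq_true h
      simp [dg]
    · obtain ⟨h3, h4⟩ := leD_spec h2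
      refine ⟨by rwa [mul_add, mul_one, add_comm, Nat.shiftRight_add, Nat.shiftRight_eq_div_pow X],
        fun s => ?_⟩
      cases s with
      | zero => simpa [dg] using h1
      | succ s => rw [dg_succ, dg_succ]; exact h4 s

def mkP {α : Type} (f g : ℕ → ℕ) : List ℕ → (List (ℕ × ℕ) → α) → α
  | [], k => k []
  | a :: t, k => frc (g a) fun y => bif y.beq 0 then mkP f g t k else
      frc (f a) fun x => mkP f g t fun l => k ((x, y) :: l)

theorem mkP_eq {α : Type} (f g : ℕ → ℕ) (l : List ℕ) (k : List (ℕ × ℕ) → α) :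
    mkP f g l k = k ((l.filter fun a => g a != 0).map fun a => (f a, g a)) := by
  induction l generalizing k with
  | nil => rfl
  | cons a t ih =>
    by_cases h : g a = 0
    · simp [mkP, frc_eq, ih, h]
    · simp [mkP, frc_eq, ih, h, beq_ne h]

def wd (A : ℕ) : ℕ := if A = 1 then 0 else if A = 3 then 1 else 2

/-- the data of a certificate -/
structure D7 where
  m : Bool
  a : ℕ
  b : ℕ
  r : ℕ
  r2 : ℕ
  d : ℕ
  T : ℕ
  mx : ℕ
  t : ℕ
  np : ℕ
  im : ℕ
  t0 : ℕ
  thr : ℕ
  ty : ℕ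
  gs : ℕ
  ts : ℕ
  ct : ℕ → ℕ
  tL : ℕ → ℕ
  tR : ℕ → ℕ
  ep : ℕ → ℕ
  tb : ℕ → ℕ
  SL : ℕ → List ℕ
  SR : ℕ → List ℕ

namespace D7
variable (P : D7)

def tA (τ : ℕ) : ℕ := dg 16 P.ty τ % 8
def j0 (τ : ℕ) : ℕ := dg 16 P.ty τ / 8 % 64
def j1 (τ : ℕ) : ℕ := dg 16 P.ty τ / 512 % 64

def xsL : List ℕ := (List.range P.r).reverse
def jsL (bits : List Bool) (j : ℕ) : List ℕ :=
  ((List.range (min (gg bits P.r + j - 12) (gg bits (P.r + 1)))).filter
    (gg bits (P.r - P.r2) ≤ · + 1)).reverse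
def xsR : List ℕ := (List.range P.r).map (· + 1)
def jsR (bits : List Bool) (j : ℕ) : List ℕ := (List.range (gg bits (P.r2 + 1))).filter (j ≤ ·)

def tree (ix : ℕ → ℕ) (eps vis : ℕ) (gs : List Gate) : ℕ :=
  nrmG gs fun gs => frc vis fun vis => frc eps fun eps => xN P.a P.b eps ix 64 vis gs (2 ^ 30)

def chkS (w X an tbl eps : ℕ) (z : ℕ → Bool) (bits : List Bool) (xs js : List ℕ) : Bool :=
  X.beq 0 || ((sideG P.m bits (sig bits) P.r an xs js).all (gS P.m (adj3 bits (sig bits)) an z) &&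
    decide ((sideG P.m bits (sig bits) P.r an xs js).map pm).Nodup &&
    vS P.m (adj3 bits (sig bits)) an z (sideV P.m bits (sig bits) an xs js) &&
    frc (P.tree (ixS tbl) eps (sideV P.m bits (sig bits) an xs js)
      (sideG P.m bits (sig bits) P.r an xs js)) fun N => leD w 128 X N)

def chkL (bits : List Bool) : Bool := (List.range 64).all fun j =>
  P.chkS 32 (P.tL (cdL bits * 64 + j)) P.r lowT (P.ep j) (zL P.r (gg bits P.r + j - 12)) bits
    P.xsL (P.jsL bits j)

def chkR (bits : List Bool) : Bool := (List.range 64).all fun j =>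
  P.chkS 80 (P.tR (cdL bits * 64 + j)) 0 highT (P.ep (64 + j)) (zR j) bits P.xsR (P.jsR bits j)

def c (bits : List Bool) (i τ : ℕ) : ℕ := dg 20 (P.ct (cdL ((bits.drop i).take 5))) τ

def yr (bits : List Bool) (τ : ℕ) : ℕ :=
  P.j1 τ + 1 + gg bits P.r - (12 + gg bits (P.r + wd (P.tA τ)))

def PL (bits : List Bool) (fl τ : ℕ) : ℕ :=
  if fl.testBit 1 then P.tL (cdL (bits.take (P.r + 1)) * 64 + P.j0 τ) else 2 ^ 24 * 2 ^ (32 * P.r)

def PR (bits : List Bool) (fl τ : ℕ) : ℕ :=
  if fl.testBit 0 then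
    P.tR (cdL ((bits.drop (P.r + wd (P.tA τ))).take (P.r + 1)) * 64 + P.yr bits τ) else 2 ^ 24

def mN (bits : List Bool) (A : ℕ) : ℕ :=
  P.tree ixM 0 (A ||| if P.m then 0 else 3 * 2 ^ 38) (midG P.m ((bits.drop P.r).take 3) (wd A))

def fpos (bits : List Bool) : ℕ :=
  sumL (fun p => if bits.getD p false then (p + 1) * 2 ^ (8 * idx bits (p + 1)) else 0)
    (List.range bits.length)

/-- the chosen slot is compatible with the outcome -/
def cmp (R lo hi mm p τ q : ℕ) : Bool :=
  !p.beq 0 && τ.blt P.T && mm.blt P.mx && (R >>> mm &&& q % 8).beq (q % 8) &&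
    (p + q / 8 % 64).ble (lo + 12) && (hi + 12).ble (p + q / 512 % 64)

def ctb (C FP R lo hi y : ℕ) : ℕ :=
  frc (dg 8 P.gs R) fun g => frc (g / 8 % 8) fun mm => frc (dg 8 FP mm) fun p =>
    frc (dg 8 P.ts ((g % 8 * 32 + (lo + 12 - p)) * 32 + (hi + 12 - p))) fun τ =>
      frc (dg 16 P.ty τ) fun q => bif P.cmp R lo hi mm p τ q then
        y <<< (40 * (mm * P.T + τ + 1)) + y * C else 0

def agg (bits : List Bool) : ℕ :=
  frc (2 ^ (40 * (P.mx * P.T + 1)) + 1) fun C => frc (fpos bits) fun FP =>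
  frc (idx bits P.r) fun ca =>
  sumL (fun A => frc (P.mN bits A) fun N => frc (P.r + wd A) fun a' => frc (idx bits a') fun cb =>
    sumL (fun fl => mkP id (fun R => dg 32 N (4 * R + fl) / 64) (List.range 8) fun ML =>
      bif ML.isEmpty then 0 else
      mkP (P.PL bits fl) (fun τ => P.c bits (P.r - 1) τ * P.PR bits fl τ)
        ((List.range P.T).filter (P.tA · == A)) fun Gs =>
      sumL (fun s => frc (sumL (fun g : ℕ × ℕ => dg 32 g.1 s * g.2) Gs) fun V =>
        sumL (fun s' => frc (dg 80 V s') fun x => bif x.blt P.thr then 0 else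
          frc (s / 8 ||| (s' / 8) <<< cb) fun R1 => frc (s % 8) fun lo => frc (a' + s' % 8) fun hi =>
          sumL (fun e : ℕ × ℕ => frc (e.1 <<< ca ||| R1) fun R => frc ((x * e.2) >>> 56) fun y =>
            P.ctb C FP R lo hi y) ML) (P.SR A)) (P.SL A)) [0, 1, 2, 3]) [1, 3, 5, 7]

def chkW (bits : List Bool) : Bool :=
  ((List.range 8).all fun mm => frc (dg 8 (fpos bits) mm) fun p =>
    p.beq 0 || (bits.getD (p - 1) false && (idx bits p).beq mm && p.ble bits.length)) &&
  ([1, 3, 5, 7].all fun A => (midG P.m ((bits.drop P.r).take 3) (wd A)).all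
    (gM P.m (adj3 ((bits.drop P.r).take 3) (sig ((bits.drop P.r).take 3))) (wd A)) &&
    decide ((midG P.m ((bits.drop P.r).take 3) (wd A)).map pm).Nodup) &&
  frc (P.agg bits) fun X => (P.tb (cdL bits)).beq X && (X >>> (40 * (P.mx * P.T + 1))).blt (2 ^ 40)

def term (γ : List Bool) (τ i : ℕ) : ℕ :=
  if idx γ i ≤ P.t ∧ P.t - idx γ i < P.mx ∧ i + (2 * P.r + 3) ≤ γ.length then
    dg 40 (P.tb (cdL ((γ.drop i).take (2 * P.r + 3)))) ((P.t - idx γ i) * P.T + τ + 1) else 0

def rowL (γ : List Bool) : List ℕ → (List ℕ → Bool) → Bool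
  | [], k => k []
  | i :: l, k => frc (if idx γ i ≤ P.t ∧ P.t - idx γ i < P.mx ∧ i + (2 * P.r + 3) ≤ γ.length then
      P.tb (cdL ((γ.drop i).take (2 * P.r + 3))) >>> (40 * ((P.t - idx γ i) * P.T + 1)) else 0) fun x =>
      rowL γ l fun t => k (x :: t)

def chkF (u : List Bool) : Bool :=
  P.rowL (sig u) (List.range P.im) fun xs => frc (P.ct (cdL ((u.drop (P.t - 1)).take 5))) fun C =>
    (List.range P.T).all fun τ => (dg 20 C τ * 65536).ble (sumL (fun x => dg 40 x τ) xs)

theorem rowL_eq (γ : List Bool) (l : List ℕ) (k : List ℕ → Bool) : P.rowL γ l k = k (l.map fun i =>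
    if idx γ i ≤ P.t ∧ P.t - idx γ i < P.mx ∧ i + (2 * P.r + 3) ≤ γ.length then
      P.tb (cdL ((γ.drop i).take (2 * P.r + 3))) >>> (40 * ((P.t - idx γ i) * P.T + 1)) else 0) := by
  induction l generalizing k with
  | nil => rfl
  | cons i l ih => simp [rowL, frc_eq, ih]

theorem chkF_spec {u : List Bool} (h : P.chkF u = true) {τ : ℕ} (hτ : τ < P.T) :
    P.c u (P.t - 1) τ * 65536 ≤ ∑ i ∈ Finset.range P.im, P.term (sig u) τ i := by
  simp only [chkF, rowL_eq, frc_eq, List.all_eq_true, List.mem_range, Nat.ble_eq, sumL_eq,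
    List.map_map] at h
  refine (h τ hτ).trans (le_of_eq ?_)
  rw [← List.sum_toFinset _ List.nodup_range, List.toFinset_range]
  refine Finset.sum_congr rfl fun i _ => ?_
  simp only [Function.comp, term]
  split_ifs
  · rw [dg, dg, ← Nat.shiftRight_add, ← mul_add, add_right_comm]
  · simp [dg]

structure OK : Prop where
  ab : P.a ≤ P.b
  b0 : 0 < P.b
  r1 : 1 ≤ P.r
  r6 : P.r ≤ 6
  d20 : P.d ≤ 20
  T128 : P.T ≤ 128
  mx8 : P.mx ≤ 8
  t1 : 1 ≤ P.t ∧ P.t + 4 ≤ P.np
  im : P.im ≤ 100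
  t0 : P.t0 < P.T ∧ (P.tA P.t0).testBit 0 = true ∧ ∀ u ∈ lang P.d 5, 0 < P.c u 0 P.t0
  jj : ∀ τ < P.T, P.j0 τ ≤ P.j1 τ
  sl : ∀ A ∈ [1, 3, 5, 7], (P.SL A).Nodup ∧ (P.SR A).Nodup ∧ (∀ s ∈ P.SL A, s % 8 ≤ P.r) ∧
    ∀ s ∈ P.SR A, s < 128
  cL : ∀ u ∈ lang P.d (P.r + 1), P.chkL u = true
  cR : ∀ u ∈ lang P.d (P.r + 1), P.chkR u = true
  cW : ∀ u ∈ lang P.d (2 * P.r + 3), P.chkW u = true
  cF : ∀ u ∈ lang P.d P.np, P.chkF u = true

end D7
end Cert
end Pool.Agent.P.MP_e4ac67_pr
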