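import Pool.Agent.P.MP_e4ac67_pr.T7Chain

/-! A valid certificate gives an infinite cluster in the seven-regular triangulation. -/

open scoped ENNReal
open Finset

namespace Pool.Agent.P.MP_e4ac67_pr
namespace Cert
open Node

namespace Chart
variable {V K : Type} {G : SimpleGraph V} (M : Chart G) (P : D7) (key : V → V → K) (S : Finset V)
  (y : V)

noncomputable def cc (v : List ℕ) (τ : ℕ) : ℕ := dg 20 (P.ct (cdL (win (bt M.D v) 0 5))) τ

noncomputable def pot7 (n : ℕ) (ω : Finset K) : ℝ≥0∞ :=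
  ∑' v, ind (Valid M.D v ∧ v.length = n) *
    ∑ τ ∈ range P.T, M.cc P v τ * ind (M.Ob P key S y (succ M.D v) τ ω)

def VO (b : List ℕ) (ω : Finset K) : Prop := Valid M.D b ∧ b ≠ [] ∧ OutS G key S y (M.OO b) ω

variable {P key S y}

theorem c_win (w : List ℕ) {N i : ℕ} (h : i + 5 ≤ N) (τ : ℕ) :
    P.c (win (bt M.D w) 0 N) i τ = M.cc P ((succ M.D)^[i] w) τ := by
  rw [D7.c, M.win_sub w h, cc]

variable (h7 : ∀ w, M.D w = 7) (hP : P.OK)
include h7 hP

theorem term_spec {w v : List ℕ} (h0 : w ≠ []) (he : (succ M.D)^[P.t - 1] w = v) {τ i : ℕ}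
    (hτ : τ < P.T) (h : P.term (sig (win (bt M.D w) 0 P.np)) τ i ≠ 0) {b : List ℕ} {k : ℕ}
    (hb : b = (succ M.D)^[i] (3 :: w)) (hk : k = (P.t - cnt (bt M.D (3 :: w)) i) * P.T + τ) :
    k < P.mx * P.T ∧ k % P.T = τ ∧ (succ M.D)^[k / P.T] b.tail = succ M.D v ∧
      P.term (sig (win (bt M.D w) 0 P.np)) τ i = dg 40 (P.tb (cdL (M.bw P b))) (k + 1) := by
  rw [← (sig_win h7 P.np w h0).1] at h ⊢
  generalize (sig (win (bt M.D w) 0 P.np)).length = L at h ⊢
  unfold D7.term at h ⊢
  split_ifs at h ⊢ with hc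
  swap
  · exact absurd rfl h
  rw [length_win] at hc
  rw [idx_win0 _ (by omega)] at hc ⊢
  have ht := hP.t1.1
  refine ⟨by nlinarith [hc.2.1], by rw [hk, Nat.mul_add_mod_of_lt hτ], ?_,
    by rw [M.win_sub _ hc.2.2, hk, hb, bw]⟩
  rw [hk, mul_comm, Nat.mul_add_div (by omega), Nat.div_eq_of_lt hτ, hb,
    tail_iter (by have := List.length_pos_iff.2 h0; simp; omega), List.tail_cons,
    ← Function.iterate_add_apply, ← he, ← Function.iterate_succ_apply' (succ M.D)]
  congr 1; omega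

theorem swap7 {n : ℕ} (hn : 29 ≤ n) (ω : Finset K) :
    2 ^ 16 * M.pot7 P key S y n ω ≤ ∑' b, ind (Valid M.D b ∧ b.length = n + 1) *
      ∑ k ∈ range (P.mx * P.T), dg 40 (P.tb (cdL (M.bw P b))) (k + 1) *
        ind (M.Ob P key S y ((succ M.D)^[k / P.T] b.tail) (k % P.T) ω) := by
  choose! B hB using fun u (hu : Valid M.D u) => exists_base M.hD hu (P.t - 1)
  have hl : ∀ v, Valid M.D v ∧ v.length = n → (B v).length = n := fun v h => by
    rw [← h.2, ← congrArg List.length (hB v h.1).2, length_iter]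
  have h0 : ∀ v, Valid M.D v ∧ v.length = n → B v ≠ [] := fun v h => by
    rw [← List.length_pos_iff, hl v h]; omega
  calc _ ≤ ∑' x : List ℕ × Fin P.T × Fin P.im, ind (Valid M.D x.1 ∧ x.1.length = n) *
        (P.term (sig (win (bt M.D (B x.1)) 0 P.np)) x.2.1 x.2.2 *
          ind (M.Ob P key S y (succ M.D x.1) x.2.1 ω)) := by
        rw [pot7, ← ENNReal.tsum_mul_left, ENNReal.tsum_prod']
        refine ENNReal.tsum_le_tsum fun v => ?_
        dsimp only
        rw [mul_left_comm, ENNReal.tsum_mul_left]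
        refine ind_mul_le fun hv => ?_
        rw [ind_of hv, one_mul, tsum_fintype, Fintype.sum_prod_type, mul_sum,
          ← Fin.sum_univ_eq_sum_range]
        refine sum_le_sum fun τ _ => ?_
        have := D7.chkF_spec P (hP.cF _ (mem_lang h7 P.d P.np _ (hB v hv.1).1
          (by have := hP.d20; rw [hl v hv]; omega))) τ.2
        rw [M.c_win _ (by have := hP.t1; omega), (hB v hv.1).2, ← Fin.sum_univ_eq_sum_range] at this
        dsimp only
        rw [← sum_mul, ← mul_assoc, mul_comm (2 ^ 16)]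
        exact mul_le_mul_left (by exact_mod_cast this) _
    _ ≤ ∑' z : List ℕ × ℕ, ind (Valid M.D z.1 ∧ z.1.length = n + 1) *
        (ind (z.2 < P.mx * P.T) * (dg 40 (P.tb (cdL (M.bw P z.1))) (z.2 + 1) *
          ind (M.Ob P key S y ((succ M.D)^[z.2 / P.T] z.1.tail) (z.2 % P.T) ω))) := by
        refine tsum_le_of_enc _ _ (fun x => ((succ M.D)^[x.2.2] (3 :: B x.1),
          (P.t - cnt (bt M.D (3 :: B x.1)) x.2.2) * P.T + x.2.1)) ?_ ?_
        · rintro ⟨v, τ, i⟩ ⟨v', τ', i'⟩ h h' he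
          have a0 := of_ind_mul_ne h
          have b0 := of_ind_mul_ne h'
          obtain ⟨e1, e2⟩ := Prod.mk.inj he
          obtain ⟨-, a1, a2, -⟩ := M.term_spec h7 hP (h0 v a0) (hB v a0.1).2 τ.2 (i := i)
            (by rintro h0; simp [h0] at h) rfl rfl
          obtain ⟨-, b1, b2, -⟩ := M.term_spec h7 hP (h0 v' b0) (hB v' b0.1).2 τ'.2
            (by rintro h0; simp [h0] at h') e1 e2
          obtain rfl : τ = τ' := Fin.ext (a1.symm.trans b1)
          obtain rfl : v = v' := iter_cancel M.hD a0.1 b0.1 1 (a2.symm.trans b2)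
          have := i.2
          have := i'.2
          have := hP.im
          have := hl v a0
          rw [show i = i' from Fin.ext (iter_inj M.hD (valid_three M.hD (hB v a0.1).1 (h0 v a0))
            (by simp; omega) (by simp; omega) (by simp) e1)]
        · rintro ⟨v, τ, i⟩ h
          have a0 := of_ind_mul_ne h
          obtain ⟨a1, a2, a3, a4⟩ := M.term_spec h7 hP (h0 v a0) (hB v a0.1).2 τ.2 (i := i)
            (by rintro h0; simp [h0] at h) rfl rfl
          dsimp only
          rw [a2, a3, a4, ind_of a0, ind_of a1, one_mul, ind_of (A := _ ∧ _)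
            ⟨valid_iter M.hD (valid_three M.hD (hB v a0.1).1 (h0 v a0)) _, by
              rw [length_iter, List.length_cons, hl v a0]⟩, one_mul]
    _ ≤ _ := by
        rw [ENNReal.tsum_prod']
        refine ENNReal.tsum_le_tsum fun b => ?_
        simp only [ENNReal.tsum_mul_left]
        refine mul_le_mul_right (le_of_eq ?_) _
        rw [tsum_eq_sum (s := range (P.mx * P.T)) fun k hk => by
          rw [ind_of_not (by simpa using hk), zero_mul]]
        exact sum_congr rfl fun k hk => by rw [ind_of (mem_range.1 hk), one_mul]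

theorem level7 [DecidableEq K] (hkey : IsKey P.m key) {n : ℕ} (hn : 29 ≤ n)
    (hy : y ∈ S) (hyn : M.lev y ≤ n) {Ω : Finset K}
    (hΩ : ∀ u v, M.lev u ≤ n + 2 → M.lev v ≤ n + 2 → key u v ∈ Ω) :
    EX Ω ((P.a : ℝ≥0∞) / P.b) (M.pot7 P key S y n) ≤
      EX Ω ((P.a : ℝ≥0∞) / P.b) (M.pot7 P key S y (n + 1)) +
      (2 ^ 29 : ℕ) * EX Ω ((P.a : ℝ≥0∞) / P.b) fun ω =>
        ∑' b, ind (b.length = n + 1) * ind (M.VO key S y b ω) := by
  rw [← ENNReal.mul_le_mul_iff_right (a := 2 ^ 16) (by simp) (by simp), ← EX_mul_left]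
  refine (EX_mono fun ω _ => M.swap7 h7 hP hn ω).trans ?_
  have EXs : ∀ (n : ℕ) (c : ℕ → ℕ) (E : ℕ → Finset K → Prop), (EX Ω ((P.a : ℝ≥0∞) / P.b) fun ω =>
      ∑ k ∈ range n, c k * ind (E k ω)) =
      ∑ k ∈ range n, c k * EX Ω ((P.a : ℝ≥0∞) / P.b) fun ω => ind (E k ω) := fun n c E => by
    induction n with
    | zero => simpa using EX_zero
    | succ n ih => simp only [sum_range_succ, EX_add, ih, EX_mul_left]
  unfold pot7
  simp only [EX_tsum, EX_mul_left, EXs]
  have hr := hP.r1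
  calc _ ≤ ∑' b, 2 ^ 16 * (ind (Valid M.D b ∧ b.length = n + 1) *
          (∑ τ ∈ range P.T, M.cc P ((succ M.D)^[P.r - 1] b) τ * EX Ω ((P.a : ℝ≥0∞) / P.b) fun ω =>
            ind (M.Ob P key S y (succ M.D ((succ M.D)^[P.r - 1] b)) τ ω)) +
          (2 ^ 29 : ℕ) * (ind (b.length = n + 1) *
            EX Ω ((P.a : ℝ≥0∞) / P.b) fun ω => ind (M.VO key S y b ω))) := by
        refine ENNReal.tsum_le_tsum fun b => ind_mul_le fun hb => ?_
        refine (M.window7 h7 hb.1 (by omega) hP hkey hy (by omega) fun u v hu hv =>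
          hΩ u v (by omega) (by omega)).trans (mul_le_mul_right ?_ _)
        rw [ind_of hb, ind_of hb.2, one_mul, one_mul, ← Function.iterate_succ_apply' (succ M.D),
          show (P.r - 1).succ = P.r by omega]
        simp only [bw, M.c_win b (by omega : P.r - 1 + 5 ≤ 2 * P.r + 3), mul_add, sum_add_distrib,
          ← mul_assoc, ← sum_mul]
        refine add_le_add_right (mul_le_mul' ?_ (EX_mono fun ω _ => ind_mono fun h =>
          ⟨hb.1, by rw [← List.length_pos_iff]; omega, h⟩)) _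
        have h1 := sum_le_card_nsmul (range P.T) (M.cc P ((succ M.D)^[P.r - 1] b)) (2 ^ 20)
          fun τ _ => (dg_lt ..).le
        have h2 := hP.T128
        rw [card_range, smul_eq_mul] at h1
        have h3 : (∑ τ ∈ range P.T, M.cc P ((succ M.D)^[P.r - 1] b) τ) * 3 ≤ 2 ^ 29 :=
          (Nat.mul_le_mul_right 3 h1).trans (by omega)
        exact_mod_cast h3
    _ ≤ _ := by
        rw [ENNReal.tsum_mul_left, ENNReal.tsum_add, ENNReal.tsum_mul_left]
        refine mul_le_mul_right (add_le_add_left (tsum_le_of_enc _ _ (succ M.D)^[P.r - 1]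
          (fun b b' h h' he => ?_) fun b h => ?_) _) _
        · exact iter_cancel M.hD (of_ind_mul_ne h).1 (of_ind_mul_ne h').1 _ he
        · have := of_ind_mul_ne h
          rw [ind_of this, ind_of (A := _ ∧ _) ⟨valid_iter M.hD this.1 _, by
            rw [length_iter, this.2]⟩]

omit h7 hP in
theorem out7 [DecidableEq K] {m : Bool} (hkey : IsKey m key) (hy : y ∈ S) (ω : Finset K) :
    ∑' b, ind (M.VO key S y b ω) ≤
      256 * ∑' κ, ind (κ ∈ ω) * ind (Exit G key S Set.univ y (ω.erase κ) κ) := by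
  have : Nonempty V := ⟨y⟩
  let E : K → V × V := fun κ => Classical.epsilon fun z => key z.1 z.2 = κ
  let dec : (Fin 64 × Bool × Bool) × K → List ℕ := fun z => Classical.epsilon fun b =>
    (Valid M.D b ∧ b ≠ []) ∧ M.pt (if z.1.2.1 then b else 3 :: b) z.1.1 =
      if z.1.2.2 then (E z.2).1 else (E z.2).2
  refine (tsum_le_of_dec _ (fun z => ind (z.2 ∈ ω) *
    ind (Exit G key S Set.univ y (ω.erase z.2) z.2)) dec fun b h => ?_).trans (le_of_eq ?_)
  · obtain ⟨hb, hb0, u, v, h1, h2, h3, h4, h5⟩ : M.VO key S y b ω := by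
      by_contra hc
      exact h (ind_of_not hc)
    obtain ⟨i, hi, s, h5⟩ : ∃ i < 64, ∃ s : Bool, M.pt (if s then b else 3 :: b) i = v := by
      rcases h5 with ⟨i, hi, e⟩ | ⟨i, hi, e⟩
      exacts [⟨i, by omega, true, e.symm⟩, ⟨i, hi, false, e.symm⟩]
    have h6 : key (E (key u v)).1 (E (key u v)).2 = key u v :=
      Classical.epsilon_spec (p := fun z : V × V => key z.1 z.2 = key u v) ⟨(u, v), rfl⟩
    obtain ⟨t, ht⟩ : ∃ t : Bool, M.pt (if s then b else 3 :: b) i =
        if t then (E (key u v)).1 else (E (key u v)).2 := by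
      have := (hkey ..).1 h6
      unfold KE at this
      rw [h5]
      split_ifs at this with hm
      · exact ⟨false, this.symm⟩
      · exact this.elim (fun h => ⟨false, h.2.symm⟩) fun h => ⟨true, h.1.symm⟩
    refine ⟨((⟨i, hi⟩, s, t), key u v), ?_, ?_⟩
    · have := Classical.epsilon_spec (p := fun b => (Valid M.D b ∧ b ≠ []) ∧
        M.pt (if s then b else 3 :: b) i = if t then (E (key u v)).1 else (E (key u v)).2)
        ⟨b, ⟨hb, hb0⟩, ht⟩
      have hv : ∀ b, Valid M.D b ∧ b ≠ [] → Valid M.D (if s then b else 3 :: b) := fun b h => by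
        split_ifs
        exacts [h.1, valid_three M.hD h.1 h.2]
      have := iter_cancel M.hD (hv _ this.1) (hv _ ⟨hb, hb0⟩) i (M.inj (valid_iter M.hD
        (hv _ this.1) i) (valid_iter M.hD (hv _ ⟨hb, hb0⟩) i) (this.2.trans ht.symm))
      cases s
      exacts [(List.cons.inj this).2, this]
    · rw [ind_of (A := _ ∈ _) h4, one_mul]
      exact ind_mono fun _ => ⟨u, v, reach_le h1 ⟨hy, trivial⟩ subset_rfl fun a ha c hc _ hk =>
        Finset.mem_erase.2 ⟨(DCT.key_ne hkey h3 ha.1 hc.1).symm, hk⟩, h2, h3, trivial, rfl⟩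
  · rw [ENNReal.tsum_prod', tsum_fintype]
    simp

theorem phiC7 (hkey : IsKey P.m key) {w : List ℕ} (hw : Valid M.D w) (h2 : 29 ≤ w.length) :
    PhiC G key (256 * 2 ^ 29) ((P.a : ℝ≥0∞) / P.b) (M.X (succ M.D w)) := by
  classical
  intro S hy Ω hΩ
  have hp := div_le_one' hP.ab
  obtain ⟨N, hN⟩ : ∃ N, ∀ v ∈ S, M.lev v ≤ N := ⟨S.sup M.lev, fun v hv => Finset.le_sup hv⟩
  set Ω' := ((M.fin (N + 2)).toFinset ×ˢ (M.fin (N + 2)).toFinset).image
    (fun z => key z.1 z.2) ∪ Ω with hΩ'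
  have hl := M.lev_X (valid_succ (six M.hD) hw)
  rw [length_succ] at hl
  have e0 : M.pt (succ M.D w) 0 = M.X (succ M.D w) := rfl
  generalize M.X (succ M.D w) = y at *
  have tel : ∀ j, w.length + j ≤ N + 1 →
      EX Ω' ((P.a : ℝ≥0∞) / P.b) (M.pot7 P key S y w.length) ≤
      EX Ω' ((P.a : ℝ≥0∞) / P.b) (M.pot7 P key S y (w.length + j)) +
      (2 ^ 29 : ℕ) * EX Ω' ((P.a : ℝ≥0∞) / P.b) fun ω =>
        ∑' b, ind (w.length < b.length ∧ b.length ≤ w.length + j) * ind (M.VO key S y b ω) := by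
    intro j hj
    induction j with
    | zero => exact le_self_add
    | succ j ih =>
      refine (ih (by omega)).trans ((add_le_add_left (M.level7 h7 hP hkey (by omega) hy (by omega)
        fun u v hu hv => Finset.mem_union_left _ (Finset.mem_image.2 ⟨(u, v), by
          simp; omega, rfl⟩)) _).trans ?_)
      rw [add_assoc, ← mul_add, ← EX_add]
      refine add_le_add_right (mul_le_mul_right (EX_mono fun ω _ => ?_) _) _
      rw [← ENNReal.tsum_add]
      refine ENNReal.tsum_le_tsum fun b => ?_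
      rw [← add_mul]
      refine mul_le_mul_left ?_ _
      by_cases h : b.length = w.length + j + 1
      · rw [ind_of h, ind_of_not (by omega), ind_of (by omega), add_zero]
      · rw [ind_of_not h, zero_add]
        exact ind_mono (by omega)
  have h0 := hN _ hy
  have h1 := tel (N + 1 - w.length) (by omega)
  have h3 : EX Ω' ((P.a : ℝ≥0∞) / P.b) (M.pot7 P key S y (w.length + (N + 1 - w.length))) = 0 := by
    rw [← EX_zero (Ω := Ω') (p := (P.a : ℝ≥0∞) / P.b)]
    refine EX_congr fun ω _ => ENNReal.tsum_eq_zero.2 fun u => le_zero_iff.1 (ind_mul_le fun hu => ?_)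
    refine (sum_eq_zero fun τ _ => ?_).le
    rw [ind_of_not, mul_zero]
    rintro ⟨j, -, h⟩
    have := hN _ (DCT.reach_mem hy (reach_le h ⟨hy, Or.inl (by rw [length_succ]; omega)⟩
      (fun _ h => ⟨h.1, trivial⟩) fun _ _ _ _ _ h => h))
    rw [M.pt_lev (valid_succ (six M.hD) hu.1), length_succ] at this
    omega
  have h4 : 1 ≤ EX Ω' ((P.a : ℝ≥0∞) / P.b) (M.pot7 P key S y w.length) := by
    rw [← EX_const (Ω := Ω') hp 1]
    refine EX_mono fun ω _ => le_trans ?_ (ENNReal.le_tsum w)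
    rw [ind_of (A := _ ∧ _) ⟨hw, rfl⟩, one_mul]
    refine le_trans ?_ (single_le_sum (fun _ _ => zero_le) (mem_range.2 hP.t0.1))
    rw [ind_of (A := M.Ob P key S y _ _ ω) ⟨0, hP.t0.2.1, e0 ▸ Reach.base⟩, mul_one]
    exact Nat.one_le_cast.2
      (hP.t0.2.2 _ (mem_lang h7 P.d 5 w hw (by have := hP.d20; omega)))
  rw [h3, zero_add] at h1
  refine h4.trans (h1.trans ?_)
  rw [mul_comm 256, Nat.cast_mul, mul_assoc]
  refine mul_le_mul_right ((EX_mono fun ω _ => (ENNReal.tsum_le_tsum fun b =>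
    ind_mul_le fun _ => le_rfl).trans (M.out7 hkey hy ω)).trans ?_) _
  rw [EX_mul_left, EX_tsum, ← EX_union hp Ω (f := NE G key S Set.univ y) ?_, ← hΩ']
  · refine mul_le_mul_right ?_ _
    unfold NE
    rw [EX_tsum, ← ENNReal.tsum_mul_left]
    exact ENNReal.tsum_le_tsum fun κ => (EX_mem_erase_le hp κ _).trans (mul_le_mul_right
      (EX_mono_set hp (Finset.erase_subset _ _) fun s t h => ind_mono (DCT.exit_mono h)) _)
  · intro κ hκ s
    refine tsum_congr fun κ' => ind_congr ⟨?_, DCT.exit_mono (Finset.subset_insert _ _)⟩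
    rintro ⟨u, v, h1, h2⟩
    exact ⟨u, v, reach_le h1 ⟨hy, trivial⟩ subset_rfl fun a ha c _ hac hk =>
      (Finset.mem_insert.1 hk).resolve_left fun e => hκ (e ▸ hΩ a a c ha.1 (Or.inl rfl) hac), h2⟩

end Chart

/-- above the certified parameter there is an infinite cluster -/
theorem D7.perc {P : D7} (hP : P.OK) {V K : Type} (T : PlaneTri V) (h7 : ∀ v, T.deg v = 7)
    {key : V → V → K} (hkey : IsKey P.m key) {U : Set K} (hU : ∀ a b, T.G.Adj a b → key a b ∈ U)
    {q : unitInterval} (hq : (P.a : ℝ) / P.b < q) : ∃ y, 0 < ProbabilityTheory.setBernoulli U q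
      {ω : Set K | {w | Relation.ReflTransGen
        (fun a b => T.G.Adj a b ∧ key a b ∈ ω) y w}.Infinite} := by
  have h7' : ∀ v, 7 ≤ T.deg v := fun v => (h7 v).ge
  obtain ⟨o⟩ := T.conn.nonempty
  obtain ⟨r, h⟩ := PlaneTri.exists_adj (fun v => (Nat.succ_pos 6).trans_le (h7' v)) o
  have hv : ∀ n, Valid (chart T h7' h).D (List.replicate n 3 ++ [0]) := fun n => by
    induction n with
    | zero => exact valid_single ((Nat.succ_pos 6).trans_le (h7' _))
    | succ n ih => exact valid_three (chart T h7' h).hD ih (by simp)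
  refine ⟨(chart T h7' h).X (succ (chart T h7' h).D (List.replicate 28 3 ++ [0])),
    dctC T.locFin hkey hU _
    (p₀ := ⟨(P.a : ℝ) / P.b, by positivity, hq.le.trans q.2.2⟩) hq (C := 256 * 2 ^ 29) ?_⟩
  rw [DCT.toE_eq, ENNReal.ofReal_div_of_pos (Nat.cast_pos.2 hP.b0), ENNReal.ofReal_natCast,
    ENNReal.ofReal_natCast]
  exact (chart T h7' h).phiC7 (fun _ => h7 _) hP hkey (hv 28) (by simp)

end Cert
end Pool.Agent.P.MP_e4ac67_pr
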