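import Pool.Agent.P.MP_e4ac67_pr.T7Def

/-! What the packed aggregation computes. -/

open scoped ENNReal
open Finset

namespace Pool.Agent.P.MP_e4ac67_pr
namespace Cert

def Rep (N : ℕ) (ψ : ℕ → ℝ≥0∞) (X : ℕ) (B : ℝ≥0∞) : Prop :=
  ∃ (F : ℕ → ℕ) (g : ℕ), X = pk 40 F (N + 1) + g * 2 ^ (40 * (N + 1)) ∧ (∀ i, F i ≤ g) ∧
    ∑ i ∈ range N, F (i + 1) * ψ i ≤ B

namespace Rep
variable {N : ℕ} {ψ : ℕ → ℝ≥0∞} {X Y : ℕ} {B C : ℝ≥0∞}

theorem zero : Rep N ψ 0 B := ⟨fun _ => 0, 0, by simp [pk], fun _ => le_rfl, by simp⟩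

theorem mono (h : Rep N ψ X B) (hB : B ≤ C) : Rep N ψ X C :=
  let ⟨F, g, h1, h2, h3⟩ := h; ⟨F, g, h1, h2, h3.trans hB⟩

theorem add (h : Rep N ψ X B) (h' : Rep N ψ Y C) : Rep N ψ (X + Y) (B + C) := by
  obtain ⟨F, g, h1, h2, h3⟩ := h
  obtain ⟨F', g', h1', h2', h3'⟩ := h'
  refine ⟨fun i => F i + F' i, g + g', ?_, fun i => add_le_add (h2 i) (h2' i), ?_⟩
  · rw [h1, h1']
    simp only [pk, add_mul, sum_add_distrib]
    exact add_add_add_comm ..
  · simp only [Nat.cast_add, add_mul, sum_add_distrib]; exact add_le_add h3 h3'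

theorem one {k y : ℕ} (hk : k < N) :
    Rep N ψ (y <<< (40 * (k + 1)) + y * (2 ^ (40 * (N + 1)) + 1)) (y * ψ k) := by
  refine ⟨fun i => (if i = k + 1 then y else 0) + if i = 0 then y else 0, y, ?_, fun i => ?_, ?_⟩
  · simp only [pk, add_mul, sum_add_distrib, ite_mul, zero_mul, sum_ite_eq', mem_range,
      Nat.shiftLeft_eq]
    rw [if_pos (by omega), if_pos (by omega)]; ring
  · dsimp only; split_ifs <;> omega
  · simp [hk]

theorem list {α : Type} {f : α → ℕ} {B : α → ℝ≥0∞} {l : List α}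
    (h : ∀ a ∈ l, Rep N ψ (f a) (B a)) : Rep N ψ (sumL f l) (l.map B).sum := by
  induction l with
  | nil => exact zero
  | cons a l ih =>
    rw [sumL, frc_eq, frc_eq, List.map_cons, List.sum_cons]
    exact (h a (List.mem_cons_self ..)).add (ih fun a ha => h a (List.mem_cons_of_mem _ ha))

theorem fin {f : ℕ → ℕ} {B : ℕ → ℝ≥0∞} {l : List ℕ} (hl : l.Nodup)
    (h : ∀ a ∈ l, Rep N ψ (f a) (B a)) : Rep N ψ (sumL f l) (∑ a ∈ l.toFinset, B a) := by
  rw [List.sum_toFinset _ hl]; exact list h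

theorem out (h : Rep N ψ X B) (hg : X >>> (40 * (N + 1)) < 2 ^ 40) :
    ∑ i ∈ range N, dg 40 X (i + 1) * ψ i ≤ B := by
  obtain ⟨F, g, h1, h2, h3⟩ := h
  rw [h1, Nat.shiftRight_eq_div_pow, Nat.add_mul_div_right _ _ (by positivity)] at hg
  refine le_trans (le_of_eq (sum_congr rfl fun i hi => ?_)) h3
  rw [h1, dg_pk (fun i _ => (h2 i).trans_lt ((Nat.le_add_left _ _).trans_lt hg)) g
    (Nat.succ_lt_succ (mem_range.1 hi))]

end Rep

theorem sum_filter_map {f g : ℕ → ℕ} (F : ℕ × ℕ → ℕ) (hF : ∀ x, F (x, 0) = 0) (l : List ℕ) :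
    sumL F ((l.filter fun a => g a != 0).map fun a => (f a, g a)) =
      sumL (fun a => F (f a, g a)) l := by
  induction l with
  | nil => rfl
  | cons a l ih =>
    by_cases h : g a = 0
    · simp [sumL, frc_eq, h, hF, ih]
    · simp [sumL, frc_eq, h, ih]

namespace D7
variable (P : D7)

def em (bits : List Bool) (A fl R : ℕ) : ℕ := dg 32 (P.mN bits A) (4 * R + fl) / 64

def RR (bits : List Bool) (A R s s' : ℕ) : ℕ :=
  R <<< idx bits P.r ||| (s / 8 ||| (s' / 8) <<< idx bits (P.r + wd A))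

theorem ctb_zero (C FP R lo hi : ℕ) : P.ctb C FP R lo hi 0 = 0 := by
  simp [ctb, frc_eq]

variable {P} {bits : List Bool}

theorem dg_V (hT : P.T ≤ 128) {A fl s s' : ℕ} (hs : s' < 128)
    (hb : ∀ τ < P.T, P.tA τ = A → P.PR bits fl τ >>> (80 * 128) = 0 ∧ ∀ s,
      dg 32 (P.PL bits fl τ) s ≤ 2 ^ 26 ∧ dg 80 (P.PR bits fl τ) s ≤ 2 ^ 26) :
    dg 80 (sumL (fun τ => dg 32 (P.PL bits fl τ) s * (P.c bits (P.r - 1) τ * P.PR bits fl τ))
      ((List.range P.T).filter (P.tA · == A))) s' = ∑ τ ∈ range P.T with P.tA τ = A,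
        P.c bits (P.r - 1) τ * (dg 32 (P.PL bits fl τ) s * dg 80 (P.PR bits fl τ) s') := by
  rw [sumL_eq, ← List.sum_toFinset _ (List.nodup_range.filter _), List.toFinset_filter,
    List.toFinset_range]
  simp only [beq_iff_eq]
  rw [← dg_pk (w := 80) (f := fun s' => ∑ τ ∈ range P.T with P.tA τ = A,
    P.c bits (P.r - 1) τ * (dg 32 (P.PL bits fl τ) s * dg 80 (P.PR bits fl τ) s')) (N := 128)
    (fun i _ => ?_) 0 hs]
  · refine congrArg (dg 80 · s') ?_
    rw [zero_mul, add_zero, pk]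
    simp only [sum_mul]
    rw [sum_comm]
    refine sum_congr rfl fun τ hτ => ?_
    have := mem_filter.1 hτ
    conv_lhs => rw [← pk_dg (hb τ (mem_range.1 this.1) this.2).1, pk, mul_sum, mul_sum]
    exact sum_congr rfl fun i _ => by ring
  · refine (sum_le_card_nsmul _ _ (2 ^ 20 * (2 ^ 26 * 2 ^ 26)) fun τ hτ => ?_).trans_lt ?_
    · have := mem_filter.1 hτ
      have h := (hb τ (mem_range.1 this.1) this.2).2
      exact Nat.mul_le_mul (dg_lt ..).le (Nat.mul_le_mul (h s).1 (h i).2)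
    · have := (card_filter_le (range P.T) (P.tA · = A)).trans_eq (card_range _)
      rw [smul_eq_mul]; omega

theorem agg_sound {ψ W : ℕ → ℝ≥0∞} {Ψ : ℕ → ℕ → ℕ → ℝ≥0∞} (hP : P.OK)
    (hψ : ∀ R lo hi mm τ, P.cmp R lo hi mm (dg 8 (fpos bits) mm) τ (dg 16 P.ty τ) = true →
      ψ (mm * P.T + τ) ≤ Ψ R lo hi)
    (hb : ∀ fl, ∀ τ < P.T, P.PR bits fl τ >>> (80 * 128) = 0 ∧ ∀ s,
      dg 32 (P.PL bits fl τ) s ≤ 2 ^ 26 ∧ dg 80 (P.PR bits fl τ) s ≤ 2 ^ 26)
    (hW : ∀ τ < P.T, P.tA τ ∈ [1, 3, 5, 7] → ∑ fl ∈ range 4, ∑ R ∈ range 8,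
      P.em bits (P.tA τ) fl R * ∑ s ∈ (P.SL (P.tA τ)).toFinset, dg 32 (P.PL bits fl τ) s *
        ∑ s' ∈ (P.SR (P.tA τ)).toFinset, dg 80 (P.PR bits fl τ) s' *
          Ψ (P.RR bits (P.tA τ) R s s') (s % 8) (P.r + wd (P.tA τ) + s' % 8) ≤ W τ)
    (hg : P.agg bits >>> (40 * (P.mx * P.T + 1)) < 2 ^ 40) :
    2 ^ 56 * ∑ k ∈ range (P.mx * P.T), dg 40 (P.agg bits) (k + 1) * ψ k ≤
      ∑ τ ∈ range P.T, P.c bits (P.r - 1) τ * W τ := by
  have key : Rep (P.mx * P.T) (fun k => 2 ^ 56 * ψ k) (P.agg bits)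
      (∑ A ∈ [1, 3, 5, 7].toFinset, ∑ fl ∈ [0, 1, 2, 3].toFinset, ∑ s ∈ (P.SL A).toFinset,
        ∑ s' ∈ (P.SR A).toFinset, ∑ R ∈ (List.range 8).toFinset,
          ((∑ τ ∈ range P.T with P.tA τ = A, P.c bits (P.r - 1) τ * (dg 32 (P.PL bits fl τ) s *
            dg 80 (P.PR bits fl τ) s')) * P.em bits A fl R : ℕ) *
          Ψ (P.RR bits A R s s') (s % 8) (P.r + wd A + s' % 8)) := by
    simp only [agg, frc_eq, mkP_eq]
    refine Rep.fin (by decide) fun A hA => Rep.fin (by decide) fun fl _ => ?_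
    obtain ⟨a1, a2, -, a4⟩ := hP.sl A hA
    rw [Bool.cond_eq_ite]
    split_ifs
    · exact Rep.zero
    refine Rep.fin a1 fun s _ => Rep.fin a2 fun s' hs' => ?_
    rw [Bool.cond_eq_ite]
    split_ifs
    · exact Rep.zero
    rw [sum_filter_map _ (fun x => by simp [ctb_zero]), sum_filter_map _ (fun x => by simp),
      dg_V hP.T128 (a4 s' hs') fun τ hτ _ => hb fl τ hτ]
    refine Rep.fin List.nodup_range fun R _ => ?_
    simp only [ctb, frc_eq, id]
    rw [Bool.cond_eq_ite]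
    split_ifs with hc
    · have hc' := hc
      simp only [cmp, Bool.and_eq_true, Nat.blt_eq] at hc'
      refine (Rep.one (by nlinarith [hc'.1.1.1.1.2, hc'.1.1.1.2])).mono ?_
      rw [← mul_assoc]
      refine mul_le_mul' ?_ (hψ _ _ _ _ _ hc)
      rw [Nat.shiftRight_eq_div_pow]
      exact_mod_cast Nat.div_mul_le_self _ _
    · exact Rep.zero
  have h1 := key.out hg
  simp only [mul_left_comm _ ((2 : ℝ≥0∞) ^ 56), ← mul_sum] at h1
  refine h1.trans ?_
  rw [List.toFinset_range, show [0, 1, 2, 3].toFinset = range 4 from rfl]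
  calc _ = ∑ A ∈ [1, 3, 5, 7].toFinset, ∑ τ ∈ range P.T with P.tA τ = A,
        P.c bits (P.r - 1) τ * ∑ fl ∈ range 4, ∑ R ∈ range 8,
          P.em bits A fl R * ∑ s ∈ (P.SL A).toFinset, dg 32 (P.PL bits fl τ) s *
            ∑ s' ∈ (P.SR A).toFinset, dg 80 (P.PR bits fl τ) s' *
              Ψ (P.RR bits A R s s') (s % 8) (P.r + wd A + s' % 8) := by
        refine sum_congr rfl fun A _ => ?_
        simp only [Nat.cast_mul, Nat.cast_sum, sum_mul, mul_sum]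
        generalize filter (P.tA · = A) (range P.T) = TA
        symm
        rw [sum_comm]
        refine sum_congr rfl fun fl _ => ?_
        rw [sum_comm]
        simp only [sum_comm (s := TA) (t := (P.SL A).toFinset)]
        rw [sum_comm]
        refine sum_congr rfl fun s _ => ?_
        simp only [sum_comm (s := TA) (t := (P.SR A).toFinset)]
        rw [sum_comm]
        exact sum_congr rfl fun s' _ => sum_congr rfl fun R _ => sum_congr rfl fun τ _ => by ring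
    _ ≤ ∑ A ∈ [1, 3, 5, 7].toFinset, ∑ τ ∈ range P.T with P.tA τ = A,
        P.c bits (P.r - 1) τ * W τ := by
        refine sum_le_sum fun A hA => sum_le_sum fun τ hτ => mul_le_mul_right ?_ _
        obtain ⟨h1, rfl⟩ := mem_filter.1 hτ
        exact hW τ (mem_range.1 h1) (List.mem_toFinset.1 hA)
    _ ≤ _ := by
        rw [← sum_fiberwise_of_maps_to (s := range P.T) (t := [1, 3, 5, 7].toFinset ∪
          (range P.T).image P.tA) (g := P.tA) fun τ h => mem_union_right _ (mem_image_of_mem _ h)]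
        exact sum_le_sum_of_subset subset_union_left

end D7
end Cert
end Pool.Agent.P.MP_e4ac67_pr
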