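import Pool.Agent.P.MP_e4ac67_pr.T7Main
import Pool.Agent.P.MP_e4ac67_pr.T7ChkB
import Pool.Agent.P.MP_e4ac67_pr.T7ChkS
import Pool.Agent.P.MP_e4ac67_pr.Cert8

/-! Upper bounds for both thresholds of the seven-regular triangulation. -/

open ProbabilityTheory

namespace Pool.Agent.P.MP_e4ac67_pr
namespace PlaneTri
variable {V : Type} (T : PlaneTri V) (h7 : ∀ v, T.deg v = 7)
include h7

/-- `m = true`: site percolation above `0.2703`; `m = false`: bond percolation above `0.2013` -/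
theorem cert7_perc {K : Type} {m : Bool} {key : V → V → K} (hkey : IsKey m key) {U : Set K}
    (hU : ∀ a b, T.G.Adj a b → key a b ∈ U) {q : unitInterval}
    (hq : (if m then 2703 / 10000 else 2013 / 10000 : ℝ) < q) : ∃ y, 0 < setBernoulli U q
      {ω : Set K | {w | Relation.ReflTransGen
        (fun a b => T.G.Adj a b ∧ key a b ∈ ω) y w}.Infinite} := by
  cases m
  · exact Cert.D7.perc Cert.QB_ok T h7 hkey hU (by simpa [Cert.QB] using hq)
  · exact Cert.D7.perc Cert.QS_ok T h7 hkey hU (by simpa [Cert.QS] using hq)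

theorem bond_pos7 {q : unitInterval} (hq : (2013 / 10000 : ℝ) < q) :
    0 < setBernoulli T.G.edgeSet q {ω : Set (Sym2 V) | ∃ v, {w | Relation.ReflTransGen
      (fun a b => T.G.Adj a b ∧ s(a, b) ∈ ω) v w}.Infinite} := by
  obtain ⟨y, h⟩ := T.cert7_perc h7 (m := false) (key := fun a b => s(a, b))
    (fun _ _ _ _ => by simp [KE]) (U := T.G.edgeSet) (fun _ _ h => h) (by simpa using hq)
  exact lt_of_lt_of_le h (MeasureTheory.measure_mono fun ω hω => ⟨y, hω⟩)

theorem site_pos7 {q : unitInterval} (hq : (2703 / 10000 : ℝ) < q) :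
    0 < setBernoulli (Set.univ : Set V) q {ω : Set V | ∃ v, {w | Relation.ReflTransGen
      (fun a b => T.G.Adj a b ∧ a ∈ ω ∧ b ∈ ω) v w}.Infinite} := by
  obtain ⟨y, h⟩ := T.cert7_perc h7 (m := true) (key := fun _ b => b)
    (fun _ _ _ _ => by simp [KE]) (U := Set.univ) (fun _ _ _ => trivial) (by simpa using hq)
  exact lt_of_lt_of_le h (MeasureTheory.measure_mono (T.site_sub y))

theorem pcBond_le7 : (pcBond T.G : ℝ) ≤ 2013 / 10000 :=
  le_of_forall_gt_imp_ge_of_dense fun q hq => (le_total q 1).elim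
    (fun h1 => show pcBond T.G ≤ ⟨q, by linarith, h1⟩ from sInf_le (T.bond_pos7 h7 hq))
    (pcBond T.G).2.2.trans

theorem pcSite_le7 : (pcSite T.G : ℝ) ≤ 2703 / 10000 :=
  le_of_forall_gt_imp_ge_of_dense fun q hq => (le_total q 1).elim
    (fun h1 => show pcSite T.G ≤ ⟨q, by linarith, h1⟩ from sInf_le (T.site_pos7 h7 hq))
    (pcSite T.G).2.2.trans

omit h7 in
theorem pcBond_reg {k : ℕ} (hk : 7 ≤ k) (h : ∀ v, T.deg v = k) :
    (pcBond T.G : ℝ) ≤ 2013 / 10000 := by
  rcases hk.eq_or_lt with rfl | hk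
  · exact T.pcBond_le7 h
  · exact (T.pcBond_le8 fun v => hk.trans_eq (h v).symm).trans (by norm_num)

omit h7 in
theorem pcSite_reg {k : ℕ} (hk : 7 ≤ k) (h : ∀ v, T.deg v = k) :
    (pcSite T.G : ℝ) ≤ 2703 / 10000 := by
  rcases hk.eq_or_lt with rfl | hk
  · exact T.pcSite_le7 h
  · exact (T.pcSite_le8 fun v => hk.trans_eq (h v).symm).trans (by norm_num)

end PlaneTri
end Pool.Agent.P.MP_e4ac67_pr
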