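import Pool.Agent.P.MP_e4ac67_pr.T7Main
import Pool.Agent.P.MP_e4ac67_pr.T7ChkS
import Pool.Agent.P.MP_e4ac67_pr.Cert8

/-! An upper bound for the site threshold of the regular triangulations. -/

open ProbabilityTheory

namespace Pool.Agent.P.MP_e4ac67_pr
namespace PlaneTri
variable {V : Type} (T : PlaneTri V)

theorem site_pos7' (h7 : ∀ v, T.deg v = 7) {q : unitInterval} (hq : (2703 / 10000 : ℝ) < q) :
    0 < setBernoulli (Set.univ : Set V) q {ω : Set V | ∃ v, {w | Relation.ReflTransGen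
      (fun a b => T.G.Adj a b ∧ a ∈ ω ∧ b ∈ ω) v w}.Infinite} := by
  obtain ⟨y, h⟩ := Cert.D7.perc Cert.QS_ok T h7 (key := fun _ b => b)
    (fun _ _ _ _ => by simp [KE, Cert.QS]) (U := Set.univ) (fun _ _ _ => trivial) (q := q)
    (by simpa [Cert.QS] using hq)
  exact lt_of_lt_of_le h (MeasureTheory.measure_mono (T.site_sub y))

theorem pcSite_reg' {k : ℕ} (hk : 7 ≤ k) (h : ∀ v, T.deg v = k) :
    (pcSite T.G : ℝ) ≤ 2703 / 10000 := by
  rcases hk.eq_or_lt with rfl | hk
  · exact le_of_forall_gt_imp_ge_of_dense fun q hq => (le_total q 1).elim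
      (fun h1 => show pcSite T.G ≤ ⟨q, by linarith, h1⟩ from sInf_le (T.site_pos7' h hq))
      (pcSite T.G).2.2.trans
  · exact (T.pcSite_le8 fun v => hk.trans_eq (h v).symm).trans (by norm_num)

end PlaneTri
end Pool.Agent.P.MP_e4ac67_pr
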