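import Pool.Agent.P.MP_e4ac67_pr.T7Geo

/-! The two kinds of exploration: sideways from an anchor, and in the middle. -/

open scoped ENNReal

namespace Pool.Agent.P.MP_e4ac67_pr
namespace Cert
open Node

def e1 (x y : ℕ) : Gate := (2 ^ x, 2 ^ y, x, y)

def pm (g : Gate) : ℕ := 2 ^ g.2.2.1 ||| 2 ^ g.2.2.2

/-- all set bits of `v` are below 48 and satisfy `f` -/
def allB (v : ℕ) (f : ℕ → Bool) : Bool :=
  decide (v < 2 ^ 48) && (List.range 48).all fun s => !v.testBit s || f s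

theorem allB_spec {v : ℕ} {f : ℕ → Bool} (h : allB v f = true) {s : ℕ} (hs : v.testBit s = true) :
    f s = true := by
  simp only [allB, Bool.and_eq_true, decide_eq_true_eq, List.all_eq_true, List.mem_range,
    Bool.or_eq_true, Bool.not_eq_true'] at h
  refine (h.2 s ?_).resolve_left (by simp [hs])
  by_contra h'
  rw [Nat.testBit_lt_two_pow (h.1.trans_le (Nat.pow_le_pow_right two_pos (by omega)))] at hs
  exact absurd hs (by simp)

def gS (m : Bool) (adj : ℕ → ℕ → Bool) (an : ℕ) (z : ℕ → Bool) (g : Gate) : Bool :=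
  if m then g.1 == 2 ^ g.2.2.1 && g.2.2.2 == g.2.2.1 && z g.2.2.1 &&
    allB g.2.1 fun s => adj g.2.2.1 s && (z s || decide (40 ≤ s))
  else adj g.2.2.1 g.2.2.2 &&
    ((g == e1 g.2.2.1 g.2.2.2 && ((g.2.2.1 == an && z g.2.2.2) ||
      (z g.2.2.1 && decide (40 ≤ g.2.2.2)))) || (g == eg g.2.2.1 g.2.2.2 && z g.2.2.1 && z g.2.2.2))

def vS (m : Bool) (adj : ℕ → ℕ → Bool) (an : ℕ) (z : ℕ → Bool) (v : ℕ) : Bool :=
  v.testBit an && allB v fun s => s == an || (m && z s && adj s an)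

def gM (m : Bool) (adj : ℕ → ℕ → Bool) (w : ℕ) (g : Gate) : Bool :=
  decide (g.2.2.1 ≤ w) &&
  if m then g.1 == 2 ^ g.2.2.1 && g.2.2.2 == g.2.2.1 &&
    allB g.2.1 fun s => (adj g.2.2.1 s && (decide (s ≤ w) || decide (40 ≤ s))) ||
      (s == 39 && g.2.2.1 == 0) || (s == 38 && g.2.2.1 == w)
  else adj g.2.2.1 g.2.2.2 &&
    ((g == e1 g.2.2.1 g.2.2.2 && decide (40 ≤ g.2.2.2)) ||
      (g == eg g.2.2.1 g.2.2.2 && decide (g.2.2.2 ≤ w)))

def ixS (tbl v : ℕ) : ℕ := v >>> 40 % 16 * 8 + dg 3 tbl (v % 256)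

def ixM (v : ℕ) : ℕ := v >>> 38 % 32

theorem ixS_mod (tbl v : ℕ) : ixS tbl v % 8 = dg 3 tbl (v % 256) := by
  have := dg_lt 3 tbl (v % 256)
  unfold ixS; omega

theorem ixS_bit {tbl v t : ℕ} (h : (ixS tbl v / 8).testBit t = true) :
    v.testBit (40 + t) = true := by
  have := dg_lt 3 tbl (v % 256)
  rw [show ixS tbl v / 8 = v >>> 40 % 2 ^ 4 by unfold ixS; omega, Nat.testBit_mod_two_pow,
    Nat.testBit_shiftRight, Bool.and_eq_true] at h
  exact h.2

theorem ixM_bit {v t : ℕ} (h : (ixM v).testBit t = true) : v.testBit (38 + t) = true := by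
  rw [show ixM v = v >>> 38 % 2 ^ 5 from rfl, Nat.testBit_mod_two_pow,
    Nat.testBit_shiftRight, Bool.and_eq_true] at h
  exact h.2

section
variable {V K : Type} {G : SimpleGraph V} {m : Bool} {key : V → V → K} {S : Finset V} {y : V}

theorem nodup_keys (hkey : IsKey m key) {ν : ℕ → V} (hν : ∀ x < 48, ∀ y < 48, ν x = ν y → x = y)
    {gs : List Gate} (h : (gs.map pm).Nodup)
    (hg : ∀ g ∈ gs, g.2.2.1 < 48 ∧ g.2.2.2 < 48 ∧ (m = true → g.2.2.2 = g.2.2.1)) :
    (gs.map fun g : Gate => key (ν g.2.2.1) (ν g.2.2.2)).Nodup := by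
  refine List.Nodup.map_on ?_ (List.Nodup.of_map _ h)
  intro g hg1 g' hg2 he
  refine List.inj_on_of_nodup_map h hg1 hg2 ?_
  obtain ⟨a1, a2, a3⟩ := hg g hg1
  obtain ⟨b1, b2, b3⟩ := hg g' hg2
  have := (hkey ..).1 he
  unfold KE at this
  unfold pm
  split_ifs at this with hm
  · rw [← a3 hm, ← b3 hm, hν _ a2 _ b2 this]
  · rcases this with ⟨e1, e2⟩ | ⟨e1, e2⟩
    · rw [hν _ a1 _ b1 e1, hν _ a2 _ b2 e2]
    · rw [hν _ a1 _ b2 e1, hν _ a2 _ b1 e2, Nat.or_comm]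

variable (G key S y) in
def Rch (F : Set V) (ω : Finset K) (v : V) : Prop := Reach G key ((S : Set V) ∩ F) y ω v

theorem Rch.mono {F F' : Set V} (h : F ⊆ F') {ω : Finset K} {v : V} (hr : Rch G key S y F ω v) :
    Rch G key S y F' ω v := by
  induction hr with
  | base => exact .base
  | step _ ha hv hk ih => exact .step ih ha ⟨hv.1, h hv.2⟩ hk

theorem Rch.ins [DecidableEq K] (hkey : IsKey m key) (hy : y ∈ S) {F : Set V} (hF : y ∈ F)
    {a b : V} (ha : a ∉ F) (hm : m = true → b = a) {ω : Finset K} {v : V}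
    (hr : Rch G key S y F (insert (key a b) ω) v) : Rch G key S y F ω v := by
  refine reach_le hr ⟨hy, hF⟩ subset_rfl fun u hu v hv _ hk =>
    (Finset.mem_insert.1 hk).resolve_left fun he => ?_
  have := (hkey ..).1 he
  unfold KE at this
  split_ifs at this with h
  · exact ha (hm h ▸ this ▸ hv.2)
  · rcases this with ⟨e, -⟩ | ⟨-, e⟩
    exacts [ha (e ▸ hu.2), ha (e ▸ hv.2)]

variable (G key S y) in
/-- an open exit into the set `O` -/
def OutS (O : Set V) (ω : Finset K) : Prop :=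
  ∃ u v, Reach G key ((S : Set V) ∩ Set.univ) y ω u ∧ G.Adj u v ∧ v ∉ S ∧ key u v ∈ ω ∧ v ∈ O

theorem Rch.step {F O : Set V} {ω : Finset K} {u v : V} (hr : Rch G key S y F ω u)
    (ha : G.Adj u v) (hv : v ∈ F) (hO : v ∈ O) (hk : key u v ∈ ω) :
    Rch G key S y F ω v ∨ OutS G key S y O ω := by
  by_cases h : v ∈ S
  · exact Or.inl (Reach.step hr ha ⟨h, hv⟩ hk)
  · exact Or.inr ⟨u, v, hr.mono (Set.subset_univ F), ha, h, hk, hO⟩

variable (G m key S y) in
/-- a neighbour of the anchor in the zone is reached, and (bond) its edge is open -/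
def Pend (ν : ℕ → V) (an : ℕ) (z : ℕ → Bool) (F : Set V) (ω : Finset K) : Prop :=
  ∃ s, z s = true ∧ G.Adj (ν s) (ν an) ∧ Rch G key S y F ω (ν s) ∧
    (m = false → key (ν s) (ν an) ∈ ω)

theorem Pend.ins [DecidableEq K] (hkey : IsKey m key) (hy : y ∈ S) {ν : ℕ → V} {an : ℕ}
    {z : ℕ → Bool} {F : Set V} (hF : y ∈ F) {a b : V} (ha : a ∉ F) (hm : m = true → b = a)
    (hz : ∀ s, z s = true → ν s ≠ a ∧ ν s ≠ b) {ω : Finset K}
    (h : Pend G m key S y ν an z F (insert (key a b) ω)) : Pend G m key S y ν an z F ω := by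
  obtain ⟨s, h1, h2, h3, h4⟩ := h
  refine ⟨s, h1, h2, h3.ins hkey hy hF ha hm, fun h => (Finset.mem_insert.1 (h4 h)).resolve_left
    fun he => ?_⟩
  have := (hkey ..).1 he
  simp only [KE, h, Bool.false_eq_true, if_false] at this
  rcases this with ⟨e, -⟩ | ⟨e, -⟩
  exacts [(hz s h1).1 e, (hz s h1).2 e]

theorem key_site (hkey : IsKey m key) (hm : m = true) (a b c : V) : key a c = key b c :=
  (hkey ..).2 (by simp [KE, hm])

theorem key_bond (hkey : IsKey m key) (hm : ¬m = true) (a b : V) : key a b = key b a :=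
  (hkey ..).2 (by simp [KE, hm])

theorem side_sound [DecidableEq K] (hkey : IsKey m key) (hy : y ∈ S) {a b : ℕ} (hab : a ≤ b)
    (hb : 0 < b) {ν : ℕ → V} (hν : ∀ x < 48, ∀ y < 48, ν x = ν y → x = y) {adj : ℕ → ℕ → Bool}
    (hadj : ∀ x t, adj x t = true → x < 48 ∧ t < 48 ∧ G.Adj (ν x) (ν t)) {an : ℕ} {z : ℕ → Bool}
    (hz : ∀ x, z x = true → x < 40 ∧ x ≠ an) (han : an < 40) {gs : List Gate} {vis : ℕ}
    (hg : gs.all (gS m adj an z) = true) (hnd : (gs.map pm).Nodup) (hv : vS m adj an z vis = true)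
    {Ω : Finset K} (hΩ : ∀ s t, key (ν s) (ν t) ∈ Ω) {F O : Set V} {F' : ℕ → Set V}
    (h1 : ∀ x, z x = true → ν x ∈ F ∧ ν x ∈ O) (h2 : ∀ d, F' d ⊆ F ∧ y ∈ F' d) {tbl : ℕ}
    (h3 : ∀ v x, z x = true ∨ x = an → v.testBit x = true → ν x ∉ F' (dg 3 tbl (v % 256)))
    {Rest : Set V → Finset K → Prop} (hm : ∀ d ω, Rest (F' d) ω → Rest F ω)
    (hm' : ∀ d ω ω', ω ⊆ ω' → Rest (F' d) ω → Rest (F' d) ω')
    (hi : ∀ d s t ω, ν s ∉ F' d → (m = true → t = s) → (z s = true ∨ s = an) →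
      (z t = true ∨ t = an ∨ 40 ≤ t) → Rest (F' d) (insert (key (ν s) (ν t)) ω) → Rest (F' d) ω)
    (eps f w : ℕ) :
    (EX Ω ((a : ℝ≥0∞) / b) fun ω => val (xp a b eps (ixS tbl) f vis gs w) fun s =>
      ind (Rest (F' (s % 8)) ω ∨ ∃ t, (s / 8).testBit t = true ∧
        Rch G key S y (F' (s % 8)) ω (ν (40 + t)))) ≤
      w * EX Ω ((a : ℝ≥0∞) / b) fun ω =>
        ind (Rest F ω ∨ Pend G m key S y ν an z F ω ∨ OutS G key S y O ω) := by
  have hg' : ∀ g ∈ gs, if m = true then g.1 = 2 ^ g.2.2.1 ∧ g.2.2.2 = g.2.2.1 ∧ z g.2.2.1 = true ∧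
      ∀ s, g.2.1.testBit s = true → adj g.2.2.1 s = true ∧ (z s = true ∨ 40 ≤ s)
      else adj g.2.2.1 g.2.2.2 = true ∧ ((g = e1 g.2.2.1 g.2.2.2 ∧ ((g.2.2.1 = an ∧
        z g.2.2.2 = true) ∨ (z g.2.2.1 = true ∧ 40 ≤ g.2.2.2))) ∨
        (g = eg g.2.2.1 g.2.2.2 ∧ z g.2.2.1 = true ∧ z g.2.2.2 = true)) := fun g h => by
    have := List.all_eq_true.1 hg g h
    unfold gS at this
    split_ifs at this ⊢
    · simp only [Bool.and_eq_true, beq_iff_eq] at this
      exact ⟨this.1.1.1, this.1.1.2, this.1.2, fun s hs => by simpa using allB_spec this.2 hs⟩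
    · simpa [and_assoc] using this
  rw [vS, Bool.and_eq_true] at hv
  have hR : ∀ ω x, x ≠ an → ((if x = an then Pend G m key S y ν an z F ω
      else Rch G key S y F ω (ν x)) ↔ Rch G key S y F ω (ν x)) := fun ω x h => by rw [if_neg h]
  refine xp_sound hab hb (fun g : Gate => key (ν g.2.2.1) (ν g.2.2.2)) _ f vis gs w Ω
    (fun ω x => (if x = an then Pend G m key S y ν an z F ω else Rch G key S y F ω (ν x)) ∨
      Rest F ω ∨ OutS G key S y O ω) _ (nodup_keys hkey hν hnd fun g h => ?_)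
    (fun _ _ => hΩ _ _) ?_ ?_ ?_ ?_
  · have := hg' g h
    split_ifs at this with hm
    · have := hz _ this.2.2.1
      exact ⟨by omega, by omega, fun _ => by omega⟩
    · exact ⟨(hadj _ _ this.1).1, (hadj _ _ this.1).2.1, fun h => absurd h hm⟩
  · intro g hg1 ω hω x t hx ht hr
    refine hr.elim (fun hr => ?_) Or.inr
    have st : z x = true → t ≠ an → G.Adj (ν t) (ν x) → key (ν t) (ν x) ∈ ω →
        (if x = an then Pend G m key S y ν an z F ω else Rch G key S y F ω (ν x)) ∨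
          Rest F ω ∨ OutS G key S y O ω := fun hx ht ha hk => by
      rw [hR _ _ (hz _ hx).2]
      exact (((hR _ _ ht).1 hr).step ha (h1 x hx).1 (h1 x hx).2 hk).imp_right Or.inr
    have := hg' g hg1
    split_ifs at this with hm
    · obtain ⟨a1, a2, a3, a4⟩ := this
      rw [a1, Nat.testBit_two_pow, decide_eq_true_eq] at hx
      subst hx
      obtain ⟨a5, a6⟩ := a4 t ht
      rw [a2] at hω
      exact st a3 (a6.elim (fun h => (hz _ h).2) (by omega)) (hadj _ _ a5).2.2.symm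
        (key_site hkey hm _ _ _ ▸ hω)
    · obtain ⟨a1, ⟨a2, a3⟩ | ⟨a2, a3, a4⟩⟩ := this
      · rw [a2] at hx ht
        simp only [e1, Nat.testBit_two_pow, decide_eq_true_eq] at hx ht
        subst hx ht
        rw [key_bond hkey hm] at hω
        rcases a3 with ⟨a3, a4⟩ | ⟨a3, a4⟩
        · refine Or.inl ?_
          rw [if_pos a3, ← a3]
          exact ⟨_, a4, (hadj _ _ a1).2.2.symm, (hR _ _ (hz _ a4).2).1 hr, fun _ => hω⟩
        · exact st a3 (by omega) (hadj _ _ a1).2.2.symm hω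
      · rw [a2] at hx ht
        simp only [eg, Nat.testBit_or, Nat.testBit_two_pow, Bool.or_eq_true,
          decide_eq_true_eq] at hx ht
        rcases hx with rfl | rfl <;> rcases ht with rfl | rfl
        · exact Or.inl hr
        · exact st a3 (hz _ a4).2 (hadj _ _ a1).2.2.symm (key_bond hkey hm _ _ ▸ hω)
        · exact st a4 (hz _ a3).2 (hadj _ _ a1).2.2 hω
        · exact Or.inl hr
  · rintro ω x hx (hr | hr | hr)
    · by_cases h : x = an
      · rw [if_pos h] at hr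
        exact Or.inr (Or.inl hr)
      · have := allB_spec hv.2 hx
        simp only [Bool.or_eq_true, beq_iff_eq, h, false_or, Bool.and_eq_true] at this
        exact Or.inr (Or.inl ⟨x, this.1.2, (hadj _ _ this.2).2.2, (hR _ _ h).1 hr,
          fun h => by simp [h] at this⟩)
    · exact Or.inl hr
    · exact Or.inr (Or.inr hr)
  · intro ω v hs
    refine ind_mono ?_
    rintro (h | ⟨t, ht, h⟩)
    · exact ⟨an, hs _ hv.1, Or.inr (Or.inl (hm _ _ h))⟩
    · exact ⟨40 + t, ixS_bit ht, Or.inl ((hR _ _ (by omega)).2 (h.mono (h2 _).1))⟩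
  · intro g hg1 v x hx hxv ω
    obtain ⟨t, e, a1, a2, a3⟩ : ∃ t, key (ν g.2.2.1) (ν g.2.2.2) = key (ν x) (ν t) ∧
        (m = true → t = x) ∧ (z x = true ∨ x = an) ∧ (z t = true ∨ t = an ∨ 40 ≤ t) := by
      have := hg' g hg1
      split_ifs at this with hm
      · obtain ⟨a1, a2, a3, -⟩ := this
        rw [a1, Nat.testBit_two_pow, decide_eq_true_eq] at hx
        subst hx
        exact ⟨_, rfl, fun _ => a2, Or.inl a3, Or.inl (a2 ▸ a3)⟩
      · obtain ⟨-, ⟨a2, a3⟩ | ⟨a2, a3, a4⟩⟩ := this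
        · rw [a2] at hx
          simp only [e1, Nat.testBit_two_pow, decide_eq_true_eq] at hx
          subst hx
          exact ⟨_, rfl, fun h => absurd h hm, by tauto, by tauto⟩
        · rw [a2] at hx
          simp only [eg, Nat.testBit_or, Nat.testBit_two_pow, Bool.or_eq_true,
            decide_eq_true_eq] at hx
          rcases hx with rfl | rfl
          · exact ⟨_, rfl, fun h => absurd h hm, Or.inl a3, Or.inl a4⟩
          · exact ⟨_, key_bond hkey hm _ _, fun h => absurd h hm, Or.inl a4, Or.inl a3⟩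
    have h4 := h3 v x a2 hxv
    rw [e, ixS_mod]
    exact ind_congr (or_congr ⟨hi _ _ _ _ h4 a1 a2 a3, hm' _ _ _ (Finset.subset_insert _ _)⟩
      (exists_congr fun _ => and_congr_right fun _ =>
        ⟨fun h => h.ins hkey hy (h2 _).2 h4 fun h => by rw [a1 h],
          DCT.reach_mono (Finset.subset_insert _ _)⟩))

theorem mid_sound [DecidableEq K] (hkey : IsKey m key) (hy : y ∈ S) {a b : ℕ} (hab : a ≤ b)
    (hb : 0 < b) {ν : ℕ → V} (hν : ∀ x < 48, ∀ y < 48, ν x = ν y → x = y) {adj : ℕ → ℕ → Bool}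
    (hadj : ∀ x t, adj x t = true → x < 48 ∧ t < 48 ∧ G.Adj (ν x) (ν t)) {w A : ℕ} (hw : w < 8)
    (hA : A.testBit 0 = true ∧ A.testBit w = true ∧ ∀ j, A.testBit j = true → j ≤ w)
    {gs : List Gate} (hg : gs.all (gM m adj w) = true) (hnd : (gs.map pm).Nodup)
    {Ω : Finset K} (hΩ : ∀ s t, key (ν s) (ν t) ∈ Ω) {F F' O : Set V}
    (h1 : ∀ x ≤ w, ν x ∈ F ∧ ν x ∈ O ∧ ν x ∉ F') (h2 : F' ⊆ F ∧ y ∈ F')
    {νL νR : ℕ → V} {aL aR : ℕ} {zL zR : ℕ → Bool} (eL : νL aL = ν 0) (eR : νR aR = ν w)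
    (hL : ∀ s t, zL s = true → t ≤ w ∨ 40 ≤ t → νL s ≠ ν t)
    (hR : ∀ s t, zR s = true → t ≤ w ∨ 40 ≤ t → νR s ≠ ν t) (eps f W : ℕ) :
    (EX Ω ((a : ℝ≥0∞) / b) fun ω =>
      val (xp a b eps ixM f (A ||| if m then 0 else 3 * 2 ^ 38) gs W) fun s =>
        ind ((∃ t, (s / 4).testBit t = true ∧ Rch G key S y F' ω (ν (40 + t))) ∨
          (s.testBit 1 = true ∧ Pend G m key S y νL aL zL F' ω) ∨
          (s.testBit 0 = true ∧ Pend G m key S y νR aR zR F' ω))) ≤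
      W * EX Ω ((a : ℝ≥0∞) / b) fun ω =>
        ind ((∃ j, A.testBit j = true ∧ Rch G key S y F ω (ν j)) ∨ OutS G key S y O ω) := by
  have hg' : ∀ g ∈ gs, g.2.2.1 ≤ w ∧ if m = true then g.1 = 2 ^ g.2.2.1 ∧ g.2.2.2 = g.2.2.1 ∧
      ∀ s, g.2.1.testBit s = true → ((adj g.2.2.1 s = true ∧ (s ≤ w ∨ 40 ≤ s)) ∨
        (s = 39 ∧ g.2.2.1 = 0)) ∨ (s = 38 ∧ g.2.2.1 = w)
      else adj g.2.2.1 g.2.2.2 = true ∧ ((g = e1 g.2.2.1 g.2.2.2 ∧ 40 ≤ g.2.2.2) ∨
        (g = eg g.2.2.1 g.2.2.2 ∧ g.2.2.2 ≤ w)) := fun g h => by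
    have := List.all_eq_true.1 hg g h
    rw [gM, Bool.and_eq_true, decide_eq_true_eq] at this
    refine ⟨this.1, ?_⟩
    have h' := this.2
    split_ifs at h' ⊢
    · simp only [Bool.and_eq_true, beq_iff_eq] at h'
      exact ⟨h'.1.1, h'.1.2, fun s hs => by simpa using allB_spec h'.2 hs⟩
    · simpa using h'
  have pe : ∀ (μ : ℕ → V) (an : ℕ) (z : ℕ → Bool) (x : ℕ) (ω : Finset K), x ≤ w → μ an = ν x →
      Pend G m key S y μ an z F' ω → (m = true → key (ν x) (ν x) ∈ ω) →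
      Rch G key S y F ω (ν x) ∨ OutS G key S y O ω := by
    rintro μ an z x ω hx e ⟨s, -, b2, b3, b4⟩ hk
    rw [e] at b2 b4
    refine (b3.mono h2.1).step b2 (h1 x hx).1 (h1 x hx).2.1 ?_
    by_cases hm : m = true
    · exact key_site hkey hm _ _ _ ▸ hk hm
    · exact b4 (by simpa using hm)
  have hE : ∀ ω x, x ≤ w ∨ 40 ≤ x → ((if x = 39 then Pend G m key S y νL aL zL F' ω else
      if x = 38 then Pend G m key S y νR aR zR F' ω else Rch G key S y F ω (ν x)) ↔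
      Rch G key S y F ω (ν x)) := fun ω x h => by rw [if_neg (by omega), if_neg (by omega)]
  refine xp_sound hab hb (fun g : Gate => key (ν g.2.2.1) (ν g.2.2.2)) _ f _ gs W Ω
    (fun ω x => (if x = 39 then Pend G m key S y νL aL zL F' ω else
      if x = 38 then Pend G m key S y νR aR zR F' ω else Rch G key S y F ω (ν x)) ∨
      OutS G key S y O ω) _ (nodup_keys hkey hν hnd fun g h => ?_) (fun _ _ => hΩ _ _) ?_ ?_ ?_ ?_
  · obtain ⟨a0, this⟩ := hg' g h
    split_ifs at this with hm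
    · exact ⟨by omega, by omega, fun _ => this.2.1⟩
    · exact ⟨by omega, (hadj _ _ this.1).2.1, fun h => absurd h hm⟩
  · intro g hg1 ω hω x t hx ht hr
    refine hr.elim (fun hr => ?_) Or.inr
    have st : x ≤ w → t ≤ w ∨ 40 ≤ t → G.Adj (ν t) (ν x) → key (ν t) (ν x) ∈ ω →
        (if x = 39 then Pend G m key S y νL aL zL F' ω else
          if x = 38 then Pend G m key S y νR aR zR F' ω else Rch G key S y F ω (ν x)) ∨
          OutS G key S y O ω := fun hx ht ha hk => by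
      rw [hE _ _ (Or.inl hx)]
      exact ((hE _ _ ht).1 hr).step ha (h1 x hx).1 (h1 x hx).2.1 hk
    obtain ⟨a0, this⟩ := hg' g hg1
    split_ifs at this with hm
    · obtain ⟨a1, a2, a4⟩ := this
      rw [a1, Nat.testBit_two_pow, decide_eq_true_eq] at hx
      subst hx
      rw [a2] at hω
      rcases a4 t ht with (⟨a5, a6⟩ | ⟨rfl, a6⟩) | ⟨rfl, a6⟩
      · exact st a0 a6 (hadj _ _ a5).2.2.symm (key_site hkey hm _ _ _ ▸ hω)
      · rw [hE _ _ (Or.inl a0)]
        exact pe _ _ _ _ _ a0 (a6 ▸ eL) hr fun _ => hω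
      · rw [hE _ _ (Or.inl a0)]
        exact pe _ _ _ _ _ a0 (a6 ▸ eR) hr fun _ => hω
    · obtain ⟨a1, ⟨a2, a3⟩ | ⟨a2, a3⟩⟩ := this
      · rw [a2] at hx ht
        simp only [e1, Nat.testBit_two_pow, decide_eq_true_eq] at hx ht
        subst hx ht
        exact st a0 (Or.inr a3) (hadj _ _ a1).2.2.symm (key_bond hkey hm _ _ ▸ hω)
      · rw [a2] at hx ht
        simp only [eg, Nat.testBit_or, Nat.testBit_two_pow, Bool.or_eq_true,
          decide_eq_true_eq] at hx ht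
        rcases hx with rfl | rfl <;> rcases ht with rfl | rfl
        · exact Or.inl hr
        · exact st a0 (Or.inl a3) (hadj _ _ a1).2.2.symm (key_bond hkey hm _ _ ▸ hω)
        · exact st a3 (Or.inl a0) (hadj _ _ a1).2.2 hω
        · exact Or.inl hr
  · intro ω x hx hr
    refine hr.elim (fun hr => ?_) Or.inr
    rw [Nat.testBit_or, Bool.or_eq_true] at hx
    rcases hx with hx | hx
    · exact Or.inl ⟨x, hx, (hE _ _ (Or.inl (hA.2.2 x hx))).1 hr⟩
    · split_ifs at hx with hm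
      · simp at hx
      obtain rfl | rfl : x = 39 ∨ x = 38 := by
        rw [show 3 * 2 ^ 38 = 2 ^ 39 ||| 2 ^ 38 from rfl] at hx
        simp only [Nat.testBit_or, Nat.testBit_two_pow, Bool.or_eq_true, decide_eq_true_eq] at hx
        omega
      · exact (pe _ _ _ _ _ (Nat.zero_le w) eL hr fun h => absurd h hm).imp_left
          fun h => ⟨0, hA.1, h⟩
      · exact (pe _ _ _ _ _ le_rfl eR hr fun h => absurd h hm).imp_left fun h => ⟨w, hA.2.1, h⟩
  · intro ω v _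
    refine ind_mono ?_
    rintro (⟨t, ht, h⟩ | ⟨ht, h⟩ | ⟨ht, h⟩)
    · rw [show (4 : ℕ) = 2 ^ 2 from rfl, Nat.testBit_div_two_pow] at ht
      exact ⟨40 + t, by rw [← ixM_bit ht]; congr 1; omega,
        Or.inl ((hE _ _ (by omega)).2 (h.mono h2.1))⟩
    · exact ⟨39, ixM_bit ht, Or.inl h⟩
    · exact ⟨38, ixM_bit ht, Or.inl h⟩
  · intro g hg1 v x _ _ ω
    obtain ⟨a0, this⟩ := hg' g hg1
    have a1 : (m = true → ν g.2.2.2 = ν g.2.2.1) ∧ (g.2.2.2 ≤ w ∨ 40 ≤ g.2.2.2) := by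
      split_ifs at this with hm
      · exact ⟨fun _ => by rw [this.2.1], by omega⟩
      · exact ⟨fun h => absurd h hm, by omega⟩
    have pm : ∀ (μ : ℕ → V) (an : ℕ) (z : ℕ → Bool),
        (∀ s t, z s = true → t ≤ w ∨ 40 ≤ t → μ s ≠ ν t) → (Pend G m key S y μ an z F'
        (insert (key (ν g.2.2.1) (ν g.2.2.2)) ω) ↔ Pend G m key S y μ an z F' ω) :=
      fun μ an z h => ⟨Pend.ins hkey hy h2.2 (h1 _ a0).2.2 a1.1 fun s hs =>
        ⟨h _ _ hs (Or.inl a0), h _ _ hs a1.2⟩, fun ⟨s, b1, b2, b3, b4⟩ => ⟨s, b1, b2,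
          DCT.reach_mono (Finset.subset_insert _ _) b3, fun h => Finset.mem_insert_of_mem (b4 h)⟩⟩
    rw [pm _ _ _ hL, pm _ _ _ hR]
    exact ind_congr (or_congr_left (exists_congr fun _ => and_congr_right fun _ =>
      ⟨fun h => h.ins hkey hy h2.2 (h1 _ a0).2.2 a1.1, DCT.reach_mono (Finset.subset_insert _ _)⟩))

end
end Cert
end Pool.Agent.P.MP_e4ac67_pr
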