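import Pool.Agent.P.MP_e4ac67_pr.T7Num

/-! The three explorations of one window, chained. -/

open scoped ENNReal
open Finset

namespace Pool.Agent.P.MP_e4ac67_pr
namespace Cert
open Node

section
variable {K : Type} {Ω : Finset K} {p O : ℝ≥0∞} {L : Finset ℕ} {m : ℕ → ℕ}
  {E E' : ℕ → Finset K → Prop} {Gd Gd' : Finset K → Prop}

variable (Ω p O L m E Gd) in
/-- one stage: the masses `m` of the events `E s` are covered by `Gd`, up to the error `O` -/
def St : Prop := ∀ c : ℝ≥0∞, ∑ s ∈ L, m s * ((EX Ω p fun ω => ind (E s ω)) + c) ≤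
  2 ^ 24 * ((EX Ω p fun ω => ind (Gd ω)) + (c + O))

theorem St.mono (h : St Ω p O L m E Gd) (hE : ∀ s ∈ L, ∀ ω, E' s ω → E s ω)
    (hG : ∀ ω, Gd ω → Gd' ω) : St Ω p O L m E' Gd' := fun c =>
  ((sum_le_sum fun s hs => mul_le_mul_right (add_le_add_left
    (EX_mono fun ω _ => ind_mono (hE s hs ω)) _) _).trans (h c)).trans
    (mul_le_mul_right (add_le_add_left (EX_mono fun ω _ => ind_mono (hG ω)) _) _)

theorem st_unit {k : ℕ} (hm : ∀ s, m s = if s = k then 2 ^ 24 else 0) (h : ∀ ω, E k ω → Gd ω) :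
    St Ω p O L m E Gd := fun c => by
  simp only [hm, Nat.cast_ite, ite_mul, Nat.cast_zero, zero_mul, sum_ite_eq', Nat.cast_pow,
    Nat.cast_ofNat]
  split_ifs
  · exact mul_le_mul_right (add_le_add (EX_mono fun ω _ => ind_mono (h ω)) le_self_add) _
  · exact zero_le

theorem val_one (l : List ℕ) : val l (fun _ => 1) = l.sum := by
  induction l with
  | nil => simp [val]
  | cons x l ih => simp [val, ih]

theorem st_of {l : List ℕ} {Out : Finset K → Prop} (hl : l.sum ≤ 2 ^ 30)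
    (hm : ∀ s, m s * 64 ≤ l.getD s 0) (h : (EX Ω p fun ω => val l fun s => ind (E s ω)) ≤
      (2 ^ 30 : ℕ) * EX Ω p fun ω => ind (Gd ω ∨ Out ω)) :
    St Ω p (EX Ω p fun ω => ind (Out ω)) L m E Gd := fun c => by
  rw [← ENNReal.mul_le_mul_iff_right (a := 64) (by simp) (by simp), ← mul_assoc, mul_sum]
  calc _ ≤ ∑ s ∈ L, (l.getD s 0 : ℝ≥0∞) * ((EX Ω p fun ω => ind (E s ω)) + c) :=
        sum_le_sum fun s _ => by
          rw [← mul_assoc, mul_comm 64]
          exact mul_le_mul_left (by exact_mod_cast hm s) _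
    _ ≤ (EX Ω p fun ω => val l fun s => ind (E s ω)) + (l.sum : ℕ) * c := by
        simp only [mul_add, sum_add_distrib, ← sum_mul]
        refine add_le_add ((ENNReal.sum_le_tsum _).trans ?_) (mul_le_mul_left ?_ _)
        · simp only [← EX_mul_left]
          rw [← EX_tsum]
          exact EX_mono fun ω _ => tsum_le_val ..
        · rw [← val_one]
          refine le_trans ?_ (tsum_le_val ..)
          simpa only [mul_one] using ENNReal.sum_le_tsum _
    _ ≤ (2 ^ 30 : ℕ) * ((EX Ω p fun ω => ind (Gd ω)) + EX Ω p fun ω => ind (Out ω)) +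
          (2 ^ 30 : ℕ) * c := by
        refine add_le_add (h.trans (mul_le_mul_right ?_ _)) (mul_le_mul_left (Nat.cast_le.2 hl) _)
        rw [← EX_add]
        exact EX_mono fun ω _ => ind_or_le ..
    _ = _ := by push_cast; ring

end

theorem dg_unit {w x : ℕ} (hx : x < 2 ^ w) (k s : ℕ) :
    dg w (x * 2 ^ (w * k)) s = if s = k then x else 0 := by
  rw [← dg_pk (w := w) (f := fun i => if i = k then x else 0) (N := k + s + 1)
    (fun i _ => by split_ifs; exacts [hx, by positivity]) 0 (by omega)]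
  refine congrArg (dg w · s) ?_
  simp only [pk, ite_mul, zero_mul, sum_ite_eq', mem_range, add_zero]
  rw [if_pos (by omega)]

theorem sum_32 (f : ℕ → ℝ≥0∞) :
    ∑ fl ∈ range 4, ∑ R ∈ range 8, f (4 * R + fl) = ∑ s ∈ range 32, f s := by
  simp only [sum_range_succ, sum_range_zero, Nat.reduceMul, Nat.reduceAdd, zero_add, add_zero]
  ring

theorem wd_spec {A : ℕ} (hA : A ∈ [1, 3, 5, 7]) :
    A.testBit 0 = true ∧ A.testBit (wd A) = true ∧ ∀ j, A.testBit j = true → j ≤ wd A := by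
  have h : A.testBit 0 = true ∧ A.testBit (wd A) = true ∧ A < 2 ^ (wd A + 1) := by
    revert A; decide
  refine ⟨h.1, h.2.1, fun j hj => not_lt.1 fun h' => ?_⟩
  rw [Nat.testBit_lt_two_pow (h.2.2.trans_le (Nat.pow_le_pow_right two_pos h'))] at hj
  exact absurd hj (by simp)

theorem wd_le (A : ℕ) : wd A ≤ 2 := by unfold wd; split_ifs <;> omega

theorem cnt_add_le (β : ℕ → Bool) (x w : ℕ) : cnt β (x + w) ≤ cnt β x + w := by
  induction w with
  | zero => exact le_rfl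
  | succ w ih => rw [← add_assoc, cnt]; split_ifs <;> omega

namespace D7
variable {P : D7}

theorem tree_dg (hab : P.a ≤ P.b) (ix : ℕ → ℕ) (eps vis : ℕ) (gs : List Gate) (s : ℕ) :
    dg 32 (P.tree ix eps vis gs) s = (xp P.a P.b eps ix 64 vis gs (2 ^ 30)).getD s 0 := by
  simp only [tree, nrmG_eq, frc_eq, xN_eq]
  exact dig_pack ((sum_xp hab ..).trans_lt (by norm_num)) s

theorem chk_num {w X an tbl eps : ℕ} {z : ℕ → Bool} {bits : List Bool} {xs js : List ℕ}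
    (h : P.chkS w X an tbl eps z bits xs js = true) :
    X >>> (w * 128) = 0 ∧ ∀ s, dg w X s ≤ 2 ^ 26 := by
  simp only [chkS, Bool.or_eq_true, Bool.and_eq_true, frc_eq] at h
  rcases h with h | h
  · obtain rfl := Nat.eq_of_beq_eq_true h
    simp [dg]
  · refine ⟨(leD_spec h.2).1, fun s => ?_⟩
    have h1 := ((leD_spec h.2).2 s).trans_lt (dg_lt ..)
    omega

end D7

namespace Chart
variable {V K : Type} {G : SimpleGraph V} (M : Chart G) (P : D7) (key : V → V → K) (S : Finset V)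
  (y : V)

/-- the levels up to that of `u`, and the next level without an interval -/
def Reg0 (u : List ℕ) (τ : ℕ) : Set V :=
  {v | M.lev v ≤ u.length ∨ (M.lev v = u.length + 1 ∧
    ∀ j, P.j0 τ ≤ j → j ≤ P.j1 τ → v ≠ M.pt (M.off u) j)}

def Ob (u : List ℕ) (τ : ℕ) (ω : Finset K) : Prop :=
  ∃ j, (P.tA τ).testBit j = true ∧ Rch G key S y (M.Reg0 P u τ) ω (M.pt u j)

def Rg (b : List ℕ) (lo hi : ℕ) (Q : ℕ → Prop) : Set V :=
  {v | (M.lev v ≤ b.length ∧ ∀ x, lo ≤ x → x ≤ hi → v ≠ M.pt b x) ∨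
    ∃ z < 64, Q z ∧ v = M.pt (3 :: b) z}

def Pa (b : List ℕ) (R : ℕ) (F : Set V) (ω : Finset K) : Prop :=
  ∃ t, R.testBit t = true ∧ Rch G key S y F ω (M.pt b.tail t)

def OO (b : List ℕ) : Set V := {v | (∃ x < 16, v = M.pt b x) ∨ ∃ z < 64, v = M.pt (3 :: b) z}

noncomputable def gx (b : List ℕ) (x : ℕ) : ℕ := 3 * x - cnt (bt M.D b) x

theorem Rg_mono {b : List ℕ} {lo hi lo' hi' : ℕ} {Q Q' : ℕ → Prop} (h1 : lo' ≤ lo) (h2 : hi ≤ hi')
    (h : ∀ z, Q' z → Q z) : M.Rg b lo' hi' Q' ⊆ M.Rg b lo hi Q := fun _ hv =>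
  hv.imp (fun h => ⟨h.1, fun x a c => h.2 x (h1.trans a) (c.trans h2)⟩)
    fun ⟨z, a, c, d⟩ => ⟨z, a, h z c, d⟩

theorem gx_le (b : List ℕ) (x w : ℕ) : M.gx b x ≤ M.gx b (x + w) ∧ M.gx b x ≤ 3 * x := by
  have := cnt_add_le (bt M.D b) x w
  unfold gx; omega

theorem gg_win (b : List ℕ) {L x : ℕ} (h : x ≤ L) : gg (win (bt M.D b) 0 L) x = M.gx b x := by
  rw [gg, idx_win0 _ h, gx]

theorem win_sub (b : List ℕ) {N i n : ℕ} (h : i + n ≤ N) :
    ((win (bt M.D b) 0 N).drop i).take n = win (bt M.D ((succ M.D)^[i] b)) 0 n := by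
  rw [take_drop_win _ h, bt_shift, win_shift, add_zero]

variable {P key S y}

theorem Pa_mono {b : List ℕ} {R : ℕ} {F F' : Set V} (h : F ⊆ F') {ω : Finset K}
    (hr : M.Pa key S y b R F ω) : M.Pa key S y b R F' ω :=
  hr.imp fun _ h' => ⟨h'.1, h'.2.mono h⟩

theorem Pa_or {b : List ℕ} {R R' c : ℕ} {F : Set V} {ω : Finset K}
    (hr : M.Pa key S y b (R ||| R' <<< c) F ω) : M.Pa key S y b R F ω ∨
      ∃ t, R'.testBit t = true ∧ Rch G key S y F ω (M.pt b.tail (c + t)) := by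
  obtain ⟨t, h1, h2⟩ := hr
  rw [Nat.testBit_or, Nat.testBit_shiftLeft, Bool.or_eq_true, Bool.and_eq_true,
    decide_eq_true_eq] at h1
  exact h1.imp (fun h => ⟨t, h, h2⟩) fun h => ⟨t - c, h.2, by rwa [Nat.add_sub_cancel' h.1]⟩

omit M in
theorem Pend_mono {m : Bool} {ν : ℕ → V} {an : ℕ} {z : ℕ → Bool} {F F' : Set V} (h : F ⊆ F')
    {ω : Finset K} (hr : Pend G m key S y ν an z F ω) : Pend G m key S y ν an z F' ω :=
  hr.imp fun _ h' => ⟨h'.1, h'.2.1, h'.2.2.1.mono h, h'.2.2.2⟩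

section
variable (h7 : ∀ w, M.D w = 7) {b : List ℕ} (hb : Valid M.D b) (hl : 30 ≤ b.length)

theorem nv_own (a : ℕ) {x : ℕ} (hx : x < 8) : M.nv ((succ M.D)^[a] b) x = M.pt b (a + x) := by
  rw [nv, if_pos hx, pt_add]

include hl in
theorem nv_dn (a t : ℕ) :
    M.nv ((succ M.D)^[a] b) (40 + t) = M.pt b.tail (cnt (bt M.D b) a + t) := by
  rw [nv, if_neg (by omega), if_neg (by omega), tail_iter (by omega), pt_add,
    Nat.add_sub_cancel_left]

include h7 hl in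
theorem gx_spec (a : ℕ) : (succ M.D)^[M.gx b a] (3 :: b) = 3 :: (succ M.D)^[a] b :=
  three_iter h7 (by rintro rfl; simp at hl) a

include h7 hl in
theorem nv_up (a : ℕ) {x : ℕ} (hx : 8 ≤ x) (hx' : x < 40) :
    M.nv ((succ M.D)^[a] b) x = M.pt (3 :: b) (M.gx b a + (x - 8)) := by
  rw [nv, if_neg (by omega), if_pos hx', ← M.gx_spec h7 hl, pt_add]

include hb hl

theorem v3 : Valid M.D (3 :: b) := valid_three M.hD hb (by rintro rfl; simp at hl)

theorem up_lev (z : ℕ) : M.lev (M.pt (3 :: b) z) = b.length + 1 := M.pt_lev (M.v3 hb hl) z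

theorem own_inj {x x' : ℕ} (hx : x ≤ 100) (hx' : x' ≤ 100) (h : M.pt b x = M.pt b x') : x = x' :=
  M.pt_inj hb (by omega) (by omega) (by rintro rfl; simp at hl) h

theorem up_inj {x x' : ℕ} (hx : x ≤ 100) (hx' : x' ≤ 100)
    (h : M.pt (3 :: b) x = M.pt (3 :: b) x') : x = x' :=
  M.pt_inj (M.v3 hb hl) (by simp; omega) (by simp; omega) (by simp) h

theorem own_mem {lo hi x : ℕ} {Q : ℕ → Prop} (hx : x ≤ 100) (hh : hi ≤ 100) :
    M.pt b x ∈ M.Rg b lo hi Q ↔ ¬(lo ≤ x ∧ x ≤ hi) := by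
  refine ⟨?_, fun h => Or.inl ⟨(M.pt_lev hb x).le, fun x' a c e => ?_⟩⟩
  · rintro (h | ⟨z, -, -, e⟩) h'
    · exact h.2 x h'.1 h'.2 rfl
    · have := congrArg M.lev e
      rw [M.up_lev hb hl, M.pt_lev hb] at this
      omega
  · have := M.own_inj hb hl hx (by omega) e
    omega

theorem up_mem {lo hi z : ℕ} {Q : ℕ → Prop} (hz : z < 64) :
    M.pt (3 :: b) z ∈ M.Rg b lo hi Q ↔ Q z := by
  refine ⟨?_, fun h => Or.inr ⟨z, hz, h, rfl⟩⟩
  rintro (h | ⟨z', a, c, e⟩)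
  · have := h.1
    rw [M.up_lev hb hl] at this
    omega
  · rwa [M.up_inj hb hl (by omega) (by omega) e]

omit hl in
theorem low_mem {lo hi : ℕ} {Q : ℕ → Prop} {v : V} (hv : M.lev v < b.length) :
    v ∈ M.Rg b lo hi Q := Or.inl ⟨hv.le, fun x _ _ e => by
  rw [e, M.pt_lev hb] at hv; omega⟩

include h7

theorem nv_eq {a a' s s' : ℕ} (ha : a ≤ 8) (ha' : a' ≤ 8) (hs : s < 40)
    (h : M.nv ((succ M.D)^[a] b) s = M.nv ((succ M.D)^[a'] b) s') :
    (s < 8 ∧ s' < 8 ∧ a + s = a' + s') ∨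
      (8 ≤ s ∧ 8 ≤ s' ∧ s' < 40 ∧ M.gx b a + s = M.gx b a' + s') := by
  have h0 : ∀ a, (succ M.D)^[a] b ≠ [] := fun a => by
    rw [← List.length_pos_iff, length_iter]; omega
  have h1 := congrArg M.lev h
  rw [M.nv_lev (valid_iter M.hD hb _) (h0 _), M.nv_lev (valid_iter M.hD hb _) (h0 _),
    length_iter, length_iter] at h1
  have g1 := (M.gx_le b a 0).2
  have g2 := (M.gx_le b a' 0).2
  split_ifs at h1 with c1 c2 c3 c4 c5 <;> try omega
  · rw [M.nv_own a c1, M.nv_own a' c2] at h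
    have := M.own_inj hb hl (by omega) (by omega) h
    omega
  · rw [M.nv_up h7 hl a (by omega) hs, M.nv_up h7 hl a' (by omega) c5] at h
    have := M.up_inj hb hl (by omega) (by omega) h
    omega

variable [DecidableEq K] (hP : P.OK) (hkey : IsKey P.m key) (hy : y ∈ S) {Ω : Finset K}
  (hyn : M.lev y < b.length)
  (hΩ : ∀ u v, M.lev u ≤ b.length + 1 → M.lev v ≤ b.length + 1 → key u v ∈ Ω)
include hP hkey hy hΩ

omit h7 hP hkey hy [DecidableEq K] in
theorem nv_Ω (a s t : ℕ) : key (M.nv ((succ M.D)^[a] b) s) (M.nv ((succ M.D)^[a] b) t) ∈ Ω := by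
  have h : ∀ s, M.lev (M.nv ((succ M.D)^[a] b) s) ≤ b.length + 1 := fun s => by
    rw [M.nv_lev (valid_iter M.hD hb _) (by rw [← List.length_pos_iff, length_iter]; omega),
      length_iter]
    split_ifs <;> omega
  exact hΩ _ _ (h s) (h t)

theorem chk_st {a w X an tbl eps L : ℕ} {z : ℕ → Bool} {xs js : List ℕ}
    (h : P.chkS w X an tbl eps z (win (bt M.D ((succ M.D)^[a] b)) 0 L) xs js = true)
    (hz : ∀ x, z x = true → x < 40 ∧ x ≠ an) (han : an < 40) {F O : Set V} {F' : ℕ → Set V}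
    {ν : ℕ → V} (hν : ν = M.nv ((succ M.D)^[a] b))
    (h1 : ∀ x, z x = true → ν x ∈ F ∧ ν x ∈ O) (h2 : ∀ d, F' d ⊆ F ∧ y ∈ F' d)
    (h3 : ∀ v x, z x = true ∨ x = an → v.testBit x = true → ν x ∉ F' (dg 3 tbl (v % 256)))
    {Rest : Set V → Finset K → Prop} (hm : ∀ d ω, Rest (F' d) ω → Rest F ω)
    (hm' : ∀ d ω ω', ω ⊆ ω' → Rest (F' d) ω → Rest (F' d) ω')
    (hi : ∀ d s t ω, ν s ∉ F' d → (P.m = true → t = s) → (z s = true ∨ s = an) →
      (z t = true ∨ t = an ∨ 40 ≤ t) → Rest (F' d) (insert (key (ν s) (ν t)) ω) → Rest (F' d) ω)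
    (Ls : Finset ℕ) :
    St Ω ((P.a : ℝ≥0∞) / P.b) (EX Ω ((P.a : ℝ≥0∞) / P.b) fun ω => ind (OutS G key S y O ω)) Ls
      (dg w X) (fun s ω => Rest (F' (s % 8)) ω ∨ ∃ t, (s / 8).testBit t = true ∧
        Rch G key S y (F' (s % 8)) ω (ν (40 + t)))
      fun ω => Rest F ω ∨ Pend G P.m key S y ν an z F ω := by
  subst hν
  simp only [D7.chkS, Bool.or_eq_true, Bool.and_eq_true, frc_eq, decide_eq_true_eq] at h
  rcases h with h | ⟨⟨⟨a1, a2⟩, a3⟩, a4⟩
  · obtain rfl := Nat.eq_of_beq_eq_true h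
    intro c
    simp [dg]
  have hc := valid_iter M.hD hb a
  refine st_of (sum_xp hP.ab ..) (fun s => ((leD_spec a4).2 s).trans_eq (D7.tree_dg hP.ab ..)) ?_
  simp only [or_assoc]
  exact side_sound hkey hy hP.ab hP.b0
    (fun _ hx _ hx' => M.nv_inj hc (by rw [length_iter]; omega) hx hx')
    (fun _ _ => M.adj3_adj h7 hc (by rw [length_iter]; omega)) hz han a1 a2 a3
    (M.nv_Ω hb hl hΩ a) h1 h2 h3 hm hm' hi ..

end
end Chart
end Cert
end Pool.Agent.P.MP_e4ac67_pr
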