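import Pool.Agent.P.MP_e4ac67_pr.Geo

/-! TASK TURN: a simple cycle has small total turning. -/

namespace Pool.Agent.P.MP_e4ac67_pr
namespace PlaneTri
variable {V : Type} {T : PlaneTri V}

namespace Turn

/-- sum of an edge function along a vertex list -/
def sm (c : V → V → ZMod 2) : List V → ZMod 2
  | a :: b :: l => c a b + sm c (b :: l)
  | _ => 0

theorem sm_append (c : V → V → ZMod 2) (l : List V) (a : V) (r : List V) :
    sm c (l ++ a :: r) = sm c (l ++ [a]) + sm c (a :: r) := by
  induction l with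
  | nil => simp [sm]
  | cons x l ih =>
    obtain _ | ⟨y, l⟩ := l
    · simp [sm]
    · simp only [List.cons_append, sm] at ih ⊢
      rw [ih, add_assoc]

theorem sm_walk_append (c : V → V → ZMod 2) {G : SimpleGraph V} {a b d : V} (p : G.Walk a b)
    (q : G.Walk b d) : sm c (p.append q).support = sm c p.support + sm c q.support := by
  induction p with
  | nil => simp [sm]
  | @cons u v w h p ih =>
    rw [SimpleGraph.Walk.cons_append, SimpleGraph.Walk.support_cons, SimpleGraph.Walk.support_cons,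
      ← SimpleGraph.Walk.cons_tail_support (p.append q), ← SimpleGraph.Walk.cons_tail_support p, sm,
      sm, SimpleGraph.Walk.cons_tail_support, SimpleGraph.Walk.cons_tail_support, ih, add_assoc]

theorem sm_walk_cons (c : V → V → ZMod 2) {G : SimpleGraph V} {a b d : V} (h : G.Adj a b)
    (q : G.Walk b d) : sm c (SimpleGraph.Walk.cons h q).support = c a b + sm c q.support := by
  rw [SimpleGraph.Walk.support_cons, ← SimpleGraph.Walk.cons_tail_support q, sm]

theorem sm_walk_reverse {c : V → V → ZMod 2} (hc : ∀ a b, c a b = c b a) {G : SimpleGraph V}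
    {a b : V} (p : G.Walk a b) : sm c p.reverse.support = sm c p.support := by
  induction p with
  | nil => rfl
  | @cons u v w h p ih =>
    rw [SimpleGraph.Walk.reverse_cons, sm_walk_append, ih, sm_walk_cons, sm_walk_cons, hc v u,
      add_comm]
    simp [sm]

/-- a symmetric cocycle is a coboundary -/
theorem cobound {c : V → V → ZMod 2} (hc : ∀ a b, c a b = c b a)
    (hf : ∀ a b, T.G.Adj a b → c a b + c b (T.nx a b) = c a (T.nx a b)) (o : V) :
    ∃ g : V → ZMod 2, ∀ a b, T.G.Adj a b → g b = g a + c a b := by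
  have hm : ∀ l l', Relation.EqvGen (Move T.G T.nx) l l' → sm c l = sm c l' := by
    intro l l' h
    induction h with
    | rel x y h =>
      cases h with
      | back l r a b h =>
        rw [sm_append, sm_append c l a r, sm, sm, hc b a, ← add_assoc (c a b),
          CharTwo.add_self_eq_zero, zero_add]
      | tri l r a b h =>
        rw [sm_append, sm_append c l a (_ :: r), sm, sm, sm, ← add_assoc (c a b), hf a b h]
    | refl => rfl
    | symm _ _ _ ih => exact ih.symm
    | trans _ _ _ _ _ ih ih' => exact ih.trans ih'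
  have hw := fun v => (T.conn o v).some
  refine ⟨fun v => sm c (hw v).support, fun a b h => ?_⟩
  have := hm _ _ (T.simplyConn o ((hw a).append (SimpleGraph.Walk.cons h (hw b).reverse)))
  rw [sm_walk_append, sm_walk_cons, sm_walk_reverse hc, ← add_assoc] at this
  exact (CharTwo.add_eq_zero.1 this).symm

open Classical in
theorem edge_count (h8 : ∀ v, 8 ≤ T.deg v) (o : V) (A : Finset V) :
    ∑ v ∈ A, (A.filter fun w => T.G.Adj v w).card ≤ 8 * A.card := by
  have h6 : ∀ v, 6 ≤ T.deg v := fun v => by have := h8 v; omega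
  have h1 : ∀ v, (A.filter fun w => T.G.Adj v w ∧ T.d o w ≤ T.d o v).card ≤ 4 := by
    intro v
    refine le_trans (Finset.card_le_card fun w hw => ?_) (st4 h6 o v)
    rw [Finset.mem_filter] at hw ⊢
    exact ⟨mem_nbr.2 hw.2.1, hw.2.2⟩
  have h2 : ∑ v ∈ A, (A.filter fun w => T.G.Adj v w ∧ T.d o w ≤ T.d o v).card ≤ 4 * A.card := by
    rw [mul_comm, ← smul_eq_mul]
    exact Finset.sum_le_card_nsmul _ _ _ fun v _ => h1 v
  have h3 : ∑ v ∈ A, (A.filter fun w => T.G.Adj w v ∧ T.d o v ≤ T.d o w).card =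
      ∑ v ∈ A, (A.filter fun w => T.G.Adj v w ∧ T.d o w ≤ T.d o v).card := by
    simp only [Finset.card_filter]
    exact Finset.sum_comm
  calc ∑ v ∈ A, (A.filter fun w => T.G.Adj v w).card
      ≤ ∑ v ∈ A, ((A.filter fun w => T.G.Adj v w ∧ T.d o w ≤ T.d o v).card +
        (A.filter fun w => T.G.Adj w v ∧ T.d o v ≤ T.d o w).card) := by
        refine Finset.sum_le_sum fun v _ => ?_
        refine le_trans (Finset.card_le_card fun w hw => ?_) (Finset.card_union_le _ _)
        rw [Finset.mem_filter] at hw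
        rw [Finset.mem_union, Finset.mem_filter, Finset.mem_filter]
        rcases le_total (T.d o w) (T.d o v) with h | h
        · exact Or.inl ⟨hw.1, hw.2, h⟩
        · exact Or.inr ⟨hw.1, hw.2.symm, h⟩
    _ ≤ 8 * A.card := by rw [Finset.sum_add_distrib, h3]; omega

open Classical in
theorem card_rot_le {v x : V} (h : T.G.Adj v x) (A : Finset V) (J : Finset ℕ)
    (hJ : ∀ j ∈ J, j < T.deg v ∧ T.rot v x j ∈ A) :
    J.card ≤ (A.filter fun w => T.G.Adj v w).card := by
  refine Finset.card_le_card_of_injOn (fun j => T.rot v x j) (fun j hj => ?_) fun i hi j hj e => ?_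
  · exact Finset.mem_coe.2 (Finset.mem_filter.2 ⟨(hJ j hj).2, adj_rot h j⟩)
  · exact rot_inj h (hJ i hi).1 (hJ j hj).1 e

open Classical in
/-- indicator with values modulo two -/
noncomputable def iz (A : Prop) : ZMod 2 := if A then 1 else 0

theorem iz_congr {A B : Prop} (h : A ↔ B) : iz A = iz B := by rw [propext h]
theorem iz_of {A : Prop} (h : A) : iz A = 1 := if_pos h
theorem iz_of_not {A : Prop} (h : ¬A) : iz A = 0 := if_neg h

theorem corner_arith {p l : ℕ} (hl : 0 < l) :
    iz (0 < p ∧ p < l) + iz (0 < p + 1 ∧ p + 1 < l) = iz (p = 0) + iz (p + 1 = l) := by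
  rcases Nat.eq_zero_or_pos p with rfl | hp
  · rw [iz_of_not (by omega), iz_of rfl]
    by_cases h : 0 + 1 = l
    · rw [iz_of h, iz_of_not (by omega)]; rfl
    · rw [iz_of_not h, iz_of (by omega)]; rfl
  · rw [iz_of_not hp.ne']
    rcases lt_trichotomy (p + 1) l with h | h | h
    · rw [iz_of (by omega), iz_of (by omega), iz_of_not h.ne]; rfl
    · rw [iz_of (by omega), iz_of_not (by omega), iz_of h]; rfl
    · rw [iz_of_not (by omega), iz_of_not (by omega), iz_of_not h.ne']

theorem main (h8 : ∀ v, 8 ≤ T.deg v) (Lp : Finset V) (sc pr : V → V) (o : V)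
    (hsc : ∀ v ∈ Lp, sc v ∈ Lp ∧ T.G.Adj v (sc v) ∧ pr (sc v) = v)
    (hpr : ∀ v ∈ Lp, pr v ∈ Lp ∧ T.G.Adj v (pr v) ∧ sc (pr v) = v)
    (hne : ∀ v ∈ Lp, sc v ≠ pr v) :
    ∑ v ∈ Lp, T.ang v (pr v) (sc v) ≤ 7 * Lp.card := by
  classical
  have h6 : ∀ v, 6 ≤ T.deg v := fun v => by have := h8 v; omega
  let lf : V → V → Prop := fun v x =>
    v ∈ Lp ∧ 0 < T.pos v (pr v) x ∧ T.pos v (pr v) x < T.pos v (pr v) (sc v)
  have hl : ∀ v ∈ Lp, 0 < T.pos v (pr v) (sc v) ∧ T.pos v (pr v) (sc v) < T.deg v := by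
    intro v hv
    refine ⟨Nat.pos_of_ne_zero fun h => hne v hv ?_, pos_lt (hpr v hv).2.1 (hsc v hv).2.1⟩
    rw [← rot_pos (hpr v hv).2.1 (hsc v hv).2.1, h, rot_zero]
  have corner : ∀ v x, T.G.Adj v x → iz (lf v x) + iz (lf v (T.nx v x)) =
      iz (v ∈ Lp ∧ x = pr v) + iz (v ∈ Lp ∧ T.nx v x = sc v) := by
    intro v x hx
    by_cases hv : v ∈ Lp
    swap
    · rw [iz_of_not fun h => hv h.1, iz_of_not fun h => hv h.1, iz_of_not fun h => hv h.1,
        iz_of_not fun h => hv h.1]
    have ha := (hpr v hv).2.1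
    obtain ⟨p, hp, rfl⟩ := rot_surj ha hx
    obtain ⟨l0, l1⟩ := hl v hv
    have e0 : (T.rot v (pr v) p = pr v) ↔ p = 0 :=
      ⟨fun h => rot_inj ha hp (by omega) h, fun h => by rw [h, rot_zero]⟩
    rw [← rot_succ]
    simp only [lf, hv, true_and, e0, pos_rot ha hp]
    rcases lt_or_eq_of_le (Nat.succ_le_of_lt hp) with h | h
    · have e1 : (T.rot v (pr v) (p + 1) = sc v) ↔ p + 1 = T.pos v (pr v) (sc v) :=
        ⟨fun e => by rw [← e, pos_rot ha h], fun e => by rw [e, rot_pos ha (hsc v hv).2.1]⟩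
      rw [pos_rot ha h, iz_congr e1]
      exact corner_arith l0
    · have h' : p + 1 = T.deg v := h
      have e2 : T.pos v (pr v) (pr v) = 0 := pos_rot ha (j := 0) (by omega)
      have := h8 v
      rw [h', rot_deg ha, e2, iz_of_not (by omega), iz_of_not (by omega), iz_of_not (by omega),
        iz_of_not (hne v hv).symm]
  have pair : ∀ a b, iz (a ∈ Lp ∧ b = pr a) = iz (b ∈ Lp ∧ a = sc b) := fun a b =>
    iz_congr ⟨fun ⟨h, e⟩ => e ▸ ⟨(hpr a h).1, (hpr a h).2.2.symm⟩,
      fun ⟨h, e⟩ => e ▸ ⟨(hsc b h).1, (hsc b h).2.2.symm⟩⟩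
  obtain ⟨g0, hg0⟩ := cobound (T := T) (c := fun a b => iz (lf a b) + iz (lf b a))
    (fun a b => add_comm _ _) (fun a b h => by
      have c1 := corner a b h
      have c2 := corner b (T.nx a b) (adj_nx2 h)
      have c3 := corner (T.nx a b) a (adj_nx1 h).symm
      rw [face1 h rfl] at c2
      rw [face2 h rfl] at c3
      rw [pair a b] at c1
      rw [pair b (T.nx a b)] at c2
      rw [pair (T.nx a b) a] at c3
      have two : (2 : ZMod 2) = 0 := rfl
      linear_combination c1 + c2 + c3 + (iz (b ∈ Lp ∧ a = sc b) + iz (a ∈ Lp ∧ T.nx a b = sc a) +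
        iz (T.nx a b ∈ Lp ∧ b = sc (T.nx a b)) - iz (lf a (T.nx a b)) -
        iz (lf (T.nx a b) a)) * two) o
  obtain ⟨n, hn1, hn⟩ : ∃ n : ℕ, 1 ≤ n ∧ ∀ v ∈ Lp, T.d o v < n :=
    ⟨Lp.sup (T.d o) + 1, by omega, fun v hv => Nat.lt_succ_of_le (Finset.le_sup hv)⟩
  have hoff : ∀ a b, T.G.Adj a b → ¬lf a b → b ∉ Lp → g0 b = g0 a := by
    intro a b h h1 h2
    rw [hg0 a b h, iz_of_not h1, iz_of_not fun h => h2 h.1, add_zero, add_zero]
  obtain ⟨κ, hκ⟩ : ∃ κ : ZMod 2, ∀ p, n ≤ T.d o p → g0 p = κ := by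
    by_cases hex : ∃ q, n ≤ T.d o q
    · obtain ⟨q, hq⟩ := hex
      refine ⟨g0 q, fun p hp => ?_⟩
      have := sph h6 o hn1 hq hp
      clear hp
      induction this with
      | refl => rfl
      | tail _ h ih =>
        rw [← ih]
        exact hoff _ _ h.1 (fun e => (hn _ e.1).not_ge h.2.1) fun e => (hn _ e).not_ge h.2.2
    · exact ⟨0, fun p hp => absurd ⟨p, hp⟩ hex⟩
  have hfin : {v | g0 v ≠ κ}.Finite :=
    (ball_finite (T := T) o n).subset fun v hv => (lt_of_not_ge fun h => hv (hκ v h)).le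
  set A := hfin.toFinset ∪ Lp with hA
  have memA : ∀ v, v ∈ A ↔ g0 v ≠ κ ∨ v ∈ Lp := fun v => by simp [hA]
  have hsub : Lp ⊆ A := Finset.subset_union_right
  have k1 : ∀ v ∈ A \ Lp, 8 ≤ (A.filter fun w => T.G.Adj v w).card := by
    intro v hv
    rw [Finset.mem_sdiff, memA] at hv
    refine (h8 v).trans ?_
    rw [← card_nbr]
    refine Finset.card_le_card fun w hw => Finset.mem_filter.2 ⟨(memA w).2 ?_, mem_nbr.1 hw⟩
    by_cases hw' : w ∈ Lp
    · exact Or.inr hw'
    · rw [hoff v w (mem_nbr.1 hw) (fun h => hv.2 h.1) hw']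
      exact Or.inl (hv.1.resolve_right hv.2)
  have k2 : ∀ v ∈ Lp, T.ang v (pr v) (sc v) + 1 ≤ (A.filter fun w => T.G.Adj v w).card := by
    intro v hv
    have ha := (hpr v hv).2.1
    obtain ⟨l0, l1⟩ := hl v hv
    have es := rot_pos ha (hsc v hv).2.1
    by_cases hg : g0 v = κ
    · refine le_trans ?_ (card_rot_le ha A (Finset.range (T.pos v (pr v) (sc v) + 1))
        fun j hj => ?_)
      · rw [Finset.card_range, ang]; omega
      · rw [Finset.mem_range] at hj
        have hj' : j < T.deg v := by omega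
        refine ⟨hj', (memA _).2 ?_⟩
        by_cases hw : T.rot v (pr v) j ∈ Lp
        · exact Or.inr hw
        left
        have j0 : j ≠ 0 := by rintro rfl; exact hw (hpr v hv).1
        have j1 : j ≠ T.pos v (pr v) (sc v) := by
          rintro rfl; rw [es] at hw; exact hw (hsc v hv).1
        rw [hg0 v _ (adj_rot ha j), iz_of (show lf v _ from ⟨hv, by rw [pos_rot ha hj']; omega⟩),
          iz_of_not fun h => hw h.1, hg]
        simp
    · refine le_trans ?_ (card_rot_le ha A
        (insert 0 (Finset.Ico (T.pos v (pr v) (sc v)) (T.deg v))) fun j hj => ?_)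
      · rw [Finset.card_insert_of_notMem (by simp; omega), Nat.card_Ico, ang]; omega
      · rw [Finset.mem_insert, Finset.mem_Ico] at hj
        have hj' : j < T.deg v := by omega
        refine ⟨hj', (memA _).2 ?_⟩
        by_cases hw : T.rot v (pr v) j ∈ Lp
        · exact Or.inr hw
        left
        rw [hoff v _ (adj_rot ha j) (fun h => ?_) hw]
        · exact hg
        · have := h.2
          rw [pos_rot ha hj'] at this
          omega
  have e1 := edge_count h8 o A
  rw [← Finset.sum_sdiff hsub, ← Finset.card_sdiff_add_card_eq_card hsub] at e1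
  have e2 := Finset.card_nsmul_le_sum _ _ _ k1
  have e3 := Finset.sum_le_sum k2
  rw [Finset.sum_add_distrib, Finset.sum_const] at e3
  simp only [smul_eq_mul] at e2 e3
  omega

end Turn

theorem turn (h8 : ∀ v, 8 ≤ T.deg v) (f : ℕ → V) {m : ℕ} (hm : 3 ≤ m)
    (hadj : ∀ i < m, T.G.Adj (f i) (f (i + 1))) (hcl : f m = f 0)
    (hinj : ∀ i < m, ∀ j < m, f i = f j → i = j) :
    T.ang (f 0) (f (m - 1)) (f 1) +
      ∑ i ∈ Finset.range (m - 1), T.ang (f (i + 1)) (f i) (f (i + 2)) ≤ 7 * m := by
  classical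
  let ix : V → ℕ := fun v => if h : ∃ i < m, f i = v then h.choose else 0
  have hix : ∀ i < m, ix (f i) = i := by
    intro i hi
    have h : ∃ j < m, f j = f i := ⟨i, hi, rfl⟩
    simp only [ix, dif_pos h]
    exact hinj _ h.choose_spec.1 _ hi h.choose_spec.2
  let sc : V → V := fun v => f (ix v + 1)
  let pr : V → V := fun v => if ix v = 0 then f (m - 1) else f (ix v - 1)
  have s1 : ∀ i < m, sc (f i) = f (i + 1) := fun i hi => by simp only [sc, hix i hi]
  have p0 : pr (f 0) = f (m - 1) := by simp only [pr, hix 0 (by omega), if_true]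
  have p1 : ∀ i < m, pr (f (i + 1)) = f i := by
    intro i hi
    rcases lt_or_eq_of_le (Nat.succ_le_of_lt hi) with h | h
    · simp only [pr, hix (i + 1) h]
      simp
    · have h' : i + 1 = m := h
      rw [h', hcl, p0, ← h', Nat.add_sub_cancel]
  have back : ∀ i < m, ∃ j < m, f i = f (j + 1) := by
    intro i hi
    obtain _ | i := i
    · exact ⟨m - 1, by omega, by rw [Nat.sub_add_cancel (by omega), hcl]⟩
    · exact ⟨i, by omega, rfl⟩
  have hI : Set.InjOn f (Finset.range m : Set ℕ) := fun i hi j hj e =>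
    hinj i (by simpa using hi) j (by simpa using hj) e
  have key := Turn.main h8 ((Finset.range m).image f) sc pr (f 0) (fun v hv => by
      obtain ⟨i, hi, rfl⟩ := Finset.mem_image.1 hv
      rw [Finset.mem_range] at hi
      rw [s1 i hi]
      refine ⟨?_, hadj i hi, p1 i hi⟩
      rcases lt_or_eq_of_le (Nat.succ_le_of_lt hi) with h | h
      · exact Finset.mem_image_of_mem _ (Finset.mem_range.2 h)
      · have h' : i + 1 = m := h
        rw [h', hcl]
        exact Finset.mem_image_of_mem _ (Finset.mem_range.2 (by omega)))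
    (fun v hv => by
      obtain ⟨i, hi, rfl⟩ := Finset.mem_image.1 hv
      obtain ⟨j, hj, e⟩ := back i (Finset.mem_range.1 hi)
      rw [e, p1 j hj]
      exact ⟨Finset.mem_image_of_mem _ (Finset.mem_range.2 hj), (hadj j hj).symm, s1 j hj⟩)
    (fun v hv => by
      obtain ⟨i, hi, rfl⟩ := Finset.mem_image.1 hv
      rw [Finset.mem_range] at hi
      rw [s1 i hi]
      obtain _ | i := i
      · rw [p0]
        intro e
        have := hinj _ (by omega) _ (by omega) e
        omega
      · rw [p1 i (by omega)]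
        intro e
        rcases lt_or_eq_of_le (Nat.succ_le_of_lt hi) with h | h
        · have := hinj _ h _ (by omega) e
          omega
        · have h' : i + 1 + 1 = m := h
          rw [h', hcl] at e
          have := hinj _ (by omega) _ (by omega) e
          omega)
  rw [Finset.sum_image hI, Finset.card_image_of_injOn hI, Finset.card_range] at key
  obtain ⟨n, rfl⟩ : ∃ n, m = n + 1 := ⟨m - 1, by omega⟩
  rw [Finset.sum_range_succ', p0, s1 0 (by omega), add_comm] at key
  refine le_trans (le_of_eq ?_) key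
  congr 1
  refine Finset.sum_congr rfl fun i hi => ?_
  rw [Finset.mem_range] at hi
  rw [p1 i (by omega), s1 (i + 1) (by omega)]

end PlaneTri
end Pool.Agent.P.MP_e4ac67_pr
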