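import Pool.Agent.P.MP_e4ac67_pr.MainSum
import Pool.Agent.P.MP_e4ac67_pr.Stops
import Pool.Agent.P.MP_e4ac67_pr.Prime
import Pool.Agent.P.MP_e4ac67_pr.Bonus

/-! The first-moment bound on `T`. -/

open scoped ENNReal

namespace Pool.Agent.P.MP_e4ac67_pr

theorem Par.one_sub_pow {k : ℕ} (Q : Par k) : (2⁻¹ : ℝ≥0∞) ^ 11 ≤ (1 - Q.p) ^ k := by
  have h1 := Q.p_le_one
  have h2 := Q.kp
  have h3 := Q.big
  generalize Q.p = p at *
  lift p to NNReal using ne_top_of_le_ne_top (by simp) h1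
  have h1' : (p : ℝ) ≤ 1 := by exact_mod_cast h1
  have h2' : (k : ℝ) * p ≤ 5 := by exact_mod_cast h2
  have hp0 : (0 : ℝ) ≤ p := p.2
  have key : ((2 : ℝ)⁻¹) ^ 11 ≤ (1 - p) ^ k := by
    have hm : (1 : ℝ) + (k / 10 : ℕ) * (-(p : ℝ)) ≤ (1 + -(p : ℝ)) ^ (k / 10) :=
      one_add_mul_le_pow (by linarith) _
    have hm2 : ((k / 10 : ℕ) : ℝ) * 10 ≤ k := by exact_mod_cast Nat.div_mul_le_self k 10
    have hm3 : (2 : ℝ)⁻¹ ≤ (1 - p) ^ (k / 10) := by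
      rw [sub_eq_add_neg]; nlinarith
    calc ((2 : ℝ)⁻¹) ^ 11 ≤ ((1 - (p : ℝ)) ^ (k / 10)) ^ 11 := by gcongr
      _ = (1 - (p : ℝ)) ^ (k / 10 * 11) := by rw [← pow_mul]
      _ ≤ (1 - (p : ℝ)) ^ k := pow_le_pow_of_le_one (by linarith) (by linarith) (by omega)
  have e1 : (1 - (p : ℝ≥0∞)) ^ k = ENNReal.ofReal ((1 - p) ^ k) := by
    rw [ENNReal.ofReal_pow (by linarith), ENNReal.ofReal_sub _ hp0]; simp
  have e2 : (2⁻¹ : ℝ≥0∞) ^ 11 = ENNReal.ofReal (((2 : ℝ)⁻¹) ^ 11) := by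
    rw [ENNReal.ofReal_pow (by norm_num), ENNReal.ofReal_inv_of_pos (by norm_num)]; simp
  rw [e1, e2]
  exact ENNReal.ofReal_le_ofReal key

theorem Par.lam_pow {k : ℕ} (Q : Par k) (b : ℕ) :
    lam ^ b ≤ 2 ^ 11 * (2⁻¹ ^ b * (1 - Q.p) ^ (k * (b + 1))) := by
  have h2 : (2 : ℝ≥0∞) * 2⁻¹ = 1 := ENNReal.mul_inv_cancel (by norm_num) (by norm_num)
  have hl : lam = 2⁻¹ * 2⁻¹ ^ 11 := by
    rw [lam, ← pow_succ', ← ENNReal.inv_pow]; norm_num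
  calc lam ^ b = 2 ^ 11 * (2⁻¹ ^ b * (2⁻¹ ^ 11) ^ (b + 1)) := by
        rw [hl, mul_pow, pow_succ ((2⁻¹ : ℝ≥0∞) ^ 11)]
        calc _ = (2 * 2⁻¹ : ℝ≥0∞) ^ 11 * (2⁻¹ ^ b * (2⁻¹ ^ 11) ^ b) := by rw [h2]; simp
          _ = _ := by rw [mul_pow]; ring
    _ ≤ _ := by
        rw [pow_mul (1 - Q.p)]
        exact mul_le_mul_right (mul_le_mul_right (pow_le_pow_left' Q.one_sub_pow _) _) _

theorem Reach.mono {V K : Type} {G : SimpleGraph V} {key : V → V → K} {F F' : Set V}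
    (h : F ⊆ F') {y : V} {ω : Finset K} {v : V} (hr : Reach G key F y ω v) :
    Reach G key F' y ω v := by
  induction hr with
  | base => exact .base
  | step _ ha hv hk ih => exact .step ih ha (h hv) hk

namespace Setup
variable {V V' K K' : Type} {k : ℕ} (X : Setup V V' K K' k)

theorem sum_b (R : Rho X.T) (hk : 10000 ≤ k) {p : ℝ≥0∞} (hp : p ≤ 1) {Ω : Finset K}
    (hΩ : KeysOK X.T.G X.key X.S Ω) (N b : ℕ) :
    ∑' x : Wd k × Wd k,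
      ind ((X.T.State X.Tg N X.g x.1 x.2 ∧ ¬X.T.Root X.g x.1 x.2) ∧ x.2.length = b) *
      (EX X.Ωw p fun ξ => EX Ω p fun η =>
        ind (X.H ξ x.1 x.2 ∧ X.GC x.1 x.2 (X.om X.top ξ η)) *
          ∑' κ, ind (X.ExX R (X.T.run X.g (x.1 ++ x.2)) (X.om X.top ξ η) κ)) ≤
      X.Val R Ω p X.g := by
  simp only [← EX_mul_left]
  rw [← EX_tsum]
  have h0 := EX_om (X := X) hp hΩ (Nat.zero_le _)
    (fun _ ω => NE X.T.G X.key X.S (R.Fr X.g) X.g.2 ω) (fun _ _ _ _ => rfl)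
  have h1 : X.Val R Ω p X.g = EX X.Ωw p fun ξ => EX Ω p fun η =>
      NE X.T.G X.key X.S (R.Fr X.g) X.g.2 (X.om X.top ξ η) := by
    rw [h0]
    simp only [om, ovr_zero]
    rw [EX_const hp]; rfl
  rw [h1]
  refine EX_mono fun ξ _ => ?_
  rw [← EX_tsum]
  refine EX_mono fun η _ => ?_
  simp only [← ENNReal.tsum_mul_left, ← ind_and]
  rw [ENNReal.tsum_comm]
  refine ENNReal.tsum_le_tsum fun κ => tsum_ind_le_of_unique _ ?_ ?_
  · rintro x ⟨⟨⟨h1, h2⟩, -⟩, ⟨h3, h4⟩, h5⟩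
    exact exit_of R hk (fun u hu h0 => acc_kw_mem hu h0 η) h1 h2 h3 h4 h5
  · rintro x y ⟨⟨⟨h1, h2⟩, hx⟩, ⟨h3, h4⟩, h5⟩ ⟨⟨⟨h1', h2'⟩, hy⟩, ⟨h3', h4'⟩, h5'⟩
    have := mult R hk (fun u hu h0 => acc_kw_mem hu h0 η) h1 h2 h3 h4 h1' h2' h3' h4'
      (hx.trans hy.symm) h5 h5'
    exact Prod.ext this.1 this.2

theorem SG_le (R : Rho X.T) (Q : Par k) {Ω : Finset K} (hΩ : KeysOK X.T.G X.key X.S Ω) (N : ℕ)
    (IH : ∀ σ γ, X.T.State X.Tg N X.g σ γ → X.T.Good X.g σ γ → X.hd (σ ++ γ) ∈ X.S →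
      (X.T.bonus k (X.T.run X.g (σ ++ γ))).2 ∈ X.S →
      1 ≤ 8 * (Q.p * X.Val R Ω Q.p (X.T.bonus k (X.T.run X.g (σ ++ γ))))) :
    X.T.SG X.Tg N X.g Q.p (X.Pg Q.p) ≤ 2 ^ 15 * (Q.p * X.Val R Ω Q.p X.g) := by
  set B : Wd k × Wd k → ℝ≥0∞ := fun x => EX X.Ωw Q.p fun ξ => EX Ω Q.p fun η =>
        ind (X.H ξ x.1 x.2 ∧ X.GC x.1 x.2 (X.om X.top ξ η)) *
          ∑' κ, ind (X.ExX R (X.T.run X.g (x.1 ++ x.2)) (X.om X.top ξ η) κ) with hB
  calc X.T.SG X.Tg N X.g Q.p (X.Pg Q.p)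
      ≤ ∑' x : Wd k × Wd k, ∑' b : ℕ, 2 ^ 14 * Q.p * (2⁻¹ ^ b *
        (ind ((X.T.State X.Tg N X.g x.1 x.2 ∧ ¬X.T.Root X.g x.1 x.2) ∧ x.2.length = b) * B x)) := by
        refine ENNReal.tsum_le_tsum fun x => ind_mul_le fun hs => ?_
        refine le_trans ?_ (ENNReal.le_tsum x.2.length)
        rw [ind_of (show _ ∧ _ from ⟨hs, rfl⟩), one_mul]
        have h1 := X.bonus_lower R Q.big Q.p_le_one hΩ hs.1 hs.2 (IH _ _ hs.1)
        calc X.Pg Q.p x.1 x.2 * wA Q.p x.2.length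
            = X.Pg Q.p x.1 x.2 * (Q.p * (lam ^ x.2.length * Q.p ^ x.2.length)) := by
              rw [wA, mul_pow]
          _ ≤ X.Pg Q.p x.1 x.2 * (Q.p * (2 ^ 11 * (2⁻¹ ^ x.2.length *
                (1 - Q.p) ^ (k * (x.2.length + 1))) * Q.p ^ x.2.length)) := by
              gcongr; exact Q.lam_pow _
          _ = 2 ^ 11 * Q.p * 2⁻¹ ^ x.2.length * (X.Pg Q.p x.1 x.2 *
                (Q.p ^ x.2.length * (1 - Q.p) ^ (k * (x.2.length + 1)))) := by ring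
          _ ≤ 2 ^ 11 * Q.p * 2⁻¹ ^ x.2.length * (8 * B x) := by gcongr
          _ = _ := by ring
    _ = 2 ^ 14 * Q.p * ∑' b : ℕ, 2⁻¹ ^ b * ∑' x : Wd k × Wd k,
        ind ((X.T.State X.Tg N X.g x.1 x.2 ∧ ¬X.T.Root X.g x.1 x.2) ∧ x.2.length = b) * B x := by
        rw [ENNReal.tsum_comm]
        simp only [ENNReal.tsum_mul_left]
    _ ≤ 2 ^ 14 * Q.p * ∑' b : ℕ, 2⁻¹ ^ b * X.Val R Ω Q.p X.g := by
        gcongr with b
        exact X.sum_b R Q.big Q.p_le_one hΩ N b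
    _ = _ := by
        rw [ENNReal.tsum_mul_right, ENNReal.tsum_geometric, ENNReal.one_sub_inv_two, inv_inv]
        ring

end Setup

namespace PlaneTri
variable {V V' K K' : Type} {T : PlaneTri V} {T' : PlaneTri V'} {k : ℕ}

theorem value_gate (hT : ∀ v, k ≤ T.deg v) (hT' : ∀ v, T'.deg v = k) (Q : Par k) {m : Bool}
    {key : V → V → K} {key' : V' → V' → K'} (hkey : IsKey m key) (hkey' : IsKey m key')
    (h : Perc T'.G key' Q.p) (R : Rho T) (S : Finset V) {Ω : Finset K}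
    (hΩ : KeysOK T.G key S Ω) (n : ℕ) : ∀ g : V × V, T.Dart g → g.2 ∈ S →
      {v | v ∈ S ∧ (v = g.2 ∨ v ∈ R.Fr g)}.ncard = n →
      1 ≤ 8 * (Q.p * EX Ω Q.p (NE T.G key S (R.Fr g) g.2)) := by
  induction n using Nat.strong_induction_on with
  | _ n ih =>
  intro g hg hS hn
  have hk := Q.big
  obtain ⟨y, hy⟩ := prime0 Q.p_le_one h (words k S.card).card
  obtain ⟨z', hz'⟩ := exists_adj (T := T') (fun v => by rw [hT']; omega) y
  let X : Setup V V' K K' k :=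
    ⟨T, T', hT, hT', m, key, key', hkey, hkey', g, hg, (z', y), hz'.symm, S, hS⟩
  have h1 := X.prime1 Q.p_le_one hy
  have h2 := X.stop_le Q.p_le_one
  have h3 := X.direct_le R Q.p_le_one hΩ
  have h4 := mainsum X.hT X.hT' Q Setup.hTg X.S.card X.hg X.hδ (P := X.PA Q.p) (Pg := X.Pg Q.p)
    (Setup.PA_le Q.p_le_one) (fun σ γ _ _ => X.wit_le Q.p_le_one σ γ)
  have h5 := X.SG_le R Q hΩ X.S.card fun σ γ hs hG hz hy => by
    have hdeg : k < T.deg (T.hd g (σ ++ γ)) := by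
      have := hs.1.1
      rw [← hd_append] at this
      exact lt_of_le_of_ne (hT _) (Ne.symm (this.resolve_left fun h => h hz))
    refine ih _ ?_ _ (bonus_dart (run_dart hg _) k) hy rfl
    rw [← hn]
    refine Set.ncard_lt_ncard ⟨fun v hv => ⟨hv.1, Or.inr (hG.front R hg hk hdeg hv.2).2.2.2⟩,
      fun hsub => ?_⟩ (S.finite_toSet.subset fun v hv => hv.1)
    have hz2 : T.hd g (σ ++ γ) = g.2 ∨ T.hd g (σ ++ γ) ∈ R.Fr g := by
      by_cases h0 : σ ++ γ = []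
      · rw [h0]; exact Or.inl rfl
      · exact Or.inr ((R.nonslow hg fun i hi => hG.2.1 i (by simpa using hi)).2 h0)
    exact (hG.front R hg hk hdeg (hsub ⟨hz, hz2⟩).2).1 rfl
  exact finish (h1.trans (mul_le_mul_right (h2.trans
    (add_le_add le_rfl (mul_le_mul_right h3 _))) _)) h4 h5

theorem value (hT : ∀ v, k ≤ T.deg v) (hT' : ∀ v, T'.deg v = k) (Q : Par k) {m : Bool}
    {key : V → V → K} {key' : V' → V' → K'} (hkey : IsKey m key) (hkey' : IsKey m key')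
    (h : Perc T'.G key' Q.p) (o : V) : Phi T.G key Q.p o := by
  intro S hS Ω hΩ
  have hk := Q.big
  obtain ⟨R⟩ := exists_rho (T := T) fun v => le_trans (by omega) (hT v)
  obtain ⟨z, hz⟩ := exists_adj (T := T) (fun v => lt_of_lt_of_le (by omega) (hT v)) o
  refine (value_gate hT hT' Q hkey hkey' h R S hΩ _ (z, o) hz.symm hS rfl).trans ?_
  gcongr
  refine EX_mono fun ω _ => ENNReal.tsum_le_tsum fun κ => ind_mono ?_
  rintro ⟨u, v, h1, h2, h3, -, h5⟩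
  exact ⟨u, v, h1.mono (Set.inter_subset_inter_right _ (Set.subset_univ _)), h2, h3, trivial, h5⟩

end PlaneTri
end Pool.Agent.P.MP_e4ac67_pr
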